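import Pool.Agent.Lib.MP_87c84d_gt.Abel1

/-!
The Abel operators on the triangles `U s`.
-/

namespace Pool.Agent.Lib.MP_87c84d_gt

open MeasureTheory Set Metric Filter Topology

noncomputable section

namespace Abel

lemma cont_ray {g : ℂ → ℂ} {s : ℝ} (hs : 0 ≤ s) (hg : DifferentiableOn ℂ g (U s)) {y : ℂ}
    (hy : y ∈ U s) : ContinuousOn (fun r : ℝ => g (r * y)) (Ioo 0 1) :=
  hg.continuousOn.comp (by fun_prop) fun _ hr => U.star hs hy (ioc hr)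

lemma ray_der {g : ℂ → ℂ} {s : ℝ} (hs : 0 ≤ s) (hg : DifferentiableOn ℂ g (U s)) {y : ℂ}
    (hy : y ∈ U s) {r : ℝ} (hr : r ∈ Ioc (0 : ℝ) 1) :
    HasDerivAt (fun r : ℝ => g (r * y)) (deriv g (r * y) * y) r :=
  (((hg.differentiableAt ((isOpen_U s).mem_nhds (U.star hs hy hr))).hasDerivAt).comp (r : ℂ)
    (hasDerivAt_mul_const y)).comp_ofReal

lemma nonneg_of {g : ℂ → ℂ} {s B : ℝ} {n : ℕ} (hb : ∀ y ∈ U s, ‖g y‖ ≤ B * ‖y‖ ^ n) {y : ℂ}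
    (hy : y ∈ U s) : 0 ≤ B :=
  nonneg_of_mul_nonneg_left ((norm_nonneg _).trans (hb y hy)) (pow_pos (U.norm_pos hy) n)

lemma ray_le {g : ℂ → ℂ} {s B : ℝ} {n : ℕ} (hs : 0 ≤ s)
    (hb : ∀ y ∈ U s, ‖g y‖ ≤ B * ‖y‖ ^ n) {y : ℂ} (hy : y ∈ U s) {r : ℝ}
    (hr : r ∈ Ioc (0 : ℝ) 1) : ‖g (r * y)‖ ≤ B * ‖y‖ ^ n * r ^ n := by
  refine (hb _ (U.star hs hy hr)).trans_eq ?_
  rw [norm_mul, Complex.norm_real, Real.norm_of_nonneg hr.1.le]
  ring

lemma ray_le' {g : ℂ → ℂ} {s B : ℝ} {n : ℕ} (hs : 0 ≤ s)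
    (hb : ∀ y ∈ U s, ‖g y‖ ≤ B * ‖y‖ ^ n) {y : ℂ} (hy : y ∈ U s) {r : ℝ}
    (hr : r ∈ Ioc (0 : ℝ) 1) : ‖g (r * y)‖ ≤ B * ‖y‖ ^ n := by
  have := nonneg_of hb hy
  exact (ray_le hs hb hy hr).trans
    (mul_le_of_le_one_right (by positivity) (pow_le_one₀ hr.1.le hr.2))

lemma W_der {k : ℝ → ℂ} {g : ℂ → ℂ} {s C : ℝ} (hs : 0 ≤ s) (hk : ContinuousOn k (Ioo 0 1))
    (hg : DifferentiableOn ℂ g (U s))
    (hb : ∀ y ∈ U s, ∀ r ∈ Ioo (0 : ℝ) 1, ‖k r * g (r * y)‖ ≤ C * (√(1 - r))⁻¹) {y : ℂ}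
    (hy : y ∈ U s) :
    HasDerivAt (fun y : ℂ => ∫ r in (0 : ℝ)..1, k r * g (r * y))
      (∫ r in (0 : ℝ)..1, k r * r * deriv g (r * y)) y := by
  have hd : ∀ r ∈ Ioo (0 : ℝ) 1, ∀ y ∈ U s,
      HasDerivAt (fun y : ℂ => k r * g (r * y)) (k r * r * deriv g (r * y)) y := fun r hr y hy =>
    hasDerivAt_of_eq ((((hg.differentiableAt ((isOpen_U s).mem_nhds
      (U.star hs hy (ioc hr)))).hasDerivAt).comp y (hasDerivAt_const_mul (r : ℂ))).const_mul (k r))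
      (fun _ => rfl) (by ring)
  have := (hol_int_deriv (F := fun y r => k r * g (r * y)) zero_le_one (isOpen_U s)
    (ii_inv_sqrt.const_mul C) (fun w hw => hk.mul (cont_ray hs hg hw))
    (fun r hr w hw => (hd r hr w hw).differentiableAt.differentiableWithinAt) hb hy).2
  rwa [int_congr_Ioo zero_le_one fun r hr => (hd r hr y hy).deriv] at this

lemma cont_lc : ContinuousOn (fun r : ℝ => ((r * √r * (√(1 - r))⁻¹ : ℝ) : ℂ)) (Ioo 0 1) :=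
  Complex.continuous_ofReal.comp_continuousOn cont_l

lemma pow_le {s : ℝ} (hs : 0 ≤ s) (hs' : s ≤ 1 / 4) {y : ℂ} (hy : y ∈ U s) (n : ℕ) :
    ‖y‖ ^ n ≤ 2 ^ n :=
  pow_le_pow_left₀ (norm_nonneg _) (by linarith [U.norm_lt hs hs' hy]) n

lemma Ml_hol {f : ℂ → ℂ} {s A : ℝ} (hs : 0 ≤ s) (hs' : s ≤ 1 / 4)
    (hf : DifferentiableOn ℂ f (U s)) (hb : ∀ y ∈ U s, ‖f y‖ ≤ A * ‖y‖ ^ 8) :
    DifferentiableOn ℂ (Ml f) (U s) := fun _ hy =>
  (W_der (C := A * 2 ^ 8) hs cont_lc hf (fun _ hy _ hr => norm_l hr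
    ((ray_le' hs hb hy (ioc hr)).trans (mul_le_mul_of_nonneg_left (pow_le hs hs' hy 8)
      (nonneg_of hb hy)))) hy).differentiableAt.differentiableWithinAt

lemma Ml_le {f : ℂ → ℂ} {s A : ℝ} (hs : 0 ≤ s) (hb : ∀ y ∈ U s, ‖f y‖ ≤ A * ‖y‖ ^ 8) {y : ℂ}
    (hy : y ∈ U s) : ‖Ml f y‖ ≤ 2 * (A * ‖y‖ ^ 8) :=
  norm_int_le_sing fun _ hr => norm_l hr (ray_le' hs hb hy (ioc hr))

/-- `y ^ 2` times a function. -/
def sq (g : ℂ → ℂ) (y : ℂ) : ℂ := y ^ 2 * g y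

lemma sq_hol {g : ℂ → ℂ} {s : ℝ} (hg : DifferentiableOn ℂ g (U s)) :
    DifferentiableOn ℂ (sq g) (U s) := DifferentiableOn.mul (by fun_prop) hg

lemma sq_le {g : ℂ → ℂ} {s B : ℝ} (hb : ∀ y ∈ U s, ‖g y‖ ≤ B * ‖y‖ ^ 8) :
    ∀ y ∈ U s, ‖sq g y‖ ≤ B * ‖y‖ ^ 10 := fun y hy => by
  rw [sq, norm_mul, norm_pow]
  calc _ ≤ ‖y‖ ^ 2 * (B * ‖y‖ ^ 8) := by gcongr; exact hb y hy
    _ = _ := by ring

lemma H_le {f : ℂ → ℂ} {s A : ℝ} (hs : 0 ≤ s) (hb : ∀ y ∈ U s, ‖f y‖ ≤ A * ‖y‖ ^ 8) :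
    ∀ y ∈ U s, ‖sq (Ml f) y‖ ≤ 2 * A * ‖y‖ ^ 10 :=
  sq_le fun y hy => (Ml_le hs hb hy).trans_eq (by ring)

lemma EE_eq (f : ℂ → ℂ) {s : ℝ} {y : ℂ} (hy : y ∈ U s) :
    EE f y = 2 / (Real.pi : ℂ) * deriv (deriv (sq (Ml f))) y := by
  rw [EE, if_neg (U.ne_zero hy)]; rfl

lemma deriv_congr {F G : ℂ → ℂ} {s : ℝ} (h : ∀ y ∈ U s, F y = G y) :
    ∀ y ∈ U s, deriv F y = deriv G y := fun _ hy =>
  Filter.EventuallyEq.deriv_eq (mem_of_superset ((isOpen_U s).mem_nhds hy) h)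

/-- Bounds for two derivatives near a given point. -/
lemma two_le {G : ℂ → ℂ} {s B : ℝ} (hs : 0 < s) (hs' : s ≤ 1 / 4)
    (hG : DifferentiableOn ℂ G (U s)) (hb : ∀ y ∈ U s, ‖G y‖ ≤ B * ‖y‖ ^ 10) {φ : ℂ}
    (hφ : φ ∈ U s) : ∃ s' B1 B2 : ℝ, 0 ≤ s' ∧ s' < s ∧ φ ∈ U s' ∧
      (∀ y ∈ U s', ‖deriv G y‖ ≤ B1 * ‖y‖ ^ 9) ∧
      ∀ y ∈ U s', ‖deriv (deriv G) y‖ ≤ B2 * ‖y‖ ^ 8 := by
  obtain ⟨s2, h0, h1, h2⟩ := U.exists_lt le_rfl hs hφ
  obtain ⟨s1, h3, h4⟩ := exists_between h1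
  have a1 := fun y hy => U.deriv_le (n := 9) (h0.trans h3.le) h4 hs' hG hb (x := y) hy
  have a2 := fun y hy => U.deriv_le (n := 8) h0 h3 (by linarith)
    ((hG.deriv (isOpen_U s)).mono (U.mono (h0.trans h3.le) h4.le)) a1 (x := y) hy
  exact ⟨s2, _, _, h0, h1, h2, fun y hy => a1 y (U.mono h0 h3.le hy), a2⟩

lemma comm {f : ℂ → ℂ} {s A : ℝ} (hs : 0 < s) (hs' : s ≤ 1 / 4)
    (hf : DifferentiableOn ℂ f (U s)) (hb : ∀ y ∈ U s, ‖f y‖ ≤ A * ‖y‖ ^ 8) {y : ℂ}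
    (hy : y ∈ U s) : deriv (deriv (sq (Ml f))) y = Ml (deriv (deriv (sq f))) y := by
  obtain ⟨s', B1, B2, h0, h1, h2, h3, -⟩ := two_le hs hs' (sq_hol hf) (sq_le hb) hy
  set k : ℝ → ℂ := fun r => ((r * √r * (√(1 - r))⁻¹ : ℝ) : ℂ) / (r : ℂ) ^ 2 with hk
  have hne : ∀ r ∈ Ioo (0 : ℝ) 1, (r : ℂ) ≠ 0 := fun r hr => by exact_mod_cast hr.1.ne'
  have hkc : ContinuousOn k (Ioo 0 1) :=
    cont_lc.div (by fun_prop) fun r hr => pow_ne_zero 2 (hne r hr)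
  have e0 : ∀ y : ℂ, ∀ r ∈ Ioo (0 : ℝ) 1, k r * sq f (r * y) =
      ((r * √r * (√(1 - r))⁻¹ : ℝ) : ℂ) * (y ^ 2 * f (r * y)) := fun y r hr => by
    have := hne r hr
    simp only [hk, sq]
    field_simp
  have e1 : sq (Ml f) = fun y : ℂ => ∫ r in (0 : ℝ)..1, k r * sq f (r * y) := by
    funext y
    rw [sq, Ml, ← intervalIntegral.integral_const_mul]
    exact int_congr_Ioo zero_le_one fun r hr => by rw [e0 y r hr]; ring
  have e2 : ∀ y ∈ U s, deriv (sq (Ml f)) y =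
      ∫ r in (0 : ℝ)..1, k r * r * deriv (sq f) (r * y) := fun y hy => by
    rw [e1]
    refine (W_der (C := 2 ^ 2 * (A * 2 ^ 8)) hs.le hkc (sq_hol hf) (fun y hy r hr => ?_) hy).deriv
    rw [e0 y r hr]
    refine norm_l hr ?_
    rw [norm_mul, norm_pow]
    have := nonneg_of hb hy
    exact mul_le_mul (pow_le hs.le hs' hy 2) ((ray_le' hs.le hb hy (ioc hr)).trans
      (mul_le_mul_of_nonneg_left (pow_le hs.le hs' hy 8) this)) (norm_nonneg _) (by positivity)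
  rw [deriv_congr e2 y hy]
  rw [(W_der (k := fun r => k r * r) (C := B1 * 2 ^ 9) h0 (hkc.mul (by fun_prop))
    (((sq_hol hf).deriv (isOpen_U s)).mono (U.mono h0 h1.le)) (fun y hy r hr => ?_) h2).deriv]
  · refine int_congr_Ioo zero_le_one fun r hr => ?_
    have := hne r hr
    simp only [hk]
    field_simp
  · have := hne r hr
    have e : k r * r * deriv (sq f) (r * y) =
        ((r * √r * (√(1 - r))⁻¹ : ℝ) : ℂ) * (deriv (sq f) (r * y) / r) := by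
      simp only [hk]
      field_simp
    rw [e]
    refine norm_l hr ?_
    have hB := nonneg_of h3 hy
    rw [norm_div, Complex.norm_real, Real.norm_of_nonneg hr.1.le, div_le_iff₀ hr.1]
    refine (ray_le h0 h3 hy (ioc hr)).trans ?_
    have a1 := pow_le h0 (by linarith) hy 9
    have a2 : r ^ 9 ≤ r := pow_le_of_le_one hr.1.le hr.2.le (by norm_num)
    have a3 := hr.1
    gcongr

lemma tend0 {F : ℝ → ℂ} {C : ℝ} (h : ∀ r ∈ Ioo (0 : ℝ) 1, ‖F r‖ ≤ C * r) :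
    Tendsto F (𝓝[>] 0) (𝓝 0) := by
  refine squeeze_zero_norm' (a := fun r => C * r)
    (mem_of_superset (Ioo_mem_nhdsGT one_pos) h) (Tendsto.mono_left ?_ nhdsWithin_le_nhds)
  exact Continuous.tendsto' (by fun_prop) _ _ (by simp)

lemma tend1 {F : ℝ → ℂ} {C : ℝ} (h : ∀ r ∈ Ioo (0 : ℝ) 1, ‖F r‖ ≤ C * √(1 - r)) :
    Tendsto F (𝓝[<] 1) (𝓝 0) := by
  refine squeeze_zero_norm' (a := fun r => C * √(1 - r))
    (mem_of_superset (Ioo_mem_nhdsLT one_pos) h) (Tendsto.mono_left ?_ nhdsWithin_le_nhds)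
  exact Continuous.tendsto' (by fun_prop) _ _ (by simp)

lemma taylor {G : ℂ → ℂ} {s B : ℝ} (hs : 0 < s) (hs' : s ≤ 1 / 4)
    (hG : DifferentiableOn ℂ G (U s)) (hb : ∀ y ∈ U s, ‖G y‖ ≤ B * ‖y‖ ^ 10) {φ : ℂ}
    (hφ : φ ∈ U s) :
    φ ^ 2 * ∫ u in (0 : ℝ)..1, (1 - (u : ℂ)) * deriv (deriv G) (u * φ) = G φ := by
  obtain ⟨s', B1, B2, h0, h1, h2, h3, h4⟩ := two_le hs hs' hG hb hφ
  have hG1 := hG.deriv (isOpen_U s)
  have hG2 := hG1.deriv (isOpen_U s)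
  have hone : ∀ u ∈ Ioo (0 : ℝ) 1, ‖1 - (u : ℂ)‖ ≤ 1 := fun u hu => by
    rw [← Complex.ofReal_one, ← Complex.ofReal_sub, Complex.norm_real,
      Real.norm_of_nonneg (by linarith [hu.2])]
    linarith [hu.1]
  have hd : ∀ u ∈ Ioc (0 : ℝ) 1, HasDerivAt
      (fun u : ℝ => (1 - (u : ℂ)) * (φ * deriv G (u * φ)) + G (u * φ))
      (φ ^ 2 * ((1 - (u : ℂ)) * deriv (deriv G) (u * φ))) u := fun u hu => by
    have d0 : HasDerivAt (fun u : ℝ => 1 - (u : ℂ)) (-1) u :=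
      ((hasDerivAt_id (u : ℂ)).const_sub 1).comp_ofReal
    exact hasDerivAt_of_eq ((d0.mul ((ray_der hs.le hG1 hφ hu).const_mul φ)).add
      (ray_der hs.le hG hφ hu)) (fun _ => rfl) (by ring)
  have hB := nonneg_of hb hφ
  have hB1 := nonneg_of h3 h2
  rw [← intervalIntegral.integral_const_mul]
  rw [intervalIntegral.integral_eq_sub_of_hasDerivAt_of_tendsto one_pos (fun u hu => hd u (ioc hu))
    ((ii_of_bound_const (C := 1 * (B2 * ‖φ‖ ^ 8))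
      (ContinuousOn.mul (by fun_prop) (cont_ray hs.le hG2 hφ)) fun u hu =>
        (norm_mul_le _ _).trans (mul_le_mul (hone u hu) (ray_le' h0 h4 h2 (ioc hu)) (norm_nonneg _)
          zero_le_one)).const_mul _)
    (tend0 (C := ‖φ‖ * (B1 * ‖φ‖ ^ 9) + B * ‖φ‖ ^ 10) fun u hu => ?_)
    ((hd 1 ⟨one_pos, le_rfl⟩).continuousAt.tendsto.mono_left nhdsWithin_le_nhds)]
  · simp
  · have a1 := ray_le h0 h3 h2 (ioc hu)
    have a2 := ray_le hs.le hb hφ (ioc hu)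
    have a3 : u ^ 9 ≤ u := pow_le_of_le_one hu.1.le hu.2.le (by norm_num)
    have a4 : u ^ 10 ≤ u := pow_le_of_le_one hu.1.le hu.2.le (by norm_num)
    have a5 := hone u hu
    refine (norm_add_le _ _).trans ?_
    rw [norm_mul, norm_mul]
    calc _ ≤ 1 * (‖φ‖ * (B1 * ‖φ‖ ^ 9 * u)) + B * ‖φ‖ ^ 10 * u := by
          gcongr
          · exact a1.trans (by gcongr)
          · exact a2.trans (by gcongr)
      _ = _ := by ring

lemma key {f : ℂ → ℂ} {s A : ℝ} (hs : 0 < s) (hs' : s ≤ 1 / 4)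
    (hf : DifferentiableOn ℂ f (U s)) (hb : ∀ y ∈ U s, ‖f y‖ ≤ A * ‖y‖ ^ 8) {φ : ℂ}
    (hφ : φ ∈ U s) :
    ∫ r in (0 : ℝ)..1, ((√(1 - r) : ℝ) : ℂ) * deriv (deriv (sq (Ml f))) (r * φ) =
      (Real.pi : ℂ) / 2 * f φ := by
  obtain ⟨s', B1, B2, h0, h1, h2, -, h4⟩ := two_le hs hs' (sq_hol hf) (sq_le hb) hφ
  have hG2 := ((sq_hol hf).deriv (isOpen_U s)).deriv (isOpen_U s)
  have e1 := conv (cont_ray hs.le hG2 hφ) fun u hu => ray_le' h0 h4 h2 (ioc hu)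
  have e2 := taylor hs hs' (sq_hol hf) (sq_le hb) hφ
  rw [sq] at e2
  rw [← mul_left_cancel₀ (pow_ne_zero 2 (U.ne_zero hφ)) e2, ← e1]
  refine int_congr_Ioo zero_le_one fun r hr => ?_
  rw [comm hs hs' hf hb (U.star hs.le hφ (ioc hr)), Ml]
  simp only [Complex.ofReal_mul, mul_assoc]

lemma ray_div {g : ℂ → ℂ} {s B : ℝ} {n : ℕ} (hs : 0 ≤ s)
    (hb : ∀ y ∈ U s, ‖g y‖ ≤ B * ‖y‖ ^ (n + 2)) {y : ℂ} (hy : y ∈ U s) {r : ℝ}
    (hr : r ∈ Ioo (0 : ℝ) 1) : ∃ h : ℂ, ‖h‖ ≤ B * ‖y‖ ^ (n + 2) ∧ g (r * y) = h * r ^ 2 := by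
  have h0 : (r : ℂ) ≠ 0 := by exact_mod_cast hr.1.ne'
  refine ⟨g (r * y) / r ^ 2, ?_, by field_simp⟩
  have hB := nonneg_of hb hy
  have hr0 := hr.1
  rw [norm_div, norm_pow, Complex.norm_real, Real.norm_of_nonneg hr0.le, div_le_iff₀ (by positivity)]
  refine (ray_le hs hb hy (ioc hr)).trans ?_
  gcongr ?_ * ?_
  exact pow_le_pow_of_le_one hr0.le hr.2.le (by omega)

lemma k_diff {k : ℂ → ℂ} {Θ : ℝ} (hk : ∀ r ∈ Ioc (0 : ℝ) 1, AnalyticAt ℂ k r)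
    (h1 : ∀ r ∈ Ioc (0 : ℝ) 1, ‖(r : ℂ) * deriv k r‖ ≤ Θ) {r : ℝ} (hr : r ∈ Ioo (0 : ℝ) 1) :
    ∃ e : ℂ, ‖e‖ ≤ Θ ∧ k 1 - k r = e * ((√(1 - r) : ℝ) : ℂ) ^ 2 / r := by
  have h0 : (r : ℂ) ≠ 0 := by exact_mod_cast hr.1.ne'
  have hr0 := hr.1
  have hr1 : 0 < 1 - r := by linarith [hr.2]
  have hw : ((√(1 - r) : ℝ) : ℂ) ≠ 0 := by exact_mod_cast (Real.sqrt_pos.mpr hr1).ne'
  refine ⟨(k 1 - k r) * r / ((√(1 - r) : ℝ) : ℂ) ^ 2, ?_, by field_simp⟩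
  have := norm_image_sub_le_of_norm_deriv_le_segment' (f := fun t : ℝ => k t)
    (f' := fun t : ℝ => deriv k t) (C := Θ / r) (a := r) (b := 1)
    (fun t ht => (hk t ⟨hr0.trans_le ht.1, ht.2⟩).differentiableAt.hasDerivAt.comp_ofReal
      |>.hasDerivWithinAt) (fun t ht => by
      have a1 := h1 t ⟨hr0.trans_le ht.1, ht.2.le⟩
      rw [norm_mul, Complex.norm_real, Real.norm_of_nonneg (hr0.le.trans ht.1)] at a1
      rw [le_div_iff₀ hr0]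
      nlinarith [mul_le_mul_of_nonneg_right ht.1 (norm_nonneg (deriv k t))]) 1 ⟨hr.2.le, le_rfl⟩
  rw [norm_div, norm_mul, norm_pow, Complex.norm_real, Complex.norm_real, Real.norm_of_nonneg hr0.le,
    Real.norm_of_nonneg (Real.sqrt_nonneg _), Real.sq_sqrt hr1.le, div_le_iff₀ hr1,
    ← le_div_iff₀ hr0]
  simpa only [Complex.ofReal_one, div_mul_eq_mul_div] using this

lemma green {H k : ℂ → ℂ} {s B Θ : ℝ} (hs : 0 < s) (hs' : s ≤ 1 / 4)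
    (hH : DifferentiableOn ℂ H (U s)) (hb : ∀ y ∈ U s, ‖H y‖ ≤ B * ‖y‖ ^ 10) {φ : ℂ}
    (hφ : φ ∈ U s) (hk : ∀ r ∈ Ioc (0 : ℝ) 1, AnalyticAt ℂ k r)
    (h1 : ∀ r ∈ Ioc (0 : ℝ) 1, ‖(r : ℂ) * deriv k r‖ ≤ Θ)
    (h2 : ∀ r ∈ Ioc (0 : ℝ) 1, ‖(r : ℂ) ^ 2 * deriv (deriv k) r‖ ≤ Θ) :
    IntervalIntegrable (fun r : ℝ => ((√(1 - r) : ℝ) : ℂ) *
      (deriv (deriv H) (r * φ) * (k 1 - k r))) volume 0 1 ∧
    ‖∫ r in (0 : ℝ)..1, ((√(1 - r) : ℝ) : ℂ) * (deriv (deriv H) (r * φ) * (k 1 - k r))‖ ≤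
      9 / 2 * Θ * B * ‖φ‖ ^ 8 := by
  obtain ⟨s', B1, B2, h0, -, hφ', h3, h4⟩ := two_le hs hs' hH hb hφ
  have hH1 := hH.deriv (isOpen_U s)
  have hH2 := hH1.deriv (isOpen_U s)
  have hB := nonneg_of hb hφ
  have hB1 := nonneg_of h3 hφ'
  have hB2 := nonneg_of h4 hφ'
  have hΘ : 0 ≤ Θ := (norm_nonneg _).trans (h1 1 ⟨one_pos, le_rfl⟩)
  set w : ℝ → ℂ := fun r => ((√(1 - r) : ℝ) : ℂ) with hw
  have hne : ∀ r ∈ Ioo (0 : ℝ) 1, (r : ℂ) ≠ 0 := fun r hr => by exact_mod_cast hr.1.ne'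
  have hwp : ∀ r ∈ Ioo (0 : ℝ) 1, 0 < √(1 - r) := fun r hr =>
    Real.sqrt_pos.mpr (by linarith [hr.2])
  have hw0 : ∀ r ∈ Ioo (0 : ℝ) 1, w r ≠ 0 := fun r hr => by
    simp only [hw]; exact_mod_cast (hwp r hr).ne'
  have hwn : ∀ r, ‖w r‖ = √(1 - r) := fun r => by
    simp only [hw]; rw [Complex.norm_real, Real.norm_of_nonneg (Real.sqrt_nonneg _)]
  have hw1 : ∀ r ∈ Ioo (0 : ℝ) 1, ‖w r‖ ≤ 1 := fun r hr => by
    rw [hwn]; exact sqrt_le_one' (by linarith [hr.1])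
  have hrn : ∀ r ∈ Ioo (0 : ℝ) 1, ‖(r : ℂ)‖ = r := fun r hr => by
    rw [Complex.norm_real, Real.norm_of_nonneg hr.1.le]
  have hr1 : ∀ r ∈ Ioo (0 : ℝ) 1, ‖(r : ℂ)‖ ≤ 1 := fun r hr => by rw [hrn r hr]; exact hr.2.le
  have dw : ∀ r ∈ Ioo (0 : ℝ) 1, HasDerivAt w (-1 / (2 * w r)) r := fun r hr => by
    have := ((Real.hasDerivAt_sqrt (x := 1 - r) (by linarith [hr.2])).comp r
      ((hasDerivAt_id r).const_sub 1)).ofReal_comp
    refine hasDerivAt_of_eq this (fun _ => rfl) ?_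
    simp only [hw]
    push_cast
    ring
  have dk0 : ∀ r ∈ Ioo (0 : ℝ) 1, HasDerivAt (fun r : ℝ => k r) (deriv k r) r := fun r hr =>
    (hk r (ioc hr)).differentiableAt.hasDerivAt.comp_ofReal
  have dk1 : ∀ r ∈ Ioo (0 : ℝ) 1, HasDerivAt (fun r : ℝ => deriv k r) (deriv (deriv k) r) r :=
    fun r hr => (hk r (ioc hr)).deriv.differentiableAt.hasDerivAt.comp_ofReal
  have ck0 : ContinuousOn (fun r : ℝ => k r) (Ioo 0 1) := fun r hr =>
    (dk0 r hr).continuousAt.continuousWithinAt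
  have ck1 : ContinuousOn (fun r : ℝ => deriv k r) (Ioo 0 1) := fun r hr =>
    (dk1 r hr).continuousAt.continuousWithinAt
  have ck2 : ContinuousOn (fun r : ℝ => deriv (deriv k) r) (Ioo 0 1) := fun r hr =>
    (hk r (ioc hr)).deriv.deriv.differentiableAt.hasDerivAt.comp_ofReal.continuousAt
      |>.continuousWithinAt
  have cw : ContinuousOn w (Ioo 0 1) := fun r hr => (dw r hr).continuousAt.continuousWithinAt
  set I1 : ℝ → ℂ := fun r => w r * (deriv (deriv H) (r * φ) * (k 1 - k r)) with hI1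
  set I2 : ℝ → ℂ := fun r => H (r * φ) * ((w r)⁻¹ *
    (deriv k r - (k 1 - k r) / (4 * w r ^ 2) - w r ^ 2 * deriv (deriv k) r)) with hI2
  set Bf : ℝ → ℂ := fun r => φ * deriv H (r * φ) * (w r * (k 1 - k r)) +
    H (r * φ) * ((k 1 - k r) / (2 * w r) + w r * deriv k r) with hBf
  have i1 : IntervalIntegrable I1 volume 0 1 := by
    refine ii_of_bound_const (C := 1 * (B2 * ‖φ‖ ^ 8 * (1 * 1 ^ 2 * Θ)))
      (cw.mul ((cont_ray hs.le hH2 hφ).mul (continuousOn_const.sub ck0))) fun r hr => ?_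
    obtain ⟨e, he, he'⟩ := k_diff hk h1 hr
    obtain ⟨h, hh, hh'⟩ := ray_div (n := 6) h0 h4 hφ' hr
    have := hne r hr
    have e1 : I1 r = w r * (h * (r * w r ^ 2 * e)) := by
      simp only [hI1]
      rw [he', hh']
      change _ * (_ * (e * w r ^ 2 / r)) = _
      field_simp
    rw [e1]
    simp only [norm_mul, norm_pow]
    have := hw1 r hr
    have := hr1 r hr
    gcongr
  have b2 : ∀ r ∈ Ioo (0 : ℝ) 1, ‖I2 r‖ ≤ B * ‖φ‖ ^ 10 * (9 / 4 * Θ) * (√(1 - r))⁻¹ := by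
    intro r hr
    obtain ⟨e, he, he'⟩ := k_diff hk h1 hr
    obtain ⟨h, hh, hh'⟩ := ray_div (n := 8) hs.le hb hφ hr
    have := hne r hr
    have := hw0 r hr
    have e1 : I2 r = h * (r * (r * deriv k r) - r * e / 4 - w r ^ 2 * (r ^ 2 * deriv (deriv k) r)) *
        (w r)⁻¹ := by
      simp only [hI2]
      rw [he', hh']
      change _ * (_ * (_ - e * w r ^ 2 / r / _ - _)) = _
      field_simp
    rw [e1, norm_mul, norm_mul, norm_inv, hwn]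
    gcongr
    refine (norm_sub_le _ _).trans ((add_le_add_left (norm_sub_le _ _) _).trans ?_)
    rw [norm_mul, norm_div, norm_mul _ e, norm_mul (w r ^ 2), norm_pow]
    have a1 := hw1 r hr
    have a2 := hr1 r hr
    have a3 := h1 r (ioc hr)
    have a4 := h2 r (ioc hr)
    calc _ ≤ 1 * Θ + 1 * Θ / ‖(4 : ℂ)‖ + 1 ^ 2 * Θ := by gcongr
      _ = _ := by simp; ring
  have i2 : IntervalIntegrable I2 volume 0 1 :=
    ii_of_bound_sing ((cont_ray hs.le hH hφ).mul ((cw.inv₀ hw0).mul ((ck1.sub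
      ((continuousOn_const.sub ck0).div (continuousOn_const.mul (cw.pow 2)) fun r hr =>
        mul_ne_zero (by norm_num) (pow_ne_zero 2 (hw0 r hr)))).sub ((cw.pow 2).mul ck2)))) b2
  have dB : ∀ r ∈ Ioo (0 : ℝ) 1, HasDerivAt Bf (φ ^ 2 * I1 r - I2 r) r := fun r hr => by
    have := hw0 r hr
    have d1 := (dk0 r hr).const_sub (k 1)
    refine hasDerivAt_of_eq ((((ray_der hs.le hH1 hφ (ioc hr)).const_mul φ).mul
      ((dw r hr).mul d1)).add ((ray_der hs.le hH hφ (ioc hr)).mul ((d1.div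
        ((dw r hr).const_mul 2) (mul_ne_zero two_ne_zero this)).add ((dw r hr).mul (dk1 r hr)))))
      (fun _ => rfl) ?_
    simp only [hI1, hI2, Pi.mul_apply, Pi.add_apply, Pi.div_apply]
    field_simp
    ring
  have bB : ∀ r ∈ Ioo (0 : ℝ) 1, ‖Bf r‖ ≤ (‖φ‖ * (B1 * ‖φ‖ ^ 9) * 1 ^ 2 * Θ +
      B * ‖φ‖ ^ 10 * (Θ / 2 + Θ)) * (r * √(1 - r)) := by
    intro r hr
    obtain ⟨e, he, he'⟩ := k_diff hk h1 hr
    obtain ⟨h, hh, hh'⟩ := ray_div (n := 8) hs.le hb hφ hr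
    obtain ⟨g, hg, hg'⟩ := ray_div (n := 7) h0 h3 hφ' hr
    have := hne r hr
    have := hw0 r hr
    have e1 : Bf r = (φ * g * w r ^ 2 * e + h * (e / 2 + r * deriv k r)) * (r * w r) := by
      simp only [hBf]
      rw [he', hh', hg']
      change _ * (_ * (e * w r ^ 2 / r)) + _ * (e * w r ^ 2 / r / _ + _) = _
      field_simp
    rw [e1, norm_mul, norm_mul (r : ℂ), hwn, hrn r hr]
    have a0 := hr.1
    gcongr
    refine (norm_add_le _ _).trans ?_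
    simp only [norm_mul, norm_pow]
    have a1 := hw1 r hr
    have a3 := h1 r (ioc hr)
    have a5 : ‖e / 2 + r * deriv k r‖ ≤ Θ / 2 + Θ := by
      refine (norm_add_le _ _).trans ?_
      rw [norm_div, Complex.norm_two]
      gcongr
    gcongr
  have ftc := intervalIntegral.integral_eq_sub_of_hasDerivAt_of_tendsto one_pos dB
    ((i1.const_mul _).sub i2)
    (tend0 fun r hr => (bB r hr).trans (mul_le_mul_of_nonneg_left
      (mul_le_of_le_one_right hr.1.le (sqrt_le_one' (by linarith [hr.1]))) (by positivity)))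
    (tend1 fun r hr => (bB r hr).trans (mul_le_mul_of_nonneg_left
      (mul_le_of_le_one_left (Real.sqrt_nonneg _) hr.2.le) (by positivity)))
  rw [intervalIntegral.integral_sub (i1.const_mul _) i2, intervalIntegral.integral_const_mul,
    sub_zero, sub_eq_zero] at ftc
  refine ⟨i1, ?_⟩
  have n2 := norm_int_le_sing b2
  rw [← ftc, norm_mul, norm_pow] at n2
  have hp := U.norm_pos hφ
  refine le_of_mul_le_mul_left (n2.trans_eq (by ring)) (pow_pos hp 2)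

lemma norm_c : ‖2 / (Real.pi : ℂ)‖ ≤ 2 / 3 := by
  rw [norm_div, Complex.norm_real, Complex.norm_two, Real.norm_of_nonneg Real.pi_pos.le]
  gcongr
  exact Real.pi_gt_three.le

end Abel

open Abel in
theorem an_abel : StmtAbel := by
  intro f s A hs hs' hf hb
  have hH := sq_hol (Ml_hol hs.le hs' hf hb)
  have hHb := H_le hs.le hb
  have hH1 := hH.deriv (isOpen_U s)
  have hH2 := hH1.deriv (isOpen_U s)
  have hA := nonneg_of hb (U.one_mem hs)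
  refine ⟨(hH2.const_mul _).congr fun y hy => EE_eq f hy, by simp [EE], fun hr y hy hi => ?_,
    fun s' h0 h1 y hy => ?_, fun g B hg hgb y hy => ?_, fun φ hφ k Θ hk h1 h2 => ?_⟩
  · have r0 : ∀ y ∈ U s, y.im = 0 → (sq (Ml f) y).im = 0 := fun y hy hi => by
      have : (Ml f y).im = 0 := im_int zero_le_one fun r hr' => by
        rw [Complex.mul_im, hr _ (U.star hs.le hy (ioc hr')) (by simp [hi]), Complex.ofReal_im]
        simp
      simp [Abel.sq, pow_two, this, hi]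
    have r1 := im_deriv (isOpen_U s) hH1
      (fun z hz hzi => im_deriv (isOpen_U s) hH r0 hz hzi) hy hi
    rw [EE_eq f hy, ← Complex.ofReal_ofNat, ← Complex.ofReal_div, Complex.im_ofReal_mul, r1,
      mul_zero]
  · have hy0 := U.norm_pos hy
    have hd : 0 < s - s' := by linarith
    have hsub := U.ball_subset h0 h1 hs' hy
    have := cauchy2 (by positivity) (hH.mono hsub) (M := 2 * A * (9 / 8 * ‖y‖) ^ 10) fun z hz => by
      refine (hHb z (hsub hz)).trans ?_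
      rw [mem_ball, dist_eq_norm] at hz
      have h1 : ‖z‖ ≤ ‖y‖ + ‖z - y‖ := by simpa using norm_add_le y (z - y)
      have h2 : ‖z‖ ≤ 9 / 8 * ‖y‖ := by nlinarith
      gcongr
    rw [EE_eq f hy, norm_mul]
    refine (mul_le_mul norm_c this (norm_nonneg _) (by norm_num)).trans ?_
    calc _ = 2 / 3 * 128 * (9 / 8) ^ 10 * (A / (s - s') ^ 2 * ‖y‖ ^ 8) := by
          rw [mul_pow]; field_simp; ring
      _ ≤ 300 * (A / (s - s') ^ 2 * ‖y‖ ^ 8) := by gcongr; norm_num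
      _ = _ := by ring
  · have hG := sq_hol (Ml_hol hs.le hs' hg hgb)
    have hG1 := hG.deriv (isOpen_U s)
    have e0 : ∀ y ∈ U s, sq (Ml (f + g)) y = sq (Ml f) y + sq (Ml g) y := fun y hy => by
      simp only [Abel.sq, Ml, Pi.add_apply, mul_add]
      rw [← mul_add]
      exact congrArg _ (intervalIntegral.integral_add
        (ii_of_bound_sing (cont_lc.mul (cont_ray hs.le hf hy)) fun r hr =>
          norm_l hr (ray_le' hs.le hb hy (ioc hr)))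
        (ii_of_bound_sing (cont_lc.mul (cont_ray hs.le hg hy)) fun r hr =>
          norm_l hr (ray_le' hs.le hgb hy (ioc hr))))
    have e1 : ∀ y ∈ U s, deriv (sq (Ml (f + g))) y =
        deriv (sq (Ml f)) y + deriv (sq (Ml g)) y := fun y hy => by
      rw [deriv_congr e0 y hy, deriv_fun_add (hH.differentiableAt ((isOpen_U s).mem_nhds hy))
        (hG.differentiableAt ((isOpen_U s).mem_nhds hy))]
    rw [EE_eq _ hy, EE_eq _ hy, EE_eq _ hy, deriv_congr e1 y hy,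
      deriv_fun_add (hH1.differentiableAt ((isOpen_U s).mem_nhds hy))
        (hG1.differentiableAt ((isOpen_U s).mem_nhds hy)), mul_add]
  · obtain ⟨i1, n1⟩ := green hs hs' hH hHb hφ hk h1 h2
    obtain ⟨s', B1, B2, h0, -, hφ', -, h4⟩ := two_le hs hs' hH hHb hφ
    have i0 : IntervalIntegrable (fun r : ℝ => ((√(1 - r) : ℝ) : ℂ) *
        deriv (deriv (sq (Ml f))) (r * φ)) volume 0 1 :=
      ii_of_bound_const (ContinuousOn.mul (by fun_prop) (cont_ray hs.le hH2 hφ)) fun r hr =>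
        norm_sq (by linarith [hr.1]) (ray_le' h0 h4 hφ' (ioc hr))
    have hπ : (Real.pi : ℂ) ≠ 0 := by exact_mod_cast Real.pi_ne_zero
    have e : (∫ r in (0 : ℝ)..1, ((√(1 - r) : ℝ) : ℂ) * (EE f (r * φ) * k r)) - k 1 * f φ =
        -(2 / (Real.pi : ℂ) * ∫ r in (0 : ℝ)..1, ((√(1 - r) : ℝ) : ℂ) *
          (deriv (deriv (sq (Ml f))) (r * φ) * (k 1 - k r))) := by
      rw [int_congr_Ioo zero_le_one (G := fun r : ℝ => 2 / (Real.pi : ℂ) *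
        (k 1 * (((√(1 - r) : ℝ) : ℂ) * deriv (deriv (sq (Ml f))) (r * φ)) -
          ((√(1 - r) : ℝ) : ℂ) * (deriv (deriv (sq (Ml f))) (r * φ) * (k 1 - k r))))
        fun r hr => by rw [EE_eq f (U.star hs.le hφ (ioc hr))]; ring,
        intervalIntegral.integral_const_mul, intervalIntegral.integral_sub (i0.const_mul _) i1,
        intervalIntegral.integral_const_mul, key hs hs' hf hb hφ]
      generalize (∫ r in (0 : ℝ)..1, ((√(1 - r) : ℝ) : ℂ) *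
          (deriv (deriv (sq (Ml f))) (r * φ) * (k 1 - k r))) = J
      field_simp
      ring
    rw [e, norm_neg, norm_mul]
    exact (mul_le_mul norm_c n1 (norm_nonneg _) (by norm_num)).trans_eq (by ring)

end

end Pool.Agent.Lib.MP_87c84d_gt
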