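import Pool.Agent.Lib.MP_87c84d_gt.Defs

/-!
Real-variable part of the Abel step: the composition of the two Abel kernels.
-/

namespace Pool.Agent.Lib.MP_87c84d_gt

open MeasureTheory Set Metric Filter Topology

noncomputable section

namespace Abel

lemma ioc {r : ℝ} (hr : r ∈ Ioo (0 : ℝ) 1) : r ∈ Ioc (0 : ℝ) 1 := Ioo_subset_Ioc_self hr

lemma sqrt_le_one' {x : ℝ} (hx : x ≤ 1) : √x ≤ 1 := Real.sqrt_le_one.mpr hx

lemma cont_inv : ContinuousOn (fun r : ℝ => (√(1 - r))⁻¹) (Ioo 0 1) :=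
  ContinuousOn.inv₀ (by fun_prop) fun r hr => (Real.sqrt_pos.mpr (by linarith [hr.2])).ne'

lemma iiR {F : ℝ → ℝ} (hc : ContinuousOn F (Ioo 0 1))
    (hb : ∀ r ∈ Ioo (0 : ℝ) 1, |F r| ≤ (√(1 - r))⁻¹) : IntervalIntegrable F volume 0 1 := by
  have hg := ii_inv_sqrt
  rw [intervalIntegrable_iff_integrableOn_Ioo_of_le zero_le_one] at hg ⊢
  refine Integrable.mono' hg (hc.aestronglyMeasurable measurableSet_Ioo) ?_
  filter_upwards [ae_restrict_mem measurableSet_Ioo] with r hr using hb r hr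

lemma ii_weight {u : ℝ} (hu : 0 ≤ u) :
    IntervalIntegrable (fun t : ℝ => √(t - u) * (√(1 - t))⁻¹) volume 0 1 := by
  refine iiR (ContinuousOn.mul (by fun_prop) cont_inv) fun r hr => ?_
  rw [abs_of_nonneg (by positivity)]
  exact mul_le_of_le_one_left (by positivity) (sqrt_le_one' (by linarith [hr.2]))

lemma beta : ∫ x in (0 : ℝ)..1, √x * (√(1 - x))⁻¹ = Real.pi / 2 := by
  have hi := ii_weight le_rfl
  simp only [sub_zero] at hi
  have := intervalIntegral.integral_eq_sub_of_hasDerivAt_of_le zero_le_one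
    (f := fun x : ℝ => Real.arcsin √x - √x * √(1 - x))
    (f' := fun x : ℝ => √x * (√(1 - x))⁻¹)
    (ContinuousOn.sub (Real.continuous_arcsin.comp Real.continuous_sqrt).continuousOn (by fun_prop))
    (fun x hx => ?_) hi
  · simpa using this
  have h0 : 0 < 1 - x := by linarith [hx.2]
  have ha : 0 < √x := Real.sqrt_pos.mpr hx.1
  have hb : 0 < √(1 - x) := Real.sqrt_pos.mpr h0
  have ha1 : √x < 1 := by rw [Real.sqrt_lt' one_pos]; linarith
  have d1 := Real.hasDerivAt_sqrt hx.1.ne'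
  have d2 := (Real.hasDerivAt_sqrt h0.ne').comp x ((hasDerivAt_id x).const_sub 1)
  have d3 := (Real.hasDerivAt_arcsin (x := √x) (by linarith) ha1.ne).comp x d1
  refine hasDerivAt_of_eq (d3.sub (d1.mul d2)) (fun _ => rfl) ?_
  have e1 : √x ^ 2 = x := Real.sq_sqrt hx.1.le
  have e2 : √(1 - x) ^ 2 = 1 - x := Real.sq_sqrt h0.le
  simp only [Function.comp_def]
  rw [e1]
  field_simp
  linarith

lemma weight {u : ℝ} (hu : u ∈ Ioo (0 : ℝ) 1) :
    ∫ t in (0 : ℝ)..1, √(t - u) * (√(1 - t))⁻¹ = Real.pi / 2 * (1 - u) := by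
  have hi := ii_weight hu.1.le
  have h0 : 0 < 1 - u := by linarith [hu.2]
  have hm : u ∈ uIcc (0 : ℝ) 1 := by rw [uIcc_of_le zero_le_one]; exact Ioo_subset_Icc_self hu
  rw [← intervalIntegral.integral_add_adjacent_intervals (b := u)
    (hi.mono_set (uIcc_subset_uIcc_left hm)) (hi.mono_set (uIcc_subset_uIcc_right hm))]
  have e1 : ∫ t in (0 : ℝ)..u, √(t - u) * (√(1 - t))⁻¹ = 0 := by
    rw [int_congr_Ioo hu.1.le (G := fun _ => (0 : ℝ)) fun t ht => by
      rw [Real.sqrt_eq_zero_of_nonpos (by linarith [ht.2]), zero_mul]]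
    simp
  have e2 := intervalIntegral.integral_comp_mul_add (a := 0) (b := 1)
    (fun t : ℝ => √(t - u) * (√(1 - t))⁻¹) h0.ne' u
  rw [int_congr_Ioo zero_le_one (G := fun x : ℝ => √x * (√(1 - x))⁻¹) (fun x hx => by
    have : 0 < √(1 - u) := Real.sqrt_pos.mpr h0
    rw [add_sub_cancel_right, show 1 - ((1 - u) * x + u) = (1 - u) * (1 - x) by ring,
      Real.sqrt_mul h0.le, Real.sqrt_mul h0.le]
    field_simp), beta] at e2
  simp only [mul_zero, zero_add, mul_one, sub_add_cancel, smul_eq_mul] at e2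
  rw [e1, e2]
  field_simp
  ring

lemma fub {F : ℝ → ℝ → ℂ} {C : ℝ}
    (hc : ContinuousOn (Function.uncurry F) (Ioo 0 1 ×ˢ Ioo 0 1))
    (hb : ∀ t ∈ Ioo (0 : ℝ) 1, ∀ u ∈ Ioo (0 : ℝ) 1, ‖F t u‖ ≤ C * (√(1 - t))⁻¹) :
    ∫ t in (0 : ℝ)..1, ∫ u in (0 : ℝ)..1, F t u = ∫ u in (0 : ℝ)..1, ∫ t in (0 : ℝ)..1, F t u := by
  simp only [intervalIntegral.integral_of_le zero_le_one, integral_Ioc_eq_integral_Ioo]
  refine integral_integral_swap ?_
  have hg := (intervalIntegrable_iff_integrableOn_Ioo_of_le zero_le_one).mp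
    (ii_inv_sqrt.const_mul C)
  have h1 : Integrable (fun z : ℝ × ℝ => C * (√(1 - z.1))⁻¹)
      ((volume.restrict (Ioo (0 : ℝ) 1)).prod (volume.restrict (Ioo (0 : ℝ) 1))) :=
    Integrable.comp_fst hg _
  rw [Measure.prod_restrict] at h1 ⊢
  have hm : MeasurableSet (Ioo (0 : ℝ) 1 ×ˢ Ioo (0 : ℝ) 1) :=
    measurableSet_Ioo.prod measurableSet_Ioo
  refine Integrable.mono' h1 (hc.aestronglyMeasurable hm) ?_
  filter_upwards [ae_restrict_mem hm] with z hz using hb z.1 hz.1 z.2 hz.2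

lemma norm_l {r : ℝ} (hr : r ∈ Ioo (0 : ℝ) 1) {z : ℂ} {C : ℝ} (hz : ‖z‖ ≤ C) :
    ‖((r * √r * (√(1 - r))⁻¹ : ℝ) : ℂ) * z‖ ≤ C * (√(1 - r))⁻¹ := by
  have h0 := hr.1
  have h1 : r * √r ≤ 1 := mul_le_one₀ hr.2.le (by positivity) (sqrt_le_one' hr.2.le)
  rw [norm_mul, Complex.norm_real, Real.norm_of_nonneg (by positivity), mul_comm]
  exact mul_le_mul hz (mul_le_of_le_one_left (by positivity) h1) (by positivity)
    ((norm_nonneg _).trans hz)

lemma norm_sq {x : ℝ} (hx : x ≤ 1) {z : ℂ} {C : ℝ} (hz : ‖z‖ ≤ C) :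
    ‖((√x : ℝ) : ℂ) * z‖ ≤ C := by
  rw [norm_mul, Complex.norm_real, Real.norm_of_nonneg (by positivity)]
  exact (mul_le_of_le_one_left (norm_nonneg _) (sqrt_le_one' hx)).trans hz

lemma cont_l : ContinuousOn (fun r : ℝ => r * √r * (√(1 - r))⁻¹) (Ioo 0 1) :=
  ContinuousOn.mul (by fun_prop) cont_inv

lemma inner {h : ℝ → ℂ} {B : ℝ} (hc : ContinuousOn h (Ioo 0 1))
    (hb : ∀ u ∈ Ioo (0 : ℝ) 1, ‖h u‖ ≤ B) {t : ℝ} (ht : t ∈ Ioo (0 : ℝ) 1) :
    ∫ r in (0 : ℝ)..1, ((t * √t * (√(1 - t))⁻¹ : ℝ) : ℂ) * (((√(1 - r) : ℝ) : ℂ) * h (t * r)) =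
      ∫ u in (0 : ℝ)..1, ((√(t - u) * (√(1 - t))⁻¹ : ℝ) : ℂ) * h u := by
  have hi : IntervalIntegrable (fun u : ℝ => ((√(t - u) : ℝ) : ℂ) * h u) volume 0 1 :=
    ii_of_bound_const (ContinuousOn.mul (by fun_prop) hc) fun u hu =>
      norm_sq (by linarith [ht.2, hu.1]) (hb u hu)
  have hm : t ∈ uIcc (0 : ℝ) 1 := by rw [uIcc_of_le zero_le_one]; exact Ioo_subset_Icc_self ht
  have e0 := intervalIntegral.integral_add_adjacent_intervals (b := t)
    (hi.mono_set (uIcc_subset_uIcc_left hm)) (hi.mono_set (uIcc_subset_uIcc_right hm))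
  have e1 : ∫ u in t..1, ((√(t - u) : ℝ) : ℂ) * h u = 0 := by
    rw [int_congr_Ioo ht.2.le (G := fun _ => (0 : ℂ)) fun u hu => by
      rw [Real.sqrt_eq_zero_of_nonpos (by linarith [hu.1])]; simp]
    simp
  have e2 := intervalIntegral.integral_comp_mul_left (a := 0) (b := 1)
    (fun u : ℝ => ((√(t - u) : ℝ) : ℂ) * h u) ht.1.ne'
  simp only [mul_zero, mul_one] at e2
  rw [e1, add_zero] at e0
  rw [e0, Complex.real_smul] at e2
  have ht0 : (t : ℂ) ≠ 0 := by exact_mod_cast ht.1.ne'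
  calc _ = ∫ r in (0 : ℝ)..1, ((t * (√(1 - t))⁻¹ : ℝ) : ℂ) *
        (((√(t - t * r) : ℝ) : ℂ) * h (t * r)) := by
        refine int_congr_Ioo zero_le_one fun r _ => ?_
        rw [show t - t * r = t * (1 - r) by ring, Real.sqrt_mul ht.1.le]
        push_cast
        ring
    _ = (((√(1 - t))⁻¹ : ℝ) : ℂ) * ∫ u in (0 : ℝ)..1, ((√(t - u) : ℝ) : ℂ) * h u := by
        rw [intervalIntegral.integral_const_mul, e2]
        push_cast
        field_simp
    _ = _ := by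
        rw [← intervalIntegral.integral_const_mul]
        refine int_congr_Ioo zero_le_one fun r _ => ?_
        push_cast
        ring

lemma conv {h : ℝ → ℂ} {B : ℝ} (hc : ContinuousOn h (Ioo 0 1))
    (hb : ∀ u ∈ Ioo (0 : ℝ) 1, ‖h u‖ ≤ B) :
    ∫ r in (0 : ℝ)..1, ((√(1 - r) : ℝ) : ℂ) *
        ∫ t in (0 : ℝ)..1, ((t * √t * (√(1 - t))⁻¹ : ℝ) : ℂ) * h (t * r) =
      (Real.pi : ℂ) / 2 * ∫ u in (0 : ℝ)..1, (1 - (u : ℂ)) * h u := by
  have hmul : ∀ t ∈ Ioo (0 : ℝ) 1, ∀ r ∈ Ioo (0 : ℝ) 1, t * r ∈ Ioo (0 : ℝ) 1 := fun t ht r hr =>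
    ⟨mul_pos ht.1 hr.1, by nlinarith [ht.1, ht.2, hr.1, hr.2]⟩
  have f1 := fub (C := B) (F := fun t r : ℝ => ((t * √t * (√(1 - t))⁻¹ : ℝ) : ℂ) *
      (((√(1 - r) : ℝ) : ℂ) * h (t * r))) (by
      refine ContinuousOn.mul (Complex.continuous_ofReal.comp_continuousOn
        (cont_l.comp continuousOn_fst fun z hz => hz.1)) (ContinuousOn.mul (by fun_prop)
        (hc.comp (by fun_prop) fun z hz => hmul _ hz.1 _ hz.2)))
    fun t ht r hr => norm_l ht (norm_sq (by linarith [hr.1]) (hb _ (hmul t ht r hr)))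
  have f2 := fub (C := B) (F := fun t u : ℝ => ((√(t - u) * (√(1 - t))⁻¹ : ℝ) : ℂ) * h u) (by
      refine ContinuousOn.mul (Complex.continuous_ofReal.comp_continuousOn
        (ContinuousOn.mul (by fun_prop) (cont_inv.comp continuousOn_fst fun z hz => hz.1)))
        (hc.comp continuousOn_snd fun z hz => hz.2))
    fun t ht u hu => by
      have := norm_sq (x := t - u) (by linarith [ht.2, hu.1]) (hb u hu)
      rw [norm_mul, Complex.norm_real, Real.norm_of_nonneg (by positivity)] at this ⊢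
      calc _ = √(t - u) * ‖h u‖ * (√(1 - t))⁻¹ := by ring
        _ ≤ _ := by gcongr
  calc _ = ∫ r in (0 : ℝ)..1, ∫ t in (0 : ℝ)..1, ((t * √t * (√(1 - t))⁻¹ : ℝ) : ℂ) *
        (((√(1 - r) : ℝ) : ℂ) * h (t * r)) := by
        refine int_congr_Ioo zero_le_one fun r _ => ?_
        rw [← intervalIntegral.integral_const_mul]
        exact int_congr_Ioo zero_le_one fun t _ => by ring
    _ = ∫ u in (0 : ℝ)..1, ∫ t in (0 : ℝ)..1, ((√(t - u) * (√(1 - t))⁻¹ : ℝ) : ℂ) * h u := by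
        rw [← f1, ← f2]
        exact int_congr_Ioo zero_le_one fun t ht => inner hc hb ht
    _ = _ := by
        rw [← intervalIntegral.integral_const_mul]
        refine int_congr_Ioo zero_le_one fun u hu => ?_
        rw [intervalIntegral.integral_mul_const, intervalIntegral.integral_ofReal, weight hu]
        push_cast
        ring

end Abel

end

end Pool.Agent.Lib.MP_87c84d_gt
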