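import Pool.Agent.Lib.MP_87c84d_gt.BaseDefs

/-!
Invariance of the truncated triangles under the tip map, and the elementary analytic facts about
the base body.
-/

namespace Pool.Agent.Lib.MP_87c84d_gt

open MeasureTheory Set Metric Filter Topology
open Base

noncomputable section

namespace BaseAn0

/-- The slanted sides, in real coordinates. -/
lemma wedge {t s α b pr q er ei : ℝ} (ht : 0 < t) (ht' : t ≤ 1 / 100) (hs : 1 / 8 ≤ s)
    (hs' : s ≤ 1 / 4) (hα : 0 < α) (hα' : α < 1 + s) (hb : |b| < s * α)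
    (hpr : |pr - 1| ≤ 1 / 1000) (hq : |q| ≤ 2 / 1000 * |b|)
    (her : |er| ≤ t * α ^ 2 / 400) (hei : |ei| ≤ t * α ^ 2 / 400) :
    b + t * ((α * (1 - α) + b ^ 2) * q + b * (1 - 2 * α) * pr) + ei <
      s * (α + t * ((α * (1 - α) + b ^ 2) * pr - b * (1 - 2 * α) * q) + er) := by
  have hb4 : |b| ≤ α / 4 := by nlinarith
  have hb0 := abs_nonneg b
  have hα5 : α ≤ 5 / 4 := by linarith
  have hb2 : b ^ 2 ≤ α / 10 := by
    rw [← sq_abs]
    nlinarith
  obtain ⟨hp1, hp2⟩ := abs_le.mp hpr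
  have hA : |α * (1 - α) + b ^ 2| ≤ 11 / 10 * α := by
    rw [abs_le]
    constructor
    · nlinarith [sq_nonneg b]
    · nlinarith
  have hB : |s * (b * (1 - 2 * α))| ≤ α / 10 := by
    have h1 : |1 - 2 * α| ≤ 3 / 2 := by rw [abs_le]; constructor <;> linarith
    rw [abs_mul, abs_mul, abs_of_pos (by linarith : 0 < s)]
    have h2 : |b| * |1 - 2 * α| ≤ α / 4 * (3 / 2) := by gcongr
    have h3 : s * (|b| * |1 - 2 * α|) ≤ 1 / 4 * (α / 4 * (3 / 2)) := by gcongr
    linarith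
  have hC : |q * (s * (b * (1 - 2 * α)) + (α * (1 - α) + b ^ 2))| ≤
      2 / 1000 * |b| * (6 / 5 * α) := by
    rw [abs_mul]
    have h1 := abs_add_le (s * (b * (1 - 2 * α))) (α * (1 - α) + b ^ 2)
    gcongr
    linarith
  have hC' := (abs_le.mp hC).2
  have hE : -(t * α ^ 2 / 320) ≤ s * er - ei := by
    have h1 := (abs_le.mp her).1
    have h2 := (abs_le.mp hei).2
    have h3 : 0 ≤ t * α ^ 2 := by positivity
    nlinarith
  have hD : 0 < s * α - b := by linarith [le_abs_self b]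
  have hμ : 99 / 100 ≤ 1 + t * pr * (1 - α) := by
    have h1 : -(1 / 3) ≤ pr * (1 - α) := by nlinarith
    nlinarith
  have hDμ : 99 / 100 * (s * α - b) ≤ (s * α - b) * (1 + t * pr * (1 - α)) := by nlinarith
  have hsb : 0 ≤ t * pr * (s * b ^ 2) := by
    have : 0 ≤ pr := by linarith
    positivity
  have hid : s * (α + t * ((α * (1 - α) + b ^ 2) * pr - b * (1 - 2 * α) * q) + er) -
      (b + t * ((α * (1 - α) + b ^ 2) * q + b * (1 - 2 * α) * pr) + ei) =
      (s * α - b) * (1 + t * pr * (1 - α)) + t * pr * (s * b ^ 2) + t * (pr * b * α) -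
        t * (q * (s * (b * (1 - 2 * α)) + (α * (1 - α) + b ^ 2))) + (s * er - ei) := by ring
  have hC2 : t * (q * (s * (b * (1 - 2 * α)) + (α * (1 - α) + b ^ 2))) ≤
      t * (2 / 1000 * |b| * (6 / 5 * α)) := by gcongr
  rw [← sub_pos, hid]
  rcases le_or_gt (α / 16) b with hc | hc
  · have hbb : |b| = b := abs_of_pos (by linarith)
    rw [hbb] at hC2
    have h1 : α / 320 + 2 / 1000 * b * (6 / 5) < pr * b := by nlinarith
    have h2 : t * α * (α / 320 + 2 / 1000 * b * (6 / 5)) < t * α * (pr * b) :=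
      mul_lt_mul_of_pos_left h1 (mul_pos ht hα)
    nlinarith
  · have h0 : α / 16 ≤ s * α - b := by nlinarith
    have h1 : -(α / 3) ≤ pr * b := by nlinarith [neg_abs_le b]
    have h2 : -(α / 2) ≤ pr * b * α := by nlinarith
    have h3 : -(α / 200) ≤ t * (pr * b * α) := by nlinarith
    have h4 : 2 / 1000 * |b| * (6 / 5 * α) ≤ α / 1000 := by nlinarith
    have h5 : t * (2 / 1000 * |b| * (6 / 5 * α)) ≤ α / 1000 := by nlinarith
    have h6 : t * α ^ 2 / 320 ≤ α / 1000 := by nlinarith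
    linarith

/-- The vertical side, in real coordinates. -/
lemma right {t s α b pr q er : ℝ} (ht : 0 < t) (hs : 1 / 8 ≤ s)
    (hs' : s ≤ 1 / 4) (hα : 1 + s / 2 ≤ α) (hα' : α < 1 + s) (hb : |b| < s * α)
    (hpr : |pr - 1| ≤ 1 / 1000) (hq : |q| ≤ 2 / 1000 * |b|) (her : |er| ≤ t * α ^ 2 / 400) :
    α + t * ((α * (1 - α) + b ^ 2) * pr - b * (1 - 2 * α) * q) + er < 1 + s := by
  have hb0 := abs_nonneg b
  have hα0 : 0 < α := by linarith
  have hα5 : α ≤ 5 / 4 := by linarith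
  have hb4 : |b| ≤ α / 4 := by nlinarith
  have hb2 : b ^ 2 ≤ (s * α) ^ 2 := by
    rw [← sq_abs]
    exact pow_le_pow_left₀ hb0 hb.le 2
  obtain ⟨hp1, hp2⟩ := abs_le.mp hpr
  have hsα : s * α ≤ 5 / 16 := by nlinarith
  have hsα' : α / 8 ≤ s * α := by nlinarith
  have hA : α * (1 - α) + b ^ 2 ≤ -(3 / 128 * α) := by
    have h1 : α * (1 - α) ≤ -(s * α / 2) := by nlinarith
    have h2 : (s * α) ^ 2 ≤ 5 / 16 * (s * α) := by nlinarith
    linarith
  have hA' : (α * (1 - α) + b ^ 2) * pr ≤ -(1 / 50 * α) := by nlinarith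
  have hB : |b * (1 - 2 * α) * q| ≤ α / 1000 := by
    have h1 : |1 - 2 * α| ≤ 3 / 2 := by rw [abs_le]; constructor <;> linarith
    rw [abs_mul, abs_mul]
    have h2 : |q| ≤ 1 / 1000 := by linarith
    have h3 : |b| * |1 - 2 * α| * |q| ≤ α / 4 * (3 / 2) * (1 / 1000) := by gcongr
    linarith
  have hB' := (abs_le.mp hB).1
  have h1 : (α * (1 - α) + b ^ 2) * pr - b * (1 - 2 * α) * q + α ^ 2 / 400 ≤ 0 := by nlinarith
  have h2 := (abs_le.mp her).2
  nlinarith

/-- A function real on the real axis has a small imaginary part near it. -/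
lemma im_le {ψ : ℂ → ℂ} (hol : DifferentiableOn ℂ ψ (ball 0 3))
    (hre : ∀ x ∈ ball (0 : ℂ) 3, x.im = 0 → (ψ x).im = 0)
    (hle : ∀ x ∈ ball (0 : ℂ) 3, ‖ψ x - 1‖ ≤ 1 / 1000) {x : ℂ} (hx : ‖x‖ < 2) :
    |(ψ x).im| ≤ 2 / 1000 * |x.im| := by
  have hsub : ∀ z ∈ ball (0 : ℂ) 2, ball z 1 ⊆ ball (0 : ℂ) 3 := fun z hz y hy => by
    rw [mem_ball] at *
    linarith [dist_triangle y z 0]
  have hd : ∀ z ∈ ball (0 : ℂ) 2, DifferentiableAt ℂ ψ z := fun z hz =>
    hol.differentiableAt (isOpen_ball.mem_nhds (ball_subset_ball (by norm_num) hz))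
  have hb : ∀ z ∈ ball (0 : ℂ) 2, ‖deriv ψ z‖ ≤ 2 / 1000 := fun z hz => by
    have h1 := cauchy1 (f := fun y => ψ y - 1) (c := z) (M := 1 / 1000) one_pos
      ((hol.mono (hsub z hz)).sub_const 1) fun y hy => hle y (hsub z hz hy)
    rw [deriv_sub_const] at h1
    linarith
  have hx1 : x ∈ ball (0 : ℂ) 2 := by simpa using hx
  have hx2 : ((x.re : ℝ) : ℂ) ∈ ball (0 : ℂ) 2 := by
    rw [mem_ball_zero_iff, Complex.norm_real, Real.norm_eq_abs]
    exact (Complex.abs_re_le_norm x).trans_lt hx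
  have h1 := (convex_ball (0 : ℂ) 2).norm_image_sub_le_of_norm_deriv_le hd hb hx2 hx1
  have h2 : ‖x - (x.re : ℂ)‖ = |x.im| := by
    have : x - (x.re : ℂ) = (x.im : ℂ) * Complex.I := by
      apply Complex.ext <;> simp
    rw [this, norm_mul, Complex.norm_I, mul_one, Complex.norm_real, Real.norm_eq_abs]
  have h3 := Complex.abs_im_le_norm (ψ x - ψ (x.re : ℂ))
  rw [Complex.sub_im, hre _ (ball_subset_ball (by norm_num) hx2) (Complex.ofReal_im _),
    sub_zero] at h3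
  rw [h2] at h1
  exact h3.trans h1

end BaseAn0

open BaseAn0 in
theorem base_inv : StmtInv := by
  intro t θ ψ ht ht' hol hre hle heq s hs x hx d hd
  obtain ⟨hs1, hs2⟩ := hs
  have hs0 : (0 : ℝ) ≤ s := by linarith
  have hx4 : x ∈ U (1 / 4) := U.mono hs0 hs2 hx
  obtain ⟨hθ, hθ1⟩ := heq x hx4
  have hα := U.re_pos hs0 hx
  have hn := U.norm_le_re hs0 hs2 hx
  have hn' := U.norm_lt hs0 hs2 hx
  have hn1 := U.norm_one_sub_le hs0 hs2 hx
  have hn0 := norm_nonneg x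
  have hx3 : x ∈ ball (0 : ℂ) 3 := by rw [mem_ball_zero_iff]; linarith
  have hψ := hle x hx3
  have hψ' := norm_le_of_norm_sub_one hψ
  have hθ2 := norm_le_of_norm_sub_one hθ1
  have him := im_le hol hre hle (x := x) (by linarith)
  have hpr : |(ψ x).re - 1| ≤ 1 / 1000 := by
    have := Complex.abs_re_le_norm (ψ x - 1)
    rw [Complex.sub_re, Complex.one_re] at this
    linarith
  set e : ℂ := -((1 - x) * ((2 * θ x + d) * d)) with he
  have hph : ph x (θ x + d) = x + t * (x * (1 - x) * ψ x) + e := by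
    have h1 : θ x ^ 2 = 1 - t * x * ψ x := by rw [← hθ]; ring
    have h2 : ph x (θ x + d) = 1 - (1 - x) * θ x ^ 2 + e := by rw [he, ph]; ring
    rw [h2, h1]; ring
  have hxx : ‖x‖ ^ 2 ≤ 2 := by nlinarith
  have hd1 : ‖d‖ ≤ 1 / 1000 := by
    have : t / 1000 * ‖x‖ ^ 2 ≤ 1 / 100 / 1000 * 2 := by gcongr
    linarith
  have hen : ‖e‖ ≤ 202 / 100 * (t / 1000 * ‖x‖ ^ 2) := by
    rw [he, norm_neg, norm_mul, norm_mul]
    have h1 : ‖2 * θ x + d‖ ≤ 202 / 100 := by
      have h2 := norm_add_le (2 * θ x) d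
      rw [norm_mul, Complex.norm_ofNat] at h2
      linarith
    have h3 : ‖1 - x‖ * (‖2 * θ x + d‖ * ‖d‖) ≤ 1 * (202 / 100 * (t / 1000 * ‖x‖ ^ 2)) := by
      gcongr
    linarith
  have hen' : ‖e‖ ≤ t * x.re ^ 2 / 400 := by
    have h1 : ‖x‖ ^ 2 ≤ (104 / 100 * x.re) ^ 2 := pow_le_pow_left₀ hn0 hn 2
    have h2 : t * ‖x‖ ^ 2 ≤ t * (104 / 100 * x.re) ^ 2 := by gcongr
    have h3 : 0 ≤ t * x.re ^ 2 := by positivity
    nlinarith
  have her := (Complex.abs_re_le_norm e).trans hen'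
  have hei := (Complex.abs_im_le_norm e).trans hen'
  have hdist : ‖ph x (θ x + d) - x‖ ≤ ‖x‖ / 50 := by
    have h1 : ph x (θ x + d) - x = t * (x * (1 - x) * ψ x) + e := by rw [hph]; ring
    have h2 : ‖(t : ℂ) * (x * (1 - x) * ψ x)‖ ≤ 1 / 100 * (‖x‖ * 1 * (1 + 1 / 1000)) := by
      rw [norm_mul, norm_mul, norm_mul, Complex.norm_real, Real.norm_eq_abs, abs_of_pos ht]
      gcongr
    have h3 : t / 1000 * ‖x‖ ^ 2 ≤ 1 / 100 / 1000 * (2 * ‖x‖) := by
      gcongr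
      nlinarith
    rw [h1]
    linarith [norm_add_le ((t : ℂ) * (x * (1 - x) * ψ x)) e]
  have hRe : (ph x (θ x + d)).re = x.re + t * ((x.re * (1 - x.re) + x.im ^ 2) * (ψ x).re -
      x.im * (1 - 2 * x.re) * (ψ x).im) + e.re := by
    rw [hph]
    simp only [Complex.add_re, Complex.mul_re, Complex.mul_im, Complex.sub_re, Complex.sub_im,
      Complex.one_re, Complex.one_im, Complex.ofReal_re, Complex.ofReal_im]
    ring
  have hIm : (ph x (θ x + d)).im = x.im + t * ((x.re * (1 - x.re) + x.im ^ 2) * (ψ x).im +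
      x.im * (1 - 2 * x.re) * (ψ x).re) + e.im := by
    rw [hph]
    simp only [Complex.add_im, Complex.mul_re, Complex.mul_im, Complex.sub_re, Complex.sub_im,
      Complex.one_re, Complex.one_im, Complex.ofReal_re, Complex.ofReal_im]
    ring
  refine ⟨⟨?_, ?_⟩, by linarith⟩
  · rw [abs_lt, hRe, hIm]
    constructor
    · have := wedge (b := -x.im) (q := -(ψ x).im) (ei := -e.im) ht ht' hs1 hs2 hα hx.2
        (by rw [abs_neg]; exact hx.1) hpr (by rw [abs_neg, abs_neg]; exact him) her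
        (by rw [abs_neg]; exact hei)
      nlinarith
    · exact wedge ht ht' hs1 hs2 hα hx.2 hx.1 hpr him her hei
  · rcases le_total x.re (1 + s / 2) with h | h
    · have h1 := Complex.re_le_norm (ph x (θ x + d) - x)
      rw [Complex.sub_re] at h1
      linarith
    · rw [hRe]
      exact right ht hs1 hs2 h hx.2 hx.1 hpr him her

namespace BaseAn0

/-- The rational caps. -/
lemma rat {A g m : ℝ} (hA : |A - 1| ≤ 1 / 1000) (hg : |g - 1| ≤ 1 / 1000) (hm : 0 < m)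
    (hm' : m ≤ 1 / 1000) {f : ℂ → ℂ} (hf : ∀ ξ, f ξ = (A : ℂ) / (1 + (g : ℂ) * (m * (1 - ξ)))) :
    DifferentiableOn ℂ f (ball 0 (1 / (1000 * m))) ∧
    (∀ ξ ∈ ball (0 : ℂ) (1 / (1000 * m)), ‖f ξ - 1‖ ≤ 1 / 200) ∧
    (∀ ξ ∈ ball (0 : ℂ) (1 / (1000 * m)), ‖deriv f ξ‖ ≤ 1 / 200) ∧
    (∀ ξ ∈ ball (0 : ℂ) (1 / (1000 * m)), ξ.im = 0 → (f ξ).im = 0) := by
  obtain ⟨hA1, hA2⟩ := abs_le.mp hA
  obtain ⟨hg1, hg2⟩ := abs_le.mp hg
  have hgn : ‖(g : ℂ)‖ ≤ 1001 / 1000 := by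
    rw [Complex.norm_real, Real.norm_eq_abs, abs_le]; constructor <;> linarith
  have hAn : ‖(A : ℂ)‖ ≤ 1001 / 1000 := by
    rw [Complex.norm_real, Real.norm_eq_abs, abs_le]; constructor <;> linarith
  have hmn : ‖(m : ℂ)‖ = m := by rw [Complex.norm_real, Real.norm_eq_abs, abs_of_pos hm]
  have hw : ∀ ξ ∈ ball (0 : ℂ) (1 / (1000 * m)), ‖(g : ℂ) * (m * (1 - ξ))‖ ≤ 21 / 10000 := by
    intro ξ hξ
    rw [mem_ball_zero_iff, lt_div_iff₀ (by positivity)] at hξ
    have h1 : ‖1 - ξ‖ ≤ 1 + ‖ξ‖ := by simpa using norm_sub_le (1 : ℂ) ξ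
    have h2 : ‖(m : ℂ) * (1 - ξ)‖ ≤ 2 / 1000 := by
      rw [norm_mul, hmn]
      nlinarith
    rw [norm_mul]
    have h3 : ‖(g : ℂ)‖ * ‖(m : ℂ) * (1 - ξ)‖ ≤ 1001 / 1000 * (2 / 1000) := by gcongr
    linarith
  have hden : ∀ ξ ∈ ball (0 : ℂ) (1 / (1000 * m)),
      99 / 100 ≤ ‖1 + (g : ℂ) * (m * (1 - ξ))‖ := by
    intro ξ hξ
    have h1 : ‖1 + (g : ℂ) * (m * (1 - ξ)) - 1‖ ≤ 21 / 10000 := by
      rw [add_sub_cancel_left]; exact hw ξ hξ
    linarith [norm_ge_of_norm_sub_one h1]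
  have hne : ∀ ξ ∈ ball (0 : ℂ) (1 / (1000 * m)), 1 + (g : ℂ) * (m * (1 - ξ)) ≠ 0 := by
    intro ξ hξ h
    have := hden ξ hξ
    rw [h, norm_zero] at this
    norm_num at this
  have hder : ∀ ξ ∈ ball (0 : ℂ) (1 / (1000 * m)),
      HasDerivAt f (A * (g * m) / (1 + (g : ℂ) * (m * (1 - ξ))) ^ 2) ξ := by
    intro ξ hξ
    have h1 : HasDerivAt (fun ξ : ℂ => 1 + (g : ℂ) * (m * (1 - ξ))) (g * (m * (-1))) ξ :=
      ((((hasDerivAt_id ξ).const_sub 1).const_mul (m : ℂ)).const_mul (g : ℂ)).const_add 1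
    refine hasDerivAt_of_eq ((hasDerivAt_const ξ (A : ℂ)).div h1 (hne ξ hξ))
      (fun y => (hf y).symm) ?_
    ring
  refine ⟨fun ξ hξ => (hder ξ hξ).differentiableAt.differentiableWithinAt, fun ξ hξ => ?_,
    fun ξ hξ => ?_, fun ξ _ h => ?_⟩
  · have h1 : f ξ - 1 = ((A - 1 : ℝ) - (g : ℂ) * (m * (1 - ξ))) / (1 + (g : ℂ) * (m * (1 - ξ))) := by
      rw [hf, div_sub_one (hne ξ hξ)]
      push_cast
      ring
    have h2 := norm_sub_le ((A - 1 : ℝ) : ℂ) ((g : ℂ) * (m * (1 - ξ)))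
    rw [Complex.norm_real, Real.norm_eq_abs] at h2
    have h3 := hw ξ hξ
    have h4 := hden ξ hξ
    rw [h1, norm_div, div_le_iff₀ (by linarith)]
    linarith
  · have h4 := hden ξ hξ
    rw [(hder ξ hξ).deriv, norm_div, norm_pow, div_le_iff₀ (by positivity), norm_mul, norm_mul,
      hmn]
    have h1 : ‖(A : ℂ)‖ * (‖(g : ℂ)‖ * m) ≤ 1001 / 1000 * (1001 / 1000 * (1 / 1000)) := by gcongr
    nlinarith
  · rw [hf]
    exact (Rl.ofReal A).div (Rl.one.add ((Rl.ofReal g).mul ((Rl.ofReal m).mul (Rl.one.sub h))))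

lemma sqrt_near {X : ℝ} (h : |X - 1| ≤ 1 / 200) : 199 / 200 ≤ √X ∧ √X ≤ 201 / 200 := by
  obtain ⟨h1, h2⟩ := abs_le.mp h
  constructor
  · refine Real.le_sqrt_of_sq_le ?_
    linarith
  · refine Real.sqrt_le_iff.mpr ⟨by norm_num, ?_⟩
    linarith

lemma R2_near {ε η : ℝ} (hN : Num η) (h0 : 0 < ε) (h1 : ε ≤ 1 / 10 ^ 6) :
    |R2R ε η - 1| ≤ 1 / 1000 ∧ 0 ≤ z0R ε η ∧ z0R ε η ≤ 1 / 1000 := by
  have hu1 := hN.u1
  have hu2 := hN.u2
  have hh1 := hN.h1
  have hh2 := hN.h2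
  have ha1 := hN.a1
  have ha2 := hN.a2
  have hk : |kR ε η - 1| ≤ 1 / 10000 := by
    have h2 : |hR η * aR ^ 2 - uR η * aR| ≤ 10 := by
      rw [hN.a_sq, abs_le]
      constructor <;> nlinarith
    rw [kR, add_sub_cancel_left, abs_mul, abs_of_pos h0]
    have : ε * |hR η * aR ^ 2 - uR η * aR| ≤ 1 / 10 ^ 6 * 10 := by gcongr
    linarith
  obtain ⟨hk1, hk2⟩ := abs_le.mp hk
  have he : 0 ≤ ε * uR η := by positivity
  have he' : ε * uR η ≤ 1 / 10 ^ 6 * 10 := by gcongr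
  refine ⟨?_, ?_, ?_⟩
  · rw [R2R, abs_le]
    constructor <;> nlinarith
  · rw [z0R]; positivity
  · rw [z0R, div_le_iff₀ (by positivity)]
    nlinarith

end BaseAn0

open BaseAn0 in
theorem base_an0 (h0 : StmtXi) (h2 : StmtClosed) : StmtAn0 := by
  intro η K r0 m1 th ψ M2 hS hC
  have _ := h2
  clear h2
  have hη := hS.η_pos
  have hK := hS.K_ge
  have hr := hS.r0_pos
  have hr' := hS.r0_le
  have hsm := hS.small
  have hηK : η ≤ K * η := by nlinarith
  have hηr : η ≤ r0 / 10 ^ 12 := hηK.trans hsm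
  have hη' : η ≤ 1 / 10 ^ 15 := by linarith
  have hKη : K * η ≤ 1 / 10 ^ 15 := by linarith
  have hm1 := hC.m_ge
  have hm2 := hC.m_le
  have hm : 0 < m1 := by linarith
  have hm' : m1 ≤ 1 / 10 ^ 14 := by linarith
  have hε : 0 < η ^ 2 := by positivity
  have hε' : η ^ 2 ≤ 1 / 10 ^ 15 := by nlinarith
  obtain ⟨hN, hX⟩ := h0 (η ^ 2) η hε (by linarith) hη.le (by linarith)
  obtain ⟨hR2, hz0, hz0'⟩ := R2_near (ε := η ^ 2) hN hε (by linarith)
  obtain ⟨hR21, hR22⟩ := abs_le.mp hR2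
  obtain ⟨hT_hol, hT0, hT1, hT_re⟩ := rat (f := (mk η m1 th M2).τT) (A := R2R (η ^ 2) η)
    (g := 1 + η ^ 2) (m := m1) hR2 (by rw [add_sub_cancel_left, abs_of_pos hε]; linarith) hm
    (by linarith) (fun ξ => by simp only [Base.mk]; push_cast; ring)
  obtain ⟨hB_hol, hB0, hB1, hB_re⟩ := rat (f := (mk η m1 th M2).τB) (A := 1)
    (g := 1) (m := m1) (by norm_num) (by norm_num) hm
    (by linarith) (fun ξ => by simp only [Base.mk]; push_cast; ring)
  have hγ : 0 < 1 + η ^ 2 := by positivity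
  have hγm : 0 < (1 + η ^ 2) * m1 := by positivity
  have hγm' : (1 + η ^ 2) * m1 ≤ 1 / 10 ^ 13 := by nlinarith
  set X : ℝ := R2R (η ^ 2) η / (1 + (1 + η ^ 2) * m1) with hXdef
  have hXR : R2R (η ^ 2) η = X * (1 + (1 + η ^ 2) * m1) := by
    rw [hXdef, div_mul_cancel₀ _ (by positivity)]
  have hX1 : |X - 1| ≤ 1 / 200 := by
    rw [abs_le]
    constructor
    · rw [neg_le_sub_iff_le_add', ← sub_le_iff_le_add', hXdef, le_div_iff₀ (by positivity)]
      nlinarith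
    · rw [sub_le_iff_le_add', hXdef, div_le_iff₀ (by positivity)]
      nlinarith
  have hX0 : 0 ≤ X := by linarith [(abs_le.mp hX1).1]
  obtain ⟨hs1, hs2⟩ := sqrt_near hX1
  have hsX : √X ^ 2 = X := Real.sq_sqrt hX0
  set Y : ℝ := 1 / (1 + m1) with hYdef
  have hYm : Y * (1 + m1) = 1 := by rw [hYdef, div_mul_cancel₀ _ (by positivity)]
  have hY0 : 0 < Y := by positivity
  have hY1 : |Y - 1| ≤ 1 / 200 := by
    rw [abs_le]
    constructor <;> nlinarith
  obtain ⟨hy1, hy2⟩ := sqrt_near hY1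
  have hsY : √Y ^ 2 = Y := Real.sq_sqrt hY0.le
  have hhT : (mk η m1 th M2).hT = z0R (η ^ 2) η + √X / (1 + η ^ 2) + m1 * √X := by
    have h1 : R2R (η ^ 2) η / √X = √X * (1 + (1 + η ^ 2) * m1) := by
      rw [div_eq_iff (by linarith), hXR]
      nth_rewrite 1 [← hsX]
      ring
    change z0R (η ^ 2) η + R2R (η ^ 2) η / √X / (1 + η ^ 2) = _
    rw [h1]
    field_simp
    ring
  have hhB : (mk η m1 th M2).hB = √Y + m1 * √Y := by
    change √(1 + m1) = _
    rw [Real.sqrt_eq_iff_mul_self_eq (by positivity) (by positivity)]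
    have h1 : (√Y + m1 * √Y) * (√Y + m1 * √Y) = √Y ^ 2 * (1 + m1) * (1 + m1) := by ring
    rw [h1, hsY, hYm, one_mul]
  have hzT : (mk η m1 th M2).zT = z0R (η ^ 2) η + √X / (1 + η ^ 2) := rfl
  have hzB : (mk η m1 th M2).zB = -√Y := rfl
  have hq1 : 99 / 100 ≤ √X / (1 + η ^ 2) := by
    rw [le_div_iff₀ hγ]; linarith
  have hq2 : √X / (1 + η ^ 2) ≤ 201 / 200 := by
    rw [div_le_iff₀ hγ]; linarith
  have hτT : (mk η m1 th M2).τT 0 = (X : ℂ) := by
    simp only [Base.mk, hXdef]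
    push_cast
    ring
  have hτB : (mk η m1 th M2).τB 0 = (Y : ℂ) := by
    simp only [Base.mk, hYdef]
    push_cast
    ring
  have hmem : ∀ x ∈ U (1 / 4), (m1 : ℂ) * (1 - x) ∈ ball (0 : ℂ) r0 := by
    intro x hx
    have h1 := U.norm_one_sub_le (by norm_num) le_rfl hx
    rw [mem_ball_zero_iff, norm_mul, Complex.norm_real, Real.norm_eq_abs, abs_of_pos hm]
    have h2 : m1 * ‖1 - x‖ ≤ m1 * 1 := by gcongr
    linarith
  have hth : ∀ x ∈ U (1 / 4), ‖th (m1 * (1 - x)) - 1‖ ≤ 1 / 200 := fun x hx => by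
    have h1 := hC.th_le _ (hmem x hx)
    nlinarith
  have ht : 0 < η ^ 2 * m1 / 21 := by positivity
  have ht' : η ^ 2 * m1 / 21 ≤ 1 / 100 := by nlinarith
  have hsub : ball (0 : ℂ) (3 * m1) ⊆ ball 0 r0 := ball_subset_ball (by linarith)
  exact
    { m_pos := hm
      m_le := by change m1 ≤ _; linarith
      t_pos := ht
      t_le := ht'
      R_ge := by rw [le_div_iff₀ (by positivity)]; linarith
      R_le := by
        change m1 * _ ≤ _
        rw [mul_one_div, div_le_iff₀ (by positivity)]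
        linarith
      τT_hol := hT_hol
      τB_hol := hB_hol
      τT0 := hT0
      τB0 := hB0
      τT1 := hT1
      τB1 := hB1
      τT_real := hT_re
      τB_real := hB_re
      hT1 := by
        rw [hhT, abs_le]
        constructor <;> nlinarith
      hB1 := by
        rw [hhB, abs_le]
        constructor <;> nlinarith
      th0_hol := hC.th_hol.comp (f := fun x : ℂ => (m1 : ℂ) * (1 - x)) (by fun_prop) hmem
      th0_real := fun x hx h => hC.th_real _ (hmem x hx) ((Rl.ofReal m1).mul (Rl.one.sub h))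
      th0_le := hth
      inv := base_inv _ _ ψ ht ht' hC.ψ_hol hC.ψ_real
        (fun x hx => (hC.ψ_le x hx).trans (by linarith)) fun x hx =>
        ⟨hC.ψ_eq x (by
          rw [mem_ball_zero_iff]
          linarith [U.norm_lt (by norm_num) le_rfl hx]), hth x hx⟩
      zT_eq := by
        rw [hτT, sqrt_ofReal hX0, hhT, hzT]
        change _ = _ - (m1 : ℂ) * _
        push_cast
        ring
      zB_eq := by
        rw [hτB, sqrt_ofReal hY0.le, hhB, hzB]
        change _ = -(_ - (m1 : ℂ) * _)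
        push_cast
        ring
      ξT := by
        have h1 : xi (η ^ 2) η (z0R (η ^ 2) η + √X / (1 + η ^ 2)) = m1 * X := by
          rw [hX.top _ (by linarith [hN.a2])]
          have h2 : kR (η ^ 2) η = (X * (1 + (1 + η ^ 2) * m1) - (η ^ 2 * uR η) ^ 2 / 4) /
              (1 + η ^ 2) := by
            rw [← hXR, R2R]
            field_simp
            ring
          rw [h2, z0R]
          generalize √X = w at hsX
          rw [← hsX]
          field_simp
          ring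
        rw [hτT, hzT]
        change ((xi (η ^ 2) η _ : ℝ) : ℂ) = (m1 : ℂ) * _
        rw [h1]
        push_cast
        ring
      ξB := by
        have h1 : xi (η ^ 2) η (-√Y) = m1 * Y := by
          rw [hX.low _ (by linarith), neg_sq, hsY]
          linarith
        rw [hτB, hzB]
        change ((xi (η ^ 2) η _ : ℝ) : ℂ) = (m1 : ℂ) * _
        rw [h1]
        push_cast
        ring
      cont := hX.cont
      ξ0_le := fun z hz => by
        rw [hzB, hzT] at hz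
        have h1 : |z| ≤ 11 / 10 := by
          rw [abs_le]
          constructor <;> linarith [hz.1, hz.2]
        obtain ⟨h2, h3⟩ := hX.ball z h1
        have h4 : z ^ 2 ≤ (11 / 10) ^ 2 := by
          rw [← sq_abs]
          exact pow_le_pow_left₀ (abs_nonneg _) h1 2
        change |xi (η ^ 2) η z| ≤ 2
        rw [abs_le]
        constructor <;> nlinarith [sq_nonneg z]
      mid := fun c Q hc hQ h1 h2 => hX.mid _ _ c Q (by rw [hzB]; linarith) (by rw [hzB]; linarith)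
        (by rw [hzT]; linarith) (by rw [hzT]; linarith) hc hQ h1 h2
      M2_hol := hC.M2_hol.mono hsub
      M2_bdd := ⟨K, fun Q hQ => hC.M2_bdd Q (hsub hQ)⟩
      M2_real := fun Q hQ => hC.M2_real Q (hsub hQ) }

end

end Pool.Agent.Lib.MP_87c84d_gt
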