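import Pool.Agent.Lib.MP_87c84d_gt.BaseDefs

/-!
Closed forms of the cap functions of the base body.
-/

namespace Pool.Agent.Lib.MP_87c84d_gt

open MeasureTheory Set Metric Filter Topology
open Base

noncomputable section

namespace BaseClosed

def Sg (R g : ℝ) (μ : ℂ) : ℂ := 1 / Complex.sqrt (R / (1 + g * μ))

structure Par (R g δ : ℝ) : Prop where
  R1 : |R - 1| ≤ δ
  δ_le : δ ≤ 1 / 1000
  g1 : 1 ≤ g
  g2 : g ≤ 1 + 1 / 1000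

namespace Par

variable {R g δ : ℝ} {μ : ℂ}

lemma δ0 (hp : Par R g δ) : 0 ≤ δ := (abs_nonneg _).trans hp.R1

lemma R_ge (hp : Par R g δ) : 999 / 1000 ≤ R := by
  have := (abs_le.mp hp.R1).1
  linarith [hp.δ_le]

lemma R_le (hp : Par R g δ) : R ≤ 1001 / 1000 := by
  have := (abs_le.mp hp.R1).2
  linarith [hp.δ_le]

lemma R_ne (hp : Par R g δ) : (R : ℂ) ≠ 0 := by
  have : R ≠ 0 := by linarith [hp.R_ge]
  exact_mod_cast this

lemma g_ne (hp : Par R g δ) : (g : ℂ) ≠ 0 := by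
  have : g ≠ 0 := by linarith [hp.g1]
  exact_mod_cast this

lemma norm_R (hp : Par R g δ) : ‖(R : ℂ)‖ = R := by
  rw [Complex.norm_real, Real.norm_of_nonneg (by linarith [hp.R_ge])]

lemma norm_g (hp : Par R g δ) : ‖(g : ℂ)‖ = g := by
  rw [Complex.norm_real, Real.norm_of_nonneg (by linarith [hp.g1])]

lemma norm_R1 (hp : Par R g δ) : ‖(R : ℂ) - 1‖ ≤ δ := by
  have := hp.R1
  rwa [← Real.norm_eq_abs, ← Complex.norm_real, Complex.ofReal_sub, Complex.ofReal_one] at this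

lemma gμ_le (hp : Par R g δ) (μ : ℂ) : ‖(g : ℂ) * μ‖ ≤ 1001 / 1000 * ‖μ‖ := by
  rw [norm_mul, hp.norm_g]
  exact mul_le_mul_of_nonneg_right (by linarith [hp.g2]) (norm_nonneg _)

lemma den_ge (hp : Par R g δ) (hμ : ‖μ‖ ≤ 1 / 100) : 98 / 100 ≤ ‖1 + (g : ℂ) * μ‖ := by
  have h1 : ‖1 + (g : ℂ) * μ - 1‖ ≤ 2 / 100 := by
    rw [add_sub_cancel_left]; linarith [hp.gμ_le μ]
  linarith [norm_ge_of_norm_sub_one h1]

lemma den_ne (hp : Par R g δ) (hμ : ‖μ‖ ≤ 1 / 100) : 1 + (g : ℂ) * μ ≠ 0 := by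
  intro h
  have := hp.den_ge hμ
  rw [h, norm_zero] at this
  linarith

lemma tau_sub (hp : Par R g δ) (hμ : ‖μ‖ ≤ 1 / 100) :
    ‖(R : ℂ) / (1 + g * μ) - 1‖ ≤ 11 / 10 * (δ + ‖μ‖) := by
  have h0 := hp.den_ne hμ
  have h1 : (R : ℂ) / (1 + g * μ) - 1 = ((R - 1) - g * μ) / (1 + g * μ) := by
    field_simp; ring
  have h2 := hp.den_ge hμ
  have h3 : ‖((R : ℂ) - 1) - g * μ‖ ≤ δ + 1001 / 1000 * ‖μ‖ := by
    linarith [norm_sub_le ((R : ℂ) - 1) (g * μ), hp.norm_R1, hp.gμ_le μ]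
  rw [h1, norm_div, div_le_iff₀ (by linarith)]
  have h4 := hp.δ0
  have h5 := norm_nonneg μ
  nlinarith

lemma tau_sub' (hp : Par R g δ) (hμ : ‖μ‖ ≤ 1 / 100) :
    ‖(R : ℂ) / (1 + g * μ) - 1‖ ≤ 2 / 100 := by
  linarith [hp.tau_sub hμ, hp.δ_le]

lemma slit (hp : Par R g δ) (hμ : ‖μ‖ ≤ 1 / 100) :
    (R : ℂ) / (1 + g * μ) ∈ Complex.slitPlane :=
  slit_of_norm_sub_one (hp.tau_sub' hμ) (by norm_num)

lemma s_ge (hp : Par R g δ) (hμ : ‖μ‖ ≤ 1 / 100) :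
    98 / 100 ≤ ‖Complex.sqrt ((R : ℂ) / (1 + g * μ))‖ := by
  linarith [norm_ge_of_norm_sub_one ((norm_sqrt_sub_one _).trans (hp.tau_sub' hμ))]

lemma s_ne (hp : Par R g δ) (hμ : ‖μ‖ ≤ 1 / 100) :
    Complex.sqrt ((R : ℂ) / (1 + g * μ)) ≠ 0 := by
  intro h
  have := hp.s_ge hμ
  rw [h, norm_zero] at this
  linarith

lemma S_ne (hp : Par R g δ) (hμ : ‖μ‖ ≤ 1 / 100) : Sg R g μ ≠ 0 :=
  one_div_ne_zero (hp.s_ne hμ)

lemma S_sq (hp : Par R g δ) (hμ : ‖μ‖ ≤ 1 / 100) : (R : ℂ) * Sg R g μ ^ 2 = 1 + g * μ := by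
  have h0 := hp.den_ne hμ
  have h1 := hp.R_ne
  rw [Sg, div_pow, sq_sqrt]
  field_simp

lemma S_sub (hp : Par R g δ) (hμ : ‖μ‖ ≤ 1 / 100) : ‖Sg R g μ - 1‖ ≤ 2 * ‖μ‖ + 2 * δ := by
  have h0 := hp.s_ne hμ
  have h1 : Sg R g μ - 1 = -((Complex.sqrt ((R : ℂ) / (1 + g * μ)) - 1) /
      Complex.sqrt ((R : ℂ) / (1 + g * μ))) := by
    rw [Sg]; field_simp; ring
  have h2 := hp.s_ge hμ
  have h3 := (norm_sqrt_sub_one _).trans (hp.tau_sub hμ)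
  rw [h1, norm_neg, norm_div, div_le_iff₀ (by linarith)]
  have h4 := hp.δ0
  have h5 := norm_nonneg μ
  nlinarith

lemma tau_der (hp : Par R g δ) (hμ : ‖μ‖ ≤ 1 / 100) :
    HasDerivAt (fun μ : ℂ => (R : ℂ) / (1 + g * μ)) (-(R * g / (1 + g * μ) ^ 2)) μ := by
  have h0 := hp.den_ne hμ
  have h1 : HasDerivAt (fun μ : ℂ => 1 + (g : ℂ) * μ) g μ :=
    hasDerivAt_of_eq (((hasDerivAt_id μ).const_mul (g : ℂ)).const_add 1) (fun _ => rfl) (by simp)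
  refine hasDerivAt_of_eq ((hasDerivAt_const μ (R : ℂ)).div h1 h0) (fun _ => rfl) ?_
  ring

lemma S_der (hp : Par R g δ) (hμ : ‖μ‖ ≤ 1 / 100) :
    HasDerivAt (Sg R g) (g / (2 * R * Sg R g μ)) μ := by
  have h0 := hp.den_ne hμ
  have h1 := hp.s_ne hμ
  have h2 := hp.R_ne
  have h3 := HasDerivAt.csqrt (hp.tau_der hμ) (hp.slit hμ)
  refine hasDerivAt_of_eq ((hasDerivAt_const μ (1 : ℂ)).div h3 h1) (fun _ => rfl) ?_
  have h4 := sq_sqrt ((R : ℂ) / (1 + g * μ))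
  simp only [Sg]
  generalize Complex.sqrt ((R : ℂ) / (1 + g * μ)) = s at *
  have h5 : (1 + (g : ℂ) * μ) = R / s ^ 2 := by
    rw [h4]; field_simp
  rw [h5]
  field_simp
  ring

lemma S_hol (hp : Par R g δ) {P : Set ℂ} {f : ℂ → ℂ} (hf : DifferentiableOn ℂ f P)
    (hb : ∀ w ∈ P, ‖f w‖ ≤ 1 / 100) : DifferentiableOn ℂ (fun w => Sg R g (f w)) P :=
  fun w hw => (hp.S_der (hb w hw)).differentiableAt.comp_differentiableWithinAt w (hf w hw)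

end Par

/-- A cap cut out by a quadric. -/
structure Quad (K : Cap) (R g δ z m : ℝ) : Prop extends Par R g δ where
  m_pos : 0 < m
  m_le : m ≤ 1 / 1000
  z_le : |z| ≤ 1 / 1000
  m_eq : K.m = m
  τ_eq : ∀ ξ, K.τ ξ = R / (1 + g * (m * (1 - ξ)))
  h_eq : (K.h : ℂ) = z + R * Sg R g m / g

namespace Quad

variable {K : Cap} {R g δ z m : ℝ} {ξ : ℂ}

lemma small (hq : Quad K R g δ z m) (hξ : ξ ∈ ball (0 : ℂ) (1 / (1000 * m))) :
    m * ‖ξ‖ ≤ 1 / 1000 := by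
  have h0 := hq.m_pos
  rw [mem_ball_zero_iff, lt_div_iff₀ (by positivity)] at hξ
  linarith

lemma μ_le (hq : Quad K R g δ z m) (hξ : ξ ∈ ball (0 : ℂ) (1 / (1000 * m))) :
    ‖(m : ℂ) * (1 - ξ)‖ ≤ 1 / 500 := by
  have h0 := hq.m_pos
  rw [norm_mul, Complex.norm_real, Real.norm_of_nonneg h0.le]
  have h1 : ‖1 - ξ‖ ≤ 1 + ‖ξ‖ := by simpa using norm_sub_le 1 ξ
  nlinarith [hq.small hξ, hq.m_le]

lemma μ_le' (hq : Quad K R g δ z m) (hξ : ξ ∈ ball (0 : ℂ) (1 / (1000 * m))) :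
    ‖(m : ℂ) * (1 - ξ)‖ ≤ 1 / 100 := by linarith [hq.μ_le hξ]

lemma μ_der (m : ℝ) (ξ : ℂ) : HasDerivAt (fun ξ : ℂ => (m : ℂ) * (1 - ξ)) (-m) ξ :=
  hasDerivAt_of_eq (((hasDerivAt_id ξ).const_sub 1).const_mul (m : ℂ)) (fun _ => rfl) (by simp)

lemma τ_der (hq : Quad K R g δ z m) (hξ : ξ ∈ ball (0 : ℂ) (1 / (1000 * m))) :
    HasDerivAt K.τ (R * g * m / (1 + g * (m * (1 - ξ))) ^ 2) ξ := by
  have h := (hq.toPar.tau_der (hq.μ_le' hξ)).comp ξ (μ_der m ξ)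
  exact hasDerivAt_of_eq h (fun y => (hq.τ_eq y).symm) (by ring)

lemma ok (hq : Quad K R g δ z m) : K.OK (ball 0 (1 / (1000 * m))) := by
  have h0 := hq.m_pos
  have hp := hq.toPar
  refine ⟨⟨isOpen_ball, convex_ball _ _, fun ξ hξ r hr => ?_, fun ξ hξ => ?_, ?_, ?_⟩,
    fun ξ hξ => (hq.τ_der hξ).differentiableAt.differentiableWithinAt, fun ξ hξ => ?_,
    fun ξ hξ => ?_, ?_⟩
  · rw [mem_ball_zero_iff] at *
    rw [norm_mul, Complex.norm_real, Real.norm_of_nonneg hr.1.le]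
    exact (mul_le_of_le_one_left (norm_nonneg _) hr.2).trans_lt hξ
  · rw [hq.m_eq]; linarith [hq.small hξ]
  · rw [hq.m_eq]; exact h0
  · rw [hq.m_eq]; linarith [hq.m_le]
  · rw [hq.τ_eq]
    linarith [hp.tau_sub (hq.μ_le' hξ), hq.μ_le hξ, hp.δ_le]
  · rw [(hq.τ_der hξ).deriv, norm_div, norm_mul, norm_mul, norm_pow, hp.norm_R, hp.norm_g,
      Complex.norm_real, Real.norm_of_nonneg h0.le]
    have h1 := hp.den_ge (hq.μ_le' hξ)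
    refine le_trans (b := 1001 / 1000 * (1 + 1 / 1000) * (1 / 1000) / (98 / 100) ^ 2) ?_
      (by norm_num)
    have h2 := hp.R_ge
    have h3 := hp.g1
    gcongr
    exacts [hp.R_le, hp.g2, hq.m_le]
  · have hm : ‖(m : ℂ)‖ ≤ 1 / 1000 := by
      rw [Complex.norm_real, Real.norm_of_nonneg h0.le]; exact hq.m_le
    have h1 := hp.S_sub (μ := m) (by linarith)
    have h2 : (K.h : ℂ) - 1 = z + (R * (Sg R g m - 1) + (R - 1) - (g - 1)) / g := by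
      have := hp.g_ne
      rw [hq.h_eq]; field_simp; ring
    have h3 : ‖(R : ℂ) * (Sg R g m - 1)‖ ≤ 1001 / 1000 * (4 / 1000) := by
      rw [norm_mul, hp.norm_R]
      have := hp.R_ge
      gcongr
      · exact hp.R_le
      · linarith [hp.δ_le]
    have h4 : ‖(g : ℂ) - 1‖ ≤ 1 / 1000 := by
      rw [← Complex.ofReal_one, ← Complex.ofReal_sub, Complex.norm_real,
        Real.norm_of_nonneg (by linarith [hp.g1])]
      linarith [hp.g2]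
    have h5 : ‖(R : ℂ) * (Sg R g m - 1) + (R - 1) - (g - 1)‖ ≤ 7 / 1000 := by
      linarith [norm_sub_le ((R : ℂ) * (Sg R g m - 1) + (R - 1)) (g - 1),
        norm_add_le ((R : ℂ) * (Sg R g m - 1)) (R - 1), hp.norm_R1, hp.δ_le]
    have h6 : ‖((R : ℂ) * (Sg R g m - 1) + (R - 1) - (g - 1)) / g‖ ≤ 7 / 1000 := by
      rw [norm_div, hp.norm_g]
      exact (div_le_self (norm_nonneg _) hp.g1).trans h5
    have h7 : ‖(z : ℂ)‖ ≤ 1 / 1000 := by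
      rw [Complex.norm_real, Real.norm_eq_abs]; exact hq.z_le
    rw [← Real.norm_eq_abs, ← Complex.norm_real, Complex.ofReal_sub, Complex.ofReal_one, h2]
    linarith [norm_add_le (z : ℂ) (((R : ℂ) * (Sg R g m - 1) + (R - 1) - (g - 1)) / g)]

lemma sg_eq (hq : Quad K R g δ z m) (ξ : ℂ) : K.sg ξ = (Sg R g (m * (1 - ξ)))⁻¹ := by
  rw [Cap.sg, hq.τ_eq, Sg, one_div, inv_inv]

lemma S_der (hq : Quad K R g δ z m) (hξ : ξ ∈ ball (0 : ℂ) (1 / (1000 * m))) :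
    HasDerivAt (fun ξ : ℂ => Sg R g (m * (1 - ξ)))
      (g / (2 * R * Sg R g (m * (1 - ξ))) * (-m)) ξ := by
  have h := (hq.toPar.S_der (hq.μ_le' hξ)).comp ξ (μ_der m ξ)
  exact h

lemma hh_eq (hq : Quad K R g δ z m) (hξ : ξ ∈ ball (0 : ℂ) (1 / (1000 * m))) :
    K.hh ξ = z + R * Sg R g (m * (1 - ξ)) / g := by
  have h0 := hq.m_pos
  have hp := hq.toPar
  have hd : ∀ y ∈ ball (0 : ℂ) (1 / (1000 * m)),
      HasDerivAt (fun y => K.hh y - (z + R * Sg R g (m * (1 - y)) / g)) 0 y := fun y hy => by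
    refine hasDerivAt_of_eq ((hq.ok.hh_der hy).sub
      ((((hq.S_der hy).const_mul (R : ℂ)).div_const (g : ℂ)).const_add (z : ℂ)))
      (fun _ => rfl) ?_
    have h1 := hp.S_ne (hq.μ_le' hy)
    have h2 := hp.R_ne
    have h3 := hp.g_ne
    rw [hq.sg_eq, hq.m_eq]
    field_simp
    ring
  have h1 := isOpen_ball.is_const_of_deriv_eq_zero (convex_ball _ _).isPreconnected
    (fun y hy => (hd y hy).differentiableAt.differentiableWithinAt)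
    (fun y hy => (hd y hy).deriv) hξ (mem_ball_self (by positivity))
  have h2 : K.hh 0 = K.h := by simp [Cap.hh]
  simp only [h2, hq.h_eq, sub_zero, mul_one, sub_self] at h1
  exact sub_eq_zero.mp h1

lemma ZZ_eq (hq : Quad K R g δ z m) (hξ : ξ ∈ ball (0 : ℂ) (1 / (1000 * m))) :
    K.ZZ ξ = z + (Sg R g (m * (1 - ξ)))⁻¹ / g := by
  have hp := hq.toPar
  have h1 := hp.S_ne (hq.μ_le' hξ)
  have h2 := hp.S_sq (hq.μ_le' hξ)
  have h3 := hp.g_ne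
  rw [Cap.ZZ, hq.hh_eq hξ, hq.sg_eq, Cap.mm, hq.m_eq]
  generalize Sg R g (m * (1 - ξ)) = S at *
  field_simp
  linear_combination h2

lemma ze_eq (hq : Quad K R g δ z m) (c : ℂ) (hξ : ξ ∈ ball (0 : ℂ) (1 / (1000 * m))) :
    K.ze c ξ = 1 / g + (z - c) * Sg R g (m * (1 - ξ)) := by
  have hp := hq.toPar
  have h1 := hp.S_ne (hq.μ_le' hξ)
  have h2 := hp.S_sq (hq.μ_le' hξ)
  have h3 := hp.g_ne
  rw [Cap.ze, hq.hh_eq hξ, hq.sg_eq, Cap.mm, hq.m_eq]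
  generalize Sg R g (m * (1 - ξ)) = S at *
  field_simp
  linear_combination h2

lemma ze1_eq (hq : Quad K R g δ z m) (c : ℂ) (hξ : ξ ∈ ball (0 : ℂ) (1 / (1000 * m))) :
    K.ze1 c ξ = -(m * (z - c) * g / (2 * R * Sg R g (m * (1 - ξ)))) := by
  have h1 : HasDerivAt (fun y : ℂ => 1 / (g : ℂ) + (z - c) * Sg R g (m * (1 - y)))
      ((z - c) * (g / (2 * R * Sg R g (m * (1 - ξ))) * (-m))) ξ :=
    ((hq.S_der hξ).const_mul _).const_add _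
  have h2 : HasDerivAt (K.ze c) ((z - c) * (g / (2 * R * Sg R g (m * (1 - ξ))) * (-m))) ξ := by
    refine h1.congr_of_eventuallyEq ?_
    filter_upwards [isOpen_ball.mem_nhds hξ] with y hy using hq.ze_eq c hy
  rw [(hq.ok.ze_der c hξ).unique h2]
  ring

end Quad

variable {η m1 : ℝ}

lemma ST_eq (η : ℝ) (μ : ℂ) : ST (η ^ 2) η μ = Sg (R2R (η ^ 2) η) (1 + η ^ 2) μ := by
  rw [Base.ST, Sg, ← R2C_ofReal]
  push_cast
  rfl

lemma SB_eq (μ : ℂ) : SB μ = Sg 1 1 μ := by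
  simp [SB, Sg]

lemma sq_le (h0 : 0 < η) (h1 : η ≤ 1 / 10 ^ 6) : η ^ 2 ≤ 1 / 10 ^ 12 := by nlinarith

lemma parT (hN : Num η) (h0 : 0 < η) (h1 : η ≤ 1 / 10 ^ 6) :
    Par (R2R (η ^ 2) η) (1 + η ^ 2) (3 * η ^ 2) := by
  have h2 := sq_le h0 h1
  have h3 : 0 < η ^ 2 := by positivity
  refine ⟨?_, by linarith, by linarith, by linarith⟩
  have hw1 : -(35 / 10) ≤ hR η * aR ^ 2 - uR η * aR := by
    rw [hN.a_sq]; nlinarith [hN.a1, hN.a2, hN.u1, hN.u2, hN.h1]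
  have hw2 : hR η * aR ^ 2 - uR η * aR ≤ 6 / 10 := by
    rw [hN.a_sq]; nlinarith [hN.a1, hN.a2, hN.u1, hN.u2, hN.h2]
  have hu : uR η ^ 2 ≤ 100 := by nlinarith [hN.u1, hN.u2]
  have hu0 : 0 ≤ uR η ^ 2 := by positivity
  have he : R2R (η ^ 2) η - 1 = η ^ 2 * ((hR η * aR ^ 2 - uR η * aR) * (1 + η ^ 2) + 1 +
      η ^ 2 * uR η ^ 2 / 4) := by
    simp only [R2R, kR]; ring
  generalize hR η * aR ^ 2 - uR η * aR = w at *
  generalize uR η ^ 2 = v at *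
  generalize η ^ 2 = e at *
  rw [he, abs_mul, abs_of_pos h3, mul_comm 3 e]
  refine mul_le_mul_of_nonneg_left (abs_le.mpr ⟨?_, ?_⟩) h3.le <;> nlinarith

lemma parB : Par 1 1 0 := ⟨by simp, by norm_num, le_rfl, by norm_num⟩

lemma z0_le (hN : Num η) (h0 : 0 < η) : |z0R (η ^ 2) η| ≤ 5 * η ^ 2 := by
  have h3 : 0 < η ^ 2 := by positivity
  have h4 := hN.u1
  have h5 := hN.u2
  rw [z0R, abs_of_nonneg (by positivity), div_le_iff₀ (by positivity)]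
  nlinarith

lemma quadT (hN : Num η) (h0 : 0 < η) (h1 : η ≤ 1 / 10 ^ 6) (h2 : 0 < m1) (h3 : m1 ≤ 2 * η)
    (th M2 : ℂ → ℂ) : Quad ((mk η m1 th M2).capT 0) (R2R (η ^ 2) η) (1 + η ^ 2) (3 * η ^ 2)
      (z0R (η ^ 2) η) m1 := by
  have hp := parT hN h0 h1
  refine ⟨hp, h2, by linarith, by linarith [z0_le hN h0, sq_le h0 h1], rfl, fun ξ => ?_, ?_⟩
  · simp [Data.capT, Base.mk]
  · have h4 : 0 ≤ R2R (η ^ 2) η / (1 + (1 + η ^ 2) * m1) := by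
      have := hp.R_ge
      positivity
    have h5 := sqrt_ofReal h4
    simp only [Data.capT, Base.mk, Sg]
    push_cast at h5 ⊢
    rw [h5]
    ring

lemma quadB (h0 : 0 < η) (h1 : η ≤ 1 / 10 ^ 6) (h2 : 0 < m1) (h3 : m1 ≤ 2 * η)
    (th M2 : ℂ → ℂ) : Quad ((mk η m1 th M2).capB 0) 1 1 0 0 m1 := by
  refine ⟨parB, h2, by linarith, by simp, rfl, fun ξ => ?_, ?_⟩
  · simp [Data.capB, Base.mk]
  · have h4 : 0 ≤ 1 / (1 + m1) := by positivity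
    have h5 := sqrt_ofReal h4
    simp only [Data.capB, Base.mk, Sg]
    rw [one_div, Real.sqrt_inv] at h5
    push_cast at h5 ⊢
    simp only [one_mul, div_one, zero_add, one_div]
    rw [h5, inv_inv]

lemma ST_sq (hN : Num η) (h0 : 0 < η) (h1 : η ≤ 1 / 10 ^ 6) {m : ℂ} (hm : ‖m‖ ≤ 1 / 100) :
    (R2R (η ^ 2) η : ℂ) * ST (η ^ 2) η m ^ 2 = 1 + (1 + (η : ℂ) ^ 2) * m ∧
      ‖ST (η ^ 2) η m - 1‖ ≤ 2 * ‖m‖ + 20 * η ^ 2 := by
  have hp := parT hN h0 h1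
  rw [ST_eq]
  refine ⟨by simpa using hp.S_sq hm, ?_⟩
  have h3 : 0 < η ^ 2 := by positivity
  linarith [hp.S_sub hm]

lemma SB_sq {m : ℂ} (hm : ‖m‖ ≤ 1 / 100) : SB m ^ 2 = 1 + m ∧ ‖SB m - 1‖ ≤ 2 * ‖m‖ := by
  rw [SB_eq]
  exact ⟨by simpa using parB.S_sq hm, by simpa using parB.S_sub hm⟩

lemma mθ_le {m θ : ℂ} (hm : ‖m‖ ≤ 1 / 200) (hθ : ‖θ - 1‖ ≤ 1 / 100) :
    ‖m * θ ^ 2‖ ≤ 1 / 100 := by
  have h1 := norm_le_of_norm_sub_one hθ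
  rw [norm_mul, norm_pow]
  refine le_trans (b := 1 / 200 * (1 + 1 / 100) ^ 2) ?_ (by norm_num)
  gcongr

lemma ST_sub (hN : Num η) (h0 : 0 < η) (h1 : η ≤ 1 / 10 ^ 6) {m θ : ℂ} (hm : ‖m‖ ≤ 1 / 200)
    (hθ : ‖θ - 1‖ ≤ 1 / 100) : ‖ST (η ^ 2) η (m * θ ^ 2) - 1‖ ≤ 3 / 100 := by
  have h2 := mθ_le hm hθ
  linarith [(ST_sq hN h0 h1 h2).2, sq_le h0 h1]

lemma SB_sub {m : ℂ} (hm : ‖m‖ ≤ 1 / 200) : ‖SB m - 1‖ ≤ 1 / 100 := by
  linarith [(SB_sq (m := m) (by linarith)).2]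

lemma den_ge (hN : Num η) (h0 : 0 < η) (h1 : η ≤ 1 / 10 ^ 6) {m θ : ℂ} (hm : ‖m‖ ≤ 1 / 200)
    (hθ : ‖θ - 1‖ ≤ 1 / 100) : 1 ≤ ‖ST (η ^ 2) η (m * θ ^ 2) + θ * SB m‖ := by
  have h2 := ST_sub hN h0 h1 hm hθ
  have h3 := SB_sub hm
  have h4 := norm_le_of_norm_sub_one h3
  have h5 : ‖(θ - 1) * SB m‖ ≤ 1 / 100 * (1 + 1 / 100) := by
    rw [norm_mul]; gcongr
  have h6 : (2 : ℂ) = (ST (η ^ 2) η (m * θ ^ 2) + θ * SB m) - ((ST (η ^ 2) η (m * θ ^ 2) - 1) +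
      ((θ - 1) * SB m + (SB m - 1))) := by ring
  have h7 := norm_sub_le (ST (η ^ 2) η (m * θ ^ 2) + θ * SB m) ((ST (η ^ 2) η (m * θ ^ 2) - 1) +
      ((θ - 1) * SB m + (SB m - 1)))
  rw [← h6, Complex.norm_ofNat] at h7
  linarith [norm_add_le (ST (η ^ 2) η (m * θ ^ 2) - 1) ((θ - 1) * SB m + (SB m - 1)),
    norm_add_le ((θ - 1) * SB m) (SB m - 1)]

lemma den_ne (hN : Num η) (h0 : 0 < η) (h1 : η ≤ 1 / 10 ^ 6) {m θ : ℂ} (hm : ‖m‖ ≤ 1 / 200)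
    (hθ : ‖θ - 1‖ ≤ 1 / 100) : ST (η ^ 2) η (m * θ ^ 2) + θ * SB m ≠ 0 := by
  intro h
  have := den_ge hN h0 h1 hm hθ
  rw [h, norm_zero] at this
  linarith

lemma γ_norm (η : ℝ) : ‖1 + (η : ℂ) ^ 2‖ = 1 + η ^ 2 := by
  rw [← Complex.ofReal_pow, ← Complex.ofReal_one, ← Complex.ofReal_add, Complex.norm_real,
    Real.norm_of_nonneg (by positivity)]

lemma γ_ne (η : ℝ) : 1 + (η : ℂ) ^ 2 ≠ 0 := by
  intro h
  have := γ_norm η
  rw [h, norm_zero] at this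
  nlinarith [sq_nonneg η]

lemma cP_le (hN : Num η) (h0 : 0 < η) (h1 : η ≤ 1 / 10 ^ 6) {m θ : ℂ} (hm : ‖m‖ ≤ 1 / 200)
    (hθ : ‖θ - 1‖ ≤ 1 / 100) : ‖cP (η ^ 2) η m θ‖ ≤ ‖θ - 1‖ + 10 * η ^ 2 := by
  have h2 := norm_le_of_norm_sub_one (ST_sub hN h0 h1 hm hθ)
  have h3 : 0 < η ^ 2 := by positivity
  have h4 : ‖uC η * ST (η ^ 2) η (m * θ ^ 2) / 2‖ ≤ 10 * (1 + 3 / 100) / 2 := by
    rw [norm_div, norm_mul, uC_ofReal, Complex.norm_real,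
      Real.norm_of_nonneg (by linarith [hN.u1]), Complex.norm_ofNat]
    gcongr
    exact hN.u2
  have h5 : ‖-1 + uC η * ST (η ^ 2) η (m * θ ^ 2) / 2‖ ≤ 10 := by
    have := norm_add_le (-1) (uC η * ST (η ^ 2) η (m * θ ^ 2) / 2)
    rw [norm_neg, norm_one] at this
    linarith
  have h6 : ‖(η : ℂ) ^ 2 * (-1 + uC η * ST (η ^ 2) η (m * θ ^ 2) / 2) / (1 + (η : ℂ) ^ 2)‖ ≤
      10 * η ^ 2 := by
    rw [norm_div, γ_norm, norm_mul, norm_pow, Complex.norm_real, Real.norm_of_nonneg h0.le]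
    refine (div_le_self (by positivity) (by linarith)).trans ?_
    nlinarith
  rw [cP, norm_div]
  refine (div_le_self (norm_nonneg _) (den_ge hN h0 h1 hm hθ)).trans ?_
  refine (norm_add_le _ _).trans ?_
  rw [norm_sub_rev]
  linarith

lemma YP_ne (hN : Num η) (h0 : 0 < η) (h1 : η ≤ 1 / 10 ^ 6) {m θ : ℂ} (hm : ‖m‖ ≤ 1 / 200)
    (hθ : ‖θ - 1‖ ≤ 1 / 100) : YP (η ^ 2) η m θ ≠ 0 := by
  have h2 := cP_le hN h0 h1 hm hθ
  have h3 := norm_le_of_norm_sub_one (SB_sub hm)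
  have h4 : ‖YP (η ^ 2) η m θ - 1‖ ≤ 2 / 100 * (1 + 1 / 100) := by
    rw [YP, add_sub_cancel_left, norm_mul]
    gcongr
    linarith [sq_le h0 h1]
  intro h
  have := norm_ge_of_norm_sub_one h4
  rw [h, norm_zero] at this
  linarith

lemma cP_hol (hN : Num η) (h0 : 0 < η) (h1 : η ≤ 1 / 10 ^ 6) (P : Set ℂ) (m θ : ℂ → ℂ)
    (hm : DifferentiableOn ℂ m P) (hθ : DifferentiableOn ℂ θ P)
    (hb : ∀ w ∈ P, ‖m w‖ ≤ 1 / 200 ∧ ‖θ w - 1‖ ≤ 1 / 100) :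
    DifferentiableOn ℂ (fun w => cP (η ^ 2) η (m w) (θ w)) P ∧
    DifferentiableOn ℂ (fun w => YP (η ^ 2) η (m w) (θ w)) P ∧
    DifferentiableOn ℂ (fun w => QP (η ^ 2) η (m w) (θ w)) P := by
  have hT : DifferentiableOn ℂ (fun w => ST (η ^ 2) η (m w * θ w ^ 2)) P := by
    simp only [ST_eq]
    exact (parT hN h0 h1).S_hol (hm.mul (hθ.pow 2)) fun w hw => mθ_le (hb w hw).1 (hb w hw).2
  have hB : DifferentiableOn ℂ (fun w => SB (m w)) P := by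
    simp only [SB_eq]
    exact parB.S_hol hm fun w hw => by linarith [(hb w hw).1]
  have hc : DifferentiableOn ℂ (fun w => cP (η ^ 2) η (m w) (θ w)) P := by
    simp only [cP]
    exact DifferentiableOn.div ((hθ.const_sub 1).add
      (((((hT.const_mul _).div_const 2).const_add (-1)).const_mul _).div_const _))
      (hT.add (hθ.mul hB)) fun w hw => den_ne hN h0 h1 (hb w hw).1 (hb w hw).2
  have hY : DifferentiableOn ℂ (fun w => YP (η ^ 2) η (m w) (θ w)) P := by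
    simp only [YP]
    exact (hc.mul hB).const_add 1
  refine ⟨hc, hY, ?_⟩
  simp only [QP]
  exact hm.div (hY.pow 2) fun w hw => pow_ne_zero 2 (YP_ne hN h0 h1 (hb w hw).1 (hb w hw).2)

lemma plane (hN : Num η) (h0 : 0 < η) (h1 : η ≤ 1 / 10 ^ 6) (h2 : 0 < m1) (h3 : m1 ≤ 2 * η)
    (th M2 : ℂ → ℂ) {x θ : ℂ} (hx : ‖x‖ ≤ 2) (hθ : ‖θ - 1‖ ≤ 1 / 100) :
    (mk η m1 th M2).YY 0 x θ = YP (η ^ 2) η (m1 * (1 - x)) θ ∧
    (mk η m1 th M2).cc 0 x θ = cP (η ^ 2) η (m1 * (1 - x)) θ ∧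
    (mk η m1 th M2).QQ 0 x θ = QP (η ^ 2) η (m1 * (1 - x)) θ := by
  have qT := quadT hN h0 h1 h2 h3 th M2
  have qB := quadB h0 h1 h2 h3 th M2
  have hx1 : ‖1 - x‖ ≤ 3 := by
    have : ‖1 - x‖ ≤ 1 + ‖x‖ := by simpa using norm_sub_le 1 x
    linarith
  have hθ1 := norm_le_of_norm_sub_one hθ
  have hR : 5 < 1 / (1000 * m1) := by
    rw [lt_div_iff₀ (by positivity)]; linarith
  have hxm : x ∈ ball (0 : ℂ) (1 / (1000 * m1)) := by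
    rw [mem_ball_zero_iff]; linarith
  have hφm : ph x θ ∈ ball (0 : ℂ) (1 / (1000 * m1)) := by
    rw [mem_ball_zero_iff, ph]
    have h4 : ‖(1 - x) * θ ^ 2‖ ≤ 3 * (1 + 1 / 100) ^ 2 := by
      rw [norm_mul, norm_pow]; gcongr
    have h5 := norm_sub_le 1 ((1 - x) * θ ^ 2)
    rw [norm_one] at h5
    linarith
  have hμ : ‖(m1 : ℂ) * (1 - x)‖ ≤ 1 / 200 := by linarith [qB.μ_le hxm]
  have hφ : (m1 : ℂ) * (1 - ph x θ) = m1 * (1 - x) * θ ^ 2 := by rw [ph]; ring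
  have e1 := qT.ZZ_eq hφm
  have e2 := qT.sg_eq (ph x θ)
  have e3 := qB.ZZ_eq hxm
  have e4 := qB.sg_eq x
  rw [hφ, ← ST_eq] at e1 e2
  rw [← SB_eq] at e3 e4
  have n1 : ST (η ^ 2) η (m1 * (1 - x) * θ ^ 2) ≠ 0 := by
    rw [ST_eq]; exact qT.toPar.S_ne (mθ_le hμ hθ)
  have n2 : SB (m1 * (1 - x)) ≠ 0 := by
    rw [SB_eq]; exact parB.S_ne (by linarith)
  have n3 := den_ne hN h0 h1 hμ hθ
  have n4 := γ_ne η
  have hz : (z0R (η ^ 2) η : ℂ) = (η : ℂ) ^ 2 * uC η / (2 * (1 + (η : ℂ) ^ 2)) := by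
    rw [uC_ofReal, z0R]; push_cast; rfl
  have hY : (mk η m1 th M2).YY 0 x θ = YP (η ^ 2) η (m1 * (1 - x)) θ := by
    rw [Data.YY, e1, e2, e3, e4, YP, cP, hz]
    generalize ST (η ^ 2) η (m1 * (1 - x) * θ ^ 2) = S at *
    generalize SB (m1 * (1 - x)) = B at *
    have n5 : θ * S⁻¹ + B⁻¹ ≠ 0 := by
      have : θ * S⁻¹ + B⁻¹ = (S + θ * B) / (S * B) := by field_simp; ring
      rw [this]; exact div_ne_zero n3 (mul_ne_zero n1 n2)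
    have n6 : S + B * θ ≠ 0 := by rwa [mul_comm] at n3
    rw [div_eq_iff n5]
    push_cast
    field_simp
    ring
  refine ⟨hY, ?_, ?_⟩
  · rw [Data.cc, hY, e1, e2, YP, cP, hz]
    generalize ST (η ^ 2) η (m1 * (1 - x) * θ ^ 2) = S at *
    generalize SB (m1 * (1 - x)) = B at *
    push_cast
    field_simp
    ring
  · rw [Data.QQ, hY, QP]
    rfl

end BaseClosed

open BaseClosed in
theorem base_closed (h : StmtXi) : StmtClosed := by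
  intro η m1 th M2 h0 h1 h2 h3
  have hN : Num η := (h (η ^ 2) η (by positivity) (by linarith [sq_le h0 h1]) h0.le
    (by linarith)).1
  have qT := quadT hN h0 h1 h2 h3 th M2
  have qB := quadB h0 h1 h2 h3 th M2
  refine ⟨qT.ok, qB.ok, fun ξ => ?_, fun ξ => ?_, fun m hm => ST_sq hN h0 h1 hm,
    fun m hm => SB_sq hm, fun ξ hξ => ?_, fun ξ hξ => ?_, fun c ξ hξ => ?_, fun c ξ hξ => ?_,
    fun c ξ hξ => ?_, fun c ξ hξ => ?_, fun x θ hx hθ => plane hN h0 h1 h2 h3 th M2 hx hθ,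
    fun m θ hm hθ => cP_le hN h0 h1 hm hθ, cP_hol hN h0 h1⟩
  · rw [qT.sg_eq, ST_eq]
  · rw [qB.sg_eq, SB_eq]
  · rw [qT.ZZ_eq hξ, ST_eq]; push_cast; rfl
  · rw [qB.ZZ_eq hξ, SB_eq]; simp
  · rw [qT.ze_eq c hξ, ST_eq]; push_cast; rfl
  · rw [qB.ze_eq c hξ, SB_eq]; push_cast; ring
  · rw [qT.ze1_eq c hξ, ST_eq]; push_cast; rfl
  · rw [qB.ze1_eq c hξ, SB_eq]; push_cast; ring

end

end Pool.Agent.Lib.MP_87c84d_gt
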