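import Pool.Agent.Lib.MP_87c84d_gt.BaseDefs

/-!
Contraction, gauge and slope estimates for the base body.
-/

namespace Pool.Agent.Lib.MP_87c84d_gt

open MeasureTheory Set Metric Filter Topology Base

noncomputable section

namespace BaseCon

lemma near_mul {a b : ℂ} {α β : ℝ} (ha : ‖a - 1‖ ≤ α) (hb : ‖b - 1‖ ≤ β) :
    ‖a * b - 1‖ ≤ α + β + α * β := by
  have e : a * b - 1 = (a - 1) + (b - 1) + (a - 1) * (b - 1) := by ring
  have h1 : ‖(a - 1) * (b - 1)‖ ≤ α * β := by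
    rw [norm_mul]
    exact mul_le_mul ha hb (norm_nonneg _) ((norm_nonneg _).trans ha)
  rw [e]
  linarith [norm_add_le ((a - 1) + (b - 1)) ((a - 1) * (b - 1)), norm_add_le (a - 1) (b - 1)]

lemma near_ne {a : ℂ} {α : ℝ} (ha : ‖a - 1‖ ≤ α) (h : α ≤ 1 / 2) : a ≠ 0 := by
  intro h0
  have := norm_ge_of_norm_sub_one ha
  rw [h0, norm_zero] at this
  linarith

lemma near_inv {a : ℂ} {α : ℝ} (ha : ‖a - 1‖ ≤ α) (h : α ≤ 1 / 2) : ‖a⁻¹ - 1‖ ≤ 2 * α := by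
  have h0 := near_ne ha h
  have h1 := norm_ge_of_norm_sub_one ha
  have e : a⁻¹ - 1 = -((a - 1) / a) := by field_simp; ring
  have hα : 0 ≤ α := (norm_nonneg _).trans ha
  rw [e, norm_neg, norm_div, div_le_iff₀ (by linarith)]
  nlinarith

lemma mul_le {a b : ℂ} {α β : ℝ} (ha : ‖a‖ ≤ α) (hb : ‖b‖ ≤ β) : ‖a * b‖ ≤ α * β := by
  rw [norm_mul]
  exact mul_le_mul ha hb (norm_nonneg _) ((norm_nonneg _).trans ha)

lemma add_le {a b : ℂ} {α β : ℝ} (ha : ‖a‖ ≤ α) (hb : ‖b‖ ≤ β) : ‖a + b‖ ≤ α + β :=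
  (norm_add_le _ _).trans (add_le_add ha hb)

lemma sub_le {a b : ℂ} {α β : ℝ} (ha : ‖a‖ ≤ α) (hb : ‖b‖ ≤ β) : ‖a - b‖ ≤ α + β :=
  (norm_sub_le _ _).trans (add_le_add ha hb)

lemma le_exp {w p : ℂ} {t a b : ℝ} (ht : 0 ≤ t) (ht' : t ≤ 1 / 10 ^ 10) (hp : ‖p‖ ≤ 30 * t)
    (hw : ‖w - 1 - p‖ ≤ a * t) (ha : a ≤ 1) (hb : a + 1 / 10 ^ 6 ≤ b) :
    ‖w‖ ≤ Real.exp (p.re + b * t) := by
  set z := w - 1 with hz
  have hw' : w = 1 + z := by rw [hz]; ring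
  have h1 : ‖z‖ ≤ 31 * t := by
    have := add_le hw hp
    rw [sub_add_cancel] at this
    nlinarith
  have h2 : z.re ≤ p.re + a * t := by
    have := (Complex.re_le_norm (z - p)).trans hw
    rw [Complex.sub_re] at this
    linarith
  have h3 : ‖w‖ ^ 2 = 1 + 2 * z.re + ‖z‖ ^ 2 := by
    rw [hw', Complex.sq_norm, Complex.sq_norm, Complex.normSq_apply, Complex.normSq_apply]
    simp only [Complex.add_re, Complex.add_im, Complex.one_re, Complex.one_im]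
    ring
  have h4 : ‖z‖ ^ 2 ≤ (31 * t) ^ 2 := pow_le_pow_left₀ (norm_nonneg _) h1 2
  have h5 : ‖w‖ ^ 2 ≤ Real.exp (p.re + b * t) ^ 2 := by
    rw [← Real.exp_nat_mul, h3]
    have := Real.add_one_le_exp (((2 : ℕ) : ℝ) * (p.re + b * t))
    push_cast at this ⊢
    nlinarith
  exact (pow_le_pow_iff_left₀ (norm_nonneg _) (Real.exp_pos _).le two_ne_zero).mp h5

/-- The third factor. -/
lemma z3_est {ε m t : ℝ} {μ θ Y : ℂ} (hε : 0 < ε) (hε' : ε ≤ 1 / 10 ^ 30) (hm : 0 < m)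
    (hm' : m ≤ 2 / 10 ^ 15) (ht : ε * m = 21 * t) (hμ : ‖μ‖ ≤ m) (hθ : ‖θ - 1‖ ≤ t)
    (hY : ‖Y - 1‖ ≤ 12 * ε) :
    ‖(1 - μ / Y ^ 2 * (θ * Y * ((1 + ε) * θ * Y - 1) / (1 + (1 + ε) * (μ * θ ^ 2)))) /
      (1 - μ / Y ^ 2 * (Y * (Y - 1) / (1 + μ))) - 1 - -(ε * μ)‖ ≤ 1 / 1000 * t := by
  have ht0 : 0 < t := by nlinarith [mul_pos hε hm]
  have ht1 : t ≤ ε / 10 ^ 15 := by nlinarith
  have hεc : ‖(ε : ℂ)‖ ≤ ε := by rw [Complex.norm_real, Real.norm_of_nonneg hε.le]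
  have hγ : ‖(1 + (ε : ℂ)) - 1‖ ≤ 1 / 10 ^ 14 := by
    rw [add_sub_cancel_left]; linarith
  have hθ' : ‖θ - 1‖ ≤ 1 / 10 ^ 14 := by linarith
  have hY' : ‖Y - 1‖ ≤ 1 / 10 ^ 14 := by linarith
  have hμ' : ‖μ‖ ≤ 1 / 10 ^ 14 := by linarith
  have hγn : ‖1 + (ε : ℂ)‖ ≤ 2 := by linarith [norm_le_of_norm_sub_one hγ]
  have hθn : ‖θ‖ ≤ 2 := by linarith [norm_le_of_norm_sub_one hθ']
  have hYn : ‖Y‖ ≤ 2 := by linarith [norm_le_of_norm_sub_one hY']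
  set D1 : ℂ := 1 + (1 + ε) * (μ * θ ^ 2) with hD1
  set D2 : ℂ := 1 + μ with hD2
  have h1 : ‖D1 - 1‖ ≤ 1 / 10 ^ 13 := by
    rw [hD1, add_sub_cancel_left, sq]
    linarith [mul_le hγn (mul_le hμ' (mul_le hθn hθn))]
  have h2 : ‖D2 - 1‖ ≤ 1 / 10 ^ 14 := by
    rw [hD2, add_sub_cancel_left]; exact hμ'
  have hY0 := near_ne hY' (by norm_num)
  have h10 := near_ne h1 (by norm_num)
  have h20 := near_ne h2 (by norm_num)
  have hYi := near_inv hY' (by norm_num)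
  have h1i := near_inv h1 (by norm_num)
  have h2i := near_inv h2 (by norm_num)
  have e1 : ‖θ * (Y⁻¹ * D1⁻¹) - 1‖ ≤ 1 / 10 ^ 12 := by
    linarith [near_mul hθ' (near_mul hYi h1i)]
  have e2 : ‖Y⁻¹ * D2⁻¹ - 1‖ ≤ 1 / 10 ^ 12 := by
    linarith [near_mul hYi h2i]
  have g1 : ‖ε * (Y - 1) + (θ - 1) * ((1 + ε) * Y)‖ ≤ ε / 10 ^ 12 := by
    have := add_le (mul_le hεc hY') (mul_le hθ (mul_le hγn hYn))
    linarith
  have hG : ‖(1 + ε) * θ * Y - 1‖ ≤ 14 * ε := by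
    have e : (1 + ε) * θ * Y - 1 = ε + (Y - 1) + (ε * (Y - 1) + (θ - 1) * ((1 + ε) * Y)) := by ring
    rw [e]
    linarith [add_le (add_le hεc hY) g1]
  set B : ℂ := μ / Y ^ 2 * (Y * (Y - 1) / D2) with hB
  have hBn : ‖B‖ ≤ 1 / 10 ^ 14 := by
    have e : B = μ * ((Y - 1) * (Y⁻¹ * D2⁻¹)) := by rw [hB]; field_simp
    rw [e]
    have := mul_le hμ' (mul_le hY' (norm_le_of_norm_sub_one e2))
    linarith
  have hB1 : ‖(1 - B) - 1‖ ≤ 1 / 10 ^ 14 := by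
    rw [sub_sub_cancel_left, norm_neg]; exact hBn
  have hB0 := near_ne hB1 (by norm_num)
  have hBi := norm_le_of_norm_sub_one (near_inv hB1 (by norm_num))
  set N : ℂ := ((1 + ε) * θ * Y - 1) * (θ * (Y⁻¹ * D1⁻¹) - 1) - (Y - 1) * (Y⁻¹ * D2⁻¹ - 1) +
    (ε * (Y - 1) + (θ - 1) * ((1 + ε) * Y)) + ε * B with hN
  have hNn : ‖N‖ ≤ ε / 10 ^ 10 := by
    have := add_le (add_le (sub_le (mul_le hG e1) (mul_le hY e2)) g1) (mul_le hεc hBn)
    linarith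
  have e : (1 - μ / Y ^ 2 * (θ * Y * ((1 + ε) * θ * Y - 1) / D1)) / (1 - B) - 1 - -(ε * μ) =
      -(μ * N * (1 - B)⁻¹) := by
    have eB : B = μ * ((Y - 1) * (Y⁻¹ * D2⁻¹)) := by rw [hB]; field_simp
    have eA : μ / Y ^ 2 * (θ * Y * ((1 + ε) * θ * Y - 1) / D1) =
        μ * (((1 + ε) * θ * Y - 1) * (θ * (Y⁻¹ * D1⁻¹))) := by field_simp
    rw [eA, hN, div_eq_mul_inv]
    have hi : (1 - B) * (1 - B)⁻¹ = 1 := mul_inv_cancel₀ hB0
    generalize (1 - B)⁻¹ = I at hi ⊢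
    generalize Y⁻¹ * D1⁻¹ = J at *
    generalize Y⁻¹ * D2⁻¹ = L at *
    linear_combination (1 - ε * μ) * hi + I * eB
  rw [e, norm_neg]
  have := mul_le (mul_le hμ hNn) hBi
  nlinarith

/-- The fourth factor. -/
lemma z4_est {t : ℝ} {μ θ Y : ℂ} (ht0 : 0 ≤ t) (ht : t ≤ 1 / 10 ^ 14) (hμ : ‖μ‖ ≤ 1 / 10 ^ 14)
    (hθ : ‖θ - 1‖ ≤ t) (hY : ‖Y - 1‖ ≤ 1 / 10 ^ 14) :
    ‖(1 + μ / Y ^ 2 * Y) / (1 + μ / Y ^ 2 * (θ * Y)) - 1 - 0‖ ≤ 1 / 1000 * t := by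
  have hY0 := near_ne hY (by norm_num)
  have hYi := norm_le_of_norm_sub_one (near_inv hY (by norm_num))
  have hθn : ‖θ‖ ≤ 2 := by linarith [norm_le_of_norm_sub_one hθ]
  have e1 : μ / Y ^ 2 * Y = μ * Y⁻¹ := by field_simp
  have e2 : μ / Y ^ 2 * (θ * Y) = μ * Y⁻¹ * θ := by field_simp
  have hq : ‖μ * Y⁻¹‖ ≤ 1 / 10 ^ 13 := by linarith [mul_le hμ hYi]
  rw [e1, e2]
  generalize μ * Y⁻¹ = q at *
  have h1 : ‖1 + q * θ - 1‖ ≤ 1 / 10 ^ 12 := by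
    rw [add_sub_cancel_left]
    linarith [mul_le hq hθn]
  have h0 := near_ne h1 (by norm_num)
  have hi := norm_le_of_norm_sub_one (near_inv h1 (by norm_num))
  have e : (1 + q) / (1 + q * θ) - 1 - 0 = -(q * (θ - 1) * (1 + q * θ)⁻¹) := by
    field_simp; ring
  rw [e, norm_neg]
  have := mul_le (mul_le hq hθ) hi
  nlinarith

/-- The product of the four factors. -/
lemma prod_est {t : ℝ} {x ψ w3 w4 : ℂ} (ht0 : 0 < t) (ht : t ≤ 1 / 10 ^ 10) (hx : ‖x‖ ≤ 2)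
    (hx1 : ‖1 - x‖ ≤ 1) (hψ : ‖ψ - 1‖ ≤ 1 / 10 ^ 6)
    (h3 : ‖w3 - 1 - -(21 * t * (1 - x))‖ ≤ 1 / 1000 * t) (h4 : ‖w4 - 1 - 0‖ ≤ 1 / 1000 * t) :
    ‖1 + t * (1 - x) * ψ‖ ^ 19 * ‖1 - t * x * ψ‖ ^ 2 * ‖w3‖ * ‖w4‖ ^ 2 ≤ (1 - t / 2) ^ 2 := by
  have htc : ‖(t : ℂ)‖ ≤ t := by rw [Complex.norm_real, Real.norm_of_nonneg ht0.le]
  have p1 : ‖(t : ℂ) * (1 - x)‖ ≤ t * 1 := mul_le htc hx1
  have p2 : ‖(t : ℂ) * x‖ ≤ t * 2 := mul_le htc hx
  have a1 : ‖1 + t * (1 - x) * ψ‖ ≤ Real.exp (((t : ℂ) * (1 - x)).re + 1 / 1000 * t) := by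
    refine le_exp (a := 1 / 10 ^ 5) ht0.le ht (by linarith) ?_ (by norm_num) (by norm_num)
    have e : 1 + t * (1 - x) * ψ - 1 - t * (1 - x) = t * (1 - x) * (ψ - 1) := by ring
    rw [e]
    linarith [mul_le p1 hψ]
  have a2 : ‖1 - t * x * ψ‖ ≤ Real.exp ((-((t : ℂ) * x)).re + 1 / 1000 * t) := by
    refine le_exp (a := 1 / 10 ^ 5) ht0.le ht (by rw [norm_neg]; linarith) ?_ (by norm_num)
      (by norm_num)
    have e : 1 - t * x * ψ - 1 - -(t * x) = -(t * x * (ψ - 1)) := by ring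
    rw [e, norm_neg]
    linarith [mul_le p2 hψ]
  have a3 : ‖w3‖ ≤ Real.exp ((-(21 * (t : ℂ) * (1 - x))).re + 2 / 1000 * t) := by
    refine le_exp (a := 1 / 1000) ht0.le ht ?_ h3 (by norm_num) (by norm_num)
    rw [norm_neg, mul_assoc, norm_mul]
    simp only [Complex.norm_ofNat]
    linarith
  have a4 : ‖w4‖ ≤ Real.exp ((0 : ℂ).re + 2 / 1000 * t) :=
    le_exp (a := 1 / 1000) ht0.le ht (by rw [norm_zero]; positivity) h4 (by norm_num) (by norm_num)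
  have r1 : ((t : ℂ) * (1 - x)).re = t * (1 - x.re) := by simp
  have r2 : (-((t : ℂ) * x)).re = -(t * x.re) := by simp
  have r3 : (-(21 * (t : ℂ) * (1 - x))).re = -(21 * t * (1 - x.re)) := by simp
  rw [r1] at a1
  rw [r2] at a2
  rw [r3] at a3
  rw [Complex.zero_re] at a4
  calc _ ≤ Real.exp (t * (1 - x.re) + 1 / 1000 * t) ^ 19 *
        Real.exp (-(t * x.re) + 1 / 1000 * t) ^ 2 *
        Real.exp (-(21 * t * (1 - x.re)) + 2 / 1000 * t) * Real.exp (0 + 2 / 1000 * t) ^ 2 := by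
        gcongr
    _ = Real.exp (-(1973 / 1000 * t)) := by
        simp only [← Real.exp_nat_mul, ← Real.exp_add]
        congr 1
        push_cast
        ring
    _ ≤ (1 - t / 2) ^ 2 := by
        rw [Real.exp_neg, inv_le_iff_one_le_mul₀ (Real.exp_pos _)]
        have := Real.add_one_le_exp (1973 / 1000 * t)
        have h1 : 1 - t ≤ (1 - t / 2) ^ 2 := by nlinarith
        have h2 : (1 - t) * (1973 / 1000 * t + 1) ≤ (1 - t / 2) ^ 2 * Real.exp (1973 / 1000 * t) :=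
          mul_le_mul h1 this (by positivity) (by positivity)
        nlinarith

lemma ka_tip (K : Cap) (c Q φ : ℂ) : K.ka c Q φ φ =
    Complex.sqrt (1 + Q / K.m * (2 * K.ze c φ * K.ze1 c φ)) / (1 + Q * K.ze c φ) := by
  simp [Cap.ka, Cap.ga]

lemma norm_sq_shape {x w θ2 gT gB dT dB : ℂ} (hx : x ≠ 0) :
    ‖(x * w / x) ^ 8 * (x * w * Complex.sqrt (x * w) / (x * Complex.sqrt x)) * θ2 *
      (Complex.sqrt gT / dT) / (Complex.sqrt gB / dB)‖ ^ 2 =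
      ‖w‖ ^ 19 * ‖θ2‖ ^ 2 * ‖gT / gB‖ * ‖dB / dT‖ ^ 2 := by
  have hx0 : 0 < ‖x‖ := norm_pos_iff.mpr hx
  simp only [norm_div, norm_mul, norm_pow, norm_sqrt, div_pow, mul_pow]
  rw [Real.sq_sqrt (by positivity), Real.sq_sqrt (by positivity), Real.sq_sqrt (by positivity),
    Real.sq_sqrt (by positivity)]
  by_cases h1 : ‖gB‖ = 0
  · simp [h1]
  by_cases h2 : ‖dT‖ = 0
  · simp [h2]
  by_cases h3 : ‖dB‖ = 0
  · simp [h3]
  field_simp

lemma sub_one_le {θ : ℂ} (h : ‖θ - 1‖ ≤ 1 / 100) : 3 / 2 * ‖θ - 1‖ ≤ ‖1 - θ ^ 2‖ := by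
  have e : 1 - θ ^ 2 = -((θ - 1) * (θ + 1)) := by ring
  have h1 : 3 / 2 ≤ ‖θ + 1‖ := by
    have := (Complex.re_le_norm (θ + 1))
    simp only [Complex.add_re, Complex.one_re] at this
    linarith [re_ge_of_norm_sub_one h]
  rw [e, norm_neg, norm_mul, mul_comm]
  gcongr

/-- Numerical consequences of smallness. -/
lemma small_facts {η K r0 : ℝ} (hS : Small η K r0) :
    η ≤ 1 / 10 ^ 15 ∧ K * η ≤ 1 / 10 ^ 15 ∧ η ≤ r0 / 10 ^ 12 := by
  have h1 := hS.small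
  have h2 := hS.r0_le
  have h3 : η ≤ K * η := by nlinarith [hS.K_ge, hS.η_pos]
  refine ⟨by linarith, by linarith, by linarith⟩

end BaseCon

open BaseCon in
theorem base_con (h0 : StmtXi) (h2 : StmtClosed) : StmtCon := by
  intro η K r0 m th ψ M2 hS hC
  obtain ⟨s1, s2, s3⟩ := small_facts hS
  have hη := hS.η_pos
  have hK := hS.K_ge
  have hr0 := hS.r0_pos
  have hm : 0 < m := by linarith [hC.m_ge]
  have hm' : m ≤ 2 / 10 ^ 15 := by linarith [hC.m_le]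
  have hmr : 2 * m < r0 := by linarith [hC.m_le]
  have hε : 0 < η ^ 2 := by positivity
  have hε' : η ^ 2 ≤ 1 / 10 ^ 30 := by nlinarith
  have hKε : K * η ^ 2 ≤ 1 / 10 ^ 30 := by nlinarith
  have hεK : η ^ 2 ≤ K * η ^ 2 := by nlinarith
  have hN : Num η := (h0 (η ^ 2) η hε (by linarith) hη.le (by linarith)).1
  have hcl := h2 η m th M2 hη (by linarith) hm hC.m_le
  have hmc : ‖(m : ℂ)‖ = m := by rw [Complex.norm_real, Real.norm_of_nonneg hm.le]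
  have hm0 : (m : ℂ) ≠ 0 := by exact_mod_cast hm.ne'
  have hεc : ‖(η : ℂ) ^ 2‖ = η ^ 2 := by
    rw [norm_pow, Complex.norm_real, Real.norm_of_nonneg hη.le]
  have hγ : ‖1 + (η : ℂ) ^ 2 - 1‖ ≤ 1 / 10 ^ 30 := by rw [add_sub_cancel_left, hεc]; exact hε'
  have hγ0 : 1 + (η : ℂ) ^ 2 ≠ 0 := near_ne hγ (by norm_num)
  set t : ℝ := η ^ 2 * m / 21 with ht
  have ht0 : 0 < t := by positivity
  have ht1 : t ≤ η ^ 2 / 10 ^ 15 := by rw [ht]; nlinarith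
  have hRad : (1000 : ℝ) ≤ 1 / (1000 * m) := by
    rw [le_div_iff₀ (by positivity)]; linarith
  -- facts on the disc of radius two
  have hμ2 : ∀ w : ℂ, ‖1 - w‖ ≤ 3 / 2 → ‖(m : ℂ) * (1 - w)‖ ≤ 3 / 2 * m := fun w hw => by
    rw [norm_mul, hmc]; nlinarith
  have hball : ∀ w : ℂ, ‖1 - w‖ ≤ 3 / 2 → (m : ℂ) * (1 - w) ∈ ball (0 : ℂ) r0 := fun w hw => by
    rw [mem_ball_zero_iff]; linarith [hμ2 w hw]
  have hθ2 : ∀ w : ℂ, ‖1 - w‖ ≤ 3 / 2 → ‖th (m * (1 - w)) - 1‖ ≤ 1 / 10 ^ 30 := fun w hw =>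
    (hC.th_le _ (hball w hw)).trans hKε
  have hY2 : ∀ μ θ : ℂ, ‖μ‖ ≤ 1 / 200 → ‖θ - 1‖ ≤ 1 / 100 →
      ‖YP (η ^ 2) η μ θ - 1‖ ≤ (‖θ - 1‖ + 10 * η ^ 2) * (1 + 1 / 100) := fun μ θ hμ hθ => by
    rw [YP, add_sub_cancel_left]
    exact mul_le (hcl.cP_le μ θ hμ hθ)
      (by linarith [norm_le_of_norm_sub_one (hcl.SB_sq μ (by linarith)).2])
  -- facts on the triangle
  have hU : ∀ x ∈ U (1 / 4), ‖x‖ < 13 / 10 ∧ ‖1 - x‖ ≤ 1 ∧ ‖ψ x - 1‖ ≤ 1 / 10 ^ 15 ∧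
      1 - th (m * (1 - x)) ^ 2 = t * x * ψ x ∧ ‖th (m * (1 - x)) - 1‖ ≤ t := by
    intro x hx
    have a1 := U.norm_lt (by norm_num) le_rfl hx
    have a2 := U.norm_one_sub_le (by norm_num) le_rfl hx
    have a3 : x ∈ ball (0 : ℂ) 3 := by rw [mem_ball_zero_iff]; linarith
    have a4 := (hC.ψ_le x a3).trans s2
    have a5 := hC.ψ_eq x a3
    refine ⟨a1, a2, a4, a5, ?_⟩
    have a6 := sub_one_le ((hθ2 x (by linarith)).trans (by norm_num))
    have a7 : ‖(t : ℂ) * x * ψ x‖ ≤ t * (13 / 10) * (1 + 1 / 10 ^ 15) :=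
      mul_le (mul_le (by rw [Complex.norm_real, Real.norm_of_nonneg ht0.le]) a1.le)
        (norm_le_of_norm_sub_one a4)
    rw [a5] at a6
    linarith
  have hz0 : ‖((z0R (η ^ 2) η : ℝ) : ℂ)‖ ≤ 5 * η ^ 2 := by
    have hu0 : 0 ≤ uR η := by linarith [hN.u1]
    rw [Complex.norm_real, z0R, Real.norm_of_nonneg (by positivity), div_le_iff₀ (by positivity)]
    nlinarith [hN.u2, mul_pos hε hε]
  have hz0e : ((z0R (η ^ 2) η : ℝ) : ℂ) = η ^ 2 * uC η / (2 * (1 + η ^ 2)) := by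
    rw [z0R, uC_ofReal]; push_cast; ring
  have hR2 : 99 / 100 ≤ R2R (η ^ 2) η := by
    have ha2 := hN.a2
    have ha1 := hN.a1
    have hk : 1 - 10 * η ^ 2 ≤ kR (η ^ 2) η := by
      have b1 : 0 ≤ hR η * aR ^ 2 := mul_nonneg (by linarith [hN.h1]) (sq_nonneg _)
      have b2 : uR η * aR ≤ 10 := by nlinarith [hN.u2, hN.u1]
      rw [kR]; nlinarith
    have b3 : kR (η ^ 2) η ≤ kR (η ^ 2) η * (1 + η ^ 2) := by nlinarith
    have b4 : 0 ≤ (η ^ 2 * uR η) ^ 2 / 4 := by positivity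
    rw [R2R]; linarith
  have hR2c : ‖((R2R (η ^ 2) η : ℝ) : ℂ)‖ = R2R (η ^ 2) η := by
    rw [Complex.norm_real, Real.norm_of_nonneg (by linarith)]
  have hR20 : ((R2R (η ^ 2) η : ℝ) : ℂ) ≠ 0 := by
    have : R2R (η ^ 2) η ≠ 0 := by linarith
    exact_mod_cast this
  refine ⟨fun x hx ξ hξ => ?_, fun x hx => ?_, fun x hx => ?_⟩
  · obtain ⟨a1, a2, a4, a5, a6⟩ := hU x hx
    have hth : (mk η m th M2).th0 x = th (m * (1 - x)) := rfl
    have hpl := (hcl.plane x (th (m * (1 - x))) (by linarith) (by linarith)).2.1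
    have hc := hcl.cP_le (m * (1 - x)) (th (m * (1 - x))) (by linarith [hμ2 x (by linarith)])
      (by linarith)
    have hξ' : ‖(m : ℂ) * (1 - ξ)‖ ≤ 2 / 1000 := by
      rw [mem_ball_zero_iff, lt_div_iff₀ (by positivity)] at hξ
      have b1 : ‖1 - ξ‖ ≤ 1 + ‖ξ‖ := by simpa using norm_sub_le 1 ξ
      rw [norm_mul, hmc]
      nlinarith
    have hS' := norm_ge_of_norm_sub_one (hcl.ST_sq _ (hξ'.trans (by norm_num))).2
    have hB' := norm_ge_of_norm_sub_one (hcl.SB_sq _ (hξ'.trans (by norm_num))).2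
    rw [hth, hpl, hcl.ze1T _ ξ hξ, hcl.ze1B _ ξ hξ]
    generalize cP (η ^ 2) η (m * (1 - x)) (th (m * (1 - x))) = c at hc ⊢
    have hc' : ‖c‖ ≤ 11 * η ^ 2 := by linarith
    have hb : m * η ^ 2 ≤ K * η ^ 2 * m := by nlinarith
    constructor
    · have b1 := mul_le (mul_le hmc.le (sub_le hz0 hc')) (norm_le_of_norm_sub_one hγ)
      have b2 : 1 ≤ ‖2 * ((R2R (η ^ 2) η : ℝ) : ℂ) * ST (η ^ 2) η (m * (1 - ξ))‖ := by
        rw [norm_mul, norm_mul, hR2c]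
        simp only [Complex.norm_ofNat]
        have : 99 / 100 ≤ ‖ST (η ^ 2) η (m * (1 - ξ))‖ := by linarith
        nlinarith
      rw [norm_neg, norm_div, div_le_iff₀ (by linarith)]
      have b3 : 0 ≤ K * η ^ 2 * m := by positivity
      have b4 : 0 ≤ m * η ^ 2 := by positivity
      nlinarith
    · have b1 := mul_le hmc.le (show ‖-c‖ ≤ 11 * η ^ 2 by rwa [norm_neg])
      have b2 : 1 ≤ ‖2 * SB (m * (1 - ξ))‖ := by
        rw [norm_mul]
        simp only [Complex.norm_ofNat]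
        linarith
      rw [norm_div, div_le_iff₀ (by linarith)]
      have b3 : 0 ≤ K * η ^ 2 * m := by positivity
      have b4 : 0 ≤ m * η ^ 2 := by positivity
      nlinarith
  · obtain ⟨a1, a2, a4, a5, a6⟩ := hU x hx
    have hx0 := U.ne_zero hx
    have hth : (mk η m th M2).th0 x = th (m * (1 - x)) := rfl
    have hDt : (mk η m th M2).t = t := rfl
    have hmT : ((mk η m th M2).capT 0).m = m := rfl
    have hmB : ((mk η m th M2).capB 0).m = m := rfl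
    obtain ⟨-, hplc, hplQ⟩ := hcl.plane x (th (m * (1 - x))) (by linarith) (by linarith)
    have hμ : ‖(m : ℂ) * (1 - x)‖ ≤ m := by rw [norm_mul, hmc]; nlinarith
    have hεμ : ((η ^ 2 : ℝ) : ℂ) * (m * (1 - x)) = 21 * t * (1 - x) := by
      rw [ht]; push_cast; ring
    rw [hth, hDt]
    generalize th (m * (1 - x)) = θ at *
    have hφ : ph x θ = x * (1 + t * (1 - x) * ψ x) := by
      rw [ph]; linear_combination (1 - x) * a5
    have hθsq : θ ^ 2 = 1 - t * x * ψ x := by linear_combination -a5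
    have hmφ : (m : ℂ) * (1 - ph x θ) = m * (1 - x) * θ ^ 2 := by rw [ph]; ring
    have hθn : ‖θ‖ ≤ 2 := by linarith [norm_le_of_norm_sub_one a6]
    have hφn : ‖ph x θ‖ ≤ 5 := by
      have := sub_le (norm_one (α := ℂ)).le (mul_le a2 (mul_le hθn hθn))
      rw [ph, sq]; linarith
    have hφb : ph x θ ∈ ball (0 : ℂ) (1 / (1000 * m)) := by rw [mem_ball_zero_iff]; linarith
    have hxb : x ∈ ball (0 : ℂ) (1 / (1000 * m)) := by rw [mem_ball_zero_iff]; linarith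
    have hY := hY2 (m * (1 - x)) θ (by linarith) (by linarith)
    generalize hμe : (m : ℂ) * (1 - x) = μ at *
    have hμθ : ‖μ * θ ^ 2‖ ≤ 1 / 10 ^ 14 := by
      have := mul_le hμ (mul_le hθn hθn)
      rw [sq]; linarith
    obtain ⟨hS1, hS2⟩ := hcl.ST_sq (μ * θ ^ 2) (by linarith)
    obtain ⟨hB1, hB2⟩ := hcl.SB_sq μ (by linarith)
    have hS0 := near_ne hS2 (by linarith)
    have hB0 := near_ne hB2 (by linarith)
    have hSB : ST (η ^ 2) η (μ * θ ^ 2) + θ * SB μ ≠ 0 := by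
      intro h
      have b1 := re_ge_of_norm_sub_one hS2
      have b2 := re_ge_of_norm_sub_one (near_mul (a6.trans (show t ≤ 1 / 10 by linarith))
        (hB2.trans (show 2 * ‖μ‖ ≤ 1 / 10 by linarith)))
      have b3 := congrArg Complex.re h
      rw [Complex.add_re, Complex.zero_re] at b3
      linarith
    have hc : cP (η ^ 2) η μ θ * (ST (η ^ 2) η (μ * θ ^ 2) + θ * SB μ) =
        (1 - θ) + η ^ 2 * (-1 + uC η * ST (η ^ 2) η (μ * θ ^ 2) / 2) / (1 + η ^ 2) := by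
      rw [cP, div_mul_cancel₀ _ hSB]
    have hYe : YP (η ^ 2) η μ θ = 1 + cP (η ^ 2) η μ θ * SB μ := rfl
    have hQe : QP (η ^ 2) η μ θ = μ / YP (η ^ 2) η μ θ ^ 2 := rfl
    have zT := hcl.zeT (cP (η ^ 2) η μ θ) _ hφb
    have zB := hcl.zeB (-cP (η ^ 2) η μ θ) _ hxb
    have z1T := hcl.ze1T (cP (η ^ 2) η μ θ) _ hφb
    have z1B := hcl.ze1B (-cP (η ^ 2) η μ θ) _ hxb
    rw [hmφ] at zT z1T
    rw [hμe] at zB z1B
    rw [Data.XiG, ka_tip, ka_tip, hplc, hplQ, hmT, hmB, zT, zB, z1T, z1B, hQe]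
    generalize YP (η ^ 2) η μ θ = Y at *
    generalize cP (η ^ 2) η μ θ = c at *
    generalize ST (η ^ 2) η (μ * θ ^ 2) = S at *
    generalize SB μ = B at *
    have hY' : ‖Y - 1‖ ≤ 12 * η ^ 2 := by linarith
    have hY0 := near_ne hY' (by linarith)
    have eT : 1 / (1 + (η : ℂ) ^ 2) + (((z0R (η ^ 2) η : ℝ) : ℂ) - c) * S = θ * Y := by
      have hi : (1 + (η : ℂ) ^ 2) * (1 + (η : ℂ) ^ 2)⁻¹ = 1 := mul_inv_cancel₀ hγ0
      rw [hz0e, hYe]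
      simp only [div_eq_mul_inv, mul_inv] at hc ⊢
      generalize (1 + (η : ℂ) ^ 2)⁻¹ = I at *
      linear_combination -hc + hi
    have eB : 1 - -c * B = Y := by rw [hYe]; ring
    have gT : 1 + μ / Y ^ 2 / m * (2 * (θ * Y) * -(m * (((z0R (η ^ 2) η : ℝ) : ℂ) - c) *
        (1 + (η : ℂ) ^ 2) / (2 * ((R2R (η ^ 2) η : ℝ) : ℂ) * S))) =
        1 - μ / Y ^ 2 * (θ * Y * ((1 + ((η ^ 2 : ℝ) : ℂ)) * θ * Y - 1) /
          (1 + (1 + ((η ^ 2 : ℝ) : ℂ)) * (μ * θ ^ 2))) := by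
      push_cast
      have e1 : (1 + (η : ℂ) ^ 2) * θ * Y - 1 =
          (((z0R (η ^ 2) η : ℝ) : ℂ) - c) * S * (1 + (η : ℂ) ^ 2) := by
        rw [mul_assoc, ← eT]; field_simp; ring
      rw [← hS1, e1]
      field_simp
      ring
    have gB : 1 + μ / Y ^ 2 / m * (2 * Y * (m * -c / (2 * B))) =
        1 - μ / Y ^ 2 * (Y * (Y - 1) / (1 + μ)) := by
      have e1 : Y - 1 = c * B := by rw [hYe]; ring
      rw [← hB1, e1]
      field_simp
      ring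
    rw [eT, eB, gT, gB, hφ]
    have h3 := z3_est (t := t) hε hε' hm hm' (by rw [ht]; ring) hμ a6 hY'
    rw [hεμ] at h3
    have h4 := z4_est ht0.le (by linarith) (hμ.trans (by linarith)) a6 (hY'.trans (by linarith))
    have h5 := prod_est ht0 (by linarith) (a1.le.trans (by norm_num)) a2
      (a4.trans (by norm_num)) h3 h4
    rw [← hθsq, ← norm_sq_shape hx0] at h5
    exact (pow_le_pow_iff_left₀ (norm_nonneg _) (by linarith) two_ne_zero).mp h5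
  · obtain ⟨a1, a2, -, -, -⟩ := hU x hx
    have hw : ∀ w ∈ ball x (1 / 2), ‖1 - w‖ ≤ 3 / 2 ∧ ‖w‖ ≤ 2 := fun w hw => by
      rw [mem_ball, dist_eq_norm] at hw
      have b1 := sub_le a2 hw.le
      have b2 := add_le a1.le hw.le
      rw [show 1 - x - (w - x) = 1 - w by ring] at b1
      rw [show x + (w - x) = w by ring] at b2
      constructor <;> linarith
    have hmh : DifferentiableOn ℂ (fun w : ℂ => (m : ℂ) * (1 - w)) (ball x (1 / 2)) := by fun_prop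
    have hθh : DifferentiableOn ℂ (fun w : ℂ => th (m * (1 - w))) (ball x (1 / 2)) :=
      hC.th_hol.comp hmh fun w h => hball w (hw w h).1
    have hQh := (hcl.cP_hol _ _ _ hmh hθh fun w h =>
      ⟨by linarith [hμ2 w (hw w h).1], by linarith [hθ2 w (hw w h).1]⟩).2.2
    set g : ℂ → ℂ := fun w => QP (η ^ 2) η (m * (1 - w)) (th (m * (1 - w))) / m - (1 - w) with hg
    have hgh : DifferentiableOn ℂ g (ball x (1 / 2)) := (hQh.div_const _).sub (by fun_prop)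
    have hgb : ∀ w ∈ ball x (1 / 2), ‖g w‖ ≤ 1 / 100 := fun w h => by
      have b1 := hY2 (m * (1 - w)) (th (m * (1 - w))) (by linarith [hμ2 w (hw w h).1])
        (by linarith [hθ2 w (hw w h).1])
      have b2 : ‖YP (η ^ 2) η (m * (1 - w)) (th (m * (1 - w))) - 1‖ ≤ 1 / 10 ^ 10 := by
        linarith [hθ2 w (hw w h).1]
      have b3 := near_inv b2 (by norm_num)
      have b4 := near_ne b2 (by norm_num)
      have e : g w = (1 - w) * ((YP (η ^ 2) η (m * (1 - w)) (th (m * (1 - w))))⁻¹ *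
          (YP (η ^ 2) η (m * (1 - w)) (th (m * (1 - w))))⁻¹ - 1) := by
        simp only [hg, QP]
        field_simp
      rw [e]
      linarith [mul_le (hw w h).1 (near_mul b3 b3)]
    have hd := cauchy1 (by norm_num) hgh hgb
    have hgd := (hgh.differentiableAt (ball_mem_nhds x (by norm_num))).hasDerivAt
    have hev : (fun x => (mk η m th M2).QQ 0 x ((mk η m th M2).th0 x)) =ᶠ[𝓝 x]
        fun w => (m : ℂ) * (g w + (1 - w)) := by
      filter_upwards [ball_mem_nhds x (show (0 : ℝ) < 1 / 2 by norm_num)] with w h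
      have hth : (mk η m th M2).th0 w = th (m * (1 - w)) := rfl
      rw [hth, (hcl.plane w _ (hw w h).2 (by linarith [hθ2 w (hw w h).1])).2.2]
      simp only [hg]
      field_simp
      ring
    have hD : HasDerivAt (fun w => (m : ℂ) * (g w + (1 - w))) (m * (deriv g x + -1)) x :=
      (hgd.add ((hasDerivAt_id x).const_sub 1)).const_mul _
    rw [hev.deriv_eq, hD.deriv, norm_mul, hmc]
    have b1 : 1 / 2 ≤ ‖deriv g x + -1‖ := by
      have := norm_sub_le (deriv g x) (deriv g x + -1)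
      rw [show deriv g x - (deriv g x + -1) = 1 by ring, norm_one] at this
      linarith
    nlinarith

end

end Pool.Agent.Lib.MP_87c84d_gt
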