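import Pool.Agent.Lib.MP_87c84d_gt.BaseCore2

/-!
The analytic core of the base body.
-/

namespace Pool.Agent.Lib.MP_87c84d_gt

open MeasureTheory Set Metric Filter Topology Base

noncomputable section

namespace BaseCore

/-- Holomorphic solution of `s = ε g w s`. -/
lemma exists_rt {g : ℂ → ℂ → ℂ} {r L : ℝ} {ε : ℂ} (hr : 0 < r)
    (h1 : ∀ w ∈ ball (0 : ℂ) r, DifferentiableOn ℂ (g w) (ball 0 r))
    (h2 : ∀ z ∈ ball (0 : ℂ) r, DifferentiableOn ℂ (fun w => g w z) (ball 0 r))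
    (hb : ∀ w ∈ ball (0 : ℂ) r, ∀ z ∈ ball (0 : ℂ) r, ‖g w z‖ ≤ L)
    (hre : ∀ w ∈ ball (0 : ℂ) r, ∀ z ∈ ball (0 : ℂ) r, Rl w → Rl z → Rl (g w z))
    (hε : ‖ε‖ * L ≤ r / 8) (hεr : Rl ε) :
    ∃ s : ℂ → ℂ, DifferentiableOn ℂ s (ball 0 r) ∧ ∀ w ∈ ball (0 : ℂ) r, ‖s w‖ ≤ r / 8 ∧
      s w = ε * g w (s w) ∧ (Rl w → Rl (s w)) ∧
      ∀ z, ‖z‖ ≤ r / 2 → z = ε * g w z → s w = z := by
  have hr0 : (r : ℂ) ≠ 0 := by exact_mod_cast hr.ne'
  have hn : ‖(r : ℂ)‖ = r := by rw [Complex.norm_real, Real.norm_eq_abs, abs_of_pos hr]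
  have hm : ∀ e ∈ ball (0 : ℂ) 1, (r : ℂ) * e ∈ ball (0 : ℂ) r := fun e he => by
    rw [mem_ball_zero_iff] at *
    rw [norm_mul, hn]
    nlinarith
  set B : ℂ → ℂ → ℂ := fun w e => ε * g w (r * e) / r with hB
  have b1 : ∀ w ∈ ball (0 : ℂ) r, DifferentiableOn ℂ (B w) (ball 0 1) := fun w hw =>
    (((h1 w hw).comp (f := fun e : ℂ => (r : ℂ) * e) (by fun_prop) hm).const_mul ε).div_const _
  have b2 : ∀ w ∈ ball (0 : ℂ) r, ∀ e ∈ ball (0 : ℂ) 1, ‖B w e‖ ≤ 1 / 8 := fun w hw e he => by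
    simp only [hB]
    rw [norm_div, norm_mul, hn, div_le_iff₀ hr]
    have := mul_le_mul_of_nonneg_left (hb w hw _ (hm e he)) (norm_nonneg ε)
    linarith
  have b3 : ∀ e ∈ ball (0 : ℂ) 1, DifferentiableOn ℂ (fun w => B w e) (ball 0 r) := fun e he =>
    ((h2 _ (hm e he)).const_mul ε).div_const _
  refine ⟨fun w => r * root (B w), (root_hol isOpen_ball b1 b2 b3).const_mul _, fun w hw => ?_⟩
  obtain ⟨c1, c2⟩ := root_spec (b1 w hw) (b2 w hw)
  refine ⟨?_, ?_, fun hw' => ?_, fun z hz hz' => ?_⟩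
  · simp only
    rw [norm_mul, hn]
    nlinarith
  · simp only
    have c3 : ε * g w (r * root (B w)) / r = root (B w) := c2
    rw [div_eq_iff hr0] at c3
    rw [c3, mul_comm]
  · exact (Rl.ofReal r).mul (root_real (b1 w hw) (b2 w hw) fun e he hi =>
      (hεr.mul (hre w hw _ (hm e he) hw' ((Rl.ofReal r).mul hi))).div (Rl.ofReal r))
  · have c3 : root (B w) = z / r := by
      refine root_unique (b1 w hw) (b2 w hw) ?_ ?_
      · rw [norm_div, hn, div_le_iff₀ hr]; linarith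
      · simp only [hB]
        rw [mul_div_cancel₀ _ hr0, ← hz']
    simp only
    rw [c3, mul_div_cancel₀ _ hr0]

structure Sm (r L C η : ℝ) : Prop where
  P : Pack r L
  η_pos : 0 < η
  C1 : L ^ 2 ≤ C
  C2 : L / r ^ 2 ≤ C
  sm : C * η ≤ r / 10 ^ 16

namespace Sm

variable {r L C η : ℝ} (S : Sm r L C η)

include S

lemma LC : L ≤ C := by nlinarith [S.P.L_ge, S.C1]

lemma η_le : η ≤ r / 10 ^ 16 := by nlinarith [S.P.L_ge, S.LC, S.sm, S.η_pos]

lemma η_le' : η ≤ 1 / 10 ^ 19 := by linarith [S.η_le, S.P.r_le]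

lemma Lη : L * η ≤ r / 10 ^ 16 := by nlinarith [S.LC, S.sm, S.η_pos]

lemma nη : ‖(η : ℂ)‖ = η := by rw [Complex.norm_real, Real.norm_eq_abs, abs_of_pos S.η_pos]

lemma nε : ‖(η : ℂ) ^ 2‖ = η ^ 2 := by rw [norm_pow, S.nη]

lemma sq_le : η ^ 2 ≤ η := by nlinarith [S.η_pos, S.η_le']

lemma η_lt : η < r := by linarith [S.η_le, S.P.r_pos]

lemma mem {c d : ℂ} (hc : c ∈ ball (0 : ℂ) r) (hd : d ∈ ball (0 : ℂ) r) :
    In r ((η : ℂ) ^ 2) η c d :=
  ⟨by rw [S.nε]; linarith [S.sq_le, S.η_lt], by rw [S.nη]; exact S.η_lt,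
    mem_ball_zero_iff.mp hc, mem_ball_zero_iff.mp hd⟩

lemma εL : ‖(η : ℂ) ^ 2‖ * L ≤ r / 8 := by
  rw [S.nε]
  nlinarith [S.Lη, S.η_pos, S.η_le', S.P.r_pos, S.P.L_ge]

lemma small_mem {z : ℂ} (hz : ‖z‖ ≤ r / 2) : z ∈ ball (0 : ℂ) r := by
  rw [mem_ball_zero_iff]; linarith [S.P.r_pos]

lemma exists_M2 : ∃ M2 : ℂ → ℂ, DifferentiableOn ℂ M2 (ball 0 r) ∧ ∀ Q ∈ ball (0 : ℂ) r,
    ‖M2 Q‖ ≤ L ∧ (Rl Q → Rl (M2 Q)) ∧
      ∀ c, ‖c‖ ≤ r / 2 → b0 (η ^ 2) η c Q = 0 → M2 Q = A0 (η ^ 2) η c Q := by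
  obtain ⟨s, h1, h2⟩ := exists_rt (g := fun w z => F1 (η ^ 2) η z w) S.P.r_pos
    (fun w hw => S.P.nF.comp differentiableOn_id (differentiableOn_const _)
      fun z hz => S.mem hz hw)
    (fun z hz => S.P.nF.comp (differentiableOn_const _) differentiableOn_id
      fun w hw => S.mem hz hw)
    (fun w hw z hz => S.P.nF.bdd (S.mem hz hw))
    (fun w hw z hz h1 h2 => S.P.nF.real (S.mem hz hw) ((Rl.ofReal η).pow 2) (Rl.ofReal η) h2 h1)
    S.εL ((Rl.ofReal η).pow 2)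
  have hm : ∀ w ∈ ball (0 : ℂ) r, s w ∈ ball (0 : ℂ) r := fun w hw =>
    S.small_mem (by linarith [(h2 w hw).1, S.P.r_pos])
  refine ⟨fun Q => A0 (η ^ 2) η (s Q) Q,
    S.P.nA.comp h1 differentiableOn_id fun w hw => S.mem (hm w hw) hw, fun Q hQ =>
    ⟨S.P.nA.bdd (S.mem (hm Q hQ) hQ), fun h => S.P.nA.real (S.mem (hm Q hQ) hQ)
      ((Rl.ofReal η).pow 2) (Rl.ofReal η) ((h2 Q hQ).2.2.1 h) h, fun c hc hb => ?_⟩⟩
  have h3 := S.P.ne2 (S.mem (S.small_mem hc) hQ)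
  have h4 : s Q = c := by
    refine (h2 Q hQ).2.2.2 c hc ?_
    rw [b0] at hb
    simp only [F1]
    field_simp
    linear_combination -hb
  simp only [h4]

end Sm

/-- The solution `s = th - 1`. -/
structure Sol (r η : ℝ) (s : ℂ → ℂ) : Prop where
  hol : DifferentiableOn ℂ s (ball 0 r)
  mem : ∀ m ∈ ball (0 : ℂ) r, s m ∈ ball (0 : ℂ) r
  eq : ∀ m ∈ ball (0 : ℂ) r, s m = (η : ℂ) ^ 2 * GG (η ^ 2) η m (s m)
  real : ∀ m ∈ ball (0 : ℂ) r, Rl m → Rl (s m)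

def Xt (η : ℝ) (s : ℂ → ℂ) (m : ℂ) : ℂ := GG (η ^ 2) η m (s m) * (2 + s m) / 2

def Er (η : ℝ) (s : ℂ → ℂ) (m : ℂ) : ℂ := Xt η s m - (m - η) / 42

namespace Sm

variable {r L C η : ℝ} {s : ℂ → ℂ} (S : Sm r L C η)

include S

lemma exists_sol : ∃ s, Sol r η s := by
  obtain ⟨s, h1, h2⟩ := exists_rt (g := fun w z => GG (η ^ 2) η w z) S.P.r_pos
    (fun w hw => S.P.nG.comp (differentiableOn_const _) differentiableOn_id
      fun z hz => S.mem hw hz)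
    (fun z hz => S.P.nG.comp differentiableOn_id (differentiableOn_const _)
      fun w hw => S.mem hw hz)
    (fun w hw z hz => S.P.nG.bdd (S.mem hw hz))
    (fun w hw z hz h1 h2 => S.P.nG.real (S.mem hw hz) ((Rl.ofReal η).pow 2) (Rl.ofReal η) h1 h2)
    S.εL ((Rl.ofReal η).pow 2)
  exact ⟨s, h1, fun w hw => S.small_mem (by linarith [(h2 w hw).1, S.P.r_pos]),
    fun w hw => (h2 w hw).2.1, fun w hw => (h2 w hw).2.2.1⟩

lemma s_le (H : Sol r η s) {m : ℂ} (hm : m ∈ ball (0 : ℂ) r) : ‖s m‖ ≤ L * η ^ 2 := by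
  have h1 := S.P.nG.bdd (S.mem hm (H.mem m hm))
  have h2 := congrArg norm (H.eq m hm)
  rw [norm_mul, S.nε] at h2
  rw [h2]
  nlinarith [sq_nonneg η]

lemma b_est (H : Sol r η s) {m σ : ℂ} (hm : m ∈ ball (0 : ℂ) r) (hσ : σ ∈ ball (0 : ℂ) r) :
    ‖b0 (η ^ 2) η (cP (η ^ 2) η m (1 + σ)) (QP (η ^ 2) η m (1 + σ)) -
      Real.pi / 2 * (σ - s m)‖ ≤ 3 * C * (η + ‖m‖ + ‖σ‖) * ‖σ - s m‖ := by
  have hi := S.mem hm hσ
  have h0 : In r 0 0 0 0 := by simp [In, S.P.r_pos]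
  have h1 := S.P.n5.lip hi h0
  have h2 := S.P.n5.bdd hi
  have h3 := S.P.nG.lip hi (S.mem hm (H.mem m hm))
  rw [S.P.v5] at h1
  simp only [sub_zero, S.nε, S.nη] at h1
  simp only [sub_self, norm_zero, zero_add] at h3
  have h4 : b0 (η ^ 2) η (cP (η ^ 2) η m (1 + σ)) (QP (η ^ 2) η m (1 + σ)) -
      Real.pi / 2 * (σ - s m) = (P5 (η ^ 2) η m σ - Real.pi / 2) * (σ - s m) -
        P5 (η ^ 2) η m σ * ((η : ℂ) ^ 2 * (GG (η ^ 2) η m σ - GG (η ^ 2) η m (s m))) := by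
    rw [b0_eq (S.P.ne5 hi)]
    linear_combination (P5 (η ^ 2) η m σ) * H.eq m hm
  rw [h4]
  refine (norm_sub_le _ _).trans ?_
  rw [norm_mul, norm_mul, norm_mul, S.nε]
  have hd := norm_nonneg (σ - s m)
  have hL := S.P.L_ge
  have hη := S.η_pos
  have hq := S.sq_le
  have hm0 := norm_nonneg m
  have hσ0 := norm_nonneg σ
  have hLC := S.LC
  have h5 : ‖P5 (η ^ 2) η m σ - Real.pi / 2‖ ≤ 2 * C * (η + ‖m‖ + ‖σ‖) := by
    refine h1.trans ?_
    have : η ^ 2 + η + ‖m‖ + ‖σ‖ ≤ 2 * (η + ‖m‖ + ‖σ‖) := by linarith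
    calc L * (η ^ 2 + η + ‖m‖ + ‖σ‖) ≤ C * (2 * (η + ‖m‖ + ‖σ‖)) :=
          mul_le_mul hLC this (by positivity) (by linarith)
      _ = _ := by ring
  have h6 : ‖P5 (η ^ 2) η m σ‖ * (η ^ 2 * ‖GG (η ^ 2) η m σ - GG (η ^ 2) η m (s m)‖) ≤
      C * (η + ‖m‖ + ‖σ‖) * ‖σ - s m‖ :=
    calc _ ≤ L * ((η + ‖m‖ + ‖σ‖) * (L * ‖σ - s m‖)) :=
          mul_le_mul h2 (mul_le_mul (by linarith) h3 (norm_nonneg _) (by positivity))
            (by positivity) (by linarith)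
      _ = L ^ 2 * ((η + ‖m‖ + ‖σ‖) * ‖σ - s m‖) := by ring
      _ ≤ C * ((η + ‖m‖ + ‖σ‖) * ‖σ - s m‖) :=
          mul_le_mul_of_nonneg_right S.C1 (by positivity)
      _ = _ := by ring
  have h7 := mul_le_mul_of_nonneg_right h5 hd
  linarith

lemma Xt_hol (H : Sol r η s) : DifferentiableOn ℂ (Xt η s) (ball 0 r) :=
  ((S.P.nG.comp differentiableOn_id H.hol fun w hw => S.mem hw (H.mem w hw)).mul
    (H.hol.const_add 2)).div_const 2

lemma Xt_real (H : Sol r η s) {m : ℂ} (hm : m ∈ ball (0 : ℂ) r) (h : Rl m) : Rl (Xt η s m) :=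
  ((S.P.nG.real (S.mem hm (H.mem m hm)) ((Rl.ofReal η).pow 2) (Rl.ofReal η) h
    (H.real m hm h)).mul (Rl.two.add (H.real m hm h))).div Rl.two

lemma Er_hol (H : Sol r η s) : DifferentiableOn ℂ (Er η s) (ball 0 r) :=
  (S.Xt_hol H).sub (by fun_prop)

lemma Er_le (H : Sol r η s) {m : ℂ} (hm : m ∈ ball (0 : ℂ) r) :
    ‖Er η s m‖ ≤ 4 * C * (‖m‖ ^ 2 + η ^ 2) := by
  have hr := S.P.r_pos
  have hin : ∀ w ∈ ball (0 : ℂ) r, In r 0 η w 0 := fun w hw =>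
    ⟨by simpa using hr, by rw [S.nη]; exact S.η_lt, mem_ball_zero_iff.mp hw, by simpa using hr⟩
  have h1 := schwarz2 (f := fun w => GG 0 η w 0) (c := 0) (z := m)
    (S.P.nG.comp differentiableOn_id (differentiableOn_const _) hin)
    (fun w hw => S.P.nG.bdd (hin w hw)) hm
  have hj := jt_GG η
  rw [hj.der.deriv] at h1
  have hv : GG 0 η 0 0 = -η / 42 := hj.val
  simp only [hv, sub_zero] at h1
  have h2 := S.P.nG.lip (S.mem hm (H.mem m hm)) (hin m hm)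
  simp only [sub_zero, sub_self, norm_zero, add_zero, S.nε] at h2
  have h3 := S.P.nG.bdd (S.mem hm (H.mem m hm))
  have h4 := S.s_le H hm
  have h5 : Er η s m = (GG 0 η m 0 - -η / 42 - m * (1 / 42)) +
      (GG (η ^ 2) η m (s m) - GG 0 η m 0) + GG (η ^ 2) η m (s m) * s m / 2 := by
    rw [Er, Xt]; ring
  have hL := S.P.L_ge
  have h6 : ‖GG (η ^ 2) η m (s m) * s m / 2‖ ≤ L * (L * η ^ 2) := by
    rw [norm_div, norm_mul, Complex.norm_two]
    have := mul_le_mul h3 h4 (norm_nonneg _) (by linarith)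
    have h0 : 0 ≤ L * (L * η ^ 2) := by positivity
    linarith
  have h7 : 4 * L / r ^ 2 * ‖m‖ ^ 2 ≤ 4 * C * ‖m‖ ^ 2 := by
    refine mul_le_mul_of_nonneg_right ?_ (by positivity)
    rw [mul_div_assoc]; linarith [S.C2]
  have h8 : L * (η ^ 2 + ‖s m‖) ≤ 2 * C * η ^ 2 := by
    have := mul_le_mul_of_nonneg_left h4 (by linarith : (0 : ℝ) ≤ L)
    have h9 := mul_le_mul_of_nonneg_right S.LC (sq_nonneg η)
    have h10 := mul_le_mul_of_nonneg_right S.C1 (sq_nonneg η)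
    nlinarith
  have h9 : L * (L * η ^ 2) ≤ C * η ^ 2 := by
    have h10 := mul_le_mul_of_nonneg_right S.C1 (sq_nonneg η)
    nlinarith
  have h10 : 0 ≤ C * η ^ 2 := mul_nonneg (by linarith [S.LC]) (sq_nonneg η)
  rw [h5]
  refine (norm_add₃_le).trans ?_
  nlinarith

lemma exists_m1 (H : Sol r η s) : ∃ m1 : ℝ, η / 2 ≤ m1 ∧ m1 ≤ 2 * η ∧ Xt η s m1 = 0 := by
  have hη := S.η_pos
  have hr := S.P.r_pos
  have hm : ∀ t ∈ Icc (η / 2) (2 * η), (t : ℂ) ∈ ball (0 : ℂ) r := fun t ht => by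
    rw [mem_ball_zero_iff, Complex.norm_real, Real.norm_eq_abs, abs_of_pos (by linarith [ht.1])]
    linarith [ht.2, S.η_le]
  have hc : ContinuousOn (fun t : ℝ => (Xt η s t).re) (Icc (η / 2) (2 * η)) :=
    Complex.continuous_re.comp_continuousOn
      ((S.Xt_hol H).continuousOn.comp Complex.continuous_ofReal.continuousOn hm)
  have hle : η / 2 ≤ 2 * η := by linarith
  have hE : ∀ t ∈ Icc (η / 2) (2 * η), |(Xt η s t).re - (t - η) / 42| ≤ η / 1000 := by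
    intro t ht
    have h1 := S.Er_le H (hm t ht)
    have h2 := Complex.abs_re_le_norm (Er η s t)
    have h3 : (Er η s t).re = (Xt η s t).re - (t - η) / 42 := by
      have : ((t : ℂ) - η) / 42 = (((t - η) / 42 : ℝ) : ℂ) := by push_cast; rfl
      rw [Er, this, Complex.sub_re, Complex.ofReal_re]
    rw [h3] at h2
    rw [Complex.norm_real, Real.norm_eq_abs, sq_abs] at h1
    have h4 : t ^ 2 ≤ (2 * η) ^ 2 := pow_le_pow_left₀ (by linarith [ht.1]) ht.2 2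
    have h5 : C * η ≤ 1 / 10 ^ 19 := by linarith [S.sm, S.P.r_le]
    have h6 : 0 ≤ C := by linarith [S.LC, S.P.L_ge]
    have h7 := mul_le_mul_of_nonneg_left h4 h6
    have h8 := mul_le_mul_of_nonneg_right h5 hη.le
    nlinarith
  have h1 := abs_le.mp (hE _ (left_mem_Icc.mpr hle))
  have h2 := abs_le.mp (hE _ (right_mem_Icc.mpr hle))
  obtain ⟨t, ht, h0⟩ := intermediate_value_Icc hle hc (a := η / 2) (b := 2 * η)
    (show (0 : ℝ) ∈ Icc _ _ from ⟨by linarith [h1.2], by linarith [h2.1]⟩)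
  refine ⟨t, ht.1, ht.2, ?_⟩
  exact Complex.ext h0 (S.Xt_real H (hm t ht) (Rl.ofReal t))

lemma dEr_le (H : Sol r η s) {z : ℂ} (hz : z ∈ ball (0 : ℂ) (8 * η)) :
    ‖deriv (Er η s) z‖ ≤ 656 * C * η := by
  have hη := S.η_pos
  have hb : ∀ w ∈ ball z η, ‖w‖ ≤ 9 * η := fun w hw => by
    rw [mem_ball_zero_iff] at hz
    rw [mem_ball, dist_eq_norm] at hw
    have := norm_add_le (w - z) z
    rw [sub_add_cancel] at this
    linarith
  have hsub : ball z η ⊆ ball 0 r := fun w hw => by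
    rw [mem_ball_zero_iff]
    linarith [hb w hw, S.η_le, S.P.r_pos]
  have h6 : 0 ≤ C := by linarith [S.LC, S.P.L_ge]
  have h1 := cauchy1 hη ((S.Er_hol H).mono hsub) (M := 328 * C * η ^ 2) fun w hw => by
    refine (S.Er_le H (hsub hw)).trans ?_
    have h4 : ‖w‖ ^ 2 ≤ (9 * η) ^ 2 := pow_le_pow_left₀ (norm_nonneg _) (hb w hw) 2
    have h7 := mul_le_mul_of_nonneg_left h4 h6
    nlinarith
  refine h1.trans (le_of_eq ?_)
  field_simp
  ring

lemma ball_sub : ball (0 : ℂ) (8 * η) ⊆ ball 0 r :=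
  ball_subset_ball (by linarith [S.η_le, S.P.r_pos])

lemma slope_le (H : Sol r η s) {z w : ℂ} (hz : z ∈ ball (0 : ℂ) (8 * η))
    (hw : w ∈ ball (0 : ℂ) (8 * η)) : ‖42 * dslope (Xt η s) z w - 1‖ ≤ 27552 * C * η := by
  have hd : ∀ y ∈ ball (0 : ℂ) (8 * η), DifferentiableAt ℂ (Er η s) y := fun y hy =>
    (S.Er_hol H).differentiableAt (isOpen_ball.mem_nhds (S.ball_sub hy))
  have hX : Xt η s = fun m => Er η s m + (m - η) / 42 := by
    funext m; rw [Er]; ring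
  rcases eq_or_ne w z with rfl | hne
  · have h1 : HasDerivAt (Xt η s) (deriv (Er η s) w + 1 / 42) w := by
      rw [hX]
      exact (hd w hw).hasDerivAt.add (((hasDerivAt_id w).sub_const _).div_const 42)
    rw [dslope_same, h1.deriv]
    have : 42 * (deriv (Er η s) w + 1 / 42) - 1 = 42 * deriv (Er η s) w := by ring
    rw [this, norm_mul]
    have h2 := S.dEr_le H hw
    have h3 : ‖(42 : ℂ)‖ = 42 := by simp
    rw [h3]
    linarith
  · have h1 := (convex_ball (0 : ℂ) (8 * η)).norm_image_sub_le_of_norm_deriv_le hd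
      (fun y hy => S.dEr_le H hy) hz hw
    have h0 : w - z ≠ 0 := sub_ne_zero.mpr hne
    have h2 : 42 * dslope (Xt η s) z w - 1 = 42 * (Er η s w - Er η s z) / (w - z) := by
      rw [dslope_of_ne _ hne, slope_def_field, Er, Er]
      field_simp
      ring
    have h3 : ‖(42 : ℂ)‖ = 42 := by simp
    rw [h2, norm_div, norm_mul, h3, div_le_iff₀ (norm_pos_iff.mpr h0)]
    linarith

lemma slope_real (H : Sol r η s) {z w : ℂ} (hz : z ∈ ball (0 : ℂ) r) (hw : w ∈ ball (0 : ℂ) r)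
    (h1 : Rl z) (h2 : Rl w) : Rl (dslope (Xt η s) z w) := by
  rcases eq_or_ne w z with rfl | hne
  · rw [dslope_same]
    exact im_deriv isOpen_ball (S.Xt_hol H) (fun y hy h => S.Xt_real H hy h) hw h1
  · rw [dslope_of_ne _ hne, slope_def_field]
    exact ((S.Xt_real H hw h2).sub (S.Xt_real H hz h1)).div (h2.sub h1)

lemma core : ∃ (m1 : ℝ) (th ψ M2 : ℂ → ℂ), Core η (30000 * C) (r / 4) m1 th ψ M2 := by
  obtain ⟨M2, hM1, hM2⟩ := S.exists_M2
  obtain ⟨s, H⟩ := S.exists_sol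
  obtain ⟨m1, h1, h2, h3⟩ := S.exists_m1 H
  have hη := S.η_pos
  have hr := S.P.r_pos
  have hL := S.P.L_ge
  have hLC := S.LC
  have hsub : ball (0 : ℂ) (r / 4) ⊆ ball 0 r := ball_subset_ball (by linarith)
  have hn : ‖(m1 : ℂ)‖ = m1 := by
    rw [Complex.norm_real, Real.norm_eq_abs, abs_of_pos (by linarith)]
  have hm1 : (m1 : ℂ) ∈ ball (0 : ℂ) (8 * η) := by rw [mem_ball_zero_iff, hn]; linarith
  have hμ : ∀ x ∈ ball (0 : ℂ) 3, (m1 : ℂ) * (1 - x) ∈ ball (0 : ℂ) (8 * η) := fun x hx => by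
    rw [mem_ball_zero_iff] at *
    have := norm_sub_le 1 x
    rw [norm_one] at this
    rw [norm_mul, hn]
    nlinarith [norm_nonneg (1 - x)]
  have hp : ∀ p : ℂ × ℂ, p ∈ ball (0 : ℂ × ℂ) (r / 4) → In r ((η : ℂ) ^ 2) η p.1 p.2 := by
    intro p hp
    rw [mem_ball_zero_iff, Prod.norm_def, max_lt_iff] at hp
    exact S.mem (S.small_mem (by linarith [hp.1])) (S.small_mem (by linarith [hp.2]))
  refine ⟨m1, fun m => 1 + s m, fun x => 42 * dslope (Xt η s) m1 (m1 * (1 - x)), M2, h1, h2,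
    (H.hol.mono hsub).const_add 1, fun m hm h => Rl.one.add (H.real m (hsub hm) h),
    fun m hm => ?_, ?_, fun x hx h => ?_, fun x hx => ?_, fun x hx => ?_, fun m hm θ hθ => ?_,
    S.P.nb.comp differentiableOn_fst differentiableOn_snd hp,
    S.P.nA.comp differentiableOn_fst differentiableOn_snd hp, hM1.mono hsub,
    fun Q hQ => by linarith [(hM2 Q (hsub hQ)).1], fun Q hQ => (hM2 Q (hsub hQ)).2.1,
    fun c hc Q hQ => (hM2 Q (hsub hQ)).2.2 c (by linarith [mem_ball_zero_iff.mp hc])⟩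
  · simp only [add_sub_cancel_left]
    exact (S.s_le H (hsub hm)).trans (mul_le_mul_of_nonneg_right (by linarith) (sq_nonneg η))
  · have := (Complex.differentiableOn_dslope (isOpen_ball.mem_nhds (S.ball_sub hm1))).mpr
      (S.Xt_hol H)
    exact (this.comp (f := fun x : ℂ => (m1 : ℂ) * (1 - x)) (by fun_prop)
      fun x hx => S.ball_sub (hμ x hx)).const_mul 42
  · have h42 : Rl 42 := by simp [Rl]
    exact h42.mul (S.slope_real H (S.ball_sub hm1) (S.ball_sub (hμ x hx)) (Rl.ofReal m1)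
      ((Rl.ofReal m1).mul (Rl.one.sub h)))
  · refine (S.slope_le H hm1 (hμ x hx)).trans ?_
    exact mul_le_mul_of_nonneg_right (by linarith) hη.le
  · have h4 := sub_smul_dslope (Xt η s) m1 (m1 * (1 - x))
    have h5 := H.eq _ (S.ball_sub (hμ x hx))
    rw [h3, smul_eq_mul, Xt] at h4
    push_cast
    linear_combination (-(2 + s (m1 * (1 - x)))) * h5 + 2 * (η : ℂ) ^ 2 * h4
  · have hσ : θ - 1 ∈ ball (0 : ℂ) r := by
      rw [mem_ball, dist_eq_norm] at hθ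
      exact S.small_mem (by linarith)
    have h4 := S.b_est H (hsub hm) hσ
    have h5 : θ - 1 - s m = θ - (1 + s m) := by ring
    rw [add_sub_cancel, h5] at h4
    refine h4.trans (mul_le_mul_of_nonneg_right (mul_le_mul_of_nonneg_right (by linarith)
      (by positivity)) (norm_nonneg _))

end Sm

end BaseCore

open BaseCore in
theorem base_core : StmtCore := by
  obtain ⟨r, L, P⟩ := exists_pack
  have hr := P.r_pos
  have hr1 := P.r_le
  have hL := P.L_ge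
  have h1 : r ^ 2 ≤ 1 := by nlinarith
  have h2 : L ^ 2 ≤ L ^ 2 / r ^ 2 := by
    rw [le_div_iff₀ (by positivity)]
    nlinarith [sq_nonneg L]
  have h3 : L / r ^ 2 ≤ L ^ 2 / r ^ 2 :=
    div_le_div_of_nonneg_right (by nlinarith) (by positivity)
  refine ⟨30000 * (L ^ 2 / r ^ 2), r / 4, by nlinarith, by linarith, by linarith,
    fun η hη => Sm.core ⟨P, hη.η_pos, h2, h3, ?_⟩⟩
  linarith [hη.small]

end

end Pool.Agent.Lib.MP_87c84d_gt
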