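import Pool.Agent.Lib.MP_87c84d_gt.BaseDefs

/-!
Germs of the closed forms at the base point: analyticity, values, reality.
-/

namespace Pool.Agent.Lib.MP_87c84d_gt

open MeasureTheory Set Metric Filter Topology Base

noncomputable section

namespace BaseCore

/-! ### The complex arcsine -/

lemma casin_ofReal {x : ℝ} (h : |x| ≤ 1) : casin x = Real.arcsin x := by
  have h1 := abs_le.mp h
  have h0 : 0 ≤ 1 - x ^ 2 := by nlinarith
  have hs : Complex.sqrt (1 - (x : ℂ) ^ 2) = ((√(1 - x ^ 2) : ℝ) : ℂ) := by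
    rw [← sqrt_ofReal h0]; push_cast; rfl
  have he : Complex.I * x + Complex.sqrt (1 - (x : ℂ) ^ 2) =
      Complex.exp ((Real.arcsin x : ℂ) * Complex.I) := by
    rw [hs, Complex.exp_mul_I, ← Complex.ofReal_cos, ← Complex.ofReal_sin, Real.cos_arcsin,
      Real.sin_arcsin h1.1 h1.2]
    ring
  have hp := Real.pi_pos
  have ha := Real.neg_pi_div_two_le_arcsin x
  have hb := Real.arcsin_le_pi_div_two x
  rw [casin, he, Complex.log_exp (by simp; linarith) (by simp; linarith)]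
  linear_combination (-(Real.arcsin x : ℂ)) * Complex.I_mul_I

lemma casin_zero : casin 0 = 0 := by
  simpa using casin_ofReal (x := 0) (by simp)

lemma casin_slit {x : ℝ} (h : |x| < 1) : 1 - (x : ℂ) ^ 2 ∈ Complex.slitPlane ∧
    Complex.I * x + Complex.sqrt (1 - (x : ℂ) ^ 2) ∈ Complex.slitPlane := by
  have h1 := abs_lt.mp h
  have h0 : 0 < 1 - x ^ 2 := by nlinarith
  have hs : Complex.sqrt (1 - (x : ℂ) ^ 2) = ((√(1 - x ^ 2) : ℝ) : ℂ) := by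
    rw [← sqrt_ofReal h0.le]; push_cast; rfl
  constructor
  · refine slit_of_re_pos ?_
    have : (1 - (x : ℂ) ^ 2) = ((1 - x ^ 2 : ℝ) : ℂ) := by push_cast; rfl
    rw [this, Complex.ofReal_re]; exact h0
  · refine slit_of_re_pos ?_
    rw [hs]
    simpa using h0

lemma analyticAt_csqrt {E : Type*} [NormedAddCommGroup E] [NormedSpace ℂ E] {f : E → ℂ} {x : E}
    (hf : AnalyticAt ℂ f x) (h : f x ∈ Complex.slitPlane) :
    AnalyticAt ℂ (fun p => Complex.sqrt (f p)) x :=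
  hf.cpow analyticAt_const h

lemma analyticAt_casin {x : ℝ} (h : |x| < 1) : AnalyticAt ℂ casin x := by
  obtain ⟨h1, h2⟩ := casin_slit h
  have h3 : AnalyticAt ℂ (fun w : ℂ => Complex.sqrt (1 - w ^ 2)) x :=
    analyticAt_csqrt (f := fun w : ℂ => 1 - w ^ 2) (by fun_prop) h1
  have h4 : AnalyticAt ℂ (fun w : ℂ => Complex.I * w + Complex.sqrt (1 - w ^ 2)) x :=
    (analyticAt_const.mul analyticAt_id).add h3
  exact analyticAt_const.mul (h4.clog h2)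

lemma hasDerivAt_casin {x : ℝ} (h : |x| < 1) :
    HasDerivAt casin (1 / Complex.sqrt (1 - (x : ℂ) ^ 2)) x := by
  obtain ⟨h1, h2⟩ := casin_slit h
  have h3 : HasDerivAt (fun w : ℂ => 1 - w ^ 2) (-(2 * (x : ℂ))) x := by
    simpa using ((hasDerivAt_pow 2 (x : ℂ)).const_sub 1)
  have h4 := HasDerivAt.csqrt h3 h1
  have h5 := (((hasDerivAt_id (x : ℂ)).const_mul Complex.I).add h4).clog h2
  refine hasDerivAt_of_eq (h5.const_mul (-Complex.I)) (fun _ => rfl) ?_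
  have h6 := Complex.slitPlane_ne_zero h2
  have h7 := sqrt_ne_zero (Complex.slitPlane_ne_zero h1)
  simp only [Pi.add_apply, id]
  field_simp
  linear_combination (-Complex.sqrt (1 - (x : ℂ) ^ 2)) * Complex.I_mul_I

lemma aR_sq : aR ^ 2 = 3 / 4 := by
  rw [aR, div_pow, Real.sq_sqrt (by norm_num)]; norm_num

lemma aR_pos : 0 < aR := by rw [aR]; positivity

lemma aR_lt : aR < 1 := by nlinarith [aR_sq, aR_pos]

lemma abs_aR : |aR| < 1 := by rw [abs_of_pos aR_pos]; exact aR_lt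

lemma arcsin_aR : Real.arcsin aR = Real.pi / 3 := by
  have hp := Real.pi_pos
  rw [aR, ← Real.sin_pi_div_three, Real.arcsin_sin (by linarith) (by linarith)]

lemma den_ne : 1 / 3 - aR / Real.pi ≠ 0 := by
  have hp := Real.pi_gt_three
  have : aR / Real.pi < 1 / 3 := by
    rw [div_lt_iff₀ (by linarith)]; linarith [aR_lt]
  linarith

/-! ### Germs -/

abbrev X4 := ℂ × ℂ × ℂ × ℂ

def RP (p : X4) : Prop := Rl p.1 ∧ Rl p.2.1 ∧ Rl p.2.2.1 ∧ Rl p.2.2.2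

/-- An analytic germ at the origin with real value `v`, real at real points. -/
structure Gd (f : X4 → ℂ) (v : ℝ) : Prop where
  an : AnalyticAt ℂ f 0
  val : f 0 = v
  re : ∀ᶠ p in 𝓝 (0 : X4), RP p → Rl (f p)

namespace Gd

variable {f g : X4 → ℂ} {v w : ℝ}

lemma cv (h : Gd f v) (hv : v = w) : Gd f w := hv ▸ h

lemma cst {z : ℂ} (h : z = v) : Gd (fun _ => z) v :=
  ⟨analyticAt_const, h, Eventually.of_forall fun _ _ => h ▸ Rl.ofReal v⟩

lemma r (v : ℝ) : Gd (fun _ => (v : ℂ)) v := cst rfl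

lemma one : Gd (fun _ => 1) 1 := cst (by simp)

lemma two : Gd (fun _ => 2) 2 := cst (by simp)

lemma add (hf : Gd f v) (hg : Gd g w) : Gd (fun p => f p + g p) (v + w) :=
  ⟨hf.an.add hg.an, by simp [hf.val, hg.val], by
    filter_upwards [hf.re, hg.re] with p h1 h2 hp using (h1 hp).add (h2 hp)⟩

lemma sub (hf : Gd f v) (hg : Gd g w) : Gd (fun p => f p - g p) (v - w) :=
  ⟨hf.an.sub hg.an, by simp [hf.val, hg.val], by
    filter_upwards [hf.re, hg.re] with p h1 h2 hp using (h1 hp).sub (h2 hp)⟩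

lemma neg (hf : Gd f v) : Gd (fun p => -f p) (-v) :=
  ⟨hf.an.neg, by simp [hf.val], by filter_upwards [hf.re] with p h1 hp using (h1 hp).neg⟩

lemma mul (hf : Gd f v) (hg : Gd g w) : Gd (fun p => f p * g p) (v * w) :=
  ⟨hf.an.mul hg.an, by simp [hf.val, hg.val], by
    filter_upwards [hf.re, hg.re] with p h1 h2 hp using (h1 hp).mul (h2 hp)⟩

lemma div (hf : Gd f v) (hg : Gd g w) (hw : w ≠ 0) : Gd (fun p => f p / g p) (v / w) :=
  ⟨hf.an.div hg.an (by rw [hg.val]; exact_mod_cast hw), by simp [hf.val, hg.val], by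
    filter_upwards [hf.re, hg.re] with p h1 h2 hp using (h1 hp).div (h2 hp)⟩

lemma sq (hf : Gd f v) : Gd (fun p => f p ^ 2) (v ^ 2) :=
  ⟨hf.an.pow 2, by simp [hf.val], by filter_upwards [hf.re] with p h1 hp using (h1 hp).pow 2⟩

lemma tend (hf : Gd f v) : Tendsto (fun p => (f p).re) (𝓝 0) (𝓝 v) := by
  have := (Complex.continuous_re.tendsto _).comp hf.an.continuousAt.tendsto
  rw [hf.val, Complex.ofReal_re] at this
  exact this

lemma sqrt (hf : Gd f v) (hv : 0 < v) : Gd (fun p => Complex.sqrt (f p)) (√v) :=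
  ⟨analyticAt_csqrt hf.an (slit_of_re_pos (by rw [hf.val]; simpa using hv)),
    by simp only [hf.val]; exact sqrt_ofReal hv.le, by
    filter_upwards [hf.re, hf.tend.eventually (lt_mem_nhds hv)] with p h1 h2 hp
      using (h1 hp).sqrt h2.le⟩

lemma sqrt1 (hf : Gd f 1) : Gd (fun p => Complex.sqrt (f p)) 1 :=
  (hf.sqrt one_pos).cv Real.sqrt_one

lemma casin (hf : Gd f v) (hv : |v| < 1) : Gd (fun p => casin (f p)) (Real.arcsin v) := by
  refine ⟨?_, by simp only [hf.val]; exact casin_ofReal hv.le, ?_⟩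
  · exact AnalyticAt.comp (g := Base.casin) (hf.val ▸ analyticAt_casin hv) hf.an
  · filter_upwards [hf.re, hf.tend.abs.eventually (gt_mem_nhds hv)] with p h1 h2 hp
    rw [eq_ofReal_re (h1 hp), casin_ofReal h2.le]
    exact Rl.ofReal _

lemma c1 : Gd (fun p => p.1) 0 :=
  ⟨analyticAt_fst, by simp, Eventually.of_forall fun _ h => h.1⟩

lemma c2 : Gd (fun p => p.2.1) 0 :=
  ⟨analyticAt_fst.comp analyticAt_snd, by simp, Eventually.of_forall fun _ h => h.2.1⟩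

lemma c3 : Gd (fun p => p.2.2.1) 0 :=
  ⟨analyticAt_fst.comp (analyticAt_snd.comp analyticAt_snd), by simp,
    Eventually.of_forall fun _ h => h.2.2.1⟩

lemma c4 : Gd (fun p => p.2.2.2) 0 :=
  ⟨analyticAt_snd.comp (analyticAt_snd.comp analyticAt_snd), by simp,
    Eventually.of_forall fun _ h => h.2.2.2⟩

end Gd

section Pieces

variable {e n c q : X4 → ℂ}

lemma gd_uC (hn : Gd n 0) : Gd (fun p => uC (n p)) (uR 0) :=
  (((Gd.cst (z := 31 / 21 - 3 / (Real.pi : ℂ)) (v := 31 / 21 - 3 / Real.pi) (by simp)).sub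
    (hn.div (Gd.cst (z := 28) (v := 28) (by simp)) (by norm_num))).div
    (Gd.cst (z := 1 / 3 - (aR : ℂ) / (Real.pi : ℂ)) (v := 1 / 3 - aR / Real.pi) (by simp))
    den_ne).cv rfl

lemma gd_hC (hn : Gd n 0) : Gd (fun p => hC (n p)) (hR 0) :=
  ((Gd.r Real.pi).mul ((((((gd_uC hn).div (Gd.cst (z := 3) (v := 3) (by simp))
    (by norm_num)).sub Gd.one).add (Gd.two.div (Gd.r Real.pi) Real.pi_ne_zero))).add
    (hn.div (Gd.cst (z := 42) (v := 42) (by simp)) (by norm_num)))).cv rfl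

lemma gd_kC (he : Gd e 0) (hn : Gd n 0) : Gd (fun p => kC (e p) (n p)) 1 :=
  (Gd.one.add (he.mul (((gd_hC hn).mul (Gd.r aR).sq).sub ((gd_uC hn).mul (Gd.r aR))))).cv
    (by simp)

lemma gd_γ (he : Gd e 0) : Gd (fun p => 1 + e p) 1 := (Gd.one.add he).cv (by simp)

lemma gd_R2C (he : Gd e 0) (hn : Gd n 0) : Gd (fun p => R2C (e p) (n p)) 1 :=
  (((gd_kC he hn).mul (gd_γ he)).add ((he.mul (gd_uC hn)).sq.div
    (Gd.cst (z := 4) (v := 4) (by simp)) (by norm_num))).cv (by simp)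

lemma gd_gM (he : Gd e 0) (hn : Gd n 0) : Gd (fun p => gM (e p) (n p)) 1 :=
  (Gd.one.sub (he.mul ((gd_hC hn).sub Gd.one))).cv (by simp)

lemma gd_lT (he : Gd e 0) (hq : Gd q 0) : Gd (fun p => lT (e p) (q p)) 1 :=
  ((gd_γ he).add hq).cv (by simp)

lemma gd_lM (he : Gd e 0) (hn : Gd n 0) (hq : Gd q 0) : Gd (fun p => lM (e p) (n p) (q p)) 1 :=
  ((gd_gM he hn).add hq).cv (by simp)

lemma gd_lB (hq : Gd q 0) : Gd (fun p => lB (q p)) 1 := gd_γ hq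

variable (he : Gd e 0) (hn : Gd n 0) (hc : Gd c 0) (hq : Gd q 0)

include he hn hc hq

lemma gd_yT : Gd (fun p => yT (e p) (n p) (c p) (q p)) 0 :=
  (((he.mul (gd_uC hn)).add ((Gd.two.mul hq).mul hc)).div (Gd.two.mul (gd_lT he hq))
    (by norm_num)).cv (by simp)

lemma gd_yM : Gd (fun p => yM (e p) (n p) (c p) (q p)) 0 :=
  ((hq.mul hc).div (gd_lM he hn hq) one_ne_zero).cv (by simp)

omit he hn in
lemma gd_yB : Gd (fun p => yB (c p) (q p)) 0 :=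
  ((hq.mul hc).div (gd_lB hq) one_ne_zero).cv (by simp)

lemma gd_dT : Gd (fun p => dT (e p) (n p) (c p) (q p)) 1 :=
  Gd.sqrt1 (((((gd_kC he hn).sub (hq.mul hc.sq)).div (gd_lT he hq) one_ne_zero).add
    (gd_yT he hn hc hq).sq).cv (by simp))

lemma gd_dM : Gd (fun p => dM (e p) (n p) (c p) (q p)) 1 :=
  Gd.sqrt1 ((((Gd.one.sub (hq.mul hc.sq)).div (gd_lM he hn hq) one_ne_zero).add
    (gd_yM he hn hc hq).sq).cv (by simp))

omit he hn in
lemma gd_dB : Gd (fun p => dB (c p) (q p)) 1 :=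
  Gd.sqrt1 ((((Gd.one.sub (hq.mul hc.sq)).div (gd_lB hq) one_ne_zero).add
    (gd_yB hc hq).sq).cv (by simp))

lemma gd_ΘT : Gd (fun p => ΘT (e p) (n p) (c p) (q p)) (Real.pi / 6) :=
  ((((Gd.r Real.pi).div Gd.two two_ne_zero).sub
    (((((Gd.r aR).sub (gd_yT he hn hc hq)).div (gd_dT he hn hc hq) one_ne_zero).cv
      (w := aR) (by simp)).casin abs_aR)).div (gd_lT he hq).sqrt1 one_ne_zero).cv
    (by rw [arcsin_aR]; ring)

lemma gd_ΘM : Gd (fun p => ΘM (e p) (n p) (c p) (q p)) (Real.pi / 3) :=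
  (((((((Gd.r aR).sub (gd_yM he hn hc hq)).div (gd_dM he hn hc hq) one_ne_zero).cv
      (w := aR) (by simp)).casin abs_aR).sub
    ((((gd_yM he hn hc hq).neg.div (gd_dM he hn hc hq) one_ne_zero).cv (w := 0)
      (by simp)).casin (by simp))).div (gd_lM he hn hq).sqrt1 one_ne_zero).cv
    (by rw [arcsin_aR]; simp)

omit he hn in
lemma gd_ΘB : Gd (fun p => ΘB (c p) (q p)) (Real.pi / 2) :=
  (((((((gd_yB hc hq).neg.div (gd_dB hc hq) one_ne_zero).cv (w := 0)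
      (by simp)).casin (by simp))).add ((Gd.r Real.pi).div Gd.two two_ne_zero)).div
      (gd_lB hq).sqrt1 one_ne_zero).cv (by simp)

lemma gd_Wa : ∃ v, Gd (fun p => Wa (e p) (n p) (c p) (q p)) v :=
  ⟨_, ((Gd.one.sub ((gd_gM he hn).mul (Gd.r aR).sq)).sub (hq.mul ((Gd.r aR).sub hc).sq)).sqrt
    (by rw [aR_sq]; norm_num)⟩

omit he hn in
lemma gd_W0 : Gd (fun p => W0 (c p) (q p)) 1 :=
  Gd.sqrt1 ((Gd.one.sub (hq.mul hc.sq)).cv (by simp))

lemma gd_Φ1 : ∃ v, Gd (fun p => Φ1 (e p) (n p) (c p) (q p)) v := by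
  obtain ⟨v, hv⟩ := gd_Wa he hn hc hq
  exact ⟨_, ((((gd_hC hn).neg.mul hv).div ((gd_lT he hq).mul (gd_lM he hn hq))
    (by norm_num)).add ((((gd_hC hn).sub Gd.one).mul (gd_W0 hc hq)).div
      ((gd_lM he hn hq).mul (gd_lB hq)) (by norm_num))).add
    (((gd_uC hn).mul (gd_ΘT he hn hc hq)).div (Gd.two.mul (gd_lT he hq)) (by norm_num))⟩

lemma gd_Φ2 : Gd (fun p => Φ2 (e p) (n p) (c p) (q p)) Real.pi :=
  ((((((gd_γ he).mul (gd_ΘT he hn hc hq)).div (gd_lT he hq) one_ne_zero).add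
    (((gd_gM he hn).mul (gd_ΘM he hn hc hq)).div (gd_lM he hn hq) one_ne_zero))).add
    ((gd_ΘB hc hq).div (gd_lB hq) one_ne_zero)).cv (by ring)

lemma gd_b0 : ∃ v, Gd (fun p => b0 (e p) (n p) (c p) (q p)) v := by
  obtain ⟨v, hv⟩ := gd_Φ1 he hn hc hq
  exact ⟨_, (he.mul hv).sub (hc.mul (gd_Φ2 he hn hc hq))⟩

lemma gd_A0 : ∃ v, Gd (fun p => A0 (e p) (n p) (c p) (q p)) v := by
  obtain ⟨v, hv⟩ := gd_Wa he hn hc hq
  exact ⟨_, ((((((gd_yT he hn hc hq).sub (gd_yM he hn hc hq)).mul hv).add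
    (((gd_yM he hn hc hq).sub (gd_yB hc hq)).mul (gd_W0 hc hq))).add
    (((gd_lT he hq).mul (gd_dT he hn hc hq).sq).mul (gd_ΘT he hn hc hq))).add
    (((gd_lM he hn hq).mul (gd_dM he hn hc hq).sq).mul (gd_ΘM he hn hc hq))).add
    (((gd_lB hq).mul (gd_dB hc hq).sq).mul (gd_ΘB hc hq))⟩

end Pieces

section Planes

variable {e n m θ : X4 → ℂ}

lemma gd_ST (he : Gd e 0) (hn : Gd n 0) (hm : Gd m 0) : Gd (fun p => ST (e p) (n p) (m p)) 1 :=
  (Gd.one.div (Gd.sqrt1 (((gd_R2C he hn).div (Gd.one.add ((gd_γ he).mul hm))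
    (by norm_num)).cv (by simp))) one_ne_zero).cv (by simp)

lemma gd_SB (hm : Gd m 0) : Gd (fun p => SB (m p)) 1 :=
  (Gd.one.div (Gd.sqrt1 ((Gd.one.div (gd_γ hm) one_ne_zero).cv (by simp))) one_ne_zero).cv
    (by simp)

variable (he : Gd e 0) (hn : Gd n 0) (hm : Gd m 0) (hθ : Gd θ 1)

include he hn hm hθ

lemma gd_ST' : Gd (fun p => ST (e p) (n p) (m p * θ p ^ 2)) 1 :=
  gd_ST he hn ((hm.mul hθ.sq).cv (by simp))

lemma gd_Sg : Gd (fun p => ST (e p) (n p) (m p * θ p ^ 2) + θ p * SB (m p)) 2 :=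
  ((gd_ST' he hn hm hθ).add (hθ.mul (gd_SB hm))).cv (by norm_num)

lemma gd_cP : Gd (fun p => cP (e p) (n p) (m p) (θ p)) 0 :=
  (((Gd.one.sub hθ).add ((he.mul (Gd.one.neg.add (((gd_uC hn).mul (gd_ST' he hn hm hθ)).div
    Gd.two two_ne_zero))).div (gd_γ he) one_ne_zero)).div (gd_Sg he hn hm hθ) two_ne_zero).cv
    (by simp)

lemma gd_YP : Gd (fun p => YP (e p) (n p) (m p) (θ p)) 1 :=
  (Gd.one.add ((gd_cP he hn hm hθ).mul (gd_SB hm))).cv (by simp)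

lemma gd_QP : Gd (fun p => QP (e p) (n p) (m p) (θ p)) 0 :=
  (hm.div (gd_YP he hn hm hθ).sq (by norm_num)).cv (by simp)

lemma gd_HH : ∃ v, Gd (fun p => HH (e p) (n p) (m p) (θ p)) v := by
  obtain ⟨v, hv⟩ := gd_Φ1 he hn (gd_cP he hn hm hθ) (gd_QP he hn hm hθ)
  exact ⟨_, ((Gd.one.neg.add (((gd_uC hn).mul (gd_ST' he hn hm hθ)).div
    Gd.two two_ne_zero)).div (gd_γ he) one_ne_zero).sub (((gd_Sg he hn hm hθ).mul hv).div
    (gd_Φ2 he hn (gd_cP he hn hm hθ) (gd_QP he hn hm hθ)) Real.pi_ne_zero)⟩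

end Planes

/-! ### Uniform estimates on a polydisc -/

def In (r : ℝ) (a b c d : ℂ) : Prop := ‖a‖ < r ∧ ‖b‖ < r ∧ ‖c‖ < r ∧ ‖d‖ < r

lemma In.mem {r : ℝ} {a b c d : ℂ} (h : In r a b c d) : ((a, b, c, d) : X4) ∈ ball 0 r := by
  rw [mem_ball_zero_iff]
  simp only [Prod.norm_def, max_lt_iff]
  exact h

structure Nice (f : ℂ → ℂ → ℂ → ℂ → ℂ) (r L : ℝ) : Prop where
  hol : DifferentiableOn ℂ (fun p : X4 => f p.1 p.2.1 p.2.2.1 p.2.2.2) (ball 0 r)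
  lip : ∀ {a b c d a' b' c' d' : ℂ}, In r a b c d → In r a' b' c' d' →
    ‖f a b c d - f a' b' c' d'‖ ≤ L * (‖a - a'‖ + ‖b - b'‖ + ‖c - c'‖ + ‖d - d'‖)
  bdd : ∀ {a b c d : ℂ}, In r a b c d → ‖f a b c d‖ ≤ L
  real : ∀ {a b c d : ℂ}, In r a b c d → Rl a → Rl b → Rl c → Rl d → Rl (f a b c d)

lemma In.mono {r r' : ℝ} {a b c d : ℂ} (h : In r a b c d) (hr : r ≤ r') : In r' a b c d :=
  ⟨h.1.trans_le hr, h.2.1.trans_le hr, h.2.2.1.trans_le hr, h.2.2.2.trans_le hr⟩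

lemma Nice.mono {f : ℂ → ℂ → ℂ → ℂ → ℂ} {r L r' L' : ℝ} (h : Nice f r L) (hr : r' ≤ r)
    (hL : L ≤ L') : Nice f r' L' :=
  ⟨h.hol.mono (ball_subset_ball hr), fun h1 h2 => (h.lip (h1.mono hr) (h2.mono hr)).trans
    (mul_le_mul_of_nonneg_right hL (by positivity)), fun h1 => (h.bdd (h1.mono hr)).trans hL,
    fun h1 => h.real (h1.mono hr)⟩

/-- Holomorphy along holomorphic maps of any parameter space. -/
lemma Nice.comp {E : Type*} [NormedAddCommGroup E] [NormedSpace ℂ E]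
    {f : ℂ → ℂ → ℂ → ℂ → ℂ} {r L : ℝ} (h : Nice f r L) {S : Set E} {a b : ℂ} {c d : E → ℂ}
    (hc : DifferentiableOn ℂ c S) (hd : DifferentiableOn ℂ d S)
    (hin : ∀ w ∈ S, In r a b (c w) (d w)) :
    DifferentiableOn ℂ (fun w => f a b (c w) (d w)) S :=
  h.hol.comp (f := fun w => ((a, b, c w, d w) : X4))
    ((differentiableOn_const _).prodMk ((differentiableOn_const _).prodMk (hc.prodMk hd)))
    fun w hw => (hin w hw).mem

lemma Gd.nice {f : ℂ → ℂ → ℂ → ℂ → ℂ} {v : ℝ}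
    (h : Gd (fun p => f p.1 p.2.1 p.2.2.1 p.2.2.2) v) :
    ∃ r L : ℝ, 0 < r ∧ Nice f r L := by
  obtain ⟨K, t, ht, hK⟩ := (h.an.contDiffAt (n := 1)).exists_lipschitzOnWith
  obtain ⟨r, hr, hb⟩ := Metric.eventually_nhds_iff_ball.mp
    ((h.an.eventually_analyticAt.and h.re).and ht)
  have hsub : ∀ {a b c d : ℂ}, In (min r 1) a b c d → ((a, b, c, d) : X4) ∈ ball 0 r :=
    fun h1 => (h1.mono (min_le_left _ _)).mem
  have hlip : ∀ {a b c d a' b' c' d' : ℂ}, In (min r 1) a b c d → In (min r 1) a' b' c' d' →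
      ‖f a b c d - f a' b' c' d'‖ ≤ K * (‖a - a'‖ + ‖b - b'‖ + ‖c - c'‖ + ‖d - d'‖) := by
    intro a b c d a' b' c' d' h1 h2
    have := hK.dist_le_mul _ (hb _ (hsub h1)).2 _ (hb _ (hsub h2)).2
    rw [dist_eq_norm, dist_eq_norm] at this
    refine this.trans (mul_le_mul_of_nonneg_left ?_ K.2)
    simp only [Prod.mk_sub_mk, Prod.norm_def, max_le_iff]
    have := norm_nonneg (a - a')
    have := norm_nonneg (b - b')
    have := norm_nonneg (c - c')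
    have := norm_nonneg (d - d')
    refine ⟨by linarith, by linarith, by linarith, by linarith⟩
  have hK0 : (0 : ℝ) ≤ K := K.2
  have h0 : 0 < min r 1 := lt_min hr one_pos
  refine ⟨min r 1, |v| + 4 * K, h0, fun p hp => ?_, fun h1 h2 => (hlip h1 h2).trans
    (mul_le_mul_of_nonneg_right (by linarith [abs_nonneg v]) (by positivity)), ?_, ?_⟩
  · exact (hb p (ball_subset_ball (min_le_left _ _) hp)).1.1.differentiableAt.differentiableWithinAt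
  · intro a b c d h1
    have h2 : In (min r 1) 0 0 0 0 := by simp [In, h0]
    have h3 := hlip h1 h2
    have h4 : f 0 0 0 0 = v := h.val
    obtain ⟨ha, hb', hc, hd⟩ := h1.mono (min_le_right _ _)
    rw [h4] at h3
    simp only [sub_zero] at h3
    have h5 := norm_add_le (f a b c d - v) v
    rw [sub_add_cancel, Complex.norm_real, Real.norm_eq_abs] at h5
    nlinarith
  · intro a b c d h1 ha hb' hc hd
    exact (hb _ (hsub h1)).1.2 ⟨ha, hb', hc, hd⟩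

/-! ### The package of estimates -/

def F1 (ε η c Q : ℂ) : ℂ := Φ1 ε η c Q / Φ2 ε η c Q
def GG (ε η m s : ℂ) : ℂ := HH ε η m (1 + s)
def P5 (ε η m s : ℂ) : ℂ := Φ2 ε η (cP ε η m (1 + s)) (QP ε η m (1 + s)) /
  (ST ε η (m * (1 + s) ^ 2) + (1 + s) * SB m)

structure Pack (r L : ℝ) : Prop where
  r_pos : 0 < r
  r_le : r ≤ 1 / 1000
  L_ge : 1 ≤ L
  nF : Nice F1 r L
  nb : Nice b0 r L
  nA : Nice A0 r L
  nG : Nice GG r L
  n5 : Nice P5 r L
  v5 : P5 0 0 0 0 = Real.pi / 2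
  ne2 : ∀ {a b c d : ℂ}, In r a b c d → Φ2 a b c d ≠ 0
  ne5 : ∀ {a b c d : ℂ}, In r a b c d → P5 a b c d ≠ 0

lemma Gd.ne {f : ℂ → ℂ → ℂ → ℂ → ℂ} {v : ℝ}
    (h : Gd (fun p => f p.1 p.2.1 p.2.2.1 p.2.2.2) v) (hv : v ≠ 0) :
    ∃ r : ℝ, 0 < r ∧ ∀ {a b c d : ℂ}, In r a b c d → f a b c d ≠ 0 := by
  have h1 := h.an.continuousAt.eventually_ne (y := 0) (by rw [h.val]; exact_mod_cast hv)
  obtain ⟨r, hr, hb⟩ := Metric.eventually_nhds_iff_ball.mp h1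
  exact ⟨r, hr, fun h2 => hb _ h2.mem⟩

lemma exists_pack : ∃ r L, Pack r L := by
  have hθ : Gd (fun p => 1 + p.2.2.2) 1 := gd_γ Gd.c4
  obtain ⟨v1, h1⟩ := gd_Φ1 Gd.c1 Gd.c2 Gd.c3 Gd.c4
  have h2 := gd_Φ2 Gd.c1 Gd.c2 Gd.c3 Gd.c4
  obtain ⟨vb, hb⟩ := gd_b0 Gd.c1 Gd.c2 Gd.c3 Gd.c4
  obtain ⟨vA, hA⟩ := gd_A0 Gd.c1 Gd.c2 Gd.c3 Gd.c4
  obtain ⟨vG, hG⟩ := gd_HH Gd.c1 Gd.c2 Gd.c3 hθ
  have h5 : Gd (fun p => P5 p.1 p.2.1 p.2.2.1 p.2.2.2) (Real.pi / 2) :=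
    (gd_Φ2 Gd.c1 Gd.c2 (gd_cP Gd.c1 Gd.c2 Gd.c3 hθ) (gd_QP Gd.c1 Gd.c2 Gd.c3 hθ)).div
      (gd_Sg Gd.c1 Gd.c2 Gd.c3 hθ) two_ne_zero
  obtain ⟨r1, L1, p1, n1⟩ := Gd.nice (f := F1) (h1.div h2 Real.pi_ne_zero)
  obtain ⟨r2, L2, p2, n2⟩ := Gd.nice (f := b0) hb
  obtain ⟨r3, L3, p3, n3⟩ := Gd.nice (f := A0) hA
  obtain ⟨r4, L4, p4, n4⟩ := Gd.nice (f := GG) hG
  obtain ⟨r5, L5, p5, n5⟩ := Gd.nice h5
  obtain ⟨r6, p6, n6⟩ := Gd.ne (f := Φ2) h2 Real.pi_ne_zero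
  obtain ⟨r7, p7, n7⟩ := Gd.ne h5 (by positivity)
  obtain ⟨r, hr0, hr⟩ : ∃ r : ℝ, 0 < r ∧ r ≤ r1 ∧ r ≤ r2 ∧ r ≤ r3 ∧ r ≤ r4 ∧ r ≤ r5 ∧ r ≤ r6 ∧
      r ≤ r7 ∧ r ≤ 1 / 1000 :=
    ⟨min r1 (min r2 (min r3 (min r4 (min r5 (min r6 (min r7 (1 / 1000))))))), by positivity,
      by simp⟩
  obtain ⟨L, hL⟩ : ∃ L : ℝ, L1 ≤ L ∧ L2 ≤ L ∧ L3 ≤ L ∧ L4 ≤ L ∧ L5 ≤ L ∧ 1 ≤ L :=
    ⟨max L1 (max L2 (max L3 (max L4 (max L5 1)))), by simp⟩
  obtain ⟨a1, a2, a3, a4, a5, a6, a7, a8⟩ := hr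
  obtain ⟨b1, b2, b3, b4, b5, b6⟩ := hL
  refine ⟨r, L, hr0, a8, b6, n1.mono a1 b1, n2.mono a2 b2, n3.mono a3 b3, n4.mono a4 b4,
    n5.mono a5 b5, ?_, fun h => n6 (h.mono a6), fun h => n7 (h.mono a7)⟩
  simpa using h5.val

/-- The moment integral along the planes through the tips. -/
lemma b0_eq {ε η m s : ℂ} (h : P5 ε η m s ≠ 0) :
    b0 ε η (cP ε η m (1 + s)) (QP ε η m (1 + s)) = P5 ε η m s * (s - ε * GG ε η m s) := by
  have h1 : Φ2 ε η (cP ε η m (1 + s)) (QP ε η m (1 + s)) ≠ 0 := fun h1 => h (by simp [P5, h1])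
  have h2 : ST ε η (m * (1 + s) ^ 2) + (1 + s) * SB m ≠ 0 := fun h1 => h (by simp [P5, h1])
  have h3 : cP ε η m (1 + s) * (ST ε η (m * (1 + s) ^ 2) + (1 + s) * SB m) =
      -s + ε * ((-1 + uC η * ST ε η (m * (1 + s) ^ 2) / 2) / (1 + ε)) := by
    rw [cP, div_mul_cancel₀ _ h2]; ring
  rw [b0, P5, GG, HH]
  set c := cP ε η m (1 + s)
  set Q := QP ε η m (1 + s)
  set S := ST ε η (m * (1 + s) ^ 2) + (1 + s) * SB m
  set P := (-1 + uC η * ST ε η (m * (1 + s) ^ 2) / 2) / (1 + ε)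
  field_simp
  linear_combination (-Φ2 ε η c Q) * h3

end BaseCore

end

end Pool.Agent.Lib.MP_87c84d_gt
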