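import Pool.Agent.Lib.MP_87c84d_gt.BaseCore1

/-!
The first order expansion of the obstruction at `ε = 0`.
-/

namespace Pool.Agent.Lib.MP_87c84d_gt

open MeasureTheory Set Metric Filter Topology Base

noncomputable section

namespace BaseCore

/-- Value and derivative at the origin. -/
structure Jt (f : ℂ → ℂ) (v w : ℂ) : Prop where
  val : f 0 = v
  der : HasDerivAt f w 0

namespace Jt

variable {f g : ℂ → ℂ} {v w v' w' : ℂ}

lemma cv (h : Jt f v w) (hv : v = v') (hw : w = w') : Jt f v' w' := hv ▸ hw ▸ h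

lemma cst (z : ℂ) : Jt (fun _ => z) z 0 := ⟨rfl, hasDerivAt_const _ _⟩

lemma id : Jt (fun m => m) 0 1 := ⟨rfl, hasDerivAt_id _⟩

lemma add (hf : Jt f v w) (hg : Jt g v' w') : Jt (fun m => f m + g m) (v + v') (w + w') :=
  ⟨by simp [hf.val, hg.val], hf.der.add hg.der⟩

lemma sub (hf : Jt f v w) (hg : Jt g v' w') : Jt (fun m => f m - g m) (v - v') (w - w') :=
  ⟨by simp [hf.val, hg.val], hf.der.sub hg.der⟩

lemma mul (hf : Jt f v w) (hg : Jt g v' w') :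
    Jt (fun m => f m * g m) (v * v') (w * v' + v * w') :=
  ⟨by simp [hf.val, hg.val], hf.val ▸ hg.val ▸ hf.der.mul hg.der⟩

lemma div (hf : Jt f v w) (hg : Jt g v' w') (h : v' ≠ 0) :
    Jt (fun m => f m / g m) (v / v') ((w * v' - v * w') / v' ^ 2) :=
  ⟨by simp [hf.val, hg.val], hf.val ▸ hg.val ▸ hf.der.div hg.der (hg.val ▸ h)⟩

lemma sqrt (hf : Jt f v w) {t : ℝ} (ht : 0 < t) (h : v = (t : ℂ) ^ 2) :
    Jt (fun m => Complex.sqrt (f m)) t (w / (2 * t)) := by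
  have h1 : Complex.sqrt (f 0) = t := by
    rw [hf.val, h, ← Complex.ofReal_pow, sqrt_ofReal (by positivity), Real.sqrt_sq ht.le]
  refine ⟨h1, h1 ▸ HasDerivAt.csqrt hf.der (slit_of_re_pos ?_)⟩
  rw [hf.val, h, ← Complex.ofReal_pow, Complex.ofReal_re]
  positivity

lemma casin (hf : Jt f aR w) : Jt (fun m => casin (f m)) (Real.pi / 3) (2 * w) := by
  have h1 : Complex.sqrt (1 - (aR : ℂ) ^ 2) = ((1 / 2 : ℝ) : ℂ) := by
    have : 1 - (aR : ℂ) ^ 2 = (((1 / 2) ^ 2 : ℝ) : ℂ) := by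
      rw [← Complex.ofReal_pow, aR_sq]; push_cast; norm_num
    rw [this, sqrt_ofReal (by positivity), Real.sqrt_sq (by norm_num)]
  refine ⟨?_, ?_⟩
  · simp only [hf.val]
    rw [casin_ofReal abs_aR.le, arcsin_aR]; push_cast; rfl
  · have h2 := hasDerivAt_casin abs_aR
    rw [h1, ← hf.val] at h2
    refine hasDerivAt_of_eq (h2.comp 0 hf.der) (fun _ => rfl) ?_
    push_cast; ring

end Jt

def D0 (m : ℂ) : ℂ := Complex.sqrt (1 / (1 + m))
def R0 (m : ℂ) : ℂ := Complex.sqrt (1 + m)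
def C0 (m : ℂ) : ℂ := casin (aR / D0 m)
def V0 (m : ℂ) : ℂ := Complex.sqrt (1 - (aR : ℂ) ^ 2 - m * (aR : ℂ) ^ 2)

lemma GG_zero (η m : ℂ) : GG 0 η m 0 = (-1 + uC η * (1 / D0 m) / 2) - (1 / D0 m + 1 / D0 m) *
    (-hC η * V0 m / ((1 + m) * (1 + m)) + (hC η - 1) / ((1 + m) * (1 + m)) +
      uC η * (((Real.pi : ℂ) / 2 - C0 m) / R0 m) / (2 * (1 + m))) /
    (((Real.pi : ℂ) / 2 - C0 m) / R0 m / (1 + m) + C0 m / R0 m / (1 + m) +
      (Real.pi : ℂ) / 2 / R0 m / (1 + m)) := by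
  have hk : kC 0 η = 1 := by simp [kC]
  have hR : R2C 0 η = 1 := by simp [R2C, hk]
  have hg : gM 0 η = 1 := by simp [gM]
  have hST : ST 0 η (m * (1 + 0) ^ 2) = 1 / D0 m := by simp [Base.ST, hR, D0]
  have hSB : SB m = 1 / D0 m := rfl
  have hc : cP 0 η m (1 + 0) = 0 := by simp [cP]
  have hQ : QP 0 η m (1 + 0) = m := by rw [QP, YP, hc]; simp
  have hlT : lT 0 m = 1 + m := by simp [lT]
  have hlM : lM 0 η m = 1 + m := by simp [lM, hg]
  have hlB : lB m = 1 + m := rfl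
  have hyT : yT 0 η 0 m = 0 := by simp [yT]
  have hyM : yM 0 η 0 m = 0 := by simp [yM]
  have hyB : yB 0 m = 0 := by simp [yB]
  have hdT : dT 0 η 0 m = D0 m := by rw [dT, hyT, hk, hlT, D0]; simp
  have hdM : dM 0 η 0 m = D0 m := by rw [dM, hyM, hlM, D0]; simp
  have hT : ΘT 0 η 0 m = ((Real.pi : ℂ) / 2 - C0 m) / R0 m := by
    rw [ΘT, hyT, hdT, hlT, sub_zero]; rfl
  have hM : ΘM 0 η 0 m = C0 m / R0 m := by
    rw [ΘM, hyM, hdM, hlM, sub_zero, neg_zero, zero_div, casin_zero, sub_zero]; rfl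
  have hB : ΘB 0 m = (Real.pi : ℂ) / 2 / R0 m := by
    rw [ΘB, hyB, hlB, neg_zero, zero_div, casin_zero, zero_add]; rfl
  have hWa : Wa 0 η 0 m = V0 m := by rw [Wa, hg, one_mul, sub_zero]; rfl
  have hW0 : W0 0 m = 1 := by simp [W0]
  rw [GG, HH, hST, hSB, hc, hQ, Φ1, Φ2, hT, hM, hB, hWa, hW0, hlT, hlM, hlB, hg]
  simp only [add_zero, div_one, one_mul, mul_one]

lemma jt_GG (η : ℂ) : Jt (fun m => GG 0 η m 0) (-η / 42) (1 / 42) := by
  have hl : Jt (fun m => 1 + m) 1 1 := ((Jt.cst 1).add Jt.id).cv (by simp) (by simp)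
  have hD : Jt D0 1 (-1 / 2) :=
    (((Jt.cst 1).div hl one_ne_zero).sqrt (t := 1) one_pos (by simp)).cv (by simp) (by simp)
  have hR : Jt R0 1 (1 / 2) := (hl.sqrt (t := 1) one_pos (by simp)).cv (by simp) (by simp)
  have ha : (aR : ℂ) ^ 2 = 3 / 4 := by rw [← Complex.ofReal_pow, aR_sq]; push_cast; rfl
  have hV : Jt V0 (1 / 2) (-3 / 4) :=
    (((Jt.cst (1 - (aR : ℂ) ^ 2)).sub (Jt.id.mul (Jt.cst ((aR : ℂ) ^ 2)))).sqrt (t := 1 / 2)
      (by norm_num) (by rw [ha]; push_cast; norm_num)).cv (by simp)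
      (by rw [ha]; push_cast; norm_num)
  have hC : Jt C0 (Real.pi / 3) aR :=
    (Jt.casin (((Jt.cst (aR : ℂ)).div hD one_ne_zero).cv (w' := aR / 2) (by simp)
      (by ring))).cv rfl (by ring)
  have hS : Jt (fun m => 1 / D0 m) 1 (1 / 2) :=
    ((Jt.cst 1).div hD one_ne_zero).cv (by simp) (by ring)
  have hll : Jt (fun m => (1 + m) * (1 + m)) 1 2 := (hl.mul hl).cv (by simp) (by norm_num)
  have hT : Jt (fun m => ((Real.pi : ℂ) / 2 - C0 m) / R0 m) (Real.pi / 6)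
      (-aR - Real.pi / 12) :=
    (((Jt.cst ((Real.pi : ℂ) / 2)).sub hC).div hR one_ne_zero).cv (by ring) (by ring)
  have h1 := (((((Jt.cst (-Base.hC η)).mul hV).div hll one_ne_zero).add
    ((Jt.cst (Base.hC η - 1)).div hll one_ne_zero)).add (((Jt.cst (uC η)).mul hT).div
      ((Jt.cst 2).mul hl) (by norm_num))).cv
    (v' := Base.hC η / 2 - 1 + uC η * Real.pi / 12)
    (w' := -Base.hC η / 4 + 2 - uC η * aR / 2 - uC η * Real.pi / 8) (by ring) (by ring)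
  have h2 := (((hT.div hl one_ne_zero).add ((hC.div hR one_ne_zero).div hl one_ne_zero)).add
    (((Jt.cst ((Real.pi : ℂ) / 2)).div hR one_ne_zero).div hl one_ne_zero)).cv
    (v' := Real.pi) (w' := -(3 / 2) * Real.pi) (by ring) (by ring)
  have hp : (Real.pi : ℂ) ≠ 0 := by exact_mod_cast Real.pi_ne_zero
  have h3 := ((Jt.cst (-1)).add (((Jt.cst (uC η)).mul hS).div (Jt.cst 2) two_ne_zero)).sub
    (((hS.add hS).mul h1).div h2 hp)
  have hden : (1 / 3 - (aR : ℂ) / (Real.pi : ℂ)) ≠ 0 := by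
    have := Complex.ofReal_ne_zero.mpr den_ne
    push_cast at this
    exact this
  have hu : uC η * (1 / 3 - (aR : ℂ) / (Real.pi : ℂ)) = 31 / 21 - 3 / (Real.pi : ℂ) - η / 28 := by
    rw [uC, div_mul_cancel₀ _ hden]
  have hh : Base.hC η = (Real.pi : ℂ) * (uC η / 3 - 1 + 2 / (Real.pi : ℂ) + η / 42) := rfl
  rw [funext (GG_zero η)]
  refine h3.cv ?_ ?_
  · rw [hh]; field_simp; ring
  · rw [hh]
    field_simp at hu ⊢
    linear_combination (-768 / 7) * hu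

end BaseCore

end

end Pool.Agent.Lib.MP_87c84d_gt
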