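import Pool.Agent.Lib.MP_87c84d_gt.CapF

/-!
The explicit base body (three quadric pieces), closed forms of its section integrals, and the
statements of the steps that verify `Data.An` and `Data.Ge` for it.
-/

namespace Pool.Agent.Lib.MP_87c84d_gt

open MeasureTheory Set Metric Filter Topology

noncomputable section

namespace Base

/-! Real parameters; `ε` is the size of the perturbation of the ball. -/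

def aR : ℝ := √3 / 2
def uR (η : ℝ) : ℝ := (31 / 21 - 3 / Real.pi - η / 28) / (1 / 3 - aR / Real.pi)
def hR (η : ℝ) : ℝ := Real.pi * (uR η / 3 - 1 + 2 / Real.pi + η / 42)
def kR (ε η : ℝ) : ℝ := 1 + ε * (hR η * aR ^ 2 - uR η * aR)
def R2R (ε η : ℝ) : ℝ := kR ε η * (1 + ε) + (ε * uR η) ^ 2 / 4
def z0R (ε η : ℝ) : ℝ := ε * uR η / (2 * (1 + ε))

/-- squared radius of the base at height `z` -/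
def xi (ε η z : ℝ) : ℝ := 1 - z ^ 2 + ε * ((hR η - 1) * max z 0 ^ 2 +
  (uR η - 2 * hR η * aR) * max (z - aR) 0 - hR η * max (z - aR) 0 ^ 2)

open Classical in
def dxi (ε η z : ℝ) : ℝ := -2 * z + ε * (2 * (hR η - 1) * max z 0 +
  (if aR ≤ z then uR η - 2 * hR η * aR else 0) - 2 * hR η * max (z - aR) 0)

/-! Complex closed forms. -/

def uC (η : ℂ) : ℂ := (31 / 21 - 3 / (Real.pi : ℂ) - η / 28) / (1 / 3 - (aR : ℂ) / (Real.pi : ℂ))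
def hC (η : ℂ) : ℂ := (Real.pi : ℂ) * (uC η / 3 - 1 + 2 / (Real.pi : ℂ) + η / 42)
def kC (ε η : ℂ) : ℂ := 1 + ε * (hC η * (aR : ℂ) ^ 2 - uC η * (aR : ℂ))
def R2C (ε η : ℂ) : ℂ := kC ε η * (1 + ε) + (ε * uC η) ^ 2 / 4
def gM (ε η : ℂ) : ℂ := 1 - ε * (hC η - 1)

lemma uC_ofReal (η : ℝ) : uC η = uR η := by simp [uC, uR]
lemma hC_ofReal (η : ℝ) : hC η = hR η := by simp [hC, hR, uC_ofReal]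
lemma kC_ofReal (ε η : ℝ) : kC ε η = kR ε η := by simp [kC, kR, uC_ofReal, hC_ofReal]
lemma R2C_ofReal (ε η : ℝ) : R2C ε η = R2R ε η := by simp [R2C, R2R, uC_ofReal, kC_ofReal]

def casin (w : ℂ) : ℂ := -Complex.I * Complex.log (Complex.I * w + Complex.sqrt (1 - w ^ 2))

def lT (ε Q : ℂ) : ℂ := 1 + ε + Q
def lM (ε η Q : ℂ) : ℂ := gM ε η + Q
def lB (Q : ℂ) : ℂ := 1 + Q
def yT (ε η c Q : ℂ) : ℂ := (ε * uC η + 2 * Q * c) / (2 * lT ε Q)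
def yM (ε η c Q : ℂ) : ℂ := Q * c / lM ε η Q
def yB (c Q : ℂ) : ℂ := Q * c / lB Q
def dT (ε η c Q : ℂ) : ℂ := Complex.sqrt ((kC ε η - Q * c ^ 2) / lT ε Q + yT ε η c Q ^ 2)
def dM (ε η c Q : ℂ) : ℂ := Complex.sqrt ((1 - Q * c ^ 2) / lM ε η Q + yM ε η c Q ^ 2)
def dB (c Q : ℂ) : ℂ := Complex.sqrt ((1 - Q * c ^ 2) / lB Q + yB c Q ^ 2)
def ΘT (ε η c Q : ℂ) : ℂ :=
  ((Real.pi : ℂ) / 2 - casin (((aR : ℂ) - yT ε η c Q) / dT ε η c Q)) / Complex.sqrt (lT ε Q)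
def ΘM (ε η c Q : ℂ) : ℂ :=
  (casin (((aR : ℂ) - yM ε η c Q) / dM ε η c Q) - casin (-yM ε η c Q / dM ε η c Q)) /
    Complex.sqrt (lM ε η Q)
def ΘB (c Q : ℂ) : ℂ := (casin (-yB c Q / dB c Q) + (Real.pi : ℂ) / 2) / Complex.sqrt (lB Q)
def Wa (ε η c Q : ℂ) : ℂ := Complex.sqrt (1 - gM ε η * (aR : ℂ) ^ 2 - Q * ((aR : ℂ) - c) ^ 2)
def W0 (c Q : ℂ) : ℂ := Complex.sqrt (1 - Q * c ^ 2)
def Φ1 (ε η c Q : ℂ) : ℂ :=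
  -hC η * Wa ε η c Q / (lT ε Q * lM ε η Q) + (hC η - 1) * W0 c Q / (lM ε η Q * lB Q) +
    uC η * ΘT ε η c Q / (2 * lT ε Q)
def Φ2 (ε η c Q : ℂ) : ℂ :=
  (1 + ε) * ΘT ε η c Q / lT ε Q + gM ε η * ΘM ε η c Q / lM ε η Q + ΘB c Q / lB Q
/-- closed form of the moment integral -/
def b0 (ε η c Q : ℂ) : ℂ := ε * Φ1 ε η c Q - c * Φ2 ε η c Q
/-- closed form of the area integral -/
def A0 (ε η c Q : ℂ) : ℂ :=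
  (yT ε η c Q - yM ε η c Q) * Wa ε η c Q + (yM ε η c Q - yB c Q) * W0 c Q +
    lT ε Q * dT ε η c Q ^ 2 * ΘT ε η c Q + lM ε η Q * dM ε η c Q ^ 2 * ΘM ε η c Q +
    lB Q * dB c Q ^ 2 * ΘB c Q

def ST (ε η m : ℂ) : ℂ := 1 / Complex.sqrt (R2C ε η / (1 + (1 + ε) * m))
def SB (m : ℂ) : ℂ := 1 / Complex.sqrt (1 / (1 + m))
def cP (ε η m θ : ℂ) : ℂ :=
  ((1 - θ) + ε * (-1 + uC η * ST ε η (m * θ ^ 2) / 2) / (1 + ε)) / (ST ε η (m * θ ^ 2) + θ * SB m)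
def YP (ε η m θ : ℂ) : ℂ := 1 + cP ε η m θ * SB m
def QP (ε η m θ : ℂ) : ℂ := m / YP ε η m θ ^ 2
def HH (ε η m θ : ℂ) : ℂ :=
  (-1 + uC η * ST ε η (m * θ ^ 2) / 2) / (1 + ε) - (ST ε η (m * θ ^ 2) + θ * SB m) *
    Φ1 ε η (cP ε η m θ) (QP ε η m θ) / Φ2 ε η (cP ε η m θ) (QP ε η m θ)

/-- The data, with `ε = η ^ 2`. -/
def mk (η m1 : ℝ) (th M2 : ℂ → ℂ) : Data where
  m := m1
  t := η ^ 2 * m1 / 21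
  hT := z0R (η ^ 2) η + R2R (η ^ 2) η / √(R2R (η ^ 2) η / (1 + (1 + η ^ 2) * m1)) / (1 + η ^ 2)
  hB := √(1 + m1)
  τT := fun ξ => (R2R (η ^ 2) η : ℂ) / (1 + (1 + (η : ℂ) ^ 2) * (m1 * (1 - ξ)))
  τB := fun ξ => 1 / (1 + m1 * (1 - ξ))
  ξ0 := xi (η ^ 2) η
  dξ0 := dxi (η ^ 2) η
  zB := -√(1 / (1 + m1))
  zT := z0R (η ^ 2) η + √(R2R (η ^ 2) η / (1 + (1 + η ^ 2) * m1)) / (1 + η ^ 2)
  th0 := fun x => th (m1 * (1 - x))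
  M2 := M2
  a := aR
  κ := m1 / 100
  Q1 := (QP (η ^ 2) η m1 1).re
  Qs := 3 / 2 * m1

structure Small (η K r0 : ℝ) : Prop where
  η_pos : 0 < η
  K_ge : 1 ≤ K
  r0_pos : 0 < r0
  r0_le : r0 ≤ 1 / 1000
  small : K * η ≤ r0 / 10 ^ 12

/-- The analytic core. -/
structure Core (η K r0 m1 : ℝ) (th ψ M2 : ℂ → ℂ) : Prop where
  m_ge : η / 2 ≤ m1
  m_le : m1 ≤ 2 * η
  th_hol : DifferentiableOn ℂ th (ball 0 r0)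
  th_real : ∀ m ∈ ball (0 : ℂ) r0, m.im = 0 → (th m).im = 0
  th_le : ∀ m ∈ ball (0 : ℂ) r0, ‖th m - 1‖ ≤ K * η ^ 2
  ψ_hol : DifferentiableOn ℂ ψ (ball 0 3)
  ψ_real : ∀ x ∈ ball (0 : ℂ) 3, x.im = 0 → (ψ x).im = 0
  ψ_le : ∀ x ∈ ball (0 : ℂ) 3, ‖ψ x - 1‖ ≤ K * η
  ψ_eq : ∀ x ∈ ball (0 : ℂ) 3, 1 - th (m1 * (1 - x)) ^ 2 = ((η ^ 2 * m1 / 21 : ℝ) : ℂ) * x * ψ x
  b_est : ∀ m ∈ ball (0 : ℂ) r0, ∀ θ ∈ ball (1 : ℂ) r0,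
    ‖b0 (η ^ 2) η (cP (η ^ 2) η m θ) (QP (η ^ 2) η m θ) - Real.pi / 2 * (θ - th m)‖ ≤
      K * (η + ‖m‖ + ‖θ - 1‖) * ‖θ - th m‖
  b_hol : DifferentiableOn ℂ (fun p : ℂ × ℂ => b0 (η ^ 2) η p.1 p.2) (ball 0 r0)
  A_hol : DifferentiableOn ℂ (fun p : ℂ × ℂ => A0 (η ^ 2) η p.1 p.2) (ball 0 r0)
  M2_hol : DifferentiableOn ℂ M2 (ball 0 r0)
  M2_bdd : ∀ Q ∈ ball (0 : ℂ) r0, ‖M2 Q‖ ≤ K
  M2_real : ∀ Q ∈ ball (0 : ℂ) r0, Q.im = 0 → (M2 Q).im = 0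
  M2_eq : ∀ c ∈ ball (0 : ℂ) r0, ∀ Q ∈ ball (0 : ℂ) r0, b0 (η ^ 2) η c Q = 0 →
    M2 Q = A0 (η ^ 2) η c Q

/-- Closed forms of the cap functions of the base. -/
structure Closed (η m1 : ℝ) (D : Data) : Prop where
  okT : (D.capT 0).OK (ball 0 (1 / (1000 * m1)))
  okB : (D.capB 0).OK (ball 0 (1 / (1000 * m1)))
  sgT : ∀ ξ : ℂ, (D.capT 0).sg ξ = (ST (η ^ 2) η (m1 * (1 - ξ)))⁻¹
  sgB : ∀ ξ : ℂ, (D.capB 0).sg ξ = (SB (m1 * (1 - ξ)))⁻¹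
  ST_sq : ∀ m : ℂ, ‖m‖ ≤ 1 / 100 →
    (R2R (η ^ 2) η : ℂ) * ST (η ^ 2) η m ^ 2 = 1 + (1 + (η : ℂ) ^ 2) * m ∧
      ‖ST (η ^ 2) η m - 1‖ ≤ 2 * ‖m‖ + 20 * η ^ 2
  SB_sq : ∀ m : ℂ, ‖m‖ ≤ 1 / 100 → SB m ^ 2 = 1 + m ∧ ‖SB m - 1‖ ≤ 2 * ‖m‖
  ZT : ∀ ξ ∈ ball (0 : ℂ) (1 / (1000 * m1)), (D.capT 0).ZZ ξ =
    z0R (η ^ 2) η + (ST (η ^ 2) η (m1 * (1 - ξ)))⁻¹ / (1 + (η : ℂ) ^ 2)
  ZB : ∀ ξ ∈ ball (0 : ℂ) (1 / (1000 * m1)), (D.capB 0).ZZ ξ = (SB (m1 * (1 - ξ)))⁻¹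
  zeT : ∀ c : ℂ, ∀ ξ ∈ ball (0 : ℂ) (1 / (1000 * m1)), (D.capT 0).ze c ξ =
    1 / (1 + (η : ℂ) ^ 2) + (z0R (η ^ 2) η - c) * ST (η ^ 2) η (m1 * (1 - ξ))
  zeB : ∀ c : ℂ, ∀ ξ ∈ ball (0 : ℂ) (1 / (1000 * m1)), (D.capB 0).ze c ξ =
    1 - c * SB (m1 * (1 - ξ))
  ze1T : ∀ c : ℂ, ∀ ξ ∈ ball (0 : ℂ) (1 / (1000 * m1)), (D.capT 0).ze1 c ξ =
    -(m1 * (z0R (η ^ 2) η - c) * (1 + (η : ℂ) ^ 2) /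
      (2 * R2R (η ^ 2) η * ST (η ^ 2) η (m1 * (1 - ξ))))
  ze1B : ∀ c : ℂ, ∀ ξ ∈ ball (0 : ℂ) (1 / (1000 * m1)), (D.capB 0).ze1 c ξ =
    m1 * c / (2 * SB (m1 * (1 - ξ)))
  plane : ∀ x θ : ℂ, ‖x‖ ≤ 2 → ‖θ - 1‖ ≤ 1 / 100 →
    D.YY 0 x θ = YP (η ^ 2) η (m1 * (1 - x)) θ ∧ D.cc 0 x θ = cP (η ^ 2) η (m1 * (1 - x)) θ ∧
    D.QQ 0 x θ = QP (η ^ 2) η (m1 * (1 - x)) θ
  cP_le : ∀ m θ : ℂ, ‖m‖ ≤ 1 / 200 → ‖θ - 1‖ ≤ 1 / 100 →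
    ‖cP (η ^ 2) η m θ‖ ≤ ‖θ - 1‖ + 10 * η ^ 2
  cP_hol : ∀ (P : Set ℂ) (m θ : ℂ → ℂ), DifferentiableOn ℂ m P → DifferentiableOn ℂ θ P →
    (∀ w ∈ P, ‖m w‖ ≤ 1 / 200 ∧ ‖θ w - 1‖ ≤ 1 / 100) →
    DifferentiableOn ℂ (fun w => cP (η ^ 2) η (m w) (θ w)) P ∧
    DifferentiableOn ℂ (fun w => YP (η ^ 2) η (m w) (θ w)) P ∧
    DifferentiableOn ℂ (fun w => QP (η ^ 2) η (m w) (θ w)) P

/-- Numerical bounds for the parameters. -/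
structure Num (η : ℝ) : Prop where
  a1 : 866 / 1000 ≤ aR
  a2 : aR ≤ 867 / 1000
  a_sq : aR ^ 2 = 3 / 4
  u1 : 8 ≤ uR η
  u2 : uR η ≤ 10
  h1 : 7 ≤ hR η
  h2 : hR η ≤ 10
  ridge : uR η ≤ 2 * hR η * aR

/-- Elementary facts about the profile. -/
structure XiFacts (ε η : ℝ) : Prop where
  cont : Continuous (xi ε η)
  low : ∀ z : ℝ, z ≤ 0 → xi ε η z = 1 - z ^ 2
  midf : ∀ z ∈ Icc 0 aR, xi ε η z = 1 - (1 - ε * (hR η - 1)) * z ^ 2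
  top : ∀ z : ℝ, aR ≤ z → xi ε η z = kR ε η + ε * uR η * z - (1 + ε) * z ^ 2
  dlow : ∀ z : ℝ, z ≤ 0 → dxi ε η z = -2 * z
  dtop : ∀ z : ℝ, aR ≤ z → dxi ε η z = ε * uR η - 2 * (1 + ε) * z
  sup : ∀ z z0 : ℝ, xi ε η z ≤ xi ε η z0 + dxi ε η z0 * (z - z0)
  der : ∀ z : ℝ, z ≠ aR → HasDerivAt (xi ε η) (dxi ε η z) z
  dcont1 : ContinuousOn (dxi ε η) (Iio aR)
  dcont2 : ContinuousOn (dxi ε η) (Ioi aR)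
  dbdd : ∀ z ∈ Icc (-2 : ℝ) 2, |dxi ε η z| ≤ 5
  ball : ∀ z : ℝ, |z| ≤ 11 / 10 → 1 - z ^ 2 ≤ xi ε η z ∧ xi ε η z ≤ 1 - z ^ 2 + 20 * ε
  lt_one : ∀ z : ℝ, z ≠ 0 → xi ε η z < 1
  zone : ∀ z ∈ Ioc 0 aR, 1 - z ^ 2 < xi ε η z
  mid : ∀ (zB zT : ℝ) (c Q : ℂ), -(11 / 10) ≤ zB → zB ≤ -(9 / 10) → 9 / 10 ≤ zT → zT ≤ 11 / 10 →
    ‖c‖ ≤ 1 / 8 → ‖Q‖ ≤ 1 / 50 → 0 < (WW (xi ε η) c Q zT).re → 0 < (WW (xi ε η) c Q zB).re →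
    MidOK (xi ε η) zB zT c Q

end Base

open Base

/-- B0: numerical bounds and the profile. -/
def StmtXi : Prop := ∀ ε η : ℝ, 0 < ε → ε ≤ 1 / 1000 → 0 ≤ η → η ≤ 1 / 1000 →
  Num η ∧ XiFacts ε η

/-- B1: the analytic core. -/
def StmtCore : Prop := ∃ K r0 : ℝ, 1 ≤ K ∧ 0 < r0 ∧ r0 ≤ 1 / 1000 ∧ ∀ η : ℝ, Small η K r0 →
  ∃ (m1 : ℝ) (th ψ M2 : ℂ → ℂ), Core η K r0 m1 th ψ M2

/-- B2: closed forms. -/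
def StmtClosed : Prop := ∀ (η m1 : ℝ) (th M2 : ℂ → ℂ), 0 < η → η ≤ 1 / 10 ^ 6 → 0 < m1 →
  m1 ≤ 2 * η → Closed η m1 (mk η m1 th M2)

/-- B3: invariance of the triangles. -/
def StmtInv : Prop := ∀ (t : ℝ) (θ ψ : ℂ → ℂ), 0 < t → t ≤ 1 / 100 →
  DifferentiableOn ℂ ψ (ball 0 3) → (∀ x ∈ ball (0 : ℂ) 3, x.im = 0 → (ψ x).im = 0) →
  (∀ x ∈ ball (0 : ℂ) 3, ‖ψ x - 1‖ ≤ 1 / 1000) →
  (∀ x ∈ U (1 / 4), 1 - θ x ^ 2 = t * x * ψ x ∧ ‖θ x - 1‖ ≤ 1 / 200) →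
  ∀ s ∈ Icc (1 / 8 : ℝ) (1 / 4), ∀ x ∈ U s, ∀ d : ℂ, ‖d‖ ≤ t / 1000 * ‖x‖ ^ 2 →
    ph x (θ x + d) ∈ U s ∧ ‖ph x (θ x + d) - x‖ ≤ ‖x‖ / 10

/-- B4: elementary analytic facts. -/
def StmtAn0 : Prop := ∀ (η K r0 m1 : ℝ) (th ψ M2 : ℂ → ℂ), Small η K r0 →
  Core η K r0 m1 th ψ M2 → (mk η m1 th M2).An0 (1 / (1000 * m1))

/-- B5: contraction, gauge and slope estimates. -/
def StmtCon : Prop := ∀ (η K r0 m1 : ℝ) (th ψ M2 : ℂ → ℂ), Small η K r0 →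
  Core η K r0 m1 th ψ M2 →
  (∀ x ∈ U (1 / 4), ∀ ξ ∈ ball (0 : ℂ) (1 / (1000 * m1)),
    ‖((mk η m1 th M2).capT 0).ze1 ((mk η m1 th M2).cc 0 x ((mk η m1 th M2).th0 x)) ξ‖ ≤
      20 * K * η ^ 2 * m1 ∧
    ‖((mk η m1 th M2).capB 0).ze1 (-(mk η m1 th M2).cc 0 x ((mk η m1 th M2).th0 x)) ξ‖ ≤
      20 * K * η ^ 2 * m1) ∧
  (∀ x ∈ U (1 / 4), ‖(mk η m1 th M2).XiG 0 x ((mk η m1 th M2).th0 x)‖ ≤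
    1 - (mk η m1 th M2).t / 2) ∧
  (∀ x ∈ U (1 / 4), m1 / 2 ≤
    ‖deriv (fun x => (mk η m1 th M2).QQ 0 x ((mk η m1 th M2).th0 x)) x‖)

/-- B6: evaluation of the section integrals of the base. -/
def StmtQuad : Prop := ∀ ε η c Q zb zt : ℝ, 0 < ε → ε ≤ 1 / 1000 → 0 ≤ η → η ≤ 1 / 1000 →
  |c| ≤ 1 / 8 → 0 ≤ Q → Q ≤ 1 / 50 → zb < 0 → aR < zt →
  xi ε η zb - Q * (zb - c) ^ 2 = 0 → xi ε η zt - Q * (zt - c) ^ 2 = 0 →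
  (∀ z ∈ Ioo zb zt, 0 < xi ε η z - Q * (z - c) ^ 2) ∧
  IntervalIntegrable (fun z => 1 / √(xi ε η z - Q * (z - c) ^ 2)) volume zb zt ∧
  ((∫ z in zb..zt, (z - c) / √(xi ε η z - Q * (z - c) ^ 2) : ℝ) : ℂ) = b0 ε η c Q ∧
  ((∫ z in zb..zt, 2 * √(xi ε η z - Q * (z - c) ^ 2) : ℝ) : ℂ) = A0 ε η c Q

/-- B7: the machine reproduces the closed forms. -/
def StmtIdent : Prop := ∀ (η K r0 m1 : ℝ) (th ψ M2 : ℂ → ℂ), Small η K r0 →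
  Core η K r0 m1 th ψ M2 →
  (∀ x ∈ U (1 / 4), ∀ d : ℂ, ‖d‖ ≤ (mk η m1 th M2).rho * ‖x‖ ^ 2 →
    ‖(mk η m1 th M2).bb 0 x ((mk η m1 th M2).th0 x + d) - Real.pi / 2 * d‖ ≤
      Real.pi / 32 * ‖d‖) ∧
  (∀ x ∈ U (1 / 4), (mk η m1 th M2).aa 0 x ((mk η m1 th M2).th0 x) =
    (mk η m1 th M2).M2 ((mk η m1 th M2).QQ 0 x ((mk η m1 th M2).th0 x)))

/-- B8: geometric facts. -/
def StmtGe : Prop := ∀ (η K r0 m1 : ℝ) (th ψ M2 : ℂ → ℂ), Small η K r0 →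
  Core η K r0 m1 th ψ M2 → (mk η m1 th M2).Ge

end

end Pool.Agent.Lib.MP_87c84d_gt
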