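import Pool.Agent.Lib.MP_87c84d_gt.BaseDefs

/-!
Real geometric facts about the explicit base body.
-/

namespace Pool.Agent.Lib.MP_87c84d_gt

open MeasureTheory Set Metric Filter Topology Base

noncomputable section

namespace BaseGe

/-! Real closed forms. -/

def sT (η μ : ℝ) : ℝ := √(R2R (η ^ 2) η / (1 + (1 + η ^ 2) * μ))
def sB (μ : ℝ) : ℝ := √(1 / (1 + μ))
def cR (η μ θ : ℝ) : ℝ :=
  ((1 - θ) + η ^ 2 * (-1 + uR η * (1 / sT η (μ * θ ^ 2)) / 2) / (1 + η ^ 2)) /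
    (1 / sT η (μ * θ ^ 2) + θ * (1 / sB μ))
def YR (η μ θ : ℝ) : ℝ := 1 + cR η μ θ * (1 / sB μ)
def QR (η μ θ : ℝ) : ℝ := μ / YR η μ θ ^ 2

variable {η : ℝ}

lemma R2_bounds (hN : Num η) (h1 : η ^ 2 ≤ 1 / 10000) :
    999 / 1000 ≤ R2R (η ^ 2) η ∧ R2R (η ^ 2) η ≤ 1001 / 1000 := by
  obtain ⟨a1, a2, a_sq, u1, u2, h1', h2', -⟩ := hN
  have e0 : 0 ≤ η ^ 2 := sq_nonneg η
  set ε := η ^ 2 with hε
  have hua1 : 6 ≤ uR η * aR := by nlinarith
  have hua2 : uR η * aR ≤ 9 := by nlinarith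
  have hk1 : 1 - 4 * ε ≤ kR ε η := by
    unfold kR; rw [a_sq]; nlinarith
  have hk2 : kR ε η ≤ 1 + 2 * ε := by
    unfold kR; rw [a_sq]; nlinarith
  have hu : (ε * uR η) ^ 2 ≤ ε := by
    have : ε * uR η ≤ 1 / 1000 := by nlinarith
    have h3 : 0 ≤ ε * uR η := by nlinarith
    have h4 : ε * uR η ≤ 10 * ε := by nlinarith
    nlinarith
  have hu0 : 0 ≤ (ε * uR η) ^ 2 := sq_nonneg _
  unfold R2R
  constructor <;> nlinarith

lemma z0_bounds (hN : Num η) (h1 : η ^ 2 ≤ 1 / 10000) :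
    0 ≤ z0R (η ^ 2) η ∧ z0R (η ^ 2) η ≤ 1 / 1000 := by
  have e0 : 0 ≤ η ^ 2 := sq_nonneg η
  have u1 := hN.u1
  have u2 := hN.u2
  unfold z0R
  constructor
  · have : 0 ≤ uR η := by linarith
    positivity
  · rw [div_le_iff₀ (by positivity)]
    nlinarith

lemma sT_sq (hN : Num η) (h1 : η ^ 2 ≤ 1 / 10000) {μ : ℝ} (h0 : 0 ≤ μ) :
    sT η μ ^ 2 * (1 + (1 + η ^ 2) * μ) = R2R (η ^ 2) η := by
  have hR := (R2_bounds hN h1).1
  have hd : 0 < 1 + (1 + η ^ 2) * μ := by positivity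
  unfold sT
  rw [Real.sq_sqrt (div_nonneg (by linarith) hd.le)]
  field_simp

lemma sT_ge (hN : Num η) (h1 : η ^ 2 ≤ 1 / 10000) {μ : ℝ} (h0 : 0 ≤ μ) (h2 : μ ≤ 1 / 100) :
    99 / 100 ≤ sT η μ := by
  have hR := (R2_bounds hN h1).1
  have e0 : 0 ≤ η ^ 2 := sq_nonneg η
  have hd : 0 < 1 + (1 + η ^ 2) * μ := by positivity
  unfold sT
  apply Real.le_sqrt_of_sq_le
  rw [le_div_iff₀ hd]
  nlinarith

lemma sT_anti (hN : Num η) (h1 : η ^ 2 ≤ 1 / 10000) {μ ν : ℝ} (h0 : 0 ≤ μ) (h2 : μ ≤ ν) :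
    sT η ν ≤ sT η μ := by
  have hR := (R2_bounds hN h1).1
  have e0 : 0 ≤ η ^ 2 := sq_nonneg η
  have hd : 0 < 1 + (1 + η ^ 2) * μ := by positivity
  unfold sT
  apply Real.sqrt_le_sqrt
  apply div_le_div_of_nonneg_left (by linarith) hd
  nlinarith

lemma sB_sq {μ : ℝ} (h0 : 0 ≤ μ) : sB μ ^ 2 * (1 + μ) = 1 := by
  have hd : 0 < 1 + μ := by positivity
  unfold sB
  rw [Real.sq_sqrt (by positivity)]
  field_simp

lemma sB_ge {μ : ℝ} (h0 : 0 ≤ μ) (h2 : μ ≤ 1 / 100) : 99 / 100 ≤ sB μ := by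
  have hd : 0 < 1 + μ := by positivity
  unfold sB
  apply Real.le_sqrt_of_sq_le
  rw [le_div_iff₀ hd]
  nlinarith

lemma sB_anti {μ ν : ℝ} (h0 : 0 ≤ μ) (h2 : μ ≤ ν) : sB ν ≤ sB μ := by
  have hd : 0 < 1 + μ := by positivity
  unfold sB
  apply Real.sqrt_le_sqrt
  apply div_le_div_of_nonneg_left (by norm_num) hd
  linarith

lemma ST_ofReal (hN : Num η) (h1 : η ^ 2 ≤ 1 / 10000) {μ : ℝ} (h0 : 0 ≤ μ) :
    Base.ST ((η : ℂ) ^ 2) η μ = ((1 / sT η μ : ℝ) : ℂ) := by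
  have hR := (R2_bounds hN h1).1
  have hd : 0 < 1 + (1 + η ^ 2) * μ := by positivity
  have e1 : R2C ((η : ℂ) ^ 2) η / (1 + (1 + (η : ℂ) ^ 2) * μ) =
      ((R2R (η ^ 2) η / (1 + (1 + η ^ 2) * μ) : ℝ) : ℂ) := by
    rw [← Complex.ofReal_pow, R2C_ofReal]; push_cast; ring
  unfold Base.ST sT
  rw [e1, sqrt_ofReal (div_nonneg (by linarith) hd.le)]
  push_cast; ring

lemma SB_ofReal {μ : ℝ} (h0 : 0 ≤ μ) : SB μ = ((1 / sB μ : ℝ) : ℂ) := by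
  have e1 : (1 : ℂ) / (1 + μ) = ((1 / (1 + μ) : ℝ) : ℂ) := by push_cast; ring
  unfold SB sB
  rw [e1, sqrt_ofReal (by positivity)]
  push_cast; ring

lemma cP_ofReal (hN : Num η) (h1 : η ^ 2 ≤ 1 / 10000) {μ : ℝ} (h0 : 0 ≤ μ) (θ : ℝ) :
    cP ((η : ℂ) ^ 2) η μ θ = ((cR η μ θ : ℝ) : ℂ) := by
  have e1 : (μ : ℂ) * (θ : ℂ) ^ 2 = ((μ * θ ^ 2 : ℝ) : ℂ) := by push_cast; ring
  unfold cP cR
  rw [e1, ST_ofReal hN h1 (by positivity), SB_ofReal h0, uC_ofReal]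
  push_cast; ring

lemma YP_ofReal (hN : Num η) (h1 : η ^ 2 ≤ 1 / 10000) {μ : ℝ} (h0 : 0 ≤ μ) (θ : ℝ) :
    YP ((η : ℂ) ^ 2) η μ θ = ((YR η μ θ : ℝ) : ℂ) := by
  unfold YP YR
  rw [cP_ofReal hN h1 h0, SB_ofReal h0]
  push_cast; ring

lemma QP_ofReal (hN : Num η) (h1 : η ^ 2 ≤ 1 / 10000) {μ : ℝ} (h0 : 0 ≤ μ) (θ : ℝ) :
    QP ((η : ℂ) ^ 2) η μ θ = ((QR η μ θ : ℝ) : ℂ) := by
  unfold QP QR
  rw [YP_ofReal hN h1 h0]
  push_cast; ring

/-! The top cap lies on the upper quadric. -/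

lemma a_lt_top (hN : Num η) (h1 : η ^ 2 ≤ 1 / 10000) {μ : ℝ} (h0 : 0 ≤ μ) (h2 : μ ≤ 1 / 100) :
    aR < z0R (η ^ 2) η + sT η μ / (1 + η ^ 2) := by
  have hz := (z0_bounds hN h1).1
  have hs := sT_ge hN h1 h0 h2
  have ha := hN.a2
  have e0 : 0 ≤ η ^ 2 := sq_nonneg η
  have : 9 / 10 ≤ sT η μ / (1 + η ^ 2) := by
    rw [le_div_iff₀ (by positivity)]; nlinarith
  linarith

lemma xi_top (hN : Num η) (hX : XiFacts (η ^ 2) η) (h1 : η ^ 2 ≤ 1 / 10000) {μ : ℝ} (h0 : 0 ≤ μ)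
    (h2 : μ ≤ 1 / 100) :
    xi (η ^ 2) η (z0R (η ^ 2) η + sT η μ / (1 + η ^ 2)) = μ * sT η μ ^ 2 := by
  rw [hX.top _ (a_lt_top hN h1 h0 h2).le]
  have hs := sT_sq hN h1 h0
  have hg : (1 + η ^ 2) ≠ 0 := by positivity
  unfold R2R at hs
  unfold z0R
  field_simp
  linear_combination (-4) * hs

lemma dxi_top (hN : Num η) (hX : XiFacts (η ^ 2) η) (h1 : η ^ 2 ≤ 1 / 10000) {μ : ℝ} (h0 : 0 ≤ μ)
    (h2 : μ ≤ 1 / 100) :
    dxi (η ^ 2) η (z0R (η ^ 2) η + sT η μ / (1 + η ^ 2)) = -2 * sT η μ := by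
  rw [hX.dtop _ (a_lt_top hN h1 h0 h2).le]
  have hg : (1 + η ^ 2) ≠ 0 := by positivity
  unfold z0R
  field_simp
  ring

lemma xi_bot (hX : XiFacts (η ^ 2) η) {μ : ℝ} (h0 : 0 ≤ μ) :
    xi (η ^ 2) η (-sB μ) = μ * sB μ ^ 2 := by
  rw [hX.low (-sB μ) (neg_nonpos.mpr (Real.sqrt_nonneg _))]
  have hs := sB_sq h0
  linear_combination (-1) * hs

lemma dxi_bot (hX : XiFacts (η ^ 2) η) (μ : ℝ) : dxi (η ^ 2) η (-sB μ) = 2 * sB μ := by
  rw [hX.dlow (-sB μ) (neg_nonpos.mpr (Real.sqrt_nonneg _))]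
  ring

/-! The tips of the plane. -/

lemma tip_bot {μ θ : ℝ} (h0 : 0 ≤ μ) (h2 : μ ≤ 1 / 100) :
    -sB μ - cR η μ θ = -(YR η μ θ * sB μ) := by
  have hs : sB μ ≠ 0 := by linarith [sB_ge h0 h2]
  unfold YR
  field_simp
  ring

lemma tip_top (hN : Num η) (h1 : η ^ 2 ≤ 1 / 10000) {μ θ : ℝ} (h0 : 0 ≤ μ) (h2 : μ ≤ 1 / 100)
    (h3 : μ * θ ^ 2 ≤ 1 / 100) (hθ : 0 < θ) :
    z0R (η ^ 2) η + sT η (μ * θ ^ 2) / (1 + η ^ 2) - cR η μ θ =
      θ * YR η μ θ * sT η (μ * θ ^ 2) := by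
  have hb : 0 < sB μ := by linarith [sB_ge h0 h2]
  have ht : 0 < sT η (μ * θ ^ 2) := by linarith [sT_ge hN h1 (by positivity) h3]
  have hg : (1 + η ^ 2) ≠ 0 := by positivity
  have hd : 1 / sT η (μ * θ ^ 2) + θ * (1 / sB μ) ≠ 0 := by positivity
  have hc : cR η μ θ * (1 / sT η (μ * θ ^ 2) + θ * (1 / sB μ)) =
      (1 - θ) + η ^ 2 * (-1 + uR η * (1 / sT η (μ * θ ^ 2)) / 2) / (1 + η ^ 2) := by
    unfold cR; exact div_mul_cancel₀ _ hd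
  unfold YR z0R
  generalize cR η μ θ = c at hc ⊢
  generalize sT η (μ * θ ^ 2) = s at hc ht ⊢
  generalize sB μ = b at hc hb ⊢
  have hs : s ≠ 0 := ht.ne'
  have hb' : b ≠ 0 := hb.ne'
  have key : η ^ 2 * uR η / (2 * (1 + η ^ 2)) + s / (1 + η ^ 2) - c - θ * (1 + c * (1 / b)) * s =
      s * (((1 - θ) + η ^ 2 * (-1 + uR η * (1 / s) / 2) / (1 + η ^ 2)) -
        c * (1 / s + θ * (1 / b))) := by
    field_simp
    ring
  rw [hc, sub_self, mul_zero] at key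
  linarith

/-! Consequences of smallness. -/

section Main

variable {K r0 m1 : ℝ} {th ψ M2 : ℂ → ℂ}

lemma Kη_le (hS : Small η K r0) : K * η ≤ 1 / 10 ^ 15 := by
  have h1 := hS.small
  have h2 := hS.r0_le
  have : r0 / 10 ^ 12 ≤ 1 / 10 ^ 15 := by
    rw [div_le_iff₀ (by positivity)]; norm_num; linarith
  linarith

lemma η_le_Kη (hS : Small η K r0) : η ≤ K * η := by
  have := hS.η_pos
  have := hS.K_ge
  nlinarith

lemma η_le (hS : Small η K r0) : η ≤ 1 / 10 ^ 15 := (η_le_Kη hS).trans (Kη_le hS)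

lemma η_le_r0 (hS : Small η K r0) : 1000 * η ≤ r0 := by
  have h1 := (η_le_Kη hS).trans hS.small
  have h2 := hS.r0_pos
  rw [le_div_iff₀ (by positivity)] at h1
  have := hS.η_pos
  nlinarith

lemma η_sq_le (hS : Small η K r0) : η ^ 2 ≤ 1 / 10 ^ 6 := by
  have h1 := η_le hS
  have h2 := hS.η_pos
  have h3 : η ≤ 1 / 1000 := h1.trans (by norm_num)
  nlinarith

lemma Kη2_le (hS : Small η K r0) : K * η ^ 2 ≤ η / 1000 := by
  have h1 := Kη_le hS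
  have h2 := hS.η_pos
  have h3 : K * η ≤ 1 / 1000 := h1.trans (by norm_num)
  nlinarith

lemma m_pos (hS : Small η K r0) (hC : Core η K r0 m1 th ψ M2) : 0 < m1 := by
  have := hS.η_pos
  have := hC.m_ge
  linarith

lemma m_le (hS : Small η K r0) (hC : Core η K r0 m1 th ψ M2) : m1 ≤ 1 / 10000 := by
  have h1 : η ≤ 1 / 20000 := (η_le hS).trans (by norm_num)
  have := hC.m_le
  linarith

lemma mu_norm (hS : Small η K r0) (hC : Core η K r0 m1 th ψ M2) {x : ℂ} (hx : ‖x‖ ≤ 2) :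
    ‖(m1 : ℂ) * (1 - x)‖ ≤ 3 * m1 := by
  have hm := m_pos hS hC
  rw [norm_mul, Complex.norm_real, Real.norm_of_nonneg hm.le]
  have := norm_sub_le (1 : ℂ) x
  rw [norm_one] at this
  nlinarith

lemma mu_mem (hS : Small η K r0) (hC : Core η K r0 m1 th ψ M2) {x : ℂ} (hx : ‖x‖ ≤ 2) :
    (m1 : ℂ) * (1 - x) ∈ ball (0 : ℂ) r0 := by
  rw [mem_ball_zero_iff]
  have h1 := mu_norm hS hC hx
  have h2 := hC.m_le
  have h3 := η_le_r0 hS
  have h4 := hS.η_pos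
  linarith

lemma th_near (hS : Small η K r0) (hC : Core η K r0 m1 th ψ M2) {x : ℂ} (hx : ‖x‖ ≤ 2) :
    ‖th (m1 * (1 - x)) - 1‖ ≤ η / 1000 :=
  (hC.th_le _ (mu_mem hS hC hx)).trans (Kη2_le hS)

lemma th_near' (hS : Small η K r0) (hC : Core η K r0 m1 th ψ M2) {x : ℂ} (hx : ‖x‖ ≤ 2) :
    ‖th (m1 * (1 - x)) - 1‖ ≤ 1 / 1000 := by
  have h1 := th_near hS hC hx
  have h2 : η ≤ 1 := (η_le hS).trans (by norm_num)
  linarith

lemma th_one (hS : Small η K r0) (hC : Core η K r0 m1 th ψ M2) : th (m1 * (1 - 0)) = 1 := by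
  have h1 := hC.ψ_eq 0 (by simp)
  have h2 := re_ge_of_norm_sub_one (th_near' hS hC (x := 0) (by simp))
  apply eq_of_sq_eq (le_trans (by norm_num) h2) (by simp)
  linear_combination -h1

/-- the slope of the critical plane as a function of the bottom tip -/
def gQ (η m1 : ℝ) (th : ℂ → ℂ) (x : ℂ) : ℂ :=
  QP ((η : ℂ) ^ 2) η (m1 * (1 - x)) (th (m1 * (1 - x)))

lemma gQ_hol (hS : Small η K r0) (hC : Core η K r0 m1 th ψ M2) {D : Data} (hD : Closed η m1 D) :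
    DifferentiableOn ℂ (gQ η m1 th) (ball 0 2) := by
  have hm : DifferentiableOn ℂ (fun x : ℂ => (m1 : ℂ) * (1 - x)) (ball 0 2) := by fun_prop
  have hθ : DifferentiableOn ℂ (fun x : ℂ => th (m1 * (1 - x))) (ball 0 2) :=
    hC.th_hol.comp hm fun x hx => mu_mem hS hC (mem_ball_zero_iff.mp hx).le
  refine (hD.cP_hol (ball 0 2) _ _ hm hθ fun x hx => ⟨?_, ?_⟩).2.2
  · have h1 := mu_norm hS hC (mem_ball_zero_iff.mp hx).le
    have h2 := m_le hS hC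
    linarith
  · have h1 := th_near' hS hC (mem_ball_zero_iff.mp hx).le
    linarith

lemma gQ_cont (hS : Small η K r0) (hC : Core η K r0 m1 th ψ M2) {D : Data} (hD : Closed η m1 D)
    {r : ℝ} (hr : |r| < 2) : ContinuousAt (fun r : ℝ => gQ η m1 th r) r := by
  have h1 : (r : ℂ) ∈ ball (0 : ℂ) 2 := by
    rw [mem_ball_zero_iff, Complex.norm_real]; exact hr
  have h2 : ContinuousAt (gQ η m1 th) r :=
    (gQ_hol hS hC hD).continuousOn.continuousAt (isOpen_ball.mem_nhds h1)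
  exact h2.comp Complex.continuous_ofReal.continuousAt

lemma gQ_zero (hS : Small η K r0) (hC : Core η K r0 m1 th ψ M2) :
    gQ η m1 th 0 = QP ((η : ℂ) ^ 2) η m1 1 := by
  unfold gQ
  rw [th_one hS hC, sub_zero, mul_one]

/-- Real data along the negative axis. -/
lemma real_th (hS : Small η K r0) (hC : Core η K r0 m1 th ψ M2) {x : ℝ} (hx : x ∈ Icc (-1 : ℝ) 0) :
    ∃ θ : ℝ, th (m1 * (1 - x)) = θ ∧ |θ - 1| ≤ 1 / 1000 ∧ 1 ≤ θ ^ 2 := by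
  have hxn : ‖(x : ℂ)‖ ≤ 2 := by
    rw [Complex.norm_real, Real.norm_eq_abs, abs_le]; constructor <;> linarith [hx.1, hx.2]
  have hx3 : (x : ℂ) ∈ ball (0 : ℂ) 3 := by
    rw [mem_ball_zero_iff]; linarith
  have h1 := eq_ofReal_re (hC.th_real _ (mu_mem hS hC hxn) (by simp))
  have h2 := eq_ofReal_re (hC.ψ_real _ hx3 (by simp))
  have h3 := th_near' hS hC hxn
  have h4 := re_ge_of_norm_sub_one (hC.ψ_le _ hx3)
  have h5 := hC.ψ_eq _ hx3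
  have h6 : K * η ≤ 1 := (Kη_le hS).trans (by norm_num)
  refine ⟨_, h1, ?_, ?_⟩
  · rw [h1, ← Complex.ofReal_one, ← Complex.ofReal_sub, Complex.norm_real] at h3
    exact h3
  · rw [h1, h2] at h5
    have h7 : 1 - (th (m1 * (1 - x))).re ^ 2 = η ^ 2 * m1 / 21 * x * (ψ x).re := by
      exact_mod_cast h5
    have h8 : 0 ≤ η ^ 2 * m1 / 21 := by have := m_pos hS hC; positivity
    have h9 : x * (ψ x).re ≤ 0 := mul_nonpos_of_nonpos_of_nonneg hx.2 (by linarith)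
    have h10 : η ^ 2 * m1 / 21 * (x * (ψ x).re) ≤ 0 := mul_nonpos_of_nonneg_of_nonpos h8 h9
    nlinarith

lemma cR_le (hN : Num η) (hS : Small η K r0) {D : Data} (hD : Closed η m1 D) {μ θ : ℝ}
    (h0 : 0 ≤ μ) (h2 : μ ≤ 1 / 200) (hθ : |θ - 1| ≤ 1 / 1000) : |cR η μ θ| ≤ 1 / 500 := by
  have he := η_sq_le hS
  have e1 : ‖(θ : ℂ) - 1‖ = |θ - 1| := by
    rw [← Complex.ofReal_one, ← Complex.ofReal_sub, Complex.norm_real, Real.norm_eq_abs]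
  have h := hD.cP_le μ θ (by rw [Complex.norm_real, Real.norm_of_nonneg h0]; exact h2)
    (by rw [e1]; linarith)
  rw [cP_ofReal hN (by linarith) h0, Complex.norm_real, Real.norm_eq_abs, e1] at h
  linarith

lemma YR_bounds (hN : Num η) (hS : Small η K r0) {D : Data} (hD : Closed η m1 D) {μ θ : ℝ}
    (h0 : 0 ≤ μ) (h2 : μ ≤ 1 / 200) (hθ : |θ - 1| ≤ 1 / 1000) :
    9 / 10 ≤ YR η μ θ ∧ YR η μ θ ≤ 11 / 10 := by
  have hc := abs_le.mp (cR_le hN hS hD h0 h2 hθ)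
  have hb := sB_ge h0 (by linarith)
  have hb0 : 0 < sB μ := by linarith
  have h3 : 0 < 1 / sB μ := by positivity
  have h4 : 1 / sB μ ≤ 2 := by rw [div_le_iff₀ hb0]; linarith
  unfold YR
  constructor <;> nlinarith

lemma midsec_at (h6 : StmtQuad) (hN : Num η) (hX : XiFacts (η ^ 2) η) (hS : Small η K r0)
    (hC : Core η K r0 m1 th ψ M2) (hD : Closed η m1 (mk η m1 th M2)) {x : ℝ}
    (hx : x ∈ Icc (-1 : ℝ) 0) : (mk η m1 th M2).MidSec (gQ η m1 th x).re := by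
  obtain ⟨θ, hθ, hθ1, hθ2⟩ := real_th hS hC hx
  have hm := m_pos hS hC
  have hm' := m_le hS hC
  have he := η_sq_le hS
  have he' : η ^ 2 ≤ 1 / 10000 := by linarith
  have hη := hS.η_pos
  have hxn : ‖(x : ℂ)‖ ≤ 2 := by
    rw [Complex.norm_real, Real.norm_eq_abs, abs_le]; constructor <;> linarith [hx.1, hx.2]
  obtain ⟨μ, hμ⟩ : ∃ μ : ℝ, μ = m1 * (1 - x) := ⟨_, rfl⟩
  have hμc : (m1 : ℂ) * (1 - x) = μ := by rw [hμ]; push_cast; ring
  have hμ1 : m1 ≤ μ := by rw [hμ]; nlinarith [hx.2]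
  have hμ2 : μ ≤ 2 * m1 := by rw [hμ]; nlinarith [hx.1]
  have hμ0 : 0 ≤ μ := by linarith
  have hθa := abs_le.mp hθ1
  have hθ0 : 0 < θ := by linarith [hθa.1]
  have hθ3 : θ ^ 2 ≤ 2 := by nlinarith [hθa.1, hθa.2]
  have hν1 : m1 ≤ μ * θ ^ 2 := by nlinarith
  have hν2 : μ * θ ^ 2 ≤ 1 / 100 := by nlinarith
  have hν0 : 0 ≤ μ * θ ^ 2 := by positivity
  have hQ : (gQ η m1 th x).re = QR η μ θ := by
    unfold gQ
    rw [hθ, hμc, QP_ofReal hN he' hμ0, Complex.ofReal_re]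
  have hY := YR_bounds hN hS hD hμ0 (by linarith) hθ1
  have hY0 : YR η μ θ ≠ 0 := by linarith [hY.1]
  have hc := cR_le hN hS hD hμ0 (by linarith) hθ1
  have hQ0 : 0 ≤ QR η μ θ := by unfold QR; positivity
  have hQ1 : QR η μ θ ≤ 1 / 50 := by
    unfold QR
    rw [div_le_iff₀ (by positivity)]
    nlinarith [hY.1]
  have hb := sB_ge hμ0 (by linarith)
  have hzb : -sB μ < 0 := by linarith
  have hzt := a_lt_top hN he' hν0 hν2
  have hWb : xi (η ^ 2) η (-sB μ) - QR η μ θ * (-sB μ - cR η μ θ) ^ 2 = 0 := by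
    rw [xi_bot hX hμ0, tip_bot hμ0 (by linarith)]
    unfold QR
    field_simp
    ring
  have hWt : xi (η ^ 2) η (z0R (η ^ 2) η + sT η (μ * θ ^ 2) / (1 + η ^ 2)) -
      QR η μ θ * (z0R (η ^ 2) η + sT η (μ * θ ^ 2) / (1 + η ^ 2) - cR η μ θ) ^ 2 = 0 := by
    rw [xi_top hN hX he' hν0 hν2, tip_top hN he' hμ0 (by linarith) hν2 hθ0]
    unfold QR
    field_simp
    ring
  have hb0 : b0 ((η : ℂ) ^ 2) η (cR η μ θ) (QR η μ θ) = 0 := by
    have hmem := mu_mem hS hC hxn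
    have hθm : th (m1 * (1 - x)) ∈ ball (1 : ℂ) r0 := by
      rw [mem_ball, dist_eq_norm]
      have h1 := th_near hS hC hxn
      have h2 := η_le_r0 hS
      linarith
    have h := hC.b_est _ hmem _ hθm
    rw [sub_self, mul_zero, sub_zero, norm_zero, mul_zero, norm_le_zero_iff, hθ, hμc,
      cP_ofReal hN he' hμ0, QP_ofReal hN he' hμ0] at h
    exact h
  obtain ⟨q1, q2, q3, -⟩ := h6 (η ^ 2) η (cR η μ θ) (QR η μ θ) _ _ (by positivity) (by linarith)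
    hη.le ((η_le hS).trans (by norm_num)) (by linarith) hQ0 hQ1 hzb hzt hWb hWt
  rw [Complex.ofReal_pow, hb0] at q3
  rw [hQ]
  refine ⟨cR η μ θ, -sB μ, z0R (η ^ 2) η + sT η (μ * θ ^ 2) / (1 + η ^ 2), ?_, hzb, hzt, ?_, hWb,
    hWt, q1, q2, by exact_mod_cast q3⟩
  · exact neg_le_neg (sB_anti hm.le hμ1)
  · have h1 := sT_anti hN he' hm.le hν1
    have h2 : sT η (μ * θ ^ 2) / (1 + η ^ 2) ≤ sT η m1 / (1 + η ^ 2) :=
      div_le_div_of_nonneg_right h1 (by positivity)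
    change _ ≤ z0R (η ^ 2) η + sT η m1 / (1 + η ^ 2)
    linarith

lemma midsec_all (h6 : StmtQuad) (hN : Num η) (hX : XiFacts (η ^ 2) η) (hS : Small η K r0)
    (hC : Core η K r0 m1 th ψ M2) (hD : Closed η m1 (mk η m1 th M2)) :
    ∀ Q ∈ Icc (QP ((η : ℂ) ^ 2) η m1 1).re (3 / 2 * m1), (mk η m1 th M2).MidSec Q := by
  intro Q hQ
  have hm := m_pos hS hC
  have hm' := m_le hS hC
  have he' : η ^ 2 ≤ 1 / 10000 := by linarith [η_sq_le hS]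
  have hcont : ContinuousOn (fun r : ℝ => (gQ η m1 th r).re) (Icc (-1) 0) := fun r hr =>
    (Complex.continuous_re.continuousAt.comp (gQ_cont hS hC hD (by
      rw [abs_lt]; constructor <;> linarith [hr.1, hr.2]))).continuousWithinAt
  have h0 : (gQ η m1 th ((0 : ℝ) : ℂ)).re ≤ Q := by
    rw [Complex.ofReal_zero, gQ_zero hS hC]; exact hQ.1
  have h1 : Q ≤ (gQ η m1 th ((-1 : ℝ) : ℂ)).re := by
    obtain ⟨θ, hθ, hθ1, -⟩ := real_th hS hC (x := -1) ⟨le_rfl, by norm_num⟩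
    have hμc : (m1 : ℂ) * (1 - ((-1 : ℝ) : ℂ)) = ((2 * m1 : ℝ) : ℂ) := by push_cast; ring
    have hY := YR_bounds hN hS hD (μ := 2 * m1) (by positivity) (by linarith) hθ1
    unfold gQ
    rw [hθ, hμc, QP_ofReal hN he' (by positivity), Complex.ofReal_re]
    refine hQ.2.trans ?_
    unfold QR
    have hY0 : 0 < YR η (2 * m1) θ := by linarith [hY.1]
    rw [le_div_iff₀ (by positivity)]
    have : YR η (2 * m1) θ ^ 2 ≤ 4 / 3 := by nlinarith [hY.1, hY.2]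
    nlinarith
  obtain ⟨x, hx, hxQ⟩ := intermediate_value_Icc' (by norm_num : (-1 : ℝ) ≤ 0) hcont ⟨h0, h1⟩
  rw [← hxQ]
  exact midsec_at h6 hN hX hS hC hD hx

lemma tan_facts (hN : Num η) (hX : XiFacts (η ^ 2) η) (hS : Small η K r0)
    (hC : Core η K r0 m1 th ψ M2) (hD : Closed η m1 (mk η m1 th M2)) :
    ((mk η m1 th M2).rbody 0).Tan := by
  have hm := m_pos hS hC
  have hm' := m_le hS hC
  have he' : η ^ 2 ≤ 1 / 10000 := by linarith [η_sq_le hS]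
  have hmem : ∀ r ∈ Icc (0 : ℝ) 1, (r : ℂ) ∈ ball (0 : ℂ) (1 / (1000 * m1)) := by
    intro r hr
    rw [mem_ball_zero_iff, Complex.norm_real, Real.norm_of_nonneg hr.1, lt_div_iff₀ (by positivity)]
    nlinarith [hr.2]
  have hμ : ∀ r ∈ Icc (0 : ℝ) 1, 0 ≤ m1 * (1 - r) ∧ m1 * (1 - r) ≤ 1 / 100 ∧
      (m1 : ℂ) * (1 - r) = ((m1 * (1 - r) : ℝ) : ℂ) := by
    intro r hr
    refine ⟨by nlinarith [hr.2], by nlinarith [hr.1], by push_cast; ring⟩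
  have sT' : ∀ r ∈ Icc (0 : ℝ) 1, ((mk η m1 th M2).rbody 0).T.σ r = sT η (m1 * (1 - r)) := by
    intro r hr
    obtain ⟨a1, a2, a3⟩ := hμ r hr
    change (((mk η m1 th M2).capT 0).sg r).re = _
    rw [hD.sgT, a3, ST_ofReal hN he' a1, ← Complex.ofReal_inv, Complex.ofReal_re, one_div, inv_inv]
  have sB' : ∀ r ∈ Icc (0 : ℝ) 1, ((mk η m1 th M2).rbody 0).B.σ r = sB (m1 * (1 - r)) := by
    intro r hr
    obtain ⟨a1, a2, a3⟩ := hμ r hr
    change (((mk η m1 th M2).capB 0).sg r).re = _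
    rw [hD.sgB, a3, SB_ofReal a1, ← Complex.ofReal_inv, Complex.ofReal_re, one_div, inv_inv]
  have ZT' : ∀ r ∈ Icc (0 : ℝ) 1, ((mk η m1 th M2).rbody 0).T.Z r =
      z0R (η ^ 2) η + sT η (m1 * (1 - r)) / (1 + η ^ 2) := by
    intro r hr
    obtain ⟨a1, a2, a3⟩ := hμ r hr
    change (((mk η m1 th M2).capT 0).ZZ r).re = _
    rw [hD.ZT _ (hmem r hr), a3, ST_ofReal hN he' a1, ← Complex.ofReal_inv, one_div, inv_inv]
    norm_cast
  have ZB' : ∀ r ∈ Icc (0 : ℝ) 1, ((mk η m1 th M2).rbody 0).B.Z r = sB (m1 * (1 - r)) := by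
    intro r hr
    obtain ⟨a1, a2, a3⟩ := hμ r hr
    change (((mk η m1 th M2).capB 0).ZZ r).re = _
    rw [hD.ZB _ (hmem r hr), a3, SB_ofReal a1, ← Complex.ofReal_inv, Complex.ofReal_re, one_div,
      inv_inv]
  refine ⟨fun r hr => ?_, fun r hr => ?_, fun r hr => ?_, fun r hr => ?_⟩
  · obtain ⟨a1, a2, -⟩ := hμ r hr
    unfold RCap.T
    rw [ZT' r hr, sT' r hr]
    exact xi_top hN hX he' a1 a2
  · obtain ⟨a1, a2, -⟩ := hμ r hr
    rw [ZT' r hr, sT' r hr]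
    exact dxi_top hN hX he' a1 a2
  · obtain ⟨a1, a2, -⟩ := hμ r hr
    unfold RCap.T
    rw [ZB' r hr, sB' r hr]
    exact xi_bot hX a1
  · rw [ZB' r hr, sB' r hr]
    exact dxi_bot hX _

lemma deriv_inv_lin (A g m r : ℝ) (h : 1 + g * (m * (1 - r)) ≠ 0) :
    deriv (fun ξ : ℂ => (A : ℂ) / (1 + (g : ℂ) * (m * (1 - ξ)))) r =
      ((A * g * m / (1 + g * (m * (1 - r))) ^ 2 : ℝ) : ℂ) := by
  have h' : (1 : ℂ) + (g : ℂ) * (m * (1 - r)) ≠ 0 := by exact_mod_cast h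
  have h1 : HasDerivAt (fun ξ : ℂ => 1 + (g : ℂ) * (m * (1 - ξ))) ((g : ℂ) * (m * (-1))) r :=
    ((((hasDerivAt_id (r : ℂ)).const_sub 1).const_mul (m : ℂ)).const_mul (g : ℂ)).const_add 1
  have h2 := (hasDerivAt_const (r : ℂ) (A : ℂ)).fun_div h1 h'
  rw [h2.deriv]
  push_cast
  ring

end Main

end BaseGe

open BaseGe in
theorem base_ge (h0 : StmtXi) (h2 : StmtClosed) (h6 : StmtQuad) : StmtGe := by
  intro η K r0 m1 th ψ M2 hS hC
  have hη := hS.η_pos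
  have hη1 := η_le hS
  have he := η_sq_le hS
  have he' : η ^ 2 ≤ 1 / 10000 := by linarith
  have hm := m_pos hS hC
  have hm' := m_le hS hC
  obtain ⟨hN, hX⟩ := h0 (η ^ 2) η (by positivity) (by linarith) hη.le (hη1.trans (by norm_num))
  have hD := h2 η m1 th M2 hη (hη1.trans (by norm_num)) hm hC.m_le
  refine
    { a_pos := ?_, a_lt := a_lt_top hN he' hm.le (by linarith), sup := hX.sup, der := hX.der
      dcont1 := hX.dcont1, dcont2 := hX.dcont2, dbdd := hX.dbdd, τT' := ?_, τB' := ?_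
      tan := tan_facts hN hX hS hC hD, κ_pos := ?_, κ_le := le_rfl, ball := ?_, low := hX.low
      d0 := ?_, lt_one := hX.lt_one, zone := hX.zone, τB_eq := ?_, Q1_lim := ?_
      Qs_ge := le_rfl, midsec := midsec_all h6 hN hX hS hC hD }
  · change 0 < aR
    linarith [hN.a1]
  · intro r hr
    have e0 : 0 ≤ η ^ 2 := sq_nonneg η
    have h1 : 0 ≤ m1 * (1 - r) := by nlinarith [hr.2]
    have h2 : m1 * (1 - r) ≤ 1 / 10000 := by nlinarith [hr.1]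
    have hd : 0 < 1 + (1 + η ^ 2) * (m1 * (1 - r)) := by positivity
    have h3 := deriv_inv_lin (R2R (η ^ 2) η) (1 + η ^ 2) m1 r hd.ne'
    have h4 : (mk η m1 th M2).τT = fun ξ : ℂ =>
        (R2R (η ^ 2) η : ℂ) / (1 + ((1 + η ^ 2 : ℝ) : ℂ) * (m1 * (1 - ξ))) := by
      funext ξ; push_cast; rfl
    rw [h4, h3, Complex.ofReal_re]
    change m1 / 2 ≤ _
    rw [le_div_iff₀ (by positivity)]
    have hR := (R2_bounds hN he').1
    have h5 : 1 + (1 + η ^ 2) * (m1 * (1 - r)) ≤ 11 / 10 := by nlinarith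
    have h6 : (1 + (1 + η ^ 2) * (m1 * (1 - r))) ^ 2 ≤ 3 / 2 := by nlinarith
    have h7 : 9 / 10 ≤ R2R (η ^ 2) η * (1 + η ^ 2) := by nlinarith
    nlinarith
  · intro r hr
    have h1 : 0 ≤ m1 * (1 - r) := by nlinarith [hr.2]
    have h2 : m1 * (1 - r) ≤ 1 / 10000 := by nlinarith [hr.1]
    have hd : 0 < 1 + 1 * (m1 * (1 - r)) := by positivity
    have h3 := deriv_inv_lin 1 1 m1 r hd.ne'
    have h4 : (mk η m1 th M2).τB = fun ξ : ℂ =>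
        ((1 : ℝ) : ℂ) / (1 + ((1 : ℝ) : ℂ) * (m1 * (1 - ξ))) := by
      funext ξ; push_cast; rw [one_mul]; rfl
    rw [h4, h3, Complex.ofReal_re]
    change m1 / 2 ≤ _
    rw [le_div_iff₀ (by positivity)]
    have h6 : (1 + 1 * (m1 * (1 - r))) ^ 2 ≤ 3 / 2 := by nlinarith
    nlinarith
  · change 0 < m1 / 100
    positivity
  · intro z hz
    obtain ⟨b1, b2⟩ := hX.ball z hz
    refine ⟨b1, b2.trans ?_⟩
    change _ ≤ 1 - z ^ 2 + m1 / 100 / 2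
    have h1 := hC.m_ge
    have h2 : η ≤ 1 / 10000 := hη1.trans (by norm_num)
    nlinarith
  · change dxi (η ^ 2) η 0 = 0
    rw [hX.dlow 0 le_rfl, mul_zero]
  · intro r hr
    have h1 : 0 ≤ m1 * (1 - r) := by nlinarith [hr.2]
    have hd : (1 : ℝ) + m1 * (1 - r) ≠ 0 := by positivity
    have hd' : (1 : ℂ) + m1 * (1 - r) ≠ 0 := by exact_mod_cast hd
    exact one_div_mul_cancel hd'
  · have h1 : Tendsto (fun r : ℝ => gQ η m1 th r) (𝓝[>] 0) (𝓝 (gQ η m1 th ((0 : ℝ) : ℂ))) :=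
      (gQ_cont hS hC hD (r := 0) (by simp)).tendsto.mono_left nhdsWithin_le_nhds
    have h2 : gQ η m1 th ((0 : ℝ) : ℂ) = ((mk η m1 th M2).Q1 : ℂ) := by
      rw [Complex.ofReal_zero, gQ_zero hS hC]
      change _ = (((QP ((η : ℂ) ^ 2) η m1 1).re : ℝ) : ℂ)
      rw [← Complex.ofReal_one, QP_ofReal hN he' hm.le, Complex.ofReal_re]
    rw [h2] at h1
    refine h1.congr' ?_
    filter_upwards [Ioo_mem_nhdsGT (by norm_num : (0 : ℝ) < 1)] with r hr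
    have hrn : ‖(r : ℂ)‖ ≤ 2 := by
      rw [Complex.norm_real, Real.norm_of_nonneg hr.1.le]; linarith [hr.2]
    have h3 := th_near' hS hC hrn
    exact ((hD.plane r (th (m1 * (1 - r))) hrn (by linarith)).2.2).symm

end

end Pool.Agent.Lib.MP_87c84d_gt
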