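import Pool.Agent.Lib.MP_87c84d_gt.GeoDefs

/-!
The boundary arcs belong to the profile; the profile and the body are convex and compact.
-/

namespace Pool.Agent.Lib.MP_87c84d_gt

open Set

namespace GeoMem

theorem mono_of {f f' : ℝ → ℝ} {a b : ℝ} (hc : ContinuousOn f (Icc a b))
    (hd : ∀ x ∈ Ioo a b, HasDerivAt f (f' x) x) (h0 : ∀ x ∈ Ioo a b, 0 ≤ f' x) :
    MonotoneOn f (Icc a b) := by
  refine monotoneOn_of_deriv_nonneg (convex_Icc a b) hc ?_ ?_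
  · rw [interior_Icc]
    exact fun x hx => (hd x hx).differentiableAt.differentiableWithinAt
  · rw [interior_Icc]
    intro x hx
    rw [(hd x hx).deriv]
    exact h0 x hx

variable {C : RCap}

theorem σ_mono (h : C.OK) : MonotoneOn C.σ (Icc 0 1) := mono_of h.cσ h.dσ h.σ'_nonneg

theorem Z_mono (h : C.OK) : MonotoneOn C.Z (Icc 0 1) :=
  mono_of h.cZ h.dZ fun x hx => (h.Z'_pos x hx).le

theorem cT (h : C.OK) : ContinuousOn C.T (Icc 0 1) :=
  (continuousOn_const.mul (continuousOn_const.sub continuousOn_id)).mul (h.cσ.pow 2)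

theorem dT (h : C.OK) {ξ : ℝ} (hξ : ξ ∈ Ioo (0 : ℝ) 1) :
    HasDerivAt C.T (-2 * C.σ ξ * C.Z' ξ) ξ := by
  have h1 := (((hasDerivAt_id ξ).const_sub 1).const_mul C.m).mul ((h.dσ ξ hξ).pow 2)
  refine h1.congr_deriv ?_
  simp only [RCap.Z', id, Pi.pow_apply]
  norm_num
  ring

theorem cap_cap (h : C.OK) {ξ ξ0 : ℝ} (hξ : ξ ∈ Icc (0 : ℝ) 1) (h0 : ξ0 ∈ Icc (0 : ℝ) 1) :
    C.T ξ ≤ C.T ξ0 - 2 * C.σ ξ0 * (C.Z ξ - C.Z ξ0) := by
  have hc : ContinuousOn (fun x => C.T x + 2 * C.σ ξ0 * C.Z x) (Icc 0 1) :=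
    (cT h).add (continuousOn_const.mul h.cZ)
  have hd : ∀ x ∈ Ioo (0 : ℝ) 1, HasDerivAt (fun x => C.T x + 2 * C.σ ξ0 * C.Z x)
      (2 * C.Z' x * (C.σ ξ0 - C.σ x)) x := fun x hx =>
    ((dT h hx).add ((h.dZ x hx).const_mul (2 * C.σ ξ0))).congr_deriv (by ring)
  rcases le_total ξ ξ0 with hle | hle
  · have hs : Ioo 0 ξ0 ⊆ Ioo 0 1 := Ioo_subset_Ioo le_rfl h0.2
    have := mono_of (hc.mono (Icc_subset_Icc le_rfl h0.2)) (fun x hx => hd x (hs hx))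
      (fun x hx => mul_nonneg (mul_nonneg zero_le_two (h.Z'_pos x (hs hx)).le) (sub_nonneg.mpr
        (σ_mono h (Ioo_subset_Icc_self (hs hx)) h0 hx.2.le))) ⟨hξ.1, hle⟩ ⟨h0.1, le_rfl⟩ hle
    simp only at this
    linarith
  · have hs : Ioo ξ0 1 ⊆ Ioo 0 1 := Ioo_subset_Ioo h0.1 le_rfl
    have := mono_of (hc.mono (Icc_subset_Icc h0.1 le_rfl)).neg (fun x hx => (hd x (hs hx)).neg)
      (fun x hx => neg_nonneg.mpr (mul_nonpos_of_nonneg_of_nonpos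
        (mul_nonneg zero_le_two (h.Z'_pos x (hs hx)).le) (sub_nonpos.mpr
        (σ_mono h h0 (Ioo_subset_Icc_self (hs hx)) hx.1.le)))) ⟨le_rfl, h0.2⟩ ⟨hle, hξ.2⟩ hle
    simp only [Pi.neg_apply] at this
    linarith

theorem zero_mem : (0 : ℝ) ∈ Icc (0 : ℝ) 1 := ⟨le_rfl, zero_le_one⟩

theorem one_mem : (1 : ℝ) ∈ Icc (0 : ℝ) 1 := ⟨zero_le_one, le_rfl⟩

/-- below the base of the cap the tangent paraboloid at the base is the lowest one -/
theorem base_le (h : C.OK) {ξ z : ℝ} (hξ : ξ ∈ Icc (0 : ℝ) 1) (hz : z ≤ C.Z 0) :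
    C.T 0 - 2 * C.σ 0 * (z - C.Z 0) ≤ C.T ξ - 2 * C.σ ξ * (z - C.Z ξ) := by
  have h1 := cap_cap h zero_mem hξ
  have h2 := mul_nonneg (sub_nonneg.mpr (σ_mono h zero_mem hξ hξ.1)) (sub_nonneg.mpr hz)
  nlinarith

theorem T_le (h : C.OK) {ξ : ℝ} (hξ : ξ ∈ Icc (0 : ℝ) 1) : C.T ξ ≤ C.T 0 := by
  have h1 := cap_cap h hξ zero_mem
  have h2 := mul_nonneg (h.σ_pos 0 zero_mem).le (sub_nonneg.mpr (Z_mono h zero_mem hξ hξ.1))
  nlinarith

variable {R : RBody}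

theorem slope_anti (h : R.OK) {z z' : ℝ} (hz : z ≤ z') : R.dξ0 z' ≤ R.dξ0 z := by
  rcases hz.eq_or_lt with rfl | hlt
  · exact le_rfl
  · have h1 := h.sup z z'
    have h2 := h.sup z' z
    by_contra h3
    have h4 := mul_pos (sub_pos.mpr (not_le.mp h3)) (sub_pos.mpr hlt)
    nlinarith

theorem mid_mem (h : R.OK) {z r : ℝ} (hz : z ∈ Icc R.zB R.zT) (hr : r ≤ R.ξ0 z) :
    (r, z) ∈ R.P := by
  refine ⟨fun z0 _ => hr.trans (h.sup z z0), fun ξ hξ => ?_, fun ξ hξ => ?_⟩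
  · have h1 := base_le h.T_ok hξ (z := z) (h.ZT0 ▸ hz.2)
    have h2 := h.sup z R.zT
    rw [h.ξT, h.dT] at h2
    rw [h.ZT0] at h1
    simp only
    linarith
  · have h1 := base_le h.B_ok hξ (z := -z) (h.ZB0 ▸ neg_le_neg hz.1)
    have h2 := h.sup z R.zB
    rw [h.ξB, h.dB] at h2
    rw [h.ZB0] at h1
    simp only
    linarith

theorem top_mem (h : R.OK) {ξ r : ℝ} (hξ : ξ ∈ Icc (0 : ℝ) 1) (hr : r ≤ R.T.T ξ) :
    (r, R.T.Z ξ) ∈ R.P := by
  have hZ : R.zT ≤ R.T.Z ξ := h.ZT0 ▸ Z_mono h.T_ok zero_mem hξ hξ.1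
  refine ⟨fun z0 hz0 => ?_, fun η hη => hr.trans (cap_cap h.T_ok hξ hη), fun η hη => ?_⟩
  · have h1 := cap_cap h.T_ok hξ zero_mem
    have h2 := h.sup R.zT z0
    have h3 := slope_anti h hz0.2
    rw [h.ξT] at h2
    rw [h.dT] at h3
    rw [h.ZT0] at h1
    have h4 := mul_le_mul_of_nonneg_right h3 (sub_nonneg.mpr hZ)
    simp only
    linarith
  · have h1 := (mid_mem h ⟨(h.zB_neg.trans h.zT_pos).le, le_rfl⟩ le_rfl).2.2 η hη
    have h2 := T_le h.T_ok hξ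
    have h3 := mul_nonneg (h.B_ok.σ_pos η hη).le (sub_nonneg.mpr hZ)
    rw [h.ξT] at h1
    simp only at h1 ⊢
    linarith

theorem bot_mem (h : R.OK) {ξ r : ℝ} (hξ : ξ ∈ Icc (0 : ℝ) 1) (hr : r ≤ R.B.T ξ) :
    (r, -R.B.Z ξ) ∈ R.P := by
  have hZ : -R.zB ≤ R.B.Z ξ := h.ZB0 ▸ Z_mono h.B_ok zero_mem hξ hξ.1
  refine ⟨fun z0 hz0 => ?_, fun η hη => ?_, fun η hη => ?_⟩
  · have h1 := cap_cap h.B_ok hξ zero_mem
    have h2 := h.sup R.zB z0
    have h3 := slope_anti h hz0.1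
    rw [h.ξB] at h2
    rw [h.dB] at h3
    rw [h.ZB0] at h1
    have h4 := mul_le_mul_of_nonneg_right h3 (sub_nonneg.mpr hZ)
    simp only
    linarith
  · have h1 := (mid_mem h ⟨le_rfl, (h.zB_neg.trans h.zT_pos).le⟩ le_rfl).2.1 η hη
    have h2 := T_le h.B_ok hξ
    have h3 := mul_nonneg (h.T_ok.σ_pos η hη).le (sub_nonneg.mpr hZ)
    rw [h.ξB] at h1
    simp only at h1 ⊢
    linarith
  · simp only [neg_neg]
    exact hr.trans (cap_cap h.B_ok hξ hη)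

theorem comb {p q a b u v w c : ℝ} (ha : 0 ≤ a) (hb : 0 ≤ b) (hab : a + b = 1)
    (h1 : p ≤ c + w * u) (h2 : q ≤ c + w * v) : a * p + b * q ≤ c + w * (a * u + b * v) := by
  have h3 := mul_le_mul_of_nonneg_left h1 ha
  have h4 := mul_le_mul_of_nonneg_left h2 hb
  have h5 : c = a * c + b * c := by rw [← add_mul, hab, one_mul]
  linarith

end GeoMem

open GeoMem

theorem geo_mem : StmtMem := fun _ h =>
  ⟨fun _ hz _ hr => mid_mem h hz hr, fun _ hξ _ hr => top_mem h hξ hr,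
    fun _ hξ _ hr => bot_mem h hξ hr⟩

theorem geo_prof : StmtProf := by
  intro R h
  refine ⟨?_, ?_, ?_, ?_⟩
  · simp only [RBody.P, ofPred_and, ofPred_forall]
    refine IsClosed.inter ?_ (IsClosed.inter ?_ ?_) <;>
      exact isClosed_iInter fun _ => isClosed_iInter fun _ => isClosed_le (by fun_prop)
        (by fun_prop)
  · intro p hp q hq a b ha hb hab
    refine ⟨fun z0 hz => ?_, fun ξ hξ => ?_, fun ξ hξ => ?_⟩
    · have := comb (p := p.1) (q := q.1)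
        (c := R.ξ0 z0 - R.dξ0 z0 * z0) (w := R.dξ0 z0) (u := p.2) (v := q.2) ha hb hab
        (by linarith [hp.1 z0 hz]) (by linarith [hq.1 z0 hz])
      simp only [Prod.fst_add, Prod.snd_add, Prod.smul_fst, Prod.smul_snd, smul_eq_mul]
      linarith
    · have := comb (p := p.1) (q := q.1)
        (c := R.T.T ξ + 2 * R.T.σ ξ * R.T.Z ξ) (w := -2 * R.T.σ ξ) (u := p.2)
        (v := q.2) ha hb hab (by linarith [hp.2.1 ξ hξ]) (by linarith [hq.2.1 ξ hξ])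
      simp only [Prod.fst_add, Prod.snd_add, Prod.smul_fst, Prod.smul_snd, smul_eq_mul]
      linarith
    · have := comb (p := p.1) (q := q.1)
        (c := R.B.T ξ + 2 * R.B.σ ξ * R.B.Z ξ) (w := 2 * R.B.σ ξ) (u := p.2)
        (v := q.2) ha hb hab (by linarith [hp.2.2 ξ hξ]) (by linarith [hq.2.2 ξ hξ])
      simp only [Prod.fst_add, Prod.snd_add, Prod.smul_fst, Prod.smul_snd, smul_eq_mul]
      linarith
  · intro p hp r hr
    exact ⟨fun z0 hz => hr.trans (hp.1 z0 hz), fun ξ hξ => hr.trans (hp.2.1 ξ hξ),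
      fun ξ hξ => hr.trans (hp.2.2 ξ hξ)⟩
  · refine ⟨max (2 * R.T.σ 1 * (R.T.Z 1 + R.B.Z 1)) (max (R.T.Z 1) (R.B.Z 1)),
      fun p hp h0 => ?_⟩
    have h1 := hp.2.1 1 one_mem
    have h2 := hp.2.2 1 one_mem
    simp only [RCap.T, sub_self, mul_zero, zero_mul, zero_sub] at h1 h2
    have h3 := h.T_ok.σ_pos 1 one_mem
    have h4 := h.B_ok.σ_pos 1 one_mem
    have h5 : p.2 ≤ R.T.Z 1 := by nlinarith
    have h6 : -p.2 ≤ R.B.Z 1 := by nlinarith
    refine ⟨le_max_of_le_left (by nlinarith), le_max_of_le_right (abs_le.mpr ⟨?_, ?_⟩)⟩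
    · linarith [le_max_right (R.T.Z 1) (R.B.Z 1)]
    · linarith [le_max_left (R.T.Z 1) (R.B.Z 1)]

theorem geo_body : StmtBody := by
  intro P h
  constructor
  · refine Metric.isCompact_of_isClosed_isBounded
      (h.closed.preimage (f := fun X : E3 => (X 0 ^ 2 + X 1 ^ 2, X 2)) (by fun_prop)) ?_
    obtain ⟨M, hM⟩ := h.bdd
    refine (Metric.isBounded_closedBall (x := (0 : E3)) (r := √(M + M ^ 2))).subset fun X hX => ?_
    obtain ⟨h1, h2⟩ := hM _ hX (by positivity)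
    rw [mem_closedBall_zero_iff, EuclideanSpace.norm_eq]
    refine Real.sqrt_le_sqrt ?_
    have h3 := pow_le_pow_left₀ (abs_nonneg _) h2 2
    simp only [Fin.sum_univ_three, Real.norm_eq_abs, sq_abs] at h1 h3 ⊢
    linarith
  · intro X hX Y hY a b ha hb hab
    have h1 := h.down _ (h.convex hX hY ha hb hab)
      ((a * X 0 + b * Y 0) ^ 2 + (a * X 1 + b * Y 1) ^ 2) (by
        simp only [Prod.fst_add, Prod.smul_fst, smul_eq_mul]
        obtain rfl : b = 1 - a := by linarith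
        nlinarith [mul_nonneg (mul_nonneg ha hb) (sq_nonneg (X 0 - Y 0)),
          mul_nonneg (mul_nonneg ha hb) (sq_nonneg (X 1 - Y 1))])
    simpa [body] using h1

end Pool.Agent.Lib.MP_87c84d_gt
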