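import Pool.Agent.Lib.MP_87c84d_gt.BaseDefs
import Pool.Agent.Lib.MP_87c84d_gt.GeoMem

/-!
The machine applied to the base body reproduces the closed forms of the section integrals.
-/

namespace Pool.Agent.Lib.MP_87c84d_gt

open MeasureTheory Set Metric Filter Topology Base

noncomputable section

namespace BaseIdent

/-! ### Real integrals -/

lemma subst {C : RCap} (h : C.OK) {φ : ℝ} (hφ : φ ∈ Ioc (0 : ℝ) 1) (g : ℝ → ℝ) :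
    ∫ r in (0 : ℝ)..φ, g (C.Z r) * C.Z' r = ∫ z in C.Z 0..C.Z φ, g z := by
  have hs : Ioo (min 0 φ) (max 0 φ) ⊆ Ioo 0 1 := by
    rw [min_eq_left hφ.1.le, max_eq_right hφ.1.le]
    exact Ioo_subset_Ioo le_rfl hφ.2
  refine intervalIntegral.integral_comp_mul_deriv_of_deriv_nonneg (g := g) ?_
    (fun r hr => h.dZ r (hs hr)) (fun r hr => (h.Z'_pos r (hs hr)).le)
  rw [uIcc_of_le hφ.1.le]
  exact h.cZ.mono (Icc_subset_Icc le_rfl hφ.2)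

lemma glue {T B : RCap} (hT : T.OK) (hB : B.OK) {φ x : ℝ} (hφ : φ ∈ Ioc (0 : ℝ) 1)
    (hx : x ∈ Ioc (0 : ℝ) 1) (h0 : -B.Z 0 ≤ T.Z 0) {g : ℝ → ℝ}
    (hg : IntervalIntegrable g volume (-B.Z x) (T.Z φ)) :
    (∫ r in (0 : ℝ)..φ, g (T.Z r) * T.Z' r) + (∫ r in (0 : ℝ)..x, g (-B.Z r) * B.Z' r) +
      ∫ z in (-B.Z 0)..(T.Z 0), g z = ∫ z in (-B.Z x)..(T.Z φ), g z := by
  have h1 : T.Z 0 ≤ T.Z φ := GeoMem.Z_mono hT GeoMem.zero_mem ⟨hφ.1.le, hφ.2⟩ hφ.1.le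
  have h2 : B.Z 0 ≤ B.Z x := GeoMem.Z_mono hB GeoMem.zero_mem ⟨hx.1.le, hx.2⟩ hx.1.le
  have hsub : ∀ a b, -B.Z x ≤ a → a ≤ b → b ≤ T.Z φ → IntervalIntegrable g volume a b :=
    fun a b ha hab hb => hg.mono_set (by
      rw [uIcc_of_le hab, uIcc_of_le (ha.trans (hab.trans hb))]
      exact Icc_subset_Icc ha hb)
  rw [subst hT hφ g, subst hB hx fun u => g (-u), intervalIntegral.integral_comp_neg,
    ← intervalIntegral.integral_add_adjacent_intervals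
      (hsub (-B.Z x) (-B.Z 0) le_rfl (by linarith) (by linarith))
      (hsub (-B.Z 0) (T.Z φ) (by linarith) (by linarith) le_rfl),
    ← intervalIntegral.integral_add_adjacent_intervals
      (hsub (-B.Z 0) (T.Z 0) (by linarith) h0 h1)
      (hsub (T.Z 0) (T.Z φ) (by linarith) h1 le_rfl)]
  ring

/-! ### Caps -/

lemma ZZ_zero (K : Cap) : K.ZZ 0 = K.h - K.m * Complex.sqrt (K.τ 0) := by
  simp [Cap.ZZ, Cap.hh, Cap.mm, Cap.sg]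

lemma junction_pos {K : Cap} {V : Set ℂ} {c Q φ : ℂ} (hK : K.OK V) (hP : K.Pl V c Q φ)
    (ht : K.mm φ = Q * K.ze c φ ^ 2) (h0 : (0 : ℂ) ∈ V) (hr : (K.τ 0).im = 0)
    (hφ : φ ∈ U (1 / 4)) :
    0 < (K.m * K.τ 0 - Q * (K.h - K.m * Complex.sqrt (K.τ 0) - c) ^ 2).re := by
  have hm := hK.dom.m_pos
  have hl : Tendsto (fun r : ℝ => K.τ (r * φ)) (𝓝[>] 0) (𝓝 (K.τ 0)) := by
    have hc : ContinuousAt K.τ 0 := (hK.τ_der h0).continuousAt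
    have hr : Tendsto (fun r : ℝ => (r : ℂ) * φ) (𝓝[>] 0) (𝓝 0) := by
      have : Continuous fun r : ℝ => (r : ℂ) * φ := by fun_prop
      simpa using (this.tendsto 0).mono_left nhdsWithin_le_nhds
    exact hc.tendsto.comp hr
  have hj := hK.junction hP ht (hK.τ0 0 h0) hl
  have hs : Complex.sqrt (K.τ 0) ≠ 0 := hK.sg_ne h0
  have he : K.m * K.τ 0 - Q * (K.h - K.m * Complex.sqrt (K.τ 0) - c) ^ 2 =
      K.τ 0 * (K.m - Q * ((K.h - c) / Complex.sqrt (K.τ 0) - K.m) ^ 2) := by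
    generalize hw : Complex.sqrt (K.τ 0) = w at hs
    have : K.τ 0 = w ^ 2 := by rw [← hw, sq_sqrt]
    rw [this]
    field_simp
    ring
  rw [he, Complex.mul_re, hr, zero_mul, sub_zero]
  have h1 := re_ge_of_norm_sub_one (hK.τ0 0 h0)
  refine mul_pos (by linarith) ?_
  generalize K.m - Q * ((K.h - c) / Complex.sqrt (K.τ 0) - K.m) ^ 2 = J at hj
  have h2 := Complex.abs_re_le_norm (J - K.m * φ)
  simp only [Complex.sub_re, Complex.mul_re, Complex.ofReal_re, Complex.ofReal_im, zero_mul,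
    sub_zero] at h2
  have h3 := neg_abs_le (J.re - K.m * φ.re)
  have h4 := U.norm_le_re (by norm_num) le_rfl hφ
  have h5 := U.re_pos (by norm_num) hφ
  have h6 := mul_le_mul_of_nonneg_left h4 hm.le
  have h7 := mul_pos hm h5
  linarith

lemma den_ne {D : Data} {V : Set ℂ} (hT : (D.capT 0).OK V) (hB : (D.capB 0).OK V) {x θ : ℂ}
    (hx : x ∈ V) (hφ : ph x θ ∈ V) (hθ : ‖θ - 1‖ ≤ 1 / 100) :
    θ * (D.capT 0).sg (ph x θ) + (D.capB 0).sg x ≠ 0 := by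
  have h1 := hT.sg_sub hφ
  have h2 := re_ge_of_norm_sub_one (hB.sg_sub hx)
  have h3 : ‖θ * (D.capT 0).sg (ph x θ) - 1‖ ≤ 1 / 100 * (101 / 100) + 1 / 100 := by
    have e : θ * (D.capT 0).sg (ph x θ) - 1 =
        (θ - 1) * (D.capT 0).sg (ph x θ) + ((D.capT 0).sg (ph x θ) - 1) := by ring
    rw [e]
    refine (norm_add_le _ _).trans (add_le_add ?_ h1)
    rw [norm_mul]
    gcongr
    exact hT.sg_le hφ
  have h4 := re_ge_of_norm_sub_one h3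
  intro h
  have := congrArg Complex.re h
  rw [Complex.add_re, Complex.zero_re] at this
  linarith

lemma tipT {D : Data} {V : Set ℂ} (hT : (D.capT 0).OK V) {x θ : ℂ} (hφ : ph x θ ∈ V)
    (hY : D.YY 0 x θ ≠ 0) :
    (D.capT 0).mm (ph x θ) = D.QQ 0 x θ * (D.capT 0).ze (D.cc 0 x θ) (ph x θ) ^ 2 := by
  have h1 := hT.ze_mul_sg (D.cc 0 x θ) hφ
  have h2 : (D.capT 0).ze (D.cc 0 x θ) (ph x θ) = θ * D.YY 0 x θ := by
    refine mul_right_cancel₀ (hT.sg_ne hφ) ?_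
    rw [h1, Data.cc]
    ring
  rw [h2, Data.QQ]
  have : (D.capT 0).mm (ph x θ) = D.m * (1 - x) * θ ^ 2 := by
    simp only [Cap.mm, Data.capT, ph]
    ring
  rw [this]
  field_simp

lemma tipB {D : Data} {V : Set ℂ} (hT : (D.capT 0).OK V) (hB : (D.capB 0).OK V) {x θ : ℂ}
    (hx : x ∈ V) (hφ : ph x θ ∈ V) (hθ : ‖θ - 1‖ ≤ 1 / 100) (hY : D.YY 0 x θ ≠ 0) :
    (D.capB 0).mm x = D.QQ 0 x θ * (D.capB 0).ze (-D.cc 0 x θ) x ^ 2 := by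
  have h1 := hB.ze_mul_sg (-D.cc 0 x θ) hx
  have h0 := den_ne hT hB hx hφ hθ
  have h3 : D.YY 0 x θ * (θ * (D.capT 0).sg (ph x θ) + (D.capB 0).sg x) =
      (D.capT 0).ZZ (ph x θ) + (D.capB 0).ZZ x := by
    rw [Data.YY]
    exact div_mul_cancel₀ _ h0
  have h2 : (D.capB 0).ze (-D.cc 0 x θ) x = D.YY 0 x θ := by
    refine mul_right_cancel₀ (hB.sg_ne hx) ?_
    rw [h1, Data.cc]
    linear_combination -h3
  rw [h2, Data.QQ]
  have : (D.capB 0).mm x = D.m * (1 - x) := by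
    simp only [Cap.mm, Data.capB]
  rw [this]
  field_simp

/-! ### The base -/

structure Ctx (η K r0 m1 : ℝ) (th ψ M2 : ℂ → ℂ) (D : Data) : Prop where
  eq : D = Base.mk η m1 th M2
  S : Small η K r0
  C : Core η K r0 m1 th ψ M2
  N : Num η
  X : XiFacts (η ^ 2) η
  Cl : Closed η m1 D
  A : D.An0 (1 / (1000 * m1))

structure Adm (r0 : ℝ) (x θ : ℂ) : Prop where
  x_mem : x ∈ U (1 / 4)
  φ_mem : ph x θ ∈ U (1 / 4)
  θ_lt : ‖θ - 1‖ < r0 / 10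

lemma η_le {η K r0 : ℝ} (h : Small η K r0) : η ≤ r0 / 10 ^ 12 := by
  nlinarith [h.η_pos, h.K_ge, h.small]

lemma η_le' {η K r0 : ℝ} (h : Small η K r0) : η ≤ 1 / 10 ^ 15 := by
  linarith [η_le h, h.r0_le]

namespace Ctx

variable {η K r0 m1 : ℝ} {th ψ M2 : ℂ → ℂ} {D : Data} {x θ : ℂ}

lemma m_eq (h : Ctx η K r0 m1 th ψ M2 D) : D.m = m1 := by rw [h.eq]; rfl

lemma m_pos (h : Ctx η K r0 m1 th ψ M2 D) : 0 < m1 := h.m_eq ▸ h.A.m_pos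

lemma m_le (h : Ctx η K r0 m1 th ψ M2 D) : m1 ≤ r0 / 10 ^ 11 := by
  linarith [η_le h.S, h.C.m_le, h.S.r0_pos]

lemma mem_V (h : Ctx η K r0 m1 th ψ M2 D) {ξ : ℂ} (hξ : ‖ξ‖ ≤ 2) :
    ξ ∈ ball (0 : ℂ) (1 / (1000 * m1)) := by
  rw [mem_ball_zero_iff]
  linarith [h.A.R_ge]

lemma U_V (h : Ctx η K r0 m1 th ψ M2 D) {ξ : ℂ} (hξ : ξ ∈ U (1 / 4)) :
    ξ ∈ ball (0 : ℂ) (1 / (1000 * m1)) :=
  h.mem_V (by linarith [U.norm_lt (by norm_num) le_rfl hξ])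

lemma real_V (h : Ctx η K r0 m1 th ψ M2 D) {r : ℝ} (hr : r ∈ Icc (0 : ℝ) 1) :
    (r : ℂ) ∈ ball (0 : ℂ) (1 / (1000 * m1)) :=
  h.mem_V (by rw [Complex.norm_real, Real.norm_of_nonneg hr.1]; linarith [hr.2])

lemma zero_V (h : Ctx η K r0 m1 th ψ M2 D) : (0 : ℂ) ∈ ball (0 : ℂ) (1 / (1000 * m1)) :=
  h.mem_V (by simp)

lemma μ_le (h : Ctx η K r0 m1 th ψ M2 D) (hx : x ∈ U (1 / 4)) : ‖(m1 : ℂ) * (1 - x)‖ ≤ m1 := by
  rw [norm_mul, Complex.norm_real, Real.norm_of_nonneg h.m_pos.le]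
  exact mul_le_of_le_one_right h.m_pos.le (U.norm_one_sub_le (by norm_num) le_rfl hx)

lemma μ_le' (h : Ctx η K r0 m1 th ψ M2 D) (hx : x ∈ U (1 / 4)) :
    ‖(m1 : ℂ) * (1 - x)‖ ≤ 1 / 200 := (h.μ_le hx).trans (h.m_eq ▸ h.A.m_le)

lemma μ_mem (h : Ctx η K r0 m1 th ψ M2 D) (hx : x ∈ U (1 / 4)) :
    (m1 : ℂ) * (1 - x) ∈ ball (0 : ℂ) r0 := by
  rw [mem_ball_zero_iff]
  linarith [h.μ_le hx, h.m_le, h.S.r0_pos]

lemma θ_le (h : Ctx η K r0 m1 th ψ M2 D) (ha : Adm r0 x θ) : ‖θ - 1‖ ≤ 1 / 100 := by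
  linarith [ha.θ_lt, h.S.r0_le]

lemma plane (h : Ctx η K r0 m1 th ψ M2 D) (ha : Adm r0 x θ) :
    D.YY 0 x θ = YP (η ^ 2) η (m1 * (1 - x)) θ ∧
    D.cc 0 x θ = cP (η ^ 2) η (m1 * (1 - x)) θ ∧
    D.QQ 0 x θ = QP (η ^ 2) η (m1 * (1 - x)) θ :=
  h.Cl.plane x θ (by linarith [U.norm_lt (by norm_num) le_rfl ha.x_mem]) (h.θ_le ha)

lemma c_le (h : Ctx η K r0 m1 th ψ M2 D) (ha : Adm r0 x θ) :
    ‖D.cc 0 x θ‖ ≤ r0 / 5 := by
  rw [(h.plane ha).2.1]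
  have h1 := h.Cl.cP_le _ θ (h.μ_le' ha.x_mem) (h.θ_le ha)
  have h2 := η_le h.S
  have h3 := η_le' h.S
  have h4 := h.S.η_pos
  have h5 : η ^ 2 ≤ η := by nlinarith
  linarith [ha.θ_lt, h.S.r0_pos]

lemma c_le' (h : Ctx η K r0 m1 th ψ M2 D) (ha : Adm r0 x θ) :
    ‖D.cc 0 x θ‖ ≤ 1 / 8 := by
  linarith [h.c_le ha, h.S.r0_le]

lemma Y_ge (h : Ctx η K r0 m1 th ψ M2 D) (ha : Adm r0 x θ) :
    99 / 100 ≤ ‖D.YY 0 x θ‖ := by
  have h1 := h.c_le ha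
  rw [(h.plane ha).2.1] at h1
  rw [(h.plane ha).1]
  have h2 := (h.Cl.SB_sq _ ((h.μ_le' ha.x_mem).trans (by norm_num))).2
  have h3 := norm_le_of_norm_sub_one h2
  have h4 := h.μ_le' ha.x_mem
  have h5 : ‖YP (η ^ 2) η (m1 * (1 - x)) θ - 1‖ ≤ 1 / 1000 * 2 := by
    rw [YP, add_sub_cancel_left, norm_mul]
    gcongr
    · linarith [h.S.r0_le]
    · linarith
  linarith [norm_ge_of_norm_sub_one h5]

lemma Y_ne (h : Ctx η K r0 m1 th ψ M2 D) (ha : Adm r0 x θ) : D.YY 0 x θ ≠ 0 := by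
  intro h0
  have := h.Y_ge ha
  rw [h0, norm_zero] at this
  linarith

lemma Q_le (h : Ctx η K r0 m1 th ψ M2 D) (ha : Adm r0 x θ) :
    ‖D.QQ 0 x θ‖ ≤ 2 * m1 := by
  have h1 := h.Y_ge ha
  have h2 := h.μ_le ha.x_mem
  have h3 := h.m_pos
  rw [Data.QQ, norm_div, norm_pow, h.m_eq]
  calc _ ≤ m1 / (99 / 100) ^ 2 := by gcongr
    _ ≤ _ := by rw [div_le_iff₀ (by positivity)]; linarith

lemma cQ_mem (h : Ctx η K r0 m1 th ψ M2 D) (ha : Adm r0 x θ) :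
    D.cc 0 x θ ∈ ball (0 : ℂ) r0 ∧ D.QQ 0 x θ ∈ ball (0 : ℂ) r0 := by
  simp only [mem_ball_zero_iff]
  constructor
  · linarith [h.c_le ha, h.S.r0_pos]
  · linarith [h.Q_le ha, h.m_le, h.S.r0_pos]

lemma plT (h : Ctx η K r0 m1 th ψ M2 D) (ha : Adm r0 x θ) :
    (D.capT 0).Pl (ball 0 (1 / (1000 * m1))) (D.cc 0 x θ)
      (D.QQ 0 x θ) (ph x θ) :=
  ⟨h.c_le' ha, (h.Q_le ha).trans_eq (by rw [← h.m_eq]; rfl), h.U_V ha.φ_mem⟩

lemma plB (h : Ctx η K r0 m1 th ψ M2 D) (ha : Adm r0 x θ) :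
    (D.capB 0).Pl (ball 0 (1 / (1000 * m1))) (-D.cc 0 x θ)
      (D.QQ 0 x θ) x :=
  ⟨by rw [norm_neg]; exact h.c_le' ha, (h.Q_le ha).trans_eq (by rw [← h.m_eq]; rfl),
    h.U_V ha.x_mem⟩

lemma realT (h : Ctx η K r0 m1 th ψ M2 D) : ∀ ξ ∈ ball (0 : ℂ) (1 / (1000 * m1)), ξ.im = 0 →
    ((D.capT 0).τ ξ).im = 0 := fun ξ hξ hi => by
  simpa [Data.capT] using h.A.τT_real ξ hξ hi

lemma realB (h : Ctx η K r0 m1 th ψ M2 D) : ∀ ξ ∈ ball (0 : ℂ) (1 / (1000 * m1)), ξ.im = 0 →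
    ((D.capB 0).τ ξ).im = 0 := fun ξ hξ hi => by
  simpa [Data.capB] using h.A.τB_real ξ hξ hi

lemma tT (h : Ctx η K r0 m1 th ψ M2 D) (ha : Adm r0 x θ) :
    (D.capT 0).mm (ph x θ) = D.QQ 0 x θ *
      (D.capT 0).ze (D.cc 0 x θ) (ph x θ) ^ 2 :=
  tipT h.Cl.okT (h.U_V ha.φ_mem) (h.Y_ne ha)

lemma tB (h : Ctx η K r0 m1 th ψ M2 D) (ha : Adm r0 x θ) :
    (D.capB 0).mm x = D.QQ 0 x θ *
      (D.capB 0).ze (-D.cc 0 x θ) x ^ 2 :=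
  tipB h.Cl.okT h.Cl.okB (h.U_V ha.x_mem) (h.U_V ha.φ_mem) (h.θ_le ha) (h.Y_ne ha)

lemma mid (h : Ctx η K r0 m1 th ψ M2 D) (ha : Adm r0 x θ) :
    MidOK D.ξ0 D.zB D.zT (D.cc 0 x θ)
      (D.QQ 0 x θ) := by
  have hA := h.A
  have h1 := junction_pos h.Cl.okT (h.plT ha) (h.tT ha) h.zero_V (h.realT 0 h.zero_V rfl) ha.φ_mem
  have h2 := junction_pos h.Cl.okB (h.plB ha) (h.tB ha) h.zero_V (h.realB 0 h.zero_V rfl) ha.x_mem
  refine hA.mid _ _ (h.c_le' ha) (h.Cl.okT.Q_small (h.plT ha)) ?_ ?_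
  · rw [WW, hA.ξT, hA.zT_eq]
    simpa only [Data.capT, Pi.zero_apply, add_zero] using h1
  · rw [WW, hA.ξB, hA.zB_eq]
    simp only [Data.capB, Pi.zero_apply, sub_zero] at h2
    convert h2 using 3
    ring

lemma zT_eq (h : Ctx η K r0 m1 th ψ M2 D) :
    ((D.zT : ℝ) : ℂ) = (D.capT 0).ZZ 0 := by
  rw [ZZ_zero, h.A.zT_eq]
  simp only [Data.capT, Pi.zero_apply, add_zero]

lemma zB_eq (h : Ctx η K r0 m1 th ψ M2 D) :
    ((D.zB : ℝ) : ℂ) = -(D.capB 0).ZZ 0 := by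
  rw [ZZ_zero, h.A.zB_eq]
  simp only [Data.capB, Pi.zero_apply, sub_zero]

lemma z_bd (h : Ctx η K r0 m1 th ψ M2 D) : -2 ≤ D.zB ∧
    D.zB < D.zT ∧ D.zT ≤ 2 := by
  have h1 := h.Cl.okT.ZZ_sub h.zero_V
  have h2 := h.Cl.okB.ZZ_sub h.zero_V
  rw [← h.zT_eq] at h1
  rw [← neg_neg ((D.capB 0).ZZ 0), ← h.zB_eq] at h2
  have h3 : |D.zT - 1| ≤ 4 / 100 := by
    rw [← Real.norm_eq_abs, ← Complex.norm_real]
    push_cast
    exact h1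
  have h4 : |-D.zB - 1| ≤ 4 / 100 := by
    rw [← Real.norm_eq_abs, ← Complex.norm_real]
    push_cast
    exact h2
  rw [abs_le] at h3 h4
  exact ⟨by linarith [h4.2], by linarith [h3.1, h4.1], by linarith [h3.2]⟩

/-- Holomorphy along a family of admissible planes. -/
lemma hol (h : Ctx η K r0 m1 th ψ M2 D) (hm : StmtMid) {P : Set ℂ} {x θ : ℂ → ℂ} (hP : IsOpen P)
    (hx : DifferentiableOn ℂ x P) (hθ : DifferentiableOn ℂ θ P)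
    (ha : ∀ w ∈ P, Adm r0 (x w) (θ w)) :
    DifferentiableOn ℂ (fun w => D.bb 0 (x w) (θ w) -
      b0 (η ^ 2) η (D.cc 0 (x w) (θ w)) (D.QQ 0 (x w) (θ w))) P ∧
    DifferentiableOn ℂ (fun w => D.aa 0 (x w) (θ w) -
      A0 (η ^ 2) η (D.cc 0 (x w) (θ w)) (D.QQ 0 (x w) (θ w))) P := by
  obtain ⟨h1, -, h3⟩ := h.Cl.cP_hol P (fun w => m1 * (1 - x w)) θ
    (((differentiableOn_const 1).sub hx).const_mul _) hθ
    fun w hw => ⟨h.μ_le' (ha w hw).x_mem, h.θ_le (ha w hw)⟩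
  have hc : DifferentiableOn ℂ (fun w => D.cc 0 (x w) (θ w)) P :=
    h1.congr fun w hw => (h.plane (ha w hw)).2.1
  have hQ : DifferentiableOn ℂ (fun w => D.QQ 0 (x w) (θ w)) P :=
    h3.congr fun w hw => (h.plane (ha w hw)).2.2
  have hφ : DifferentiableOn ℂ (fun w => ph (x w) (θ w)) P :=
    (differentiableOn_const 1).sub (((differentiableOn_const 1).sub hx).mul (hθ.pow 2))
  have fT := h.Cl.okT.famK hP
  have fB := h.Cl.okB.famK hP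
  have pT := fun w hw => h.plT (ha w hw)
  have pB := fun w hw => h.plB (ha w hw)
  have rT := fun w hw => U.re_pos (s := 1 / 4) (by norm_num) (ha w hw).φ_mem
  have rB := fun w hw => U.re_pos (s := 1 / 4) (by norm_num) (ha w hw).x_mem
  obtain ⟨z1, z2, z3⟩ := h.z_bd
  obtain ⟨m1', m2'⟩ := (hm D.ξ0 D.zB D.zT h.A.cont z1 z2 z3 h.A.ξ0_le).2.2 P _ _ hP hc hQ
    fun w hw => h.mid (ha w hw)
  have hcQ : DifferentiableOn ℂ (fun w => (D.cc 0 (x w) (θ w), D.QQ 0 (x w) (θ w))) P :=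
    hc.prodMk hQ
  have hmaps : MapsTo (fun w => (D.cc 0 (x w) (θ w), D.QQ 0 (x w) (θ w))) P
      (ball (0 : ℂ × ℂ) r0) := fun w hw => by
    have := h.cQ_mem (ha w hw)
    simp only [mem_ball_zero_iff, Prod.norm_def, max_lt_iff] at this ⊢
    exact this
  have hb : DifferentiableOn ℂ
      (fun w => b0 (η ^ 2) η (D.cc 0 (x w) (θ w)) (D.QQ 0 (x w) (θ w))) P := by
    simpa only [Function.comp_def] using h.C.b_hol.comp hcQ hmaps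
  have hA : DifferentiableOn ℂ
      (fun w => A0 (η ^ 2) η (D.cc 0 (x w) (θ w)) (D.QQ 0 (x w) (θ w))) P := by
    simpa only [Function.comp_def] using h.C.A_hol.comp hcQ hmaps
  have hc' : DifferentiableOn ℂ (fun w => -D.cc 0 (x w) (θ w)) P := hc.fun_neg
  have ma : DifferentiableOn ℂ
      (fun w => amid D.ξ0 D.zB D.zT (D.cc 0 (x w) (θ w)) (D.QQ 0 (x w) (θ w))) P :=
    fun w hw => (m2' w hw).differentiableAt.differentiableWithinAt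
  simp only [Data.aa, Data.bb]
  exact ⟨(((fT.bcap_hol hc hQ hφ pT rT).fun_sub (fB.bcap_hol hc' hQ hx pB rB)).fun_add
      m1').fun_sub hb,
    (((fT.acap_hol hc hQ hφ pT rT).fun_add (fB.acap_hol hc' hQ hx pB rB)).fun_add ma).fun_sub hA⟩

lemma contT (h : Ctx η K r0 m1 th ψ M2 D) :
    ContinuousOn (fun r : ℝ => (D.capT 0).τ r) (Icc 0 1) :=
  h.Cl.okT.hol.continuousOn.comp (by fun_prop) fun _ hr => h.real_V hr

lemma contB (h : Ctx η K r0 m1 th ψ M2 D) :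
    ContinuousOn (fun r : ℝ => (D.capB 0).τ r) (Icc 0 1) :=
  h.Cl.okB.hol.continuousOn.comp (by fun_prop) fun _ hr => h.real_V hr

lemma τT_eq (h : Ctx η K r0 m1 th ψ M2 D) : (D.capT 0).τ =
    fun ξ => (R2R (η ^ 2) η : ℂ) / (1 + ((1 + η ^ 2) * m1 : ℝ) * (1 - ξ)) := by
  funext ξ
  rw [h.eq]
  simp only [Data.capT, Base.mk, Pi.zero_apply, add_zero]
  push_cast
  ring

lemma τB_eq (h : Ctx η K r0 m1 th ψ M2 D) : (D.capB 0).τ =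
    fun ξ => ((1 : ℝ) : ℂ) / (1 + (m1 : ℝ) * (1 - ξ)) := by
  funext ξ
  rw [h.eq]
  simp only [Data.capB, Base.mk, Pi.zero_apply, sub_zero]
  push_cast
  ring

end Ctx

lemma deriv_re_nonneg {A l r : ℝ} (hA : 0 ≤ A) (hl : 0 ≤ l) (hr : r ≤ 1) :
    0 ≤ (deriv (fun ξ : ℂ => (A : ℂ) / (1 + (l : ℂ) * (1 - ξ))) r).re := by
  have h0 : 0 < 1 + l * (1 - r) := by nlinarith
  have h1 : (1 + (l : ℂ) * (1 - r)) ≠ 0 := by exact_mod_cast h0.ne'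
  have h2 : HasDerivAt (fun ξ : ℂ => (A : ℂ) / (1 + (l : ℂ) * (1 - ξ)))
      ((A * l / (1 + l * (1 - r)) ^ 2 : ℝ) : ℂ) r := by
    refine hasDerivAt_of_eq ((hasDerivAt_const (r : ℂ) (A : ℂ)).div
      ((((hasDerivAt_id (r : ℂ)).const_sub 1).const_mul (l : ℂ)).const_add 1) h1)
      (fun _ => rfl) ?_
    push_cast
    simp
  rw [h2.deriv, Complex.ofReal_re]
  positivity

namespace Ctx

variable {η K r0 m1 : ℝ} {th ψ M2 : ℂ → ℂ} {D : Data} {x θ : ℂ}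

lemma R2_pos (h : Ctx η K r0 m1 th ψ M2 D) : 0 ≤ R2R (η ^ 2) η := by
  have h1 := re_ge_of_norm_sub_one (h.Cl.okT.τ0 1 (h.mem_V (by simp)))
  rw [h.τT_eq] at h1
  simp only [sub_self, mul_zero, add_zero, div_one, Complex.ofReal_re] at h1
  linarith

lemma okT (h : Ctx η K r0 m1 th ψ M2 D) (hb : StmtBridge) : (D.capT 0).toR.OK := by
  refine (hb _ _ h.Cl.okT (fun r hr => h.real_V ⟨hr.1.le, hr.2⟩) h.realT h.contT).1 fun r hr => ?_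
  rw [h.τT_eq]
  exact deriv_re_nonneg h.R2_pos (mul_nonneg (by positivity) h.m_pos.le) hr.2.le

lemma okB (h : Ctx η K r0 m1 th ψ M2 D) (hb : StmtBridge) : (D.capB 0).toR.OK := by
  refine (hb _ _ h.Cl.okB (fun r hr => h.real_V ⟨hr.1.le, hr.2⟩) h.realB h.contB).1 fun r hr => ?_
  rw [h.τB_eq]
  exact deriv_re_nonneg zero_le_one h.m_pos.le hr.2.le

lemma ZT_ge (h : Ctx η K r0 m1 th ψ M2 D) {r : ℝ} (hr : r ∈ Icc (0 : ℝ) 1) :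
    aR < (D.capT 0).toR.Z r := by
  have := re_ge_of_norm_sub_one (h.Cl.okT.ZZ_sub (h.real_V hr))
  simp only [Cap.toR]
  linarith [h.N.a2]

lemma ZB_ge (h : Ctx η K r0 m1 th ψ M2 D) {r : ℝ} (hr : r ∈ Icc (0 : ℝ) 1) :
    0 < (D.capB 0).toR.Z r := by
  have := re_ge_of_norm_sub_one (h.Cl.okB.ZZ_sub (h.real_V hr))
  simp only [Cap.toR]
  linarith

lemma tanT (h : Ctx η K r0 m1 th ψ M2 D) (hb : StmtBridge) {r : ℝ} (hr : r ∈ Icc (0 : ℝ) 1) :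
    xi (η ^ 2) η ((D.capT 0).toR.Z r) = (D.capT 0).toR.T r := by
  obtain ⟨h1, h2, h3⟩ :=
    (hb _ _ h.Cl.okT (fun r hr => h.real_V ⟨hr.1.le, hr.2⟩) h.realT h.contT).2.1 r hr
  rw [h.Cl.ZT r (h.real_V hr), ← h.Cl.sgT, ← h1] at h2
  simp only [h.τT_eq] at h3
  have h4 : (D.capT 0).toR.Z r = z0R (η ^ 2) η + (D.capT 0).toR.σ r / (1 + η ^ 2) := by
    exact_mod_cast h2
  have h5 : (D.capT 0).toR.σ r ^ 2 = R2R (η ^ 2) η / (1 + (1 + η ^ 2) * m1 * (1 - r)) := by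
    exact_mod_cast h3
  have h6 : 0 < 1 + (1 + η ^ 2) * m1 * (1 - r) := by
    have := mul_nonneg (mul_nonneg (by positivity : 0 ≤ 1 + η ^ 2) h.m_pos.le) (sub_nonneg.mpr hr.2)
    linarith
  rw [eq_div_iff h6.ne'] at h5
  have h7 : (D.capT 0).toR.m = m1 := h.m_eq
  rw [h.X.top _ (h.ZT_ge hr).le, RCap.T, h4, h7]
  generalize (D.capT 0).toR.σ r = s at h5
  rw [R2R] at h5
  rw [z0R]
  have h8 : (1 + η ^ 2) ≠ 0 := by positivity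
  field_simp
  linear_combination (-4 : ℝ) * h5

lemma tanB (h : Ctx η K r0 m1 th ψ M2 D) (hb : StmtBridge) {r : ℝ} (hr : r ∈ Icc (0 : ℝ) 1) :
    xi (η ^ 2) η (-(D.capB 0).toR.Z r) = (D.capB 0).toR.T r := by
  obtain ⟨h1, h2, h3⟩ :=
    (hb _ _ h.Cl.okB (fun r hr => h.real_V ⟨hr.1.le, hr.2⟩) h.realB h.contB).2.1 r hr
  rw [h.Cl.ZB r (h.real_V hr), ← h.Cl.sgB, ← h1] at h2
  simp only [h.τB_eq] at h3
  have h4 : (D.capB 0).toR.Z r = (D.capB 0).toR.σ r := by exact_mod_cast h2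
  have h5 : (D.capB 0).toR.σ r ^ 2 = 1 / (1 + m1 * (1 - r)) := by exact_mod_cast h3
  have h6 : 0 < 1 + m1 * (1 - r) := by
    have := mul_nonneg h.m_pos.le (sub_nonneg.mpr hr.2)
    linarith
  rw [eq_div_iff h6.ne'] at h5
  have h7 : (D.capB 0).toR.m = m1 := h.m_eq
  rw [h.X.low _ (by linarith [h.ZB_ge hr]), RCap.T, h4, h7]
  linear_combination -h5

/-- The identity for real parameters. -/
lemma real_case (h : Ctx η K r0 m1 th ψ M2 D) (h6 : StmtQuad) (hm : StmtMid) (hb : StmtBridge)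
    {x θ : ℝ} (hx : x ∈ Ioo (0 : ℝ) 1) (ha : Adm r0 x θ) :
    D.bb 0 x θ = b0 (η ^ 2) η (D.cc 0 x θ) (D.QQ 0 x θ) ∧
    D.aa 0 x θ = A0 (η ^ 2) η (D.cc 0 x θ) (D.QQ 0 x θ) := by
  obtain ⟨φ, hφ, hφ1⟩ : ∃ φ : ℝ, ph x θ = φ ∧ φ ≤ 1 :=
    ⟨1 - (1 - x) * θ ^ 2, by simp [ph], by nlinarith [hx.2, sq_nonneg θ]⟩
  have hφ0 : 0 < φ := by
    have := U.re_pos (s := 1 / 4) (by norm_num) ha.φ_mem
    rwa [hφ, Complex.ofReal_re] at this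
  have hφV := h.U_V ha.φ_mem
  have hxV := h.U_V ha.x_mem
  have rφ : Rl (ph x θ) := hφ ▸ Rl.ofReal φ
  have rZT := h.Cl.okT.rl_ZZ h.realT hφV rφ
  have rsT := h.Cl.okT.rl_sg h.realT hφV rφ
  have rY : Rl (D.YY 0 x θ) := (rZT.add (h.Cl.okB.rl_ZZ h.realB hxV (Rl.ofReal x))).div
    (((Rl.ofReal θ).mul rsT).add (h.Cl.okB.rl_sg h.realB hxV (Rl.ofReal x)))
  have rc : Rl (D.cc 0 x θ) := rZT.sub (((Rl.ofReal θ).mul rsT).mul rY)
  obtain ⟨c, hc⟩ : ∃ c : ℝ, D.cc 0 x θ = c := ⟨_, eq_ofReal_re rc⟩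
  obtain ⟨Q, hQ, hQ0⟩ : ∃ Q : ℝ, D.QQ 0 x θ = Q ∧ 0 ≤ Q := by
    refine ⟨D.m * (1 - x) / (D.YY 0 x θ).re ^ 2, ?_,
      div_nonneg (mul_nonneg h.A.m_pos.le (by linarith [hx.2])) (sq_nonneg _)⟩
    rw [Data.QQ]
    push_cast
    rw [← eq_ofReal_re rY]
  have pT := h.plT ha
  have pB := h.plB ha
  have tT := h.tT ha
  have tB := h.tB ha
  have md := h.mid ha
  have c8 := h.c_le' ha
  have Q50 := h.Cl.okT.Q_small pT
  simp only [Data.aa, Data.bb]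
  rw [hc, hQ] at pT pB tT tB md ⊢
  rw [hφ] at pT tT ⊢
  rw [← Complex.ofReal_neg] at pB tB ⊢
  rw [hc, Complex.norm_real, Real.norm_eq_abs] at c8
  rw [hQ, Complex.norm_real, Real.norm_of_nonneg hQ0] at Q50
  have hφI : φ ∈ Ioc (0 : ℝ) 1 := ⟨hφ0, hφ1⟩
  have hxI : x ∈ Ioc (0 : ℝ) 1 := ⟨hx.1, hx.2.le⟩
  have hφC : φ ∈ Icc (0 : ℝ) 1 := ⟨hφ0.le, hφ1⟩
  have hxC : x ∈ Icc (0 : ℝ) 1 := ⟨hx.1.le, hx.2.le⟩
  obtain ⟨-, bT2, bT3⟩ := hb _ _ h.Cl.okT (fun r hr => h.real_V ⟨hr.1.le, hr.2⟩) h.realT h.contT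
  obtain ⟨-, bB2, bB3⟩ := hb _ _ h.Cl.okB (fun r hr => h.real_V ⟨hr.1.le, hr.2⟩) h.realB h.contB
  obtain ⟨-, eT, -, aT, bT⟩ := bT3 c Q φ hφI pT tT
  obtain ⟨-, eB, -, aB, bB⟩ := bB3 (-c) Q x hxI pB tB
  obtain ⟨z1, z2, z3⟩ := h.z_bd
  obtain ⟨aM, bM⟩ := (hm D.ξ0 D.zB D.zT h.A.cont z1 z2 z3 h.A.ξ0_le).2.1 c Q md
  have hξ : D.ξ0 = xi (η ^ 2) η := by rw [h.eq]; rfl
  have zT : D.zT = (D.capT 0).toR.Z 0 := by
    have := (bT2 0 GeoMem.zero_mem).2.1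
    rw [Complex.ofReal_zero, ← h.zT_eq] at this
    exact_mod_cast this.symm
  have zB : D.zB = -(D.capB 0).toR.Z 0 := by
    have := (bB2 0 GeoMem.zero_mem).2.1
    rw [Complex.ofReal_zero, ← neg_inj, ← h.zB_eq] at this
    exact_mod_cast this.symm
  have oT := h.okT hb
  have oB := h.okB hb
  have nT := fun r (hr : r ∈ Icc (0 : ℝ) 1) => h.tanT hb hr
  have nB := fun r (hr : r ∈ Icc (0 : ℝ) 1) => h.tanB hb hr
  have gT := h.ZT_ge hφC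
  have gB := h.ZB_ge hxC
  rw [aT, aB, bT, bB, aM, bM, hξ, zT, zB]
  rw [zT, zB] at z2
  generalize (D.capT 0).toR = T at *
  generalize (D.capB 0).toR = B at *
  have hη := h.S.η_pos
  have hη' := η_le' h.S
  obtain ⟨-, q2, q3, q4⟩ := h6 (η ^ 2) η c Q (-B.Z x) (T.Z φ) (by positivity) (by nlinarith)
    hη.le (by linarith) c8 hQ0 Q50 (by linarith) gT
    (by rw [nB x hxC]; linear_combination eB) (by rw [nT φ hφC]; exact eT)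
  push_cast at q3 q4
  have sT : ∀ r ∈ Ioo 0 φ, r ∈ Icc (0 : ℝ) 1 := fun r hr => ⟨hr.1.le, hr.2.le.trans hφ1⟩
  have sB : ∀ r ∈ Ioo 0 x, r ∈ Icc (0 : ℝ) 1 := fun r hr => ⟨hr.1.le, hr.2.le.trans hx.2.le⟩
  constructor
  · have ig : IntervalIntegrable (fun z => (z - c) / √(xi (η ^ 2) η z - Q * (z - c) ^ 2)) volume
        (-B.Z x) (T.Z φ) := by
      have := q2.continuousOn_mul (g := fun z => z - c) (by fun_prop)
      simpa only [mul_one_div] using this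
    have e := glue oT oB hφI hxI z2.le ig
    rw [← q3, ← e]
    have e1 : ∫ r in (0 : ℝ)..φ, (T.Z r - c) * T.Z' r / √(T.T r - Q * (T.Z r - c) ^ 2) =
        ∫ r in (0 : ℝ)..φ,
          (T.Z r - c) / √(xi (η ^ 2) η (T.Z r) - Q * (T.Z r - c) ^ 2) * T.Z' r :=
      int_congr_Ioo hφ0.le fun r hr => by rw [nT r (sT r hr)]; ring
    have e2 : ∫ r in (0 : ℝ)..x, (B.Z r - -c) * B.Z' r / √(B.T r - Q * (B.Z r - -c) ^ 2) =
        -∫ r in (0 : ℝ)..x,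
          (-B.Z r - c) / √(xi (η ^ 2) η (-B.Z r) - Q * (-B.Z r - c) ^ 2) * B.Z' r := by
      rw [← intervalIntegral.integral_neg]
      refine int_congr_Ioo hx.1.le fun r hr => ?_
      rw [nB r (sB r hr), show (-B.Z r - c) ^ 2 = (B.Z r - -c) ^ 2 by ring]
      ring
    rw [e1, e2]
    push_cast
    ring
  · have ig : IntervalIntegrable (fun z => 2 * √(xi (η ^ 2) η z - Q * (z - c) ^ 2)) volume
        (-B.Z x) (T.Z φ) := by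
      have := h.X.cont
      exact Continuous.intervalIntegrable (by fun_prop) _ _
    have e := glue oT oB hφI hxI z2.le ig
    rw [← q4, ← e]
    have e1 : ∫ r in (0 : ℝ)..φ, 2 * √(T.T r - Q * (T.Z r - c) ^ 2) * T.Z' r =
        ∫ r in (0 : ℝ)..φ, 2 * √(xi (η ^ 2) η (T.Z r) - Q * (T.Z r - c) ^ 2) * T.Z' r :=
      int_congr_Ioo hφ0.le fun r hr => by rw [nT r (sT r hr)]
    have e2 : ∫ r in (0 : ℝ)..x, 2 * √(B.T r - Q * (B.Z r - -c) ^ 2) * B.Z' r =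
        ∫ r in (0 : ℝ)..x, 2 * √(xi (η ^ 2) η (-B.Z r) - Q * (-B.Z r - c) ^ 2) * B.Z' r :=
      int_congr_Ioo hx.1.le fun r hr => by
        rw [nB r (sB r hr), show (-B.Z r - c) ^ 2 = (B.Z r - -c) ^ 2 by ring]
    rw [e1, e2]
    push_cast
    ring

lemma th0_eq (h : Ctx η K r0 m1 th ψ M2 D) (x : ℂ) : D.th0 x = th (m1 * (1 - x)) := by
  rw [h.eq]; rfl

lemma rho_pos (h : Ctx η K r0 m1 th ψ M2 D) : 0 < D.rho := div_pos h.A.t_pos (by norm_num)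

lemma rho_le (h : Ctx η K r0 m1 th ψ M2 D) : D.rho ≤ η ^ 2 / 2 := by
  have h1 : D.rho = η ^ 2 * m1 / 21 / 1000 := by rw [h.eq]; rfl
  have h2 : m1 ≤ 1 := by linarith [h.m_le, h.S.r0_le]
  have h3 := mul_le_of_le_one_right (sq_nonneg η) h2
  rw [h1]
  linarith [sq_nonneg η]

lemma d_le (h : Ctx η K r0 m1 th ψ M2 D) (x : ℂ) {e : ℂ} (he : ‖e‖ ≤ 1) :
    ‖(D.rho : ℂ) * x ^ 2 * e‖ ≤ D.rho * ‖x‖ ^ 2 := by
  rw [norm_mul, norm_mul, norm_pow, Complex.norm_real, Real.norm_of_nonneg h.rho_pos.le]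
  exact mul_le_of_le_one_right (mul_nonneg h.rho_pos.le (sq_nonneg _)) he

lemma θ_sub (h : Ctx η K r0 m1 th ψ M2 D) (hx : x ∈ U (1 / 4)) {d : ℂ}
    (hd : ‖d‖ ≤ D.rho * ‖x‖ ^ 2) : ‖D.th0 x + d - 1‖ ≤ 2 * (K * η ^ 2) := by
  have h1 := h.C.th_le _ (h.μ_mem hx)
  rw [← h.th0_eq] at h1
  have h2 : ‖x‖ ^ 2 ≤ 2 := by
    nlinarith [U.norm_lt (by norm_num) le_rfl hx, norm_nonneg x]
  have h3 : D.rho * ‖x‖ ^ 2 ≤ η ^ 2 / 2 * 2 :=
    mul_le_mul h.rho_le h2 (sq_nonneg _) (by positivity)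
  have h4 := le_mul_of_one_le_left (sq_nonneg η) h.S.K_ge
  have h5 := norm_add_le (D.th0 x - 1) d
  rw [show D.th0 x - 1 + d = D.th0 x + d - 1 by ring] at h5
  linarith

lemma adm (h : Ctx η K r0 m1 th ψ M2 D) (hx : x ∈ U (1 / 4)) {d : ℂ}
    (hd : ‖d‖ ≤ D.rho * ‖x‖ ^ 2) : Adm r0 x (D.th0 x + d) := by
  refine ⟨hx, (h.A.inv (1 / 4) ⟨by norm_num, le_rfl⟩ x hx d hd).1, (h.θ_sub hx hd).trans_lt ?_⟩
  have h1 := h.S.small
  have h2 := η_le' h.S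
  have h3 := h.S.η_pos
  have h4 := h.S.r0_pos
  have h5 : K * η * η ≤ r0 / 10 ^ 12 * 1 := mul_le_mul h1 (by linarith) h3.le (by positivity)
  rw [show K * η ^ 2 = K * η * η by ring]
  linarith

/-- Continuation in the tip. -/
lemma step1 (h : Ctx η K r0 m1 th ψ M2 D) (h6 : StmtQuad) (hm : StmtMid) (hb : StmtBridge)
    {e : ℝ} (he : e ∈ Ioo (-1 : ℝ) 1) (hx : x ∈ U (1 / 4)) :
    D.bb 0 x (D.th0 x + D.rho * x ^ 2 * e) - b0 (η ^ 2) η (D.cc 0 x (D.th0 x + D.rho * x ^ 2 * e))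
      (D.QQ 0 x (D.th0 x + D.rho * x ^ 2 * e)) = 0 ∧
    D.aa 0 x (D.th0 x + D.rho * x ^ 2 * e) - A0 (η ^ 2) η (D.cc 0 x (D.th0 x + D.rho * x ^ 2 * e))
      (D.QQ 0 x (D.th0 x + D.rho * x ^ 2 * e)) = 0 := by
  have he' : ‖(e : ℂ)‖ ≤ 1 := by
    rw [Complex.norm_real, Real.norm_eq_abs, abs_le]
    exact ⟨he.1.le, he.2.le⟩
  have ha : ∀ w ∈ U (1 / 4), Adm r0 w (D.th0 w + D.rho * w ^ 2 * e) := fun w hw =>
    h.adm hw (h.d_le w he')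
  obtain ⟨H1, H2⟩ := h.hol hm (x := fun w => w) (θ := fun w => D.th0 w + D.rho * w ^ 2 * e)
    (isOpen_U (1 / 4)) differentiableOn_id (h.A.th0_hol.fun_add (by fun_prop)) ha
  have key : ∀ r ∈ Ioo (0 : ℝ) 1, (r : ℂ) ∈ U (1 / 4) ∧
      D.bb 0 r (D.th0 r + D.rho * r ^ 2 * e) = b0 (η ^ 2) η
        (D.cc 0 r (D.th0 r + D.rho * r ^ 2 * e)) (D.QQ 0 r (D.th0 r + D.rho * r ^ 2 * e)) ∧
      D.aa 0 r (D.th0 r + D.rho * r ^ 2 * e) = A0 (η ^ 2) η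
        (D.cc 0 r (D.th0 r + D.rho * r ^ 2 * e)) (D.QQ 0 r (D.th0 r + D.rho * r ^ 2 * e)) := by
    intro r hr
    have hrU : (r : ℂ) ∈ U (1 / 4) := U.ofReal_mem (by norm_num) ⟨hr.1, hr.2.le⟩
    have h1 : Rl (D.th0 r + D.rho * r ^ 2 * e) :=
      Rl.add (h.A.th0_real r hrU (Complex.ofReal_im r))
        (((Rl.ofReal _).mul ((Rl.ofReal r).pow 2)).mul (Rl.ofReal e))
    have h2 := ha r hrU
    rw [eq_ofReal_re h1] at h2 ⊢
    exact ⟨hrU, h.real_case h6 hm hb hr h2⟩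
  exact ⟨eq_zero_of_real (isOpen_U _) (convex_U _) H1 zero_lt_one
      (fun r hr => ⟨(key r hr).1, sub_eq_zero.mpr (key r hr).2.1⟩) hx,
    eq_zero_of_real (isOpen_U _) (convex_U _) H2 zero_lt_one
      (fun r hr => ⟨(key r hr).1, sub_eq_zero.mpr (key r hr).2.2⟩) hx⟩

end Ctx

lemma zero_closed {f : ℂ → ℂ} {P : Set ℂ} (hf : DifferentiableOn ℂ f P)
    (hP : closedBall (0 : ℂ) 1 ⊆ P) (h : ∀ r ∈ Ioo (-1 : ℝ) 1, f r = 0) {e : ℂ} (he : ‖e‖ ≤ 1) :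
    f e = 0 := by
  have h1 : EqOn f (fun _ => 0) (ball 0 1) := fun z hz =>
    eq_zero_of_real isOpen_ball (convex_ball 0 1) (hf.mono (ball_subset_closedBall.trans hP))
      (a := -1) (b := 1) (by norm_num) (fun r hr => ⟨by
        rw [mem_ball_zero_iff, Complex.norm_real, Real.norm_eq_abs, abs_lt]; exact hr, h r hr⟩) hz
  exact h1.of_subset_closure (t := closedBall 0 1) (hf.continuousOn.mono hP) continuousOn_const
    ball_subset_closedBall (closure_ball (0 : ℂ) one_ne_zero).ge (mem_closedBall_zero_iff.mpr he)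

namespace Ctx

variable {η K r0 m1 : ℝ} {th ψ M2 : ℂ → ℂ} {D : Data} {x θ : ℂ}

/-- Continuation in the slope. -/
lemma ident (h : Ctx η K r0 m1 th ψ M2 D) (h6 : StmtQuad) (hm : StmtMid) (hb : StmtBridge)
    (hx : x ∈ U (1 / 4)) {d : ℂ} (hd : ‖d‖ ≤ D.rho * ‖x‖ ^ 2) :
    D.bb 0 x (D.th0 x + d) = b0 (η ^ 2) η (D.cc 0 x (D.th0 x + d)) (D.QQ 0 x (D.th0 x + d)) ∧
    D.aa 0 x (D.th0 x + d) = A0 (η ^ 2) η (D.cc 0 x (D.th0 x + d)) (D.QQ 0 x (D.th0 x + d)) := by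
  have hρ := h.rho_pos
  have hx0 := U.norm_pos hx
  have hne : (D.rho : ℂ) * x ^ 2 ≠ 0 :=
    mul_ne_zero (by exact_mod_cast hρ.ne') (pow_ne_zero 2 (U.ne_zero hx))
  obtain ⟨e, he, rfl⟩ : ∃ e : ℂ, ‖e‖ ≤ 1 ∧ d = D.rho * x ^ 2 * e := by
    refine ⟨d / (D.rho * x ^ 2), ?_, (mul_div_cancel₀ _ hne).symm⟩
    rw [norm_div, norm_mul, norm_pow, Complex.norm_real, Real.norm_of_nonneg hρ.le]
    exact (div_le_one (by positivity)).mpr hd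
  set P : Set ℂ := {w | ph x (D.th0 x + D.rho * x ^ 2 * w) ∈ U (1 / 4) ∧
    ‖D.th0 x + D.rho * x ^ 2 * w - 1‖ < r0 / 10} with hPdef
  have hP : IsOpen P := by
    refine IsOpen.inter ((isOpen_U (1 / 4)).preimage
      (f := fun w => ph x (D.th0 x + D.rho * x ^ 2 * w)) ?_)
      (isOpen_lt (f := fun w => ‖D.th0 x + D.rho * x ^ 2 * w - 1‖) (g := fun _ => r0 / 10)
        (by fun_prop) continuous_const)
    unfold ph
    fun_prop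
  have hs : closedBall (0 : ℂ) 1 ⊆ P := fun w hw =>
    have := h.adm hx (h.d_le x (mem_closedBall_zero_iff.mp hw))
    ⟨this.φ_mem, this.θ_lt⟩
  obtain ⟨H1, H2⟩ := h.hol hm (x := fun _ => x) (θ := fun w => D.th0 x + D.rho * x ^ 2 * w) hP
    (differentiableOn_const x) (by fun_prop) fun w hw => ⟨hx, hw.1, hw.2⟩
  exact ⟨sub_eq_zero.mp (zero_closed H1 hs (fun r hr => (h.step1 h6 hm hb hr hx).1) he),
    sub_eq_zero.mp (zero_closed H2 hs (fun r hr => (h.step1 h6 hm hb hr hx).2) he)⟩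

lemma est (h : Ctx η K r0 m1 th ψ M2 D) (hx : x ∈ U (1 / 4)) {d : ℂ}
    (hd : ‖d‖ ≤ D.rho * ‖x‖ ^ 2) :
    ‖b0 (η ^ 2) η (D.cc 0 x (D.th0 x + d)) (D.QQ 0 x (D.th0 x + d)) - Real.pi / 2 * d‖ ≤
      Real.pi / 32 * ‖d‖ := by
  have ha := h.adm hx hd
  have h0 := h.S.r0_pos
  have h1 := h.C.b_est _ (h.μ_mem hx) (D.th0 x + d) (by
    rw [mem_ball, dist_eq_norm]; linarith [ha.θ_lt])
  rw [← h.th0_eq, add_sub_cancel_left, ← (h.plane ha).2.1, ← (h.plane ha).2.2] at h1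
  refine h1.trans (mul_le_mul_of_nonneg_right ?_ (norm_nonneg _))
  have h2 := h.θ_sub hx hd
  have h3 := (h.μ_le hx).trans h.C.m_le
  have hK : 0 ≤ K := by linarith [h.S.K_ge]
  have h4 : K * η ≤ 1 / 1000 := by linarith [h.S.small, h.S.r0_le]
  have h5 : 0 ≤ K * η := mul_nonneg hK h.S.η_pos.le
  have h6 : K * (η + ‖(m1 : ℂ) * (1 - x)‖ + ‖D.th0 x + d - 1‖) ≤
      K * (η + 2 * η + 2 * (K * η ^ 2)) := by gcongr
  have h7 : K * (η + 2 * η + 2 * (K * η ^ 2)) = 3 * (K * η) + 2 * (K * η) ^ 2 := by ring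
  nlinarith [Real.pi_gt_three]

end Ctx

end BaseIdent

open BaseIdent in
theorem base_ident (h0 : StmtXi) (h2 : StmtClosed) (h4 : StmtAn0) (h6 : StmtQuad) (hm : StmtMid)
    (hb : StmtBridge) : StmtIdent := by
  intro η K r0 m1 th ψ M2 hS hC
  have hη := hS.η_pos
  have hη' := η_le' hS
  obtain ⟨hN, hX⟩ := h0 (η ^ 2) η (by positivity) (by nlinarith) hη.le (by linarith)
  have h : Ctx η K r0 m1 th ψ M2 (mk η m1 th M2) :=
    ⟨rfl, hS, hC, hN, hX, h2 η m1 th M2 hη (by linarith) (by linarith [hC.m_ge]) hC.m_le,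
      h4 η K r0 m1 th ψ M2 hS hC⟩
  have hM : (mk η m1 th M2).M2 = M2 := rfl
  rw [hM]
  generalize mk η m1 th M2 = D at h
  refine ⟨fun x hx d hd => ?_, fun x hx => ?_⟩
  · rw [(h.ident h6 hm hb hx hd).1]
    exact h.est hx hd
  · have hd : ‖(0 : ℂ)‖ ≤ D.rho * ‖x‖ ^ 2 := by
      rw [norm_zero]
      exact mul_nonneg h.rho_pos.le (sq_nonneg _)
    have h1 := (h.ident h6 hm hb hx hd).2
    have h3 := h.est hx hd
    have h5 := h.cQ_mem (h.adm hx hd)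
    simp only [add_zero, mul_zero, sub_zero, norm_zero, norm_le_zero_iff] at h1 h3 h5
    rw [h1, hC.M2_eq _ h5.1 _ h5.2 h3]

end

end Pool.Agent.Lib.MP_87c84d_gt
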