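import Pool.Agent.Lib.MP_87c84d_gt.BaseDefs

/-!
Evaluation of the section integrals of the base body: three quadric pieces.
-/

namespace Pool.Agent.Lib.MP_87c84d_gt

open MeasureTheory Set Metric Filter Topology
open Base

noncomputable section

namespace BaseQuad

/-- A quadric piece. -/
def Wq (l d y z : ℝ) : ℝ := l * (d ^ 2 - (z - y) ^ 2)

/-- The angle primitive. -/
def Th (l d y z : ℝ) : ℝ := Real.arcsin ((z - y) / d) / √l

lemma Wq_pos {l d y z : ℝ} (hl : 0 < l) (h1 : y - d < z) (h2 : z < y + d) : 0 < Wq l d y z := by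
  unfold Wq
  have : 0 < d ^ 2 - (z - y) ^ 2 := by nlinarith
  positivity

lemma cont_Wq (l d y : ℝ) : Continuous (Wq l d y) := by
  unfold Wq; fun_prop

lemma cont_Th (l d y : ℝ) : Continuous (Th l d y) := by
  unfold Th
  exact (Real.continuous_arcsin.comp (by fun_prop)).div_const _

lemma cont_sq (l d y : ℝ) : Continuous fun z => √(Wq l d y z) :=
  Real.continuous_sqrt.comp (cont_Wq l d y)

lemma der_Th {l d y z : ℝ} (hl : 0 < l) (hd : 0 < d) (h1 : y - d < z) (h2 : z < y + d) :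
    HasDerivAt (Th l d y) (1 / √(Wq l d y z)) z := by
  have hs : HasDerivAt (fun z : ℝ => (z - y) / d) (1 / d) z :=
    ((hasDerivAt_id z).sub_const y).div_const d
  have e1 : (z - y) / d ≠ -1 := by
    intro h
    rw [div_eq_iff hd.ne'] at h
    linarith
  have e2 : (z - y) / d ≠ 1 := by
    intro h
    rw [div_eq_iff hd.ne'] at h
    linarith
  have h3 := ((Real.hasDerivAt_arcsin e1 e2).comp z hs).div_const (√l)
  have hp : 0 < d ^ 2 - (z - y) ^ 2 := by nlinarith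
  have e3 : 1 - ((z - y) / d) ^ 2 = (d ^ 2 - (z - y) ^ 2) / d ^ 2 := by
    field_simp
  have e4 : √(1 - ((z - y) / d) ^ 2) = √(d ^ 2 - (z - y) ^ 2) / d := by
    rw [e3, Real.sqrt_div hp.le, Real.sqrt_sq hd.le]
  have e5 : √(Wq l d y z) = √l * √(d ^ 2 - (z - y) ^ 2) := by
    unfold Wq
    rw [Real.sqrt_mul hl.le]
  have p1 : 0 < √l := Real.sqrt_pos.mpr hl
  have p2 : 0 < √(d ^ 2 - (z - y) ^ 2) := Real.sqrt_pos.mpr hp
  refine HasDerivAt.congr_deriv h3 ?_
  rw [e4, e5]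
  field_simp

lemma der_sq {l d y z : ℝ} (hl : 0 < l) (h1 : y - d < z) (h2 : z < y + d) :
    HasDerivAt (fun z => √(Wq l d y z)) (-(l * ((z - y) / √(Wq l d y z)))) z := by
  have hp := Wq_pos hl h1 h2
  have hW : HasDerivAt (Wq l d y) (l * (-(2 * (z - y)))) z := by
    unfold Wq
    have h := ((((hasDerivAt_id z).sub_const y).pow 2).const_sub (d ^ 2)).const_mul l
    refine HasDerivAt.congr_deriv h ?_
    simp
  have h3 := hW.sqrt hp.ne'
  have p2 : 0 < √(Wq l d y z) := Real.sqrt_pos.mpr hp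
  refine HasDerivAt.congr_deriv h3 ?_
  field_simp

lemma der_area {l d y z : ℝ} (hl : 0 < l) (hd : 0 < d) (h1 : y - d < z) (h2 : z < y + d) :
    HasDerivAt (fun z => (z - y) * √(Wq l d y z) + l * d ^ 2 * Th l d y z)
      (2 * √(Wq l d y z)) z := by
  have hp := Wq_pos hl h1 h2
  have p2 : 0 < √(Wq l d y z) := Real.sqrt_pos.mpr hp
  have h3 := (((hasDerivAt_id z).sub_const y).mul (der_sq hl h1 h2)).add
    ((der_Th hl hd h1 h2).const_mul (l * d ^ 2))
  refine HasDerivAt.congr_deriv h3 ?_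
  have e : √(Wq l d y z) ^ 2 = l * (d ^ 2 - (z - y) ^ 2) := by
    rw [Real.sq_sqrt hp.le]; rfl
  simp only [id]
  field_simp
  linarith

/-- The integrals of one piece. -/
structure Piece (W : ℝ → ℝ) (c l d y z1 z2 : ℝ) : Prop where
  i0 : IntervalIntegrable (fun z => 1 / √(W z)) volume z1 z2
  i1 : IntervalIntegrable (fun z => (z - c) / √(W z)) volume z1 z2
  i2 : IntervalIntegrable (fun z => 2 * √(W z)) volume z1 z2
  v1 : ∫ z in z1..z2, (z - c) / √(W z) =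
    -(√(W z2) - √(W z1)) / l + (y - c) * (Th l d y z2 - Th l d y z1)
  v2 : ∫ z in z1..z2, 2 * √(W z) =
    (z2 - y) * √(W z2) - (z1 - y) * √(W z1) + l * d ^ 2 * (Th l d y z2 - Th l d y z1)

lemma piece_Wq {c l d y z1 z2 : ℝ} (hl : 0 < l) (hd : 0 < d) (h12 : z1 ≤ z2) (h1 : y - d ≤ z1)
    (h2 : z2 ≤ y + d) : Piece (Wq l d y) c l d y z1 z2 := by
  have hin : ∀ z ∈ Ioo z1 z2, y - d < z ∧ z < y + d := fun z hz =>
    ⟨lt_of_le_of_lt h1 hz.1, lt_of_lt_of_le hz.2 h2⟩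
  have i0 : IntervalIntegrable (fun z => 1 / √(Wq l d y z)) volume z1 z2 := by
    refine intervalIntegral.intervalIntegrable_deriv_of_nonneg (g := Th l d y)
      (cont_Th l d y).continuousOn ?_ ?_
    · intro z hz
      rw [min_eq_left h12, max_eq_right h12] at hz
      exact der_Th hl hd (hin z hz).1 (hin z hz).2
    · intro z _
      positivity
  have ic : ∀ c : ℝ, IntervalIntegrable (fun z => (z - c) / √(Wq l d y z)) volume z1 z2 := by
    intro c
    have h := i0.continuousOn_mul (g := fun z => z - c) (by fun_prop)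
    refine h.congr ?_
    intro z _
    simp only
    ring
  have i2 : IntervalIntegrable (fun z => 2 * √(Wq l d y z)) volume z1 z2 :=
    (continuous_const.mul (cont_sq l d y)).intervalIntegrable _ _
  refine ⟨i0, ic c, i2, ?_, ?_⟩
  · have h := intervalIntegral.integral_eq_sub_of_hasDerivAt_of_le
      (f := fun z => -√(Wq l d y z) / l + (y - c) * Th l d y z)
      (f' := fun z => (z - c) / √(Wq l d y z)) h12
      ((((cont_sq l d y).neg.div_const l).add
        (continuous_const.mul (cont_Th l d y))).continuousOn) ?_ (ic c)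
    · rw [h]; ring
    · intro z hz
      have h3 := (((der_sq hl (hin z hz).1 (hin z hz).2).neg).div_const l).add
        ((der_Th hl hd (hin z hz).1 (hin z hz).2).const_mul (y - c))
      refine HasDerivAt.congr_deriv h3 ?_
      have p2 : 0 < √(Wq l d y z) := Real.sqrt_pos.mpr (Wq_pos hl (hin z hz).1 (hin z hz).2)
      field_simp
      ring
  · have h := intervalIntegral.integral_eq_sub_of_hasDerivAt_of_le
      (f := fun z => (z - y) * √(Wq l d y z) + l * d ^ 2 * Th l d y z)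
      (f' := fun z => 2 * √(Wq l d y z)) h12
      ((((continuous_id.sub continuous_const).mul (cont_sq l d y)).add
        (continuous_const.mul (cont_Th l d y))).continuousOn) ?_ i2
    · rw [h]; ring
    · intro z hz
      exact der_area hl hd (hin z hz).1 (hin z hz).2

lemma Piece.congr {W V : ℝ → ℝ} {c l d y z1 z2 : ℝ} (h12 : z1 ≤ z2)
    (h : Piece V c l d y z1 z2) (e : ∀ z ∈ Icc z1 z2, W z = V z) : Piece W c l d y z1 z2 := by
  have e1 : W z1 = V z1 := e z1 ⟨le_rfl, h12⟩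
  have e2 : W z2 = V z2 := e z2 ⟨h12, le_rfl⟩
  have eu : ∀ z ∈ uIoc z1 z2, W z = V z := by
    intro z hz
    rw [uIoc_of_le h12] at hz
    exact e z ⟨hz.1.le, hz.2⟩
  have eI : ∀ z ∈ uIcc z1 z2, W z = V z := by
    intro z hz
    rw [uIcc_of_le h12] at hz
    exact e z hz
  refine ⟨h.i0.congr ?_, h.i1.congr ?_, h.i2.congr ?_, ?_, ?_⟩
  · intro z hz; simp only [eu z hz]
  · intro z hz; simp only [eu z hz]
  · intro z hz; simp only [eu z hz]
  · rw [e1, e2, ← h.v1]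
    refine intervalIntegral.integral_congr ?_
    intro z hz; simp only [eI z hz]
  · rw [e1, e2, ← h.v2]
    refine intervalIntegral.integral_congr ?_
    intro z hz; simp only [eI z hz]

lemma casin_ofReal {x : ℝ} (h1 : -1 ≤ x) (h2 : x ≤ 1) : casin x = (Real.arcsin x : ℝ) := by
  unfold casin
  have hx : 0 ≤ 1 - x ^ 2 := by nlinarith
  have e1 : (1 : ℂ) - (x : ℂ) ^ 2 = ((1 - x ^ 2 : ℝ) : ℂ) := by push_cast; ring
  have e2 : Complex.I * x + ((√(1 - x ^ 2) : ℝ) : ℂ) =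
      Complex.exp ((Real.arcsin x : ℝ) * Complex.I) := by
    rw [Complex.exp_mul_I, ← Complex.ofReal_cos, ← Complex.ofReal_sin, Real.cos_arcsin,
      Real.sin_arcsin h1 h2]
    ring
  have hpi := Real.pi_pos
  have b1 := Real.neg_pi_div_two_le_arcsin x
  have b2 := Real.arcsin_le_pi_div_two x
  rw [e1, sqrt_ofReal hx, e2, Complex.log_exp]
  · ring_nf
    rw [Complex.I_sq]
    ring
  · simp only [Complex.mul_im, Complex.ofReal_re, Complex.I_im, mul_one, Complex.ofReal_im,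
      Complex.I_re, mul_zero, add_zero]
    linarith
  · simp only [Complex.mul_im, Complex.ofReal_re, Complex.I_im, mul_one, Complex.ofReal_im,
      Complex.I_re, mul_zero, add_zero]
    linarith

/-- A quadratic with positive value somewhere is a quadric piece. -/
lemma quad_form {l β k z0 : ℝ} (hl : 0 < l) (h0 : 0 < k + β * z0 - l * z0 ^ 2) :
    0 < k / l + (β / (2 * l)) ^ 2 ∧
    (∀ z, k + β * z - l * z ^ 2 = Wq l √(k / l + (β / (2 * l)) ^ 2) (β / (2 * l)) z) ∧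
    β / (2 * l) - √(k / l + (β / (2 * l)) ^ 2) < z0 ∧
    z0 < β / (2 * l) + √(k / l + (β / (2 * l)) ^ 2) := by
  have e : ∀ z, k + β * z - l * z ^ 2 =
      l * ((k / l + (β / (2 * l)) ^ 2) - (z - β / (2 * l)) ^ 2) := by
    intro z
    field_simp
    ring
  have h1 : 0 < (k / l + (β / (2 * l)) ^ 2) - (z0 - β / (2 * l)) ^ 2 := by
    rw [e] at h0
    exact (mul_pos_iff_of_pos_left hl).mp h0
  have h2 : 0 < k / l + (β / (2 * l)) ^ 2 := by nlinarith [sq_nonneg (z0 - β / (2 * l))]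
  have h3 : |z0 - β / (2 * l)| < √(k / l + (β / (2 * l)) ^ 2) :=
    Real.lt_sqrt_of_sq_lt (by rw [sq_abs]; linarith)
  rw [abs_lt] at h3
  refine ⟨h2, ?_, by linarith [h3.1], by linarith [h3.2]⟩
  intro z
  unfold Wq
  rw [Real.sq_sqrt h2.le, e]

lemma tip_eq {l d y z : ℝ} (hl : 0 < l) (h : Wq l d y z = 0) : z = y - d ∨ z = y + d := by
  unfold Wq at h
  have h1 : d ^ 2 - (z - y) ^ 2 = 0 := (mul_eq_zero.mp h).resolve_left hl.ne'
  have h2 : (z - (y - d)) * (z - (y + d)) = 0 := by linarith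
  rcases mul_eq_zero.mp h2 with h3 | h3
  · left; linarith
  · right; linarith

lemma ratio_mem {d y z : ℝ} (h1 : y - d < z) (h2 : z < y + d) :
    -1 ≤ (z - y) / d ∧ (z - y) / d ≤ 1 := by
  have hd : 0 < d := by linarith
  constructor
  · rw [le_div_iff₀ hd]; linarith
  · rw [div_le_iff₀ hd]; linarith

end BaseQuad

open BaseQuad

theorem base_quad (h0 : StmtXi) : StmtQuad := by
  intro ε η c Q zb zt hε hε1 hη hη1 hc hQ hQ1 hzb hzt Wb Wt
  obtain ⟨N, X⟩ := h0 ε η hε hε1 hη hη1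
  have ha0 : 0 < aR := by linarith [N.a1]
  obtain ⟨c1, c2⟩ := abs_le.mp hc
  -- the real parameters
  obtain ⟨g, hg⟩ : ∃ g : ℝ, g = 1 - ε * (hR η - 1) := ⟨_, rfl⟩
  have g1 : g ≤ 1 := by
    have : 0 ≤ ε * (hR η - 1) := mul_nonneg hε.le (by linarith [N.h1])
    linarith
  have g2 : 99 / 100 ≤ g := by
    have : ε * (hR η - 1) ≤ 1 / 1000 * 9 :=
      mul_le_mul hε1 (by linarith [N.h2]) (by linarith [N.h1]) (by norm_num)
    linarith
  obtain ⟨lt, hlt⟩ : ∃ l : ℝ, l = 1 + ε + Q := ⟨_, rfl⟩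
  obtain ⟨lm, hlm⟩ : ∃ l : ℝ, l = g + Q := ⟨_, rfl⟩
  obtain ⟨lb, hlb⟩ : ∃ l : ℝ, l = 1 + Q := ⟨_, rfl⟩
  have plt : 0 < lt := by linarith
  have plm : 0 < lm := by linarith
  have plb : 0 < lb := by linarith
  have hcsq : c ^ 2 ≤ 1 / 64 := by nlinarith
  have w0 : 0 < 1 - Q * c ^ 2 := by nlinarith [sq_nonneg c]
  have wa : 0 < 1 - g * aR ^ 2 - Q * (aR - c) ^ 2 := by
    have h1 : (aR - c) ^ 2 ≤ 1 := by nlinarith [N.a1, N.a2]
    have h2 : Q * (aR - c) ^ 2 ≤ 1 / 50 * 1 :=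
      mul_le_mul hQ1 h1 (sq_nonneg _) (by norm_num)
    rw [N.a_sq]
    linarith
  have eB : ∀ z : ℝ, z ≤ 0 → xi ε η z - Q * (z - c) ^ 2 =
      (1 - Q * c ^ 2) + (2 * Q * c) * z - lb * z ^ 2 := by
    intro z hz
    rw [X.low z hz, hlb]; ring
  have eM : ∀ z ∈ Icc 0 aR, xi ε η z - Q * (z - c) ^ 2 =
      (1 - Q * c ^ 2) + (2 * Q * c) * z - lm * z ^ 2 := by
    intro z hz
    rw [X.midf z hz, hlm, hg]; ring
  have eT : ∀ z : ℝ, aR ≤ z → xi ε η z - Q * (z - c) ^ 2 =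
      (kR ε η - Q * c ^ 2) + (ε * uR η + 2 * Q * c) * z - lt * z ^ 2 := by
    intro z hz
    rw [X.top z hz, hlt]; ring
  have v0 : xi ε η 0 - Q * (0 - c) ^ 2 = 1 - Q * c ^ 2 := by
    rw [eB 0 le_rfl]; ring
  have va : xi ε η aR - Q * (aR - c) ^ 2 = 1 - g * aR ^ 2 - Q * (aR - c) ^ 2 := by
    rw [X.midf aR ⟨ha0.le, le_rfl⟩, hg]
  obtain ⟨B1, B2, B3, B4⟩ := quad_form (l := lb) (β := 2 * Q * c) (k := 1 - Q * c ^ 2) (z0 := 0)
    plb (by rw [← eB 0 le_rfl, v0]; exact w0)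
  obtain ⟨M1, M2, M3, M4⟩ := quad_form (l := lm) (β := 2 * Q * c) (k := 1 - Q * c ^ 2) (z0 := 0)
    plm (by rw [← eM 0 ⟨le_rfl, ha0.le⟩, v0]; exact w0)
  obtain ⟨-, -, M5, M6⟩ := quad_form (l := lm) (β := 2 * Q * c) (k := 1 - Q * c ^ 2) (z0 := aR)
    plm (by rw [← eM aR ⟨ha0.le, le_rfl⟩, va]; exact wa)
  obtain ⟨T1, T2, T3, T4⟩ := quad_form (l := lt) (β := ε * uR η + 2 * Q * c)
    (k := kR ε η - Q * c ^ 2) (z0 := aR) plt (by rw [← eT aR le_rfl, va]; exact wa)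
  obtain ⟨yb, hyb⟩ : ∃ y : ℝ, y = 2 * Q * c / (2 * lb) := ⟨_, rfl⟩
  obtain ⟨ym, hym⟩ : ∃ y : ℝ, y = 2 * Q * c / (2 * lm) := ⟨_, rfl⟩
  obtain ⟨yt, hyt⟩ : ∃ y : ℝ, y = (ε * uR η + 2 * Q * c) / (2 * lt) := ⟨_, rfl⟩
  rw [← hyb] at B1 B2 B3 B4
  rw [← hym] at M1 M2 M3 M4 M5 M6
  rw [← hyt] at T1 T2 T3 T4
  obtain ⟨db, hdb⟩ : ∃ d : ℝ, d = √((1 - Q * c ^ 2) / lb + yb ^ 2) := ⟨_, rfl⟩
  obtain ⟨dm, hdm⟩ : ∃ d : ℝ, d = √((1 - Q * c ^ 2) / lm + ym ^ 2) := ⟨_, rfl⟩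
  obtain ⟨dt, hdt⟩ : ∃ d : ℝ, d = √((kR ε η - Q * c ^ 2) / lt + yt ^ 2) := ⟨_, rfl⟩
  rw [← hdb] at B2 B3 B4
  rw [← hdm] at M2 M3 M4 M5 M6
  rw [← hdt] at T2 T3 T4
  have pdb : 0 < db := by linarith
  have pdm : 0 < dm := by linarith
  have pdt : 0 < dt := by linarith
  have fB : ∀ z : ℝ, z ≤ 0 → xi ε η z - Q * (z - c) ^ 2 = Wq lb db yb z := fun z hz => by
    rw [eB z hz, B2]
  have fM : ∀ z ∈ Icc 0 aR, xi ε η z - Q * (z - c) ^ 2 = Wq lm dm ym z := fun z hz => by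
    rw [eM z hz, M2]
  have fT : ∀ z : ℝ, aR ≤ z → xi ε η z - Q * (z - c) ^ 2 = Wq lt dt yt z := fun z hz => by
    rw [eT z hz, T2]
  have ezb : zb = yb - db := by
    rcases tip_eq plb (by rw [← fB zb hzb.le]; exact Wb) with h | h
    · exact h
    · linarith
  have ezt : zt = yt + dt := by
    rcases tip_eq plt (by rw [← fT zt hzt.le]; exact Wt) with h | h
    · linarith
    · exact h
  have PB : Piece (fun z => xi ε η z - Q * (z - c) ^ 2) c lb db yb zb 0 :=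
    (piece_Wq plb pdb hzb.le ezb.ge B4.le).congr hzb.le fun z hz => fB z hz.2
  have PM : Piece (fun z => xi ε η z - Q * (z - c) ^ 2) c lm dm ym 0 aR :=
    (piece_Wq plm pdm ha0.le M3.le M6.le).congr ha0.le fM
  have PT : Piece (fun z => xi ε η z - Q * (z - c) ^ 2) c lt dt yt aR zt :=
    (piece_Wq plt pdt hzt.le T3.le ezt.le).congr hzt.le fun z hz => fT z hz.1
  -- complex closed forms at real arguments
  have cg : gM ε η = (g : ℂ) := by rw [hg, gM, hC_ofReal]; push_cast; ring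
  have clt : lT ε Q = (lt : ℂ) := by rw [hlt, lT]; push_cast; ring
  have clm : lM ε η Q = (lm : ℂ) := by rw [hlm, lM, cg]; push_cast; ring
  have clb : lB Q = (lb : ℂ) := by rw [hlb, lB]; push_cast; ring
  have nlt : (lt : ℂ) ≠ 0 := by exact_mod_cast plt.ne'
  have nlm : (lm : ℂ) ≠ 0 := by exact_mod_cast plm.ne'
  have nlb : (lb : ℂ) ≠ 0 := by exact_mod_cast plb.ne'
  have cyt : yT ε η c Q = (yt : ℂ) := by rw [hyt, yT, clt, uC_ofReal]; push_cast; ring
  have cym : yM ε η c Q = (ym : ℂ) := by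
    rw [hym, yM, clm]; push_cast; field_simp
  have cyb : yB c Q = (yb : ℂ) := by
    rw [hyb, yB, clb]; push_cast; field_simp
  have cdt : dT ε η c Q = (dt : ℂ) := by
    rw [hdt, dT, clt, cyt, kC_ofReal, ← sqrt_ofReal T1.le]; push_cast; rfl
  have cdm : dM ε η c Q = (dm : ℂ) := by
    rw [hdm, dM, clm, cym, ← sqrt_ofReal M1.le]; push_cast; rfl
  have cdb : dB c Q = (db : ℂ) := by
    rw [hdb, dB, clb, cyb, ← sqrt_ofReal B1.le]; push_cast; rfl
  have cwa : Wa ε η c Q = ((√(1 - g * aR ^ 2 - Q * (aR - c) ^ 2) : ℝ) : ℂ) := by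
    rw [Wa, cg, ← sqrt_ofReal wa.le]; push_cast; rfl
  have cw0 : W0 c Q = ((√(1 - Q * c ^ 2) : ℝ) : ℂ) := by
    rw [W0, ← sqrt_ofReal w0.le]; push_cast; rfl
  have cT : ΘT ε η c Q = ((Th lt dt yt zt - Th lt dt yt aR : ℝ) : ℂ) := by
    have r := ratio_mem T3 T4
    have e1 : ((aR : ℂ) - yt) / dt = (((aR - yt) / dt : ℝ) : ℂ) := by push_cast; rfl
    have e2 : (zt - yt) / dt = 1 := by rw [ezt]; field_simp; ring
    rw [ΘT, cyt, cdt, clt, e1, casin_ofReal r.1 r.2, sqrt_ofReal plt.le, Th, Th, e2,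
      Real.arcsin_one]
    push_cast; ring
  have cM : ΘM ε η c Q = ((Th lm dm ym aR - Th lm dm ym 0 : ℝ) : ℂ) := by
    have r := ratio_mem M5 M6
    have r' := ratio_mem M3 M4
    have e1 : ((aR : ℂ) - ym) / dm = (((aR - ym) / dm : ℝ) : ℂ) := by push_cast; rfl
    have e2 : -(ym : ℂ) / dm = (((0 - ym) / dm : ℝ) : ℂ) := by push_cast; ring
    rw [ΘM, cym, cdm, clm, e1, e2, casin_ofReal r.1 r.2, casin_ofReal r'.1 r'.2,
      sqrt_ofReal plm.le, Th, Th]
    push_cast; ring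
  have cB : ΘB c Q = ((Th lb db yb 0 - Th lb db yb zb : ℝ) : ℂ) := by
    have r' := ratio_mem B3 B4
    have e2 : -(yb : ℂ) / db = (((0 - yb) / db : ℝ) : ℂ) := by push_cast; ring
    have e3 : (zb - yb) / db = -1 := by rw [ezb]; field_simp; ring
    rw [ΘB, cyb, cdb, clb, e2, casin_ofReal r'.1 r'.2, sqrt_ofReal plb.le, Th, Th, e3,
      Real.arcsin_neg_one]
    push_cast; ring
  obtain ⟨θt, hθt⟩ : ∃ t : ℝ, t = Th lt dt yt zt - Th lt dt yt aR := ⟨_, rfl⟩
  obtain ⟨θm, hθm⟩ : ∃ t : ℝ, t = Th lm dm ym aR - Th lm dm ym 0 := ⟨_, rfl⟩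
  obtain ⟨θb, hθb⟩ : ∃ t : ℝ, t = Th lb db yb 0 - Th lb db yb zb := ⟨_, rfl⟩
  obtain ⟨sa, hsa⟩ : ∃ t : ℝ, t = √(1 - g * aR ^ 2 - Q * (aR - c) ^ 2) := ⟨_, rfl⟩
  obtain ⟨s0, hs0⟩ : ∃ t : ℝ, t = √(1 - Q * c ^ 2) := ⟨_, rfl⟩
  have B1v := PB.v1
  have B2v := PB.v2
  have M1v := PM.v1
  have M2v := PM.v2
  have T1v := PT.v1
  have T2v := PT.v2
  simp only [Wb, Wt, v0, va, Real.sqrt_zero] at B1v B2v M1v M2v T1v T2v
  rw [← hθb, ← hs0] at B1v B2v
  rw [← hθm, ← hs0, ← hsa] at M1v M2v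
  rw [← hθt, ← hsa] at T1v T2v
  rw [← hθt] at cT
  rw [← hθm] at cM
  rw [← hθb] at cB
  rw [← hsa] at cwa
  rw [← hs0] at cw0
  refine ⟨?_, (PB.i0.trans PM.i0).trans PT.i0, ?_, ?_⟩
  · intro z hz
    rcases le_total z 0 with h | h
    · rw [fB z h]
      exact Wq_pos plb (by linarith [hz.1]) (by linarith)
    · rcases le_total z aR with h' | h'
      · rw [fM z ⟨h, h'⟩]
        exact Wq_pos plm (by linarith) (by linarith)
      · rw [fT z h']
        exact Wq_pos plt (by linarith) (by linarith [hz.2])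
  · rw [← intervalIntegral.integral_add_adjacent_intervals (PB.i1.trans PM.i1) PT.i1,
      ← intervalIntegral.integral_add_adjacent_intervals PB.i1 PM.i1, B1v, M1v, T1v,
      b0, Φ1, Φ2, cT, cM, cB, cwa, cw0, clt, clm, clb, cg, uC_ofReal, hC_ofReal]
    have key : -(s0 - 0) / lb + (yb - c) * θb + (-(sa - s0) / lm + (ym - c) * θm) +
        (-(0 - sa) / lt + (yt - c) * θt) =
        ε * (-hR η * sa / (lt * lm) + (hR η - 1) * s0 / (lm * lb) + uR η * θt / (2 * lt)) -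
          c * ((1 + ε) * θt / lt + g * θm / lm + θb / lb) := by
      have a1 : yb - c = -c / lb := by rw [hyb]; field_simp; rw [hlb]; ring
      have a2 : ym - c = -c * g / lm := by rw [hym]; field_simp; rw [hlm]; ring
      have a3 : yt - c = (ε * uR η - 2 * c * (1 + ε)) / (2 * lt) := by
        rw [hyt]; field_simp; rw [hlt]; ring
      have a4 : 1 / lt - 1 / lm = -(ε * hR η) / (lt * lm) := by
        field_simp; rw [hlt, hlm, hg]; ring
      have a5 : 1 / lm - 1 / lb = ε * (hR η - 1) / (lm * lb) := by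
        field_simp; rw [hlb, hlm, hg]; ring
      rw [a1, a2, a3]
      have a6 : -(s0 - 0) / lb + -c / lb * θb + (-(sa - s0) / lm + -c * g / lm * θm) +
          (-(0 - sa) / lt + (ε * uR η - 2 * c * (1 + ε)) / (2 * lt) * θt) =
          sa * (1 / lt - 1 / lm) + s0 * (1 / lm - 1 / lb) + ε * (uR η * θt / (2 * lt)) -
          c * ((1 + ε) * θt / lt + g * θm / lm + θb / lb) := by
        field_simp; ring
      rw [a6, a4, a5]
      ring
    rw [key]
    push_cast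
    ring
  · rw [← intervalIntegral.integral_add_adjacent_intervals (PB.i2.trans PM.i2) PT.i2,
      ← intervalIntegral.integral_add_adjacent_intervals PB.i2 PM.i2, B2v, M2v, T2v,
      A0, cT, cM, cB, cwa, cw0, clt, clm, clb, cyt, cym, cyb, cdt, cdm, cdb]
    push_cast
    ring

end

end Pool.Agent.Lib.MP_87c84d_gt
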