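import Pool.Agent.Lib.MP_87c84d_gt.BaseDefs

/-!
Numerical bounds for the parameters of the base body and elementary facts about its profile.
-/

namespace Pool.Agent.Lib.MP_87c84d_gt

open Set Filter Topology Base

namespace BaseXi

lemma a_sq : aR ^ 2 = 3 / 4 := by
  unfold aR
  rw [div_pow, Real.sq_sqrt (by norm_num)]
  norm_num

lemma a_pos : 0 < aR := by
  unfold aR
  positivity

lemma a1 : 866 / 1000 ≤ aR := by
  by_contra h
  push Not at h
  nlinarith [a_sq, a_pos]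

lemma a2 : aR ≤ 867 / 1000 := by
  by_contra h
  push Not at h
  nlinarith [a_sq, a_pos]

lemma inv_pi : 3183 / 10000 ≤ Real.pi⁻¹ ∧ Real.pi⁻¹ ≤ 3184 / 10000 := by
  have h1 := Real.pi_gt_d4
  have h2 := Real.pi_lt_d4
  have hp := Real.pi_pos
  constructor
  · rw [le_inv_comm₀ (by norm_num) hp]
    linarith
  · rw [inv_le_comm₀ hp (by norm_num)]
    linarith

lemma u_bds (η : ℝ) (h0 : 0 ≤ η) (h1 : η ≤ 1 / 1000) : 9 ≤ uR η ∧ uR η ≤ 92 / 10 := by
  obtain ⟨p1, p2⟩ := inv_pi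
  have b1 := a1
  have b2 := a2
  have e0 : aR / Real.pi = aR * Real.pi⁻¹ := div_eq_mul_inv _ _
  have d1 : 2756 / 10000 ≤ aR / Real.pi := by
    rw [e0]
    nlinarith
  have d2 : aR / Real.pi ≤ 2761 / 10000 := by
    rw [e0]
    nlinarith
  have e1 : 3 / Real.pi = 3 * Real.pi⁻¹ := div_eq_mul_inv _ _
  have hD : 0 < 1 / 3 - aR / Real.pi := by linarith
  unfold uR
  constructor
  · rw [le_div_iff₀ hD, e1]
    linarith
  · rw [div_le_iff₀ hD, e1]
    linarith

lemma num (η : ℝ) (h0 : 0 ≤ η) (h1 : η ≤ 1 / 1000) : Num η := by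
  obtain ⟨u1, u2⟩ := u_bds η h0 h1
  have p1 := Real.pi_gt_d2
  have p2 := Real.pi_lt_d2
  have hp := Real.pi_pos
  have hh : hR η = Real.pi * (uR η / 3 - 1 + η / 42) + 2 := by
    unfold hR
    field_simp
    ring
  have g1 : 7 ≤ hR η := by
    rw [hh]
    nlinarith
  have g2 : hR η ≤ 10 := by
    rw [hh]
    nlinarith
  have b1 := a1
  exact ⟨a1, a2, a_sq, by linarith, by linarith, g1, g2, by nlinarith⟩

variable {ε η : ℝ}

lemma low (z : ℝ) (hz : z ≤ 0) : xi ε η z = 1 - z ^ 2 := by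
  have := a_pos
  unfold xi
  rw [max_eq_right hz, max_eq_right (by linarith)]
  ring

lemma midf (z : ℝ) (hz : z ∈ Icc 0 aR) : xi ε η z = 1 - (1 - ε * (hR η - 1)) * z ^ 2 := by
  unfold xi
  rw [max_eq_left hz.1, max_eq_right (by linarith [hz.2])]
  ring

lemma top (z : ℝ) (hz : aR ≤ z) : xi ε η z = kR ε η + ε * uR η * z - (1 + ε) * z ^ 2 := by
  have := a_pos
  unfold xi kR
  rw [max_eq_left (by linarith), max_eq_left (by linarith)]
  ring

lemma dlow (z : ℝ) (hz : z ≤ 0) : dxi ε η z = -2 * z := by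
  have := a_pos
  unfold dxi
  rw [max_eq_right hz, max_eq_right (by linarith), if_neg (by linarith)]
  ring

lemma dtop (z : ℝ) (hz : aR ≤ z) : dxi ε η z = ε * uR η - 2 * (1 + ε) * z := by
  have := a_pos
  unfold dxi
  rw [max_eq_left (by linarith), max_eq_left (by linarith), if_pos hz]
  ring

lemma sq_up (z z0 : ℝ) :
    max z 0 ^ 2 ≤ max z0 0 ^ 2 + 2 * max z0 0 * (z - z0) + (z - z0) ^ 2 := by
  rcases le_total z 0 with h | h <;> rcases le_total z0 0 with h0 | h0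
  · rw [max_eq_right h, max_eq_right h0]
    nlinarith [sq_nonneg (z - z0)]
  · rw [max_eq_right h, max_eq_left h0]
    nlinarith [sq_nonneg z]
  · rw [max_eq_left h, max_eq_right h0]
    nlinarith [sq_nonneg z0, mul_nonneg h (neg_nonneg.2 h0)]
  · rw [max_eq_left h, max_eq_left h0]
    nlinarith

lemma sq_low (z z0 : ℝ) : max z0 0 ^ 2 + 2 * max z0 0 * (z - z0) ≤ max z 0 ^ 2 := by
  rcases le_total z 0 with h | h <;> rcases le_total z0 0 with h0 | h0
  · rw [max_eq_right h, max_eq_right h0]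
    nlinarith
  · rw [max_eq_right h, max_eq_left h0]
    nlinarith [sq_nonneg z0, mul_nonneg h0 (neg_nonneg.2 h)]
  · rw [max_eq_left h, max_eq_right h0]
    nlinarith [sq_nonneg z]
  · rw [max_eq_left h, max_eq_left h0]
    nlinarith [sq_nonneg (z - z0)]

lemma sup (hε : 0 < ε) (hε1 : ε ≤ 1 / 1000) (N : Num η) (z z0 : ℝ) :
    xi ε η z ≤ xi ε η z0 + dxi ε η z0 * (z - z0) := by
  have e1 := sq_up z z0
  have e2 := sq_low (z - aR) (z0 - aR)
  have hh1 := N.h1
  have hh2 := N.h2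
  have hr : 0 ≤ 2 * hR η * aR - uR η := by linarith [N.ridge]
  have k1 : ε * (hR η - 1) * (max z 0 ^ 2 - max z0 0 ^ 2 - 2 * max z0 0 * (z - z0)) ≤
      (z - z0) ^ 2 := by
    have c0 : 0 ≤ ε * (hR η - 1) := by nlinarith
    have c1 : ε * (hR η - 1) ≤ 1 := by nlinarith
    calc _ ≤ ε * (hR η - 1) * (z - z0) ^ 2 := mul_le_mul_of_nonneg_left (by linarith) c0
      _ ≤ 1 * (z - z0) ^ 2 := mul_le_mul_of_nonneg_right c1 (sq_nonneg _)
      _ = _ := one_mul _
  have k2 : 0 ≤ ε * hR η * (max (z - aR) 0 ^ 2 - max (z0 - aR) 0 ^ 2 -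
      2 * max (z0 - aR) 0 * (z - z0)) := by
    apply mul_nonneg (by nlinarith)
    have : z - aR - (z0 - aR) = z - z0 := by ring
    rw [this] at e2
    linarith
  unfold xi dxi
  by_cases hz : aR ≤ z0
  · have k3 : 0 ≤ ε * (2 * hR η * aR - uR η) * (max (z - aR) 0 - (z - aR)) :=
      mul_nonneg (mul_nonneg hε.le hr) (by linarith [le_max_left (z - aR) 0])
    have e3 : max (z0 - aR) 0 = z0 - aR := max_eq_left (by linarith)
    rw [if_pos hz]
    rw [e3] at k2 ⊢
    nlinarith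
  · have k3 : 0 ≤ ε * (2 * hR η * aR - uR η) * max (z - aR) 0 :=
      mul_nonneg (mul_nonneg hε.le hr) (le_max_right _ _)
    have e3 : max (z0 - aR) 0 = 0 := max_eq_right (by linarith [not_le.1 hz])
    rw [if_neg hz]
    rw [e3] at k2 ⊢
    nlinarith

lemma der_pos (z : ℝ) (hz : 0 < z) : HasDerivAt (fun z : ℝ => max z 0) 1 z := by
  refine (hasDerivAt_id z).congr_of_eventuallyEq ?_
  filter_upwards [Ioi_mem_nhds hz] with w hw
  exact max_eq_left (le_of_lt hw)

lemma der_neg (z : ℝ) (hz : z < 0) : HasDerivAt (fun z : ℝ => max z 0) 0 z := by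
  refine (hasDerivAt_const z (0 : ℝ)).congr_of_eventuallyEq ?_
  filter_upwards [Iio_mem_nhds hz] with w hw
  exact max_eq_right (le_of_lt hw)

lemma der_sq (z : ℝ) : HasDerivAt (fun z : ℝ => max z 0 ^ 2) (2 * max z 0) z := by
  rcases lt_trichotomy z 0 with h | h | h
  · refine ((der_neg z h).fun_pow 2).congr_deriv ?_
    rw [max_eq_right h.le]
    simp
  · subst h
    rw [hasDerivAt_iff_isLittleO_nhds_zero]
    simp only [zero_add, max_self, mul_zero, smul_zero, sub_zero]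
    have h1 : (fun w : ℝ => w ^ 2) =o[𝓝 0] fun w : ℝ => w :=
      Asymptotics.isLittleO_pow_id (by norm_num)
    refine Asymptotics.IsBigO.trans_isLittleO ?_ h1
    refine Asymptotics.IsBigO.of_bound 1 (Eventually.of_forall fun w => ?_)
    rw [one_mul, Real.norm_eq_abs, Real.norm_eq_abs, abs_of_nonneg (sq_nonneg w)]
    rcases le_total w 0 with hw | hw
    · rw [max_eq_right hw]
      simpa using sq_nonneg w
    · rw [max_eq_left hw]
      simp
  · refine ((der_pos z h).fun_pow 2).congr_deriv ?_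
    simp

lemma der (z : ℝ) (hz : z ≠ aR) : HasDerivAt (xi ε η) (dxi ε η z) z := by
  have d1 : HasDerivAt (fun z : ℝ => z ^ 2) (2 * z) z := by
    simpa using hasDerivAt_pow 2 z
  have d2 := der_sq z
  have d3 : HasDerivAt (fun z : ℝ => max (z - aR) 0 ^ 2) (2 * max (z - aR) 0) z :=
    (der_sq (z - aR)).comp_sub_const z aR
  rcases lt_or_gt_of_ne hz with h | h
  · have d4 : HasDerivAt (fun z : ℝ => max (z - aR) 0) 0 z :=
      (der_neg (z - aR) (by linarith)).comp_sub_const z aR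
    refine (((hasDerivAt_const z (1 : ℝ)).fun_sub d1).fun_add
      ((((d2.const_mul (hR η - 1)).fun_add (d4.const_mul (uR η - 2 * hR η * aR))).fun_sub
        (d3.const_mul (hR η))).const_mul ε)).congr_deriv ?_
    unfold dxi
    rw [if_neg (not_le.2 h)]
    ring
  · have d4 : HasDerivAt (fun z : ℝ => max (z - aR) 0) 1 z :=
      (der_pos (z - aR) (by linarith)).comp_sub_const z aR
    refine (((hasDerivAt_const z (1 : ℝ)).fun_sub d1).fun_add
      ((((d2.const_mul (hR η - 1)).fun_add (d4.const_mul (uR η - 2 * hR η * aR))).fun_sub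
        (d3.const_mul (hR η))).const_mul ε)).congr_deriv ?_
    unfold dxi
    rw [if_pos h.le]
    ring

lemma cont : Continuous (xi ε η) := by
  unfold xi
  fun_prop

lemma dcont1 : ContinuousOn (dxi ε η) (Iio aR) := by
  have : Continuous fun z : ℝ => -2 * z + ε * (2 * (hR η - 1) * max z 0 + 0 -
      2 * hR η * max (z - aR) 0) := by fun_prop
  refine this.continuousOn.congr fun z hz => ?_
  unfold dxi
  rw [if_neg (not_le.2 hz)]

lemma dcont2 : ContinuousOn (dxi ε η) (Ioi aR) := by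
  have : Continuous fun z : ℝ => -2 * z + ε * (2 * (hR η - 1) * max z 0 +
      (uR η - 2 * hR η * aR) - 2 * hR η * max (z - aR) 0) := by fun_prop
  refine this.continuousOn.congr fun z hz => ?_
  unfold dxi
  rw [if_pos (le_of_lt hz)]

lemma dbdd (hε : 0 < ε) (hε1 : ε ≤ 1 / 1000) (N : Num η) (z : ℝ) (hz : z ∈ Icc (-2 : ℝ) 2) :
    |dxi ε η z| ≤ 5 := by
  obtain ⟨z1, z2⟩ := hz
  have hh1 := N.h1
  have hh2 := N.h2
  have u1 := N.u1
  have u2 := N.u2
  have b1 := N.a1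
  have b2 := N.a2
  rcases le_total z 0 with h | h
  · rw [dlow z h, abs_le]
    constructor <;> linarith
  rcases le_or_gt aR z with h' | h'
  · rw [dtop z h', abs_le]
    constructor <;> nlinarith
  · have : dxi ε η z = -2 * z + 2 * (ε * (hR η - 1)) * z := by
      unfold dxi
      rw [max_eq_left h, max_eq_right (by linarith), if_neg (not_le.2 h')]
      ring
    have c0 : 0 ≤ ε * (hR η - 1) := by nlinarith
    have c1 : ε * (hR η - 1) ≤ 1 := by nlinarith
    rw [this, abs_le]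
    constructor <;> nlinarith

lemma ball (hε : 0 < ε) (N : Num η) (z : ℝ) (hz : |z| ≤ 11 / 10) :
    1 - z ^ 2 ≤ xi ε η z ∧ xi ε η z ≤ 1 - z ^ 2 + 20 * ε := by
  obtain ⟨z1, z2⟩ := abs_le.1 hz
  have hh1 := N.h1
  have hh2 := N.h2
  have u1 := N.u1
  have u2 := N.u2
  have b1 := N.a1
  have b2 := N.a2
  rcases le_total z 0 with h | h
  · rw [low z h]
    constructor <;> linarith
  rcases le_total z aR with h' | h'
  · rw [midf z ⟨h, h'⟩]
    have g0 : 0 ≤ (hR η - 1) * z ^ 2 := mul_nonneg (by linarith) (sq_nonneg z)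
    have g1 : (hR η - 1) * z ^ 2 ≤ 20 := by nlinarith
    constructor <;> nlinarith
  · have e : xi ε η z = 1 - z ^ 2 + ε * (hR η * (3 / 4) + uR η * (z - aR) - z ^ 2) := by
      rw [top z h', kR, N.a_sq]
      ring
    have g0 : 0 ≤ hR η * (3 / 4) + uR η * (z - aR) - z ^ 2 := by nlinarith
    have g1 : hR η * (3 / 4) + uR η * (z - aR) - z ^ 2 ≤ 20 := by nlinarith
    rw [e]
    constructor <;> nlinarith

lemma lt_one (hε : 0 < ε) (hε1 : ε ≤ 1 / 1000) (N : Num η) (z : ℝ) (hz : z ≠ 0) :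
    xi ε η z < 1 := by
  have hh1 := N.h1
  have hh2 := N.h2
  have u1 := N.u1
  have u2 := N.u2
  have b1 := N.a1
  have b2 := N.a2
  have zp : 0 < z ^ 2 := by positivity
  rcases le_total z 0 with h | h
  · rw [low z h]
    linarith
  rcases le_total z aR with h' | h'
  · rw [midf z ⟨h, h'⟩]
    have c1 : 0 < 1 - ε * (hR η - 1) := by nlinarith
    nlinarith
  · have e : xi ε η z = 1 - z ^ 2 + ε * (hR η * (3 / 4) + uR η * (z - aR) - z ^ 2) := by
      rw [top z h', kR, N.a_sq]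
      ring
    have g1 : hR η * (3 / 4) + uR η * (z - aR) - z ^ 2 ≤ 100 * z ^ 2 := by nlinarith
    have g2 : ε * (hR η * (3 / 4) + uR η * (z - aR) - z ^ 2) ≤ ε * (100 * z ^ 2) :=
      mul_le_mul_of_nonneg_left g1 hε.le
    rw [e]
    nlinarith

lemma zone (hε : 0 < ε) (N : Num η) (z : ℝ) (hz : z ∈ Ioc 0 aR) : 1 - z ^ 2 < xi ε η z := by
  rw [midf z ⟨hz.1.le, hz.2⟩]
  have hh1 := N.h1
  have zp : 0 < z ^ 2 := pow_pos hz.1 2
  have : 0 < ε * (hR η - 1) * z ^ 2 := mul_pos (mul_pos hε (by linarith)) zp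
  nlinarith

lemma re_bd (Q w : ℂ) (A B : ℝ) (hQ : ‖Q‖ ≤ A) (hw : ‖w‖ ≤ B) : |(Q * w).re| ≤ A * B := by
  calc _ ≤ ‖Q * w‖ := Complex.abs_re_le_norm _
    _ = ‖Q‖ * ‖w‖ := norm_mul _ _
    _ ≤ A * B := mul_le_mul hQ hw (norm_nonneg _) ((norm_nonneg _).trans hQ)

lemma WW_re (f : ℝ → ℝ) (c Q : ℂ) (z : ℝ) :
    (WW f c Q z).re = f z - (Q * ((z : ℂ) - c) ^ 2).re := by
  unfold WW
  rw [Complex.sub_re, Complex.ofReal_re]

lemma WW_diff (f : ℝ → ℝ) (c Q : ℂ) (z y : ℝ) :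
    (WW f c Q z).re = (WW f c Q y).re + (f z - f y) +
      (y - z) * (Q * (((y + z : ℝ) : ℂ) - 2 * c)).re := by
  have : WW f c Q z = WW f c Q y + ((f z - f y : ℝ) : ℂ) +
      ((y - z : ℝ) : ℂ) * (Q * (((y + z : ℝ) : ℂ) - 2 * c)) := by
    unfold WW
    push_cast
    ring
  rw [this, Complex.add_re, Complex.add_re, Complex.ofReal_re, Complex.re_ofReal_mul]

lemma lin_bd (c : ℂ) (s : ℝ) (hc : ‖c‖ ≤ 1 / 8) (hs : |s| ≤ 11 / 5) :
    ‖(s : ℂ) - 2 * c‖ ≤ 5 / 2 := by
  calc _ ≤ ‖(s : ℂ)‖ + ‖2 * c‖ := norm_sub_le _ _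
    _ = |s| + 2 * ‖c‖ := by
      rw [Complex.norm_real, Real.norm_eq_abs, norm_mul, Complex.norm_ofNat]
    _ ≤ 5 / 2 := by linarith

lemma mid (hε : 0 < ε) (hε1 : ε ≤ 1 / 1000) (N : Num η) (zB zT : ℝ) (c Q : ℂ)
    (hB1 : -(11 / 10) ≤ zB) (hB2 : zB ≤ -(9 / 10)) (hT1 : 9 / 10 ≤ zT) (hT2 : zT ≤ 11 / 10)
    (hc : ‖c‖ ≤ 1 / 8) (hQ : ‖Q‖ ≤ 1 / 50) (pT : 0 < (WW (xi ε η) c Q zT).re)
    (pB : 0 < (WW (xi ε η) c Q zB).re) : MidOK (xi ε η) zB zT c Q := by
  have hh1 := N.h1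
  have hh2 := N.h2
  have u1 := N.u1
  have u2 := N.u2
  have b1 := N.a1
  have b2 := N.a2
  have key : ∀ z ∈ Icc zB zT, 0 < (WW (xi ε η) c Q z).re ∧
      (zT - z) * (z - zB) / 10 ≤ (WW (xi ε η) c Q z).re := by
    rintro z ⟨z1, z2⟩
    rcases le_total z 0 with h | h
    · have e := WW_diff (xi ε η) c Q z zB
      have bd := abs_le.1 (re_bd Q (((zB + z : ℝ) : ℂ) - 2 * c) _ _ hQ
        (lin_bd c (zB + z) hc (abs_le.2 ⟨by linarith, by linarith⟩)))
      rw [low z h, low zB (by linarith)] at e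
      generalize (Q * (((zB + z : ℝ) : ℂ) - 2 * c)).re = E at e bd
      have e2 : (WW (xi ε η) c Q z).re = (WW (xi ε η) c Q zB).re + (z - zB) * (-(zB + z) - E) := by
        rw [e]
        ring
      have g : (z - zB) * (4 / 5) ≤ (z - zB) * (-(zB + z) - E) :=
        mul_le_mul_of_nonneg_left (by linarith [bd.2]) (by linarith)
      have g' : (z - zB) * (zT - z) ≤ (z - zB) * (11 / 5) :=
        mul_le_mul_of_nonneg_left (by linarith) (by linarith)
      rw [e2]
      constructor <;> nlinarith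
    rcases le_total z aR with h' | h'
    · have n1 : ‖(z : ℂ) - c‖ ≤ 1 := by
        calc _ ≤ ‖(z : ℂ)‖ + ‖c‖ := norm_sub_le _ _
          _ = |z| + ‖c‖ := by rw [Complex.norm_real, Real.norm_eq_abs]
          _ ≤ 1 := by
            rw [abs_of_nonneg h]
            linarith
      have n2 : ‖((z : ℂ) - c) ^ 2‖ ≤ 1 := by
        rw [norm_pow]
        exact pow_le_one₀ (norm_nonneg _) n1
      have bd := abs_le.1 (re_bd Q _ _ _ hQ n2)
      have lo := (ball hε N z (abs_le.2 ⟨by linarith, by linarith⟩)).1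
      have zs : z ^ 2 ≤ 3 / 4 := by
        rw [← N.a_sq]
        exact pow_le_pow_left₀ h h' 2
      have g' : (zT - z) * (z - zB) ≤ 121 / 100 := by nlinarith [sq_nonneg (zT + zB - 2 * z)]
      rw [WW_re]
      constructor <;> linarith [bd.2]
    · have e := WW_diff (xi ε η) c Q z zT
      have bd := abs_le.1 (re_bd Q (((zT + z : ℝ) : ℂ) - 2 * c) _ _ hQ
        (lin_bd c (zT + z) hc (abs_le.2 ⟨by linarith, by linarith⟩)))
      rw [top z h', top zT (by linarith)] at e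
      generalize (Q * (((zT + z : ℝ) : ℂ) - 2 * c)).re = E at e bd
      have e2 : (WW (xi ε η) c Q z).re = (WW (xi ε η) c Q zT).re +
          (zT - z) * ((1 + ε) * (zT + z) - ε * uR η + E) := by
        rw [e]
        ring
      have g0 : ε * uR η ≤ 1 / 100 := by nlinarith
      have g1 : zT + z ≤ (1 + ε) * (zT + z) := by nlinarith
      have g : (zT - z) * 1 ≤ (zT - z) * ((1 + ε) * (zT + z) - ε * uR η + E) :=
        mul_le_mul_of_nonneg_left (by linarith [bd.1]) (by linarith)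
      have g' : (zT - z) * (z - zB) ≤ (zT - z) * (11 / 5) :=
        mul_le_mul_of_nonneg_left (by linarith) (by linarith)
      rw [e2]
      constructor <;> nlinarith
  exact ⟨hc, hQ, fun z hz => (key z hz).1, fun z hz => (key z hz).2⟩

end BaseXi

theorem base_xi : StmtXi := by
  intro ε η hε hε1 h0 h1
  have N := BaseXi.num η h0 h1
  exact ⟨N, BaseXi.cont, BaseXi.low, BaseXi.midf, BaseXi.top, BaseXi.dlow, BaseXi.dtop,
    BaseXi.sup hε hε1 N, BaseXi.der, BaseXi.dcont1, BaseXi.dcont2, BaseXi.dbdd hε hε1 N,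
    BaseXi.ball hε N, BaseXi.lt_one hε hε1 N, BaseXi.zone hε N, BaseXi.mid hε hε1 N⟩

end Pool.Agent.Lib.MP_87c84d_gt
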