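import Pool.Agent.Lib.MP_87c84d_gt.CapF

/-!
The real cap attached to a holomorphic cap which is real on the real axis.
-/

namespace Pool.Agent.Lib.MP_87c84d_gt

open MeasureTheory Set Metric Filter Topology

noncomputable section

namespace Bridge

/-- standing hypotheses -/
structure Hyp (K : Cap) (V : Set ℂ) : Prop where
  ok : K.OK V
  mem : ∀ r ∈ Ioc (0 : ℝ) 1, (r : ℂ) ∈ V
  real : ∀ ξ ∈ V, ξ.im = 0 → (K.τ ξ).im = 0
  cont : ContinuousOn (fun r : ℝ => K.τ r) (Icc 0 1)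

lemma ext_closed {X : Type*} [TopologicalSpace X] {f : ℝ → X} {b : ℝ} (hb : 0 < b) {T : Set X}
    (hT : IsClosed T) (hc : ContinuousOn f (Icc 0 b)) (h : ∀ r ∈ Ioc 0 b, f r ∈ T) :
    ∀ r ∈ Icc 0 b, f r ∈ T := by
  have h1 : MapsTo f (Ioc 0 b) T := h
  have h2 := h1.closure_of_continuousOn (by rwa [closure_Ioc hb.ne])
  rw [closure_Ioc hb.ne, hT.closure_eq] at h2
  exact h2

variable {K : Cap} {V : Set ℂ}

namespace Hyp

lemma τ_sub (H : Hyp K V) {r : ℝ} (hr : r ∈ Icc (0 : ℝ) 1) : ‖K.τ r - 1‖ ≤ 1 / 100 := by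
  have := ext_closed (T := closedBall (1 : ℂ) (1 / 100)) one_pos isClosed_closedBall H.cont
    (fun r hr => by rw [mem_closedBall, dist_eq_norm]; exact H.ok.τ0 _ (H.mem r hr)) r hr
  rwa [mem_closedBall, dist_eq_norm] at this

lemma τ_im (H : Hyp K V) {r : ℝ} (hr : r ∈ Icc (0 : ℝ) 1) : (K.τ r).im = 0 :=
  ext_closed (T := {z : ℂ | z.im = 0}) one_pos
    (isClosed_eq Complex.continuous_im continuous_const) H.cont
    (fun r hr => H.real _ (H.mem r hr) (Complex.ofReal_im r)) r hr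

lemma sg_sub (H : Hyp K V) {r : ℝ} (hr : r ∈ Icc (0 : ℝ) 1) : ‖K.sg r - 1‖ ≤ 1 / 100 :=
  (norm_sqrt_sub_one _).trans (H.τ_sub hr)

lemma σ_eq (H : Hyp K V) {r : ℝ} (hr : r ∈ Icc (0 : ℝ) 1) : ((K.toR.σ r : ℝ) : ℂ) = K.sg r :=
  (eq_ofReal_re (im_sqrt (H.τ_im hr) (by linarith [re_ge_of_norm_sub_one (H.τ_sub hr)]))).symm

lemma σ_ge (H : Hyp K V) {r : ℝ} (hr : r ∈ Icc (0 : ℝ) 1) : 99 / 100 ≤ K.toR.σ r := by
  have := re_ge_of_norm_sub_one (H.sg_sub hr)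
  change 99 / 100 ≤ (K.sg r).re
  linarith

lemma sg_cont (H : Hyp K V) : ContinuousOn (fun r : ℝ => K.sg r) (Icc 0 1) :=
  ContinuousOn.csqrt H.cont fun _ hr => slit_of_norm_sub_one (H.τ_sub hr) (by norm_num)

lemma hh_zero (K : Cap) : K.hh 0 = K.h := by simp [Cap.hh]

lemma hh_cont (H : Hyp K V) : ContinuousOn (fun r : ℝ => K.hh r) (Icc 0 1) := by
  intro r hr
  rcases hr.1.eq_or_lt with rfl | h0
  · rw [ContinuousWithinAt, tendsto_iff_norm_sub_tendsto_zero]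
    have h1 : Tendsto (fun r : ℝ => K.m * ‖(r : ℂ)‖ * (101 / 200)) (𝓝[Icc 0 1] 0) (𝓝 0) := by
      have : Continuous fun r : ℝ => K.m * ‖(r : ℂ)‖ * (101 / 200) := by fun_prop
      simpa using (this.tendsto 0).mono_left nhdsWithin_le_nhds
    refine squeeze_zero' (Eventually.of_forall fun _ => norm_nonneg _) ?_ h1
    filter_upwards [self_mem_nhdsWithin] with s hs
    rcases hs.1.eq_or_lt with rfl | h0
    · simp
    · rw [Complex.ofReal_zero, hh_zero]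
      exact H.ok.hh_sub_h (H.mem s ⟨h0, hs.2⟩)
  · exact ((H.ok.hh_der (H.mem r ⟨h0, hr.2⟩)).continuousAt.comp
      Complex.continuous_ofReal.continuousAt).continuousWithinAt

lemma ZZ_cont (H : Hyp K V) : ContinuousOn (fun r : ℝ => K.ZZ r) (Icc 0 1) := by
  have h1 : Continuous fun r : ℝ => K.mm r := by
    simp only [Cap.mm]
    fun_prop
  exact H.hh_cont.sub (h1.continuousOn.mul H.sg_cont)

lemma Z_eq (H : Hyp K V) {r : ℝ} (hr : r ∈ Icc (0 : ℝ) 1) : ((K.toR.Z r : ℝ) : ℂ) = K.ZZ r :=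
  (eq_ofReal_re (ext_closed (T := {z : ℂ | z.im = 0}) one_pos
    (isClosed_eq Complex.continuous_im continuous_const) H.ZZ_cont
    (fun r hr => H.ok.rl_ZZ H.real (H.mem r hr) (Rl.ofReal r)) r hr)).symm

lemma cσ (H : Hyp K V) : ContinuousOn K.toR.σ (Icc 0 1) :=
  Complex.continuous_re.comp_continuousOn H.sg_cont

lemma cZ (H : Hyp K V) : ContinuousOn K.toR.Z (Icc 0 1) :=
  Complex.continuous_re.comp_continuousOn H.ZZ_cont

lemma σ'_eq (H : Hyp K V) {r : ℝ} (hr : r ∈ Ioc (0 : ℝ) 1) :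
    ((K.toR.σ' r : ℝ) : ℂ) = deriv K.τ r / (2 * K.sg r) :=
  (eq_ofReal_re ((H.ok.rl_dτ H.real (H.mem r hr) (Rl.ofReal r)).div
    (Rl.two.mul (H.ok.rl_sg H.real (H.mem r hr) (Rl.ofReal r))))).symm

lemma σ'_val (H : Hyp K V) {r : ℝ} (hr : r ∈ Ioc (0 : ℝ) 1) :
    K.toR.σ' r = (deriv K.τ r).re / (2 * K.toR.σ r) := by
  have h1 := H.σ'_eq hr
  rw [← H.σ_eq (Ioc_subset_Icc_self hr),
    eq_ofReal_re (H.ok.rl_dτ H.real (H.mem r hr) (Rl.ofReal r))] at h1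
  exact_mod_cast h1

lemma Z'_eq (H : Hyp K V) {r : ℝ} (hr : r ∈ Ioc (0 : ℝ) 1) :
    ((K.toR.Z' r : ℝ) : ℂ) = K.NN r / (2 * K.sg r) := by
  have h0 := H.ok.sg_ne (H.mem r hr)
  have hm : K.toR.m = K.m := rfl
  simp only [RCap.Z', hm]
  push_cast
  rw [H.σ_eq (Ioc_subset_Icc_self hr), H.σ'_eq hr]
  simp only [Cap.NN, Cap.mm]
  rw [← Cap.OK.sg_sq K r]
  field_simp

lemma rok (H : Hyp K V) (hd : ∀ r ∈ Ioo (0 : ℝ) 1, 0 ≤ (deriv K.τ r).re) : K.toR.OK where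
  m_pos := H.ok.dom.m_pos
  cσ := H.cσ
  cZ := H.cZ
  dσ := fun r hr => hasDerivAt_re (H.ok.sg_der (H.mem r (Ioo_subset_Ioc_self hr)))
  dZ := fun r hr => by
    have h1 := hasDerivAt_re (H.ok.ZZ_der (H.mem r (Ioo_subset_Ioc_self hr)))
    rw [← H.Z'_eq (Ioo_subset_Ioc_self hr), Complex.ofReal_re] at h1
    exact h1
  cσ' := by
    have h1 : DifferentiableOn ℂ (fun ξ => deriv K.τ ξ / (2 * K.sg ξ)) V :=
      H.ok.dτ_hol.div (H.ok.sg_hol.const_mul 2)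
        fun ξ hξ => mul_ne_zero two_ne_zero (H.ok.sg_ne hξ)
    exact Complex.continuous_re.comp_continuousOn (h1.continuousOn.comp
      Complex.continuous_ofReal.continuousOn fun r hr => H.mem r (Ioo_subset_Ioc_self hr))
  σ_pos := fun r hr => by linarith [H.σ_ge hr]
  σ'_nonneg := fun r hr => by
    rw [H.σ'_val (Ioo_subset_Ioc_self hr)]
    exact div_nonneg (hd r hr) (by linarith [H.σ_ge (Ioo_subset_Icc_self hr)])
  Z'_pos := fun r hr => by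
    have h1 := H.σ_ge (Ioo_subset_Icc_self hr)
    have h2 : (deriv K.τ r).re ≤ 1 / 100 :=
      (Complex.re_le_norm _).trans (H.ok.τ1 _ (H.mem r (Ioo_subset_Ioc_self hr)))
    have h3 : K.toR.σ' r ≤ 1 / 100 := by
      rw [H.σ'_val (Ioo_subset_Ioc_self hr), div_le_iff₀ (by linarith)]
      linarith
    have hm : 0 < K.toR.m := H.ok.dom.m_pos
    have h4 : (1 - r) * K.toR.σ' r ≤ (1 - r) * (1 / 100) :=
      mul_le_mul_of_nonneg_left h3 (by linarith [hr.2])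
    have e : K.toR.Z' r = K.toR.m * (K.toR.σ r / 2 - (1 - r) * K.toR.σ' r) := by
      simp only [RCap.Z']; ring
    rw [e]
    exact mul_pos hm (by linarith [hr.1])

variable {c Q φ : ℝ}

lemma ga_eq (H : Hyp K V) (hP : K.Pl V c Q φ) {r : ℝ} (hr : r ∈ Ioc (0 : ℝ) 1) :
    (((K.ga c Q φ r).re : ℝ) : ℂ) = K.ga c Q φ r :=
  (eq_ofReal_re (H.ok.rl_ga H.real hP (Rl.ofReal c) (Rl.ofReal Q) (Rl.ofReal φ) (H.mem r hr)
    (Rl.ofReal r))).symm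

lemma ga_ge (H : Hyp K V) (hP : K.Pl V c Q φ) {r : ℝ} (hr : r ∈ Ioc (0 : ℝ) 1) :
    9 / 10 ≤ (K.ga c Q φ r).re := by
  linarith [re_ge_of_norm_sub_one (H.ok.ga_sub hP (H.mem r hr))]

lemma W_eq (H : Hyp K V) (hP : K.Pl V c Q φ) (ht : K.mm φ = Q * K.ze c φ ^ 2) {r : ℝ}
    (hr : r ∈ Ioc (0 : ℝ) 1) : K.toR.T r - Q * (K.toR.Z r - c) ^ 2 =
      K.toR.σ r ^ 2 * (K.m * (φ - r) * (K.ga c Q φ r).re) := by
  have hm : K.toR.m = K.m := rfl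
  apply Complex.ofReal_injective
  simp only [RCap.T, hm]
  push_cast
  rw [H.σ_eq (Ioc_subset_Icc_self hr), H.Z_eq (Ioc_subset_Icc_self hr), H.ga_eq hP hr,
    ← H.ok.gamma_eq hP ht (H.mem r hr), ← H.ok.ze_mul_sg c (H.mem r hr)]
  simp only [Cap.mm]
  ring

lemma W_pos (H : Hyp K V) (hφ : φ ∈ Ioc (0 : ℝ) 1) (hP : K.Pl V c Q φ)
    (ht : K.mm φ = Q * K.ze c φ ^ 2) {r : ℝ} (hr : r ∈ Ico 0 φ) :
    0 < K.toR.T r - Q * (K.toR.Z r - c) ^ 2 := by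
  have hm := H.ok.dom.m_pos
  have hsub : Icc 0 φ ⊆ Icc 0 1 := Icc_subset_Icc_right hφ.2
  have hc : ContinuousOn (fun r => K.toR.T r - Q * (K.toR.Z r - c) ^ 2 - K.m * (φ - r) / 2)
      (Icc 0 φ) := by
    have h1 := H.cσ.mono hsub
    have h2 := H.cZ.mono hsub
    simp only [RCap.T]
    fun_prop
  have h := ext_closed (T := Ici (0 : ℝ)) hφ.1 isClosed_Ici hc (fun s hs => by
    have hs' : s ∈ Ioc (0 : ℝ) 1 := ⟨hs.1, hs.2.trans hφ.2⟩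
    have a1 := H.σ_ge (Ioc_subset_Icc_self hs')
    have a2 := H.ga_ge hP hs'
    have a3 : 0 ≤ K.m * (φ - s) := mul_nonneg hm.le (by linarith [hs.2])
    have a4 : 1 / 2 ≤ K.toR.σ s ^ 2 * (K.ga c Q φ s).re := by
      have : 9 / 10 ≤ K.toR.σ s ^ 2 := by nlinarith
      nlinarith
    have a5 := mul_le_mul_of_nonneg_left a4 a3
    rw [mem_Ici, H.W_eq hP ht hs']
    linarith) r (Ico_subset_Icc_self hr)
  rw [mem_Ici] at h
  have : 0 < K.m * (φ - r) := mul_pos hm (by linarith [hr.2])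
  linarith

lemma mul_mem (hφ : φ ∈ Ioc (0 : ℝ) 1) {s : ℝ} (hs : s ∈ Ioo (0 : ℝ) 1) :
    s * φ ∈ Ioc (0 : ℝ) 1 :=
  ⟨mul_pos hs.1 hφ.1, mul_le_one₀ hs.2.le hφ.1.le hφ.2⟩

lemma sqrt_W (H : Hyp K V) (hφ : φ ∈ Ioc (0 : ℝ) 1) (hP : K.Pl V c Q φ)
    (ht : K.mm φ = Q * K.ze c φ ^ 2) {s : ℝ} (hs : s ∈ Ioo (0 : ℝ) 1) :
    ((√(K.toR.T (s * φ) - Q * (K.toR.Z (s * φ) - c) ^ 2) : ℝ) : ℂ) =
      K.sg (s * φ) * ((√K.m : ℝ) : ℂ) * ((√φ : ℝ) : ℂ) * ((√(1 - s) : ℝ) : ℂ) *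
        Complex.sqrt (K.ga c Q φ (s * φ)) := by
  have hr := mul_mem hφ hs
  have hm := H.ok.dom.m_pos
  have a1 := H.σ_ge (Ioc_subset_Icc_self hr)
  have a2 := H.ga_ge hP hr
  have e1 := H.σ_eq (Ioc_subset_Icc_self hr)
  have e2 := H.ga_eq hP hr
  rw [H.W_eq hP ht hr, ← Complex.ofReal_mul s φ, ← e1, ← e2, sqrt_ofReal (by linarith),
    Complex.ofReal_re]
  have e3 : φ - s * φ = φ * (1 - s) := by ring
  rw [e3, Real.sqrt_mul (sq_nonneg _), Real.sqrt_sq (by linarith),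
    Real.sqrt_mul (mul_nonneg hm.le (mul_nonneg hφ.1.le (by linarith [hs.2]))),
    Real.sqrt_mul hm.le, Real.sqrt_mul hφ.1.le]
  push_cast
  ring

lemma int_scale (F : ℝ → ℝ) (φ : ℝ) :
    ((∫ r in (0 : ℝ)..φ, F r : ℝ) : ℂ) = ∫ s in (0 : ℝ)..1, (φ : ℂ) * ((F (s * φ) : ℝ) : ℂ) := by
  have h := intervalIntegral.smul_integral_comp_mul_right (a := 0) (b := 1) F φ
  rw [zero_mul, one_mul] at h
  rw [← h, intervalIntegral.integral_const_mul, intervalIntegral.integral_ofReal, smul_eq_mul,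
    Complex.ofReal_mul]

lemma a_eq (H : Hyp K V) (hφ : φ ∈ Ioc (0 : ℝ) 1) (hP : K.Pl V c Q φ)
    (ht : K.mm φ = Q * K.ze c φ ^ 2) : K.acap c Q φ =
      ((∫ r in (0 : ℝ)..φ, 2 * √(K.toR.T r - Q * (K.toR.Z r - c) ^ 2) * K.toR.Z' r : ℝ) : ℂ) := by
  rw [int_scale, Cap.acap, ← intervalIntegral.integral_const_mul]
  refine int_congr_Ioo zero_le_one fun s hs => ?_
  have hr := mul_mem hφ hs
  have h0 := H.ok.sg_ne (H.mem _ hr)
  have e1 := H.Z'_eq hr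
  rw [Complex.ofReal_mul s φ] at e1 h0
  rw [Complex.ofReal_mul, Complex.ofReal_mul, H.sqrt_W hφ hP ht hs, e1, sqrt_ofReal hφ.1.le]
  push_cast
  generalize K.NN (s * φ) = N
  generalize K.sg (s * φ) = g at h0
  generalize Complex.sqrt (K.ga c Q φ (s * φ)) = G
  field_simp

lemma b_eq (H : Hyp K V) (hφ : φ ∈ Ioc (0 : ℝ) 1) (hP : K.Pl V c Q φ)
    (ht : K.mm φ = Q * K.ze c φ ^ 2) : K.bcap c Q φ = ((∫ r in (0 : ℝ)..φ,
      (K.toR.Z r - c) * K.toR.Z' r / √(K.toR.T r - Q * (K.toR.Z r - c) ^ 2) : ℝ) : ℂ) := by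
  rw [int_scale, Cap.bcap, ← intervalIntegral.integral_const_mul]
  refine int_congr_Ioo zero_le_one fun s hs => ?_
  have hr := mul_mem hφ hs
  have h0 := H.ok.sg_ne (H.mem _ hr)
  have h1 := H.ok.sga_ne hP (H.mem _ hr)
  have e1 := H.Z'_eq hr
  have e2 := H.Z_eq (Ioc_subset_Icc_self hr)
  have e3 := H.ok.ze_mul_sg c (H.mem _ hr)
  rw [Complex.ofReal_mul s φ] at e1 h0 h1 e3
  rw [Complex.ofReal_mul s φ] at e2
  have n1 : ((√K.m : ℝ) : ℂ) ≠ 0 := by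
    exact_mod_cast (Real.sqrt_pos.2 H.ok.dom.m_pos).ne'
  have n2 : ((√φ : ℝ) : ℂ) ≠ 0 := by exact_mod_cast (Real.sqrt_pos.2 hφ.1).ne'
  have n3 : ((√(1 - s) : ℝ) : ℂ) ≠ 0 := by
    exact_mod_cast (Real.sqrt_pos.2 (by linarith [hs.2] : 0 < 1 - s)).ne'
  have e4 : ((√φ : ℝ) : ℂ) ^ 2 = φ := by exact_mod_cast Real.sq_sqrt hφ.1.le
  rw [Complex.ofReal_div, Complex.ofReal_mul, Complex.ofReal_sub, H.sqrt_W hφ hP ht hs, e1, e2,
    ← e3, sqrt_ofReal hφ.1.le, Complex.ofReal_inv]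
  generalize K.ze c (s * φ) = z
  generalize K.NN (s * φ) = N
  generalize K.sg (s * φ) = g at h0
  generalize Complex.sqrt (K.ga c Q φ (s * φ)) = G at h1
  rw [← e4]
  field_simp

lemma ii (H : Hyp K V) (hφ : φ ∈ Ioc (0 : ℝ) 1) (hP : K.Pl V c Q φ)
    (ht : K.mm φ = Q * K.ze c φ ^ 2) : IntervalIntegrable
      (fun r => K.toR.Z' r / √(K.toR.T r - Q * (K.toR.Z r - c) ^ 2)) volume 0 φ := by
  have hg : DifferentiableOn ℂ
      (fun ξ => K.NN ξ / (2 * K.sg ξ * (K.sg ξ * Complex.sqrt (K.ga c Q φ ξ)))) V :=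
    H.ok.NN_hol.div ((H.ok.sg_hol.const_mul 2).mul (H.ok.sg_hol.mul (H.ok.sga_hol hP)))
      fun ξ hξ => mul_ne_zero (mul_ne_zero two_ne_zero (H.ok.sg_ne hξ))
        (mul_ne_zero (H.ok.sg_ne hξ) (H.ok.sga_ne hP hξ))
  have h1 : IntervalIntegrable (fun s : ℝ => (((√(1 - s))⁻¹ : ℝ) : ℂ) * (K.NN (s * φ) /
      (2 * K.sg (s * φ) * (K.sg (s * φ) * Complex.sqrt (K.ga c Q φ (s * φ)))))) volume 0 1 := by
    refine ii_of_bound_sing (C := 1)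
      (cont_inv_sqrt_one_sub.mul (H.ok.dom.ray_cont hg hP.mem)) fun s hs => ?_
    have hm := H.ok.dom.ray_mem hP.mem hs
    rw [norm_mul, Cap.OK.norm_inv_sqrt_one_sub, mul_comm]
    refine mul_le_mul_of_nonneg_right ?_ (by positivity)
    rw [norm_div, norm_mul, norm_mul, norm_mul]
    simp only [Complex.norm_ofNat]
    refine le_trans (b := 1 / 50 / (2 * (99 / 100) * (99 / 100 * (9 / 10)))) ?_ (by norm_num)
    gcongr
    exacts [H.ok.NN_le hm, H.ok.sg_ge hm, H.ok.sg_ge hm, H.ok.sga_ge hP hm]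
  have h2 : IntervalIntegrable (fun s : ℝ => ((K.toR.Z' (s * φ) /
      √(K.toR.T (s * φ) - Q * (K.toR.Z (s * φ) - c) ^ 2) : ℝ) : ℂ)) volume 0 1 := by
    refine ii_congr_Ioo zero_le_one (fun s hs => ?_)
      (h1.const_mul (((√K.m : ℝ) : ℂ) * ((√φ : ℝ) : ℂ))⁻¹)
    have e1 := H.Z'_eq (mul_mem hφ hs)
    rw [Complex.ofReal_mul s φ] at e1
    rw [Complex.ofReal_div, H.sqrt_W hφ hP ht hs, e1, Complex.ofReal_inv]
    simp only [div_eq_mul_inv, mul_inv]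
    ring
  have h3 : IntervalIntegrable (fun s : ℝ => K.toR.Z' (s * φ) /
      √(K.toR.T (s * φ) - Q * (K.toR.Z (s * φ) - c) ^ 2)) volume 0 1 :=
    ⟨by simpa [IntegrableOn] using h2.1.re, by simp⟩
  have h4 := h3.comp_mul_right (c := φ⁻¹)
  simpa [mul_assoc, inv_mul_cancel₀ hφ.1.ne'] using h4

end Hyp

end Bridge

theorem an_bridge : StmtBridge := by
  intro K V hK hV hr hc
  have H : Bridge.Hyp K V := ⟨hK, hV, hr, hc⟩
  refine ⟨H.rok, fun r hr => ⟨H.σ_eq hr, H.Z_eq hr, ?_⟩, fun c Q φ hφ hP ht =>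
    ⟨fun r hr => H.W_pos hφ hP ht hr, ?_, H.ii hφ hP ht, H.a_eq hφ hP ht, H.b_eq hφ hP ht⟩⟩
  · rw [Complex.ofReal_pow, H.σ_eq hr, Cap.OK.sg_sq]
  · rw [H.W_eq hP ht hφ]
    simp

end

end Pool.Agent.Lib.MP_87c84d_gt
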