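import Pool.Agent.Lib.MP_87c84d_gt.Defs

/-!
Bounds and derivative formulas for one cap.
-/

namespace Pool.Agent.Lib.MP_87c84d_gt

open MeasureTheory Set Metric Filter Topology

noncomputable section

namespace Dom

variable {m : ℝ} {V : Set ℂ}

lemma ray_mem (hV : Dom m V) {ξ : ℂ} (hξ : ξ ∈ V) {r : ℝ} (hr : r ∈ Ioo (0 : ℝ) 1) :
    (r : ℂ) * ξ ∈ V := hV.star ξ hξ r ⟨hr.1, hr.2.le⟩

lemma seg_mem (hV : Dom m V) {φ ξ : ℂ} (hφ : φ ∈ V) (hξ : ξ ∈ V) {r : ℝ}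
    (hr : r ∈ Icc (0 : ℝ) 1) : φ + r * (ξ - φ) ∈ V := by
  have := hV.convex.add_smul_sub_mem hφ hξ hr
  simpa using this

lemma ray_cont (hV : Dom m V) {g : ℂ → ℂ} (hg : DifferentiableOn ℂ g V) {ξ : ℂ} (hξ : ξ ∈ V) :
    ContinuousOn (fun r : ℝ => g (r * ξ)) (Ioo 0 1) :=
  hg.continuousOn.comp (by fun_prop) fun _ hr => hV.ray_mem hξ hr

lemma seg_cont (hV : Dom m V) {g : ℂ → ℂ} (hg : DifferentiableOn ℂ g V) {φ ξ : ℂ} (hφ : φ ∈ V)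
    (hξ : ξ ∈ V) : ContinuousOn (fun r : ℝ => g (φ + r * (ξ - φ))) (Icc 0 1) :=
  hg.continuousOn.comp (by fun_prop) fun _ hr => hV.seg_mem hφ hξ hr

lemma dist_le (hV : Dom m V) {φ ξ : ℂ} (hφ : φ ∈ V) (hξ : ξ ∈ V) : m * ‖φ - ξ‖ ≤ 1 / 50 := by
  have h1 := hV.small φ hφ
  have h2 := hV.small ξ hξ
  have h3 := mul_le_mul_of_nonneg_left (norm_sub_le φ ξ) hV.m_pos.le
  linarith

/-- The primitive along rays. -/
lemma ray_der (hV : Dom m V) {g : ℂ → ℂ} {M : ℝ} (hg : DifferentiableOn ℂ g V)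
    (hb : ∀ ξ ∈ V, ‖g ξ‖ ≤ M) {ξ : ℂ} (hξ : ξ ∈ V) :
    HasDerivAt (fun ξ => ξ * ∫ r in (0 : ℝ)..1, g (r * ξ)) (g ξ) ξ := by
  have hd : ∀ r ∈ Ioo (0 : ℝ) 1, ∀ w ∈ V,
      HasDerivAt (fun w => g (r * w)) (deriv g (r * w) * r) w := fun r hr w hw => by
    have h1 := (hg.differentiableAt (hV.isOpen.mem_nhds (hV.ray_mem hw hr))).hasDerivAt
    exact hasDerivAt_of_eq (h1.comp w ((hasDerivAt_id w).const_mul (r : ℂ))) (fun _ => rfl)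
      (by simp)
  obtain ⟨hi, hD⟩ := hol_int_deriv (F := fun w r => g (r * w)) zero_le_one hV.isOpen
    (g := fun _ => M) intervalIntegrable_const (fun w hw => hV.ray_cont hg hw)
    (fun r hr w hw => (hd r hr w hw).differentiableAt.differentiableWithinAt)
    (fun w hw r hr => hb _ (hV.ray_mem hw hr)) hξ
  have hi0 : IntervalIntegrable (fun r : ℝ => g (r * ξ)) volume 0 1 :=
    ii_of_bound_const (hV.ray_cont hg hξ) fun r hr => hb _ (hV.ray_mem hξ hr)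
  refine hasDerivAt_of_eq ((hasDerivAt_id ξ).mul hD) (fun _ => rfl) ?_
  simp only [id, one_mul]
  rw [← intervalIntegral.integral_const_mul, ← intervalIntegral.integral_add hi0 (hi.const_mul ξ)]
  have hF : ∀ r ∈ Ioo (0 : ℝ) 1, HasDerivAt (fun r : ℝ => (r : ℂ) * g (r * ξ))
      (g (r * ξ) + ξ * deriv (fun w => g (r * w)) ξ) r := fun r hr => by
    have h1 := (hg.differentiableAt (hV.isOpen.mem_nhds (hV.ray_mem hξ hr))).hasDerivAt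
    have h2 : HasDerivAt (fun z : ℂ => z * g (z * ξ))
        (1 * g (r * ξ) + r * (deriv g (r * ξ) * ξ)) (r : ℂ) :=
      (hasDerivAt_id (r : ℂ)).mul (hasDerivAt_of_eq
        (HasDerivAt.comp (r : ℂ) h1 ((hasDerivAt_id (r : ℂ)).mul_const ξ)) (fun _ => rfl) (by simp))
    refine hasDerivAt_of_eq h2.comp_ofReal (fun _ => rfl) ?_
    rw [(hd r hr ξ hξ).deriv]; ring
  have h0 : Tendsto (fun r : ℝ => (r : ℂ) * g (r * ξ)) (𝓝[>] 0) (𝓝 0) := by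
    rw [tendsto_zero_iff_norm_tendsto_zero]
    refine squeeze_zero' (Eventually.of_forall fun _ => norm_nonneg _) (g := fun r => r * M) ?_ ?_
    · filter_upwards [Ioo_mem_nhdsGT zero_lt_one] with r hr
      rw [norm_mul, Complex.norm_real, Real.norm_of_nonneg hr.1.le]
      exact mul_le_mul_of_nonneg_left (hb _ (hV.ray_mem hξ hr)) hr.1.le
    · have : Tendsto (fun r : ℝ => r * M) (𝓝 0) (𝓝 (0 * M)) := tendsto_id.mul_const M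
      rw [zero_mul] at this
      exact this.mono_left nhdsWithin_le_nhds
  have h1 : Tendsto (fun r : ℝ => (r : ℂ) * g (r * ξ)) (𝓝[<] 1) (𝓝 (g ξ)) := by
    have hc : ContinuousAt (fun r : ℝ => (r : ℂ) * g (r * ξ)) 1 := by
      have hgc : ContinuousAt g (((1 : ℝ) : ℂ) * ξ) := by
        simpa using (hg.differentiableAt (hV.isOpen.mem_nhds hξ)).continuousAt
      exact Complex.continuous_ofReal.continuousAt.mul
        (ContinuousAt.comp (f := fun r : ℝ => (r : ℂ) * ξ) hgc (by fun_prop))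
    simpa using hc.tendsto.mono_left nhdsWithin_le_nhds
  rw [intervalIntegral.integral_eq_sub_of_hasDerivAt_of_tendsto zero_lt_one hF
    (hi0.add (hi.const_mul ξ)) h0 h1, sub_zero]

/-- The fundamental theorem of calculus along a segment. -/
lemma seg_ftc (hV : Dom m V) {G g : ℂ → ℂ} (hG : ∀ ξ ∈ V, HasDerivAt G (g ξ) ξ)
    (hg : DifferentiableOn ℂ g V) {φ ξ : ℂ} (hφ : φ ∈ V) (hξ : ξ ∈ V) :
    (ξ - φ) * ∫ r in (0 : ℝ)..1, g (φ + r * (ξ - φ)) = G ξ - G φ := by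
  have := intervalIntegral.integral_unitInterval_deriv_eq_sub (𝕜 := ℂ) (f := G) (f' := g) (z₀ := φ)
    (z₁ := ξ - φ) (by simpa using hV.seg_cont hg hφ hξ)
    (fun r hr => by simpa using hG _ (hV.seg_mem hφ hξ hr))
  simpa using this

end Dom

namespace Cap.OK

variable {K : Cap} {V : Set ℂ} {ξ φ c Q : ℂ}

lemma slit (hK : K.OK V) (hξ : ξ ∈ V) : K.τ ξ ∈ Complex.slitPlane :=
  slit_of_norm_sub_one (hK.τ0 ξ hξ) (by norm_num)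

lemma sg_sub (hK : K.OK V) (hξ : ξ ∈ V) : ‖K.sg ξ - 1‖ ≤ 1 / 100 :=
  (norm_sqrt_sub_one _).trans (hK.τ0 ξ hξ)

lemma sg_ge (hK : K.OK V) (hξ : ξ ∈ V) : 99 / 100 ≤ ‖K.sg ξ‖ := by
  linarith [norm_ge_of_norm_sub_one (hK.sg_sub hξ)]

lemma sg_le (hK : K.OK V) (hξ : ξ ∈ V) : ‖K.sg ξ‖ ≤ 101 / 100 := by
  linarith [norm_le_of_norm_sub_one (hK.sg_sub hξ)]

lemma sg_ne (hK : K.OK V) (hξ : ξ ∈ V) : K.sg ξ ≠ 0 := by
  intro h
  have := hK.sg_ge hξ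
  rw [h, norm_zero] at this
  linarith

lemma sg_sq (K : Cap) (ξ : ℂ) : K.sg ξ ^ 2 = K.τ ξ := sq_sqrt _

lemma τ_der (hK : K.OK V) (hξ : ξ ∈ V) : HasDerivAt K.τ (deriv K.τ ξ) ξ :=
  (hK.hol.differentiableAt (hK.dom.isOpen.mem_nhds hξ)).hasDerivAt

lemma dτ_hol (hK : K.OK V) : DifferentiableOn ℂ (deriv K.τ) V := hK.hol.deriv hK.dom.isOpen

lemma sg_der (hK : K.OK V) (hξ : ξ ∈ V) : HasDerivAt K.sg (deriv K.τ ξ / (2 * K.sg ξ)) ξ :=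
  HasDerivAt.csqrt (hK.τ_der hξ) (hK.slit hξ)

lemma sg_hol (hK : K.OK V) : DifferentiableOn ℂ K.sg V := fun _ hξ =>
  (hK.sg_der hξ).differentiableAt.differentiableWithinAt

lemma mm_der (K : Cap) (ξ : ℂ) : HasDerivAt K.mm (-K.m) ξ :=
  hasDerivAt_of_eq (((hasDerivAt_id ξ).const_sub 1).const_mul (K.m : ℂ)) (fun _ => rfl) (by simp)

lemma mm_le (hK : K.OK V) (hξ : ξ ∈ V) : ‖K.mm ξ‖ ≤ 1 / 50 := by
  have h0 := hK.dom.m_pos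
  rw [Cap.mm, norm_mul, Complex.norm_real, Real.norm_of_nonneg h0.le]
  have h1 : ‖1 - ξ‖ ≤ 1 + ‖ξ‖ := by simpa using norm_sub_le 1 ξ
  nlinarith [hK.dom.small ξ hξ, hK.dom.m_le]

lemma hh_der (hK : K.OK V) (hξ : ξ ∈ V) : HasDerivAt K.hh (-(K.m / 2 * K.sg ξ)) ξ := by
  have h := hK.dom.ray_der hK.sg_hol (fun _ h => hK.sg_le h) hξ
  refine hasDerivAt_of_eq ((h.const_mul ((K.m : ℂ) / 2)).const_sub (K.h : ℂ)) (fun y => ?_) rfl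
  simp only [Cap.hh]; ring

lemma hh_hol (hK : K.OK V) : DifferentiableOn ℂ K.hh V := fun _ hξ =>
  (hK.hh_der hξ).differentiableAt.differentiableWithinAt

lemma hh_sub_h (hK : K.OK V) (hξ : ξ ∈ V) : ‖K.hh ξ - K.h‖ ≤ K.m * ‖ξ‖ * (101 / 200) := by
  have h0 := hK.dom.m_pos
  have h1 : ‖∫ r in (0 : ℝ)..1, K.sg (r * ξ)‖ ≤ 101 / 100 :=
    norm_int_le_const fun r hr => hK.sg_le (hK.dom.ray_mem hξ hr)
  have : K.hh ξ - K.h = -(K.m * ξ / 2 * ∫ r in (0 : ℝ)..1, K.sg (r * ξ)) := by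
    simp only [Cap.hh]; ring
  rw [this, norm_neg, norm_mul, norm_div, norm_mul, Complex.norm_real, Real.norm_of_nonneg h0.le]
  simp only [Complex.norm_ofNat]
  have := mul_nonneg h0.le (norm_nonneg ξ)
  nlinarith

lemma hh_sub (hK : K.OK V) (hξ : ξ ∈ V) : ‖K.hh ξ - 1‖ ≤ 16 / 1000 := by
  have h1 := hK.hh_sub_h hξ
  have h2 : ‖(K.h : ℂ) - 1‖ ≤ 1 / 100 := by
    have := hK.h1
    rwa [← Real.norm_eq_abs, ← Complex.norm_real, Complex.ofReal_sub, Complex.ofReal_one] at this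
  have h3 := norm_add_le (K.hh ξ - K.h) ((K.h : ℂ) - 1)
  rw [sub_add_sub_cancel] at h3
  linarith [hK.dom.small ξ hξ]

lemma ZZ_sub (hK : K.OK V) (hξ : ξ ∈ V) : ‖K.ZZ ξ - 1‖ ≤ 4 / 100 := by
  have h1 : K.ZZ ξ - 1 = (K.hh ξ - 1) - K.mm ξ * K.sg ξ := by simp only [Cap.ZZ]; ring
  have h2 : ‖K.mm ξ * K.sg ξ‖ ≤ 1 / 50 * (101 / 100) := by
    rw [norm_mul]; gcongr; exacts [hK.mm_le hξ, hK.sg_le hξ]
  rw [h1]
  linarith [norm_sub_le (K.hh ξ - 1) (K.mm ξ * K.sg ξ), hK.hh_sub hξ]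

lemma NN_le (hK : K.OK V) (hξ : ξ ∈ V) : ‖K.NN ξ‖ ≤ 1 / 50 := by
  have h0 := hK.dom.m_pos
  have h1 : ‖(K.m : ℂ) * K.τ ξ‖ ≤ 1 / 100 * (1 + 1 / 100) := by
    rw [norm_mul, Complex.norm_real, Real.norm_of_nonneg h0.le]
    gcongr; exacts [hK.dom.m_le, norm_le_of_norm_sub_one (hK.τ0 ξ hξ)]
  have h2 : ‖K.mm ξ * deriv K.τ ξ‖ ≤ 1 / 50 * (1 / 100) := by
    rw [norm_mul]; gcongr; exacts [hK.mm_le hξ, hK.τ1 ξ hξ]
  have := norm_sub_le ((K.m : ℂ) * K.τ ξ) (K.mm ξ * deriv K.τ ξ)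
  simp only [Cap.NN]
  linarith

lemma NN_hol (hK : K.OK V) : DifferentiableOn ℂ K.NN V :=
  (hK.hol.const_mul _).sub
    (DifferentiableOn.mul (fun ξ _ => (mm_der K ξ).differentiableAt.differentiableWithinAt)
      hK.dτ_hol)

lemma ZZ_der (hK : K.OK V) (hξ : ξ ∈ V) : HasDerivAt K.ZZ (K.NN ξ / (2 * K.sg ξ)) ξ := by
  refine hasDerivAt_of_eq ((hK.hh_der hξ).sub ((mm_der K ξ).mul (hK.sg_der hξ))) (fun _ => rfl) ?_
  have := hK.sg_ne hξ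
  simp only [Cap.NN, ← sg_sq K ξ]
  field_simp
  ring

lemma ZZ_hol (hK : K.OK V) : DifferentiableOn ℂ K.ZZ V := fun _ hξ =>
  (hK.ZZ_der hξ).differentiableAt.differentiableWithinAt

lemma ze_der (hK : K.OK V) (c : ℂ) (hξ : ξ ∈ V) : HasDerivAt (K.ze c) (K.ze1 c ξ) ξ := by
  have h0 := hK.sg_ne hξ
  refine hasDerivAt_of_eq ((((hK.hh_der hξ).sub_const c).div (hK.sg_der hξ) h0).sub (mm_der K ξ))
    (fun _ => rfl) ?_
  simp only [Cap.ze1]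
  field_simp
  ring

lemma ze_hol (hK : K.OK V) (c : ℂ) : DifferentiableOn ℂ (K.ze c) V := fun _ hξ =>
  (hK.ze_der c hξ).differentiableAt.differentiableWithinAt

lemma ze1_hol (hK : K.OK V) (c : ℂ) : DifferentiableOn ℂ (K.ze1 c) V :=
  ((hK.ze_hol c).deriv hK.dom.isOpen).congr fun _ hξ => (hK.ze_der c hξ).deriv.symm

lemma ze_mul_sg (hK : K.OK V) (c : ℂ) (hξ : ξ ∈ V) : K.ze c ξ * K.sg ξ = K.ZZ ξ - c := by
  have h0 := hK.sg_ne hξ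
  simp only [Cap.ze, Cap.ZZ]
  field_simp
  ring

lemma hh_sub_c (hK : K.OK V) (hc : ‖c‖ ≤ 1 / 8) (hξ : ξ ∈ V) : ‖K.hh ξ - c‖ ≤ 115 / 100 := by
  have := norm_le_of_norm_sub_one (hK.hh_sub hξ)
  linarith [norm_sub_le (K.hh ξ) c]

lemma ze_sub (hK : K.OK V) (hc : ‖c‖ ≤ 1 / 8) (hξ : ξ ∈ V) : ‖K.ze c ξ - 1‖ ≤ 1 / 5 := by
  have h0 := hK.sg_ne hξ
  have h1 : K.ze c ξ - 1 = ((K.hh ξ - 1) - c - (K.sg ξ - 1)) / K.sg ξ - K.mm ξ := by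
    simp only [Cap.ze]; field_simp; ring
  have h2 : ‖(K.hh ξ - 1) - c - (K.sg ξ - 1)‖ ≤ 151 / 1000 := by
    linarith [norm_sub_le ((K.hh ξ - 1) - c) (K.sg ξ - 1), norm_sub_le (K.hh ξ - 1) c,
      hK.hh_sub hξ, hK.sg_sub hξ]
  have h3 : ‖((K.hh ξ - 1) - c - (K.sg ξ - 1)) / K.sg ξ‖ ≤ (151 / 1000) / (99 / 100) := by
    rw [norm_div]; gcongr; exact hK.sg_ge hξ
  rw [h1]
  linarith [norm_sub_le (((K.hh ξ - 1) - c - (K.sg ξ - 1)) / K.sg ξ) (K.mm ξ), hK.mm_le hξ]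

lemma ze_le (hK : K.OK V) (hc : ‖c‖ ≤ 1 / 8) (hξ : ξ ∈ V) : ‖K.ze c ξ‖ ≤ 6 / 5 := by
  linarith [norm_le_of_norm_sub_one (hK.ze_sub hc hξ)]

lemma ze1_le (hK : K.OK V) (hc : ‖c‖ ≤ 1 / 8) (hξ : ξ ∈ V) : ‖K.ze1 c ξ‖ ≤ 1 / 50 := by
  have h0 := hK.dom.m_pos
  have h1 : ‖(K.m : ℂ) / 2‖ ≤ 1 / 200 := by
    rw [norm_div, Complex.norm_real, Real.norm_of_nonneg h0.le]
    simp only [Complex.norm_ofNat]
    linarith [hK.dom.m_le]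
  have h2 : ‖(K.hh ξ - c) * deriv K.τ ξ / (2 * K.sg ξ ^ 3)‖ ≤
      115 / 100 * (1 / 100) / (2 * (99 / 100) ^ 3) := by
    rw [norm_div, norm_mul, norm_mul, norm_pow]
    simp only [Complex.norm_ofNat]
    gcongr
    exacts [hK.hh_sub_c hc hξ, hK.τ1 ξ hξ, hK.sg_ge hξ]
  have := norm_sub_le ((K.m : ℂ) / 2) ((K.hh ξ - c) * deriv K.τ ξ / (2 * K.sg ξ ^ 3))
  simp only [Cap.ze1]
  have h3 : (115 / 100 * (1 / 100) / (2 * (99 / 100) ^ 3) : ℝ) ≤ 1 / 100 := by norm_num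
  linarith

lemma Q_small (hK : K.OK V) (hP : K.Pl V c Q φ) : ‖Q‖ ≤ 1 / 50 := by
  linarith [hP.Q_le, hK.dom.m_le]

lemma Q_div (hK : K.OK V) (hP : K.Pl V c Q φ) : ‖Q‖ / K.m ≤ 2 := by
  rw [div_le_iff₀ hK.dom.m_pos]; exact hP.Q_le

lemma den_sub (hK : K.OK V) (hP : K.Pl V c Q φ) (hξ : ξ ∈ V) :
    ‖1 + Q * K.ze c ξ - 1‖ ≤ 6 / 5 * ‖Q‖ := by
  rw [add_sub_cancel_left, norm_mul, mul_comm]
  gcongr
  exact hK.ze_le hP.c_le hξ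

lemma den_ge (hK : K.OK V) (hP : K.Pl V c Q φ) (hξ : ξ ∈ V) : 97 / 100 ≤ ‖1 + Q * K.ze c ξ‖ := by
  linarith [norm_ge_of_norm_sub_one (hK.den_sub hP hξ), hK.Q_small hP]

lemma den_ne (hK : K.OK V) (hP : K.Pl V c Q φ) (hξ : ξ ∈ V) : 1 + Q * K.ze c ξ ≠ 0 := by
  intro h
  have := hK.den_ge hP hξ
  rw [h, norm_zero] at this
  linarith

lemma inv_den_sub (hK : K.OK V) (hP : K.Pl V c Q φ) (hξ : ξ ∈ V) :
    ‖1 / (1 + Q * K.ze c ξ) - 1‖ ≤ 5 / 4 * ‖Q‖ := by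
  have h0 := hK.den_ne hP hξ
  have : 1 / (1 + Q * K.ze c ξ) - 1 = -((1 + Q * K.ze c ξ - 1) / (1 + Q * K.ze c ξ)) := by
    field_simp; ring
  rw [this, norm_neg, norm_div]
  calc _ ≤ 6 / 5 * ‖Q‖ / (97 / 100) := by
        gcongr; exacts [hK.den_sub hP hξ, hK.den_ge hP hξ]
    _ ≤ _ := by nlinarith [norm_nonneg Q]

lemma ga_sub' (hK : K.OK V) (hP : K.Pl V c Q φ) {e : ℝ} (he : ∀ y ∈ V, ‖K.ze1 c y‖ ≤ e)
    (hξ : ξ ∈ V) : ‖K.ga c Q φ ξ - 1‖ ≤ 12 / 5 * (‖Q‖ / K.m) * e := by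
  have h0 := hK.dom.m_pos
  have h1 : ‖∫ r in (0 : ℝ)..1, 2 * K.ze c (φ + r * (ξ - φ)) * K.ze1 c (φ + r * (ξ - φ))‖ ≤
      2 * (6 / 5) * e := norm_int_le_const fun r hr => by
    have hm := hK.dom.seg_mem hP.mem hξ (Ioo_subset_Icc_self hr)
    rw [norm_mul, norm_mul]
    simp only [Complex.norm_ofNat]
    gcongr
    exacts [hK.ze_le hP.c_le hm, he _ hm]
  rw [Cap.ga, add_sub_cancel_left, norm_mul, norm_div, Complex.norm_real,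
    Real.norm_of_nonneg h0.le]
  calc _ ≤ ‖Q‖ / K.m * (2 * (6 / 5) * e) := by gcongr
    _ = _ := by ring

lemma ga_sub (hK : K.OK V) (hP : K.Pl V c Q φ) (hξ : ξ ∈ V) : ‖K.ga c Q φ ξ - 1‖ ≤ 1 / 10 := by
  have := hK.ga_sub' hP (fun y hy => hK.ze1_le hP.c_le hy) hξ
  linarith [hK.Q_div hP]

lemma ga_slit (hK : K.OK V) (hP : K.Pl V c Q φ) (hξ : ξ ∈ V) :
    K.ga c Q φ ξ ∈ Complex.slitPlane := slit_of_norm_sub_one (hK.ga_sub hP hξ) (by norm_num)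

lemma sga_le (hK : K.OK V) (hP : K.Pl V c Q φ) (hξ : ξ ∈ V) :
    ‖Complex.sqrt (K.ga c Q φ ξ)‖ ≤ 11 / 10 := by
  linarith [norm_le_of_norm_sub_one ((norm_sqrt_sub_one _).trans (hK.ga_sub hP hξ))]

lemma sga_ge (hK : K.OK V) (hP : K.Pl V c Q φ) (hξ : ξ ∈ V) :
    9 / 10 ≤ ‖Complex.sqrt (K.ga c Q φ ξ)‖ := by
  linarith [norm_ge_of_norm_sub_one ((norm_sqrt_sub_one _).trans (hK.ga_sub hP hξ))]

lemma sga_ne (hK : K.OK V) (hP : K.Pl V c Q φ) (hξ : ξ ∈ V) :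
    Complex.sqrt (K.ga c Q φ ξ) ≠ 0 := by
  intro h
  have := hK.sga_ge hP hξ
  rw [h, norm_zero] at this
  linarith

/-- The factorisation of the chord function. -/
lemma gamma_eq (hK : K.OK V) (hP : K.Pl V c Q φ) (ht : K.mm φ = Q * K.ze c φ ^ 2) (hξ : ξ ∈ V) :
    K.mm ξ - Q * K.ze c ξ ^ 2 = K.m * (φ - ξ) * K.ga c Q φ ξ := by
  have h0 : (K.m : ℂ) ≠ 0 := by exact_mod_cast hK.dom.m_pos.ne'
  have h := hK.dom.seg_ftc (G := fun y => K.ze c y ^ 2) (g := fun y => 2 * K.ze c y * K.ze1 c y)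
    (fun y hy => hasDerivAt_of_eq ((hK.ze_der c hy).pow 2) (fun _ => rfl) (by simp))
    (((hK.ze_hol c).const_mul 2).mul (hK.ze1_hol c)) hP.mem hξ
  simp only [Cap.ga, Cap.mm] at ht ⊢
  field_simp
  linear_combination ht + Q * h

lemma kin_le (hK : K.OK V) (hP : K.Pl V c Q φ) {e : ℝ} (he : ∀ y ∈ V, ‖K.ze1 c y‖ ≤ e)
    (hξ : ξ ∈ V) : ‖K.kin c Q φ ξ‖ ≤ 6 / 5 * e := by
  have he0 : 0 ≤ e := (norm_nonneg _).trans (he ξ hξ)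
  rw [Cap.kin, norm_div, norm_mul, norm_mul, norm_pow]
  refine le_trans (b := 11 / 10 * (101 / 100) * e / (97 / 100) ^ 2) ?_ ?_
  · gcongr
    exacts [hK.sga_le hP hξ, hK.sg_le hξ, he ξ hξ, hK.den_ge hP hξ]
  · rw [div_le_iff₀ (by norm_num)]
    nlinarith

lemma ka_sub' (hK : K.OK V) (hP : K.Pl V c Q φ) {e : ℝ} (he : ∀ y ∈ V, ‖K.ze1 c y‖ ≤ e)
    (hξ : ξ ∈ V) : ‖K.ka c Q φ ξ - 1 / (1 + Q * K.ze c φ)‖ ≤ 5 * (‖Q‖ / K.m) * e := by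
  have h0 := hK.dom.m_pos
  have he0 : 0 ≤ e := (norm_nonneg _).trans (he ξ hξ)
  have hd := hK.dom.dist_le hP.mem hξ
  have hq : ‖Q‖ * ‖φ - ξ‖ ≤ ‖Q‖ / K.m * (1 / 50) := by
    calc _ = ‖Q‖ / K.m * (K.m * ‖φ - ξ‖) := by field_simp
      _ ≤ _ := by gcongr
  have hQ0 : 0 ≤ ‖Q‖ / K.m := by positivity
  have a1 : ‖∫ r in (0 : ℝ)..1, ((√r : ℝ) : ℂ) * K.kin c Q φ (φ + r * (ξ - φ))‖ ≤ 6 / 5 * e :=
    norm_int_le_const fun r hr => by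
      have hm := hK.dom.seg_mem hP.mem hξ (Ioo_subset_Icc_self hr)
      rw [norm_mul, Complex.norm_real, Real.norm_of_nonneg (Real.sqrt_nonneg _)]
      have : √r ≤ 1 := Real.sqrt_le_one.mpr hr.2.le
      calc _ ≤ 1 * (6 / 5 * e) := by gcongr; exact hK.kin_le hP he hm
        _ = _ := one_mul _
  have a2 : ‖Q * (φ - ξ) / K.sg ξ *
      ∫ r in (0 : ℝ)..1, ((√r : ℝ) : ℂ) * K.kin c Q φ (φ + r * (ξ - φ))‖ ≤
      ‖Q‖ / K.m * (1 / 50) / (99 / 100) * (6 / 5 * e) := by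
    rw [norm_mul, norm_div, norm_mul]
    gcongr
    exact hK.sg_ge hξ
  have a3 : ‖K.ze c ξ - K.ze c φ‖ ≤ e * ‖ξ - φ‖ :=
    hK.dom.convex.norm_image_sub_le_of_norm_hasDerivWithin_le
      (fun y hy => (hK.ze_der c hy).hasDerivWithinAt) he hP.mem hξ
  have n1 := hK.den_ne hP hξ
  have n2 := hK.den_ne hP hP.mem
  have a4 : Complex.sqrt (K.ga c Q φ ξ) / (1 + Q * K.ze c ξ) - 1 / (1 + Q * K.ze c φ) =
      (Complex.sqrt (K.ga c Q φ ξ) - 1) / (1 + Q * K.ze c ξ) -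
        Q * (K.ze c ξ - K.ze c φ) / ((1 + Q * K.ze c ξ) * (1 + Q * K.ze c φ)) := by
    field_simp; ring
  have a5 : ‖(Complex.sqrt (K.ga c Q φ ξ) - 1) / (1 + Q * K.ze c ξ)‖ ≤
      12 / 5 * (‖Q‖ / K.m) * e / (97 / 100) := by
    rw [norm_div]
    gcongr
    exacts [(norm_sqrt_sub_one _).trans (hK.ga_sub' hP he hξ), hK.den_ge hP hξ]
  have a6 : ‖Q * (K.ze c ξ - K.ze c φ) / ((1 + Q * K.ze c ξ) * (1 + Q * K.ze c φ))‖ ≤
      ‖Q‖ / K.m * (1 / 50) * e / (97 / 100 * (97 / 100)) := by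
    rw [norm_div, norm_mul, norm_mul]
    gcongr ?_ / ?_
    · rw [norm_sub_rev ξ φ] at a3
      calc _ ≤ ‖Q‖ * (e * ‖φ - ξ‖) := by gcongr
        _ = ‖Q‖ * ‖φ - ξ‖ * e := by ring
        _ ≤ _ := by gcongr
    · gcongr
      exacts [hK.den_ge hP hξ, hK.den_ge hP hP.mem]
  have a7 : K.ka c Q φ ξ - 1 / (1 + Q * K.ze c φ) =
      (Complex.sqrt (K.ga c Q φ ξ) / (1 + Q * K.ze c ξ) - 1 / (1 + Q * K.ze c φ)) -
      Q * (φ - ξ) / K.sg ξ *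
        ∫ r in (0 : ℝ)..1, ((√r : ℝ) : ℂ) * K.kin c Q φ (φ + r * (ξ - φ)) := by
    simp only [Cap.ka]; ring
  rw [a7, a4]
  refine (norm_sub_le _ _).trans ?_
  have a8 := norm_sub_le ((Complex.sqrt (K.ga c Q φ ξ) - 1) / (1 + Q * K.ze c ξ))
    (Q * (K.ze c ξ - K.ze c φ) / ((1 + Q * K.ze c ξ) * (1 + Q * K.ze c φ)))
  have hqe : 0 ≤ ‖Q‖ / K.m * e := by positivity
  have b1 : ‖Q‖ / K.m * (1 / 50) / (99 / 100) * (6 / 5 * e) = 4 / 165 * (‖Q‖ / K.m * e) := by ring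
  have b2 : 12 / 5 * (‖Q‖ / K.m) * e / (97 / 100) = 240 / 97 * (‖Q‖ / K.m * e) := by ring
  have b3 : ‖Q‖ / K.m * (1 / 50) * e / (97 / 100 * (97 / 100)) = 200 / 9409 * (‖Q‖ / K.m * e) := by
    ring
  have b4 : 5 * (‖Q‖ / K.m) * e = 5 * (‖Q‖ / K.m * e) := by ring
  linarith

lemma ka_sub (hK : K.OK V) (hP : K.Pl V c Q φ) (hξ : ξ ∈ V) :
    ‖K.ka c Q φ ξ - 1‖ ≤ 1 / 8 * (‖Q‖ / K.m) := by
  have h0 := hK.dom.m_pos
  have h1 := hK.ka_sub' hP (fun y hy => hK.ze1_le hP.c_le hy) hξ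
  have h2 := hK.inv_den_sub hP hP.mem
  have h3 := norm_add_le (K.ka c Q φ ξ - 1 / (1 + Q * K.ze c φ)) (1 / (1 + Q * K.ze c φ) - 1)
  rw [sub_add_sub_cancel] at h3
  have h4 : ‖Q‖ ≤ ‖Q‖ / K.m * (1 / 100) := by
    calc ‖Q‖ = ‖Q‖ / K.m * K.m := by field_simp
      _ ≤ _ := by gcongr; exact hK.dom.m_le
  have h5 : 0 ≤ ‖Q‖ / K.m := by positivity
  linarith

lemma ka_le (hK : K.OK V) (hP : K.Pl V c Q φ) (hξ : ξ ∈ V) : ‖K.ka c Q φ ξ‖ ≤ 5 / 4 := by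
  linarith [norm_le_of_norm_sub_one (hK.ka_sub hP hξ), hK.Q_div hP]

lemma norm_sqrt_one_sub {r : ℝ} (hr : r ∈ Ioo (0 : ℝ) 1) : ‖((√(1 - r) : ℝ) : ℂ)‖ ≤ 1 := by
  rw [Complex.norm_real, Real.norm_of_nonneg (Real.sqrt_nonneg _)]
  exact Real.sqrt_le_one.mpr (by linarith [hr.1])

lemma norm_inv_sqrt_one_sub (r : ℝ) : ‖(((√(1 - r))⁻¹ : ℝ) : ℂ)‖ = (√(1 - r))⁻¹ := by
  rw [Complex.norm_real, Real.norm_of_nonneg (by positivity)]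

lemma aint_le (hK : K.OK V) (hP : K.Pl V c Q φ) (hξ : ξ ∈ V) :
    ‖Complex.sqrt (K.ga c Q φ ξ) * K.NN ξ‖ ≤ 1 / 40 := by
  rw [norm_mul]
  refine le_trans (b := 11 / 10 * (1 / 50)) ?_ (by norm_num)
  gcongr; exacts [hK.sga_le hP hξ, hK.NN_le hξ]

lemma bint_le (hK : K.OK V) (hP : K.Pl V c Q φ) (hξ : ξ ∈ V) :
    ‖K.ze c ξ * K.NN ξ / (2 * K.sg ξ * Complex.sqrt (K.ga c Q φ ξ))‖ ≤ 1 / 50 := by
  rw [norm_div, norm_mul, norm_mul, norm_mul]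
  simp only [Complex.norm_ofNat]
  refine le_trans (b := 6 / 5 * (1 / 50) / (2 * (99 / 100) * (9 / 10))) ?_ (by norm_num)
  gcongr; exacts [hK.ze_le hP.c_le hξ, hK.NN_le hξ, hK.sg_ge hξ, hK.sga_ge hP hξ]

lemma eint_le (hK : K.OK V) (hP : K.Pl V c Q φ) (hξ : ξ ∈ V) :
    ‖K.ze c ξ ^ 2 * K.NN ξ / (2 * Complex.sqrt (K.ga c Q φ ξ))‖ ≤ 1 / 50 := by
  rw [norm_div, norm_mul, norm_mul, norm_pow]
  simp only [Complex.norm_ofNat]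
  refine le_trans (b := (6 / 5) ^ 2 * (1 / 50) / (2 * (9 / 10))) ?_ (by norm_num)
  gcongr; exacts [hK.ze_le hP.c_le hξ, hK.NN_le hξ, hK.sga_ge hP hξ]

lemma acap_le (hK : K.OK V) (hP : K.Pl V c Q φ) (hφ : ‖φ‖ ≤ 2) : ‖K.acap c Q φ‖ ≤ 1 := by
  have h1 : ‖∫ r in (0 : ℝ)..1, ((√(1 - r) : ℝ) : ℂ) *
      (Complex.sqrt (K.ga c Q φ (r * φ)) * K.NN (r * φ))‖ ≤ 1 * (1 / 40) :=
    norm_int_le_const fun r hr => by
      rw [norm_mul]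
      gcongr
      exacts [norm_sqrt_one_sub hr, hK.aint_le hP (hK.dom.ray_mem hP.mem hr)]
  have h2 : √K.m ≤ 1 := Real.sqrt_le_one.mpr (by linarith [hK.dom.m_le])
  have h3 : √‖φ‖ ≤ 2 := Real.sqrt_le_iff.mpr ⟨by norm_num, by linarith⟩
  rw [Cap.acap, norm_mul, norm_mul, norm_mul, norm_sqrt, Complex.norm_real,
    Real.norm_of_nonneg (Real.sqrt_nonneg _)]
  refine le_trans (b := 1 * (2 * 2) * (1 * (1 / 40))) ?_ (by norm_num)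
  gcongr

lemma bcap_le (hK : K.OK V) (hP : K.Pl V c Q φ) (hφ : ‖φ‖ ≤ 2) :
    ‖K.bcap c Q φ‖ ≤ 1 / √K.m := by
  have h1 : ‖∫ r in (0 : ℝ)..1, (((√(1 - r))⁻¹ : ℝ) : ℂ) * (K.ze c (r * φ) * K.NN (r * φ) /
      (2 * K.sg (r * φ) * Complex.sqrt (K.ga c Q φ (r * φ))))‖ ≤ 2 * (1 / 50) :=
    norm_int_le_sing fun r hr => by
      rw [norm_mul, norm_inv_sqrt_one_sub, mul_comm]
      gcongr
      exact hK.bint_le hP (hK.dom.ray_mem hP.mem hr)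
  have h2 : 0 < √K.m := Real.sqrt_pos.mpr hK.dom.m_pos
  have h3 : √‖φ‖ ≤ 2 := Real.sqrt_le_iff.mpr ⟨by norm_num, by linarith⟩
  rw [Cap.bcap, norm_mul, norm_div, norm_sqrt, Complex.norm_real,
    Real.norm_of_nonneg (Real.sqrt_nonneg _)]
  calc _ ≤ 2 / √K.m * (2 * (1 / 50)) := by gcongr
    _ = (2 * (2 * (1 / 50))) / √K.m := by ring
    _ ≤ _ := by gcongr; norm_num

/-- The chord function at the vertex of the domain. -/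
lemma junction (hK : K.OK V) (hP : K.Pl V c Q φ) (ht : K.mm φ = Q * K.ze c φ ^ 2) {τ0 : ℂ}
    (h0 : ‖τ0 - 1‖ ≤ 1 / 100) (hl : Tendsto (fun r : ℝ => K.τ (r * φ)) (𝓝[>] 0) (𝓝 τ0)) :
    ‖(K.m - Q * ((K.h - c) / Complex.sqrt τ0 - K.m) ^ 2) - K.m * φ‖ ≤ K.m * ‖φ‖ / 10 := by
  have hm := hK.dom.m_pos
  have hs : τ0 ∈ Complex.slitPlane := slit_of_norm_sub_one h0 (by norm_num)
  have hr : Tendsto (fun r : ℝ => (r : ℂ)) (𝓝[>] 0) (𝓝 0) := by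
    simpa using (Complex.continuous_ofReal.tendsto 0).mono_left nhdsWithin_le_nhds
  have h1 : Tendsto (fun r : ℝ => K.sg (r * φ)) (𝓝[>] 0) (𝓝 (Complex.sqrt τ0)) :=
    (Complex.differentiableAt_sqrt hs).continuousAt.tendsto.comp hl
  have h2 : Tendsto (fun r : ℝ => K.hh (r * φ)) (𝓝[>] 0) (𝓝 (K.h : ℂ)) := by
    rw [tendsto_iff_norm_sub_tendsto_zero]
    refine squeeze_zero' (Eventually.of_forall fun _ => norm_nonneg _)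
      (g := fun r : ℝ => K.m * ‖(r : ℂ) * φ‖ * (101 / 200)) ?_ ?_
    · filter_upwards [Ioo_mem_nhdsGT zero_lt_one] with r hr
      exact hK.hh_sub_h (hK.dom.ray_mem hP.mem hr)
    · simpa using (((hr.mul_const φ).norm.const_mul K.m).mul_const (101 / 200))
  have h3 : Tendsto (fun r : ℝ => K.mm (r * φ)) (𝓝[>] 0) (𝓝 (K.m : ℂ)) := by
    simpa [Cap.mm] using ((hr.mul_const φ).const_sub 1).const_mul (K.m : ℂ)
  have h4 : Tendsto (fun r : ℝ => K.mm (r * φ) - Q * K.ze c (r * φ) ^ 2 - K.m * (φ - r * φ))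
      (𝓝[>] 0) (𝓝 ((K.m - Q * ((K.h - c) / Complex.sqrt τ0 - K.m) ^ 2) - K.m * φ)) := by
    have a := (((h2.sub_const c).div h1 (sqrt_ne_zero (Complex.slitPlane_ne_zero hs))).sub h3).pow 2
    have b := ((hr.mul_const φ).const_sub φ).const_mul (K.m : ℂ)
    simpa [Cap.ze] using (h3.sub (a.const_mul Q)).sub b
  refine le_of_tendsto h4.norm ?_
  filter_upwards [Ioo_mem_nhdsGT zero_lt_one] with r hr
  have hy := hK.dom.ray_mem hP.mem hr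
  rw [hK.gamma_eq hP ht hy]
  have e : (K.m : ℂ) * (φ - r * φ) * K.ga c Q φ (r * φ) - K.m * (φ - r * φ) =
      K.m * φ * ((1 - r : ℝ) : ℂ) * (K.ga c Q φ (r * φ) - 1) := by push_cast; ring
  rw [e, norm_mul, norm_mul, norm_mul, Complex.norm_real, Complex.norm_real,
    Real.norm_of_nonneg hm.le, Real.norm_of_nonneg (by linarith [hr.2])]
  calc _ ≤ K.m * ‖φ‖ * 1 * (1 / 10) := by
        gcongr
        · linarith [hr.1]
        · exact hK.ga_sub hP hy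
    _ = _ := by ring

end Cap.OK

end

end Pool.Agent.Lib.MP_87c84d_gt
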