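import Pool.Agent.Lib.MP_87c84d_gt.CapF

/-!
The derivative of the cap area along a family of planes through a moving tip.
-/

namespace Pool.Agent.Lib.MP_87c84d_gt

open MeasureTheory Set Metric Filter Topology

noncomputable section

namespace CapDer

lemma der_of_sq {𝕜 : Type*} [NontriviallyNormedField 𝕜] [NormedAlgebra 𝕜 ℂ] {f g : 𝕜 → ℂ}
    {g' : ℂ} {x : 𝕜} (hf : DifferentiableAt 𝕜 f x) (hg : HasDerivAt g g' x)
    (h : ∀ᶠ y in 𝓝 x, f y ^ 2 = g y) (h0 : f x ≠ 0) : HasDerivAt f (g' / (2 * f x)) x := by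
  have h1 : HasDerivAt (fun y => f y * f y) (deriv f x * f x + f x * deriv f x) x :=
    hf.hasDerivAt.mul hf.hasDerivAt
  have h2 : HasDerivAt (fun y => f y * f y) g' x :=
    hg.congr_of_eventuallyEq (h.mono fun y hy => by simp only [← hy]; ring)
  have h3 := h1.unique h2
  refine hasDerivAt_of_eq hf.hasDerivAt (fun _ => rfl) ?_
  rw [← h3]
  field_simp
  ring

lemma ray_d {f : ℂ → ℂ} {f' φ : ℂ} {r : ℝ} (h : HasDerivAt f f' (r * φ)) :
    HasDerivAt (fun r : ℝ => f (r * φ)) (f' * φ) r := by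
  have h2 : HasDerivAt (fun z : ℂ => f (z * φ)) (f' * φ) (r : ℂ) :=
    hasDerivAt_of_eq (HasDerivAt.comp (r : ℂ) h ((hasDerivAt_id (r : ℂ)).mul_const φ))
      (fun _ => rfl) (by simp)
  exact h2.comp_ofReal

lemma alg (m G sg ze Q φ τ' u u' W Om NNx r φ' c' Q' l' mm NN ze1 : ℂ) (hG : G ≠ 0) (hs : sg ≠ 0)
    (hd : 1 + Q * ze ≠ 0) (h1 : G ^ 2 = mm - Q * ze ^ 2) (h2 : NN = m * sg ^ 2 - mm * τ')
    (h3 : ze1 = m / 2 - (ze + mm) * τ' / (2 * sg ^ 2)) :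
    φ' * (G * NN + r * ((-m - Q * (2 * ze * ze1)) * φ / (2 * G) * NN + G * (NNx * φ))) +
      l' * (-((-m - Q * (2 * ze * ze1)) * φ / (2 * G) * (mm * u) +
          G * (-m * φ * u + mm * (u' * φ))) +
        (m / 2 * ((τ' / (2 * sg) * φ * G + sg * ((-m - Q * (2 * ze * ze1)) * φ / (2 * G))) *
            (1 / (1 + Q * ze) - 1) + sg * G * (-(Q * (ze1 * φ)) / (1 + Q * ze) ^ 2) -
            Q * (-(φ * (G * sg * ze1 / (1 + Q * ze) ^ 2)))) * W +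
          m / 2 * (sg * G * (1 / (1 + Q * ze) - 1) - Q * Om) * (u / sg * φ))) =
    (φ' * G + φ * ((-m * (r * φ') - (Q' * ze ^ 2 + Q * (2 * ze *
        (((-(m / 4 * l' * W) - c') / sg - (ze + mm) * (l' * u) / (2 * sg ^ 2)) +
          ze1 * (r * φ'))))) / (2 * G))) * NN +
      φ * G * (l' * (m * u - mm * u') + NNx * (r * φ')) -
    (l' * (-(m / 2) * (φ * u * (G / (1 + Q * ze) - Q * Om / sg))) +
      c' * (2 * Q * (φ * ze * NN / (2 * sg * G))) + Q' * (-(φ * ze ^ 2 * NN / (2 * G)))) := by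
  have h4 : mm = G ^ 2 + Q * ze ^ 2 := by linear_combination -h1
  subst h2 h3 h4
  field_simp
  ring

/-- bounded on the open unit interval -/
def Bd (f : ℝ → ℂ) : Prop := ∃ C : ℝ, ∀ r ∈ Ioo (0 : ℝ) 1, ‖f r‖ ≤ C

lemma Bd.const (a : ℂ) : Bd fun _ => a := ⟨‖a‖, fun _ _ => le_rfl⟩

lemma Bd.add {f g : ℝ → ℂ} (hf : Bd f) (hg : Bd g) : Bd fun r => f r + g r := by
  obtain ⟨C, hC⟩ := hf
  obtain ⟨D, hD⟩ := hg
  exact ⟨C + D, fun r hr => (norm_add_le _ _).trans (add_le_add (hC r hr) (hD r hr))⟩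

lemma Bd.sub {f g : ℝ → ℂ} (hf : Bd f) (hg : Bd g) : Bd fun r => f r - g r := by
  obtain ⟨C, hC⟩ := hf
  obtain ⟨D, hD⟩ := hg
  exact ⟨C + D, fun r hr => (norm_sub_le _ _).trans (add_le_add (hC r hr) (hD r hr))⟩

lemma Bd.mul {f g : ℝ → ℂ} (hf : Bd f) (hg : Bd g) : Bd fun r => f r * g r := by
  obtain ⟨C, hC⟩ := hf
  obtain ⟨D, hD⟩ := hg
  refine ⟨C * D, fun r hr => ?_⟩
  rw [norm_mul]
  exact mul_le_mul (hC r hr) (hD r hr) (norm_nonneg _) ((norm_nonneg _).trans (hC r hr))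

lemma int_zero {Z Z' H : ℝ → ℂ} (hH : Bd H)
    (hZ : ∀ r ∈ Ioo (0 : ℝ) 1, Z r = (r : ℂ) * ((√(1 - r) : ℝ) : ℂ) * H r)
    (hd : ∀ r ∈ Ioo (0 : ℝ) 1, HasDerivAt Z (Z' r) r) (hi : IntervalIntegrable Z' volume 0 1) :
    ∫ r in (0 : ℝ)..1, Z' r = 0 := by
  obtain ⟨C, hC⟩ := hH
  have hb : ∀ r ∈ Ioo (0 : ℝ) 1, ‖Z r‖ ≤ r * √(1 - r) * C := fun r hr => by
    rw [hZ r hr, norm_mul, norm_mul, Complex.norm_real, Complex.norm_real,
      Real.norm_of_nonneg hr.1.le, Real.norm_of_nonneg (Real.sqrt_nonneg _)]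
    exact mul_le_mul_of_nonneg_left (hC r hr) (mul_nonneg hr.1.le (Real.sqrt_nonneg _))
  have hc : Continuous fun r : ℝ => r * √(1 - r) * C := by fun_prop
  have h0 : Tendsto Z (𝓝[>] 0) (𝓝 0) := by
    refine squeeze_zero_norm' (Filter.mem_of_superset (Ioo_mem_nhdsGT zero_lt_one) hb) ?_
    simpa using (hc.tendsto 0).mono_left nhdsWithin_le_nhds
  have h1 : Tendsto Z (𝓝[<] 1) (𝓝 0) := by
    refine squeeze_zero_norm' (Filter.mem_of_superset (Ioo_mem_nhdsLT zero_lt_one) hb) ?_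
    simpa using (hc.tendsto 1).mono_left nhdsWithin_le_nhds
  rw [intervalIntegral.integral_eq_sub_of_hasDerivAt_of_tendsto zero_lt_one hd hi h0 h1, sub_zero]

/-- half chord -/
def GG (K : Cap) (c Q φ : ℂ) (r : ℝ) : ℂ :=
  ((√K.m : ℝ) : ℂ) * Complex.sqrt φ * ((√(1 - r) : ℝ) : ℂ) * Complex.sqrt (K.ga c Q φ (r * φ))

/-- the integral in the gauge -/
def JJ (K : Cap) (c Q φ ξ : ℂ) : ℂ :=
  ∫ r in (0 : ℝ)..1, ((√r : ℝ) : ℂ) * K.kin c Q φ (φ + r * (ξ - φ))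

def Om (K : Cap) (c Q φ : ℂ) (r : ℝ) : ℂ :=
  ((√K.m : ℝ) : ℂ) * Complex.sqrt φ * φ * ((1 - r) * ((√(1 - r) : ℝ) : ℂ) * JJ K c Q φ (r * φ))

def J2 (K : Cap) (u : ℂ → ℂ) (ξ : ℂ) : ℂ := ∫ r in (0 : ℝ)..1, u (r * ξ) / K.sg (r * ξ)

section one

variable {K : Cap} {V : Set ℂ} {φ c Q : ℂ} {r : ℝ}

lemma GG_sq (hK : K.OK V) (hP : K.Pl V c Q φ) (ht : K.mm φ = Q * K.ze c φ ^ 2)
    (hr : r ∈ Ioo (0 : ℝ) 1) : GG K c Q φ r ^ 2 = K.mm (r * φ) - Q * K.ze c (r * φ) ^ 2 := by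
  rw [hK.gamma_eq hP ht (hK.dom.ray_mem hP.mem hr), GG, mul_pow, mul_pow, mul_pow, sq_sqrt, sq_sqrt,
    ← Complex.ofReal_pow, ← Complex.ofReal_pow, Real.sq_sqrt hK.dom.m_pos.le,
    Real.sq_sqrt (by linarith [hr.2])]
  push_cast
  ring

lemma sm_ne (hK : K.OK V) : ((√K.m : ℝ) : ℂ) ≠ 0 := by
  exact_mod_cast (Real.sqrt_pos.mpr hK.dom.m_pos).ne'

lemma sr_ne (hr : r ∈ Ioo (0 : ℝ) 1) : ((√(1 - r) : ℝ) : ℂ) ≠ 0 := by
  exact_mod_cast (Real.sqrt_pos.mpr (by linarith [hr.2])).ne'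

lemma GG_ne (hK : K.OK V) (hP : K.Pl V c Q φ) (h0 : φ ≠ 0) (hr : r ∈ Ioo (0 : ℝ) 1) :
    GG K c Q φ r ≠ 0 :=
  mul_ne_zero (mul_ne_zero (mul_ne_zero (sm_ne hK) (sqrt_ne_zero h0)) (sr_ne hr))
    (hK.sga_ne hP (hK.dom.ray_mem hP.mem hr))

lemma GG_der (hK : K.OK V) (hP : K.Pl V c Q φ) (ht : K.mm φ = Q * K.ze c φ ^ 2) (h0 : φ ≠ 0)
    (hr : r ∈ Ioo (0 : ℝ) 1) : HasDerivAt (GG K c Q φ)
      ((-K.m - Q * (2 * K.ze c (r * φ) * K.ze1 c (r * φ))) * φ / (2 * GG K c Q φ r)) r := by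
  have hm := hK.dom.ray_mem hP.mem hr
  refine der_of_sq (g := fun r : ℝ => K.mm (r * φ) - Q * K.ze c (r * φ) ^ 2) ?_ ?_
    (Filter.mem_of_superset (Ioo_mem_nhds hr.1 hr.2) fun y hy => GG_sq hK hP ht hy)
    (GG_ne hK hP h0 hr)
  · have h1 : DifferentiableAt ℝ (fun r : ℝ => ((√(1 - r) : ℝ) : ℂ)) r :=
      (((hasDerivAt_id r).const_sub 1).sqrt (by simp; linarith [hr.2])).ofReal_comp.differentiableAt
    exact (h1.const_mul _).mul (ray_d ((hK.sga_hol hP).differentiableAt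
      (hK.dom.isOpen.mem_nhds hm)).hasDerivAt).differentiableAt
  · refine ray_d (f := fun y => K.mm y - Q * K.ze c y ^ 2) ?_
    exact hasDerivAt_of_eq ((Cap.OK.mm_der K _).sub (((hK.ze_der c hm).pow 2).const_mul Q))
      (fun _ => rfl) (by simp)

lemma Om_der (hK : K.OK V) (hP : K.Pl V c Q φ) (hr : r ∈ Ioo (0 : ℝ) 1) :
    HasDerivAt (Om K c Q φ) (-(φ * (GG K c Q φ r * K.sg (r * φ) * K.ze1 c (r * φ) /
      (1 + Q * K.ze c (r * φ)) ^ 2))) r := by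
  set k : ℝ → ℂ := fun s => ((√(1 - s) : ℝ) : ℂ) * K.kin c Q φ (s * φ) with hk
  have hc : ContinuousOn k (Ioc 0 1) :=
    cont_sqrt_one_sub.continuousOn.mul ((hK.kin_hol hP).continuousOn.comp (by fun_prop)
      fun s hs => hK.dom.star φ hP.mem s hs)
  have hc' : ContinuousOn k (Ioo 0 1) := hc.mono Ioo_subset_Ioc_self
  have h1 : HasDerivAt (fun r => ∫ s in r..1, k s) (-k r) r :=
    intervalIntegral.integral_hasDerivAt_left
      ((hc.mono fun s hs => by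
        rw [uIcc_of_le hr.2.le] at hs; exact ⟨hr.1.trans_le hs.1, hs.2⟩).intervalIntegrable)
      (hc'.stronglyMeasurableAtFilter isOpen_Ioo r hr)
      (hc'.continuousAt (Ioo_mem_nhds hr.1 hr.2))
  have h2 : ∀ y ∈ Ioo (0 : ℝ) 1,
      (1 - y) * ((√(1 - y) : ℝ) : ℂ) * JJ K c Q φ (y * φ) = ∫ s in y..1, k s := by
    intro y hy
    have := intervalIntegral.smul_integral_comp_sub_mul (a := 0) (b := 1) k (1 - y) 1
    simp only [mul_one, sub_sub_cancel, mul_zero, sub_zero] at this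
    rw [← this, JJ, mul_assoc, ← intervalIntegral.integral_const_mul, Complex.real_smul]
    push_cast
    refine congrArg _ (int_congr_Ioo zero_le_one fun t ht => ?_)
    simp only [hk, sub_sub_cancel]
    rw [Real.sqrt_mul (by linarith [hy.2])]
    push_cast
    rw [show (1 - (1 - (y : ℂ)) * t) * φ = φ + t * (y * φ - φ) by ring]
    ring
  have h3 := (h1.const_mul (((√K.m : ℝ) : ℂ) * Complex.sqrt φ * φ)).congr_of_eventuallyEq
    (f₁ := Om K c Q φ) (Filter.mem_of_superset (Ioo_mem_nhds hr.1 hr.2) fun y hy => by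
      simp only [mem_ofPred_eq, Om, h2 y hy])
  refine hasDerivAt_of_eq h3 (fun _ => rfl) ?_
  simp only [hk, GG, Cap.kin]
  ring

lemma usg_hol (hK : K.OK V) {u : ℂ → ℂ} (hu : DifferentiableOn ℂ u V) :
    DifferentiableOn ℂ (fun ξ => u ξ / K.sg ξ) V := hu.div hK.sg_hol fun _ h => hK.sg_ne h

lemma u_le (hK : K.OK V) {u : ℂ → ℂ} {A : ℝ} (hA : ∀ ξ ∈ V, ‖u ξ‖ ≤ A * ‖ξ‖) {ξ : ℂ}
    (hξ : ξ ∈ V) : ‖u ξ‖ ≤ |A| / K.m := by
  have h0 := hK.dom.m_pos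
  have h1 := hK.dom.small ξ hξ
  refine (hA ξ hξ).trans ((mul_le_mul_of_nonneg_right (le_abs_self A) (norm_nonneg _)).trans ?_)
  rw [le_div_iff₀ h0]
  nlinarith [abs_nonneg A]

lemma usg_le (hK : K.OK V) {u : ℂ → ℂ} {A : ℝ} (hA : ∀ ξ ∈ V, ‖u ξ‖ ≤ A * ‖ξ‖) {ξ : ℂ}
    (hξ : ξ ∈ V) : ‖u ξ / K.sg ξ‖ ≤ |A| / K.m / (99 / 100) := by
  have h0 := hK.dom.m_pos
  rw [norm_div]
  gcongr
  exacts [u_le hK hA hξ, hK.sg_ge hξ]

lemma l_ii (hK : K.OK V) (hP : K.Pl V c Q φ) {u : ℂ → ℂ} {A : ℝ} (hu : DifferentiableOn ℂ u V)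
    (hA : ∀ ξ ∈ V, ‖u ξ‖ ≤ A * ‖ξ‖) : IntervalIntegrable (fun r : ℝ =>
    ((√(1 - r) : ℝ) : ℂ) * (u (r * φ) * K.ka c Q φ (r * φ))) volume 0 1 :=
  ii_of_bound_const (C := 1 * (|A| / K.m * (5 / 4)))
    (cont_sqrt_one_sub.continuousOn.mul
      (hK.dom.ray_cont (g := fun y => u y * K.ka c Q φ y) (hu.mul (hK.ka_hol hP)) hP.mem))
    fun r hr => by
      have h0 := hK.dom.m_pos
      have hm := hK.dom.ray_mem hP.mem hr
      rw [norm_mul, norm_mul]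
      gcongr
      exacts [Cap.OK.norm_sqrt_one_sub hr, u_le hK hA hm, hK.ka_le hP hm]

/-- the exact term -/
def ZZ (K : Cap) (c Q φ : ℂ) (u : ℂ → ℂ) (φ' l' : ℂ) (r : ℝ) : ℂ :=
  φ' * (r * (GG K c Q φ r * K.NN (r * φ))) + l' * (-(GG K c Q φ r * (K.mm (r * φ) * u (r * φ))) +
    K.m / 2 * (K.sg (r * φ) * GG K c Q φ r * (1 / (1 + Q * K.ze c (r * φ)) - 1) -
      Q * Om K c Q φ r) * (r * φ * J2 K u (r * φ)))

/-- the derivative of the integrand -/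
def TT (K : Cap) (c Q φ : ℂ) (u : ℂ → ℂ) (φ' c' Q' l' : ℂ) (r : ℝ) : ℂ :=
  (φ' * GG K c Q φ r + φ * ((-K.m * (r * φ') - (Q' * K.ze c (r * φ) ^ 2 +
    Q * (2 * K.ze c (r * φ) * (((-(K.m / 4 * l' * (r * φ * J2 K u (r * φ))) - c') / K.sg (r * φ) -
      (K.ze c (r * φ) + K.mm (r * φ)) * (l' * u (r * φ)) / (2 * K.sg (r * φ) ^ 2)) +
        K.ze1 c (r * φ) * (r * φ'))))) / (2 * GG K c Q φ r))) * K.NN (r * φ) +
    φ * GG K c Q φ r * (l' * (K.m * u (r * φ) - K.mm (r * φ) * deriv u (r * φ)) +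
      deriv K.NN (r * φ) * (r * φ'))

/-- the integrand of the answer -/
def RR (K : Cap) (c Q φ : ℂ) (u : ℂ → ℂ) (c' Q' l' : ℂ) (r : ℝ) : ℂ :=
  l' * (-((K.m * √K.m / 2 : ℝ) : ℂ) * (φ * Complex.sqrt φ)) *
      (((√(1 - r) : ℝ) : ℂ) * (u (r * φ) * K.ka c Q φ (r * φ))) +
    c' * (2 * Q * (Complex.sqrt φ / ((√K.m : ℝ) : ℂ))) * ((((√(1 - r))⁻¹ : ℝ) : ℂ) *
      (K.ze c (r * φ) * K.NN (r * φ) / (2 * K.sg (r * φ) * Complex.sqrt (K.ga c Q φ (r * φ))))) +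
    Q' * -(Complex.sqrt φ / ((√K.m : ℝ) : ℂ)) * ((((√(1 - r))⁻¹ : ℝ) : ℂ) *
      (K.ze c (r * φ) ^ 2 * K.NN (r * φ) / (2 * Complex.sqrt (K.ga c Q φ (r * φ)))))

lemma RR_eq (hK : K.OK V) (hP : K.Pl V c Q φ) (h0 : φ ≠ 0) (u : ℂ → ℂ) (c' Q' l' : ℂ)
    (hr : r ∈ Ioo (0 : ℝ) 1) : RR K c Q φ u c' Q' l' r =
    l' * (-(K.m / 2) * (φ * u (r * φ) * (GG K c Q φ r / (1 + Q * K.ze c (r * φ)) -
      Q * Om K c Q φ r / K.sg (r * φ)))) +
    c' * (2 * Q * (φ * K.ze c (r * φ) * K.NN (r * φ) / (2 * K.sg (r * φ) * GG K c Q φ r))) +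
    Q' * (-(φ * K.ze c (r * φ) ^ 2 * K.NN (r * φ) / (2 * GG K c Q φ r))) := by
  have hm := hK.dom.ray_mem hP.mem hr
  have n1 := sm_ne hK
  have n2 := sr_ne hr
  have n3 := sqrt_ne_zero h0
  have n4 := hK.sga_ne hP hm
  have n5 := hK.sg_ne hm
  have n6 := hK.den_ne hP hm
  have e := mul_self_sqrt φ
  simp only [RR, GG, Om, Cap.ka, ← JJ.eq_1]
  push_cast
  generalize Complex.sqrt φ = b at *
  subst e
  field_simp

lemma ZZ_der (hK : K.OK V) (hP : K.Pl V c Q φ) (ht : K.mm φ = Q * K.ze c φ ^ 2) (h0 : φ ≠ 0)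
    {u : ℂ → ℂ} {A : ℝ} (hu : DifferentiableOn ℂ u V) (hA : ∀ ξ ∈ V, ‖u ξ‖ ≤ A * ‖ξ‖)
    (φ' c' Q' l' : ℂ) (hr : r ∈ Ioo (0 : ℝ) 1) : HasDerivAt (ZZ K c Q φ u φ' l')
      (TT K c Q φ u φ' c' Q' l' r - RR K c Q φ u c' Q' l' r) r := by
  have hm := hK.dom.ray_mem hP.mem hr
  have hn := hK.dom.isOpen.mem_nhds hm
  have dG := GG_der hK hP ht h0 hr
  have dO := Om_der hK hP hr
  have dN := ray_d (hK.NN_hol.differentiableAt hn).hasDerivAt
  have dm := ray_d (Cap.OK.mm_der K (r * φ))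
  have du := ray_d (hu.differentiableAt hn).hasDerivAt
  have ds := ray_d (hK.sg_der hm)
  have dz := ray_d (hK.ze_der c hm)
  have dW := ray_d (hK.dom.ray_der (usg_hol hK hu) (fun _ h => usg_le hK hA h) hm)
  have dr : HasDerivAt (fun r : ℝ => (r : ℂ)) 1 r := (hasDerivAt_id (r : ℂ)).comp_ofReal
  have n6 := hK.den_ne hP hm
  have dd : HasDerivAt (fun r : ℝ => 1 / (1 + Q * K.ze c (r * φ)) - 1)
      (-(Q * (K.ze1 c (r * φ) * φ)) / (1 + Q * K.ze c (r * φ)) ^ 2) r :=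
    hasDerivAt_of_eq ((((dz.const_mul Q).const_add 1).inv n6).sub_const 1) (fun _ => by simp) rfl
  have key := ((dr.mul (dG.mul dN)).const_mul φ').add ((((dG.mul (dm.mul du)).neg).add
    (((((ds.mul dG).mul dd).sub (dO.const_mul Q)).const_mul ((K.m : ℂ) / 2)).mul dW)).const_mul l')
  refine hasDerivAt_of_eq key (fun _ => rfl) ?_
  rw [RR_eq hK hP h0 u c' Q' l' hr, TT]
  have n5 := hK.sg_ne hm
  refine Eq.trans ?_ (alg K.m (GG K c Q φ r) (K.sg (r * φ)) (K.ze c (r * φ)) Q φ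
    (deriv K.τ (r * φ)) (u (r * φ)) (deriv u (r * φ)) (r * φ * J2 K u (r * φ)) (Om K c Q φ r)
    (deriv K.NN (r * φ)) r φ' c' Q' l' (K.mm (r * φ)) (K.NN (r * φ)) (K.ze1 c (r * φ))
    (GG_ne hK hP h0 hr) n5 n6 (GG_sq hK hP ht hr) (by rw [Cap.OK.sg_sq]; rfl) ?_)
  · simp only [Pi.mul_apply, Pi.sub_apply, J2, one_mul]
  · simp only [Cap.ze1, Cap.ze]
    field_simp
    ring

lemma ZZ_int (hK : K.OK V) (hP : K.Pl V c Q φ) (ht : K.mm φ = Q * K.ze c φ ^ 2) (h0 : φ ≠ 0)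
    {u : ℂ → ℂ} {A : ℝ} (hu : DifferentiableOn ℂ u V) (hA : ∀ ξ ∈ V, ‖u ξ‖ ≤ A * ‖ξ‖)
    (φ' c' Q' l' : ℂ) (hi : IntervalIntegrable (TT K c Q φ u φ' c' Q' l') volume 0 1) :
    ∫ r in (0 : ℝ)..1, TT K c Q φ u φ' c' Q' l' r =
      l' * (-((K.m * √K.m / 2 : ℝ) : ℂ) * K.lcap c Q φ u) + c' * (2 * Q * K.bcap c Q φ) +
        Q' * K.ecap c Q φ := by
  have i1 := l_ii hK hP hu hA
  have i2 := hK.b_ii hP
  have i3 := hK.e_ii hP
  have hR : IntervalIntegrable (RR K c Q φ u c' Q' l') volume 0 1 :=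
    ((i1.const_mul _).add (i2.const_mul _)).add (i3.const_mul _)
  have hm := fun r hr => hK.dom.ray_mem hP.mem (r := r) hr
  have bS : Bd fun r => ((√K.m : ℝ) : ℂ) * Complex.sqrt φ * Complex.sqrt (K.ga c Q φ (r * φ)) :=
    (Bd.const _).mul ⟨_, fun r hr => hK.sga_le hP (hm r hr)⟩
  have bN : Bd fun r => K.NN (r * φ) := ⟨_, fun r hr => hK.NN_le (hm r hr)⟩
  have bm : Bd fun r => K.mm (r * φ) := ⟨_, fun r hr => hK.mm_le (hm r hr)⟩
  have bs : Bd fun r => K.sg (r * φ) := ⟨_, fun r hr => hK.sg_le (hm r hr)⟩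
  have bd : Bd fun r => 1 / (1 + Q * K.ze c (r * φ)) - 1 :=
    ⟨_, fun r hr => hK.inv_den_sub hP (hm r hr)⟩
  have bu : Bd fun r => u (r * φ) / r := ⟨A * ‖φ‖, fun r hr => by
    have := hA _ (hm r hr)
    rw [norm_mul, Complex.norm_real, Real.norm_of_nonneg hr.1.le] at this
    rw [norm_div, Complex.norm_real, Real.norm_of_nonneg hr.1.le, div_le_iff₀ hr.1]
    linarith⟩
  have br : Bd fun r => 1 - (r : ℂ) := (Bd.const 1).sub ⟨1, fun r hr => by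
    rw [Complex.norm_real, Real.norm_of_nonneg hr.1.le]; exact hr.2.le⟩
  have bJ : Bd fun r => JJ K c Q φ (r * φ) := ⟨1 * (6 / 5 * (1 / 50)), fun r hr =>
    norm_int_le_const fun t ht => by
      rw [norm_mul, Complex.norm_real, Real.norm_of_nonneg (Real.sqrt_nonneg _)]
      gcongr
      exacts [Real.sqrt_le_one.mpr ht.2.le, hK.kin_le hP (fun y hy => hK.ze1_le hP.c_le hy)
        (hK.dom.seg_mem hP.mem (hm r hr) (Ioo_subset_Icc_self ht))]⟩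
  have b2 : Bd fun r => J2 K u (r * φ) := ⟨_, fun r hr =>
    norm_int_le_const fun t ht => usg_le hK hA (hK.dom.ray_mem (hm r hr) ht)⟩
  have := int_zero (((Bd.const φ').mul (bS.mul bN)).add ((Bd.const l').mul
    (((((bs.mul bS).mul bd).sub ((Bd.const (Q * (((√K.m : ℝ) : ℂ) * Complex.sqrt φ * φ))).mul
      (br.mul bJ))).mul ((Bd.const (K.m / 2 * φ)).mul b2)).sub (bS.mul (bm.mul bu)))))
    (fun r hr => by
      have : (r : ℂ) ≠ 0 := by exact_mod_cast hr.1.ne'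
      simp only [ZZ, GG, Om]
      field_simp
      ring)
    (fun r hr => ZZ_der hK hP ht h0 hu hA φ' c' Q' l' hr) (hi.sub hR)
  rw [intervalIntegral.integral_sub hi hR, sub_eq_zero] at this
  rw [this]
  unfold RR
  rw [intervalIntegral.integral_add ((i1.const_mul _).add (i2.const_mul _)) (i3.const_mul _),
    intervalIntegral.integral_add (i1.const_mul _) (i2.const_mul _),
    intervalIntegral.integral_const_mul, intervalIntegral.integral_const_mul,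
    intervalIntegral.integral_const_mul]
  simp only [Cap.lcap, Cap.bcap, Cap.ecap]
  ring

end one

section fam

variable {P V : Set ℂ} {K : ℂ → Cap} {m h : ℝ} {τ0 u lam c Q φ y : ℂ → ℂ} {w0 ξ y' : ℂ}

lemma sg_w (hF : FamK P V K m h τ0 u lam) (hw : w0 ∈ P) (hξ : ξ ∈ V) :
    HasDerivAt (fun w => (K w).sg ξ) (deriv lam w0 * u ξ / (2 * (K w0).sg ξ)) w0 := by
  have h1 : HasDerivAt (fun w => (K w).τ ξ) (deriv lam w0 * u ξ) w0 := by
    simp only [hF.τ_eq]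
    exact ((hF.lam_hol.differentiableAt (hF.isOpen.mem_nhds hw)).hasDerivAt.mul_const _).const_add _
  exact HasDerivAt.csqrt h1 ((hF.ok w0 hw).slit hξ)

lemma hh_w (hF : FamK P V K m h τ0 u lam) (hw : w0 ∈ P) (hξ : ξ ∈ V) :
    HasDerivAt (fun w => (K w).hh ξ) (-(m / 4 * deriv lam w0 * (ξ * J2 (K w0) u ξ))) w0 := by
  have hm := fun r hr => (hF.ok w0 hw).dom.ray_mem hξ (r := r) hr
  obtain ⟨-, hD⟩ := hol_int_deriv (F := fun w r => (K w).sg (r * ξ)) zero_le_one hF.isOpen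
    (g := fun _ => 101 / 100) intervalIntegrable_const
    (fun w hw => (hF.ok w hw).dom.ray_cont (hF.ok w hw).sg_hol hξ)
    (fun r hr w hw => (sg_w hF hw (hm r hr)).differentiableAt.differentiableWithinAt)
    (fun w hw r hr => (hF.ok w hw).sg_le (hm r hr)) hw
  rw [int_congr_Ioo zero_le_one (G := fun r => deriv lam w0 / 2 * (u (r * ξ) / (K w0).sg (r * ξ)))
    (fun r hr => by rw [(sg_w hF hw (hm r hr)).deriv]; ring),
    intervalIntegral.integral_const_mul] at hD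
  refine hasDerivAt_of_eq ((hD.const_mul ((m : ℂ) * ξ / 2)).const_sub (h : ℂ)) (fun w => ?_) ?_
  · simp only [Cap.hh, hF.m_eq, hF.h_eq]
  · simp only [J2]; ring

lemma ze_w (hF : FamK P V K m h τ0 u lam) (hc : DifferentiableOn ℂ c P)
    (hP : ∀ w ∈ P, (K w).Pl V (c w) (Q w) (φ w)) (hw : w0 ∈ P) (hy : HasDerivAt y y' w0)
    (hξ : y w0 ∈ V) : HasDerivAt (fun w => (K w).ze (c w) (y w))
      (((-(m / 4 * deriv lam w0 * (y w0 * J2 (K w0) u (y w0))) - deriv c w0) / (K w0).sg (y w0) -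
        ((K w0).ze (c w0) (y w0) + (K w0).mm (y w0)) * (deriv lam w0 * u (y w0)) /
          (2 * (K w0).sg (y w0) ^ 2)) + (K w0).ze1 (c w0) (y w0) * y') w0 := by
  have hK := hF.ok w0 hw
  have h1 := osgood (F := fun w ξ => (K w).ze (c w) ξ) hF.isOpen hK.dom.isOpen
    (fun ξ hξ => hF.ze_hol hc (differentiableOn_const ξ) fun _ _ => hξ)
    (fun w hw => (hF.ok w hw).ze_hol _) (fun w hw ξ hξ => (hF.ok w hw).ze_le (hP w hw).c_le hξ)
    hw hy hξ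
  have n := hK.sg_ne hξ
  have h2 := ((((hh_w hF hw hξ).sub (hc.differentiableAt (hF.isOpen.mem_nhds hw)).hasDerivAt).div
    (sg_w hF hw hξ) n).sub_const ((m : ℂ) * (1 - y w0)))
  have h3 := (hasDerivAt_of_eq (g := fun w => (K w).ze (c w) (y w0)) h2
    (fun w => by simp only [Cap.ze, Cap.mm, hF.m_eq, Pi.div_apply, Pi.sub_apply]) rfl).deriv
  rw [h3, (hK.ze_der (c w0) hξ).deriv] at h1
  refine hasDerivAt_of_eq h1 (fun _ => rfl) ?_
  simp only [Cap.ze, Pi.sub_apply]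
  field_simp
  ring

lemma NN_w (hF : FamK P V K m h τ0 u lam) (hw : w0 ∈ P) (hy : HasDerivAt y y' w0)
    (hξ : y w0 ∈ V) : HasDerivAt (fun w => (K w).NN (y w))
      (deriv lam w0 * (m * u (y w0) - (K w0).mm (y w0) * deriv u (y w0)) +
        deriv (K w0).NN (y w0) * y') w0 := by
  have hK := hF.ok w0 hw
  have h1 := osgood (F := fun w ξ => (K w).NN ξ) hF.isOpen hK.dom.isOpen
    (fun ξ hξ => hF.NN_hol (differentiableOn_const ξ) fun _ _ => hξ)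
    (fun w hw => (hF.ok w hw).NN_hol) (fun w hw ξ hξ => (hF.ok w hw).NN_le hξ) hw hy hξ
  have hl := (hF.lam_hol.differentiableAt (hF.isOpen.mem_nhds hw)).hasDerivAt
  have h2 := (((hl.mul_const (u (y w0))).const_add (τ0 (y w0))).const_mul (m : ℂ)).sub
    (((hl.mul_const (deriv u (y w0))).const_add (deriv τ0 (y w0))).const_mul ((m : ℂ) * (1 - y w0)))
  have h3 := (h2.congr_of_eventuallyEq (f₁ := fun w => (K w).NN (y w0))
    (Filter.mem_of_superset (hF.isOpen.mem_nhds hw) fun w hw => by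
      simp only [mem_ofPred_eq, Cap.NN, Cap.mm, hF.m_eq, hF.τ_eq, hF.dτ_eq hw hξ,
        Pi.sub_apply])).deriv
  rw [h3] at h1
  refine hasDerivAt_of_eq h1 (fun _ => rfl) ?_
  simp only [Cap.mm, hF.m_eq]
  ring

lemma tot_w (hF : FamK P V K m h τ0 u lam) (hc : DifferentiableOn ℂ c P)
    (hQ : DifferentiableOn ℂ Q P) (hφ : DifferentiableOn ℂ φ P)
    (hP : ∀ w ∈ P, (K w).Pl V (c w) (Q w) (φ w)) (hre : ∀ w ∈ P, 0 < (φ w).re)
    (ht : ∀ w ∈ P, (K w).mm (φ w) = Q w * (K w).ze (c w) (φ w) ^ 2) (hw : w0 ∈ P) {r : ℝ}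
    (hr : r ∈ Ioo (0 : ℝ) 1) :
    HasDerivAt (fun w => φ w * GG (K w) (c w) (Q w) (φ w) r * (K w).NN (r * φ w))
      (TT (K w0) (c w0) (Q w0) (φ w0) u (deriv φ w0) (deriv c w0) (deriv Q w0) (deriv lam w0) r)
      w0 := by
  have hn := hF.isOpen.mem_nhds hw
  have hs : ∀ w ∈ P, r * φ w ∈ V := fun w hw => (hF.ok w hw).dom.ray_mem (hP w hw).mem hr
  have h0 : φ w0 ≠ 0 := fun h => by simpa [h] using hre w0 hw
  have dφ := (hφ.differentiableAt hn).hasDerivAt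
  have dQ := (hQ.differentiableAt hn).hasDerivAt
  have dy := dφ.const_mul (r : ℂ)
  have dz := ze_w hF hc hP hw dy (hs w0 hw)
  have dN := NN_w hF hw dy (hs w0 hw)
  have dm : HasDerivAt (fun w => (K w).mm (r * φ w)) (-m * (r * deriv φ w0)) w0 :=
    hasDerivAt_of_eq ((dy.const_sub 1).const_mul (m : ℂ))
      (fun w => by simp only [Cap.mm, hF.m_eq]) (by ring)
  have dG := der_of_sq (f := fun w => GG (K w) (c w) (Q w) (φ w) r) (by
      simp only [GG, hF.m_eq]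
      exact ((((DifferentiableOn.csqrt hφ fun w hw => slit_of_re_pos (hre w hw)).const_mul
        _).mul_const _).mul (hF.sga_hol hc hQ hφ hP (hφ.const_mul _) hs)).differentiableAt hn)
    (dm.sub (dQ.mul (dz.pow 2)))
    (Filter.mem_of_superset hn fun w hw => GG_sq (hF.ok w hw) (hP w hw) (ht w hw) hr)
    (GG_ne (hF.ok w0 hw) (hP w0 hw) h0 hr)
  refine hasDerivAt_of_eq ((dφ.mul dG).mul dN) (fun _ => rfl) ?_
  simp only [TT, hF.m_eq, Pi.mul_apply, Pi.pow_apply]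
  norm_num

end fam

end CapDer

open CapDer in
theorem an_capder : StmtCapDer := by
  intro P V K m h A τ0 u lam c Q φ hF hc hQ hφ hP hre ht hA w0 hw
  have hn := hF.isOpen.mem_nhds hw
  have hK := hF.ok w0 hw
  have h0 : φ w0 ≠ 0 := fun h => by simpa [h] using hre w0 hw
  have hs : ∀ r ∈ Ioo (0 : ℝ) 1, ∀ w ∈ P, r * φ w ∈ V := fun r hr w hw =>
    (hF.ok w hw).dom.ray_mem (hP w hw).mem hr
  have hd : ∀ r ∈ Ioo (0 : ℝ) 1, DifferentiableOn ℂ (fun w => ((√(1 - r) : ℝ) : ℂ) *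
      (Complex.sqrt ((K w).ga (c w) (Q w) (φ w) (r * φ w)) * (K w).NN (r * φ w))) P :=
    fun r hr => ((hF.sga_hol hc hQ hφ hP (hφ.const_mul _) (hs r hr)).mul
      (hF.NN_hol (hφ.const_mul _) (hs r hr))).const_mul _
  obtain ⟨hi, hD⟩ := hol_int_deriv (F := fun w r => ((√(1 - r) : ℝ) : ℂ) *
      (Complex.sqrt ((K w).ga (c w) (Q w) (φ w) (r * φ w)) * (K w).NN (r * φ w))) zero_le_one
    hF.isOpen (g := fun _ => 1 * (1 / 40)) intervalIntegrable_const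
    (fun w hw => cont_sqrt_one_sub.continuousOn.mul
      ((hF.ok w hw).dom.ray_cont ((hF.ok w hw).aint_hol (hP w hw)) (hP w hw).mem)) hd
    (fun w hw r hr => by
      rw [norm_mul]
      gcongr
      exacts [Cap.OK.norm_sqrt_one_sub hr, (hF.ok w hw).aint_le (hP w hw) (hs r hr w hw)]) hw
  have dp := ((((hφ.mul (DifferentiableOn.csqrt hφ fun w hw =>
    slit_of_re_pos (hre w hw))).const_mul ((√m : ℝ) : ℂ))).differentiableAt hn).hasDerivAt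
  generalize deriv (fun w => ((√m : ℝ) : ℂ) * (φ * fun w => Complex.sqrt (φ w)) w) w0 = p' at dp
  have i0 := hK.a_ii (hP w0 hw)
  have e : ∀ r ∈ Ioo (0 : ℝ) 1, p' * (((√(1 - r) : ℝ) : ℂ) *
      (Complex.sqrt ((K w0).ga (c w0) (Q w0) (φ w0) (r * φ w0)) * (K w0).NN (r * φ w0))) +
      ((√m : ℝ) : ℂ) * (φ w0 * Complex.sqrt (φ w0)) * deriv (fun w => ((√(1 - r) : ℝ) : ℂ) *
      (Complex.sqrt ((K w).ga (c w) (Q w) (φ w) (r * φ w)) * (K w).NN (r * φ w))) w0 =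
      TT (K w0) (c w0) (Q w0) (φ w0) u (deriv φ w0) (deriv c w0) (deriv Q w0) (deriv lam w0) r :=
    fun r hr => (hasDerivAt_of_eq (dp.mul ((hd r hr).differentiableAt hn).hasDerivAt)
      (fun w => by simp only [GG, hF.m_eq, Pi.mul_apply]; ring) rfl).unique
      (tot_w hF hc hQ hφ hP hre ht hw hr)
  have i1 := (i0.const_mul p').add (hi.const_mul (((√m : ℝ) : ℂ) * (φ w0 * Complex.sqrt (φ w0))))
  have key := ZZ_int hK (hP w0 hw) (ht w0 hw) h0 hF.u_hol hA (deriv φ w0) (deriv c w0)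
    (deriv Q w0) (deriv lam w0) (ii_congr_Ioo zero_le_one e i1)
  rw [hF.m_eq] at key
  rw [← key, ← int_congr_Ioo zero_le_one e,
    intervalIntegral.integral_add (i0.const_mul p') (hi.const_mul _),
    intervalIntegral.integral_const_mul, intervalIntegral.integral_const_mul]
  exact (hasDerivAt_of_eq (dp.mul hD) (fun w => by simp only [Cap.acap, hF.m_eq, Pi.mul_apply])
    rfl).deriv

end

end Pool.Agent.Lib.MP_87c84d_gt
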