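import Pool.Agent.Lib.MP_87c84d_gt.CapB

/-!
Holomorphy of the cap functions along holomorphic families, and real values.
-/

namespace Pool.Agent.Lib.MP_87c84d_gt

open MeasureTheory Set Metric Filter Topology

noncomputable section

lemma Cap.OK.famK {K : Cap} {V P : Set ℂ} (hK : K.OK V) (hP : IsOpen P) :
    FamK P V (fun _ => K) K.m K.h K.τ 0 0 :=
  ⟨hP, fun _ _ => hK, fun _ => rfl, fun _ => rfl, fun _ _ => by simp, hK.hol,
    differentiableOn_const 0, differentiableOn_const 0⟩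

lemma cont_sqrt_coe : Continuous fun r : ℝ => ((√r : ℝ) : ℂ) := by fun_prop

lemma cont_sqrt_one_sub : Continuous fun r : ℝ => ((√(1 - r) : ℝ) : ℂ) := by fun_prop

lemma cont_inv_sqrt_one_sub : ContinuousOn (fun r : ℝ => (((√(1 - r))⁻¹ : ℝ) : ℂ)) (Ioo 0 1) := by
  refine Complex.continuous_ofReal.comp_continuousOn (ContinuousOn.inv₀ (by fun_prop) ?_)
  intro r hr
  exact (Real.sqrt_pos.mpr (by linarith [hr.2])).ne'

namespace FamK

variable {P V : Set ℂ} {K : ℂ → Cap} {m h : ℝ} {τ0 u lam y c Q φ : ℂ → ℂ}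

lemma mono (hF : FamK P V K m h τ0 u lam) {P' : Set ℂ} (hP' : IsOpen P') (hs : P' ⊆ P) :
    FamK P' V K m h τ0 u lam :=
  ⟨hP', fun w hw => hF.ok w (hs hw), hF.m_eq, hF.h_eq, hF.τ_eq, hF.τ0_hol, hF.u_hol,
    hF.lam_hol.mono hs⟩

lemma dτ_eq (hF : FamK P V K m h τ0 u lam) {w ξ : ℂ} (hw : w ∈ P) (hξ : ξ ∈ V) :
    deriv (K w).τ ξ = deriv τ0 ξ + lam w * deriv u ξ := by
  have hV := (hF.ok w hw).dom.isOpen
  have : (K w).τ = fun ξ => τ0 ξ + lam w * u ξ := funext (hF.τ_eq w)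
  rw [this]
  exact ((hF.τ0_hol.differentiableAt (hV.mem_nhds hξ)).hasDerivAt.add
    ((hF.u_hol.differentiableAt (hV.mem_nhds hξ)).hasDerivAt.const_mul _)).deriv

lemma τ_hol (hF : FamK P V K m h τ0 u lam) (hy : DifferentiableOn ℂ y P) (hm : ∀ w ∈ P, y w ∈ V) :
    DifferentiableOn ℂ (fun w => (K w).τ (y w)) P := by
  simp only [hF.τ_eq]
  exact (hF.τ0_hol.comp hy hm).add (hF.lam_hol.mul (hF.u_hol.comp hy hm))

lemma dτ_hol (hF : FamK P V K m h τ0 u lam) (hy : DifferentiableOn ℂ y P)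
    (hm : ∀ w ∈ P, y w ∈ V) : DifferentiableOn ℂ (fun w => deriv (K w).τ (y w)) P := by
  intro w hw
  have hV := (hF.ok w hw).dom.isOpen
  exact ((((hF.τ0_hol.deriv hV).comp hy hm).add
    (hF.lam_hol.mul ((hF.u_hol.deriv hV).comp hy hm))).congr
    (fun w hw => hF.dτ_eq hw (hm w hw))) w hw

lemma sg_hol (hF : FamK P V K m h τ0 u lam) (hy : DifferentiableOn ℂ y P)
    (hm : ∀ w ∈ P, y w ∈ V) : DifferentiableOn ℂ (fun w => (K w).sg (y w)) P :=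
  DifferentiableOn.csqrt (hF.τ_hol hy hm) fun w hw => (hF.ok w hw).slit (hm w hw)

lemma mm_hol (hF : FamK P V K m h τ0 u lam) (hy : DifferentiableOn ℂ y P) :
    DifferentiableOn ℂ (fun w => (K w).mm (y w)) P := by
  simp only [Cap.mm, hF.m_eq]
  exact ((differentiableOn_const 1).sub hy).const_mul _

lemma hh_hol (hF : FamK P V K m h τ0 u lam) (hy : DifferentiableOn ℂ y P)
    (hm : ∀ w ∈ P, y w ∈ V) : DifferentiableOn ℂ (fun w => (K w).hh (y w)) P := by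
  simp only [Cap.hh, hF.m_eq, hF.h_eq]
  refine (differentiableOn_const _).sub (((hy.const_mul _).div_const 2).mul ?_)
  exact hol_int (F := fun w r => (K w).sg (r * y w)) zero_le_one hF.isOpen
    (g := fun _ => 101 / 100) intervalIntegrable_const
    (fun w hw => (hF.ok w hw).dom.ray_cont (hF.ok w hw).sg_hol (hm w hw))
    (fun r hr => hF.sg_hol (hy.const_mul _) fun w hw => (hF.ok w hw).dom.ray_mem (hm w hw) hr)
    (fun w hw r hr => (hF.ok w hw).sg_le ((hF.ok w hw).dom.ray_mem (hm w hw) hr))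

lemma ZZ_hol (hF : FamK P V K m h τ0 u lam) (hy : DifferentiableOn ℂ y P)
    (hm : ∀ w ∈ P, y w ∈ V) : DifferentiableOn ℂ (fun w => (K w).ZZ (y w)) P :=
  (hF.hh_hol hy hm).sub ((hF.mm_hol hy).mul (hF.sg_hol hy hm))

lemma NN_hol (hF : FamK P V K m h τ0 u lam) (hy : DifferentiableOn ℂ y P)
    (hm : ∀ w ∈ P, y w ∈ V) : DifferentiableOn ℂ (fun w => (K w).NN (y w)) P := by
  simp only [Cap.NN, hF.m_eq]
  exact ((hF.τ_hol hy hm).const_mul _).sub ((hF.mm_hol hy).mul (hF.dτ_hol hy hm))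

lemma ze_hol (hF : FamK P V K m h τ0 u lam) (hc : DifferentiableOn ℂ c P)
    (hy : DifferentiableOn ℂ y P) (hm : ∀ w ∈ P, y w ∈ V) :
    DifferentiableOn ℂ (fun w => (K w).ze (c w) (y w)) P :=
  (((hF.hh_hol hy hm).sub hc).div (hF.sg_hol hy hm)
    fun w hw => (hF.ok w hw).sg_ne (hm w hw)).sub (hF.mm_hol hy)

lemma ze1_hol (hF : FamK P V K m h τ0 u lam) (hc : DifferentiableOn ℂ c P)
    (hy : DifferentiableOn ℂ y P) (hm : ∀ w ∈ P, y w ∈ V) :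
    DifferentiableOn ℂ (fun w => (K w).ze1 (c w) (y w)) P := by
  simp only [Cap.ze1, hF.m_eq]
  exact (differentiableOn_const _).sub ((((hF.hh_hol hy hm).sub hc).mul (hF.dτ_hol hy hm)).div
    (((hF.sg_hol hy hm).pow 3).const_mul 2) fun w hw =>
      mul_ne_zero two_ne_zero (pow_ne_zero 3 ((hF.ok w hw).sg_ne (hm w hw))))

lemma seg_hol (hφ : DifferentiableOn ℂ φ P) (hy : DifferentiableOn ℂ y P) (r : ℝ) :
    DifferentiableOn ℂ (fun w => φ w + r * (y w - φ w)) P := hφ.add ((hy.sub hφ).const_mul _)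

lemma ga_hol (hF : FamK P V K m h τ0 u lam) (hc : DifferentiableOn ℂ c P)
    (hQ : DifferentiableOn ℂ Q P) (hφ : DifferentiableOn ℂ φ P)
    (hP : ∀ w ∈ P, (K w).Pl V (c w) (Q w) (φ w))
    (hy : DifferentiableOn ℂ y P) (hm : ∀ w ∈ P, y w ∈ V) :
    DifferentiableOn ℂ (fun w => (K w).ga (c w) (Q w) (φ w) (y w)) P := by
  simp only [Cap.ga, hF.m_eq]
  refine (differentiableOn_const _).add ((hQ.div_const _).mul ?_)
  have hs : ∀ r ∈ Ioo (0 : ℝ) 1, ∀ w ∈ P, φ w + r * (y w - φ w) ∈ V := fun r hr w hw =>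
    (hF.ok w hw).dom.seg_mem (hP w hw).mem (hm w hw) (Ioo_subset_Icc_self hr)
  refine hol_int (F := fun w r => 2 * (K w).ze (c w) (φ w + r * (y w - φ w)) *
      (K w).ze1 (c w) (φ w + r * (y w - φ w))) zero_le_one hF.isOpen
    (g := fun _ => 2 * (6 / 5) * (1 / 50)) intervalIntegrable_const (fun w hw => ?_)
    (fun r hr => ((hF.ze_hol hc (seg_hol hφ hy r) (hs r hr)).const_mul 2).mul
      (hF.ze1_hol hc (seg_hol hφ hy r) (hs r hr))) (fun w hw r hr => ?_)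
  · exact ((hF.ok w hw).dom.seg_cont (g := fun y => 2 * (K w).ze (c w) y * (K w).ze1 (c w) y)
      ((((hF.ok w hw).ze_hol _).const_mul 2).mul ((hF.ok w hw).ze1_hol _)) (hP w hw).mem
      (hm w hw)).mono Ioo_subset_Icc_self
  · rw [norm_mul, norm_mul]
    simp only [Complex.norm_ofNat]
    gcongr
    exacts [(hF.ok w hw).ze_le (hP w hw).c_le (hs r hr w hw),
      (hF.ok w hw).ze1_le (hP w hw).c_le (hs r hr w hw)]

lemma sga_hol (hF : FamK P V K m h τ0 u lam) (hc : DifferentiableOn ℂ c P)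
    (hQ : DifferentiableOn ℂ Q P) (hφ : DifferentiableOn ℂ φ P)
    (hP : ∀ w ∈ P, (K w).Pl V (c w) (Q w) (φ w))
    (hy : DifferentiableOn ℂ y P) (hm : ∀ w ∈ P, y w ∈ V) :
    DifferentiableOn ℂ (fun w => Complex.sqrt ((K w).ga (c w) (Q w) (φ w) (y w))) P :=
  DifferentiableOn.csqrt (hF.ga_hol hc hQ hφ hP hy hm)
    fun w hw => (hF.ok w hw).ga_slit (hP w hw) (hm w hw)

lemma kin_hol (hF : FamK P V K m h τ0 u lam) (hc : DifferentiableOn ℂ c P)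
    (hQ : DifferentiableOn ℂ Q P) (hφ : DifferentiableOn ℂ φ P)
    (hP : ∀ w ∈ P, (K w).Pl V (c w) (Q w) (φ w))
    (hy : DifferentiableOn ℂ y P) (hm : ∀ w ∈ P, y w ∈ V) :
    DifferentiableOn ℂ (fun w => (K w).kin (c w) (Q w) (φ w) (y w)) P :=
  (((hF.sga_hol hc hQ hφ hP hy hm).mul (hF.sg_hol hy hm)).mul (hF.ze1_hol hc hy hm)).div
    (((differentiableOn_const 1).add (hQ.mul (hF.ze_hol hc hy hm))).pow 2)
    fun w hw => pow_ne_zero 2 ((hF.ok w hw).den_ne (hP w hw) (hm w hw))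

end FamK

namespace Cap.OK

variable {K : Cap} {V : Set ℂ} {ξ φ c Q : ℂ}

lemma ga_hol (hK : K.OK V) (hP : K.Pl V c Q φ) : DifferentiableOn ℂ (K.ga c Q φ) V :=
  (hK.famK hK.dom.isOpen).ga_hol (c := fun _ => c) (Q := fun _ => Q) (φ := fun _ => φ) (y := id)
    (differentiableOn_const _) (differentiableOn_const _) (differentiableOn_const _)
    (fun _ _ => hP) differentiableOn_id fun _ h => h

lemma sga_hol (hK : K.OK V) (hP : K.Pl V c Q φ) :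
    DifferentiableOn ℂ (fun ξ => Complex.sqrt (K.ga c Q φ ξ)) V :=
  DifferentiableOn.csqrt (hK.ga_hol hP) fun _ h => hK.ga_slit hP h

lemma kin_hol (hK : K.OK V) (hP : K.Pl V c Q φ) : DifferentiableOn ℂ (K.kin c Q φ) V :=
  (hK.famK hK.dom.isOpen).kin_hol (c := fun _ => c) (Q := fun _ => Q) (φ := fun _ => φ) (y := id)
    (differentiableOn_const _) (differentiableOn_const _) (differentiableOn_const _)
    (fun _ _ => hP) differentiableOn_id fun _ h => h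

lemma aint_hol (hK : K.OK V) (hP : K.Pl V c Q φ) :
    DifferentiableOn ℂ (fun ξ => Complex.sqrt (K.ga c Q φ ξ) * K.NN ξ) V :=
  (hK.sga_hol hP).mul hK.NN_hol

lemma bint_hol (hK : K.OK V) (hP : K.Pl V c Q φ) : DifferentiableOn ℂ
    (fun ξ => K.ze c ξ * K.NN ξ / (2 * K.sg ξ * Complex.sqrt (K.ga c Q φ ξ))) V :=
  ((hK.ze_hol c).mul hK.NN_hol).div ((hK.sg_hol.const_mul 2).mul (hK.sga_hol hP)) fun _ h =>
    mul_ne_zero (mul_ne_zero two_ne_zero (hK.sg_ne h)) (hK.sga_ne hP h)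

lemma eint_hol (hK : K.OK V) (hP : K.Pl V c Q φ) : DifferentiableOn ℂ
    (fun ξ => K.ze c ξ ^ 2 * K.NN ξ / (2 * Complex.sqrt (K.ga c Q φ ξ))) V :=
  (((hK.ze_hol c).pow 2).mul hK.NN_hol).div ((hK.sga_hol hP).const_mul 2) fun _ h =>
    mul_ne_zero two_ne_zero (hK.sga_ne hP h)

lemma a_ii (hK : K.OK V) (hP : K.Pl V c Q φ) : IntervalIntegrable (fun r : ℝ =>
    ((√(1 - r) : ℝ) : ℂ) * (Complex.sqrt (K.ga c Q φ (r * φ)) * K.NN (r * φ))) volume 0 1 :=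
  ii_of_bound_const (C := 1 * (1 / 40))
    (cont_sqrt_one_sub.continuousOn.mul (hK.dom.ray_cont (hK.aint_hol hP) hP.mem)) fun r hr => by
      rw [norm_mul]
      gcongr
      exacts [norm_sqrt_one_sub hr, hK.aint_le hP (hK.dom.ray_mem hP.mem hr)]

lemma b_ii (hK : K.OK V) (hP : K.Pl V c Q φ) : IntervalIntegrable (fun r : ℝ =>
    (((√(1 - r))⁻¹ : ℝ) : ℂ) * (K.ze c (r * φ) * K.NN (r * φ) /
      (2 * K.sg (r * φ) * Complex.sqrt (K.ga c Q φ (r * φ))))) volume 0 1 :=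
  ii_of_bound_sing (C := 1 / 50)
    (cont_inv_sqrt_one_sub.mul (hK.dom.ray_cont (hK.bint_hol hP) hP.mem)) fun r hr => by
      rw [norm_mul, norm_inv_sqrt_one_sub, mul_comm]
      gcongr
      exact hK.bint_le hP (hK.dom.ray_mem hP.mem hr)

lemma e_ii (hK : K.OK V) (hP : K.Pl V c Q φ) : IntervalIntegrable (fun r : ℝ =>
    (((√(1 - r))⁻¹ : ℝ) : ℂ) * (K.ze c (r * φ) ^ 2 * K.NN (r * φ) /
      (2 * Complex.sqrt (K.ga c Q φ (r * φ))))) volume 0 1 :=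
  ii_of_bound_sing (C := 1 / 50)
    (cont_inv_sqrt_one_sub.mul (hK.dom.ray_cont (hK.eint_hol hP) hP.mem)) fun r hr => by
      rw [norm_mul, norm_inv_sqrt_one_sub, mul_comm]
      gcongr
      exact hK.eint_le hP (hK.dom.ray_mem hP.mem hr)

end Cap.OK

namespace FamK

variable {P V : Set ℂ} {K : ℂ → Cap} {m h : ℝ} {τ0 u lam y c Q φ : ℂ → ℂ}

lemma ka_hol (hF : FamK P V K m h τ0 u lam) (hc : DifferentiableOn ℂ c P)
    (hQ : DifferentiableOn ℂ Q P) (hφ : DifferentiableOn ℂ φ P)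
    (hP : ∀ w ∈ P, (K w).Pl V (c w) (Q w) (φ w))
    (hy : DifferentiableOn ℂ y P) (hm : ∀ w ∈ P, y w ∈ V) :
    DifferentiableOn ℂ (fun w => (K w).ka (c w) (Q w) (φ w) (y w)) P := by
  have hs : ∀ r ∈ Ioo (0 : ℝ) 1, ∀ w ∈ P, φ w + r * (y w - φ w) ∈ V := fun r hr w hw =>
    (hF.ok w hw).dom.seg_mem (hP w hw).mem (hm w hw) (Ioo_subset_Icc_self hr)
  refine ((hF.sga_hol hc hQ hφ hP hy hm).div
    ((differentiableOn_const 1).add (hQ.mul (hF.ze_hol hc hy hm)))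
    fun w hw => (hF.ok w hw).den_ne (hP w hw) (hm w hw)).sub
    (((hQ.mul (hφ.sub hy)).div (hF.sg_hol hy hm) fun w hw => (hF.ok w hw).sg_ne (hm w hw)).mul ?_)
  refine hol_int (F := fun w r => ((√r : ℝ) : ℂ) *
      (K w).kin (c w) (Q w) (φ w) (φ w + r * (y w - φ w))) zero_le_one hF.isOpen
    (g := fun _ => 1 * (6 / 5 * (1 / 50))) intervalIntegrable_const (fun w hw => ?_)
    (fun r hr => (hF.kin_hol hc hQ hφ hP (seg_hol hφ hy r) (hs r hr)).const_mul _)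
    (fun w hw r hr => ?_)
  · exact cont_sqrt_coe.continuousOn.mul (((hF.ok w hw).dom.seg_cont
      ((hF.ok w hw).kin_hol (hP w hw)) (hP w hw).mem (hm w hw)).mono Ioo_subset_Icc_self)
  · rw [norm_mul, Complex.norm_real, Real.norm_of_nonneg (Real.sqrt_nonneg _)]
    gcongr
    exacts [Real.sqrt_le_one.mpr hr.2.le, (hF.ok w hw).kin_le (hP w hw)
      (fun y hy => (hF.ok w hw).ze1_le (hP w hw).c_le hy) (hs r hr w hw)]

lemma acap_hol (hF : FamK P V K m h τ0 u lam) (hc : DifferentiableOn ℂ c P)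
    (hQ : DifferentiableOn ℂ Q P) (hφ : DifferentiableOn ℂ φ P)
    (hP : ∀ w ∈ P, (K w).Pl V (c w) (Q w) (φ w)) (hre : ∀ w ∈ P, 0 < (φ w).re) :
    DifferentiableOn ℂ (fun w => (K w).acap (c w) (Q w) (φ w)) P := by
  simp only [Cap.acap, hF.m_eq]
  have hs : ∀ r ∈ Ioo (0 : ℝ) 1, ∀ w ∈ P, r * φ w ∈ V := fun r hr w hw =>
    (hF.ok w hw).dom.ray_mem (hP w hw).mem hr
  refine ((hφ.mul (DifferentiableOn.csqrt hφ fun w hw => slit_of_re_pos (hre w hw))).const_mul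
    _).mul ?_
  refine hol_int (F := fun w r => ((√(1 - r) : ℝ) : ℂ) *
      (Complex.sqrt ((K w).ga (c w) (Q w) (φ w) (r * φ w)) * (K w).NN (r * φ w))) zero_le_one
    hF.isOpen (g := fun _ => 1 * (1 / 40)) intervalIntegrable_const (fun w hw => ?_)
    (fun r hr => ((hF.sga_hol hc hQ hφ hP (hφ.const_mul _) (hs r hr)).mul
      (hF.NN_hol (hφ.const_mul _) (hs r hr))).const_mul _) (fun w hw r hr => ?_)
  · exact cont_sqrt_one_sub.continuousOn.mul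
      ((hF.ok w hw).dom.ray_cont ((hF.ok w hw).aint_hol (hP w hw)) (hP w hw).mem)
  · rw [norm_mul]
    gcongr
    exacts [Cap.OK.norm_sqrt_one_sub hr, (hF.ok w hw).aint_le (hP w hw) (hs r hr w hw)]

lemma bcap_hol (hF : FamK P V K m h τ0 u lam) (hc : DifferentiableOn ℂ c P)
    (hQ : DifferentiableOn ℂ Q P) (hφ : DifferentiableOn ℂ φ P)
    (hP : ∀ w ∈ P, (K w).Pl V (c w) (Q w) (φ w)) (hre : ∀ w ∈ P, 0 < (φ w).re) :
    DifferentiableOn ℂ (fun w => (K w).bcap (c w) (Q w) (φ w)) P := by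
  simp only [Cap.bcap, hF.m_eq]
  have hs : ∀ r ∈ Ioo (0 : ℝ) 1, ∀ w ∈ P, r * φ w ∈ V := fun r hr w hw =>
    (hF.ok w hw).dom.ray_mem (hP w hw).mem hr
  refine ((DifferentiableOn.csqrt hφ fun w hw => slit_of_re_pos (hre w hw)).div_const _).mul ?_
  refine hol_int (F := fun w r => (((√(1 - r))⁻¹ : ℝ) : ℂ) *
      ((K w).ze (c w) (r * φ w) * (K w).NN (r * φ w) / (2 * (K w).sg (r * φ w) *
        Complex.sqrt ((K w).ga (c w) (Q w) (φ w) (r * φ w))))) zero_le_one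
    hF.isOpen (ii_inv_sqrt.const_mul (1 / 50)) (fun w hw => ?_)
    (fun r hr => (((hF.ze_hol hc (hφ.const_mul _) (hs r hr)).mul
      (hF.NN_hol (hφ.const_mul _) (hs r hr))).div
      (((hF.sg_hol (hφ.const_mul _) (hs r hr)).const_mul 2).mul
        (hF.sga_hol hc hQ hφ hP (hφ.const_mul _) (hs r hr))) fun w hw =>
      mul_ne_zero (mul_ne_zero two_ne_zero ((hF.ok w hw).sg_ne (hs r hr w hw)))
        ((hF.ok w hw).sga_ne (hP w hw) (hs r hr w hw))).const_mul _) (fun w hw r hr => ?_)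
  · exact cont_inv_sqrt_one_sub.mul
      ((hF.ok w hw).dom.ray_cont ((hF.ok w hw).bint_hol (hP w hw)) (hP w hw).mem)
  · rw [norm_mul, Cap.OK.norm_inv_sqrt_one_sub, mul_comm]
    gcongr
    exact (hF.ok w hw).bint_le (hP w hw) (hs r hr w hw)

end FamK

lemma Cap.OK.ka_hol {K : Cap} {V : Set ℂ} {φ c Q : ℂ} (hK : K.OK V) (hP : K.Pl V c Q φ) :
    DifferentiableOn ℂ (K.ka c Q φ) V :=
  (hK.famK hK.dom.isOpen).ka_hol (c := fun _ => c) (Q := fun _ => Q) (φ := fun _ => φ) (y := id)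
    (differentiableOn_const _) (differentiableOn_const _) (differentiableOn_const _)
    (fun _ _ => hP) differentiableOn_id fun _ h => h

/-! ### Real values -/

/-- `z` is real. -/
def Rl (z : ℂ) : Prop := z.im = 0

namespace Rl

variable {a b : ℂ}

lemma ofReal (r : ℝ) : Rl (r : ℂ) := Complex.ofReal_im r
lemma one : Rl 1 := Complex.one_im
lemma two : Rl 2 := by simp [Rl]
lemma add (ha : Rl a) (hb : Rl b) : Rl (a + b) := by simp_all [Rl]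
lemma sub (ha : Rl a) (hb : Rl b) : Rl (a - b) := by simp_all [Rl]
lemma neg (ha : Rl a) : Rl (-a) := by simp_all [Rl]
lemma mul (ha : Rl a) (hb : Rl b) : Rl (a * b) := by simp_all [Rl]
lemma inv (ha : Rl a) : Rl a⁻¹ := by simp_all [Rl]
lemma div (ha : Rl a) (hb : Rl b) : Rl (a / b) := div_eq_mul_inv a b ▸ ha.mul hb.inv
lemma pow (ha : Rl a) (n : ℕ) : Rl (a ^ n) := by
  induction n with
  | zero => simpa using one
  | succ n ih => rw [pow_succ]; exact ih.mul ha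
lemma sqrt (ha : Rl a) (h0 : 0 ≤ a.re) : Rl (Complex.sqrt a) := im_sqrt ha h0
lemma int {F : ℝ → ℂ} (h : ∀ r ∈ Ioo (0 : ℝ) 1, Rl (F r)) : Rl (∫ r in (0 : ℝ)..1, F r) :=
  im_int zero_le_one h

end Rl

namespace Cap.OK

variable {K : Cap} {V : Set ℂ} {ξ φ c Q : ℂ}

lemma rl_dτ (hK : K.OK V) (hr : ∀ ξ ∈ V, Rl ξ → Rl (K.τ ξ)) (hξ : ξ ∈ V) (h : Rl ξ) :
    Rl (deriv K.τ ξ) := im_deriv hK.dom.isOpen hK.hol hr hξ h

lemma rl_sg (hK : K.OK V) (hr : ∀ ξ ∈ V, Rl ξ → Rl (K.τ ξ)) (hξ : ξ ∈ V) (h : Rl ξ) :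
    Rl (K.sg ξ) := (hr ξ hξ h).sqrt (by linarith [re_ge_of_norm_sub_one (hK.τ0 ξ hξ)])

lemma rl_mm (K : Cap) (h : Rl ξ) : Rl (K.mm ξ) := (Rl.ofReal _).mul (Rl.one.sub h)

lemma rl_hh (hK : K.OK V) (hr : ∀ ξ ∈ V, Rl ξ → Rl (K.τ ξ)) (hξ : ξ ∈ V) (h : Rl ξ) :
    Rl (K.hh ξ) :=
  (Rl.ofReal _).sub ((((Rl.ofReal _).mul h).div Rl.two).mul (Rl.int fun r hr' =>
    hK.rl_sg hr (hK.dom.ray_mem hξ hr') ((Rl.ofReal r).mul h)))

lemma rl_ZZ (hK : K.OK V) (hr : ∀ ξ ∈ V, Rl ξ → Rl (K.τ ξ)) (hξ : ξ ∈ V) (h : Rl ξ) :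
    Rl (K.ZZ ξ) := (hK.rl_hh hr hξ h).sub ((rl_mm K h).mul (hK.rl_sg hr hξ h))

lemma rl_NN (hK : K.OK V) (hr : ∀ ξ ∈ V, Rl ξ → Rl (K.τ ξ)) (hξ : ξ ∈ V) (h : Rl ξ) :
    Rl (K.NN ξ) := ((Rl.ofReal _).mul (hr ξ hξ h)).sub ((rl_mm K h).mul (hK.rl_dτ hr hξ h))

lemma rl_ze (hK : K.OK V) (hr : ∀ ξ ∈ V, Rl ξ → Rl (K.τ ξ)) (hc : Rl c) (hξ : ξ ∈ V) (h : Rl ξ) :
    Rl (K.ze c ξ) := (((hK.rl_hh hr hξ h).sub hc).div (hK.rl_sg hr hξ h)).sub (rl_mm K h)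

lemma rl_ze1 (hK : K.OK V) (hr : ∀ ξ ∈ V, Rl ξ → Rl (K.τ ξ)) (hc : Rl c) (hξ : ξ ∈ V)
    (h : Rl ξ) : Rl (K.ze1 c ξ) :=
  ((Rl.ofReal _).div Rl.two).sub ((((hK.rl_hh hr hξ h).sub hc).mul (hK.rl_dτ hr hξ h)).div
    (Rl.two.mul ((hK.rl_sg hr hξ h).pow 3)))

lemma rl_seg (hφ : Rl φ) (h : Rl ξ) (r : ℝ) : Rl (φ + r * (ξ - φ)) :=
  hφ.add ((Rl.ofReal r).mul (h.sub hφ))

lemma rl_ga (hK : K.OK V) (hr : ∀ ξ ∈ V, Rl ξ → Rl (K.τ ξ)) (hP : K.Pl V c Q φ) (hc : Rl c)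
    (hQ : Rl Q) (hφ : Rl φ) (hξ : ξ ∈ V) (h : Rl ξ) : Rl (K.ga c Q φ ξ) :=
  Rl.one.add ((hQ.div (Rl.ofReal _)).mul (Rl.int fun r hr' =>
    have hm := hK.dom.seg_mem hP.mem hξ (Ioo_subset_Icc_self hr')
    (Rl.two.mul (hK.rl_ze hr hc hm (rl_seg hφ h r))).mul (hK.rl_ze1 hr hc hm (rl_seg hφ h r))))

lemma rl_sga (hK : K.OK V) (hr : ∀ ξ ∈ V, Rl ξ → Rl (K.τ ξ)) (hP : K.Pl V c Q φ) (hc : Rl c)
    (hQ : Rl Q) (hφ : Rl φ) (hξ : ξ ∈ V) (h : Rl ξ) : Rl (Complex.sqrt (K.ga c Q φ ξ)) :=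
  (hK.rl_ga hr hP hc hQ hφ hξ h).sqrt (by linarith [re_ge_of_norm_sub_one (hK.ga_sub hP hξ)])

lemma rl_ka (hK : K.OK V) (hr : ∀ ξ ∈ V, Rl ξ → Rl (K.τ ξ)) (hP : K.Pl V c Q φ) (hc : Rl c)
    (hQ : Rl Q) (hφ : Rl φ) (hξ : ξ ∈ V) (h : Rl ξ) : Rl (K.ka c Q φ ξ) :=
  ((hK.rl_sga hr hP hc hQ hφ hξ h).div (Rl.one.add (hQ.mul (hK.rl_ze hr hc hξ h)))).sub
    (((hQ.mul (hφ.sub h)).div (hK.rl_sg hr hξ h)).mul (Rl.int fun r hr' =>
      have hm := hK.dom.seg_mem hP.mem hξ (Ioo_subset_Icc_self hr')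
      have hs := rl_seg hφ h r
      (Rl.ofReal _).mul ((((hK.rl_sga hr hP hc hQ hφ hm hs).mul (hK.rl_sg hr hm hs)).mul
        (hK.rl_ze1 hr hc hm hs)).div ((Rl.one.add (hQ.mul (hK.rl_ze hr hc hm hs))).pow 2))))

lemma rl_acap (hK : K.OK V) (hr : ∀ ξ ∈ V, Rl ξ → Rl (K.τ ξ)) (hP : K.Pl V c Q φ) (hc : Rl c)
    (hQ : Rl Q) (hφ : Rl φ) (h0 : 0 ≤ φ.re) : Rl (K.acap c Q φ) :=
  ((Rl.ofReal _).mul (hφ.mul (hφ.sqrt h0))).mul (Rl.int fun r hr' =>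
    have hm := hK.dom.ray_mem hP.mem hr'
    have hs := (Rl.ofReal r).mul hφ
    (Rl.ofReal _).mul ((hK.rl_sga hr hP hc hQ hφ hm hs).mul (hK.rl_NN hr hm hs)))

lemma rl_bcap (hK : K.OK V) (hr : ∀ ξ ∈ V, Rl ξ → Rl (K.τ ξ)) (hP : K.Pl V c Q φ) (hc : Rl c)
    (hQ : Rl Q) (hφ : Rl φ) (h0 : 0 ≤ φ.re) : Rl (K.bcap c Q φ) :=
  ((hφ.sqrt h0).div (Rl.ofReal _)).mul (Rl.int fun r hr' =>
    have hm := hK.dom.ray_mem hP.mem hr'
    have hs := (Rl.ofReal r).mul hφ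
    (Rl.ofReal _).mul (((hK.rl_ze hr hc hm hs).mul (hK.rl_NN hr hm hs)).div
      ((Rl.two.mul (hK.rl_sg hr hm hs)).mul (hK.rl_sga hr hP hc hQ hφ hm hs))))

end Cap.OK

end

end Pool.Agent.Lib.MP_87c84d_gt
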