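import Mathlib

/-!
Bodies of revolution in 3-space described by a profile set of pairs (squared radius, height).
Real geometric definitions and the statements of the geometric steps.
-/

namespace Pool.Agent.Lib.MP_87c84d_gt

open MeasureTheory Set
open scoped ENNReal

noncomputable section

abbrev E3 := EuclideanSpace ℝ (Fin 3)

/-- The body of revolution with profile set `P` of pairs (squared radius, height). -/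
def body (P : Set (ℝ × ℝ)) : Set E3 := {X | (X 0 ^ 2 + X 1 ^ 2, X 2) ∈ P}

/-- The section by the plane `x = t - q z`, in the coordinates `(z, y)`. -/
def secSet (P : Set (ℝ × ℝ)) (q t : ℝ) : Set (ℝ × ℝ) :=
  {p | ((t - q * p.1) ^ 2 + p.2 ^ 2, p.1) ∈ P}

/-- The chord length of that section at height `z`. -/
def fib (P : Set (ℝ × ℝ)) (q t z : ℝ) : ℝ≥0∞ :=
  volume {y : ℝ | ((t - q * z) ^ 2 + y ^ 2, z) ∈ P}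

/-- The shadow, in the coordinates `(cc z + ss x, y)`. -/
def shSet (P : Set (ℝ × ℝ)) (cc ss : ℝ) : Set (ℝ × ℝ) :=
  {p | ∃ x z : ℝ, (x ^ 2 + p.2 ^ 2, z) ∈ P ∧ p.1 = cc * z + ss * x}

structure Prof (P : Set (ℝ × ℝ)) : Prop where
  closed : IsClosed P
  convex : Convex ℝ P
  down : ∀ p ∈ P, ∀ r : ℝ, r ≤ p.1 → (r, p.2) ∈ P
  bdd : ∃ M : ℝ, ∀ p ∈ P, 0 ≤ p.1 → p.1 ≤ M ∧ |p.2| ≤ M

/-- A cap, parametrised by `ξ ∈ [0,1]` (`ξ = 1` is the pole); the squared slope of the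
tangent cone at parameter `ξ` is `m (1 - ξ)`. -/
structure RCap where
  m : ℝ
  σ : ℝ → ℝ
  σ' : ℝ → ℝ
  Z : ℝ → ℝ

/-- squared radius -/
def RCap.T (C : RCap) (ξ : ℝ) : ℝ := C.m * (1 - ξ) * C.σ ξ ^ 2

/-- derivative of the height -/
def RCap.Z' (C : RCap) (ξ : ℝ) : ℝ := C.m * C.σ ξ / 2 - C.m * (1 - ξ) * C.σ' ξ

structure RCap.OK (C : RCap) : Prop where
  m_pos : 0 < C.m
  cσ : ContinuousOn C.σ (Icc 0 1)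
  cZ : ContinuousOn C.Z (Icc 0 1)
  dσ : ∀ ξ ∈ Ioo (0 : ℝ) 1, HasDerivAt C.σ (C.σ' ξ) ξ
  dZ : ∀ ξ ∈ Ioo (0 : ℝ) 1, HasDerivAt C.Z (C.Z' ξ) ξ
  cσ' : ContinuousOn C.σ' (Ioo 0 1)
  σ_pos : ∀ ξ ∈ Icc (0 : ℝ) 1, 0 < C.σ ξ
  σ'_nonneg : ∀ ξ ∈ Ioo (0 : ℝ) 1, 0 ≤ C.σ' ξ
  Z'_pos : ∀ ξ ∈ Ioo (0 : ℝ) 1, 0 < C.Z' ξ

/-- Two caps and a middle part with squared radius `ξ0 z`, `z ∈ [zB, zT]`. -/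
structure RBody where
  T : RCap
  B : RCap
  ξ0 : ℝ → ℝ
  dξ0 : ℝ → ℝ
  zB : ℝ
  zT : ℝ

/-- The profile: an intersection of tangent paraboloids. -/
def RBody.P (R : RBody) : Set (ℝ × ℝ) :=
  {p | (∀ z0 ∈ Icc R.zB R.zT, p.1 ≤ R.ξ0 z0 + R.dξ0 z0 * (p.2 - z0)) ∧
    (∀ ξ ∈ Icc (0 : ℝ) 1, p.1 ≤ R.T.T ξ - 2 * R.T.σ ξ * (p.2 - R.T.Z ξ)) ∧
    (∀ ξ ∈ Icc (0 : ℝ) 1, p.1 ≤ R.B.T ξ - 2 * R.B.σ ξ * (-p.2 - R.B.Z ξ))}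

structure RBody.OK (R : RBody) : Prop where
  T_ok : R.T.OK
  B_ok : R.B.OK
  m_eq : R.B.m = R.T.m
  zB_neg : R.zB < 0
  zT_pos : 0 < R.zT
  ZT0 : R.T.Z 0 = R.zT
  ZB0 : R.B.Z 0 = -R.zB
  ξT : R.ξ0 R.zT = R.T.T 0
  ξB : R.ξ0 R.zB = R.B.T 0
  dT : R.dξ0 R.zT = -2 * R.T.σ 0
  dB : R.dξ0 R.zB = 2 * R.B.σ 0
  cont : Continuous R.ξ0
  sup : ∀ z z0 : ℝ, R.ξ0 z ≤ R.ξ0 z0 + R.dξ0 z0 * (z - z0)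

/-- Two bodies with the same middle part. -/
structure SameMid (R S : RBody) : Prop where
  ξ0 : R.ξ0 = S.ξ0
  dξ0 : R.dξ0 = S.dξ0
  zB : R.zB = S.zB
  zT : R.zT = S.zT
  m : R.T.m = S.T.m

/-- An arc of the boundary of the section by the plane `x = t - q z` between the heights
`z0` and `z1`: `w0, w1` are the half chords at the ends, `a` is the area and `b` the moment. -/
def Arc (P : Set (ℝ × ℝ)) (q t z0 z1 w0 w1 a b : ℝ) : Prop :=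
  z0 ≤ z1 ∧ 0 ≤ a ∧ ENNReal.ofReal a ≤ ∫⁻ z in Ioo z0 z1, fib P q t z ∧
  ∀ t' lam zs : ℝ, 0 ≤ lam →
    (∀ z ∈ Ioo z0 z1, ∃ y : ℝ, ((t' - q * (zs + lam * z)) ^ 2 + y ^ 2, zs + lam * z) ∈ P) →
    0 ≤ (2 - lam) * a + 2 * ((zs + lam * z1 - z1) * w1 - (zs + lam * z0 - z0) * w0)
        - 2 * (t' - t) * b ∧
    ∫⁻ z in Ioo z0 z1, fib P q t' (zs + lam * z) ≤ ENNReal.ofReal
      ((2 - lam) * a + 2 * ((zs + lam * z1 - z1) * w1 - (zs + lam * z0 - z0) * w0)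
        - 2 * (t' - t) * b)

/-! Statements of the geometric steps. -/

/-- G1a: the boundary arcs belong to the profile. -/
def StmtMem : Prop := ∀ R : RBody, R.OK →
  (∀ z ∈ Icc R.zB R.zT, ∀ r : ℝ, r ≤ R.ξ0 z → (r, z) ∈ R.P) ∧
  (∀ ξ ∈ Icc (0 : ℝ) 1, ∀ r : ℝ, r ≤ R.T.T ξ → (r, R.T.Z ξ) ∈ R.P) ∧
  (∀ ξ ∈ Icc (0 : ℝ) 1, ∀ r : ℝ, r ≤ R.B.T ξ → (r, -R.B.Z ξ) ∈ R.P)

/-- G1b -/
def StmtProf : Prop := ∀ R : RBody, R.OK → Prof R.P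

/-- G1c -/
def StmtBody : Prop := ∀ P : Set (ℝ × ℝ), Prof P → IsCompact (body P) ∧ Convex ℝ (body P)

/-- G2a: one smooth piece of the boundary of a section. -/
def StmtArcPiece : Prop := ∀ (P : Set (ℝ × ℝ)) (q t u0 u1 : ℝ) (T Z T' Z' : ℝ → ℝ), Prof P →
  u0 ≤ u1 → ContinuousOn T (Icc u0 u1) → ContinuousOn Z (Icc u0 u1) →
  (∀ u ∈ Ioo u0 u1, HasDerivAt T (T' u) u) → (∀ u ∈ Ioo u0 u1, HasDerivAt Z (Z' u) u) →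
  (∀ u ∈ Ioo u0 u1, 0 < Z' u) → (∀ u ∈ Ioo u0 u1, 0 < T u - (t - q * Z u) ^ 2) →
  (∀ u ∈ Ioo u0 u1, ∀ p ∈ P, p.1 * Z' u ≤ T u * Z' u + T' u * (p.2 - Z u)) →
  (∀ u ∈ Ioo u0 u1, (T u, Z u) ∈ P) →
  IntervalIntegrable (fun u => Z' u / √(T u - (t - q * Z u) ^ 2)) volume u0 u1 →
  IntervalIntegrable (fun u => T' u / √(T u - (t - q * Z u) ^ 2)) volume u0 u1 →
  Arc P q t (Z u0) (Z u1) (√(T u0 - (t - q * Z u0) ^ 2)) (√(T u1 - (t - q * Z u1) ^ 2))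
    (∫ u in u0..u1, 2 * √(T u - (t - q * Z u) ^ 2) * Z' u)
    (∫ u in u0..u1, (t - q * Z u) * Z' u / √(T u - (t - q * Z u) ^ 2))

/-- G2b -/
def StmtArcAdd : Prop := ∀ (P : Set (ℝ × ℝ)) (q t z0 z1 z2 w0 w1 w2 a b a' b' : ℝ),
  Arc P q t z0 z1 w0 w1 a b → Arc P q t z1 z2 w1 w2 a' b' →
  Arc P q t z0 z2 w0 w2 (a + a') (b + b')

/-- G2c: a critical section is a maximal section. -/
def StmtArcSup : Prop := ∀ (P : Set (ℝ × ℝ)) (q t z0 z1 a : ℝ), Prof P → z0 < z1 →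
  Arc P q t z0 z1 0 0 a 0 → ⨆ t' : ℝ, volume (secSet P q t') = ENNReal.ofReal a

/-- G3: Hausdorff measure of sections and projections in plane coordinates. -/
def StmtHaus : Prop := ∃ c : ℝ≥0∞, ∀ (P : Set (ℝ × ℝ)) (e : E3), ‖e‖ = 1 →
  (Measure.hausdorffMeasure (2 : ℝ) ((fun x : E3 => x - (inner ℝ x e) • e) '' body P) =
    c * volume (shSet P (√(e 0 ^ 2 + e 1 ^ 2)) |e 2|)) ∧
  (0 < √(e 0 ^ 2 + e 1 ^ 2) →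
    (⨆ t : ℝ, Measure.hausdorffMeasure (2 : ℝ) (body P ∩ {x : E3 | inner ℝ x e = t})) =
      c * ENNReal.ofReal (√(e 0 ^ 2 + e 1 ^ 2))⁻¹ *
        ⨆ t : ℝ, volume (secSet P (|e 2| / √(e 0 ^ 2 + e 1 ^ 2)) t))

/-- G4: equal shadows. -/
def StmtShadow : Prop := ∀ R S : RBody, R.OK → S.OK → SameMid R S →
  (∀ ξ ∈ Icc (0 : ℝ) 1, R.T.σ ξ ^ 2 + R.B.σ ξ ^ 2 = S.T.σ ξ ^ 2 + S.B.σ ξ ^ 2) →
  ∀ cc ss : ℝ, 0 ≤ cc → 0 ≤ ss → cc ^ 2 + ss ^ 2 = 1 →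
    volume (shSet R.P cc ss) = volume (shSet S.P cc ss)

/-- G5: steep directions, where maximal sections miss the caps for crude reasons. -/
def StmtCrude : Prop := ∀ (R S : RBody) (κ Qs : ℝ) (e : E3), R.OK → S.OK → SameMid R S →
  R.T.m ≤ 1 / 200 → κ ≤ R.T.m / 100 → 3 / 2 * R.T.m ≤ Qs →
  R.ξ0 R.zT ≤ 102 / 100 * R.T.m → R.ξ0 R.zB ≤ 102 / 100 * R.T.m →
  95 / 100 ≤ R.zT → R.zB ≤ -(95 / 100) →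
  (∀ X : E3, ‖X‖ ^ 2 ≤ 1 - κ → X ∈ body R.P ∧ X ∈ body S.P) →
  (∀ X : E3, X ∈ body R.P ∨ X ∈ body S.P → ‖X‖ ^ 2 ≤ 1 + κ) →
  ‖e‖ = 1 → Qs * (e 0 ^ 2 + e 1 ^ 2) ≤ e 2 ^ 2 →
  (⨆ t : ℝ, Measure.hausdorffMeasure (2 : ℝ) (body R.P ∩ {x : E3 | inner ℝ x e = t})) =
    ⨆ t : ℝ, Measure.hausdorffMeasure (2 : ℝ) (body S.P ∩ {x : E3 | inner ℝ x e = t})

/-- G6: the two bodies are not congruent. -/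
def StmtNonCong : Prop := ∀ (R S : RBody) (a : ℝ), R.OK → S.OK → SameMid R S →
  0 < a → a ≤ R.zT → R.ξ0 0 = 1 → R.dξ0 0 = 0 → (∀ z : ℝ, z ≠ 0 → R.ξ0 z < 1) →
  (∀ z ∈ Ioc 0 a, 1 - z ^ 2 < R.ξ0 z) →
  (∀ X : E3, ‖X‖ ≤ 1 → X ∈ body S.P) → (∀ X ∈ body S.P, X 2 ≤ 0 → ‖X‖ ≤ 1) →
  (∃ ξ ∈ Ioo (0 : ℝ) 1, R.B.σ ξ ^ 2 * (1 + R.T.m * (1 - ξ)) ≠ 1) →
  ∀ f : E3 ≃ᵢ E3, f '' body S.P ≠ body R.P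

/-- The caps of `S` continue the middle profile. -/
structure RBody.Tan (S : RBody) : Prop where
  ξT : ∀ ξ ∈ Icc (0 : ℝ) 1, S.ξ0 (S.T.Z ξ) = S.T.T ξ
  dT : ∀ ξ ∈ Icc (0 : ℝ) 1, S.dξ0 (S.T.Z ξ) = -2 * S.T.σ ξ
  ξB : ∀ ξ ∈ Icc (0 : ℝ) 1, S.ξ0 (-S.B.Z ξ) = S.B.T ξ
  dB : ∀ ξ ∈ Icc (0 : ℝ) 1, S.dξ0 (-S.B.Z ξ) = 2 * S.B.σ ξ

/-- G7: comparison with balls. -/
def StmtBalls : Prop := ∀ (R S : RBody) (κ θ : ℝ), R.OK → S.OK → SameMid R S → S.Tan →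
  R.T.m ≤ 1 → κ ≤ 1 → 0 ≤ θ → θ ≤ κ / 100 →
  (∀ z : ℝ, |z| ≤ 11 / 10 → 1 - z ^ 2 ≤ S.ξ0 z ∧ S.ξ0 z ≤ 1 - z ^ 2 + κ / 2) →
  (∀ z : ℝ, z ≤ 0 → S.ξ0 z = 1 - z ^ 2) →
  (∀ ξ ∈ Icc (0 : ℝ) 1, S.T.σ ξ ≤ 2 ∧ S.B.σ ξ ≤ 2 ∧ S.T.Z ξ ≤ 11 / 10 ∧ S.B.Z ξ ≤ 11 / 10 ∧
    |R.T.σ ξ - S.T.σ ξ| ≤ θ ∧ |R.B.σ ξ - S.B.σ ξ| ≤ θ ∧
    |R.T.Z ξ - S.T.Z ξ| ≤ θ ∧ |R.B.Z ξ - S.B.Z ξ| ≤ θ) →
  (∀ X : E3, ‖X‖ ^ 2 ≤ 1 - κ → X ∈ body R.P) ∧ (∀ X ∈ body R.P, ‖X‖ ^ 2 ≤ 1 + κ) ∧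
  (∀ X : E3, ‖X‖ ≤ 1 → X ∈ body S.P) ∧ (∀ X ∈ body S.P, ‖X‖ ^ 2 ≤ 1 + κ) ∧
  (∀ X ∈ body S.P, X 2 ≤ 0 → ‖X‖ ≤ 1)

end

end Pool.Agent.Lib.MP_87c84d_gt
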