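import Pool.Agent.Lib.MP_87c84d_gt.Tools2
import Pool.Agent.Lib.MP_87c84d_gt.GeoDefs

/-!
Definitions of the analytic machine: caps in the slope variable, planes through two tips,
section areas continued to complex parameters, and the statements of the analytic steps.
-/

namespace Pool.Agent.Lib.MP_87c84d_gt

open MeasureTheory Set Metric Filter Topology
open scoped ENNReal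

noncomputable section

/-- A cap: squared slope `m (1 - ξ)`, squared radius `m (1 - ξ) τ ξ`. -/
structure Cap where
  m : ℝ
  h : ℝ
  τ : ℂ → ℂ

namespace Cap

variable (K : Cap)

def mm (ξ : ℂ) : ℂ := K.m * (1 - ξ)
def sg (ξ : ℂ) : ℂ := Complex.sqrt (K.τ ξ)
def hh (ξ : ℂ) : ℂ := K.h - K.m * ξ / 2 * ∫ r in (0 : ℝ)..1, K.sg (r * ξ)
def ZZ (ξ : ℂ) : ℂ := K.hh ξ - K.mm ξ * K.sg ξ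
def NN (ξ : ℂ) : ℂ := K.m * K.τ ξ - K.mm ξ * deriv K.τ ξ
def ze (c ξ : ℂ) : ℂ := (K.hh ξ - c) / K.sg ξ - K.mm ξ
def ze1 (c ξ : ℂ) : ℂ := K.m / 2 - (K.hh ξ - c) * deriv K.τ ξ / (2 * K.sg ξ ^ 3)
def ga (c Q φ ξ : ℂ) : ℂ :=
  1 + Q / K.m * ∫ r in (0 : ℝ)..1, 2 * K.ze c (φ + r * (ξ - φ)) * K.ze1 c (φ + r * (ξ - φ))
def kin (c Q φ y : ℂ) : ℂ :=
  Complex.sqrt (K.ga c Q φ y) * K.sg y * K.ze1 c y / (1 + Q * K.ze c y) ^ 2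
def ka (c Q φ ξ : ℂ) : ℂ :=
  Complex.sqrt (K.ga c Q φ ξ) / (1 + Q * K.ze c ξ) -
    Q * (φ - ξ) / K.sg ξ * ∫ r in (0 : ℝ)..1, ((√r : ℝ) : ℂ) * K.kin c Q φ (φ + r * (ξ - φ))
def acap (c Q φ : ℂ) : ℂ :=
  ((√K.m : ℝ) : ℂ) * (φ * Complex.sqrt φ) * ∫ r in (0 : ℝ)..1,
    ((√(1 - r) : ℝ) : ℂ) * (Complex.sqrt (K.ga c Q φ (r * φ)) * K.NN (r * φ))
def bcap (c Q φ : ℂ) : ℂ :=
  Complex.sqrt φ / ((√K.m : ℝ) : ℂ) * ∫ r in (0 : ℝ)..1, (((√(1 - r))⁻¹ : ℝ) : ℂ) *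
    (K.ze c (r * φ) * K.NN (r * φ) / (2 * K.sg (r * φ) * Complex.sqrt (K.ga c Q φ (r * φ))))
def ecap (c Q φ : ℂ) : ℂ :=
  -(Complex.sqrt φ / ((√K.m : ℝ) : ℂ)) * ∫ r in (0 : ℝ)..1, (((√(1 - r))⁻¹ : ℝ) : ℂ) *
    (K.ze c (r * φ) ^ 2 * K.NN (r * φ) / (2 * Complex.sqrt (K.ga c Q φ (r * φ))))
def lcap (c Q φ : ℂ) (u : ℂ → ℂ) : ℂ :=
  φ * Complex.sqrt φ * ∫ r in (0 : ℝ)..1, ((√(1 - r) : ℝ) : ℂ) * (u (r * φ) * K.ka c Q φ (r * φ))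

/-- The real cap. -/
def toR : RCap :=
  ⟨K.m, fun r => (K.sg r).re, fun r => (deriv K.τ r / (2 * K.sg r)).re, fun r => (K.ZZ r).re⟩

end Cap

structure Dom (m : ℝ) (V : Set ℂ) : Prop where
  isOpen : IsOpen V
  convex : Convex ℝ V
  star : ∀ ξ ∈ V, ∀ r ∈ Ioc (0 : ℝ) 1, (r : ℂ) * ξ ∈ V
  small : ∀ ξ ∈ V, m * ‖ξ‖ ≤ 1 / 100
  m_pos : 0 < m
  m_le : m ≤ 1 / 100

structure Cap.OK (K : Cap) (V : Set ℂ) : Prop where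
  dom : Dom K.m V
  hol : DifferentiableOn ℂ K.τ V
  τ0 : ∀ ξ ∈ V, ‖K.τ ξ - 1‖ ≤ 1 / 100
  τ1 : ∀ ξ ∈ V, ‖deriv K.τ ξ‖ ≤ 1 / 100
  h1 : |K.h - 1| ≤ 1 / 100

structure Cap.Pl (K : Cap) (V : Set ℂ) (c Q φ : ℂ) : Prop where
  c_le : ‖c‖ ≤ 1 / 8
  Q_le : ‖Q‖ ≤ 2 * K.m
  mem : φ ∈ V

/-- A holomorphic family of caps `τ0 + lam w • u`. -/
structure FamK (P V : Set ℂ) (K : ℂ → Cap) (m h : ℝ) (τ0 u lam : ℂ → ℂ) : Prop where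
  isOpen : IsOpen P
  ok : ∀ w ∈ P, (K w).OK V
  m_eq : ∀ w, (K w).m = m
  h_eq : ∀ w, (K w).h = h
  τ_eq : ∀ w ξ, (K w).τ ξ = τ0 ξ + lam w * u ξ
  τ0_hol : DifferentiableOn ℂ τ0 V
  u_hol : DifferentiableOn ℂ u V
  lam_hol : DifferentiableOn ℂ lam P

/-! The middle part. -/

def WW (ξ0 : ℝ → ℝ) (c Q : ℂ) (z : ℝ) : ℂ := (ξ0 z : ℂ) - Q * ((z : ℂ) - c) ^ 2
def amid (ξ0 : ℝ → ℝ) (zB zT : ℝ) (c Q : ℂ) : ℂ :=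
  ∫ z in zB..zT, 2 * Complex.sqrt (WW ξ0 c Q z)
def bmid (ξ0 : ℝ → ℝ) (zB zT : ℝ) (c Q : ℂ) : ℂ :=
  ∫ z in zB..zT, ((z : ℂ) - c) / Complex.sqrt (WW ξ0 c Q z)
def emid (ξ0 : ℝ → ℝ) (zB zT : ℝ) (c Q : ℂ) : ℂ :=
  -∫ z in zB..zT, ((z : ℂ) - c) ^ 2 / Complex.sqrt (WW ξ0 c Q z)

structure MidOK (ξ0 : ℝ → ℝ) (zB zT : ℝ) (c Q : ℂ) : Prop where
  c_le : ‖c‖ ≤ 1 / 8
  Q_le : ‖Q‖ ≤ 1 / 50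
  pos : ∀ z ∈ Icc zB zT, 0 < (WW ξ0 c Q z).re
  low : ∀ z ∈ Icc zB zT, (zT - z) * (z - zB) / 10 ≤ (WW ξ0 c Q z).re

/-! The Abel operators. -/

def Ml (f : ℂ → ℂ) (y : ℂ) : ℂ :=
  ∫ r in (0 : ℝ)..1, ((r * √r * (√(1 - r))⁻¹ : ℝ) : ℂ) * f (r * y)

open Classical in
def EE (f : ℂ → ℂ) (y : ℂ) : ℂ :=
  if y = 0 then 0 else 2 / (Real.pi : ℂ) * deriv (deriv fun y => y ^ 2 * Ml f y) y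

def nu (u : ℂ → ℂ) : ℂ := ∫ r in (0 : ℝ)..1, ((√(1 - r) : ℝ) : ℂ) * u r

/-! The data of the base body and the machine. -/

structure Data where
  m : ℝ
  t : ℝ
  hT : ℝ
  hB : ℝ
  τT : ℂ → ℂ
  τB : ℂ → ℂ
  ξ0 : ℝ → ℝ
  dξ0 : ℝ → ℝ
  zB : ℝ
  zT : ℝ
  th0 : ℂ → ℂ
  M2 : ℂ → ℂ
  a : ℝ
  κ : ℝ
  Q1 : ℝ
  Qs : ℝ

def ph (x θ : ℂ) : ℂ := 1 - (1 - x) * θ ^ 2

/-- the weight for the equation -/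
def wF (x : ℂ) : ℝ := ‖x‖ ^ 8 * ‖x * Complex.sqrt x‖

namespace Data

variable (D : Data)

def capT (v : ℂ → ℂ) : Cap := ⟨D.m, D.hT, fun ξ => D.τT ξ + v ξ⟩
def capB (v : ℂ → ℂ) : Cap := ⟨D.m, D.hB, fun ξ => D.τB ξ - v ξ⟩
def YY (v : ℂ → ℂ) (x θ : ℂ) : ℂ :=
  ((D.capT v).ZZ (ph x θ) + (D.capB v).ZZ x) / (θ * (D.capT v).sg (ph x θ) + (D.capB v).sg x)
def cc (v : ℂ → ℂ) (x θ : ℂ) : ℂ :=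
  (D.capT v).ZZ (ph x θ) - θ * (D.capT v).sg (ph x θ) * D.YY v x θ
def QQ (v : ℂ → ℂ) (x θ : ℂ) : ℂ := D.m * (1 - x) / D.YY v x θ ^ 2
def aa (v : ℂ → ℂ) (x θ : ℂ) : ℂ :=
  (D.capT v).acap (D.cc v x θ) (D.QQ v x θ) (ph x θ) +
    (D.capB v).acap (-D.cc v x θ) (D.QQ v x θ) x + amid D.ξ0 D.zB D.zT (D.cc v x θ) (D.QQ v x θ)
def bb (v : ℂ → ℂ) (x θ : ℂ) : ℂ :=
  (D.capT v).bcap (D.cc v x θ) (D.QQ v x θ) (ph x θ) -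
    (D.capB v).bcap (-D.cc v x θ) (D.QQ v x θ) x + bmid D.ξ0 D.zB D.zT (D.cc v x θ) (D.QQ v x θ)
def ee (v : ℂ → ℂ) (x θ : ℂ) : ℂ :=
  (D.capT v).ecap (D.cc v x θ) (D.QQ v x θ) (ph x θ) +
    (D.capB v).ecap (-D.cc v x θ) (D.QQ v x θ) x + emid D.ξ0 D.zB D.zT (D.cc v x θ) (D.QQ v x θ)
def XiG (v : ℂ → ℂ) (x θ : ℂ) : ℂ :=
  (ph x θ / x) ^ 8 * (ph x θ * Complex.sqrt (ph x θ) / (x * Complex.sqrt x)) * θ ^ 2 *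
    (D.capT v).ka (D.cc v x θ) (D.QQ v x θ) (ph x θ) (ph x θ) /
    (D.capB v).ka (-D.cc v x θ) (D.QQ v x θ) x x
def rho : ℝ := D.t / 1000
def BB (v : ℂ → ℂ) (x e : ℂ) : ℂ :=
  e - D.bb v x (D.th0 x + D.rho * x ^ 2 * e) / (Real.pi / 2 * (D.rho * x ^ 2))
/-- the critical plane with bottom tip `x` -/
def th (v : ℂ → ℂ) (x : ℂ) : ℂ := D.th0 x + D.rho * x ^ 2 * root (D.BB v x)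
def φ (v : ℂ → ℂ) (x : ℂ) : ℂ := ph x (D.th v x)
def c (v : ℂ → ℂ) (x : ℂ) : ℂ := D.cc v x (D.th v x)
def Q (v : ℂ → ℂ) (x : ℂ) : ℂ := D.QQ v x (D.th v x)
def FF (v : ℂ → ℂ) (x : ℂ) : ℂ := D.aa v x (D.th v x) - D.M2 (D.Q v x)
def EH (v : ℂ → ℂ) (x : ℂ) : ℂ := D.ee v x (D.th v x) - deriv D.M2 (D.Q v x)
def Xi (v : ℂ → ℂ) (x : ℂ) : ℂ := D.XiG v x (D.th v x)
def kaT (v : ℂ → ℂ) (x ξ : ℂ) : ℂ := (D.capT v).ka (D.c v x) (D.Q v x) (D.φ v x) ξ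
def kaB (v : ℂ → ℂ) (x ξ : ℂ) : ℂ := (D.capB v).ka (-D.c v x) (D.Q v x) x ξ
def kT (v : ℂ → ℂ) (x z : ℂ) : ℂ := D.kaT v x (z * D.φ v x)
def kB (v : ℂ → ℂ) (x z : ℂ) : ℂ := D.kaB v x (z * x)
def LL (v u : ℂ → ℂ) (x : ℂ) : ℂ :=
  ((D.m * √D.m / 2 : ℝ) : ℂ) * ((D.capB v).lcap (-D.c v x) (D.Q v x) x u -
    (D.capT v).lcap (D.c v x) (D.Q v x) (D.φ v x) u)
def rbody (v : ℂ → ℂ) : RBody := ⟨(D.capT v).toR, (D.capB v).toR, D.ξ0, D.dξ0, D.zB, D.zT⟩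

/-- Elementary analytic facts about the base. -/
structure An0 (R : ℝ) : Prop where
  m_pos : 0 < D.m
  m_le : D.m ≤ 1 / 200
  t_pos : 0 < D.t
  t_le : D.t ≤ 1 / 100
  R_ge : 4 ≤ R
  R_le : D.m * R ≤ 1 / 100
  τT_hol : DifferentiableOn ℂ D.τT (ball 0 R)
  τB_hol : DifferentiableOn ℂ D.τB (ball 0 R)
  τT0 : ∀ ξ ∈ ball (0 : ℂ) R, ‖D.τT ξ - 1‖ ≤ 1 / 200
  τB0 : ∀ ξ ∈ ball (0 : ℂ) R, ‖D.τB ξ - 1‖ ≤ 1 / 200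
  τT1 : ∀ ξ ∈ ball (0 : ℂ) R, ‖deriv D.τT ξ‖ ≤ 1 / 200
  τB1 : ∀ ξ ∈ ball (0 : ℂ) R, ‖deriv D.τB ξ‖ ≤ 1 / 200
  τT_real : ∀ ξ ∈ ball (0 : ℂ) R, ξ.im = 0 → (D.τT ξ).im = 0
  τB_real : ∀ ξ ∈ ball (0 : ℂ) R, ξ.im = 0 → (D.τB ξ).im = 0
  hT1 : |D.hT - 1| ≤ 1 / 100
  hB1 : |D.hB - 1| ≤ 1 / 100
  th0_hol : DifferentiableOn ℂ D.th0 (U (1 / 4))
  th0_real : ∀ x ∈ U (1 / 4), x.im = 0 → (D.th0 x).im = 0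
  th0_le : ∀ x ∈ U (1 / 4), ‖D.th0 x - 1‖ ≤ 1 / 200
  inv : ∀ s ∈ Icc (1 / 8 : ℝ) (1 / 4), ∀ x ∈ U s, ∀ d : ℂ, ‖d‖ ≤ D.rho * ‖x‖ ^ 2 →
    ph x (D.th0 x + d) ∈ U s ∧ ‖ph x (D.th0 x + d) - x‖ ≤ ‖x‖ / 10
  zT_eq : (D.zT : ℂ) = D.hT - D.m * Complex.sqrt (D.τT 0)
  zB_eq : (D.zB : ℂ) = -(D.hB - D.m * Complex.sqrt (D.τB 0))
  ξT : (D.ξ0 D.zT : ℂ) = D.m * D.τT 0
  ξB : (D.ξ0 D.zB : ℂ) = D.m * D.τB 0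
  cont : Continuous D.ξ0
  ξ0_le : ∀ z ∈ Icc D.zB D.zT, |D.ξ0 z| ≤ 2
  mid : ∀ c Q : ℂ, ‖c‖ ≤ 1 / 8 → ‖Q‖ ≤ 1 / 50 → 0 < (WW D.ξ0 c Q D.zT).re →
    0 < (WW D.ξ0 c Q D.zB).re → MidOK D.ξ0 D.zB D.zT c Q
  M2_hol : DifferentiableOn ℂ D.M2 (ball 0 (3 * D.m))
  M2_bdd : ∃ C : ℝ, ∀ Q ∈ ball (0 : ℂ) (3 * D.m), ‖D.M2 Q‖ ≤ C
  M2_real : ∀ Q ∈ ball (0 : ℂ) (3 * D.m), Q.im = 0 → (D.M2 Q).im = 0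

/-- All analytic facts about the base. -/
structure An (R e : ℝ) : Prop extends D.An0 R where
  e_le : e ≤ D.t * R / 1000000
  zeT : ∀ x ∈ U (1 / 4), ∀ ξ ∈ ball (0 : ℂ) R, ‖(D.capT 0).ze1 (D.cc 0 x (D.th0 x)) ξ‖ ≤ e
  zeB : ∀ x ∈ U (1 / 4), ∀ ξ ∈ ball (0 : ℂ) R, ‖(D.capB 0).ze1 (-D.cc 0 x (D.th0 x)) ξ‖ ≤ e
  bb0 : ∀ x ∈ U (1 / 4), ∀ d : ℂ, ‖d‖ ≤ D.rho * ‖x‖ ^ 2 →
    ‖D.bb 0 x (D.th0 x + d) - Real.pi / 2 * d‖ ≤ Real.pi / 32 * ‖d‖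
  aa0 : ∀ x ∈ U (1 / 4), D.aa 0 x (D.th0 x) = D.M2 (D.QQ 0 x (D.th0 x))
  con : ∀ x ∈ U (1 / 4), ‖D.XiG 0 x (D.th0 x)‖ ≤ 1 - D.t / 2
  Q0 : ∀ x ∈ U (1 / 4), D.m / 2 ≤ ‖deriv (fun x => D.QQ 0 x (D.th0 x)) x‖

/-- A critical section of the base whose tips lie in the middle part. -/
def MidSec (Q : ℝ) : Prop := ∃ c zb zt : ℝ, D.zB ≤ zb ∧ zb < 0 ∧ D.a < zt ∧ zt ≤ D.zT ∧
  D.ξ0 zb - Q * (zb - c) ^ 2 = 0 ∧ D.ξ0 zt - Q * (zt - c) ^ 2 = 0 ∧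
  (∀ z ∈ Ioo zb zt, 0 < D.ξ0 z - Q * (z - c) ^ 2) ∧
  IntervalIntegrable (fun z => 1 / √(D.ξ0 z - Q * (z - c) ^ 2)) volume zb zt ∧
  ∫ z in zb..zt, (z - c) / √(D.ξ0 z - Q * (z - c) ^ 2) = 0

/-- Real geometric facts about the base. -/
structure Ge : Prop where
  a_pos : 0 < D.a
  a_lt : D.a < D.zT
  sup : ∀ z z0 : ℝ, D.ξ0 z ≤ D.ξ0 z0 + D.dξ0 z0 * (z - z0)
  der : ∀ z : ℝ, z ≠ D.a → HasDerivAt D.ξ0 (D.dξ0 z) z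
  dcont1 : ContinuousOn D.dξ0 (Iio D.a)
  dcont2 : ContinuousOn D.dξ0 (Ioi D.a)
  dbdd : ∀ z ∈ Icc (-2 : ℝ) 2, |D.dξ0 z| ≤ 5
  τT' : ∀ r ∈ Icc (0 : ℝ) 1, D.m / 2 ≤ (deriv D.τT r).re
  τB' : ∀ r ∈ Icc (0 : ℝ) 1, D.m / 2 ≤ (deriv D.τB r).re
  tan : (D.rbody 0).Tan
  κ_pos : 0 < D.κ
  κ_le : D.κ ≤ D.m / 100
  ball : ∀ z : ℝ, |z| ≤ 11 / 10 → 1 - z ^ 2 ≤ D.ξ0 z ∧ D.ξ0 z ≤ 1 - z ^ 2 + D.κ / 2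
  low : ∀ z : ℝ, z ≤ 0 → D.ξ0 z = 1 - z ^ 2
  d0 : D.dξ0 0 = 0
  lt_one : ∀ z : ℝ, z ≠ 0 → D.ξ0 z < 1
  zone : ∀ z ∈ Ioc 0 D.a, 1 - z ^ 2 < D.ξ0 z
  τB_eq : ∀ r ∈ Icc (0 : ℝ) 1, D.τB r * (1 + D.m * (1 - r)) = 1
  Q1_lim : Tendsto (fun r : ℝ => D.QQ 0 r (D.th0 r)) (𝓝[>] 0) (𝓝 (D.Q1 : ℂ))
  Qs_ge : 3 / 2 * D.m ≤ D.Qs
  midsec : ∀ Q ∈ Icc D.Q1 D.Qs, D.MidSec Q

end Data

/-- Weighted smallness on a truncated triangle. -/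
structure Wt (v : ℂ → ℂ) (s R ω : ℝ) : Prop where
  hol : DifferentiableOn ℂ v (U s)
  b0 : ∀ ξ ∈ U s, ‖ξ‖ < R → ‖v ξ‖ ≤ ω * ‖ξ‖ ^ 3
  b1 : ∀ ξ ∈ U s, ‖ξ‖ < R → ‖deriv v ξ‖ ≤ ω * ‖ξ‖ ^ 2

/-- An admissible state: perturbation `v`, bottom tip `x`. -/
structure State (v : ℂ → ℂ) (s R ω : ℝ) (x : ℂ) : Prop where
  s_ge : 1 / 8 ≤ s
  s_le : s ≤ 1 / 4
  mem : x ∈ U s
  R_ge : 3 * ‖x‖ ≤ 2 * R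
  wt : Wt v s R ω

/-- A holomorphic family of states. -/
structure FamS (P : Set ℂ) (v u lam x : ℂ → ℂ) (s R ω : ℝ) : Prop where
  isOpen : IsOpen P
  v_hol : DifferentiableOn ℂ v (U s)
  u_hol : DifferentiableOn ℂ u (U s)
  lam_hol : DifferentiableOn ℂ lam P
  x_hol : DifferentiableOn ℂ x P
  st : ∀ w ∈ P, State (fun ξ => v ξ + lam w * u ξ) s R ω (x w)

def IsRe (v : ℂ → ℂ) (s : ℝ) : Prop := ∀ ξ ∈ U s, ξ.im = 0 → (v ξ).im = 0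

namespace Data

variable (D : Data)

/-- Facts about one state. -/
structure StFacts (v : ℂ → ℂ) (s R C : ℝ) (x : ℂ) : Prop where
  okT : (D.capT v).OK (U s ∩ ball 0 R)
  okB : (D.capB v).OK (U s ∩ ball 0 R)
  th_le : ‖D.th v x - D.th0 x‖ ≤ D.rho * ‖x‖ ^ 2
  th_one : ‖D.th v x - 1‖ ≤ 1 / 100
  bb_eq : D.bb v x (D.th v x) = 0
  plT : (D.capT v).Pl (U s ∩ ball 0 R) (D.c v x) (D.Q v x) (D.φ v x)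
  plB : (D.capB v).Pl (U s ∩ ball 0 R) (-D.c v x) (D.Q v x) x
  φ_le : ‖D.φ v x - x‖ ≤ ‖x‖ / 10
  Q_le : ‖D.Q v x‖ ≤ 2 * D.m * ‖1 - x‖
  tipT : (D.capT v).mm (D.φ v x) = D.Q v x * (D.capT v).ze (D.c v x) (D.φ v x) ^ 2
  tipB : (D.capB v).mm x = D.Q v x * (D.capB v).ze (-D.c v x) x ^ 2
  mid : MidOK D.ξ0 D.zB D.zT (D.c v x) (D.Q v x)
  F_le : ‖D.FF v x‖ ≤ C
  Xi_le : ‖D.Xi v x‖ ≤ 5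
  kaT_le : ∀ ξ ∈ U s ∩ ball 0 R, ‖D.kaT v x ξ - 1‖ ≤ ‖1 - x‖ / 4
  kaB_le : ∀ ξ ∈ U s ∩ ball 0 R, ‖D.kaB v x ξ - 1‖ ≤ ‖1 - x‖ / 4
  real : IsRe v s → x.im = 0 → (D.th v x).im = 0 ∧ (D.c v x).im = 0 ∧ (D.Q v x).im = 0 ∧
    0 ≤ (D.Q v x).re * (1 - x.re) ∧ (D.FF v x).im = 0 ∧
    ∀ ξ ∈ U s ∩ ball 0 R, ξ.im = 0 → (D.kaT v x ξ).im = 0 ∧ (D.kaB v x ξ).im = 0
  pole : x = 1 → D.FF v x = 0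

/-- Facts about a holomorphic family of states. -/
structure FamFacts (P : Set ℂ) (v u lam x : ℂ → ℂ) (s R : ℝ) : Prop where
  th_hol : DifferentiableOn ℂ (fun w => D.th (fun ξ => v ξ + lam w * u ξ) (x w)) P
  Q_hol : DifferentiableOn ℂ (fun w => D.Q (fun ξ => v ξ + lam w * u ξ) (x w)) P
  φ_hol : DifferentiableOn ℂ (fun w => D.φ (fun ξ => v ξ + lam w * u ξ) (x w)) P
  F_hol : DifferentiableOn ℂ (fun w => D.FF (fun ξ => v ξ + lam w * u ξ) (x w)) P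
  Xi_hol : DifferentiableOn ℂ (fun w => D.Xi (fun ξ => v ξ + lam w * u ξ) (x w)) P
  ka_hol : ∀ y : ℂ → ℂ, DifferentiableOn ℂ y P → (∀ w ∈ P, y w ∈ U s ∩ ball 0 R) →
    DifferentiableOn ℂ (fun w => D.kaT (fun ξ => v ξ + lam w * u ξ) (x w) (y w)) P ∧
    DifferentiableOn ℂ (fun w => D.kaB (fun ξ => v ξ + lam w * u ξ) (x w) (y w)) P
  F_der : ∀ A : ℝ, (∀ ξ ∈ U s, ‖u ξ‖ ≤ A * ‖ξ‖) → ∀ w ∈ P,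
    deriv (fun w => D.FF (fun ξ => v ξ + lam w * u ξ) (x w)) w =
      deriv lam w * D.LL (fun ξ => v ξ + lam w * u ξ) u (x w) +
      deriv (fun w => D.Q (fun ξ => v ξ + lam w * u ξ) (x w)) w *
        D.EH (fun ξ => v ξ + lam w * u ξ) (x w)

/-- The output of the family step. -/
structure Machine (ω C : ℝ) : Prop where
  ω_pos : 0 < ω
  ω_le : ω ≤ 1 / 1000
  C_ge : 1 ≤ C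
  st : ∀ v s R x, State v s R ω x → D.StFacts v s R C x
  fam : ∀ P v u lam x s R, FamS P v u lam x s R ω → D.FamFacts P v u lam x s R
  th_zero : ∀ x ∈ U (1 / 4), D.th 0 x = D.th0 x

/-- The invariant of the Newton iteration. -/
structure Good (v : ℂ → ℂ) (s θ ε : ℝ) : Prop where
  hol : DifferentiableOn ℂ v (U s)
  zero : v 0 = 0
  real : IsRe v s
  b0 : ∀ ξ ∈ U s, ‖v ξ‖ ≤ θ * ‖ξ‖ ^ 8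
  b1 : ∀ ξ ∈ U s, ‖deriv v ξ‖ ≤ θ * ‖ξ‖ ^ 7
  gT1 : ∀ x ∈ U s, ∀ r ∈ Ioc (0 : ℝ) 1,
    ‖(r : ℂ) * deriv (D.kT v x) r‖ ≤ (D.t / 500 + θ) * ‖1 - x‖
  gT2 : ∀ x ∈ U s, ∀ r ∈ Ioc (0 : ℝ) 1,
    ‖(r : ℂ) ^ 2 * deriv (deriv (D.kT v x)) r‖ ≤ (D.t / 500 + θ) * ‖1 - x‖
  gB1 : ∀ x ∈ U s, ∀ r ∈ Ioc (0 : ℝ) 1,
    ‖(r : ℂ) * deriv (D.kB v x) r‖ ≤ (D.t / 500 + θ) * ‖1 - x‖
  gB2 : ∀ x ∈ U s, ∀ r ∈ Ioc (0 : ℝ) 1,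
    ‖(r : ℂ) ^ 2 * deriv (deriv (D.kB v x)) r‖ ≤ (D.t / 500 + θ) * ‖1 - x‖
  gQ : ∀ x ∈ U s, D.m / 2 - θ ≤ ‖deriv (D.Q v) x‖
  F : ∀ x ∈ U s, ‖D.FF v x‖ ≤ ε * wF x

/-- Stability of the invariant under a small perturbation. -/
structure StabFacts (θ1 C1 : ℝ) : Prop where
  θ_pos : 0 < θ1
  C_ge : 1 ≤ C1
  lbd : ∀ v s θ ε u A, 1 / 8 ≤ s → s ≤ 1 / 4 → D.Good v s θ ε → 0 ≤ θ → θ ≤ θ1 →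
    DifferentiableOn ℂ u (U s) → (∀ ξ ∈ U s, ‖u ξ‖ ≤ A * ‖ξ‖ ^ 8) →
    ∀ x ∈ U s, ‖D.LL v u x‖ ≤ C1 * A * wF x
  stab : ∀ v s s' θ ε u A ε', 1 / 8 ≤ s' → s' < s → s ≤ 1 / 4 → D.Good v s θ ε → 0 ≤ θ → θ ≤ θ1 →
    0 ≤ ε → DifferentiableOn ℂ u (U s) → u 0 = 0 → IsRe u s → 0 ≤ A →
    (∀ ξ ∈ U s, ‖u ξ‖ ≤ A * ‖ξ‖ ^ 8) → C1 * A ≤ s - s' →
    (∀ x ∈ U s', ‖D.FF v x + D.LL v u x‖ ≤ ε' * wF x) →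
    D.Good (v + u) s' (θ + C1 * A / (s - s') ^ 3) (ε' + C1 * (A ^ 2 + ε * A) / (s - s') ^ 2)

/-- Solution of the linearised equation. -/
structure SolveFacts (θ2 C2 : ℝ) : Prop where
  θ_pos : 0 < θ2
  C_ge : 1 ≤ C2
  solve : ∀ v s s' θ ε, 1 / 8 ≤ s' → s' < s → s ≤ 1 / 4 → D.Good v s θ ε → 0 ≤ θ → θ ≤ θ2 →
    0 ≤ ε → ∃ u : ℂ → ℂ, DifferentiableOn ℂ u (U s) ∧ u 0 = 0 ∧ IsRe u s ∧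
      (∀ ξ ∈ U s', ‖u ξ‖ ≤ C2 * ε / (s - s') ^ 2 * ‖ξ‖ ^ 8) ∧ nu u = 0 ∧
      ∀ x ∈ U s, D.FF v x + D.LL v u x = 0

end Data

/-! Statements. -/

/-- A1: the middle part. -/
def StmtMid : Prop := ∀ (ξ0 : ℝ → ℝ) (zB zT : ℝ), Continuous ξ0 → -2 ≤ zB → zB < zT → zT ≤ 2 →
  (∀ z ∈ Icc zB zT, |ξ0 z| ≤ 2) →
  (∃ C : ℝ, ∀ c Q : ℂ, MidOK ξ0 zB zT c Q → ‖amid ξ0 zB zT c Q‖ ≤ C ∧ ‖bmid ξ0 zB zT c Q‖ ≤ C) ∧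
  (∀ c Q : ℝ, MidOK ξ0 zB zT c Q →
    amid ξ0 zB zT c Q = ((∫ z in zB..zT, 2 * √(ξ0 z - Q * (z - c) ^ 2) : ℝ) : ℂ) ∧
    bmid ξ0 zB zT c Q = ((∫ z in zB..zT, (z - c) / √(ξ0 z - Q * (z - c) ^ 2) : ℝ) : ℂ)) ∧
  (∀ (P : Set ℂ) (c Q : ℂ → ℂ), IsOpen P → DifferentiableOn ℂ c P → DifferentiableOn ℂ Q P →
    (∀ w ∈ P, MidOK ξ0 zB zT (c w) (Q w)) →
    DifferentiableOn ℂ (fun w => bmid ξ0 zB zT (c w) (Q w)) P ∧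
    ∀ w ∈ P, HasDerivAt (fun w => amid ξ0 zB zT (c w) (Q w))
      (deriv c w * (2 * Q w * bmid ξ0 zB zT (c w) (Q w)) +
        deriv Q w * emid ξ0 zB zT (c w) (Q w)) w)

/-- A2: the Abel operators. -/
def StmtAbel : Prop := ∀ (f : ℂ → ℂ) (s A : ℝ), 0 < s → s ≤ 1 / 4 →
  DifferentiableOn ℂ f (U s) → (∀ y ∈ U s, ‖f y‖ ≤ A * ‖y‖ ^ 8) →
  DifferentiableOn ℂ (EE f) (U s) ∧ EE f 0 = 0 ∧ (IsRe f s → IsRe (EE f) s) ∧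
  (∀ s', 0 ≤ s' → s' < s → ∀ y ∈ U s', ‖EE f y‖ ≤ 300 * A / (s - s') ^ 2 * ‖y‖ ^ 8) ∧
  (∀ (g : ℂ → ℂ) (B : ℝ), DifferentiableOn ℂ g (U s) → (∀ y ∈ U s, ‖g y‖ ≤ B * ‖y‖ ^ 8) →
    ∀ y ∈ U s, EE (f + g) y = EE f y + EE g y) ∧
  (∀ φ ∈ U s, ∀ (k : ℂ → ℂ) (Θ : ℝ), (∀ r ∈ Ioc (0 : ℝ) 1, AnalyticAt ℂ k r) →
    (∀ r ∈ Ioc (0 : ℝ) 1, ‖(r : ℂ) * deriv k r‖ ≤ Θ) →
    (∀ r ∈ Ioc (0 : ℝ) 1, ‖(r : ℂ) ^ 2 * deriv (deriv k) r‖ ≤ Θ) →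
    ‖(∫ r in (0 : ℝ)..1, ((√(1 - r) : ℝ) : ℂ) * (EE f (r * φ) * k r)) - k 1 * f φ‖ ≤
      6 * Θ * A * ‖φ‖ ^ 8)

/-- A3: the derivative of the cap area along a family of planes through a moving tip. -/
def StmtCapDer : Prop := ∀ (P V : Set ℂ) (K : ℂ → Cap) (m h A : ℝ) (τ0 u lam c Q φ : ℂ → ℂ),
  FamK P V K m h τ0 u lam → DifferentiableOn ℂ c P → DifferentiableOn ℂ Q P →
  DifferentiableOn ℂ φ P → (∀ w ∈ P, (K w).Pl V (c w) (Q w) (φ w)) → (∀ w ∈ P, 0 < (φ w).re) →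
  (∀ w ∈ P, (K w).mm (φ w) = Q w * (K w).ze (c w) (φ w) ^ 2) → (∀ ξ ∈ V, ‖u ξ‖ ≤ A * ‖ξ‖) →
  ∀ w ∈ P, deriv (fun w => (K w).acap (c w) (Q w) (φ w)) w =
    deriv lam w * (-((m * √m / 2 : ℝ) : ℂ) * (K w).lcap (c w) (Q w) (φ w) u) +
    deriv c w * (2 * Q w * (K w).bcap (c w) (Q w) (φ w)) +
    deriv Q w * (K w).ecap (c w) (Q w) (φ w)

/-- A4 -/
def StmtMachine : Prop := ∀ (D : Data) (R e : ℝ), D.An R e → ∃ ω C, D.Machine ω C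

/-- A5 -/
def StmtGood0 : Prop := ∀ (D : Data) (R e ω C : ℝ), D.An R e → D.Machine ω C →
  D.Good 0 (1 / 4) 0 0

/-- A6 -/
def StmtStab : Prop := ∀ (D : Data) (R e ω C : ℝ), D.An R e → D.Machine ω C →
  ∃ θ1 C1, D.StabFacts θ1 C1

/-- A7 -/
def StmtSolve : Prop := ∀ (D : Data) (R e ω C : ℝ), D.An R e → D.Machine ω C →
  ∃ θ2 C2, D.SolveFacts θ2 C2

/-- A8 -/
def StmtNewton : Prop := ∀ (D : Data) (θ1 C1 θ2 C2 : ℝ), D.Good 0 (1 / 4) 0 0 →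
  D.StabFacts θ1 C1 → D.SolveFacts θ2 C2 → ∀ θ3 : ℝ, 0 < θ3 →
  ∃ (v : ℂ → ℂ) (θ : ℝ), 0 ≤ θ ∧ θ ≤ θ3 ∧ D.Good v (1 / 8) θ 0 ∧ nu v ≠ 0

/-- A9: real caps. -/
def StmtBridge : Prop := ∀ (K : Cap) (V : Set ℂ), K.OK V → (∀ r ∈ Ioc (0 : ℝ) 1, (r : ℂ) ∈ V) →
  (∀ ξ ∈ V, ξ.im = 0 → (K.τ ξ).im = 0) → ContinuousOn (fun r : ℝ => K.τ r) (Icc 0 1) →
  ((∀ r ∈ Ioo (0 : ℝ) 1, 0 ≤ (deriv K.τ r).re) → K.toR.OK) ∧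
  (∀ r ∈ Icc (0 : ℝ) 1, ((K.toR.σ r : ℝ) : ℂ) = K.sg r ∧ ((K.toR.Z r : ℝ) : ℂ) = K.ZZ r ∧
    ((K.toR.σ r ^ 2 : ℝ) : ℂ) = K.τ r) ∧
  ∀ c Q φ : ℝ, φ ∈ Ioc (0 : ℝ) 1 → K.Pl V c Q φ → K.mm φ = Q * K.ze c φ ^ 2 →
    (∀ r ∈ Ico 0 φ, 0 < K.toR.T r - Q * (K.toR.Z r - c) ^ 2) ∧
    K.toR.T φ - Q * (K.toR.Z φ - c) ^ 2 = 0 ∧
    IntervalIntegrable (fun r => K.toR.Z' r / √(K.toR.T r - Q * (K.toR.Z r - c) ^ 2)) volume 0 φ ∧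
    K.acap c Q φ =
      ((∫ r in (0 : ℝ)..φ, 2 * √(K.toR.T r - Q * (K.toR.Z r - c) ^ 2) * K.toR.Z' r : ℝ) : ℂ) ∧
    K.bcap c Q φ = ((∫ r in (0 : ℝ)..φ,
      (K.toR.Z r - c) * K.toR.Z' r / √(K.toR.T r - Q * (K.toR.Z r - c) ^ 2) : ℝ) : ℂ)

end

end Pool.Agent.Lib.MP_87c84d_gt
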