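import Pool.Agent.Lib.MP_87c84d_gt.Newton

/-!
The Newton iteration with a free starting amplitude.
-/

namespace Pool.Agent.Lib.MP_87c84d_gt

open MeasureTheory Set Metric Filter Topology

noncomputable section

namespace Newton

/-- the starting point of the iteration -/
theorem start_fam {D : Data} {θ1 C1 a b : ℝ} (h0 : D.Good 0 (1 / 4) 0 0) (h1 : D.StabFacts θ1 C1)
    (ha : 0 < a) (hb : 0 < b) : ∃ δ0 : ℝ, 0 < δ0 ∧ ∀ δ : ℝ, 0 < δ → δ ≤ δ0 →
      D.Good (fun ξ => (δ : ℂ) * ξ ^ 8) (7 / 32) a b := by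
  have c1 := h1.C_ge
  have c0 : 0 < C1 := by linarith
  obtain ⟨γ, γ0, γ1, γ2, γ3⟩ : ∃ γ : ℝ, 0 < γ ∧ γ ≤ 1 / 32 ∧ γ ≤ a / 32768 ∧ γ ≤ b / 1025 :=
    ⟨min (1 / 32) (min (a / 32768) (b / 1025)), by positivity, min_le_left _ _,
      (min_le_right _ _).trans (min_le_left _ _), (min_le_right _ _).trans (min_le_right _ _)⟩
  refine ⟨γ / C1, by positivity, fun δ δ0 hδ => ?_⟩
  have eδ : C1 * δ ≤ γ := by rwa [le_div_iff₀' c0] at hδ
  have δ1 : δ ≤ 1 := by nlinarith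
  have p0 : 0 < C1 * δ := by positivity
  have hu : DifferentiableOn ℂ (fun ξ : ℂ => (δ : ℂ) * ξ ^ 8) (U (1 / 4)) := by fun_prop
  have hb' : ∀ ξ ∈ U (1 / 4), ‖(δ : ℂ) * ξ ^ 8‖ ≤ δ * ‖ξ‖ ^ 8 := fun ξ _ => by
    rw [norm_mul, norm_pow, Complex.norm_real, Real.norm_eq_abs, abs_of_pos δ0]
  have hU : U (7 / 32) ⊆ U (1 / 4) := U.mono (by norm_num) (by norm_num)
  have hs := h1.stab 0 (1 / 4) (7 / 32) 0 0 (fun ξ : ℂ => (δ : ℂ) * ξ ^ 8) δ (C1 * δ)
    (by norm_num) (by norm_num) le_rfl h0 le_rfl h1.θ_pos.le le_rfl hu (by simp)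
    (fun ξ _ hi => by
      have : ξ = (ξ.re : ℂ) := Complex.ext (by simp) (by simp [hi])
      show ((δ : ℂ) * ξ ^ 8).im = 0
      rw [this, ← Complex.ofReal_pow, ← Complex.ofReal_mul, Complex.ofReal_im])
    δ0.le hb' (by linarith)
    (fun x hx => by
      have a1 := h0.F x (hU hx)
      rw [zero_mul, norm_le_zero_iff] at a1
      rw [a1, zero_add]
      exact h1.lbd 0 (1 / 4) 0 0 _ δ (by norm_num) le_rfl h0 le_rfl h1.θ_pos.le hu hb' x (hU hx))
  rw [zero_add] at hs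
  refine good_mono hs (by norm_num) le_rfl ?_ ?_
  · generalize C1 * δ = g at eδ p0 ⊢
    norm_num
    linarith
  · rw [zero_mul, add_zero, show C1 * δ ^ 2 = C1 * δ * δ by ring]
    generalize C1 * δ = g at eδ p0 ⊢
    norm_num
    nlinarith

theorem nu_smul (δ : ℝ) : nu (fun ξ => (δ : ℂ) * ξ ^ 8) = δ * nu fun ξ => ((1 : ℝ) : ℂ) * ξ ^ 8 := by
  unfold nu
  rw [← intervalIntegral.integral_const_mul]
  congr 1
  funext r
  push_cast
  ring

end Newton

open Newton in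
theorem newton_fam (D : Data) (θ1 C1 θ2 C2 : ℝ) (h0 : D.Good 0 (1 / 4) 0 0)
    (h1 : D.StabFacts θ1 C1) (h2 : D.SolveFacts θ2 C2) (θ3 : ℝ) (hθ3 : 0 < θ3) :
    ∃ θ δ0 : ℝ, 0 ≤ θ ∧ θ ≤ θ3 ∧ 0 < δ0 ∧ ∀ δ : ℝ, 0 < δ → δ ≤ δ0 →
      ∃ v : ℂ → ℂ, D.Good v (1 / 8) θ 0 ∧ nu v = nu fun ξ => (δ : ℂ) * ξ ^ 8 := by
  have c1 := h1.C_ge
  have c2 := h2.C_ge
  obtain ⟨θm, m0, m1, m2, m3⟩ : ∃ θm : ℝ, 0 < θm ∧ θm ≤ θ1 ∧ θm ≤ θ2 ∧ θm ≤ θ3 :=
    ⟨min θ1 (min θ2 θ3), lt_min h1.θ_pos (lt_min h2.θ_pos hθ3), min_le_left _ _,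
      (min_le_right _ _).trans (min_le_left _ _), (min_le_right _ _).trans (min_le_right _ _)⟩
  obtain ⟨η, η0, e1, e2⟩ : ∃ η : ℝ, 0 < η ∧ 2 * C1 * C2 ^ 2 * η ≤ 1 ∧
      128 * (C1 * C2 * η) ≤ θm := by
    have p1 : 0 < 2 * C1 * C2 ^ 2 := by positivity
    have p2 : 0 < 128 * (C1 * C2) := by positivity
    refine ⟨min (1 / (2 * C1 * C2 ^ 2)) (θm / (128 * (C1 * C2))), by positivity, ?_, ?_⟩
    · rw [← le_div_iff₀' p1]
      exact min_le_left _ _
    · rw [← mul_assoc 128, ← le_div_iff₀' p2]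
      exact min_le_right _ _
  obtain ⟨K, hK⟩ : ∃ K, K = C1 * C2 * η := ⟨_, rfl⟩
  have K0 : 0 < K := by rw [hK]; positivity
  have K1 : 2 * K * C2 ≤ 1 := by rw [hK]; linarith
  have K2 : 2 * K ≤ 1 := by nlinarith
  have e2' : 128 * K ≤ θm := hK ▸ e2
  let P : ℕ → (ℂ → ℂ) → Prop := fun n v =>
    D.Good v (3 / 16 + 4 * gap n) (θm / 2 - 2 * (C1 * C2 * η) * gap n) (η * gap n ^ 7)
  have hstep : ∀ n v, P n v → ∃ u : ℂ → ℂ, u 0 = 0 ∧
      Cls (U (3 / 16)) (fun ξ => ‖ξ‖ ^ 8) u (C2 * η * gap n) ∧ nu (v + u) = nu v ∧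
      P (n + 1) (v + u) := by
    intro n v hv
    obtain ⟨u, a1, a2, a3, a4⟩ := step h1 h2 m1 m2 η0 e1 e2 (gap_pos n) (gap_le n) hv
    refine ⟨u, a1, a2, a3, ?_⟩
    simp only [P, gap_succ]
    exact a4
  choose! W w1 w2 w3 w4 using hstep
  have g0 : gap 0 = 1 / 128 := by simp [gap]
  obtain ⟨δ0, hδ0, hst⟩ := start_fam (a := θm / 2 - 2 * (C1 * C2 * η) * gap 0)
    (b := η * gap 0 ^ 7) h0 h1 (by rw [g0, ← hK]; linarith) (by have := gap_pos 0; positivity)
  refine ⟨θm, δ0, m0.le, m3, hδ0, fun δ d0 d1 => ?_⟩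
  have hv0 := hst δ d0 d1
  generalize (fun ξ : ℂ => (δ : ℂ) * ξ ^ 8) = v0 at hv0 ⊢
  let v : ℕ → ℂ → ℂ := fun n => Nat.rec v0 (fun n w => w + W n w) n
  have vs : ∀ n, v (n + 1) = v n + W n (v n) := fun n => rfl
  have hP : ∀ n, P n (v n) := by
    intro n
    induction n with
    | zero =>
      have : (3 / 16 + 4 * gap 0 : ℝ) = 7 / 32 := by rw [g0]; norm_num
      simp only [P, this]
      exact hv0
    | succ n ih => exact w4 n _ ih
  have hn : ∀ n, nu (v n) = nu v0 := by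
    intro n
    induction n with
    | zero => rfl
    | succ n ih => rw [vs, w3 n _ (hP n), ih]
  let u : ℕ → ℂ → ℂ := fun n => W n (v n)
  have hsum : ∀ n ξ, v n ξ = v0 ξ + ∑ k ∈ Finset.range n, u k ξ := by
    intro n ξ
    induction n with
    | zero => simp [v]
    | succ n ih => rw [vs, Pi.add_apply, ih, Finset.sum_range_succ, add_assoc]
  let V : ℂ → ℂ := fun ξ => v0 ξ + ∑' k, u k ξ
  have hω : ∀ z ∈ U (3 / 16), 0 ≤ ‖z‖ ^ 8 ∧ ‖z‖ ^ 8 ≤ (13 / 10 : ℝ) ^ 8 := fun z hz =>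
    ⟨by positivity, pow_le_pow_left₀ (norm_nonneg _)
      (U.norm_lt (by norm_num) (by norm_num) hz).le 8⟩
  have tail : ∀ n, (∀ z ∈ U (3 / 16), Summable fun k => u (k + n) z) ∧
      Cls (U (3 / 16)) (fun ξ => ‖ξ‖ ^ 8) (fun z => ∑' k, u (k + n) z) (2 * C2 * η * gap n) := by
    intro n
    have gp := gap_pos n
    have := Cls.tsum (isOpen_U (3 / 16)) hω (d := fun k => u (k + n))
      (A := fun k => C2 * η * gap n * (1 / 2) ^ k) (fun k => by positivity)
      (summable_geometric_two.mul_left _) (fun k => by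
        have := w2 (k + n) _ (hP (k + n))
        rw [gap_add, ← mul_assoc] at this
        exact this)
    rw [tsum_mul_left, tsum_geometric_two] at this
    refine ⟨this.1, ?_⟩
    rw [show 2 * C2 * η * gap n = C2 * η * gap n * 2 by ring]
    exact this.2
  have hT : ∀ n, Cls (U (3 / 16)) (fun ξ => ‖ξ‖ ^ 8) (V - v n) (2 * C2 * η * gap n) := by
    intro n
    refine (tail n).2.congr fun z hz => ?_
    have s0 : Summable fun k => u k z := by simpa using (tail 0).1 z hz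
    simp only [Pi.sub_apply, V]
    rw [hsum n z, ← s0.sum_add_tsum_nat_add n]
    ring
  have hT0 : ∀ n, (V - v n) 0 = 0 := by
    intro n
    have a1 : ∀ k, u k 0 = 0 := fun k => w1 k _ (hP k)
    simp only [Pi.sub_apply, V, a1, tsum_zero, add_zero, hv0.zero, (hP n).zero, sub_self]
  have hG : ∀ n, D.Good (v n) (3 / 16) (θm / 2) (η * gap n ^ 7) := by
    intro n
    have gp := gap_pos n
    refine good_mono (hP n) (by norm_num) (by linarith) ?_ le_rfl
    rw [← hK]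
    nlinarith [mul_pos K0 gp]
  let f : ℝ → ℝ := fun d => η * d ^ 7 + C1 * (2 * C2 * η * d) +
    C1 * ((2 * C2 * η * d) ^ 2 + η * d ^ 7 * (2 * C2 * η * d)) / (3 / 16 - 1 / 8) ^ 2
  have hfin : ∀ n, D.Good V (1 / 8) θm (f (gap n)) := by
    intro n
    have gp := gap_pos n
    have gl := gap_le n
    have eK : C1 * (2 * C2 * η * gap n) = 2 * K * gap n := by rw [hK]; ring
    have hU : U (1 / 8) ⊆ U (3 / 16) := U.mono (by norm_num) (by norm_num)
    have hs := h1.stab (v n) (3 / 16) (1 / 8) _ _ (V - v n) (2 * C2 * η * gap n)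
      (η * gap n ^ 7 + C1 * (2 * C2 * η * gap n)) le_rfl (by norm_num) (by norm_num) (hG n)
      (by linarith) (by linarith) (by positivity) (hT n).hol (hT0 n) (hT n).real (by positivity)
      (hT n).bd (by rw [eK]; nlinarith)
      (fun x hx => by
        refine (norm_add_le _ _).trans ?_
        rw [add_mul]
        exact add_le_add ((hG n).F x (hU hx))
          (h1.lbd (v n) (3 / 16) _ _ _ _ (by norm_num) (by norm_num) (hG n) (by linarith)
            (by linarith) (hT n).hol (hT n).bd x (hU hx)))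
    rw [add_sub_cancel] at hs
    refine good_mono hs (by norm_num) le_rfl ?_ le_rfl
    rw [eK]
    norm_num
    nlinarith
  have hlim : Tendsto (fun n => f (gap n)) atTop (𝓝 0) := by
    have hc : Continuous f := by fun_prop
    have := (hc.tendsto 0).comp gap_lim
    have e : f 0 = 0 := by simp [f]
    rwa [e] at this
  refine ⟨V, { hfin 0 with F := fun x hx => ?_ }, ?_⟩
  · exact ge_of_tendsto' (hlim.mul_const (wF x)) fun n => (hfin n).F x hx
  · have e : nu V = nu v0 := by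
      rw [← sub_eq_zero, ← norm_le_zero_iff]
      have hl : Tendsto (fun n => 2 * C2 * η * gap n) atTop (𝓝 0) := by
        simpa using gap_lim.const_mul (2 * C2 * η)
      refine ge_of_tendsto' hl fun n => ?_
      have gp := gap_pos n
      have a1 := nu_add (s := 3 / 16) (by norm_num) (by linarith) (by positivity) (hG n).hol
        (hG n).b0 (hT n).hol (hT n).bd
      rw [add_sub_cancel, hn n] at a1
      rw [a1, add_sub_cancel_left]
      exact nu_le (s := 3 / 16) (by norm_num) (by positivity) (hT n).bd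
    exact e

end

end Pool.Agent.Lib.MP_87c84d_gt
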