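import Pool.Agent.Lib.MP_87c84d_gt.GeoNonCong

/-!
An isometry between two bodies with the same middle part fixes the origin and the axis.
-/

namespace Pool.Agent.Lib.MP_87c84d_gt

open Set

namespace GeoNonCong

lemma dir_eq2 (h1 : StmtMem) {R : RBody} (hR : R.OK) {a : ℝ} (ha : 0 < a) (haT : a ≤ R.zT)
    (hlt : ∀ z : ℝ, z ≠ 0 → R.ξ0 z < 1)
    (hgt : ∀ z ∈ Ioc 0 a, 1 - z ^ 2 < R.ξ0 z) {d : E3} (hd : ‖d‖ = 1)
    (hs : ∀ X ∈ body R.P, -(3 / 4) ≤ inner ℝ X d → inner ℝ X d ≤ 0 → ‖X‖ ≤ 1) :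
    d 0 = 0 ∧ d 1 = 0 ∧ d 2 = 1 := by
  have hd2 : d 0 ^ 2 + d 1 ^ 2 + d 2 ^ 2 = 1 := by rw [← norm_sq, hd]; norm_num
  have key : ∀ x y z : ℝ, z ∈ Ioc 0 a → x ^ 2 + y ^ 2 = R.ξ0 z →
      -(3 / 4) ≤ x * d 0 + y * d 1 + z * d 2 → 0 < x * d 0 + y * d 1 + z * d 2 := by
    intro x y z hz hxy hlow
    by_contra hle
    have hX : pt x y z ∈ body R.P :=
      (h1 R hR).1 z ⟨(hR.zB_neg.trans hz.1).le, hz.2.trans haT⟩ _ hxy.le
    have h2 := hs _ hX (by rw [inner_eq]; simpa using hlow)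
      (by rw [inner_eq]; simpa using not_lt.1 hle)
    rw [norm_le_one_iff] at h2
    simp only [pt0, pt1, pt2] at h2
    have := hgt z hz
    linarith
  have h5 : d 2 ≤ 1 := by nlinarith [sq_nonneg (d 0), sq_nonneg (d 1)]
  have h6 : -1 ≤ d 2 := by nlinarith [sq_nonneg (d 0), sq_nonneg (d 1)]
  by_cases hn : d 0 ^ 2 + d 1 ^ 2 = 0
  · have h0 : d 0 = 0 := by nlinarith [sq_nonneg (d 0), sq_nonneg (d 1)]
    have h1' : d 1 = 0 := by nlinarith [sq_nonneg (d 0), sq_nonneg (d 1)]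
    refine ⟨h0, h1', ?_⟩
    have hz : min a (1 / 2) ∈ Ioc 0 a := ⟨lt_min ha (by norm_num), min_le_left _ _⟩
    have hz2 : min a (1 / 2) ≤ 1 / 2 := min_le_right _ _
    have hr : 0 ≤ R.ξ0 (min a (1 / 2)) := by
      have := hgt _ hz
      nlinarith [hz.1]
    have h3 := key (√(R.ξ0 (min a (1 / 2)))) 0 _ hz (by rw [Real.sq_sqrt hr]; ring)
      (by rw [h0, h1']; nlinarith [hz.1])
    rw [h0, h1'] at h3
    have h4 : 0 < d 2 := by
      by_contra h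
      nlinarith [hz.1, not_lt.1 h]
    nlinarith
  · exfalso
    have hn0 : 0 < d 0 ^ 2 + d 1 ^ 2 := lt_of_le_of_ne (by positivity) (Ne.symm hn)
    obtain ⟨n, hnp, hn2⟩ : ∃ n : ℝ, 0 < n ∧ n ^ 2 = d 0 ^ 2 + d 1 ^ 2 :=
      ⟨_, Real.sqrt_pos.2 hn0, Real.sq_sqrt hn0.le⟩
    have hn1 : n ≤ 1 := by nlinarith [sq_nonneg (d 2)]
    obtain ⟨z, hz, hz2⟩ : ∃ z, z ∈ Ioc 0 a ∧ z ≤ n / 8 :=
      ⟨min a (n / 8), ⟨lt_min ha (by positivity), min_le_left _ _⟩, min_le_right _ _⟩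
    have hr : 1 / 4 ≤ R.ξ0 z := by
      have := hgt _ hz
      nlinarith [hz.1]
    have hr1 := hlt z hz.1.ne'
    obtain ⟨s, hs0, hs2⟩ : ∃ s : ℝ, 0 ≤ s ∧ s ^ 2 = R.ξ0 z :=
      ⟨_, Real.sqrt_nonneg _, Real.sq_sqrt (by linarith)⟩
    have hs1 : 1 / 2 ≤ s := by nlinarith
    have hs3 : s ≤ 1 := by nlinarith
    have h4 : s / n * (-(3 / 5) * d 0 - 4 / 5 * d 1) * d 0 +
        s / n * (4 / 5 * d 0 - 3 / 5 * d 1) * d 1 = -(3 / 5 * (s * n)) := by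
      have : s / n * (-(3 / 5) * d 0 - 4 / 5 * d 1) * d 0 +
          s / n * (4 / 5 * d 0 - 3 / 5 * d 1) * d 1 = -(3 / 5) * (s / n) * n ^ 2 := by
        rw [hn2]; ring
      rw [this]; field_simp
    have p1 : s * n ≤ 1 := mul_le_one₀ hs3 hnp.le hn1
    have p2 : 1 / 2 * n ≤ s * n := mul_le_mul_of_nonneg_right hs1 hnp.le
    have p3 : z * d 2 ≤ z := mul_le_of_le_one_right hz.1.le h5
    have p4 : -z ≤ z * d 2 := by nlinarith [hz.1]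
    have h3 := key (s / n * (-(3 / 5) * d 0 - 4 / 5 * d 1)) (s / n * (4 / 5 * d 0 - 3 / 5 * d 1)) z
      hz (by
        have : (s / n * (-(3 / 5) * d 0 - 4 / 5 * d 1)) ^ 2 +
            (s / n * (4 / 5 * d 0 - 3 / 5 * d 1)) ^ 2 = (s / n) ^ 2 * n ^ 2 := by
          rw [hn2]; ring
        rw [this, ← hs2]; field_simp) (by rw [h4]; linarith)
    rw [h4] at h3
    linarith

lemma fix_zero (h1 : StmtMem) {R S : RBody} (hR : R.OK) (hS : S.OK) (hm : SameMid R S)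
    (h0 : R.ξ0 0 = 1) (hd : R.dξ0 0 = 0) (hlt : ∀ z : ℝ, z ≠ 0 → R.ξ0 z < 1)
    (f : E3 ≃ᵢ E3) (hf : f '' body S.P = body R.P) : f 0 = 0 := by
  let g := f.toRealAffineIsometryEquiv
  let U := g.linearIsometryEquiv
  have hU : ∀ X, f X = U X + f 0 := fun X => by
    have := g.map_vadd (0 : E3) X
    rw [vadd_eq_add, vadd_eq_add, add_zero] at this
    exact this
  have hdisc : ∀ X : E3, X 2 = 0 → X 0 ^ 2 + X 1 ^ 2 ≤ 1 → f X ∈ body R.P := by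
    intro X h2 h3
    rw [← hf]
    refine ⟨X, ?_, rfl⟩
    have := (h1 S hS).1 0 ⟨hS.zB_neg.le, hS.zT_pos.le⟩ (X 0 ^ 2 + X 1 ^ 2) (by rw [← hm.ξ0, h0]; exact h3)
    simpa [body, h2] using this
  obtain ⟨α, β, hαβ, hz⟩ : ∃ α β : ℝ, α ^ 2 + β ^ 2 = 1 ∧ U (pt α β 0) 2 = 0 := by
    have e : ∀ α β : ℝ, U (pt α β 0) 2 = α * U (pt 1 0 0) 2 + β * U (pt 0 1 0) 2 := by
      intro α β
      have : pt α β 0 = α • pt 1 0 0 + β • pt 0 1 0 := by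
        ext i
        fin_cases i <;> simp [pt]
      rw [this, map_add, map_smul, map_smul]
      simp
    generalize U (pt 1 0 0) 2 = p at e
    generalize U (pt 0 1 0) 2 = q at e
    by_cases hn : p ^ 2 + q ^ 2 = 0
    · have hp : p = 0 := by nlinarith [sq_nonneg p, sq_nonneg q]
      exact ⟨1, 0, by norm_num, by rw [e, hp]; ring⟩
    · have hn0 : 0 < p ^ 2 + q ^ 2 := lt_of_le_of_ne (by positivity) (Ne.symm hn)
      obtain ⟨n, hnp, hn2⟩ : ∃ n : ℝ, 0 < n ∧ n ^ 2 = p ^ 2 + q ^ 2 :=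
        ⟨_, Real.sqrt_pos.2 hn0, Real.sq_sqrt hn0.le⟩
      refine ⟨q / n, -p / n, ?_, by rw [e]; ring⟩
      field_simp
      linarith
  have hn : ‖U (pt α β 0)‖ ^ 2 = 1 := by
    rw [U.norm_map, norm_sq]
    simpa using hαβ
  rw [norm_sq, hz] at hn
  have m1 := hdisc (pt α β 0) rfl (by simpa using hαβ.le)
  have m2 := hdisc (-pt α β 0) (by simp) (by simpa using hαβ.le)
  rw [hU] at m1 m2
  rw [map_neg] at m2
  generalize U (pt α β 0) = w at hz hn m1 m2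
  have r1 := rad_le hR h0 hd m1
  have r2 := rad_le hR h0 hd m2
  simp only [PiLp.add_apply, PiLp.neg_apply] at r1 r2
  have hb0 : f 0 0 = 0 := by nlinarith [sq_nonneg (f 0 0), sq_nonneg (f 0 1)]
  have hb1 : f 0 1 = 0 := by nlinarith [sq_nonneg (f 0 0), sq_nonneg (f 0 1)]
  have hb2 : f 0 2 = 0 := by
    apply height_zero hR hlt
    have e1 : w 0 ^ 2 + w 1 ^ 2 = 1 := by linarith
    have := m1
    simp only [body, mem_ofPred_eq, PiLp.add_apply, hb0, hb1, hz, add_zero, zero_add, e1] at this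
    exact this
  ext i
  fin_cases i
  · exact hb0
  · exact hb1
  · exact hb2

end GeoNonCong

open GeoNonCong in
theorem rigid (h1 : StmtMem) {R S : RBody} {a : ℝ} (hR : R.OK) (hS : S.OK) (hm : SameMid R S)
    (ha : 0 < a) (haT : a ≤ R.zT) (hd : R.dξ0 0 = 0) (hlt : ∀ z : ℝ, z ≠ 0 → R.ξ0 z < 1)
    (hgt : ∀ z ∈ Ioc 0 a, 1 - z ^ 2 < R.ξ0 z) (hlow : ∀ z : ℝ, z ≤ 0 → R.ξ0 z = 1 - z ^ 2)
    (hzB : R.zB ≤ -(3 / 4)) (f : E3 ≃ᵢ E3) (hf : f '' body S.P = body R.P) :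
    ∀ ξ ∈ Ioo (0 : ℝ) 1, R.B.σ ξ = S.B.σ ξ := by
  have h0 : R.ξ0 0 = 1 := by simpa using hlow 0 le_rfl
  have hf0 := fix_zero h1 hR hS hm h0 hd hlt f hf
  set U := f.toRealLinearIsometryEquivOfMapZero hf0 with hU
  have hUf : ∀ X, U X = f X := fun X => rfl
  have hs : ∀ X ∈ body R.P, -(3 / 4) ≤ inner ℝ X (U (pt 0 0 1)) → inner ℝ X (U (pt 0 0 1)) ≤ 0 →
      ‖X‖ ≤ 1 := by
    intro X hX hi hj
    rw [← hf] at hX
    obtain ⟨Y, hY, rfl⟩ := hX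
    rw [← hUf] at hi hj ⊢
    rw [U.inner_map_map, inner_eq] at hi hj
    simp only [pt0, pt1, pt2, mul_zero, mul_one, zero_add] at hi hj
    rw [U.norm_map, norm_le_one_iff]
    have := hY.1 (Y 2) ⟨by rw [← hm.zB]; linarith, hj.trans hS.zT_pos.le⟩
    rw [← hm.ξ0, hlow _ hj] at this
    simp only [sub_self, mul_zero, add_zero] at this
    linarith
  have hdn : ‖U (pt 0 0 1)‖ = 1 := by
    rw [U.norm_map]
    have := norm_sq (pt 0 0 1)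
    simp only [pt0, pt1, pt2] at this
    nlinarith [norm_nonneg (pt 0 0 1)]
  obtain ⟨d0, d1, d2⟩ := dir_eq2 h1 hR ha haT hlt hgt hdn hs
  have hz : ∀ Y : E3, f Y 2 = Y 2 := by
    intro Y
    have := U.inner_map_map Y (pt 0 0 1)
    rw [inner_eq, inner_eq, d0, d1, d2] at this
    simpa [hUf] using this
  have hr : ∀ Y : E3, f Y 0 ^ 2 + f Y 1 ^ 2 = Y 0 ^ 2 + Y 1 ^ 2 := by
    intro Y
    have h2 := norm_sq (f Y)
    rw [hz, ← hUf, U.norm_map, norm_sq, hUf] at h2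
    linarith
  have hP : ∀ r z : ℝ, 0 ≤ r → ((r, z) ∈ S.P ↔ (r, z) ∈ R.P) := by
    intro r z r0
    have e : pt (√r) 0 z ∈ body S.P ↔ f (pt (√r) 0 z) ∈ body R.P := by
      rw [← hf]
      exact (f.injective.mem_set_image).symm
    simp only [body, mem_ofPred_eq, hr, hz, pt0, pt1, pt2, Real.sq_sqrt r0] at e
    simpa using e
  intro ξ hξ
  have hx : ξ ∈ Icc (0 : ℝ) 1 := Ioo_subset_Icc_self hξ
  have k0 : 0 < R.B.m * (1 - ξ) := mul_pos hR.B_ok.m_pos (by linarith [hξ.2])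
  have em : S.B.m = R.B.m := by rw [hS.m_eq, hR.m_eq, hm.m]
  have s1 := hR.B_ok.σ_pos ξ hx
  have s2 := hS.B_ok.σ_pos ξ hx
  have tR : R.B.T ξ = R.B.m * (1 - ξ) * R.B.σ ξ ^ 2 := rfl
  have tS : S.B.T ξ = R.B.m * (1 - ξ) * S.B.σ ξ ^ 2 := by rw [← em]; rfl
  have a1 := ((hP _ _ (by rw [tR]; positivity)).2 ((h1 R hR).2.2 ξ hx _ le_rfl)).2.2 ξ hx
  have a2 := ((hP _ _ (by rw [tS]; positivity)).1 ((h1 S hS).2.2 ξ hx _ le_rfl)).2.2 ξ hx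
  simp only [neg_neg] at a1 a2
  rw [tR, tS] at a1 a2
  generalize R.B.m * (1 - ξ) = k at k0 a1 a2
  generalize R.B.σ ξ = p at s1 a1 a2 ⊢
  generalize S.B.σ ξ = q at s2 a1 a2 ⊢
  have b1 := mul_le_mul_of_nonneg_left a1 s1.le
  have b2 := mul_le_mul_of_nonneg_left a2 s2.le
  have b3 : k * (p + q) * (p - q) ^ 2 ≤ 0 := by nlinarith
  have b4 : (p - q) ^ 2 ≤ 0 := by
    by_contra h
    exact absurd b3 (not_le.2 (mul_pos (mul_pos k0 (by linarith)) (not_le.1 h)))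
  have := pow_eq_zero_iff (two_ne_zero) |>.1 (le_antisymm b4 (sq_nonneg _))
  linarith

end Pool.Agent.Lib.MP_87c84d_gt
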