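import Pool.Agent.Lib.MP_87c84d_gt.Final
import Pool.Agent.Lib.MP_87c84d_gt.FamNewton
import Pool.Agent.Lib.MP_87c84d_gt.FamRigid

/-!
A continuum of pairwise non-congruent bodies with the same maximal sections and shadows.
-/

namespace Pool.Agent.Lib.MP_87c84d_gt

open MeasureTheory Set Metric Filter Topology

noncomputable section

namespace Sec

variable {D : Data} {R e ω C θ : ℝ} {v w : ℂ → ℂ}

theorem nu_eq (H : Setup D R e ω C θ v) (G : Setup D R e ω C θ w) (f : E3 ≃ᵢ E3)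
    (hf : f '' body (D.rbody w).P = body (D.rbody v).P) : nu v = nu w := by
  have h := rigid geo_mem (R := D.rbody v) (S := D.rbody w) H.rb_ok G.rb_ok
    ⟨rfl, rfl, rfl, rfl, rfl⟩ H.ge.a_pos H.ge.a_lt.le H.ge.d0 H.ge.lt_one H.ge.zone H.ge.low
    (H.zB_le.trans (by norm_num)) f hf
  unfold nu
  refine int_congr_Ioo zero_le_one fun r hr => ?_
  have h3 := ((an_bridge _ _ H.hypB.ok H.hypB.mem H.hypB.real H.hypB.cont).2.1 r
    (Ioo_subset_Icc_self hr)).2.2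
  have h4 := ((an_bridge _ _ G.hypB.ok G.hypB.mem G.hypB.real G.hypB.cont).2.1 r
    (Ioo_subset_Icc_self hr)).2.2
  have h5 : (D.capB v).toR.σ r = (D.capB w).toR.σ r := h r hr
  rw [h5, h4] at h3
  have h6 : D.τB r - w r = D.τB r - v r := h3
  rw [sub_right_inj.1 h6]

end Sec

theorem exists_family {δ : ℝ} (hδ : 0 < δ) :
    ∃ (κ : ℝ) (P₀ : Set (ℝ × ℝ)) (P : ℝ → Set (ℝ × ℝ)), κ ≤ δ ∧ (∀ s, Pair κ (P s) P₀) ∧
      ∀ s t, s ≠ t → ∀ f : E3 ≃ᵢ E3, f '' body (P t) ≠ body (P s) := by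
  have h2 := base_closed base_xi
  have h4 := base_an0 base_xi h2
  have h6 := base_quad base_xi
  obtain ⟨D, R, e, hA, hG, hκ⟩ := Sec.base base_core h4 (base_con base_xi h2)
    (base_ident base_xi h2 h4 h6 an_mid an_bridge) (base_ge base_xi h2 h6) hδ
  obtain ⟨ω, C, hm⟩ := an_machine an_mid an_capder D R e hA
  obtain ⟨θ1, C1, h1⟩ := an_stab D R e ω C hA hm
  obtain ⟨θ2, C2, h3⟩ := an_solve an_abel D R e ω C hA hm
  have h0 := an_good0 D R e ω C hA hm
  have w0 := hm.ω_pos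
  have m0 := hA.m_pos
  have k0 := hG.κ_pos
  obtain ⟨θ, δ0, a0, a1, d0, a2⟩ := newton_fam D θ1 C1 θ2 C2 h0 h1 h3
    (min (ω / 4) (min (D.m / 2) (D.κ / 100))) (by positivity)
  rw [le_min_iff, le_min_iff] at a1
  have p0 : ∀ s : ℝ, 0 < δ0 * Real.sigmoid s := fun s => mul_pos d0 (Real.sigmoid_pos s)
  choose v hv hn using fun s : ℝ => a2 (δ0 * Real.sigmoid s) (p0 s)
    (mul_le_of_le_one_right d0.le (Real.sigmoid_le_one s))
  have H : ∀ s, Sec.Setup D R e ω C θ (v s) := fun s =>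
    ⟨hA, hG, hm, hv s, a0, by linarith [a1.1], a1.2.1⟩
  refine ⟨D.κ, (D.rbody 0).P, fun s => (D.rbody (v s)).P, hκ, fun s => Sec.pair (H s)
    ⟨hA, hG, hm, Newton.good_mono h0 (by norm_num) (by norm_num) le_rfl le_rfl, le_rfl,
      by linarith, by linarith⟩ a1.2.2 (hn s ▸ Newton.nu_start (p0 s)), fun s t hst f hf => ?_⟩
  have h7 := Sec.nu_eq (H s) (H t) f hf
  rw [hn, hn, Newton.nu_smul, Newton.nu_smul (δ0 * Real.sigmoid t)] at h7
  have h8 := mul_right_cancel₀ (Newton.nu_start one_pos) h7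
  have h9 : δ0 * Real.sigmoid s = δ0 * Real.sigmoid t := by exact_mod_cast h8
  exact hst (Real.sigmoid_strictMono.injective (mul_left_cancel₀ d0.ne' h9))

end

end Pool.Agent.Lib.MP_87c84d_gt
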