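import Pool.Agent.Lib.MP_87c84d_gt.Final1
import Pool.Agent.Lib.MP_87c84d_gt.BaseQuad
import Pool.Agent.Lib.MP_87c84d_gt.BaseCore

namespace Pool.Agent.Lib.MP_87c84d_gt

theorem exists_pair {δ : ℝ} (hδ : 0 < δ) : ∃ κ P₁ P₂, κ ≤ δ ∧ Pair κ P₁ P₂ :=
  exists_pair_of base_core (base_quad base_xi) hδ

end Pool.Agent.Lib.MP_87c84d_gt
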