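import Pool.Agent.Lib.MP_87c84d_gt.GeoDefs

/-! Steep directions, and the comparison with balls. -/

namespace Pool.Agent.Lib.MP_87c84d_gt

open MeasureTheory Set
open scoped ENNReal

namespace GeoCrude

theorem norm_sq3 (X : E3) : ‖X‖ ^ 2 = X 0 ^ 2 + X 1 ^ 2 + X 2 ^ 2 := by
  rw [EuclideanSpace.norm_sq_eq, Fin.sum_univ_three]; simp

theorem inner3 (X e : E3) : inner ℝ X e = X 0 * e 0 + X 1 * e 1 + X 2 * e 2 := by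
  rw [PiLp.inner_apply, Fin.sum_univ_three]; simp [mul_comm]

theorem steep {m x0 x1 z e0 e1 e2 : ℝ} (hm : 0 < m) (hm' : m ≤ 1 / 200)
    (h1 : x0 ^ 2 + x1 ^ 2 ≤ 102 / 100 * m) (hz : 95 / 100 ≤ |z|)
    (he : e0 ^ 2 + e1 ^ 2 + e2 ^ 2 = 1) (hQ : 3 / 2 * m * (e0 ^ 2 + e1 ^ 2) ≤ e2 ^ 2) :
    m / 50 ≤ (x0 * e0 + x1 * e1 + z * e2) ^ 2 := by
  have h2 : (x0 * e0 + x1 * e1) ^ 2 ≤ (x0 ^ 2 + x1 ^ 2) * (e0 ^ 2 + e1 ^ 2) := by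
    nlinarith [sq_nonneg (x0 * e1 - x1 * e0)]
  have h3 : (x0 * e0 + x1 * e1) ^ 2 ≤ (33 / 40 * |e2|) ^ 2 := by
    have := mul_le_mul_of_nonneg_right h1 (show 0 ≤ e0 ^ 2 + e1 ^ 2 by positivity)
    rw [mul_pow, sq_abs]; nlinarith
  have h4 := abs_le_of_sq_le_sq h3 (by positivity)
  have h5 : 95 / 100 * |e2| ≤ |z * e2| := by rw [abs_mul]; gcongr
  have h6 : 1 / 8 * |e2| ≤ |x0 * e0 + x1 * e1 + z * e2| := by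
    have := abs_sub_abs_le_abs_add (z * e2) (x0 * e0 + x1 * e1)
    rw [add_comm (z * e2)] at this; linarith
  have h7 := pow_le_pow_left₀ (by positivity) h6 2
  rw [mul_pow, sq_abs, sq_abs] at h7
  nlinarith [mul_le_mul_of_nonneg_right hm' (sq_nonneg e2)]

theorem crude_le (h1 : StmtMem) {R S : RBody} {κ : ℝ} {e : E3} (hR : R.OK) (hS : S.OK)
    (hRS : SameMid R S) (hm : R.T.m ≤ 1 / 200) (hκ : κ ≤ R.T.m / 100)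
    (hT : R.ξ0 R.zT ≤ 102 / 100 * R.T.m) (hB : R.ξ0 R.zB ≤ 102 / 100 * R.T.m)
    (hzT : 95 / 100 ≤ R.zT) (hzB : R.zB ≤ -(95 / 100))
    (hin : ∀ X : E3, ‖X‖ ^ 2 ≤ 1 - κ → X ∈ body S.P)
    (hout : ∀ X : E3, X ∈ body R.P → ‖X‖ ^ 2 ≤ 1 + κ) (he : ‖e‖ = 1)
    (hQ : 3 / 2 * R.T.m * (e 0 ^ 2 + e 1 ^ 2) ≤ e 2 ^ 2) :
    (⨆ t : ℝ, Measure.hausdorffMeasure (2 : ℝ) (body R.P ∩ {x : E3 | inner ℝ x e = t})) ≤
      ⨆ t : ℝ, Measure.hausdorffMeasure (2 : ℝ) (body S.P ∩ {x : E3 | inner ℝ x e = t}) := by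
  have he' : e 0 ^ 2 + e 1 ^ 2 + e 2 ^ 2 = 1 := by rw [← norm_sq3, he]; norm_num
  refine iSup_le fun t => ?_
  rcases lt_or_ge (t ^ 2) (R.T.m / 50) with ht | ht
  · refine le_iSup_of_le t (measure_mono ?_)
    rintro X ⟨hX, hXt : inner ℝ X e = t⟩
    have h2 : ∀ {r}, X 0 ^ 2 + X 1 ^ 2 ≤ r → r ≤ 102 / 100 * R.T.m → ¬95 / 100 ≤ |X 2| :=
      fun h h' hz => ht.not_ge (by
        rw [← hXt, inner3]; exact steep hR.T_ok.m_pos hm (h.trans h') hz he' hQ)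
    have h3 : X 2 ∈ Icc R.zB R.zT := by
      constructor <;> refine le_of_not_gt fun h => ?_
      · have h4 := hX.2.2 0 ⟨le_rfl, zero_le_one⟩
        have h5 := hR.B_ok.σ_pos 0 ⟨le_rfl, zero_le_one⟩
        rw [← hR.ξB, hR.ZB0] at h4
        exact h2 (r := R.ξ0 R.zB) (by nlinarith) hB (le_abs.2 (Or.inr (by linarith)))
      · have h4 := hX.2.1 0 ⟨le_rfl, zero_le_one⟩
        have h5 := hR.T_ok.σ_pos 0 ⟨le_rfl, zero_le_one⟩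
        rw [← hR.ξT, hR.ZT0] at h4
        exact h2 (r := R.ξ0 R.zT) (by nlinarith) hT (le_abs.2 (Or.inl (by linarith)))
    refine ⟨(h1 S hS).1 _ (hRS.zB ▸ hRS.zT ▸ h3) _ ?_, hXt⟩
    simpa [hRS.ξ0] using hX.1 _ h3
  · refine le_iSup_of_le 0 ?_
    rw [← (IsometryEquiv.addLeft (t • e)).hausdorffMeasure_image 2
      (body S.P ∩ {x : E3 | inner ℝ x e = 0})]
    refine measure_mono ?_
    rintro X ⟨hX, hXt : inner ℝ X e = t⟩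
    refine ⟨X - t • e, ⟨hin _ ?_, ?_⟩, by simp⟩
    · rw [norm_sub_sq_real, inner_smul_right, hXt, norm_smul, he, Real.norm_eq_abs, mul_one, sq_abs]
      linarith [hout X hX]
    · show inner ℝ (X - t • e) e = 0
      rw [inner_sub_left, hXt, inner_smul_left, real_inner_self_eq_norm_sq, he]; simp

theorem Z_ge {C : RCap} (h : C.OK) {ξ : ℝ} (hξ : ξ ∈ Icc (0 : ℝ) 1) : C.Z 0 ≤ C.Z ξ := by
  refine monotoneOn_of_deriv_nonneg (convex_Icc 0 1) h.cZ (fun x hx => ?_) (fun x hx => ?_)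
    ⟨le_rfl, zero_le_one⟩ hξ hξ.1 <;> rw [interior_Icc] at hx
  · exact (h.dZ x hx).differentiableAt.differentiableWithinAt
  · rw [(h.dZ x hx).deriv]; exact (h.Z'_pos x hx).le

theorem cap_pt {C : RCap} (h : C.OK) {r w : ℝ} (hr : 0 ≤ r) (hw : C.Z 0 ≤ w)
    (hc : ∀ ξ ∈ Icc (0 : ℝ) 1, r ≤ C.T ξ - 2 * C.σ ξ * (w - C.Z ξ)) :
    ∃ ξ ∈ Icc (0 : ℝ) 1, C.Z ξ = w ∧ r ≤ C.T ξ := by
  have h1 := hc 1 ⟨zero_le_one, le_rfl⟩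
  have h2 := h.σ_pos 1 ⟨zero_le_one, le_rfl⟩
  have h3 : C.T 1 = 0 := by simp [RCap.T]
  obtain ⟨ξ, hξ, e⟩ := intermediate_value_Icc zero_le_one h.cZ (⟨hw, by nlinarith⟩ : w ∈ Icc _ _)
  exact ⟨ξ, hξ, e, by simpa [e] using hc ξ hξ⟩

theorem T_close {C D : RCap} (hC : C.OK) (hD : D.OK) (hm : C.m = D.m) (hm1 : C.m ≤ 1) {θ ξ : ℝ}
    (hθ : θ ≤ 1 / 100) (hξ : ξ ∈ Icc (0 : ℝ) 1) (h2 : D.σ ξ ≤ 2) (hσ : |C.σ ξ - D.σ ξ| ≤ θ) :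
    |C.T ξ - D.T ξ| ≤ 5 * θ := by
  have h3 := hC.σ_pos ξ hξ
  have h4 := hD.σ_pos ξ hξ
  have h5 : 0 ≤ C.m * (1 - ξ) := mul_nonneg hC.m_pos.le (by linarith [hξ.2])
  have h6 : C.m * (1 - ξ) ≤ 1 := by nlinarith [hξ.1, hC.m_pos]
  have h7 : C.T ξ - D.T ξ = C.m * (1 - ξ) * ((C.σ ξ + D.σ ξ) * (C.σ ξ - D.σ ξ)) := by
    unfold RCap.T; rw [← hm]; ring
  rw [h7, abs_mul, abs_of_nonneg h5, abs_mul, abs_of_pos (add_pos h3 h4), ← one_mul (5 * θ)]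
  have h8 := (abs_le.1 hσ).2
  gcongr
  linarith

theorem line_close {T T' σ σ' Z Z' θ w : ℝ} (hθ : θ ≤ 1 / 100) (hT : |T - T'| ≤ 5 * θ)
    (hσ : |σ - σ'| ≤ θ) (hZ : |Z - Z'| ≤ θ) (h0 : 0 < σ) (h2 : σ' ≤ 2) (h3 : 0 ≤ Z')
    (h4 : Z' ≤ 11 / 10) (hw : |w| ≤ 1) : T' - 2 * σ' * (w - Z') - 20 * θ ≤ T - 2 * σ * (w - Z) := by
  have h5 : |(σ - σ') * (w - Z')| ≤ θ * 3 := by
    rw [abs_mul]
    refine mul_le_mul hσ ?_ (abs_nonneg _) ((abs_nonneg _).trans hσ)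
    rw [abs_le] at hw ⊢; constructor <;> linarith
  have h6 : |σ * (Z - Z')| ≤ 3 * θ := by
    rw [abs_mul, abs_of_pos h0]
    exact mul_le_mul (by linarith [(abs_le.1 hσ).2]) hZ (abs_nonneg _) (by norm_num)
  have := (abs_nonneg _).trans hσ
  rw [abs_le] at hT h5 h6
  nlinarith

theorem out_ball {R S : RBody} {κ θ : ℝ} (hR : R.OK) (hS : S.OK) (hRS : SameMid R S)
    (hT : S.Tan) (hm : R.T.m ≤ 1) (hκ : κ ≤ 1) (hθ0 : 0 ≤ θ) (hθ : θ ≤ κ / 100)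
    (hξ : ∀ z : ℝ, |z| ≤ 11 / 10 → S.ξ0 z ≤ 1 - z ^ 2 + κ / 2)
    (hc : ∀ ξ ∈ Icc (0 : ℝ) 1, S.T.σ ξ ≤ 2 ∧ S.B.σ ξ ≤ 2 ∧ S.T.Z ξ ≤ 11 / 10 ∧
      S.B.Z ξ ≤ 11 / 10 ∧ |R.T.σ ξ - S.T.σ ξ| ≤ θ ∧ |R.B.σ ξ - S.B.σ ξ| ≤ θ ∧
      |R.T.Z ξ - S.T.Z ξ| ≤ θ ∧ |R.B.Z ξ - S.B.Z ξ| ≤ θ) (X : E3) (hX : X ∈ body R.P) :
    ‖X‖ ^ 2 ≤ 1 + κ := by
  have h0 : (0 : ℝ) ∈ Icc (0 : ℝ) 1 := ⟨le_rfl, zero_le_one⟩
  have hr : 0 ≤ X 0 ^ 2 + X 1 ^ 2 := by positivity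
  have key : ∀ {T T' Z Z' : ℝ}, |T - T'| ≤ 5 * θ → |Z - Z'| ≤ θ → 0 ≤ Z' → Z' ≤ 11 / 10 →
      T' ≤ 1 - Z' ^ 2 + κ / 2 → T + Z ^ 2 ≤ 1 + κ := fun h1 h2 h3 h4 h5 => by
    rw [abs_le] at h1 h2; nlinarith
  rw [norm_sq3]
  rcases le_total (X 2) R.zB with h | h
  · obtain ⟨ξ, h1, h2, h3⟩ := cap_pt hR.B_ok hr (by rw [hR.ZB0]; linarith) hX.2.2
    obtain ⟨-, a, -, b, -, c, -, d⟩ := hc ξ h1
    have h4 : 0 ≤ S.B.Z ξ := by linarith [Z_ge hS.B_ok h1, hS.ZB0, hS.zB_neg]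
    have h5 := hξ (-S.B.Z ξ) (by rwa [abs_neg, abs_of_nonneg h4])
    rw [hT.ξB ξ h1, neg_sq] at h5
    have h6 := key (T_close hR.B_ok hS.B_ok (by rw [hR.m_eq, hS.m_eq, hRS.m]) (hR.m_eq ▸ hm)
      (by linarith) h1 a c) d h4 b h5
    rw [h2, neg_sq] at h6; linarith
  rcases le_total (X 2) R.zT with h' | h'
  · have h1 := hX.1 _ ⟨h, h'⟩
    have h2 := hξ (X 2) (abs_le.2 ⟨by linarith [(hc 0 h0).2.2.2.1, hS.ZB0, hRS.zB],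
      by linarith [(hc 0 h0).2.2.1, hS.ZT0, hRS.zT]⟩)
    simp only [sub_self, mul_zero, add_zero, hRS.ξ0] at h1
    linarith
  · obtain ⟨ξ, h1, h2, h3⟩ := cap_pt hR.T_ok hr (by rw [hR.ZT0]; exact h') hX.2.1
    obtain ⟨a, -, b, -, c, -, d, -⟩ := hc ξ h1
    have h4 : 0 ≤ S.T.Z ξ := by linarith [Z_ge hS.T_ok h1, hS.ZT0, hS.zT_pos]
    have h5 := hξ (S.T.Z ξ) (by rwa [abs_of_nonneg h4])
    rw [hT.ξT ξ h1] at h5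
    have h6 := key (T_close hR.T_ok hS.T_ok hRS.m hm (by linarith) h1 a c) d h4 b h5
    rw [h2] at h6; linarith

end GeoCrude

open GeoCrude

theorem geo_crude (h1 : StmtMem) : StmtCrude := by
  intro R S κ Qs e hR hS hRS hm hκ hQs hT hB hzT hzB hin hout he hQ
  have hQ' : 3 / 2 * R.T.m * (e 0 ^ 2 + e 1 ^ 2) ≤ e 2 ^ 2 :=
    (mul_le_mul_of_nonneg_right hQs (by positivity)).trans hQ
  refine le_antisymm (crude_le h1 hR hS hRS hm hκ hT hB hzT hzB (fun X h => (hin X h).2)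
    (fun X h => hout X (Or.inl h)) he hQ') ?_
  rw [hRS.m] at hm hκ hT hB hQ'
  rw [hRS.ξ0, hRS.zT] at hT
  rw [hRS.ξ0, hRS.zB] at hB
  exact crude_le h1 hS hR ⟨hRS.ξ0.symm, hRS.dξ0.symm, hRS.zB.symm, hRS.zT.symm, hRS.m.symm⟩ hm hκ
    hT hB (hRS.zT ▸ hzT) (hRS.zB ▸ hzB) (fun X h => (hin X h).1) (fun X h => hout X (Or.inr h))
    he hQ'

theorem geo_balls (_h1 : StmtMem) : StmtBalls := by
  intro R S κ θ hR hS hRS hT hm hκ hθ0 hθ hξ hneg hc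
  have hz : ∀ X : E3, ‖X‖ ^ 2 ≤ 1 → |X 2| ≤ 1 := fun X h => by
    rw [norm_sq3] at h
    exact abs_le_one_iff_mul_self_le_one.2 (by nlinarith [sq_nonneg (X 0), sq_nonneg (X 1)])
  have hl : ∀ (X : E3) (c : ℝ), 0 ≤ c → ‖X‖ ^ 2 ≤ 1 - c → ∀ z0,
      X 0 ^ 2 + X 1 ^ 2 + c ≤ S.ξ0 z0 + S.dξ0 z0 * (X 2 - z0) := fun X c h0 h z0 => by
    have h1 := (hξ (X 2) ((hz X (by linarith)).trans (by norm_num))).1
    rw [norm_sq3] at h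
    linarith [hS.sup (X 2) z0]
  refine ⟨fun X h => ?_, out_ball hR hS hRS hT hm hκ hθ0 hθ (fun z h => (hξ z h).2) hc,
    fun X h => ?_, out_ball hS hS ⟨rfl, rfl, rfl, rfl, rfl⟩ hT (hRS.m ▸ hm) hκ hθ0 hθ
      (fun z h => (hξ z h).2) fun ξ h => ?_, fun X hX h => ?_⟩
  · have h1 := hl X κ (by linarith) h
    have h2 := hz X (by linarith)
    refine ⟨fun z0 _ => ?_, fun ξ h3 => ?_, fun ξ h3 => ?_⟩
    · rw [hRS.ξ0, hRS.dξ0]; linarith [h1 z0]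
    · obtain ⟨a, -, b, -, c, -, d, -⟩ := hc ξ h3
      have h4 := line_close (by linarith) (T_close hR.T_ok hS.T_ok hRS.m hm (by linarith) h3 a c)
        c d (hR.T_ok.σ_pos ξ h3) a (by linarith [Z_ge hS.T_ok h3, hS.ZT0, hS.zT_pos]) b h2
      have h5 := h1 (S.T.Z ξ)
      rw [hT.ξT ξ h3, hT.dT ξ h3] at h5
      show X 0 ^ 2 + X 1 ^ 2 ≤ R.T.T ξ - 2 * R.T.σ ξ * (X 2 - R.T.Z ξ)
      linarith
    · obtain ⟨-, a, -, b, -, c, -, d⟩ := hc ξ h3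
      have h4 := line_close (w := -X 2) (by linarith) (T_close hR.B_ok hS.B_ok
        (by rw [hR.m_eq, hS.m_eq, hRS.m]) (hR.m_eq ▸ hm) (by linarith) h3 a c)
        c d (hR.B_ok.σ_pos ξ h3) a (by linarith [Z_ge hS.B_ok h3, hS.ZB0, hS.zB_neg]) b
        (by rwa [abs_neg])
      have h5 := h1 (-S.B.Z ξ)
      rw [hT.ξB ξ h3, hT.dB ξ h3] at h5
      show X 0 ^ 2 + X 1 ^ 2 ≤ R.B.T ξ - 2 * R.B.σ ξ * (-X 2 - R.B.Z ξ)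
      linarith
  · have h1 := hl X 0 le_rfl (by nlinarith [norm_nonneg X])
    refine ⟨fun z0 _ => by linarith [h1 z0], fun ξ h3 => ?_, fun ξ h3 => ?_⟩
    · have h5 := h1 (S.T.Z ξ)
      rw [hT.ξT ξ h3, hT.dT ξ h3] at h5
      show X 0 ^ 2 + X 1 ^ 2 ≤ S.T.T ξ - 2 * S.T.σ ξ * (X 2 - S.T.Z ξ)
      linarith
    · have h5 := h1 (-S.B.Z ξ)
      rw [hT.ξB ξ h3, hT.dB ξ h3] at h5
      show X 0 ^ 2 + X 1 ^ 2 ≤ S.B.T ξ - 2 * S.B.σ ξ * (-X 2 - S.B.Z ξ)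
      linarith
  · obtain ⟨a, b, c, d, -⟩ := hc ξ h
    simpa [hθ0] using ⟨a, b, c, d⟩
  · rw [← sq_le_one_iff₀ (norm_nonneg X), norm_sq3]
    rcases le_total (X 2) S.zB with h' | h'
    · obtain ⟨ξ, h1, h2, h3⟩ := cap_pt hS.B_ok (by positivity) (by rw [hS.ZB0]; linarith) hX.2.2
      have h4 := hT.ξB ξ h1
      rw [h2, neg_neg, hneg _ h] at h4
      linarith
    · have h1 := hX.1 _ ⟨h', h.trans hS.zT_pos.le⟩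
      simp only [sub_self, mul_zero, add_zero, hneg _ h] at h1
      linarith

end Pool.Agent.Lib.MP_87c84d_gt
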