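import Pool.Agent.Lib.MP_87c84d_gt.GeoDefs

namespace Pool.Agent.Lib.MP_87c84d_gt

open MeasureTheory Set
open scoped ENNReal

namespace GeoHaus

theorem exists_const : ∃ c : ℝ≥0∞, ∀ s : Set (ℝ × ℝ),
    Measure.hausdorffMeasure (2 : ℝ) {v : EuclideanSpace ℝ (Fin 2) | (v 0, v 1) ∈ s} =
      c * volume s := by
  have h : (Measure.hausdorffMeasure (2 : ℝ) :
      Measure (EuclideanSpace ℝ (Fin 2))).IsAddHaarMeasure := by
    simpa using MeasureTheory.isAddHaarMeasure_hausdorffMeasure (E := EuclideanSpace ℝ (Fin 2))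
  refine ⟨Measure.addHaarScalarFactor (Measure.hausdorffMeasure (2 : ℝ) :
    Measure (EuclideanSpace ℝ (Fin 2))) volume, fun s => ?_⟩
  have h1 := ((EuclideanSpace.volume_preserving_symm_measurableEquiv_toLp (Fin 2)).trans
    (volume_preserving_finTwoArrow ℝ)).measure_preimage_equiv s
  rw [← h1]
  conv_lhs => rw [Measure.isAddLeftInvariant_eq_smul (Measure.hausdorffMeasure (2 : ℝ) :
    Measure (EuclideanSpace ℝ (Fin 2))) volume]
  rfl

/-- Plane coordinates. -/
noncomputable def iota (n0 n1 ce se t : ℝ) (v : EuclideanSpace ℝ (Fin 2)) : E3 :=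
  !₂[(t * ce - v 0 * se) * n0 - v 1 * n1, (t * ce - v 0 * se) * n1 + v 1 * n0, t * se + v 0 * ce]

theorem iota_isometry {n0 n1 ce se : ℝ} (hn : n0 ^ 2 + n1 ^ 2 = 1) (he : ce ^ 2 + se ^ 2 = 1)
    (t : ℝ) : Isometry (iota n0 n1 ce se t) := by
  refine Isometry.of_dist_eq (fun v w => ?_)
  rw [EuclideanSpace.dist_eq, EuclideanSpace.dist_eq, Fin.sum_univ_three, Fin.sum_univ_two]
  congr 1
  simp only [iota, Real.dist_eq, sq_abs, Matrix.cons_val_zero, Matrix.cons_val_one,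
    Matrix.cons_val]
  linear_combination ((v 0 - w 0) ^ 2 * se ^ 2 + (v 1 - w 1) ^ 2) * hn + (v 0 - w 0) ^ 2 * he

theorem inner_eq (x e : E3) : inner ℝ x e = x 0 * e 0 + x 1 * e 1 + x 2 * e 2 := by
  simp only [PiLp.inner_apply, Fin.sum_univ_three, RCLike.inner_apply, conj_trivial]
  ring

theorem volume_affine (a b : ℝ) (ha : 0 < a) (S : Set (ℝ × ℝ)) :
    volume {p : ℝ × ℝ | (b + p.1 * a, p.2) ∈ S} = ENNReal.ofReal a⁻¹ * volume S := by
  let f : ℝ × ℝ →ₗ[ℝ] ℝ × ℝ := LinearMap.prodMap (a • LinearMap.id) LinearMap.id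
  have hf : LinearMap.det f = a := by
    simp [f, LinearMap.det_prodMap]
  have h1 := Measure.addHaar_preimage_linearMap (volume : Measure (ℝ × ℝ)) (f := f)
    (by rw [hf]; exact ha.ne') ((fun p => ((b, 0) : ℝ × ℝ) + p) ⁻¹' S)
  rw [measure_preimage_add, hf, abs_of_pos (inv_pos.2 ha)] at h1
  rw [← h1]
  congr 1
  ext p
  simp [f, mul_comm]

theorem section_eq (P : Set (ℝ × ℝ)) (e : E3) {n0 n1 ce se : ℝ} (hn : n0 ^ 2 + n1 ^ 2 = 1)
    (he : ce ^ 2 + se ^ 2 = 1) (h0 : e 0 = ce * n0) (h1 : e 1 = ce * n1) (h2 : e 2 = se) (t : ℝ) :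
    body P ∩ {x : E3 | inner ℝ x e = t} = iota n0 n1 ce se t ''
      {v | ((t * ce - v 0 * se) ^ 2 + v 1 ^ 2, t * se + v 0 * ce) ∈ P} := by
  have key : ∀ v : EuclideanSpace ℝ (Fin 2), iota n0 n1 ce se t v ∈ body P ↔
      ((t * ce - v 0 * se) ^ 2 + v 1 ^ 2, t * se + v 0 * ce) ∈ P := by
    intro v
    have : ((t * ce - v 0 * se) * n0 - v 1 * n1) ^ 2 + ((t * ce - v 0 * se) * n1 + v 1 * n0) ^ 2 =
        (t * ce - v 0 * se) ^ 2 + v 1 ^ 2 := by
      linear_combination ((t * ce - v 0 * se) ^ 2 + v 1 ^ 2) * hn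
    rw [← this]
    rfl
  ext X
  constructor
  · rintro ⟨hX, ht⟩
    rw [mem_ofPred_eq, inner_eq, h0, h1, h2] at ht
    have e1 : iota n0 n1 ce se t
        !₂[X 2 * ce - (X 0 * n0 + X 1 * n1) * se, X 1 * n0 - X 0 * n1] = X := by
      ext i
      fin_cases i
      · simp only [iota, Fin.zero_eta, Matrix.cons_val_zero, Matrix.cons_val_one]
        linear_combination (-ce * n0) * ht + (X 0 * n0 + X 1 * n1) * n0 * he + X 0 * hn
      · simp only [iota, Fin.mk_one, Matrix.cons_val_zero, Matrix.cons_val_one]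
        linear_combination (-ce * n1) * ht + (X 0 * n0 + X 1 * n1) * n1 * he + X 1 * hn
      · simp only [iota, Fin.reduceFinMk, Matrix.cons_val_zero, Matrix.cons_val]
        linear_combination (-se) * ht + X 2 * he
    exact ⟨_, (key _).1 (by rw [e1]; exact hX), e1⟩
  · rintro ⟨v, hv, rfl⟩
    refine ⟨(key v).2 hv, ?_⟩
    rw [mem_ofPred_eq, inner_eq, h0, h1, h2]
    simp only [iota, Matrix.cons_val_zero, Matrix.cons_val_one, Matrix.cons_val]
    linear_combination (t * ce - v 0 * se) * ce * hn + t * he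

theorem proj_eq (P : Set (ℝ × ℝ)) (e : E3) {n0 n1 ce se : ℝ} (hn : n0 ^ 2 + n1 ^ 2 = 1)
    (he : ce ^ 2 + se ^ 2 = 1) (h0 : e 0 = ce * n0) (h1 : e 1 = ce * n1) (h2 : e 2 = se) :
    (fun x : E3 => x - (inner ℝ x e) • e) '' body P = iota n0 n1 ce se 0 ''
      {v | (v 0, v 1) ∈ shSet P ce |se|} := by
  obtain ⟨ε, hε, hε'⟩ : ∃ ε : ℝ, ε ^ 2 = 1 ∧ |se| = - ε * se := by
    rcases le_total 0 se with h | h
    · exact ⟨-1, by norm_num, by rw [abs_of_nonneg h]; ring⟩
    · exact ⟨1, by norm_num, by rw [abs_of_nonpos h]; ring⟩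
  have key : ∀ X : E3, X - (inner ℝ X e) • e = iota n0 n1 ce se 0
      !₂[X 2 * ce - (X 0 * n0 + X 1 * n1) * se, X 1 * n0 - X 0 * n1] := by
    intro X
    rw [inner_eq]
    ext i
    fin_cases i
    · simp only [iota, Fin.zero_eta, Matrix.cons_val_zero, Matrix.cons_val_one, PiLp.sub_apply,
        PiLp.smul_apply, smul_eq_mul, h0, h1, h2]
      linear_combination (-(X 0 * n0 + X 1 * n1) * n0) * he - X 0 * hn
    · simp only [iota, Fin.mk_one, Matrix.cons_val_zero, Matrix.cons_val_one, PiLp.sub_apply,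
        PiLp.smul_apply, smul_eq_mul, h0, h1, h2]
      linear_combination (-(X 0 * n0 + X 1 * n1) * n1) * he - X 1 * hn
    · simp only [iota, Fin.reduceFinMk, Matrix.cons_val_zero, Matrix.cons_val, PiLp.sub_apply,
        PiLp.smul_apply, smul_eq_mul, h0, h1, h2]
      linear_combination (- X 2) * he
  ext Y
  constructor
  · rintro ⟨X, hX, rfl⟩
    refine ⟨_, ⟨ε * (X 0 * n0 + X 1 * n1), X 2, ?_, ?_⟩, (key X).symm⟩
    · have : (ε * (X 0 * n0 + X 1 * n1)) ^ 2 + (X 1 * n0 - X 0 * n1) ^ 2 = X 0 ^ 2 + X 1 ^ 2 := by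
        linear_combination (X 0 * n0 + X 1 * n1) ^ 2 * hε + (X 0 ^ 2 + X 1 ^ 2) * hn
      change ((ε * (X 0 * n0 + X 1 * n1)) ^ 2 + (X 1 * n0 - X 0 * n1) ^ 2, X 2) ∈ P
      rw [this]
      exact hX
    · change X 2 * ce - (X 0 * n0 + X 1 * n1) * se = _
      rw [hε']
      linear_combination (X 0 * n0 + X 1 * n1) * se * hε
  · rintro ⟨v, ⟨x, z, hv1, hv2⟩, rfl⟩
    have hv2' : v 0 = ce * z - ε * se * x := by rw [hε'] at hv2; linear_combination hv2
    refine ⟨!₂[ε * x * n0 - v 1 * n1, ε * x * n1 + v 1 * n0, z], ?_, ?_⟩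
    · have : (ε * x * n0 - v 1 * n1) ^ 2 + (ε * x * n1 + v 1 * n0) ^ 2 = x ^ 2 + v 1 ^ 2 := by
        linear_combination ((ε * x) ^ 2 + v 1 ^ 2) * hn + x ^ 2 * hε
      change ((ε * x * n0 - v 1 * n1) ^ 2 + (ε * x * n1 + v 1 * n0) ^ 2, z) ∈ P
      rw [this]
      exact hv1
    · beta_reduce
      rw [key]
      congr 1
      ext i
      fin_cases i
      · simp only [Fin.zero_eta, Matrix.cons_val_zero, Matrix.cons_val_one, Matrix.cons_val]
        linear_combination (- ε * x * se) * hn - hv2'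
      · simp only [Fin.mk_one, Matrix.cons_val_zero, Matrix.cons_val_one, Matrix.cons_val]
        linear_combination (v 1) * hn

end GeoHaus

open GeoHaus in
theorem geo_haus : StmtHaus := by
  obtain ⟨c, hc⟩ := GeoHaus.exists_const
  refine ⟨c, fun P e hnorm => ?_⟩
  set ce := √(e 0 ^ 2 + e 1 ^ 2) with hce
  have hce2 : ce ^ 2 = e 0 ^ 2 + e 1 ^ 2 := Real.sq_sqrt (by positivity)
  have he : ce ^ 2 + e 2 ^ 2 = 1 := by
    have := EuclideanSpace.real_norm_sq_eq e
    rw [hnorm, Fin.sum_univ_three] at this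
    linarith
  obtain ⟨n0, n1, hn, h0, h1⟩ : ∃ n0 n1 : ℝ, n0 ^ 2 + n1 ^ 2 = 1 ∧ e 0 = ce * n0 ∧
      e 1 = ce * n1 := by
    by_cases h : ce = 0
    · rw [h] at hce2
      refine ⟨1, 0, by norm_num, ?_, ?_⟩ <;> rw [h, zero_mul] <;> nlinarith [sq_nonneg (e 0),
        sq_nonneg (e 1), pow_eq_zero_iff (a := e 0) two_ne_zero,
        pow_eq_zero_iff (a := e 1) two_ne_zero]
    · refine ⟨e 0 / ce, e 1 / ce, ?_, by field_simp, by field_simp⟩
      field_simp
      linarith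
  have hiso := iota_isometry hn he
  refine ⟨?_, fun hpos => ?_⟩
  · rw [proj_eq P e hn he h0 h1 rfl, (hiso 0).hausdorffMeasure_image (Or.inl (by norm_num)), hc]
  · have h3 : ∀ t : ℝ, Measure.hausdorffMeasure (2 : ℝ) (body P ∩ {x : E3 | inner ℝ x e = t}) =
        c * ENNReal.ofReal ce⁻¹ * volume (secSet P (e 2 / ce) (t / ce)) := by
      intro t
      rw [section_eq P e hn he h0 h1 rfl, (hiso t).hausdorffMeasure_image (Or.inl (by norm_num)),
        mul_assoc, ← volume_affine ce (t * e 2) hpos, ← hc]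
      congr 1
      ext v
      have : t / ce - e 2 / ce * (t * e 2 + v 0 * ce) = t * ce - v 0 * e 2 := by
        field_simp
        linear_combination (-t) * he
      simp only [secSet, mem_ofPred_eq, this]
    simp only [h3]
    rw [← ENNReal.mul_iSup]
    congr 1
    rcases le_total 0 (e 2) with h | h
    · rw [abs_of_nonneg h]
      exact Function.Surjective.iSup_comp (f := fun t : ℝ => t / ce)
        (fun t => ⟨t * ce, by field_simp⟩) (fun t => volume (secSet P (e 2 / ce) t))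
    · rw [abs_of_nonpos h, ← Function.Surjective.iSup_comp (f := fun t : ℝ => - t / ce)
        (fun t => ⟨- t * ce, by field_simp⟩) (fun t => volume (secSet P (- e 2 / ce) t))]
      refine iSup_congr (fun t => ?_)
      congr 1
      ext p
      have : (-t / ce - -e 2 / ce * p.1) ^ 2 = (t / ce - e 2 / ce * p.1) ^ 2 := by ring
      simp only [secSet, mem_ofPred_eq, this]

end Pool.Agent.Lib.MP_87c84d_gt
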