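import Pool.Agent.Lib.MP_87c84d_gt.GeoDefs

/-!
The two bodies are not congruent.
-/

namespace Pool.Agent.Lib.MP_87c84d_gt

open Set

namespace GeoNonCong

/-- The point with given coordinates. -/
noncomputable def pt (x y z : ℝ) : E3 := !₂[x, y, z]

@[simp] lemma pt0 (x y z : ℝ) : pt x y z 0 = x := rfl
@[simp] lemma pt1 (x y z : ℝ) : pt x y z 1 = y := rfl
@[simp] lemma pt2 (x y z : ℝ) : pt x y z 2 = z := rfl

lemma norm_sq (X : E3) : ‖X‖ ^ 2 = X 0 ^ 2 + X 1 ^ 2 + X 2 ^ 2 := by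
  rw [EuclideanSpace.real_norm_sq_eq, Fin.sum_univ_three]

lemma inner_eq (X Y : E3) : inner ℝ X Y = X 0 * Y 0 + X 1 * Y 1 + X 2 * Y 2 := by
  rw [PiLp.inner_apply, Fin.sum_univ_three]
  simp only [RCLike.inner_apply, conj_trivial]
  ring

lemma norm_le_one_iff (X : E3) : ‖X‖ ≤ 1 ↔ X 0 ^ 2 + X 1 ^ 2 + X 2 ^ 2 ≤ 1 := by
  rw [← norm_sq, sq_le_one_iff₀ (norm_nonneg X)]

lemma rad_le {R : RBody} (hR : R.OK) (h0 : R.ξ0 0 = 1) (hd : R.dξ0 0 = 0) {p : ℝ × ℝ}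
    (hp : p ∈ R.P) : p.1 ≤ 1 := by
  have := hp.1 0 ⟨hR.zB_neg.le, hR.zT_pos.le⟩
  rw [h0, hd] at this
  linarith

lemma height_zero {R : RBody} (hR : R.OK) (hlt : ∀ z : ℝ, z ≠ 0 → R.ξ0 z < 1) {z : ℝ}
    (hp : ((1 : ℝ), z) ∈ R.P) : z = 0 := by
  by_contra hz
  have hBT : R.zB ≤ R.zT := (hR.zB_neg.trans hR.zT_pos).le
  rcases le_or_gt z R.zT with h1 | h1
  · rcases le_or_gt R.zB z with h2 | h2
    · have := hp.1 z ⟨h2, h1⟩
      have h3 := hlt z hz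
      simp only [sub_self, mul_zero, add_zero] at this
      linarith
    · have := hp.1 R.zB ⟨le_rfl, hBT⟩
      have h3 := hlt R.zB hR.zB_neg.ne
      have h4 := hR.B_ok.σ_pos 0 ⟨le_rfl, zero_le_one⟩
      rw [hR.dB] at this
      simp only at this
      nlinarith
  · have := hp.1 R.zT ⟨hBT, le_rfl⟩
    have h3 := hlt R.zT hR.zT_pos.ne'
    have h4 := hR.T_ok.σ_pos 0 ⟨le_rfl, zero_le_one⟩
    rw [hR.dT] at this
    simp only at this
    nlinarith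

/-- The direction of the spherical half is forced. -/
lemma dir_eq (h1 : StmtMem) {R : RBody} (hR : R.OK) {a : ℝ} (ha : 0 < a) (haT : a ≤ R.zT)
    (hgt : ∀ z ∈ Ioc 0 a, 1 - z ^ 2 < R.ξ0 z) {d : E3} (hd : ‖d‖ = 1)
    (hs : ∀ X ∈ body R.P, inner ℝ X d ≤ 0 → ‖X‖ ≤ 1) : d 0 = 0 ∧ d 1 = 0 ∧ d 2 = 1 := by
  have hd2 : d 0 ^ 2 + d 1 ^ 2 + d 2 ^ 2 = 1 := by rw [← norm_sq, hd]; norm_num
  have key : ∀ x y z : ℝ, z ∈ Ioc 0 a → x ^ 2 + y ^ 2 = R.ξ0 z →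
      0 < x * d 0 + y * d 1 + z * d 2 := by
    intro x y z hz hxy
    by_contra hle
    have hX : pt x y z ∈ body R.P :=
      (h1 R hR).1 z ⟨(hR.zB_neg.trans hz.1).le, hz.2.trans haT⟩ _ hxy.le
    have h2 := hs _ hX (by rw [inner_eq]; simpa using not_lt.1 hle)
    rw [norm_le_one_iff] at h2
    simp only [pt0, pt1, pt2] at h2
    have := hgt z hz
    linarith
  by_cases hn : d 0 ^ 2 + d 1 ^ 2 = 0
  · have h0 : d 0 = 0 := by nlinarith [sq_nonneg (d 0), sq_nonneg (d 1)]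
    have h1' : d 1 = 0 := by nlinarith [sq_nonneg (d 0), sq_nonneg (d 1)]
    refine ⟨h0, h1', ?_⟩
    have hz : min a (1 / 2) ∈ Ioc 0 a := ⟨lt_min ha (by norm_num), min_le_left _ _⟩
    have hz2 : min a (1 / 2) ≤ 1 / 2 := min_le_right _ _
    have hr : 0 ≤ R.ξ0 (min a (1 / 2)) := by
      have := hgt _ hz
      nlinarith [hz.1]
    have h3 := key (√(R.ξ0 (min a (1 / 2)))) 0 _ hz (by rw [Real.sq_sqrt hr]; ring)
    rw [h0, h1'] at h3
    have h4 : 0 < d 2 := by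
      by_contra h
      nlinarith [hz.1, not_lt.1 h]
    nlinarith
  · exfalso
    have hn0 : 0 < d 0 ^ 2 + d 1 ^ 2 := lt_of_le_of_ne (by positivity) (Ne.symm hn)
    set n := √(d 0 ^ 2 + d 1 ^ 2) with hn_def
    have hnp : 0 < n := Real.sqrt_pos.2 hn0
    have hn2 : n ^ 2 = d 0 ^ 2 + d 1 ^ 2 := Real.sq_sqrt hn0.le
    have hn1 : n ≤ 1 := by nlinarith [sq_nonneg (d 2)]
    set z := min a (n / 2) with hz_def
    have hz : z ∈ Ioc 0 a := ⟨lt_min ha (by positivity), min_le_left _ _⟩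
    have hz2 : z ≤ n / 2 := min_le_right _ _
    have hr : 1 / 4 ≤ R.ξ0 z := by
      have := hgt _ hz
      nlinarith [hz.1]
    set s := √(R.ξ0 z) with hs_def
    have hs2 : s ^ 2 = R.ξ0 z := Real.sq_sqrt (by linarith)
    have hs0 : 0 ≤ s := Real.sqrt_nonneg _
    have hs1 : 1 / 2 ≤ s := by nlinarith
    have h3 := key (-(s / n) * d 0) (-(s / n) * d 1) z hz (by
      have : (-(s / n) * d 0) ^ 2 + (-(s / n) * d 1) ^ 2 = (s / n) ^ 2 * n ^ 2 := by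
        rw [hn2]; ring
      rw [this, ← hs2]; field_simp)
    have h4 : -(s / n) * d 0 * d 0 + -(s / n) * d 1 * d 1 = -(s * n) := by
      have : -(s / n) * d 0 * d 0 + -(s / n) * d 1 * d 1 = -(s / n) * n ^ 2 := by
        rw [hn2]; ring
      rw [this]; field_simp
    rw [h4] at h3
    have h5 : d 2 ≤ 1 := by nlinarith [sq_nonneg (d 0), sq_nonneg (d 1)]
    nlinarith [hz.1]

/-- A cap lying on the unit sphere has the slope of the sphere. -/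
lemma cap_sphere {C : RCap} (hC : C.OK) (h : ∀ ξ ∈ Ioo (0 : ℝ) 1, C.T ξ + C.Z ξ ^ 2 = 1)
    {ξ : ℝ} (hξ : ξ ∈ Ioo (0 : ℝ) 1) : C.σ ξ ^ 2 * (1 + C.m * (1 - ξ)) = 1 := by
  have hT : HasDerivAt (fun x => C.m * (1 - x) * C.σ x ^ 2 + C.Z x ^ 2)
      (C.m * (-1) * C.σ ξ ^ 2 + C.m * (1 - ξ) * (2 * C.σ ξ * C.σ' ξ) + 2 * C.Z ξ * C.Z' ξ) ξ := by
    have h1 : HasDerivAt (fun x : ℝ => C.m * (1 - x)) (C.m * (-1)) ξ := by
      simpa using ((hasDerivAt_id ξ).const_sub 1).const_mul C.m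
    have h2 := (hC.dσ ξ hξ).pow 2
    have h3 := (hC.dZ ξ hξ).pow 2
    refine ((h1.mul h2).add h3).congr_deriv ?_
    simp
  have hc : HasDerivAt (fun x => C.m * (1 - x) * C.σ x ^ 2 + C.Z x ^ 2) 0 ξ := by
    refine (hasDerivAt_const ξ (1 : ℝ)).congr_of_eventuallyEq ?_
    filter_upwards [isOpen_Ioo.mem_nhds hξ] with x hx
    exact h x hx
  have h0 := hT.unique hc
  have hZ := hC.Z'_pos ξ hξ
  have h1 : (C.Z ξ - C.σ ξ) * C.Z' ξ = 0 := by
    have : C.Z' ξ = C.m * C.σ ξ / 2 - C.m * (1 - ξ) * C.σ' ξ := rfl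
    have h2 : C.σ ξ * C.Z' ξ = C.σ ξ * (C.m * C.σ ξ / 2 - C.m * (1 - ξ) * C.σ' ξ) := by
      rw [this]
    linarith
  have h2 : C.Z ξ = C.σ ξ := by
    rcases mul_eq_zero.1 h1 with h | h
    · linarith
    · exact absurd h hZ.ne'
  have h3 := h ξ hξ
  rw [h2, RCap.T] at h3
  linarith

end GeoNonCong

open GeoNonCong in
theorem geo_noncong (h1 : StmtMem) : StmtNonCong := by
  intro R S a hR hS _ ha haT h0 hd hlt hgt hball hhalf hne f hf
  obtain ⟨ξ, hξ, hne⟩ := hne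
  have hin : ∀ X : E3, dist X (f 0) ≤ 1 → X ∈ body R.P := by
    intro X hX
    rw [← hf]
    refine ⟨f.symm X, hball _ ?_, f.apply_symm_apply X⟩
    rw [← dist_zero_right, ← f.dist_eq, f.apply_symm_apply]
    exact hX
  have hshift : ∀ s : ℝ, s ^ 2 = 1 → ((f 0 0 + s) ^ 2 + f 0 1 ^ 2, f 0 2) ∈ R.P := by
    intro s hs
    have := hin (f 0 + pt s 0 0) (by
      rw [dist_eq_norm, add_sub_cancel_left, norm_le_one_iff]; simp [hs])
    simpa [body] using this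
  have hp := rad_le hR h0 hd (hshift 1 (by norm_num))
  have hm := rad_le hR h0 hd (hshift (-1) (by norm_num))
  simp only at hp hm
  have hb0 : f 0 0 = 0 := by nlinarith [sq_nonneg (f 0 0), sq_nonneg (f 0 1)]
  have hb1 : f 0 1 = 0 := by nlinarith [sq_nonneg (f 0 0), sq_nonneg (f 0 1)]
  have hb2 : f 0 2 = 0 := by
    apply height_zero hR hlt
    have := hshift 1 (by norm_num)
    rw [hb0, hb1] at this
    simpa using this
  have hf0 : f 0 = 0 := by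
    ext i
    fin_cases i
    · exact hb0
    · exact hb1
    · exact hb2
  set U := f.toRealLinearIsometryEquivOfMapZero hf0 with hU
  have hUf : ∀ X, U X = f X := fun X => rfl
  have hs : ∀ X ∈ body R.P, inner ℝ X (U (pt 0 0 1)) ≤ 0 → ‖X‖ ≤ 1 := by
    intro X hX hi
    rw [← hf] at hX
    obtain ⟨Y, hY, rfl⟩ := hX
    rw [← hUf] at hi ⊢
    rw [U.inner_map_map, inner_eq] at hi
    rw [U.norm_map]
    exact hhalf Y hY (by simpa using hi)
  have hdn : ‖U (pt 0 0 1)‖ = 1 := by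
    rw [U.norm_map]
    have := norm_sq (pt 0 0 1)
    simp only [pt0, pt1, pt2] at this
    nlinarith [norm_nonneg (pt 0 0 1)]
  obtain ⟨d0, d1, d2⟩ := dir_eq h1 hR ha haT hgt hdn hs
  apply hne
  rw [← hR.m_eq]
  refine cap_sphere hR.B_ok (fun x hx => ?_) hξ
  have hx' : x ∈ Icc (0 : ℝ) 1 := Ioo_subset_Icc_self hx
  have hT0 : 0 ≤ R.B.T x := by
    have := hR.B_ok.m_pos
    have h2 : 0 ≤ 1 - x := by linarith [hx.2]
    unfold RCap.T
    positivity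
  have hmem : (R.B.T x, -R.B.Z x) ∈ R.P := (h1 R hR).2.2 x hx' _ le_rfl
  have hT1 : R.B.T x ≤ 1 := rad_le hR h0 hd hmem
  have hY : pt (√(R.B.T x)) 0 (-√(1 - R.B.T x)) ∈ body R.P := by
    apply hin
    rw [hf0, dist_zero_right, norm_le_one_iff]
    simp [Real.sq_sqrt hT0, Real.sq_sqrt (sub_nonneg.2 hT1)]
  have hc := hY.2.2 x hx'
  simp only [pt0, pt1, pt2, Real.sq_sqrt hT0, neg_neg] at hc
  have hσ := hR.B_ok.σ_pos x hx'
  have hZ : √(1 - R.B.T x) ≤ R.B.Z x := by nlinarith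
  have hq := Real.sq_sqrt (sub_nonneg.2 hT1)
  have hq0 := Real.sqrt_nonneg (1 - R.B.T x)
  have hX : pt (√(R.B.T x)) 0 (-R.B.Z x) ∈ body R.P := by
    simpa [body, Real.sq_sqrt hT0] using hmem
  have h2 := hs _ hX (by rw [inner_eq, d0, d1, d2]; simp; linarith)
  rw [norm_le_one_iff] at h2
  simp only [pt0, pt1, pt2, Real.sq_sqrt hT0] at h2
  nlinarith

end Pool.Agent.Lib.MP_87c84d_gt
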