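import Pool.Agent.Lib.MP_87c84d_gt.GeoDefs

/-!
Equal shadows of two bodies of revolution with the same middle part.
-/

namespace Pool.Agent.Lib.MP_87c84d_gt

open MeasureTheory Set
open scoped ENNReal

noncomputable section

namespace GeoShadow

/-- The fibre of the shadow over `w`. -/
def shFib (P : Set (ℝ × ℝ)) (cc ss w : ℝ) : Set ℝ :=
  {y | ∃ x z : ℝ, (x ^ 2 + y ^ 2, z) ∈ P ∧ w = cc * z + ss * x}

theorem compact_shSet {P : Set (ℝ × ℝ)} (h : Prof P) (cc ss : ℝ) : IsCompact (shSet P cc ss) := by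
  obtain ⟨M, hM⟩ := h.bdd
  let K : Set (ℝ × ℝ × ℝ) := {q | (q.1 ^ 2 + q.2.1 ^ 2, q.2.2) ∈ P}
  have hK : IsCompact K := by
    refine (isCompact_Icc (a := (-(M + 1), -(M + 1), -M)) (b := (M + 1, M + 1, M))).of_isClosed_subset
      (h.closed.preimage (by fun_prop)) ?_
    rintro ⟨x, y, z⟩ hq
    obtain ⟨h1, h2⟩ := hM _ hq (by positivity)
    simp only at h1 h2
    obtain ⟨h3, h4⟩ := abs_le.1 h2
    refine ⟨⟨?_, ?_, h3⟩, ⟨?_, ?_, h4⟩⟩ <;> simp only <;> nlinarith [sq_nonneg x, sq_nonneg y,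
      sq_nonneg (x + 1), sq_nonneg (x - 1), sq_nonneg (y + 1), sq_nonneg (y - 1)]
  have e : shSet P cc ss = (fun q : ℝ × ℝ × ℝ => (cc * q.2.2 + ss * q.1, q.2.1)) '' K := by
    ext ⟨w, y⟩
    constructor
    · rintro ⟨x, z, h1, h2⟩
      exact ⟨(x, y, z), h1, Prod.ext h2.symm rfl⟩
    · rintro ⟨⟨x, y', z⟩, h1, h2⟩
      obtain ⟨h3, h4⟩ := Prod.mk.inj h2
      simp only at h3 h4
      subst h4
      exact ⟨x, z, h1, h3.symm⟩
  rw [e]
  exact hK.image (by fun_prop)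

theorem vol_shSet {P : Set (ℝ × ℝ)} (h : Prof P) (cc ss : ℝ) :
    volume (shSet P cc ss) = ∫⁻ w, volume (shFib P cc ss w) := by
  rw [Measure.volume_eq_prod, Measure.prod_apply (compact_shSet h cc ss).measurableSet]
  rfl

theorem split3 (g : ℝ → ℝ≥0∞) {a b : ℝ} (hab : -a ≤ b) :
    ∫⁻ w, g w = (∫⁻ w in Icc (-a) b, g w) + ((∫⁻ w in Ioi b, g w) + ∫⁻ w in Ioi a, g (-w)) := by
  have e1 : ∫⁻ w in Ioi a, g (-w) = ∫⁻ w in Iio (-a), g w := by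
    have := (Measure.measurePreserving_neg (volume : Measure ℝ)).setLIntegral_comp_preimage_emb
      (MeasurableEquiv.neg ℝ).measurableEmbedding g (Iio (-a))
    rw [← this]
    congr 2
    ext w
    simp
  have e2 : (Icc (-a) b)ᶜ = Ioi b ∪ Iio (-a) := by
    ext w
    simp only [mem_compl_iff, mem_Icc, not_and_or, not_le, mem_union, mem_Ioi, mem_Iio]
    exact or_comm
  rw [e1, ← lintegral_add_compl g (measurableSet_Icc (a := -a) (b := b)), e2,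
    lintegral_union measurableSet_Iio]
  exact Set.disjoint_left.2 fun w h1 h2 => by
    have := mem_Ioi.1 h1
    have := mem_Iio.1 h2
    linarith

/-- steep light rays: a point above the rim casts the shadow of a point of the rim disc -/
theorem push_steep {m σ cc ss x y d : ℝ} (hσ : 0 < σ) (hss : 0 < ss) (hcc : 0 ≤ cc)
    (hm : cc ^ 2 * m ≤ ss ^ 2) (hd : 0 < d) (h : x ^ 2 + y ^ 2 ≤ m * σ ^ 2 - 2 * σ * d) :
    ∃ x', x' ^ 2 + y ^ 2 ≤ m * σ ^ 2 ∧ cc * d + ss * x = ss * x' := by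
  obtain ⟨k, hk⟩ : ∃ k, k = cc / ss := ⟨_, rfl⟩
  have hk0 : 0 ≤ k := hk ▸ div_nonneg hcc hss.le
  have hc : cc = k * ss := by rw [hk]; field_simp
  have hkm : k ^ 2 * m ≤ 1 := by
    rw [hc] at hm
    have : ss ^ 2 * (k ^ 2 * m) ≤ ss ^ 2 * 1 := by linarith
    exact le_of_mul_le_mul_left this (by positivity)
  refine ⟨x + d * k, ?_, by rw [hc]; ring⟩
  have h1 : (x * k) ^ 2 ≤ σ ^ 2 - 2 * σ * d * k ^ 2 := by
    have a1 : x ^ 2 ≤ m * σ ^ 2 - 2 * σ * d := by nlinarith [sq_nonneg y]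
    have a2 : k ^ 2 * x ^ 2 ≤ k ^ 2 * (m * σ ^ 2 - 2 * σ * d) :=
      mul_le_mul_of_nonneg_left a1 (by positivity)
    have a3 : k ^ 2 * m * σ ^ 2 ≤ 1 * σ ^ 2 := mul_le_mul_of_nonneg_right hkm (by positivity)
    nlinarith
  have h2 : d * k ^ 2 ≤ σ / 2 := by
    have a1 : σ * (d * k ^ 2) ≤ σ * (σ / 2) := by nlinarith [sq_nonneg (x * k)]
    exact le_of_mul_le_mul_left a1 hσ
  have h3 : x * k ≤ σ - d * k ^ 2 / 2 := by
    refine abs_le_of_sq_le_sq' ?_ (by linarith) |>.2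
    have : 0 ≤ σ * (d * k ^ 2) := by positivity
    nlinarith [sq_nonneg (d * k ^ 2)]
  have h4 : d * (x * k) ≤ d * (σ - d * k ^ 2 / 2) := mul_le_mul_of_nonneg_left h3 hd.le
  nlinarith

/-- in the middle band a point above the rim casts the shadow of a point of the rim disc -/
theorem push_mid {T σ cc ς x y d : ℝ} (hcc : 0 < cc) (hς : 0 ≤ ς)
    (hd : 0 < d) (h : x ^ 2 + y ^ 2 ≤ T - 2 * σ * d)
    (hw : cc * d + cc * ς * x ≤ cc * (ς ^ 2 * σ)) :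
    ∃ x', x' ^ 2 + y ^ 2 ≤ T ∧ cc * d + cc * ς * x = cc * ς * x' := by
  have h0 : d + ς * x ≤ ς ^ 2 * σ := by
    refine le_of_mul_le_mul_left ?_ hcc
    linarith
  rcases hς.eq_or_lt with rfl | hς'
  · exfalso
    linarith
  obtain ⟨e, he⟩ : ∃ e, e = d / ς := ⟨_, rfl⟩
  have hde : d = e * ς := by rw [he]; field_simp
  have he0 : 0 < e := he ▸ div_pos hd hς'
  refine ⟨x + e, ?_, by rw [hde]; ring⟩
  have h1 : x + e ≤ ς * σ := by
    refine le_of_mul_le_mul_left ?_ hς'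
    rw [hde] at h0
    linarith
  have h2 : e * (x + e) ≤ e * (ς * σ) := mul_le_mul_of_nonneg_left h1 he0.le
  rw [hde] at h
  nlinarith [sq_nonneg e]

/-- the integrand of the area of the part of the shadow cast by a cap -/
def capF (C : RCap) (cc ς ξ : ℝ) : ℝ :=
  cc * √(C.m * (1 - ξ) - ς ^ 2) *
    (C.m * C.σ ξ ^ 2 - (C.m * (1 - ξ) - ς ^ 2) * (2 * C.σ ξ * C.σ' ξ))

theorem capF_nonneg {C : RCap} (hC : C.OK) {cc ς ξ : ℝ} (hcc : 0 ≤ cc) (hξ : ξ ∈ Ioo (0 : ℝ) 1) :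
    0 ≤ capF C cc ς ξ := by
  have h1 := hC.Z'_pos ξ hξ
  have h2 := hC.σ'_nonneg ξ hξ
  have h3 := hC.σ_pos ξ (Ioo_subset_Icc_self hξ)
  rw [RCap.Z'] at h1
  refine mul_nonneg (by positivity) ?_
  have h4 : 0 ≤ C.σ ξ * (C.m * C.σ ξ / 2 - C.m * (1 - ξ) * C.σ' ξ) := by positivity
  have h5 : 0 ≤ ς ^ 2 * (C.σ ξ * C.σ' ξ) := by positivity
  nlinarith

theorem capF_cont {C : RCap} (hC : C.OK) (cc ς : ℝ) : ContinuousOn (capF C cc ς) (Ioo 0 1) := by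
  have h1 : ContinuousOn C.σ (Ioo 0 1) := hC.cσ.mono Ioo_subset_Icc_self
  have h2 := hC.cσ'
  unfold capF
  fun_prop

theorem cap_area {C : RCap} (hC : C.OK) {P : Set (ℝ × ℝ)}
    (up : ∀ p ∈ P, ∀ ξ ∈ Icc (0 : ℝ) 1, p.1 ≤ C.T ξ - 2 * C.σ ξ * (p.2 - C.Z ξ))
    (low : ∀ ξ ∈ Icc (0 : ℝ) 1, ∀ r : ℝ, r ≤ C.T ξ → (r, C.Z ξ) ∈ P)
    {cc ς : ℝ} (hcc : 0 < cc) (hm : ς ^ 2 < C.m) :
    ∫⁻ w in Ioi (cc * (C.Z 0 + ς ^ 2 * C.σ 0)), volume (shFib P cc (cc * ς) w) =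
      ∫⁻ ξ in Ioo 0 (1 - ς ^ 2 / C.m), ENNReal.ofReal (capF C cc ς ξ) := by
  have m0 := hC.m_pos
  obtain ⟨s, hs⟩ : ∃ s, s = 1 - ς ^ 2 / C.m := ⟨_, rfl⟩
  have s0 : 0 < s := by
    rw [hs, sub_pos, div_lt_one m0]; exact hm
  have s1 : s ≤ 1 := by
    have : 0 ≤ ς ^ 2 / C.m := by positivity
    linarith
  have sm : C.m * (1 - s) = ς ^ 2 := by rw [hs]; field_simp; ring
  rw [← hs]
  let W : ℝ → ℝ := fun ξ => cc * (C.Z ξ + ς ^ 2 * C.σ ξ)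
  let W' : ℝ → ℝ := fun ξ => cc * (C.Z' ξ + ς ^ 2 * C.σ' ξ)
  have hsub : Ioo 0 s ⊆ Ioo (0 : ℝ) 1 := Ioo_subset_Ioo_right s1
  have hsub' : Icc 0 s ⊆ Icc (0 : ℝ) 1 := Icc_subset_Icc_right s1
  have hW : ∀ ξ ∈ Ioo (0 : ℝ) 1, HasDerivAt W (W' ξ) ξ := fun ξ hξ =>
    ((hC.dZ ξ hξ).add ((hC.dσ ξ hξ).const_mul _)).const_mul cc
  have hW' : ∀ ξ ∈ Ioo (0 : ℝ) 1, 0 < W' ξ := fun ξ hξ => by
    have h1 := hC.Z'_pos ξ hξ
    have h2 := hC.σ'_nonneg ξ hξ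
    positivity
  have hWc : ContinuousOn W (Icc 0 s) := by
    have h1 := hC.cσ.mono hsub'
    have h2 := hC.cZ.mono hsub'
    fun_prop
  have hmono : StrictMonoOn W (Icc 0 s) := by
    refine strictMonoOn_of_deriv_pos (convex_Icc 0 s) hWc fun ξ hξ => ?_
    rw [interior_Icc] at hξ
    rw [(hW ξ (hsub hξ)).deriv]
    exact hW' ξ (hsub hξ)
  have himg : W '' Ioo 0 s = Ioo (W 0) (W s) := hWc.image_Ioo_of_strictMonoOn s0.le hmono
  have hlt : W 0 < W s := hmono (left_mem_Icc.2 s0.le) (right_mem_Icc.2 s0.le) s0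
  -- the basic inequality
  have key : ∀ ξ ∈ Icc (0 : ℝ) 1, ∀ w y, y ∈ shFib P cc (cc * ς) w →
      cc * y ^ 2 ≤ cc * (C.σ ξ ^ 2 * (C.m * (1 - ξ) - ς ^ 2)) - 2 * C.σ ξ * (w - W ξ) := by
    rintro ξ hξ w y ⟨x, z, h1, rfl⟩
    have h2 := up _ h1 ξ hξ
    simp only [RCap.T] at h2
    have h3 := mul_le_mul_of_nonneg_left h2 hcc.le
    have h4 : 0 ≤ cc * (x - ς * C.σ ξ) ^ 2 := by positivity
    simp only [W]
    nlinarith
  have above : ∀ w, W s < w → shFib P cc (cc * ς) w = ∅ := by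
    intro w hw
    refine eq_empty_of_forall_notMem fun y hy => ?_
    have h1 := key s ⟨s0.le, s1⟩ w y hy
    rw [sm, sub_self, mul_zero, mul_zero] at h1
    have h2 := hC.σ_pos s ⟨s0.le, s1⟩
    have h3 : 0 < C.σ s * (w - W s) := mul_pos h2 (sub_pos.2 hw)
    have h4 : 0 ≤ cc * y ^ 2 := by positivity
    linarith
  have fibre : ∀ ξ ∈ Ioo 0 s, shFib P cc (cc * ς) (W ξ) =
      Icc (-(C.σ ξ * √(C.m * (1 - ξ) - ς ^ 2))) (C.σ ξ * √(C.m * (1 - ξ) - ς ^ 2)) := by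
    intro ξ hξ
    have hξ' : ξ ∈ Icc (0 : ℝ) 1 := Ioo_subset_Icc_self (hsub hξ)
    have hμ : 0 ≤ C.m * (1 - ξ) - ς ^ 2 := by
      have : C.m * (1 - s) ≤ C.m * (1 - ξ) := mul_le_mul_of_nonneg_left (by linarith [hξ.2]) m0.le
      linarith
    have hσ := hC.σ_pos ξ hξ'
    have hsq : (C.σ ξ * √(C.m * (1 - ξ) - ς ^ 2)) ^ 2 = C.σ ξ ^ 2 * (C.m * (1 - ξ) - ς ^ 2) := by
      rw [mul_pow, Real.sq_sqrt hμ]
    ext y
    constructor
    · intro hy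
      have h1 := key ξ hξ' _ y hy
      rw [sub_self, mul_zero, sub_zero] at h1
      have h2 := le_of_mul_le_mul_left h1 hcc
      rw [← hsq] at h2
      exact abs_le_of_sq_le_sq' h2 (by positivity)
    · intro hy
      have h1 := sq_le_sq' hy.1 hy.2
      rw [hsq] at h1
      refine ⟨ς * C.σ ξ, C.Z ξ, low ξ hξ' _ ?_, by simp only [W]; ring⟩
      simp only [RCap.T]
      nlinarith
  have e1 : Ioi (W 0) = Ioo (W 0) (W s) ∪ Ici (W s) := (Ioo_union_Ici_eq_Ioi hlt).symm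
  have e2 : ∫⁻ w in Ici (W s), volume (shFib P cc (cc * ς) w) = 0 := by
    rw [setLIntegral_congr Ioi_ae_eq_Ici.symm]
    refine setLIntegral_eq_zero measurableSet_Ioi fun w hw => ?_
    simp only [above w hw, measure_empty, Pi.zero_apply]
  have hdisj : Disjoint (Ioo (W 0) (W s)) (Ici (W s)) :=
    Set.disjoint_left.2 fun w h1 h2 => absurd h1.2 (not_lt.2 h2)
  show ∫⁻ w in Ioi (W 0), volume (shFib P cc (cc * ς) w) = _
  rw [e1, lintegral_union measurableSet_Ici hdisj, e2, add_zero, ← himg,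
    lintegral_image_eq_lintegral_abs_deriv_mul measurableSet_Ioo
      (fun ξ hξ => (hW ξ (hsub hξ)).hasDerivWithinAt) (hmono.injOn.mono Ioo_subset_Icc_self)]
  refine setLIntegral_congr_fun measurableSet_Ioo fun ξ hξ => ?_
  rw [fibre ξ hξ, Real.volume_Icc, abs_of_pos (hW' ξ (hsub hξ)),
    ← ENNReal.ofReal_mul (hW' ξ (hsub hξ)).le]
  congr 1
  simp only [W', capF, RCap.Z']
  ring

theorem fib_neg (P : Set (ℝ × ℝ)) (cc ss w : ℝ) :
    shFib P cc ss (-w) = shFib {p : ℝ × ℝ | (p.1, -p.2) ∈ P} cc ss w := by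
  ext y
  constructor
  · rintro ⟨x, z, h1, h2⟩
    refine ⟨-x, -z, ?_, by linarith⟩
    simpa using h1
  · rintro ⟨x, z, h1, h2⟩
    refine ⟨-x, -z, ?_, by linarith⟩
    simpa using h1

theorem T_zero (C : RCap) : C.T 0 = C.m * C.σ 0 ^ 2 := by simp [RCap.T]

/-- a fibre of the shadow of `R` lies in that of `S` when the caps can be pushed to the rims -/
theorem fib_subset (h1 : StmtMem) {R S : RBody} (hR : R.OK) (hS : S.OK) (h : SameMid R S)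
    {cc ss w : ℝ}
    (hT : ∀ x y d : ℝ, 0 < d → x ^ 2 + y ^ 2 ≤ R.T.T 0 - 2 * R.T.σ 0 * d →
      w = cc * (R.zT + d) + ss * x → ∃ x', x' ^ 2 + y ^ 2 ≤ R.T.T 0 ∧ cc * d + ss * x = ss * x')
    (hB : ∀ x y d : ℝ, 0 < d → x ^ 2 + y ^ 2 ≤ R.B.T 0 - 2 * R.B.σ 0 * d →
      -w = cc * (-R.zB + d) + ss * x → ∃ x', x' ^ 2 + y ^ 2 ≤ R.B.T 0 ∧ cc * d + ss * x = ss * x') :
    shFib R.P cc ss w ⊆ shFib S.P cc ss w := by
  have mid : ∀ z ∈ Icc R.zB R.zT, ∀ r, r ≤ R.ξ0 z → (r, z) ∈ S.P := by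
    intro z hz r hr
    rw [h.zB, h.zT] at hz
    rw [h.ξ0] at hr
    exact (h1 S hS).1 z hz r hr
  have hBT : R.zB ≤ R.zT := (hR.zB_neg.trans hR.zT_pos).le
  rintro y ⟨x, z, ⟨p1, p2, p3⟩, hw⟩
  rcases lt_or_ge R.zT z with hz | hz
  · have a1 := p2 0 ⟨le_rfl, zero_le_one⟩
    simp only [hR.ZT0] at a1
    obtain ⟨x', b1, b2⟩ := hT x y (z - R.zT) (sub_pos.2 hz) a1 (by rw [hw]; ring)
    refine ⟨x', R.zT, mid _ ⟨hBT, le_rfl⟩ _ (by rw [hR.ξT]; exact b1), by rw [hw]; linarith⟩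
  rcases lt_or_ge z R.zB with hz' | hz'
  · have a1 := p3 0 ⟨le_rfl, zero_le_one⟩
    simp only [hR.ZB0] at a1
    obtain ⟨x', b1, b2⟩ := hB (-x) y (R.zB - z) (sub_pos.2 hz') (by rw [neg_sq]; linarith)
      (by rw [hw]; ring)
    refine ⟨-x', R.zB, mid _ ⟨le_rfl, hBT⟩ _ (by rw [hR.ξB, neg_sq]; exact b1),
      by rw [hw]; linarith⟩
  · have a1 := p1 z ⟨hz', hz⟩
    simp only [sub_self, mul_zero, add_zero] at a1
    exact ⟨x, z, mid z ⟨hz', hz⟩ _ a1, hw⟩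

theorem sameMid_symm {R S : RBody} (h : SameMid R S) : SameMid S R :=
  ⟨h.ξ0.symm, h.dξ0.symm, h.zB.symm, h.zT.symm, h.m.symm⟩

theorem steep_subset (h1 : StmtMem) {R S : RBody} (hR : R.OK) (hS : S.OK) (h : SameMid R S)
    {cc ss : ℝ} (hcc : 0 ≤ cc) (hss : 0 < ss) (hm : cc ^ 2 * R.T.m ≤ ss ^ 2) (w : ℝ) :
    shFib R.P cc ss w ⊆ shFib S.P cc ss w := by
  refine fib_subset h1 hR hS h (fun x y d hd hx _ => ?_) (fun x y d hd hx _ => ?_)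
  · rw [T_zero] at hx ⊢
    exact push_steep (hR.T_ok.σ_pos 0 ⟨le_rfl, zero_le_one⟩) hss hcc hm hd hx
  · rw [T_zero] at hx ⊢
    exact push_steep (hR.B_ok.σ_pos 0 ⟨le_rfl, zero_le_one⟩) hss hcc (by rw [hR.m_eq]; exact hm)
      hd hx

theorem mid_subset (h1 : StmtMem) {R S : RBody} (hR : R.OK) (hS : S.OK) (h : SameMid R S)
    {cc ς w : ℝ} (hcc : 0 < cc) (hς : 0 ≤ ς)
    (hw : w ∈ Icc (-(cc * (R.B.Z 0 + ς ^ 2 * R.B.σ 0))) (cc * (R.T.Z 0 + ς ^ 2 * R.T.σ 0))) :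
    shFib R.P cc (cc * ς) w ⊆ shFib S.P cc (cc * ς) w := by
  obtain ⟨w1, w2⟩ := hw
  rw [hR.ZB0] at w1
  rw [hR.ZT0] at w2
  refine fib_subset h1 hR hS h (fun x y d hd hx hw => ?_) (fun x y d hd hx hw => ?_)
  · exact push_mid hcc hς hd hx (by linarith)
  · exact push_mid hcc hς hd hx (by linarith)

theorem vol_flat (h1 : StmtMem) (h2 : StmtProf) {R : RBody} (hR : R.OK) {cc ς : ℝ}
    (hcc : 0 < cc) (hm : ς ^ 2 < R.T.m) :
    volume (shSet R.P cc (cc * ς)) =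
      (∫⁻ w in Icc (-(cc * (R.B.Z 0 + ς ^ 2 * R.B.σ 0))) (cc * (R.T.Z 0 + ς ^ 2 * R.T.σ 0)),
        volume (shFib R.P cc (cc * ς) w)) +
      ∫⁻ ξ in Ioo 0 (1 - ς ^ 2 / R.T.m),
        ENNReal.ofReal (capF R.T cc ς ξ + capF R.B cc ς ξ) := by
  have z1 := hR.zB_neg
  have z2 := hR.zT_pos
  have z3 := hR.T_ok.σ_pos 0 ⟨le_rfl, zero_le_one⟩
  have z4 := hR.B_ok.σ_pos 0 ⟨le_rfl, zero_le_one⟩
  have hab : -(cc * (R.B.Z 0 + ς ^ 2 * R.B.σ 0)) ≤ cc * (R.T.Z 0 + ς ^ 2 * R.T.σ 0) := by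
    rw [hR.ZB0, hR.ZT0]
    have a1 : 0 ≤ cc * (R.zT + ς ^ 2 * R.T.σ 0) := by positivity
    have a2 : 0 ≤ cc * (-R.zB + ς ^ 2 * R.B.σ 0) := by
      have : 0 < -R.zB := neg_pos.2 z1
      positivity
    linarith
  have hsub : Ioo 0 (1 - ς ^ 2 / R.T.m) ⊆ Ioo (0 : ℝ) 1 := by
    refine Ioo_subset_Ioo_right ?_
    have : 0 ≤ ς ^ 2 / R.T.m := by have := hR.T_ok.m_pos; positivity
    linarith
  rw [vol_shSet (h2 R hR), split3 _ hab]
  congr 1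
  simp only [fib_neg]
  rw [cap_area hR.T_ok (fun p hp => hp.2.1) (h1 R hR).2.1 hcc hm,
    cap_area hR.B_ok (P := {p : ℝ × ℝ | (p.1, -p.2) ∈ R.P})
      (fun p hp ξ hξ => by simpa using hp.2.2 ξ hξ) (h1 R hR).2.2 hcc (by rw [hR.m_eq]; exact hm),
    hR.m_eq, ← lintegral_add_left']
  · refine setLIntegral_congr_fun measurableSet_Ioo fun ξ hξ => ?_
    exact (ENNReal.ofReal_add (capF_nonneg hR.T_ok hcc.le (hsub hξ))
      (capF_nonneg hR.B_ok hcc.le (hsub hξ))).symm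
  · exact (((capF_cont hR.T_ok cc ς).mono hsub).aemeasurable measurableSet_Ioo).ennreal_ofReal

end GeoShadow

open GeoShadow in
theorem geo_shadow (h1 : StmtMem) (h2 : StmtProf) : StmtShadow := by
  intro R S hR hS h hσ cc ss hcc hss hcs
  have m0 := hR.T_ok.m_pos
  rcases le_or_gt (cc ^ 2 * R.T.m) (ss ^ 2) with hm | hm
  · have hss' : 0 < ss := by
      rcases hss.eq_or_lt with rfl | h'
      · exfalso
        have : cc ^ 2 = 1 := by linarith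
        rw [this] at hm
        linarith
      · exact h'
    rw [vol_shSet (h2 R hR), vol_shSet (h2 S hS)]
    congr 1
    ext w
    rw [subset_antisymm (steep_subset h1 hR hS h hcc hss' hm w)
      (steep_subset h1 hS hR (sameMid_symm h) hcc hss' (by rw [← h.m]; exact hm) w)]
  · have hcc' : 0 < cc := by
      rcases hcc.eq_or_lt with rfl | h'
      · exfalso
        nlinarith [sq_nonneg ss]
      · exact h'
    obtain ⟨ς, hς⟩ : ∃ ς, ς = ss / cc := ⟨_, rfl⟩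
    have hς0 : 0 ≤ ς := hς ▸ div_nonneg hss hcc
    obtain rfl : ss = cc * ς := by rw [hς]; field_simp
    have hm' : ς ^ 2 < R.T.m := by
      rw [mul_pow] at hm
      exact lt_of_mul_lt_mul_left hm (by positivity)
    have eT : S.T.σ 0 = R.T.σ 0 := by
      have a1 := hR.dT
      have a2 := hS.dT
      rw [h.dξ0, h.zT] at a1
      linarith
    have eB : S.B.σ 0 = R.B.σ 0 := by
      have a1 := hR.dB
      have a2 := hS.dB
      rw [h.dξ0, h.zB] at a1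
      linarith
    have eZT : S.T.Z 0 = R.T.Z 0 := by rw [hR.ZT0, hS.ZT0, h.zT]
    have eZB : S.B.Z 0 = R.B.Z 0 := by rw [hR.ZB0, hS.ZB0, h.zB]
    rw [vol_flat h1 h2 hR hcc' hm', vol_flat h1 h2 hS hcc' (by rw [← h.m]; exact hm'),
      eT, eB, eZT, eZB, ← h.m]
    congr 1
    · refine setLIntegral_congr_fun measurableSet_Icc fun w hw => ?_
      rw [subset_antisymm (mid_subset h1 hR hS h hcc' hς0 hw)
        (mid_subset h1 hS hR (sameMid_symm h) hcc' hς0 (by rw [eT, eB, eZT, eZB]; exact hw))]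
    · refine setLIntegral_congr_fun measurableSet_Ioo fun ξ hξ => ?_
      have hξ' : ξ ∈ Ioo (0 : ℝ) 1 := by
        refine ⟨hξ.1, hξ.2.trans_le ?_⟩
        have : 0 ≤ ς ^ 2 / R.T.m := by positivity
        linarith
      have d1 := ((hR.T_ok.dσ ξ hξ').fun_pow 2).fun_add ((hR.B_ok.dσ ξ hξ').fun_pow 2)
      have d2 := ((hS.T_ok.dσ ξ hξ').fun_pow 2).fun_add ((hS.B_ok.dσ ξ hξ').fun_pow 2)
      have d3 := d1.unique (d2.congr_of_eventuallyEq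
        (Filter.eventually_of_mem (Icc_mem_nhds hξ'.1 hξ'.2) hσ))
      have d4 := hσ ξ (Ioo_subset_Icc_self hξ')
      simp only [Nat.cast_ofNat, Nat.add_one_sub_one, pow_one] at d3
      congr 1
      simp only [capF, hR.m_eq, hS.m_eq, ← h.m]
      linear_combination (cc * √(R.T.m * (1 - ξ) - ς ^ 2) * R.T.m) * d4 -
        (cc * √(R.T.m * (1 - ξ) - ς ^ 2) * (R.T.m * (1 - ξ) - ς ^ 2)) * d3

end

end Pool.Agent.Lib.MP_87c84d_gt
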