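import Pool.Agent.Lib.MP_87c84d_gt.Defs

/-!
The Newton iteration on shrinking triangles.
-/

namespace Pool.Agent.Lib.MP_87c84d_gt

open MeasureTheory Set Metric Filter Topology

noncomputable section

namespace Newton

theorem wF_nonneg (x : ℂ) : 0 ≤ wF x := by unfold wF; positivity

theorem good_mono {D : Data} {v : ℂ → ℂ} {s θ ε s' θ' ε' : ℝ} (h : D.Good v s θ ε)
    (hs0 : 0 ≤ s') (hs : s' ≤ s) (hθ : θ ≤ θ') (hε : ε ≤ ε') : D.Good v s' θ' ε' := by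
  have hU := U.mono hs0 hs
  have k : ∀ x : ℂ, (D.t / 500 + θ) * ‖1 - x‖ ≤ (D.t / 500 + θ') * ‖1 - x‖ := fun x =>
    mul_le_mul_of_nonneg_right (by linarith) (norm_nonneg _)
  exact
    { hol := h.hol.mono hU
      zero := h.zero
      real := fun ξ hξ => h.real ξ (hU hξ)
      b0 := fun ξ hξ => (h.b0 ξ (hU hξ)).trans (mul_le_mul_of_nonneg_right hθ (by positivity))
      b1 := fun ξ hξ => (h.b1 ξ (hU hξ)).trans (mul_le_mul_of_nonneg_right hθ (by positivity))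
      gT1 := fun x hx r hr => (h.gT1 x (hU hx) r hr).trans (k x)
      gT2 := fun x hx r hr => (h.gT2 x (hU hx) r hr).trans (k x)
      gB1 := fun x hx r hr => (h.gB1 x (hU hx) r hr).trans (k x)
      gB2 := fun x hx r hr => (h.gB2 x (hU hx) r hr).trans (k x)
      gQ := fun x hx => le_trans (by linarith) (h.gQ x (hU hx))
      F := fun x hx => (h.F x (hU hx)).trans (mul_le_mul_of_nonneg_right hε (wF_nonneg x)) }

theorem nu_bound {f : ℂ → ℂ} {s A : ℝ} (hs : 0 < s) (hA : 0 ≤ A)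
    (hb : ∀ ξ ∈ U s, ‖f ξ‖ ≤ A * ‖ξ‖ ^ 8) :
    ∀ r ∈ Ioo (0 : ℝ) 1, ‖((√(1 - r) : ℝ) : ℂ) * f r‖ ≤ A := by
  intro r hr
  have h1 := hb r (U.ofReal_mem hs ⟨hr.1, hr.2.le⟩)
  have h2 : ‖(r : ℂ)‖ ^ 8 ≤ 1 := by
    rw [Complex.norm_real, Real.norm_eq_abs, abs_of_pos hr.1]
    exact pow_le_one₀ hr.1.le hr.2.le
  have h3 : ‖((√(1 - r) : ℝ) : ℂ)‖ ≤ 1 := by
    rw [Complex.norm_real, Real.norm_eq_abs, abs_of_nonneg (Real.sqrt_nonneg _)]
    exact Real.sqrt_le_one.2 (by linarith [hr.1])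
  rw [norm_mul]
  calc _ ≤ 1 * (A * 1) := by
        refine mul_le_mul h3 (h1.trans ?_) (norm_nonneg _) zero_le_one
        exact mul_le_mul_of_nonneg_left h2 hA
    _ = A := by ring

theorem nu_ii {f : ℂ → ℂ} {s A : ℝ} (hs : 0 < s) (hA : 0 ≤ A) (hf : DifferentiableOn ℂ f (U s))
    (hb : ∀ ξ ∈ U s, ‖f ξ‖ ≤ A * ‖ξ‖ ^ 8) :
    IntervalIntegrable (fun r : ℝ => ((√(1 - r) : ℝ) : ℂ) * f r) volume 0 1 := by
  refine ii_of_bound_const ?_ (nu_bound hs hA hb)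
  refine ContinuousOn.mul (by fun_prop) ?_
  exact hf.continuousOn.comp Complex.continuous_ofReal.continuousOn
    fun r hr => U.ofReal_mem hs ⟨hr.1, hr.2.le⟩

theorem nu_add {f g : ℂ → ℂ} {s A B : ℝ} (hs : 0 < s) (hA : 0 ≤ A) (hB : 0 ≤ B)
    (hf : DifferentiableOn ℂ f (U s)) (hfb : ∀ ξ ∈ U s, ‖f ξ‖ ≤ A * ‖ξ‖ ^ 8)
    (hg : DifferentiableOn ℂ g (U s)) (hgb : ∀ ξ ∈ U s, ‖g ξ‖ ≤ B * ‖ξ‖ ^ 8) :
    nu (f + g) = nu f + nu g := by
  unfold nu
  rw [← intervalIntegral.integral_add (nu_ii hs hA hf hfb) (nu_ii hs hB hg hgb)]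
  simp only [Pi.add_apply, mul_add]

theorem nu_le {f : ℂ → ℂ} {s A : ℝ} (hs : 0 < s) (hA : 0 ≤ A)
    (hb : ∀ ξ ∈ U s, ‖f ξ‖ ≤ A * ‖ξ‖ ^ 8) : ‖nu f‖ ≤ A :=
  norm_int_le_const (nu_bound hs hA hb)

theorem nu_start {δ : ℝ} (hδ : 0 < δ) : nu (fun ξ => (δ : ℂ) * ξ ^ 8) ≠ 0 := by
  have e : nu (fun ξ => (δ : ℂ) * ξ ^ 8) =
      ((∫ r in (0 : ℝ)..1, √(1 - r) * (δ * r ^ 8) : ℝ) : ℂ) := by
    unfold nu
    rw [← intervalIntegral.integral_ofReal]
    simp only [Complex.ofReal_mul, Complex.ofReal_pow]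
  rw [e, Complex.ofReal_ne_zero]
  refine (intervalIntegral.intervalIntegral_pos_of_pos_on
    (Continuous.intervalIntegrable (by fun_prop) _ _) (fun r hr => ?_) zero_lt_one).ne'
  have h1 : 0 < √(1 - r) := Real.sqrt_pos.2 (by linarith [hr.2])
  have h2 := hr.1
  positivity

/-- the gap at step `n` -/
def gap (n : ℕ) : ℝ := (1 / 2) ^ n / 128

theorem gap_pos (n : ℕ) : 0 < gap n := by unfold gap; positivity

theorem gap_le (n : ℕ) : gap n ≤ 1 / 128 := by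
  unfold gap
  have : (1 / 2 : ℝ) ^ n ≤ 1 := pow_le_one₀ (by norm_num) (by norm_num)
  linarith

theorem gap_succ (n : ℕ) : gap (n + 1) = gap n / 2 := by unfold gap; rw [pow_succ]; ring

theorem gap_add (k n : ℕ) : gap (k + n) = gap n * (1 / 2) ^ k := by
  unfold gap; rw [pow_add]; ring

theorem gap_lim : Tendsto gap atTop (𝓝 0) := by
  have := (tendsto_pow_atTop_nhds_zero_of_lt_one (r := (1 / 2 : ℝ)) (by norm_num)
    (by norm_num)).div_const 128
  rwa [zero_div] at this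

/-- one step of the iteration -/
theorem step {D : Data} {θ1 C1 θ2 C2 θm η d : ℝ} (h1 : D.StabFacts θ1 C1)
    (h2 : D.SolveFacts θ2 C2) (m1 : θm ≤ θ1) (m2 : θm ≤ θ2) (hη : 0 < η)
    (e1 : 2 * C1 * C2 ^ 2 * η ≤ 1) (e2 : 128 * (C1 * C2 * η) ≤ θm) (d0 : 0 < d) (d1 : d ≤ 1 / 128)
    {v : ℂ → ℂ} (hv : D.Good v (3 / 16 + 4 * d) (θm / 2 - 2 * (C1 * C2 * η) * d) (η * d ^ 7)) :
    ∃ u : ℂ → ℂ, u 0 = 0 ∧ Cls (U (3 / 16)) (fun ξ => ‖ξ‖ ^ 8) u (C2 * η * d) ∧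
      nu (v + u) = nu v ∧
      D.Good (v + u) (3 / 16 + 4 * (d / 2)) (θm / 2 - 2 * (C1 * C2 * η) * (d / 2))
        (η * (d / 2) ^ 7) := by
  have c1 := h1.C_ge
  have c2 := h2.C_ge
  obtain ⟨K, hK⟩ : ∃ K, K = C1 * C2 * η := ⟨_, rfl⟩
  have K0 : 0 < K := by rw [hK]; positivity
  have K1 : 2 * K * C2 ≤ 1 := by rw [hK]; linarith
  have K2 : 2 * K ≤ 1 := by nlinarith
  rw [← hK] at hv e2 ⊢
  have t0 : 0 ≤ θm / 2 - 2 * K * d := by nlinarith
  have t1 : θm / 2 - 2 * K * d ≤ θm := by nlinarith [mul_pos K0 d0]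
  have ε0 : 0 ≤ η * d ^ 7 := by positivity
  obtain ⟨u, u1, u2, u3, u4, u5, u6⟩ := h2.solve v (3 / 16 + 4 * d) (3 / 16 + 3 * d) _ _
    (by linarith) (by linarith) (by linarith) hv t0 (t1.trans m2) ε0
  have eA : C2 * (η * d ^ 7) / (3 / 16 + 4 * d - (3 / 16 + 3 * d)) ^ 2 = C2 * η * d ^ 5 := by
    rw [show 3 / 16 + 4 * d - (3 / 16 + 3 * d) = d by ring]
    field_simp
  rw [eA] at u4
  have hU : U (3 / 16 + 3 * d) ⊆ U (3 / 16 + 4 * d) := U.mono (by linarith) (by linarith)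
  have hU' : U (3 / 16) ⊆ U (3 / 16 + 3 * d) := U.mono (by linarith) (by linarith)
  have hU'' : U (3 / 16 + 4 * (d / 2)) ⊆ U (3 / 16 + 4 * d) := U.mono (by linarith) (by linarith)
  have hv' := good_mono hv (s' := 3 / 16 + 3 * d) (by linarith) (by linarith) le_rfl le_rfl
  have A0 : 0 ≤ C2 * η * d ^ 5 := by positivity
  have dd : d ≤ 1 := by linarith
  have d4 : d ^ 4 ≤ 1 := pow_le_one₀ d0.le dd
  have d5 : d ^ 5 ≤ d := by
    calc d ^ 5 = d * d ^ 4 := by ring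
      _ ≤ d * 1 := mul_le_mul_of_nonneg_left d4 d0.le
      _ = d := mul_one d
  have eg : 3 / 16 + 3 * d - (3 / 16 + 4 * (d / 2)) = d := by ring
  have hs := h1.stab v (3 / 16 + 3 * d) (3 / 16 + 4 * (d / 2)) _ _ u (C2 * η * d ^ 5) 0
    (by linarith) (by linarith) (by linarith) hv' t0 (t1.trans m1) ε0 (u1.mono hU) u2
    (fun ξ hξ => u3 ξ (hU hξ)) A0 u4
    (by
      rw [eg, show C1 * (C2 * η * d ^ 5) = K * d ^ 5 by rw [hK]; ring]
      nlinarith [pow_pos d0 5])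
    (fun x hx => by rw [u6 x (hU'' hx), norm_zero, zero_mul])
  rw [eg] at hs
  refine ⟨u, u2, ⟨(u1.mono hU).mono hU', fun ξ hξ => u3 ξ (hU (hU' hξ)), fun ξ hξ => ?_⟩, ?_, ?_⟩
  · refine (u4 ξ (hU' hξ)).trans (mul_le_mul_of_nonneg_right ?_ (by positivity))
    exact mul_le_mul_of_nonneg_left d5 (by positivity)
  · rw [nu_add (s := 3 / 16 + 3 * d) (by linarith) t0 A0 hv'.hol hv'.b0 (u1.mono hU) u4, u5,
      add_zero]
  · refine good_mono hs (by linarith) le_rfl ?_ ?_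
    · have : C1 * (C2 * η * d ^ 5) / d ^ 3 = K * d * d := by rw [hK]; field_simp
      rw [this]
      nlinarith [mul_pos K0 d0]
    · have : C1 * ((C2 * η * d ^ 5) ^ 2 + η * d ^ 7 * (C2 * η * d ^ 5)) / d ^ 2 =
          η * d ^ 7 * (d * (K * (C2 + d ^ 2))) := by rw [hK]; field_simp
      rw [this, zero_add, show η * (d / 2) ^ 7 = η * d ^ 7 * (1 / 128) by ring]
      refine mul_le_mul_of_nonneg_left ?_ ε0
      have a1 : d ^ 2 ≤ C2 := (pow_le_one₀ d0.le dd).trans c2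
      have a2 : K * (C2 + d ^ 2) ≤ 1 := by nlinarith
      have a3 : 0 ≤ K * (C2 + d ^ 2) := by positivity
      nlinarith

/-- the starting point of the iteration -/
theorem start {D : Data} {θ1 C1 a b : ℝ} (h0 : D.Good 0 (1 / 4) 0 0) (h1 : D.StabFacts θ1 C1)
    (ha : 0 < a) (hb : 0 < b) : ∃ v : ℂ → ℂ, D.Good v (7 / 32) a b ∧ nu v ≠ 0 := by
  have c1 := h1.C_ge
  have c0 : 0 < C1 := by linarith
  obtain ⟨γ, γ0, γ1, γ2, γ3⟩ : ∃ γ : ℝ, 0 < γ ∧ γ ≤ 1 / 32 ∧ γ ≤ a / 32768 ∧ γ ≤ b / 1025 :=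
    ⟨min (1 / 32) (min (a / 32768) (b / 1025)), by positivity, min_le_left _ _,
      (min_le_right _ _).trans (min_le_left _ _), (min_le_right _ _).trans (min_le_right _ _)⟩
  obtain ⟨δ, hδ⟩ : ∃ δ, δ = γ / C1 := ⟨_, rfl⟩
  have δ0 : 0 < δ := by rw [hδ]; positivity
  have eδ : C1 * δ = γ := by rw [hδ]; field_simp
  have δ1 : δ ≤ 1 := by nlinarith
  have hu : DifferentiableOn ℂ (fun ξ : ℂ => (δ : ℂ) * ξ ^ 8) (U (1 / 4)) := by fun_prop
  have hb' : ∀ ξ ∈ U (1 / 4), ‖(δ : ℂ) * ξ ^ 8‖ ≤ δ * ‖ξ‖ ^ 8 := fun ξ _ => by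
    rw [norm_mul, norm_pow, Complex.norm_real, Real.norm_eq_abs, abs_of_pos δ0]
  have hU : U (7 / 32) ⊆ U (1 / 4) := U.mono (by norm_num) (by norm_num)
  have hs := h1.stab 0 (1 / 4) (7 / 32) 0 0 (fun ξ : ℂ => (δ : ℂ) * ξ ^ 8) δ (C1 * δ)
    (by norm_num) (by norm_num) le_rfl h0 le_rfl h1.θ_pos.le le_rfl hu (by simp)
    (fun ξ _ hi => by
      have : ξ = (ξ.re : ℂ) := Complex.ext (by simp) (by simp [hi])
      show ((δ : ℂ) * ξ ^ 8).im = 0
      rw [this, ← Complex.ofReal_pow, ← Complex.ofReal_mul, Complex.ofReal_im])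
    δ0.le hb' (by rw [eδ]; linarith)
    (fun x hx => by
      have a1 := h0.F x (hU hx)
      rw [zero_mul, norm_le_zero_iff] at a1
      rw [a1, zero_add]
      exact h1.lbd 0 (1 / 4) 0 0 _ δ (by norm_num) le_rfl h0 le_rfl h1.θ_pos.le hu hb' x (hU hx))
  rw [zero_add] at hs
  refine ⟨_, good_mono hs (by norm_num) le_rfl ?_ ?_, nu_start δ0⟩
  · rw [eδ]
    norm_num
    linarith
  · rw [zero_mul, add_zero, show C1 * δ ^ 2 = C1 * δ * δ by ring, eδ]
    norm_num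
    nlinarith

end Newton

open Newton in
theorem an_newton : StmtNewton := by
  intro D θ1 C1 θ2 C2 h0 h1 h2 θ3 hθ3
  have c1 := h1.C_ge
  have c2 := h2.C_ge
  obtain ⟨θm, m0, m1, m2, m3⟩ : ∃ θm : ℝ, 0 < θm ∧ θm ≤ θ1 ∧ θm ≤ θ2 ∧ θm ≤ θ3 :=
    ⟨min θ1 (min θ2 θ3), lt_min h1.θ_pos (lt_min h2.θ_pos hθ3), min_le_left _ _,
      (min_le_right _ _).trans (min_le_left _ _), (min_le_right _ _).trans (min_le_right _ _)⟩
  obtain ⟨η, η0, e1, e2⟩ : ∃ η : ℝ, 0 < η ∧ 2 * C1 * C2 ^ 2 * η ≤ 1 ∧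
      128 * (C1 * C2 * η) ≤ θm := by
    have p1 : 0 < 2 * C1 * C2 ^ 2 := by positivity
    have p2 : 0 < 128 * (C1 * C2) := by positivity
    refine ⟨min (1 / (2 * C1 * C2 ^ 2)) (θm / (128 * (C1 * C2))), by positivity, ?_, ?_⟩
    · rw [← le_div_iff₀' p1]
      exact min_le_left _ _
    · rw [← mul_assoc 128, ← le_div_iff₀' p2]
      exact min_le_right _ _
  obtain ⟨K, hK⟩ : ∃ K, K = C1 * C2 * η := ⟨_, rfl⟩
  have K0 : 0 < K := by rw [hK]; positivity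
  have K1 : 2 * K * C2 ≤ 1 := by rw [hK]; linarith
  have K2 : 2 * K ≤ 1 := by nlinarith
  have e2' : 128 * K ≤ θm := hK ▸ e2
  let P : ℕ → (ℂ → ℂ) → Prop := fun n v =>
    D.Good v (3 / 16 + 4 * gap n) (θm / 2 - 2 * (C1 * C2 * η) * gap n) (η * gap n ^ 7)
  have hstep : ∀ n v, P n v → ∃ u : ℂ → ℂ, u 0 = 0 ∧
      Cls (U (3 / 16)) (fun ξ => ‖ξ‖ ^ 8) u (C2 * η * gap n) ∧ nu (v + u) = nu v ∧
      P (n + 1) (v + u) := by
    intro n v hv
    obtain ⟨u, a1, a2, a3, a4⟩ := step h1 h2 m1 m2 η0 e1 e2 (gap_pos n) (gap_le n) hv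
    refine ⟨u, a1, a2, a3, ?_⟩
    simp only [P, gap_succ]
    exact a4
  choose! W w1 w2 w3 w4 using hstep
  have g0 : gap 0 = 1 / 128 := by simp [gap]
  obtain ⟨v0, hv0, hnu⟩ := start (a := θm / 2 - 2 * (C1 * C2 * η) * gap 0) (b := η * gap 0 ^ 7)
    h0 h1 (by rw [g0, ← hK]; linarith) (by have := gap_pos 0; positivity)
  let v : ℕ → ℂ → ℂ := fun n => Nat.rec v0 (fun n w => w + W n w) n
  have vs : ∀ n, v (n + 1) = v n + W n (v n) := fun n => rfl
  have hP : ∀ n, P n (v n) := by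
    intro n
    induction n with
    | zero =>
      have : (3 / 16 + 4 * gap 0 : ℝ) = 7 / 32 := by rw [g0]; norm_num
      simp only [P, this]
      exact hv0
    | succ n ih => exact w4 n _ ih
  have hn : ∀ n, nu (v n) = nu v0 := by
    intro n
    induction n with
    | zero => rfl
    | succ n ih => rw [vs, w3 n _ (hP n), ih]
  let u : ℕ → ℂ → ℂ := fun n => W n (v n)
  have hsum : ∀ n ξ, v n ξ = v0 ξ + ∑ k ∈ Finset.range n, u k ξ := by
    intro n ξ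
    induction n with
    | zero => simp [v]
    | succ n ih => rw [vs, Pi.add_apply, ih, Finset.sum_range_succ, add_assoc]
  let V : ℂ → ℂ := fun ξ => v0 ξ + ∑' k, u k ξ
  have hω : ∀ z ∈ U (3 / 16), 0 ≤ ‖z‖ ^ 8 ∧ ‖z‖ ^ 8 ≤ (13 / 10 : ℝ) ^ 8 := fun z hz =>
    ⟨by positivity, pow_le_pow_left₀ (norm_nonneg _)
      (U.norm_lt (by norm_num) (by norm_num) hz).le 8⟩
  have tail : ∀ n, (∀ z ∈ U (3 / 16), Summable fun k => u (k + n) z) ∧
      Cls (U (3 / 16)) (fun ξ => ‖ξ‖ ^ 8) (fun z => ∑' k, u (k + n) z) (2 * C2 * η * gap n) := by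
    intro n
    have gp := gap_pos n
    have := Cls.tsum (isOpen_U (3 / 16)) hω (d := fun k => u (k + n))
      (A := fun k => C2 * η * gap n * (1 / 2) ^ k) (fun k => by positivity)
      (summable_geometric_two.mul_left _) (fun k => by
        have := w2 (k + n) _ (hP (k + n))
        rw [gap_add, ← mul_assoc] at this
        exact this)
    rw [tsum_mul_left, tsum_geometric_two] at this
    refine ⟨this.1, ?_⟩
    rw [show 2 * C2 * η * gap n = C2 * η * gap n * 2 by ring]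
    exact this.2
  have hT : ∀ n, Cls (U (3 / 16)) (fun ξ => ‖ξ‖ ^ 8) (V - v n) (2 * C2 * η * gap n) := by
    intro n
    refine (tail n).2.congr fun z hz => ?_
    have s0 : Summable fun k => u k z := by simpa using (tail 0).1 z hz
    simp only [Pi.sub_apply, V]
    rw [hsum n z, ← s0.sum_add_tsum_nat_add n]
    ring
  have hT0 : ∀ n, (V - v n) 0 = 0 := by
    intro n
    have a1 : ∀ k, u k 0 = 0 := fun k => w1 k _ (hP k)
    simp only [Pi.sub_apply, V, a1, tsum_zero, add_zero, hv0.zero, (hP n).zero, sub_self]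
  have hG : ∀ n, D.Good (v n) (3 / 16) (θm / 2) (η * gap n ^ 7) := by
    intro n
    have gp := gap_pos n
    refine good_mono (hP n) (by norm_num) (by linarith) ?_ le_rfl
    rw [← hK]
    nlinarith [mul_pos K0 gp]
  let f : ℝ → ℝ := fun d => η * d ^ 7 + C1 * (2 * C2 * η * d) +
    C1 * ((2 * C2 * η * d) ^ 2 + η * d ^ 7 * (2 * C2 * η * d)) / (3 / 16 - 1 / 8) ^ 2
  have hfin : ∀ n, D.Good V (1 / 8) θm (f (gap n)) := by
    intro n
    have gp := gap_pos n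
    have gl := gap_le n
    have eK : C1 * (2 * C2 * η * gap n) = 2 * K * gap n := by rw [hK]; ring
    have hU : U (1 / 8) ⊆ U (3 / 16) := U.mono (by norm_num) (by norm_num)
    have hs := h1.stab (v n) (3 / 16) (1 / 8) _ _ (V - v n) (2 * C2 * η * gap n)
      (η * gap n ^ 7 + C1 * (2 * C2 * η * gap n)) le_rfl (by norm_num) (by norm_num) (hG n)
      (by linarith) (by linarith) (by positivity) (hT n).hol (hT0 n) (hT n).real (by positivity)
      (hT n).bd (by rw [eK]; nlinarith)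
      (fun x hx => by
        refine (norm_add_le _ _).trans ?_
        rw [add_mul]
        exact add_le_add ((hG n).F x (hU hx))
          (h1.lbd (v n) (3 / 16) _ _ _ _ (by norm_num) (by norm_num) (hG n) (by linarith)
            (by linarith) (hT n).hol (hT n).bd x (hU hx)))
    rw [add_sub_cancel] at hs
    refine good_mono hs (by norm_num) le_rfl ?_ le_rfl
    rw [eK]
    norm_num
    nlinarith
  have hlim : Tendsto (fun n => f (gap n)) atTop (𝓝 0) := by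
    have hc : Continuous f := by fun_prop
    have := (hc.tendsto 0).comp gap_lim
    have e : f 0 = 0 := by simp [f]
    rwa [e] at this
  refine ⟨V, θm, m0.le, m3, { hfin 0 with F := fun x hx => ?_ }, ?_⟩
  · exact ge_of_tendsto' (hlim.mul_const (wF x)) fun n => (hfin n).F x hx
  · have e : nu V = nu v0 := by
      rw [← sub_eq_zero, ← norm_le_zero_iff]
      have hl : Tendsto (fun n => 2 * C2 * η * gap n) atTop (𝓝 0) := by
        simpa using gap_lim.const_mul (2 * C2 * η)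
      refine ge_of_tendsto' hl fun n => ?_
      have gp := gap_pos n
      have a1 := nu_add (s := 3 / 16) (by norm_num) (by linarith) (by positivity) (hG n).hol
        (hG n).b0 (hT n).hol (hT n).bd
      rw [add_sub_cancel, hn n] at a1
      rw [a1, add_sub_cancel_left]
      exact nu_le (s := 3 / 16) (by norm_num) (by positivity) (hT n).bd
    rwa [e]

end

end Pool.Agent.Lib.MP_87c84d_gt
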