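import Pool.Agent.Lib.MP_87c84d_gt.Sec
import Pool.Agent.Lib.MP_87c84d_gt.GeoHaus
import Pool.Agent.Lib.MP_87c84d_gt.GeoShadow
import Pool.Agent.Lib.MP_87c84d_gt.GeoCrude
import Pool.Agent.Lib.MP_87c84d_gt.GeoNonCong
import Pool.Agent.Lib.MP_87c84d_gt.Newton
import Pool.Agent.Lib.MP_87c84d_gt.Abel
import Pool.Agent.Lib.MP_87c84d_gt.BaseDefs

/-!
The two bodies of revolution: assembly of the geometric and analytic steps.
-/

namespace Pool.Agent.Lib.MP_87c84d_gt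

open MeasureTheory Set Metric Filter Topology

noncomputable section

/-- Two profiles whose bodies of revolution are close to the unit ball, have equal maximal
sections and equal shadows and are not congruent. -/
def Pair (κ : ℝ) (P₁ P₂ : Set (ℝ × ℝ)) : Prop :=
  (∀ X : E3, ‖X‖ ^ 2 ≤ 1 - κ → X ∈ body P₁ ∧ X ∈ body P₂) ∧
  (∀ X : E3, X ∈ body P₁ ∨ X ∈ body P₂ → ‖X‖ ^ 2 ≤ 1 + κ) ∧
  IsCompact (body P₁) ∧ Convex ℝ (body P₁) ∧ (interior (body P₁)).Nonempty ∧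
  IsCompact (body P₂) ∧ Convex ℝ (body P₂) ∧ (interior (body P₂)).Nonempty ∧
  (∀ e : E3, ‖e‖ = 1 →
    ((⨆ t : ℝ, Measure.hausdorffMeasure (2 : ℝ) (body P₁ ∩ {x : E3 | inner ℝ x e = t})) =
      ⨆ t : ℝ, Measure.hausdorffMeasure (2 : ℝ) (body P₂ ∩ {x : E3 | inner ℝ x e = t})) ∧
    Measure.hausdorffMeasure (2 : ℝ) ((fun x : E3 => x - (inner ℝ x e) • e) '' body P₁) =
      Measure.hausdorffMeasure (2 : ℝ) ((fun x : E3 => x - (inner ℝ x e) • e) '' body P₂)) ∧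
  ∀ f : E3 ≃ᵢ E3, f '' body P₂ ≠ body P₁

namespace Sec

variable {D : Data} {R e ω C θ : ℝ} {v : ℂ → ℂ}

lemma interior_nonempty {K : Set E3} {κ : ℝ} (hκ : κ ≤ 1 / 2)
    (h : ∀ X : E3, ‖X‖ ^ 2 ≤ 1 - κ → X ∈ K) : (interior K).Nonempty := by
  refine ⟨0, mem_interior.mpr ⟨ball 0 (1 / 2), fun X hX => h X ?_, isOpen_ball,
    mem_ball_self (by norm_num)⟩⟩
  rw [mem_ball_zero_iff] at hX
  nlinarith [norm_nonneg X]

theorem pair (H : Setup D R e ω C θ v) (G : Setup D R e ω C 0 0) (hκ : θ ≤ D.κ / 100)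
    (hv : nu v ≠ 0) : Pair D.κ (D.rbody v).P (D.rbody 0).P := by
  have hR := H.rb_ok
  have hS := G.rb_ok
  have hm : SameMid (D.rbody v) (D.rbody 0) := ⟨rfl, rfl, rfl, rfl, rfl⟩
  have m0 := H.an.m_pos
  have m1 := H.an.m_le
  have k0 := H.ge.κ_pos
  have k1 := H.ge.κ_le
  have cT : ∀ r ∈ Icc (0 : ℝ) 1, ‖(D.capT v).τ r - (D.capT 0).τ r‖ ≤ θ := fun r hr => by
    simpa [Data.capT] using H.v_le' hr
  have cB : ∀ r ∈ Icc (0 : ℝ) 1, ‖(D.capB v).τ r - (D.capB 0).τ r‖ ≤ θ := fun r hr => by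
    simpa [Data.capB] using H.v_le' hr
  obtain ⟨b1, b2, b3, b4, b5⟩ := geo_balls geo_mem (D.rbody v) (D.rbody 0) D.κ θ hR hS hm
    H.ge.tan (show D.m ≤ 1 by linarith) (by linarith) H.θ0 hκ H.ge.ball H.ge.low fun ξ hξ =>
      ⟨(σ_le G.hypT hξ).trans (by norm_num), (σ_le G.hypB hξ).trans (by norm_num),
        Z_le G.hypT hξ, Z_le G.hypB hξ, σ_close H.hypT G.hypT cT hξ, σ_close H.hypB G.hypB cB hξ,
        Z_close H.hypT G.hypT rfl rfl cT hξ, Z_close H.hypB G.hypB rfl rfl cB hξ⟩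
  have b3' : ∀ X : E3, ‖X‖ ^ 2 ≤ 1 - D.κ → X ∈ body (D.rbody 0).P := fun X hX =>
    b3 X (by nlinarith [norm_nonneg X])
  obtain ⟨c1, c2⟩ := geo_body _ (geo_prof _ hR)
  obtain ⟨c3, c4⟩ := geo_body _ (geo_prof _ hS)
  refine ⟨fun X hX => ⟨b1 X hX, b3' X hX⟩, fun X hX => hX.elim (b2 X) (b4 X), c1, c2,
    interior_nonempty (by linarith) b1, c3, c4, interior_nonempty (by linarith) b3',
    fun e he => ?_, ?_⟩
  · obtain ⟨c, hc⟩ := geo_haus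
    have hn : e 0 ^ 2 + e 1 ^ 2 + e 2 ^ 2 = 1 := by
      have := EuclideanSpace.norm_sq_eq e
      rw [he, Fin.sum_univ_three] at this
      simpa using this.symm
    have hs : 0 ≤ e 0 ^ 2 + e 1 ^ 2 := by positivity
    constructor
    · rcases le_or_gt (D.Qs * (e 0 ^ 2 + e 1 ^ 2)) (e 2 ^ 2) with h | h
      · refine geo_crude geo_mem _ _ D.κ D.Qs e hR hS hm m1 k1 H.ge.Qs_ge ?_ ?_ H.zT_ge H.zB_le
          (fun X hX => ⟨b1 X hX, b3' X hX⟩) (fun X hX => hX.elim (b2 X) (b4 X)) he h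
        · rw [hR.ξT]; exact T_zero_le H.hypT
        · rw [hR.ξB]; exact T_zero_le H.hypB
      · have hs' : 0 < e 0 ^ 2 + e 1 ^ 2 := by
          rcases hs.eq_or_lt with h0 | h0
          · rw [← h0, mul_zero] at h
            exact absurd h (not_lt.mpr (sq_nonneg _))
          · exact h0
        have hq : |e 2| / √(e 0 ^ 2 + e 1 ^ 2) = √(e 2 ^ 2 / (e 0 ^ 2 + e 1 ^ 2)) := by
          rw [Real.sqrt_div (sq_nonneg _), Real.sqrt_sq_eq_abs]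
        rw [(hc _ e he).2 (Real.sqrt_pos.mpr hs'), (hc _ e he).2 (Real.sqrt_pos.mpr hs'), hq,
          sec_eq H G (by positivity) (by rw [div_le_iff₀ hs']; exact h.le)]
    · rw [(hc _ e he).1, (hc _ e he).1, geo_shadow geo_mem geo_prof _ _ hR hS hm ?_ _ _
        (Real.sqrt_nonneg _) (abs_nonneg _) (by rw [Real.sq_sqrt hs, sq_abs, hn])]
      intro ξ hξ
      change (D.capT v).toR.σ ξ ^ 2 + (D.capB v).toR.σ ξ ^ 2 =
        (D.capT 0).toR.σ ξ ^ 2 + (D.capB 0).toR.σ ξ ^ 2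
      rw [σ_sq H.hypT hξ, σ_sq H.hypB hξ, σ_sq G.hypT hξ, σ_sq G.hypB hξ]
      simp [Data.capT, Data.capB]
  · refine geo_noncong geo_mem _ _ D.a hR hS hm H.ge.a_pos H.ge.a_lt.le ?_ H.ge.d0 H.ge.lt_one
      H.ge.zone b3 b5 ?_
    · change D.ξ0 0 = 1
      simpa using H.ge.low 0 le_rfl
    · by_contra h
      push Not at h
      apply hv
      rw [nu, int_congr_Ioo zero_le_one (G := fun _ => 0), intervalIntegral.integral_zero]
      intro r hr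
      have h1 := h r hr
      have h2 := H.ge.τB_eq r (Ioo_subset_Icc_self hr)
      have h3 := ((an_bridge _ _ H.hypB.ok H.hypB.mem H.hypB.real H.hypB.cont).2.1 r
        (Ioo_subset_Icc_self hr)).2.2
      have h4 : (D.τB r - v r) * (1 + D.m * (1 - r)) = 1 := by
        change (D.capB v).τ r * _ = 1
        rw [← h3]
        exact_mod_cast h1
      have h5 : (1 + D.m * (1 - r) : ℂ) ≠ 0 := right_ne_zero_of_mul_eq_one h4
      have h6 : v r * (1 + D.m * (1 - r)) = 0 := by linear_combination h2 - h4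
      rw [(mul_eq_zero.mp h6).resolve_right h5, mul_zero]

theorem base (hC : StmtCore) (h4 : StmtAn0) (h5 : StmtCon) (h7 : StmtIdent) (h8 : StmtGe)
    {δ : ℝ} (hδ : 0 < δ) : ∃ (D : Data) (R e : ℝ), D.An R e ∧ D.Ge ∧ D.κ ≤ δ := by
  obtain ⟨K, r0, hK, r1, r2, h⟩ := hC
  obtain ⟨η, hS, hη⟩ : ∃ η, Base.Small η K r0 ∧ η ≤ δ := by
    refine ⟨min δ (r0 / 10 ^ 12 / K), ⟨by positivity, hK, r1, r2, ?_⟩, min_le_left _ _⟩
    refine (mul_le_mul_of_nonneg_left (min_le_right _ _) (by linarith)).trans (le_of_eq ?_)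
    field_simp
  obtain ⟨m1, th, ψ, M2, hc⟩ := h η hS
  obtain ⟨c1, c2, c3⟩ := h5 _ _ _ _ _ _ _ hS hc
  obtain ⟨i1, i2⟩ := h7 _ _ _ _ _ _ _ hS hc
  refine ⟨Base.mk η m1 th M2, 1 / (1000 * m1), 20 * K * η ^ 2 * m1,
    ⟨h4 _ _ _ _ _ _ _ hS hc, ?_, fun x hx ξ hξ => (c1 x hx ξ hξ).1,
      fun x hx ξ hξ => (c1 x hx ξ hξ).2, i1, i2, c2, c3⟩, h8 _ _ _ _ _ _ _ hS hc,
    show m1 / 100 ≤ δ by linarith [hc.m_le, hS.η_pos]⟩
  have e0 := hS.η_pos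
  have m0 : 0 < m1 := by linarith [hc.m_ge]
  have e1 : K * m1 ≤ 2 / 10 ^ 15 := by nlinarith [hS.small, hc.m_le]
  change 20 * K * η ^ 2 * m1 ≤ η ^ 2 * m1 / 21 * (1 / (1000 * m1)) / 1000000
  have e2 : η ^ 2 * m1 / 21 * (1 / (1000 * m1)) / 1000000 = η ^ 2 * (1 / (21 * 10 ^ 9)) := by
    field_simp
    norm_num
  rw [e2]
  nlinarith [sq_nonneg η]

theorem exists_pair (hM : StmtMachine) (hS : StmtStab) (hC : StmtCore) (h4 : StmtAn0)
    (h5 : StmtCon) (h7 : StmtIdent) (h8 : StmtGe) {δ : ℝ} (hδ : 0 < δ) :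
    ∃ κ P₁ P₂, κ ≤ δ ∧ Pair κ P₁ P₂ := by
  obtain ⟨D, R, e, hA, hG, hκ⟩ := base hC h4 h5 h7 h8 hδ
  obtain ⟨ω, C, hm⟩ := hM D R e hA
  obtain ⟨θ1, C1, h1⟩ := hS D R e ω C hA hm
  obtain ⟨θ2, C2, h2⟩ := an_solve an_abel D R e ω C hA hm
  have h0 := an_good0 D R e ω C hA hm
  have w0 := hm.ω_pos
  have m0 := hA.m_pos
  have k0 := hG.κ_pos
  obtain ⟨v, θ, a0, a1, a2, a3⟩ := an_newton D θ1 C1 θ2 C2 h0 h1 h2
    (min (ω / 4) (min (D.m / 2) (D.κ / 100))) (by positivity)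
  rw [le_min_iff, le_min_iff] at a1
  exact ⟨_, _, _, hκ, pair ⟨hA, hG, hm, a2, a0, by linarith [a1.1], a1.2.1⟩
    ⟨hA, hG, hm, Newton.good_mono h0 (by norm_num) (by norm_num) le_rfl le_rfl, le_rfl,
      by linarith, by linarith⟩ a1.2.2 a3⟩

end Sec

end

end Pool.Agent.Lib.MP_87c84d_gt
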