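import Pool.Agent.Lib.MP_87c84d_gt.Plane

/-!
The family step: the critical plane through a bottom tip, its bounds and holomorphic dependence.
-/

namespace Pool.Agent.Lib.MP_87c84d_gt

open MeasureTheory Set Metric Filter Topology

noncomputable section

namespace Machine

open Plane

variable {D : Data} {R0 e0 s R ω C : ℝ} {v : ℂ → ℂ} {x d e : ℂ}

lemma s0 (h : State v s R ω x) : 0 ≤ s := by linarith [h.s_ge]

lemma mem4 (h : State v s R ω x) : x ∈ U (1 / 4) := U.mono (s0 h) h.s_le h.mem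

lemma sm (h : State v s R ω x) (hω : ω ≤ 1 / 1000) : Sm v s R where
  s_ge := h.s_ge
  s_le := h.s_le
  hol := h.wt.hol
  b0 := fun ξ hξ => by
    have h1 := h.wt.b0 ξ hξ.1 (mem_ball_zero_iff.mp hξ.2)
    have h2 := U.norm_lt (s0 h) h.s_le hξ.1
    have h3 := norm_nonneg ξ
    have h4 : ω * ‖ξ‖ ^ 2 ≤ 1 / 1000 * (13 / 10) ^ 2 := by gcongr
    nlinarith
  b1 := fun ξ hξ => by
    have h1 := h.wt.b1 ξ hξ.1 (mem_ball_zero_iff.mp hξ.2)
    have h2 := U.norm_lt (s0 h) h.s_le hξ.1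
    have h4 : ω * ‖ξ‖ ^ 2 ≤ 1 / 1000 * (13 / 10) ^ 2 := by gcongr
    linarith

lemma rho_pos (hD : D.An0 R0) : 0 < D.rho := by
  have := hD.t_pos
  rw [Data.rho]; positivity

lemma rho_le (hD : D.An0 R0) : D.rho ≤ 1 / 1000 := by
  have := hD.t_le
  rw [Data.rho]; linarith

lemma pl_of (hD : D.An0 R0) (hv : Sm v s R) (hx : x ∈ U s) (hR : 3 * ‖x‖ ≤ 2 * R)
    (hd : ‖d‖ ≤ D.rho * ‖x‖ ^ 2) : Pl v s R x (D.th0 x + d) := by
  have hx0 := U.norm_pos hx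
  obtain ⟨i1, i2⟩ := hD.inv s ⟨hv.s_ge, hv.s_le⟩ x hx d hd
  refine ⟨hv, ⟨hx, by rw [mem_ball_zero_iff]; linarith⟩, ?_, ⟨i1, ?_⟩⟩
  · have h1 := hD.th0_le x (U.mono hv.s0 hv.s_le hx)
    have h2 := U.norm_lt hv.s0 hv.s_le hx
    have h3 : D.rho * ‖x‖ ^ 2 ≤ 1 / 1000 * (13 / 10) ^ 2 := by
      have := rho_pos hD
      gcongr
      exact rho_le hD
    have h4 := norm_add_le (D.th0 x - 1) d
    have e : D.th0 x + d - 1 = D.th0 x - 1 + d := by ring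
    rw [e]
    linarith
  · have := norm_add_le (ph x (D.th0 x + d) - x) x
    rw [sub_add_cancel] at this
    rw [mem_ball_zero_iff]
    linarith

lemma d_le (hD : D.An0 R0) (x : ℂ) (he : ‖e‖ ≤ 1) : ‖D.rho * x ^ 2 * e‖ ≤ D.rho * ‖x‖ ^ 2 := by
  have := rho_pos hD
  rw [norm_mul, norm_mul, norm_pow, Complex.norm_real, Real.norm_of_nonneg this.le]
  exact mul_le_of_le_one_right (by positivity) he

lemma k_norm (hD : D.An0 R0) (x : ℂ) :
    ‖(Real.pi : ℂ) / 2 * (D.rho * x ^ 2)‖ = Real.pi / 2 * (D.rho * ‖x‖ ^ 2) := by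
  rw [norm_mul, norm_mul, norm_pow, norm_div, Complex.norm_real, Complex.norm_real,
    Real.norm_of_nonneg (rho_pos hD).le, Real.norm_of_nonneg Real.pi_pos.le]
  simp

lemma k_ne (hD : D.An0 R0) (hx : x ∈ U s) : (Real.pi : ℂ) / 2 * (D.rho * x ^ 2) ≠ 0 := by
  rw [← norm_pos_iff, k_norm hD]
  have := rho_pos hD
  have := U.norm_pos hx
  have := Real.pi_pos
  positivity

/-- The critical equation moves little with the perturbation. -/
lemma bb_diff (h1 : StmtMid) (hD : D.An0 R0) (hC : ∀ v s R x θ, Pl v s R x θ → ‖D.bb v x θ‖ ≤ C)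
    (h : State v s R ω x) (hω0 : 0 < ω) (hω : ω ≤ 1 / 2000) (hd : ‖d‖ ≤ D.rho * ‖x‖ ^ 2) :
    ‖D.bb v x (D.th0 x + d) - D.bb 0 x (D.th0 x + d)‖ ≤ 1800 * C * ω * ‖x‖ ^ 2 := by
  have hx0 := U.norm_pos h.mem
  have hx1 := U.norm_lt (s0 h) h.s_le h.mem
  set Λ : ℝ := 1 / (900 * ω * ‖x‖ ^ 2) with hΛ
  have hp : 0 < 900 * ω * ‖x‖ ^ 2 := by positivity
  have hΛ1 : 1 < Λ := by
    rw [hΛ, lt_div_iff₀ hp]
    have : ω * ‖x‖ ^ 2 ≤ 1 / 2000 * (13 / 10) ^ 2 := by gcongr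
    linarith
  have hΛ2 : Λ * (ω * (3 * ‖x‖ / 2) ^ 2) = 1 / 400 := by
    rw [hΛ]; field_simp; norm_num
  have key : ∀ μ ∈ ball (0 : ℂ) Λ, ∀ ξ ∈ U s ∩ ball (0 : ℂ) (3 * ‖x‖ / 2),
      ‖ξ‖ < R ∧ ‖μ‖ * (ω * ‖ξ‖ ^ 2) ≤ 1 / 400 := fun μ hμ ξ hξ => by
    have a1 := mem_ball_zero_iff.mp hμ
    have a2 := mem_ball_zero_iff.mp hξ.2
    refine ⟨by linarith [h.R_ge], ?_⟩
    rw [← hΛ2]
    gcongr
  have hF : Fam (ball (0 : ℂ) Λ) (fun μ ξ => μ * v ξ) 0 v id (fun _ => x)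
      (fun _ => D.th0 x + d) s (3 * ‖x‖ / 2) :=
    ⟨isOpen_ball, fun _ _ => by simp, differentiableOn_const 0, h.wt.hol, differentiableOn_id,
      differentiableOn_const _, differentiableOn_const _, fun μ hμ =>
      pl_of hD ⟨h.s_ge, h.s_le, h.wt.hol.const_mul μ, fun ξ hξ => by
        obtain ⟨a1, a2⟩ := key μ hμ ξ hξ
        have a3 := h.wt.b0 ξ hξ.1 a1
        rw [norm_mul]
        calc _ ≤ ‖μ‖ * (ω * ‖ξ‖ ^ 3) := by gcongr
          _ = ‖μ‖ * (ω * ‖ξ‖ ^ 2) * ‖ξ‖ := by ring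
          _ ≤ 1 / 400 * ‖ξ‖ := by gcongr
          _ = _ := by ring, fun ξ hξ => by
        obtain ⟨a1, a2⟩ := key μ hμ ξ hξ
        have a3 := h.wt.b1 ξ hξ.1 a1
        rw [deriv_const_mul_field', norm_mul]
        calc _ ≤ ‖μ‖ * (ω * ‖ξ‖ ^ 2) := by gcongr
          _ ≤ _ := a2⟩ h.mem (by linarith) hd⟩
  have := schwarz1 (hF.bb_hol h1 hD) (fun μ hμ => hC _ _ _ _ _ (hF.pl μ hμ)) (z := 1)
    (by simpa using hΛ1)
  have e1 : (fun ξ => (1 : ℂ) * v ξ) = v := by funext ξ; simp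
  have e2 : (fun ξ => (0 : ℂ) * v ξ) = 0 := by funext ξ; simp
  simp only [e1, e2, sub_zero, norm_one, mul_one] at this
  refine this.trans_eq ?_
  rw [hΛ]; field_simp; ring

/-- The constants of the family step. -/
structure Cst (D : Data) (ω C : ℝ) : Prop where
  ω_pos : 0 < ω
  ω_le : ω ≤ 1 / 2000
  C_pos : 0 < C
  ω_le' : 20000 * C * ω ≤ D.rho
  aa : ∀ v s R x θ, Pl v s R x θ → ‖D.aa v x θ‖ ≤ C
  bb : ∀ v s R x θ, Pl v s R x θ → ‖D.bb v x θ‖ ≤ C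

lemma Cst.sm (hc : Cst D ω C) (h : State v s R ω x) : Sm v s R :=
  Machine.sm h (by linarith [hc.ω_le])

lemma BB_le (h1 : StmtMid) (hD : D.An R0 e0) (hc : Cst D ω C) (h : State v s R ω x) :
    ∀ e ∈ ball (0 : ℂ) 1, ‖D.BB v x e‖ ≤ 1 / 8 := fun e he => by
  have hd := d_le hD.toAn0 x (mem_ball_zero_iff.mp he).le
  have a1 := bb_diff h1 hD.toAn0 hc.bb h hc.ω_pos hc.ω_le hd
  have a2 := hD.bb0 x (mem4 h) _ hd
  have hk := k_ne hD.toAn0 h.mem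
  set d := D.rho * x ^ 2 * e with hdd
  have e1 : D.BB v x e = -((D.bb 0 x (D.th0 x + d) - Real.pi / 2 * d) +
      (D.bb v x (D.th0 x + d) - D.bb 0 x (D.th0 x + d))) / (Real.pi / 2 * (D.rho * x ^ 2)) := by
    rw [eq_div_iff hk, Data.BB, sub_mul, div_mul_cancel₀ _ hk, ← hdd, hdd]
    ring
  have hx0 := U.norm_pos h.mem
  have hρ := rho_pos hD.toAn0
  have hπ := Real.pi_gt_three
  rw [e1, norm_div, norm_neg, k_norm hD.toAn0, div_le_iff₀ (by positivity)]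
  refine (norm_add_le _ _).trans ?_
  have b1 : Real.pi / 32 * ‖d‖ ≤ Real.pi / 32 * (D.rho * ‖x‖ ^ 2) := by gcongr
  have b2 : 20000 * C * ω * ‖x‖ ^ 2 ≤ D.rho * ‖x‖ ^ 2 := by gcongr; exact hc.ω_le'
  have b3 : 3 * (D.rho * ‖x‖ ^ 2) ≤ Real.pi * (D.rho * ‖x‖ ^ 2) := by gcongr
  have b4 : 0 ≤ D.rho * ‖x‖ ^ 2 := by positivity
  nlinarith

lemma BB_hol (h1 : StmtMid) (hD : D.An0 R0) (hc : Cst D ω C) (h : State v s R ω x) :
    DifferentiableOn ℂ (D.BB v x) (ball 0 1) := by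
  have hF : Fam (ball (0 : ℂ) 1) (fun _ => v) v 0 0 (fun _ => x)
      (fun e => D.th0 x + D.rho * x ^ 2 * e) s R :=
    ⟨isOpen_ball, fun _ _ => by simp, h.wt.hol, differentiableOn_const 0, differentiableOn_const 0,
      differentiableOn_const _, by fun_prop, fun e he =>
      pl_of hD (hc.sm h) h.mem h.R_ge (d_le hD x (mem_ball_zero_iff.mp he).le)⟩
  exact differentiableOn_id.sub ((hF.bb_hol h1 hD).div_const _)

lemma root_le (h1 : StmtMid) (hD : D.An R0 e0) (hc : Cst D ω C) (h : State v s R ω x) :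
    ‖D.rho * x ^ 2 * root (D.BB v x)‖ ≤ D.rho * ‖x‖ ^ 2 :=
  d_le hD.toAn0 x (by linarith [(root_spec (BB_hol h1 hD.toAn0 hc h) (BB_le h1 hD hc h)).1])

lemma pl_th (h1 : StmtMid) (hD : D.An R0 e0) (hc : Cst D ω C) (h : State v s R ω x) :
    Pl v s R x (D.th v x) :=
  pl_of hD.toAn0 (hc.sm h) h.mem h.R_ge (root_le h1 hD hc h)

lemma bb_eq (h1 : StmtMid) (hD : D.An R0 e0) (hc : Cst D ω C) (h : State v s R ω x) :
    D.bb v x (D.th v x) = 0 := by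
  have := (root_spec (BB_hol h1 hD.toAn0 hc h) (BB_le h1 hD hc h)).2
  rw [Data.BB, sub_eq_self, div_eq_zero_iff] at this
  exact this.resolve_right (k_ne hD.toAn0 h.mem)

lemma rl_th (h1 : StmtMid) (hD : D.An R0 e0) (hc : Cst D ω C) (h : State v s R ω x)
    (hv : IsRe v s) (hx : Rl x) : Rl (D.th v x) := by
  have a0 : Rl (D.th0 x) := hD.th0_real x (mem4 h) hx
  have a1 : Rl ((D.rho : ℂ) * x ^ 2) := (Rl.ofReal _).mul (hx.pow 2)
  refine a0.add (a1.mul (root_real (BB_hol h1 hD.toAn0 hc h) (BB_le h1 hD hc h) fun e he hr => ?_))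
  have hp := pl_of hD.toAn0 (hc.sm h) h.mem h.R_ge (d_le hD.toAn0 x (mem_ball_zero_iff.mp he).le)
  exact Rl.sub hr ((hp.rl_bb h1 hD.toAn0 hv hx (a0.add (a1.mul hr))).div
    (((Rl.ofReal _).div Rl.two).mul a1))

lemma state_zero (hω : 0 ≤ ω) (hx : x ∈ U (1 / 4)) : State 0 (1 / 4) 3 ω x where
  s_ge := by norm_num
  s_le := le_rfl
  mem := hx
  R_ge := by linarith [U.norm_lt (by norm_num) le_rfl hx]
  wt := ⟨differentiableOn_const 0, fun ξ _ _ => by simp only [Pi.zero_apply, norm_zero]; positivity,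
    fun ξ _ _ => by simp only [deriv_zero, Pi.zero_apply, norm_zero]; positivity⟩

lemma th_zero (h1 : StmtMid) (hD : D.An R0 e0) (hc : Cst D ω C) (hx : x ∈ U (1 / 4)) :
    D.th 0 x = D.th0 x := by
  have h := state_zero hc.ω_pos.le hx
  have a := hD.bb0 x hx 0 (by have := rho_pos hD.toAn0; rw [norm_zero]; positivity)
  simp only [mul_zero, sub_zero, norm_zero, norm_le_zero_iff] at a
  have := root_unique (BB_hol h1 hD.toAn0 hc h) (BB_le h1 hD hc h) (e := 0) (by simp)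
    (by rw [Data.BB, mul_zero, a]; simp)
  rw [Data.th, this, mul_zero, add_zero]

lemma st_facts (h1 : StmtMid) (hD : D.An R0 e0) (hc : Cst D ω C) {CM : ℝ}
    (hM : ∀ Q ∈ ball (0 : ℂ) (3 * D.m), ‖D.M2 Q‖ ≤ CM) (h : State v s R ω x) :
    D.StFacts v s R (max 1 (C + CM)) x := by
  have hp := pl_th h1 hD hc h
  have h0 := hD.toAn0
  have hφ : ‖D.φ v x - x‖ ≤ ‖x‖ / 10 :=
    (h0.inv s ⟨h.s_ge, h.s_le⟩ x h.mem _ (root_le h1 hD hc h)).2
  refine ⟨hp.okT h0, hp.okB h0, ?_, hp.θ_le, bb_eq h1 hD hc h, hp.plT h0, hp.plB h0, hφ,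
    hp.QQ_le h0, hp.tipT h0, hp.tipB h0, hp.mid h0, ?_, hp.XiG_le h0 hφ,
    fun ξ hξ => hp.kaT_le h0 hξ, fun ξ hξ => hp.kaB_le h0 hξ, fun hv hx => ?_, fun hx => ?_⟩
  · rw [Data.th, add_sub_cancel_left]
    exact root_le h1 hD hc h
  · refine (norm_sub_le _ _).trans (le_trans ?_ (le_max_right _ _))
    exact add_le_add (hc.aa _ _ _ _ _ hp) (hM _ (hp.QQ_mem h0))
  · have hθ := rl_th h1 hD hc h hv hx
    have hcc := hp.rl_cc h0 hv hx hθ
    have hQ := hp.rl_QQ h0 hv hx hθ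
    refine ⟨hθ, hcc, hQ, hp.QQ_sign h0 hv hx hθ,
      (hp.rl_aa h1 h0 hv hx hθ).sub (h0.M2_real _ (hp.QQ_mem h0) hQ), fun ξ hξ hr => ⟨?_, ?_⟩⟩
    · exact (hp.okT h0).rl_ka (hp.rT h0 hv) (hp.plT h0) hcc hQ (Pl.rl_φ hx hθ) hξ hr
    · exact (hp.okB h0).rl_ka (hp.rB h0 hv) (hp.plB h0) hcc.neg hQ hx hξ hr
  · subst hx
    have h4 := mem4 h
    have hz := pl_th h1 hD hc (state_zero hc.ω_pos.le h4)
    rw [th_zero h1 hD hc h4] at hz
    obtain ⟨a1, a2⟩ := hp.pole h0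
    obtain ⟨b1, b2⟩ := hz.pole h0
    have := hD.aa0 1 h4
    rw [b1, b2] at this
    rw [Data.FF, Data.Q, a1, a2, this, sub_self]

lemma fam_facts (h1 : StmtMid) (h2 : StmtCapDer) (hD : D.An R0 e0) (hc : Cst D ω C) {P : Set ℂ}
    {v u lam x : ℂ → ℂ} (h : FamS P v u lam x s R ω) : D.FamFacts P v u lam x s R := by
  have h0 := hD.toAn0
  have hth0 : DifferentiableOn ℂ (fun w => D.th0 (x w)) P :=
    h0.th0_hol.comp h.x_hol fun w hw => mem4 (h.st w hw)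
  have hk : DifferentiableOn ℂ (fun w => (D.rho : ℂ) * x w ^ 2) P := (h.x_hol.pow 2).const_mul _
  have hth : DifferentiableOn ℂ (fun w => D.th (fun ξ => v ξ + lam w * u ξ) (x w)) P := by
    refine hth0.add (hk.mul (root_hol (B := fun w => D.BB (fun ξ => v ξ + lam w * u ξ) (x w))
      h.isOpen (fun w hw => BB_hol h1 h0 hc (h.st w hw)) (fun w hw => BB_le h1 hD hc (h.st w hw))
      fun e he => ?_))
    have hF : Fam P (fun w ξ => v ξ + lam w * u ξ) v u lam x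
        (fun w => D.th0 (x w) + D.rho * x w ^ 2 * e) s R :=
      ⟨h.isOpen, fun _ _ => rfl, h.v_hol, h.u_hol, h.lam_hol, h.x_hol, hth0.add (hk.mul_const e),
        fun w hw => pl_of h0 (hc.sm (h.st w hw)) (h.st w hw).mem (h.st w hw).R_ge
          (d_le h0 _ (mem_ball_zero_iff.mp he).le)⟩
    exact (differentiableOn_const e).sub ((hF.bb_hol h1 h0).div (hk.const_mul _)
      fun w hw => k_ne h0 (h.st w hw).mem)
  have hF : Fam P (fun w ξ => v ξ + lam w * u ξ) v u lam x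
      (fun w => D.th (fun ξ => v ξ + lam w * u ξ) (x w)) s R :=
    ⟨h.isOpen, fun _ _ => rfl, h.v_hol, h.u_hol, h.lam_hol, h.x_hol, hth,
      fun w hw => pl_th h1 hD hc (h.st w hw)⟩
  have hQ := hF.QQ_hol h0
  refine ⟨hth, hQ, hF.φ_hol, (hF.aa_hol h1 h0).sub (h0.M2_hol.comp hQ
    fun w hw => (hF.pl w hw).QQ_mem h0), hF.XiG_hol h0,
    fun y hy hm => ⟨hF.kaT_hol h0 hy hm, hF.kaB_hol h0 hy hm⟩, fun A hA w hw => ?_⟩
  have a1 := hF.aa_der h1 h2 h0 hA hw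
  have a2 := (h0.M2_hol.differentiableAt
    (isOpen_ball.mem_nhds ((hF.pl w hw).QQ_mem h0))).hasDerivAt.comp w
    (hQ.differentiableAt (h.isOpen.mem_nhds hw)).hasDerivAt
  rw [bb_eq h1 hD hc (h.st w hw)] at a1
  refine (hasDerivAt_of_eq (a1.sub a2) (fun _ => rfl) ?_).deriv
  simp only [Data.LL, Data.EH, Data.c, Data.Q, Data.φ]
  ring

end Machine

theorem an_machine (h1 : StmtMid) (h2 : StmtCapDer) : StmtMachine := by
  intro D R e hD
  obtain ⟨C, hC0, hC⟩ := Plane.bounds h1 hD.toAn0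
  obtain ⟨CM, hM⟩ := hD.M2_bdd
  have hρ := Machine.rho_pos hD.toAn0
  have hc : Machine.Cst D (min (1 / 2000) (D.rho / (20000 * C))) C :=
    ⟨by positivity, min_le_left _ _, hC0, by
      have := min_le_right (1 / 2000) (D.rho / (20000 * C))
      rw [le_div_iff₀ (by positivity)] at this
      linarith, fun v s R x θ h => (hC v s R x θ h).1, fun v s R x θ h => (hC v s R x θ h).2⟩
  exact ⟨_, max 1 (C + CM), hc.ω_pos, by linarith [hc.ω_le], le_max_left _ _,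
    fun v s R x h => Machine.st_facts h1 hD hc hM h,
    fun P v u lam x s R h => Machine.fam_facts h1 h2 hD hc h,
    fun x hx => Machine.th_zero h1 hD hc hx⟩

end

end Pool.Agent.Lib.MP_87c84d_gt
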