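import Pool.Agent.Lib.MP_87c84d_gt.CapF

/-!
Stability of the Newton invariant under a small perturbation.
-/

namespace Pool.Agent.Lib.MP_87c84d_gt

open MeasureTheory Set Metric Filter Topology

noncomputable section

namespace Stab

/-! ### Elementary bounds -/

theorem wF_nonneg (x : ℂ) : 0 ≤ wF x := by unfold wF; positivity

theorem norm_mul_sqrt (x : ℂ) : ‖x * Complex.sqrt x‖ = ‖x‖ * √‖x‖ := by
  rw [norm_mul, norm_sqrt]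

theorem sqrt_le {a : ℝ} (h : a < 13 / 10) : √a ≤ 6 / 5 := by
  rw [Real.sqrt_le_left (by norm_num)]
  linarith

theorem wF_le {x : ℂ} (h : ‖x‖ < 13 / 10) : wF x ≤ 6 / 5 * ‖x‖ ^ 9 := by
  unfold wF
  rw [norm_mul_sqrt]
  calc ‖x‖ ^ 8 * (‖x‖ * √‖x‖) ≤ ‖x‖ ^ 8 * (‖x‖ * (6 / 5)) := by gcongr; exact sqrt_le h
    _ = _ := by ring

theorem le_wF {x : ℂ} (h : ‖x‖ < 13 / 10) : ‖x‖ ^ 10 ≤ 6 / 5 * wF x := by
  unfold wF
  rw [norm_mul_sqrt]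
  have h1 : ‖x‖ = √‖x‖ * √‖x‖ := (Real.mul_self_sqrt (norm_nonneg x)).symm
  have h2 : ‖x‖ ≤ 6 / 5 * √‖x‖ := by
    calc ‖x‖ = √‖x‖ * √‖x‖ := h1
      _ ≤ 6 / 5 * √‖x‖ := by gcongr; exact sqrt_le h
  calc ‖x‖ ^ 10 = ‖x‖ ^ 9 * ‖x‖ := by ring
    _ ≤ ‖x‖ ^ 9 * (6 / 5 * √‖x‖) := by gcongr
    _ = _ := by ring

theorem pow_le {x : ℂ} (h : ‖x‖ < 13 / 10) (n : ℕ) : ‖x‖ ^ n ≤ (13 / 10) ^ n := by
  gcongr

theorem pow5_le {x : ℂ} (h : ‖x‖ < 13 / 10) : ‖x‖ ^ 5 ≤ 4 :=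
  (pow_le h 5).trans (by norm_num)

theorem le_of_eta {X a Y : ℝ} (hY : 0 ≤ Y) (h : ∀ η, 0 < η → X ≤ (a + η) * Y) : X ≤ a * Y := by
  refine le_of_forall_pos_le_add fun ε hε => ?_
  have h1 := h (ε / (Y + 1)) (by positivity)
  have h2 : ε / (Y + 1) * Y ≤ ε := by
    rw [div_mul_eq_mul_div, div_le_iff₀ (by positivity)]
    nlinarith
  nlinarith

theorem good_lim {D : Data} {w : ℂ → ℂ} {s θ ε : ℝ}
    (h : ∀ η, 0 < η → ∃ θ' ε', θ' ≤ θ + η ∧ ε' ≤ ε + η ∧ D.Good w s θ' ε') : D.Good w s θ ε := by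
  obtain ⟨_, _, -, -, h0⟩ := h 1 one_pos
  have k : ∀ {X Y : ℝ} (a : ℝ), 0 ≤ Y → (∀ θ' ε', D.Good w s θ' ε' → X ≤ (a + θ') * Y) →
      X ≤ (a + θ) * Y := by
    intro X Y a hY hX
    refine le_of_eta hY fun η hη => ?_
    obtain ⟨θ', ε', h1, -, h3⟩ := h η hη
    exact (hX θ' ε' h3).trans (mul_le_mul_of_nonneg_right (by linarith) hY)
  refine ⟨h0.hol, h0.zero, h0.real, fun ξ hξ => ?_, fun ξ hξ => ?_, fun x hx r hr => ?_,
    fun x hx r hr => ?_, fun x hx r hr => ?_, fun x hx r hr => ?_, fun x hx => ?_, fun x hx => ?_⟩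
  · simpa using k 0 (by positivity) fun θ' ε' g => by simpa using g.b0 ξ hξ
  · simpa using k 0 (by positivity) fun θ' ε' g => by simpa using g.b1 ξ hξ
  · exact k _ (norm_nonneg _) fun θ' ε' g => g.gT1 x hx r hr
  · exact k _ (norm_nonneg _) fun θ' ε' g => g.gT2 x hx r hr
  · exact k _ (norm_nonneg _) fun θ' ε' g => g.gB1 x hx r hr
  · exact k _ (norm_nonneg _) fun θ' ε' g => g.gB2 x hx r hr
  · refine le_of_forall_pos_le_add fun η hη => ?_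
    obtain ⟨θ', ε', h1, -, h3⟩ := h η hη
    linarith [h3.gQ x hx]
  · refine le_of_eta (wF_nonneg x) fun η hη => ?_
    obtain ⟨θ', ε', -, h2, h3⟩ := h η hη
    exact (h3.F x hx).trans (mul_le_mul_of_nonneg_right h2 (wF_nonneg x))

theorem gauge_step {f g : ℂ → ℂ} {r δ M Θ1 Θ2 : ℝ} (hr : 0 < r) (hδ : 0 < δ)
    (hf : DifferentiableOn ℂ f (ball (r : ℂ) (δ * r)))
    (hg : DifferentiableOn ℂ g (ball (r : ℂ) (δ * r)))
    (hb : ∀ z ∈ ball (r : ℂ) (δ * r), ‖g z - f z‖ ≤ M)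
    (h1 : ‖(r : ℂ) * deriv f r‖ ≤ Θ1) (h2 : ‖(r : ℂ) ^ 2 * deriv (deriv f) r‖ ≤ Θ2) :
    ‖(r : ℂ) * deriv g r‖ ≤ Θ1 + 2 * M / δ ∧
      ‖(r : ℂ) ^ 2 * deriv (deriv g) r‖ ≤ Θ2 + 16 * M / δ ^ 2 := by
  have hρ : 0 < δ * r := by positivity
  have hc : (r : ℂ) ∈ ball (r : ℂ) (δ * r) := mem_ball_self hρ
  have hd : DifferentiableOn ℂ (fun z => g z - f z) (ball (r : ℂ) (δ * r)) := hg.sub hf
  have c1 := cauchy1 hρ hd hb
  have c2 := cauchy2 hρ hd hb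
  have e1 : ∀ z ∈ ball (r : ℂ) (δ * r), deriv (fun z => g z - f z) z = deriv g z - deriv f z :=
    fun z hz => deriv_fun_sub (hg.differentiableAt (isOpen_ball.mem_nhds hz))
      (hf.differentiableAt (isOpen_ball.mem_nhds hz))
  have e2 : deriv (deriv fun z => g z - f z) r = deriv (deriv g) r - deriv (deriv f) r := by
    have : deriv (fun z => g z - f z) =ᶠ[𝓝 (r : ℂ)] fun z => deriv g z - deriv f z := by
      filter_upwards [isOpen_ball.mem_nhds hc] with z hz using e1 z hz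
    rw [this.deriv_eq]
    exact deriv_fun_sub ((hg.deriv isOpen_ball).differentiableAt (isOpen_ball.mem_nhds hc))
      ((hf.deriv isOpen_ball).differentiableAt (isOpen_ball.mem_nhds hc))
  rw [e1 _ hc] at c1
  rw [e2] at c2
  have nr : ‖(r : ℂ)‖ = r := by rw [Complex.norm_real, Real.norm_of_nonneg hr.le]
  constructor
  · have : (r : ℂ) * deriv g r = r * deriv f r + r * (deriv g r - deriv f r) := by ring
    rw [this]
    refine (norm_add_le _ _).trans (add_le_add h1 ?_)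
    rw [norm_mul, nr]
    calc r * ‖deriv g r - deriv f r‖ ≤ r * (2 * M / (δ * r)) := by gcongr
      _ = _ := by field_simp
  · have : (r : ℂ) ^ 2 * deriv (deriv g) r =
        r ^ 2 * deriv (deriv f) r + r ^ 2 * (deriv (deriv g) r - deriv (deriv f) r) := by ring
    rw [this]
    refine (norm_add_le _ _).trans (add_le_add h2 ?_)
    rw [norm_mul, norm_pow, nr]
    calc r ^ 2 * ‖deriv (deriv g) r - deriv (deriv f) r‖ ≤ r ^ 2 * (16 * M / (δ * r) ^ 2) := by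
          gcongr
      _ = _ := by field_simp

/-! ### States -/

structure Wb (v : ℂ → ℂ) (s θ : ℝ) : Prop where
  hol : DifferentiableOn ℂ v (U s)
  b0 : ∀ ξ ∈ U s, ‖v ξ‖ ≤ θ * ‖ξ‖ ^ 8
  b1 : ∀ ξ ∈ U s, ‖deriv v ξ‖ ≤ θ * ‖ξ‖ ^ 7

theorem Wb.mono {v : ℂ → ℂ} {s s' θ : ℝ} (h : Wb v s θ) (h0 : 0 ≤ s') (hs : s' ≤ s) :
    Wb v s' θ :=
  ⟨h.hol.mono (U.mono h0 hs), fun ξ hξ => h.b0 ξ (U.mono h0 hs hξ),
    fun ξ hξ => h.b1 ξ (U.mono h0 hs hξ)⟩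

theorem Wb.add_smul {v u : ℂ → ℂ} {s θ B : ℝ} (h : Wb v s θ) (h' : Wb u s B) (l : ℂ) :
    Wb (fun ξ => v ξ + l * u ξ) s (θ + ‖l‖ * B) := by
  refine ⟨h.hol.add (h'.hol.const_mul l), fun ξ hξ => ?_, fun ξ hξ => ?_⟩
  · refine (norm_add_le _ _).trans ?_
    rw [norm_mul]
    have := mul_le_mul_of_nonneg_left (h'.b0 ξ hξ) (norm_nonneg l)
    linarith [h.b0 ξ hξ]
  · have hn := (isOpen_U s).mem_nhds hξ
    have e : deriv (fun ξ => v ξ + l * u ξ) ξ = deriv v ξ + l * deriv u ξ :=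
      ((h.hol.differentiableAt hn).hasDerivAt.add
        ((h'.hol.differentiableAt hn).hasDerivAt.const_mul l)).deriv
    rw [e]
    refine (norm_add_le _ _).trans ?_
    rw [norm_mul]
    have := mul_le_mul_of_nonneg_left (h'.b1 ξ hξ) (norm_nonneg l)
    linarith [h.b1 ξ hξ]

theorem Wb.state {w : ℂ → ℂ} {s θ R ω : ℝ} {x : ℂ} (h : Wb w s θ) (h1 : 1 / 8 ≤ s)
    (h2 : s ≤ 1 / 4) (hx : x ∈ U s) (hR : 3 * ‖x‖ ≤ 2 * R)
    (hω : ∀ ξ ∈ U s, ‖ξ‖ < R → θ * ‖ξ‖ ^ 5 ≤ ω) : State w s R ω x := by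
  refine ⟨h1, h2, hx, hR, h.hol, fun ξ hξ hξR => ?_, fun ξ hξ hξR => ?_⟩
  · calc ‖w ξ‖ ≤ θ * ‖ξ‖ ^ 8 := h.b0 ξ hξ
      _ = θ * ‖ξ‖ ^ 5 * ‖ξ‖ ^ 3 := by ring
      _ ≤ _ := by gcongr; exact hω ξ hξ hξR
  · calc ‖deriv w ξ‖ ≤ θ * ‖ξ‖ ^ 7 := h.b1 ξ hξ
      _ = θ * ‖ξ‖ ^ 5 * ‖ξ‖ ^ 2 := by ring
      _ ≤ _ := by gcongr; exact hω ξ hξ hξR

theorem Wb.state3 {w : ℂ → ℂ} {s θ ω : ℝ} {x : ℂ} (h : Wb w s θ) (h1 : 1 / 8 ≤ s)
    (h2 : s ≤ 1 / 4) (hx : x ∈ U s) (h0 : 0 ≤ θ) (hω : 4 * θ ≤ ω) : State w s 3 ω x := by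
  have := U.norm_lt (by linarith) h2 hx
  refine h.state h1 h2 hx (by linarith) fun ξ hξ _ => ?_
  have := mul_le_mul_of_nonneg_left (pow5_le (U.norm_lt (by linarith) h2 hξ)) h0
  linarith

theorem mem3 {s : ℝ} {x : ℂ} (h1 : 0 ≤ s) (h2 : s ≤ 1 / 4) (hx : x ∈ U s) :
    x ∈ U s ∩ ball (0 : ℂ) 3 :=
  ⟨hx, by rw [mem_ball_zero_iff]; linarith [U.norm_lt h1 h2 hx]⟩

theorem at_zero (v u : ℂ → ℂ) : (fun ξ => v ξ + 0 * u ξ) = v := by funext ξ; simp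

theorem at_one (v u : ℂ → ℂ) : (fun ξ => v ξ + 1 * u ξ) = v + u := by funext ξ; simp

variable {D : Data} {R e ω C : ℝ}

/-- the family in which only the tip moves -/
theorem fam_x (hM : D.Machine ω C) {w : ℂ → ℂ} {s : ℝ} (hw : DifferentiableOn ℂ w (U s))
    (hst : ∀ x ∈ U s, State w s 3 ω x) :
    DifferentiableOn ℂ (D.Q w) (U s) ∧ DifferentiableOn ℂ (D.FF w) (U s) ∧
      ∀ x ∈ U s, deriv (D.FF w) x = deriv (D.Q w) x * D.EH w x := by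
  have hF : FamS (U s) w (fun _ => 0) (fun _ => 0) (fun x => x) s 3 ω :=
    ⟨isOpen_U s, hw, differentiableOn_const _, differentiableOn_const _, differentiableOn_id,
      fun x hx => by rw [at_zero]; exact hst x hx⟩
  have h := hM.fam _ _ _ _ _ _ _ hF
  have h1 := h.Q_hol
  have h2 := h.F_hol
  have h3 := h.F_der 0 (fun ξ _ => by simp)
  simp only [at_zero] at h1 h2 h3
  refine ⟨h1, h2, fun x hx => ?_⟩
  simpa using h3 x hx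

/-- the family in which only the perturbation moves -/
theorem fam_l {v u : ℂ → ℂ} {s θ B Λ Rr : ℝ} {x : ℂ} (hv : Wb v s θ) (hu : Wb u s B)
    (h1 : 1 / 8 ≤ s) (h2 : s ≤ 1 / 4) (hx : x ∈ U s) (hR : 3 * ‖x‖ ≤ 2 * Rr) (h0 : 0 ≤ θ)
    (hθ : 8 * θ ≤ ω) (hB : 0 ≤ B) (hΛ : ∀ ξ ∈ U s, ‖ξ‖ < Rr → Λ * B * ‖ξ‖ ^ 5 ≤ ω / 2) :
    FamS (ball 0 Λ) v u (fun l => l) (fun _ => x) s Rr ω := by
  refine ⟨isOpen_ball, hv.hol, hu.hol, differentiableOn_id, differentiableOn_const _,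
    fun l hl => (hv.add_smul hu l).state h1 h2 hx hR fun ξ hξ hξR => ?_⟩
  rw [mem_ball_zero_iff] at hl
  have a1 := mul_le_mul_of_nonneg_left (pow5_le (U.norm_lt (by linarith) h2 hξ)) h0
  have a2 : ‖l‖ * B * ‖ξ‖ ^ 5 ≤ Λ * B * ‖ξ‖ ^ 5 := by gcongr
  linarith [hΛ ξ hξ hξR]

theorem good_wb {v : ℂ → ℂ} {s θ ε : ℝ} (h : D.Good v s θ ε) : Wb v s θ := ⟨h.hol, h.b0, h.b1⟩

/-! ### The bound for the linear operator -/

theorem lcap_le {K : Cap} {c Q φ : ℂ} {u : ℂ → ℂ} {s A : ℝ} (h1 : 0 ≤ s) (h2 : s ≤ 1 / 4)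
    (hK : K.OK (U s ∩ ball 0 3)) (hP : K.Pl (U s ∩ ball 0 3) c Q φ) (hA : 0 ≤ A)
    (hu : ∀ ξ ∈ U s, ‖u ξ‖ ≤ A * ‖ξ‖ ^ 8) : ‖K.lcap c Q φ u‖ ≤ 5 / 4 * A * wF φ := by
  have hI : ‖∫ r in (0 : ℝ)..1, ((√(1 - r) : ℝ) : ℂ) * (u (r * φ) * K.ka c Q φ (r * φ))‖ ≤
      1 * (A * ‖φ‖ ^ 8 * (5 / 4)) := by
    refine norm_int_le_const fun r hr => ?_
    have hm := U.star h1 hP.mem.1 (Ioo_subset_Ioc_self hr)
    have hn : ‖(r : ℂ) * φ‖ ≤ ‖φ‖ := by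
      rw [norm_mul, Complex.norm_real, Real.norm_of_nonneg hr.1.le]
      exact mul_le_of_le_one_left (norm_nonneg _) hr.2.le
    have h3 : ‖u (r * φ)‖ ≤ A * ‖φ‖ ^ 8 := (hu _ hm).trans (by gcongr)
    rw [norm_mul, norm_mul]
    gcongr
    exacts [Cap.OK.norm_sqrt_one_sub hr, hK.ka_le hP (mem3 h1 h2 hm)]
  unfold Cap.lcap wF
  rw [norm_mul]
  calc _ ≤ ‖φ * Complex.sqrt φ‖ * (1 * (A * ‖φ‖ ^ 8 * (5 / 4))) := by gcongr
    _ = _ := by ring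

theorem wF_mono {x φ : ℂ} (h : ‖φ - x‖ ≤ ‖x‖ / 10) : wF φ ≤ 3 * wF x := by
  have h1 : ‖φ‖ ≤ 11 / 10 * ‖x‖ := by
    have := norm_add_le x (φ - x)
    rw [add_sub_cancel] at this
    linarith
  have h2 : √‖φ‖ ≤ 11 / 10 * √‖x‖ := by
    rw [Real.sqrt_le_left (by positivity), mul_pow, Real.sq_sqrt (norm_nonneg _)]
    nlinarith [norm_nonneg x]
  unfold wF
  rw [norm_mul_sqrt, norm_mul_sqrt]
  calc ‖φ‖ ^ 8 * (‖φ‖ * √‖φ‖) ≤ (11 / 10 * ‖x‖) ^ 8 * (11 / 10 * ‖x‖ * (11 / 10 * √‖x‖)) := by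
        gcongr
    _ = (11 / 10) ^ 10 * (‖x‖ ^ 8 * (‖x‖ * √‖x‖)) := by ring
    _ ≤ _ := by gcongr; norm_num

theorem lbd (hA : D.An R e) (hM : D.Machine ω C) {v u : ℂ → ℂ} {s θ ε A : ℝ} (h1 : 1 / 8 ≤ s)
    (h2 : s ≤ 1 / 4) (hg : D.Good v s θ ε) (h0 : 0 ≤ θ) (hθ : 8 * θ ≤ ω) (hA0 : 0 ≤ A)
    (hu : ∀ ξ ∈ U s, ‖u ξ‖ ≤ A * ‖ξ‖ ^ 8) {x : ℂ} (hx : x ∈ U s) :
    ‖D.LL v u x‖ ≤ A * wF x := by
  have hs := hM.st v s 3 x ((good_wb hg).state3 h1 h2 hx h0 (by linarith))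
  have a1 := lcap_le (by linarith) h2 hs.okB hs.plB hA0 hu
  have a2 := lcap_le (by linarith) h2 hs.okT hs.plT hA0 hu
  have a3 := mul_le_mul_of_nonneg_left (wF_mono hs.φ_le) hA0
  have m0 := hA.m_pos
  have m1 := hA.m_le
  have m2 : √D.m ≤ 1 := Real.sqrt_le_one.2 (by linarith)
  have m3 : D.m * √D.m / 2 ≤ 1 / 5 := by nlinarith [Real.sqrt_nonneg D.m]
  have a4 := norm_sub_le ((D.capB v).lcap (-D.c v x) (D.Q v x) x u)
    ((D.capT v).lcap (D.c v x) (D.Q v x) (D.φ v x) u)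
  have w0 := mul_nonneg hA0 (wF_nonneg x)
  unfold Data.LL
  rw [norm_mul, Complex.norm_real, Real.norm_of_nonneg (by positivity)]
  calc _ ≤ 1 / 5 * (5 * (A * wF x)) := by gcongr; linarith
    _ = _ := by ring

/-! ### The local family -/

theorem local_fam (hM : D.Machine ω C) {v u : ℂ → ℂ} {s θ B : ℝ} {x : ℂ} (hv : Wb v s θ)
    (hu : Wb u s B) (h1 : 1 / 8 ≤ s) (h2 : s ≤ 1 / 4) (hx : x ∈ U s) (h0 : 0 ≤ θ)
    (hθ : 8 * θ ≤ ω) (hB : 0 < B) (hBω : 500 * B ≤ ω) :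
    1 < ω / (64 * B * ‖x‖ ^ 5) ∧
      FamS (ball 0 (ω / (64 * B * ‖x‖ ^ 5))) v u (fun l => l) (fun _ => x) s (2 * ‖x‖) ω := by
  have hx0 := U.norm_pos hx
  have hω := hM.ω_pos
  have h5 := pow5_le (U.norm_lt (by linarith) h2 hx)
  constructor
  · rw [lt_div_iff₀ (by positivity)]
    nlinarith
  · refine fam_l hv hu h1 h2 hx (by linarith) h0 hθ hB.le fun ξ _ hξ => ?_
    calc ω / (64 * B * ‖x‖ ^ 5) * B * ‖ξ‖ ^ 5 ≤ ω / (64 * B * ‖x‖ ^ 5) * B * (2 * ‖x‖) ^ 5 := by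
          gcongr
      _ = ω / 2 := by field_simp; norm_num

theorem Q_le2 (hA : D.An R e) {v : ℂ → ℂ} {s Rr : ℝ} {x : ℂ} (h1 : 0 ≤ s) (h2 : s ≤ 1 / 4)
    (hx : x ∈ U s) (h : D.StFacts v s Rr C x) : ‖D.Q v x‖ ≤ 2 * D.m := by
  have := mul_le_mul_of_nonneg_left (U.norm_one_sub_le h1 h2 hx)
    (by linarith [hA.m_pos] : 0 ≤ 2 * D.m)
  linarith [h.Q_le]

theorem Q_diff (hA : D.An R e) (hM : D.Machine ω C) {v u : ℂ → ℂ} {s θ B : ℝ} {x : ℂ}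
    (hv : Wb v s θ) (hu : Wb u s B) (h1 : 1 / 8 ≤ s) (h2 : s ≤ 1 / 4) (hx : x ∈ U s) (h0 : 0 ≤ θ)
    (hθ : 8 * θ ≤ ω) (hB : 0 < B) (hBω : 500 * B ≤ ω) :
    ‖D.Q (v + u) x - D.Q v x‖ ≤ 2 * B / ω * ‖x‖ ^ 5 := by
  obtain ⟨hΛ, hF⟩ := local_fam hM hv hu h1 h2 hx h0 hθ hB hBω
  have hx0 := U.norm_pos hx
  have hω := hM.ω_pos
  have := schwarz1 (hM.fam _ _ _ _ _ _ _ hF).Q_hol (M := 2 * D.m) (z := 1)
    (fun l hl => Q_le2 hA (by linarith) h2 hx (hM.st _ _ _ _ (hF.st l hl)))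
    (by rw [mem_ball_zero_iff, norm_one]; exact hΛ)
  simp only [at_zero, at_one, sub_zero, norm_one, mul_one] at this
  refine this.trans ?_
  calc 2 * (2 * D.m) / (ω / (64 * B * ‖x‖ ^ 5)) = 256 * D.m * (B / ω * ‖x‖ ^ 5) := by
        field_simp; ring
    _ ≤ 2 * (B / ω * ‖x‖ ^ 5) := by gcongr; linarith [hA.m_le]
    _ = _ := by ring

theorem EH_le (hM : D.Machine ω C) {v : ℂ → ℂ} {s s' θ ε : ℝ} {x : ℂ}
    (h1 : 1 / 8 ≤ s') (hs : s' < s) (h2 : s ≤ 1 / 4) (hg : D.Good v s θ ε) (h0 : 0 ≤ θ)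
    (hθ : 8 * θ ≤ ω) (hθm : 4 * θ ≤ D.m) (hε : 0 ≤ ε) (hx : x ∈ U s') :
    D.m * ‖D.EH v x‖ ≤ 56 * ε / (s - s') * ‖x‖ ^ 8 := by
  obtain ⟨-, hF, hder⟩ := fam_x hM hg.hol fun y hy =>
    (good_wb hg).state3 (by linarith) h2 hy h0 (by linarith)
  have hx' := U.mono (by linarith) hs.le hx
  have hd : 0 < s - s' := by linarith
  have a1 := U.deriv_le (n := 8) (A := 6 / 5 * ε) (by linarith) hs h2 hF (fun y hy => by
    have := mul_le_mul_of_nonneg_left (wF_le (U.norm_lt (by linarith) h2 hy)) hε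
    linarith [hg.F y hy]) hx
  have a2 : D.m / 4 ≤ ‖deriv (D.Q v) x‖ := by linarith [hg.gQ x hx']
  rw [hder x hx', norm_mul] at a1
  have a3 : D.m / 4 * ‖D.EH v x‖ ≤ ‖deriv (D.Q v) x‖ * ‖D.EH v x‖ := by gcongr
  have a4 : 4 * (9 / 8) ^ (8 + 1) * (6 / 5 * ε) / (s - s') * ‖x‖ ^ 8 ≤
      14 * ε / (s - s') * ‖x‖ ^ 8 := by
    have : 4 * (9 / 8) ^ (8 + 1) * (6 / 5 * ε) ≤ 14 * ε := by
      norm_num
      linarith
    gcongr
  have a5 : 56 * ε / (s - s') * ‖x‖ ^ 8 = 4 * (14 * ε / (s - s') * ‖x‖ ^ 8) := by ring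
  linarith

theorem F_step (hA : D.An R e) (hM : D.Machine ω C) {v u : ℂ → ℂ} {s θ B E : ℝ} {x : ℂ}
    (hv : Wb v s θ) (hu : Wb u s B) (h1 : 1 / 8 ≤ s) (h2 : s ≤ 1 / 4) (hx : x ∈ U s) (h0 : 0 ≤ θ)
    (hθ : 8 * θ ≤ ω) (hB : 0 < B) (hBω : 500 * B ≤ ω) (hE0 : 0 ≤ E)
    (hE : D.m * ‖D.EH v x‖ ≤ E * ‖x‖ ^ 8) :
    ‖D.FF (v + u) x‖ ≤ ‖D.FF v x + D.LL v u x‖ +
      (20000 * C * (B / ω) ^ 2 + 1000 * (B / ω) * E) * wF x := by
  obtain ⟨hΛ, hF⟩ := local_fam hM hv hu h1 h2 hx h0 hθ hB hBω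
  have hx0 := U.norm_pos hx
  have hx1 := U.norm_lt (by linarith) h2 hx
  have hω := hM.ω_pos
  have hC := hM.C_ge
  have hm := hA.m_pos
  have hfam := hM.fam _ _ _ _ _ _ _ hF
  have hΛ0 : 0 < ω / (64 * B * ‖x‖ ^ 5) := by positivity
  have a1 := schwarz2 hfam.F_hol (M := C) (z := 1)
    (fun l hl => (hM.st _ _ _ _ (hF.st l hl)).F_le)
    (by rw [mem_ball_zero_iff, norm_one]; exact hΛ)
  have a2 := cauchy1 hΛ0 hfam.Q_hol (M := 2 * D.m)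
    (fun l hl => Q_le2 hA (by linarith) h2 hx (hM.st _ _ _ _ (hF.st l hl)))
  have a3 := hfam.F_der (B * (13 / 10) ^ 7) (fun ξ hξ => by
    have := pow_le (U.norm_lt (by linarith) h2 hξ) 7
    calc ‖u ξ‖ ≤ B * ‖ξ‖ ^ 8 := hu.b0 ξ hξ
      _ = B * ‖ξ‖ ^ 7 * ‖ξ‖ := by ring
      _ ≤ _ := by gcongr) 0 (mem_ball_self hΛ0)
  rw [a3] at a1
  simp only [at_zero, at_one] at a1
  simp only [sub_zero, norm_one, mul_one, one_mul, deriv_id'', one_pow] at a1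
  set q := deriv (fun w => D.Q (fun ξ => v ξ + w * u ξ) x) 0 with hq
  have e1 : D.FF (v + u) x = (D.FF v x + D.LL v u x) +
      ((D.FF (v + u) x - D.FF v x - (D.LL v u x + q * D.EH v x)) + q * D.EH v x) := by ring
  have w1 := le_wF hx1
  have b1 : 4 * C / (ω / (64 * B * ‖x‖ ^ 5)) ^ 2 ≤ 20000 * C * (B / ω) ^ 2 * wF x := by
    calc 4 * C / (ω / (64 * B * ‖x‖ ^ 5)) ^ 2 = 16384 * C * (B / ω) ^ 2 * ‖x‖ ^ 10 := by
          field_simp; norm_num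
      _ ≤ 16384 * C * (B / ω) ^ 2 * (6 / 5 * wF x) := by gcongr
      _ = (16384 * (6 / 5)) * (C * (B / ω) ^ 2 * wF x) := by ring
      _ ≤ 20000 * (C * (B / ω) ^ 2 * wF x) := by
          have := wF_nonneg x
          gcongr; norm_num
      _ = _ := by ring
  have b2 : ‖q * D.EH v x‖ ≤ 1000 * (B / ω) * E * wF x := by
    rw [norm_mul]
    have h3 := pow_le hx1 3
    calc ‖q‖ * ‖D.EH v x‖ ≤ 2 * (2 * D.m) / (ω / (64 * B * ‖x‖ ^ 5)) * ‖D.EH v x‖ := by gcongr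
      _ = 256 * (B / ω) * ‖x‖ ^ 5 * (D.m * ‖D.EH v x‖) := by field_simp; ring
      _ ≤ 256 * (B / ω) * ‖x‖ ^ 5 * (E * ‖x‖ ^ 8) := by gcongr
      _ = 256 * (B / ω) * E * ‖x‖ ^ 3 * ‖x‖ ^ 10 := by ring
      _ ≤ 256 * (B / ω) * E * (13 / 10) ^ 3 * (6 / 5 * wF x) := by gcongr
      _ = (256 * (13 / 10) ^ 3 * (6 / 5)) * (B / ω * E * wF x) := by ring
      _ ≤ 1000 * (B / ω * E * wF x) := by
          have := wF_nonneg x
          gcongr; norm_num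
      _ = _ := by ring
  rw [e1]
  refine (norm_add_le _ _).trans (add_le_add le_rfl ((norm_add_le _ _).trans ?_))
  linarith

/-! ### The gauge functions -/

theorem ray_mem {s s' r : ℝ} {φ z : ℂ} (h0 : 0 ≤ s') (hs : s' < s) (h2 : s ≤ 1 / 4)
    (hφ : φ ∈ U s') (hr : r ∈ Ioc (0 : ℝ) 1) (hz : z ∈ ball (r : ℂ) ((s - s') / 2 * r)) :
    z * φ ∈ U s := by
  refine U.margin h0 hs h2 (U.star h0 hφ hr) ?_
  rw [mem_ball, dist_eq_norm] at hz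
  rw [← sub_mul, norm_mul, norm_mul, Complex.norm_real, Real.norm_of_nonneg hr.1.le]
  calc ‖z - r‖ * ‖φ‖ ≤ (s - s') / 2 * r * ‖φ‖ := by gcongr
    _ = _ := by ring

theorem φ_mem (hA : D.An R e) {w : ℂ → ℂ} {s s' Rr : ℝ} {x : ℂ} (h1 : 1 / 8 ≤ s')
    (h2 : s' ≤ 1 / 4) (hx : x ∈ U s') (h : D.StFacts w s Rr C x) : D.φ w x ∈ U s' := by
  have := (hA.inv s' ⟨h1, h2⟩ x hx (D.th w x - D.th0 x) h.th_le).1
  rwa [add_sub_cancel] at this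

theorem gauge (hA : D.An R e) (hM : D.Machine ω C) {v u : ℂ → ℂ} {s s' θ B r : ℝ} {x : ℂ}
    (hv : Wb v s θ) (hu : Wb u s B) (h1 : 1 / 8 ≤ s') (hs : s' < s) (h2 : s ≤ 1 / 4)
    (hx : x ∈ U s') (h0 : 0 ≤ θ) (hθ : 8 * θ ≤ ω) (hB : 0 < B) (hBω : 500 * B ≤ ω)
    (hr : r ∈ Ioc (0 : ℝ) 1) :
    (DifferentiableOn ℂ (D.kT v x) (ball (r : ℂ) ((s - s') / 2 * r)) ∧
      DifferentiableOn ℂ (D.kT (v + u) x) (ball (r : ℂ) ((s - s') / 2 * r)) ∧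
      ∀ z ∈ ball (r : ℂ) ((s - s') / 2 * r),
        ‖D.kT (v + u) x z - D.kT v x z‖ ≤ 4 * (B / ω) * ‖1 - x‖) ∧
    (DifferentiableOn ℂ (D.kB v x) (ball (r : ℂ) ((s - s') / 2 * r)) ∧
      DifferentiableOn ℂ (D.kB (v + u) x) (ball (r : ℂ) ((s - s') / 2 * r)) ∧
      ∀ z ∈ ball (r : ℂ) ((s - s') / 2 * r),
        ‖D.kB (v + u) x z - D.kB v x z‖ ≤ 4 * (B / ω) * ‖1 - x‖) := by
  have hω := hM.ω_pos
  have hs0 : (0 : ℝ) ≤ s' := by linarith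
  have hs1 : (0 : ℝ) ≤ s := by linarith
  have hx' := U.mono hs0 hs.le hx
  have hF : FamS (ball 0 (ω / (8 * B))) v u (fun l => l) (fun _ => x) s 3 ω := by
    refine fam_l hv hu (by linarith) h2 hx' (by linarith [U.norm_lt hs1 h2 hx']) h0 hθ hB.le
      fun ξ hξ _ => ?_
    calc ω / (8 * B) * B * ‖ξ‖ ^ 5 ≤ ω / (8 * B) * B * 4 := by
          gcongr; exact pow5_le (U.norm_lt hs1 h2 hξ)
      _ = ω / 2 := by field_simp; norm_num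
  have hΛ : 1 < ω / (8 * B) := by
    rw [lt_div_iff₀ (by positivity)]
    linarith
  have m1 : (1 : ℂ) ∈ ball (0 : ℂ) (ω / (8 * B)) := by
    rw [mem_ball_zero_iff, norm_one]; exact hΛ
  have m0 : (0 : ℂ) ∈ ball (0 : ℂ) (ω / (8 * B)) := mem_ball_self (by positivity)
  have hfam := hM.fam _ _ _ _ _ _ _ hF
  have hst := fun l hl => hM.st _ _ _ _ (hF.st l hl)
  have hφ : ∀ l ∈ ball (0 : ℂ) (ω / (8 * B)), D.φ (fun ξ => v ξ + l * u ξ) x ∈ U s' :=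
    fun l hl => φ_mem hA h1 (by linarith) hx (hst l hl)
  have hT : ∀ l ∈ ball (0 : ℂ) (ω / (8 * B)), DifferentiableOn ℂ
      (D.kT (fun ξ => v ξ + l * u ξ) x) (ball (r : ℂ) ((s - s') / 2 * r)) := fun l hl =>
    ((hst l hl).okT.ka_hol (hst l hl).plT).comp (differentiableOn_id.mul_const _)
      fun z hz => mem3 hs1 h2 (ray_mem hs0 hs h2 (hφ l hl) hr hz)
  have hBo : ∀ l ∈ ball (0 : ℂ) (ω / (8 * B)), DifferentiableOn ℂ
      (D.kB (fun ξ => v ξ + l * u ξ) x) (ball (r : ℂ) ((s - s') / 2 * r)) := fun l hl =>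
    ((hst l hl).okB.ka_hol (hst l hl).plB).comp (differentiableOn_id.mul_const _)
      fun z hz => mem3 hs1 h2 (ray_mem hs0 hs h2 hx hr hz)
  have t0 := hT 0 m0
  have t1 := hT 1 m1
  have b0 := hBo 0 m0
  have b1 := hBo 1 m1
  rw [at_zero] at t0 b0
  rw [at_one] at t1 b1
  have e : 2 * (‖1 - x‖ / 4) / (ω / (8 * B)) = 4 * (B / ω) * ‖1 - x‖ := by
    field_simp; ring
  refine ⟨⟨t0, t1, fun z hz => ?_⟩, b0, b1, fun z hz => ?_⟩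
  · have hy : ∀ l ∈ ball (0 : ℂ) (ω / (8 * B)),
        z * D.φ (fun ξ => v ξ + l * u ξ) x ∈ U s ∩ ball (0 : ℂ) 3 :=
      fun l hl => mem3 hs1 h2 (ray_mem hs0 hs h2 (hφ l hl) hr hz)
    have hh := (hfam.ka_hol _ (hfam.φ_hol.const_mul z) hy).1
    have := schwarz1 (hh.sub_const 1) (fun l hl => (hst l hl).kaT_le _ (hy l hl)) m1
    simp only [at_zero, at_one, sub_zero, norm_one, mul_one, sub_sub_sub_cancel_right, e] at this
    exact this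
  · have hy : ∀ l ∈ ball (0 : ℂ) (ω / (8 * B)), z * x ∈ U s ∩ ball (0 : ℂ) 3 :=
      fun l _ => mem3 hs1 h2 (ray_mem hs0 hs h2 hx hr hz)
    have hh := (hfam.ka_hol (fun _ => z * x) (differentiableOn_const _) hy).2
    have := schwarz1 (hh.sub_const 1) (fun l hl => (hst l hl).kaB_le _ (hy l hl)) m1
    simp only [at_zero, at_one, sub_zero, norm_one, mul_one, sub_sub_sub_cancel_right, e] at this
    exact this

/-! ### Assembly -/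

theorem stab_pos (hA : D.An R e) (hM : D.Machine ω C) {v u : ℂ → ℂ} {s s' θ ε A ε' C1 : ℝ}
    (hC1 : C1 = 10 ^ 8 * C / ω ^ 2) (h1 : 1 / 8 ≤ s') (hs : s' < s) (h2 : s ≤ 1 / 4)
    (hg : D.Good v s θ ε) (h0 : 0 ≤ θ) (hθ : 8 * θ ≤ ω) (hθm : 4 * θ ≤ D.m) (hε : 0 ≤ ε)
    (hu : DifferentiableOn ℂ u (U s)) (hu0 : u 0 = 0) (hur : IsRe u s) (hA0 : 0 < A)
    (hub : ∀ ξ ∈ U s, ‖u ξ‖ ≤ A * ‖ξ‖ ^ 8) (hAd : C1 * A ≤ s - s')
    (hL : ∀ x ∈ U s', ‖D.FF v x + D.LL v u x‖ ≤ ε' * wF x) :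
    D.Good (v + u) s' (θ + C1 * A / (s - s') ^ 3) (ε' + C1 * (A ^ 2 + ε * A) / (s - s') ^ 2) := by
  have hω := hM.ω_pos
  have hω1 := hM.ω_le
  have hC := hM.C_ge
  obtain ⟨d, hd⟩ : ∃ d, d = s - s' := ⟨_, rfl⟩
  rw [← hd] at hAd ⊢
  have d0 : 0 < d := by linarith
  have d1 : d ≤ 1 / 8 := by linarith
  obtain ⟨s1, hs1⟩ : ∃ s1, s1 = (s + s') / 2 := ⟨_, rfl⟩
  have e1 : s - s1 = d / 2 := by linarith
  have e2 : s1 - s' = d / 2 := by linarith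
  have l1 : s' < s1 := by linarith
  have l2 : s1 < s := by linarith
  have l3 : s1 ≤ 1 / 4 := by linarith
  have l4 : 1 / 8 ≤ s1 := by linarith
  have z1 : (0 : ℝ) ≤ s' := by linarith
  have z2 : (0 : ℝ) ≤ s1 := by linarith
  obtain ⟨k, hk⟩ : ∃ k, k = 1 / ω := ⟨_, rfl⟩
  have k0 : 1000 ≤ k := by rw [hk, le_div_iff₀ hω]; linarith
  have hC1' : C1 = 10 ^ 8 * C * k ^ 2 := by rw [hC1, hk]; field_simp
  have c1 : 10 ^ 8 * k ^ 2 ≤ C1 := by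
    have := mul_le_mul_of_nonneg_right hC (sq_nonneg k)
    linarith
  have c2 : 10 ^ 8 * k ≤ C1 := by
    have : k ≤ k ^ 2 := by nlinarith
    linarith
  obtain ⟨a, ha⟩ : ∃ a, a = A / d := ⟨_, rfl⟩
  have a0 : 0 < a := by rw [ha]; positivity
  have a1 : C1 * a ≤ 1 := by rw [ha, ← mul_div_assoc, div_le_one d0]; exact hAd
  have aA : A = a * d := by rw [ha]; field_simp
  obtain ⟨B, hB⟩ : ∃ B, B = 21 * a := ⟨_, rfl⟩
  have B0 : 0 < B := by rw [hB]; positivity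
  have Bk : B / ω = 21 * (a * k) := by rw [hB, hk]; field_simp
  have ak : 10 ^ 8 * (a * k) ≤ 1 := by
    have := mul_le_mul_of_nonneg_right c2 a0.le
    linarith
  have Bω : 500 * B ≤ ω := by
    have : B / ω ≤ 1 / 500 := by rw [Bk]; linarith
    rw [div_le_iff₀ hω] at this
    linarith
  have AB : A ≤ B := by
    have := mul_le_mul_of_nonneg_left d1 a0.le
    linarith
  have hv1 : Wb v s1 θ := (good_wb hg).mono z2 l2.le
  have hu1 : Wb u s1 B := by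
    refine ⟨hu.mono (U.mono z2 l2.le), fun ξ hξ => (hub ξ (U.mono z2 l2.le hξ)).trans (by gcongr),
      fun ξ hξ => (U.deriv_le (n := 7) z2 l2 h2 hu hub hξ).trans ?_⟩
    have : 4 * (9 / 8) ^ (7 + 1) * A / (s - s1) ≤ B := by
      rw [e1, aA, hB, div_le_iff₀ (by positivity)]
      have := mul_pos a0 d0
      norm_num
      linarith
    gcongr
  obtain ⟨T, hT⟩ : ∃ T, T = C1 * A / d ^ 3 := ⟨_, rfl⟩
  have hT' : T = C1 * a / d ^ 2 := by rw [hT, aA]; field_simp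
  have dd : d ^ 2 ≤ d := by
    have := mul_le_mul_of_nonneg_left d1 d0.le
    linarith
  have T1 : 10 ^ 8 * (a * k) / d ^ 2 ≤ T := by
    rw [hT']
    have : 10 ^ 8 * (a * k) ≤ C1 * a := by
      have := mul_le_mul_of_nonneg_right c2 a0.le
      linarith
    gcongr
  have T2 : 10 ^ 8 * (a * k) / d ≤ T := le_trans (by gcongr) T1
  have T3 : B ≤ T := by
    refine le_trans ?_ T2
    rw [le_div_iff₀ d0, hB]
    have p1 := mul_le_mul_of_nonneg_left d1 a0.le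
    have p2 := mul_le_mul_of_nonneg_left k0 a0.le
    linarith
  rw [← hT]
  have hw1 : Wb (v + u) s1 (θ + B) := by
    have := hv1.add_smul hu1 1
    rwa [at_one, norm_one, one_mul] at this
  have hU := U.mono z1 l1.le
  have hU' := U.mono z1 hs.le
  have g1 : ∀ Y : ℝ, 0 ≤ Y → 2 * (4 * (B / ω) * Y) / ((s1 - s') / 2) ≤ T * Y := by
    intro Y hY
    calc _ = 672 * (a * k) / d * Y := by rw [e2, Bk]; field_simp; ring
      _ ≤ 10 ^ 8 * (a * k) / d * Y := by gcongr; norm_num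
      _ ≤ _ := by gcongr
  have g2 : ∀ Y : ℝ, 0 ≤ Y → 16 * (4 * (B / ω) * Y) / ((s1 - s') / 2) ^ 2 ≤ T * Y := by
    intro Y hY
    calc _ = 21504 * (a * k) / d ^ 2 * Y := by rw [e2, Bk]; field_simp; ring
      _ ≤ 10 ^ 8 * (a * k) / d ^ 2 * Y := by gcongr; norm_num
      _ ≤ _ := by gcongr
  have gT : ∀ x ∈ U s', ∀ r ∈ Ioc (0 : ℝ) 1,
      ‖(r : ℂ) * deriv (D.kT (v + u) x) r‖ ≤ (D.t / 500 + (θ + T)) * ‖1 - x‖ ∧
      ‖(r : ℂ) ^ 2 * deriv (deriv (D.kT (v + u) x)) r‖ ≤ (D.t / 500 + (θ + T)) * ‖1 - x‖ := by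
    intro x hx r hr
    obtain ⟨⟨p1, p2, p3⟩, -⟩ := gauge hA hM hv1 hu1 h1 l1 l3 hx h0 hθ B0 Bω hr
    obtain ⟨q1, q2⟩ := gauge_step hr.1 (by linarith) p1 p2 p3 (hg.gT1 x (hU' hx) r hr)
      (hg.gT2 x (hU' hx) r hr)
    exact ⟨by linarith [g1 _ (norm_nonneg (1 - x))], by linarith [g2 _ (norm_nonneg (1 - x))]⟩
  have gB : ∀ x ∈ U s', ∀ r ∈ Ioc (0 : ℝ) 1,
      ‖(r : ℂ) * deriv (D.kB (v + u) x) r‖ ≤ (D.t / 500 + (θ + T)) * ‖1 - x‖ ∧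
      ‖(r : ℂ) ^ 2 * deriv (deriv (D.kB (v + u) x)) r‖ ≤ (D.t / 500 + (θ + T)) * ‖1 - x‖ := by
    intro x hx r hr
    obtain ⟨-, p1, p2, p3⟩ := gauge hA hM hv1 hu1 h1 l1 l3 hx h0 hθ B0 Bω hr
    obtain ⟨q1, q2⟩ := gauge_step hr.1 (by linarith) p1 p2 p3 (hg.gB1 x (hU' hx) r hr)
      (hg.gB2 x (hU' hx) r hr)
    exact ⟨by linarith [g1 _ (norm_nonneg (1 - x))], by linarith [g2 _ (norm_nonneg (1 - x))]⟩
  refine ⟨hw1.hol.mono hU, by simp [hg.zero, hu0], fun ξ hξ hi => ?_, fun ξ hξ => ?_,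
    fun ξ hξ => ?_, fun x hx r hr => (gT x hx r hr).1, fun x hx r hr => (gT x hx r hr).2,
    fun x hx r hr => (gB x hx r hr).1, fun x hx r hr => (gB x hx r hr).2, fun x hx => ?_,
    fun x hx => ?_⟩
  · simp [hg.real ξ (hU' hξ) hi, hur ξ (hU' hξ) hi]
  · exact (hw1.b0 ξ (hU hξ)).trans (by gcongr)
  · exact (hw1.b1 ξ (hU hξ)).trans (by gcongr)
  · obtain ⟨q0, -, -⟩ := fam_x hM hv1.hol fun y hy => hv1.state3 l4 l3 hy h0 (by linarith)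
    obtain ⟨q1, -, -⟩ := fam_x hM hw1.hol fun y hy =>
      hw1.state3 l4 l3 hy (by linarith) (by linarith)
    have q2 := U.deriv_le (n := 4) (A := 2 * B / ω) z1 l1 l3 (q1.sub q0)
      (fun y hy => Q_diff hA hM hv1 hu1 l4 l3 hy h0 hθ B0 Bω) hx
    have hn := (isOpen_U s1).mem_nhds (hU hx)
    rw [deriv_sub (q1.differentiableAt hn) (q0.differentiableAt hn)] at q2
    have q3 : 4 * (9 / 8) ^ (4 + 1) * (2 * B / ω) / (s1 - s') * ‖x‖ ^ 4 ≤ T := by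
      have := pow_le (U.norm_lt z2 l3 (hU hx)) 4
      calc _ = 8 * (9 / 8) ^ 5 * 42 * (a * k) / d * ‖x‖ ^ 4 := by
            rw [e2, mul_div_assoc 2 B ω, Bk]; field_simp; ring
        _ ≤ 8 * (9 / 8) ^ 5 * 42 * (a * k) / d * (13 / 10) ^ 4 := by gcongr
        _ = 8 * (9 / 8) ^ 5 * 42 * (13 / 10) ^ 4 * (a * k) / d := by ring
        _ ≤ 10 ^ 8 * (a * k) / d := by gcongr; norm_num
        _ ≤ T := T2
    have q4 := norm_sub_norm_le (deriv (D.Q v) x) (deriv (D.Q (v + u)) x)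
    rw [norm_sub_rev] at q4
    linarith [hg.gQ x (hU' hx)]
  · have q1 := EH_le hM h1 hs h2 hg h0 hθ hθm hε hx
    rw [← hd] at q1
    have q2 := F_step hA hM hv1 hu1 l4 l3 (hU hx) h0 hθ B0 Bω (by positivity) q1
    have q3 : 20000 * C * (B / ω) ^ 2 + 1000 * (B / ω) * (56 * ε / d) ≤
        C1 * (A ^ 2 + ε * A) / d ^ 2 := by
      have r1 : C1 * (A ^ 2 + ε * A) / d ^ 2 = C1 * a ^ 2 + C1 * (a * ε / d) := by
        rw [aA]; field_simp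
      have r2 : 20000 * C * (B / ω) ^ 2 ≤ C1 * a ^ 2 := by
        rw [Bk, hC1']
        have : 0 ≤ C * k ^ 2 * a ^ 2 := by positivity
        linarith
      have r3 : 1000 * (B / ω) * (56 * ε / d) ≤ C1 * (a * ε / d) := by
        calc _ = 1176000 * k * (a * ε / d) := by rw [Bk]; ring
          _ ≤ _ := by gcongr; linarith
      linarith
    have q4 := mul_le_mul_of_nonneg_right q3 (wF_nonneg x)
    linarith [hL x hx]

end Stab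

theorem an_stab : StmtStab := by
  intro D R e ω C hA hM
  have hω := hM.ω_pos
  have hω1 := hM.ω_le
  have hC := hM.C_ge
  have hm := hA.m_pos
  obtain ⟨C1, hC1⟩ : ∃ C1, C1 = 10 ^ 8 * C / ω ^ 2 := ⟨_, rfl⟩
  have c1 : 1 ≤ C1 := by
    rw [hC1, le_div_iff₀ (by positivity)]
    nlinarith
  refine ⟨min (ω / 8) (D.m / 4), C1, by positivity, c1, ?_, ?_⟩
  · intro v s θ ε u A h1 h2 hg h0 hθ _ hub x hx
    have hA0 : 0 ≤ A := nonneg_of_mul_nonneg_left ((norm_nonneg _).trans (hub x hx))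
      (pow_pos (U.norm_pos hx) 8)
    have := Stab.lbd hA hM h1 h2 hg h0 (by linarith [min_le_left (ω / 8) (D.m / 4)]) hA0 hub hx
    refine this.trans ?_
    have := Stab.wF_nonneg x
    gcongr
    exact le_mul_of_one_le_left hA0 c1
  · intro v s s' θ ε u A ε' h1 hs h2 hg h0 hθ hε hu hu0 hur hA0 hub hAd hL
    have t1 : 8 * θ ≤ ω := by linarith [min_le_left (ω / 8) (D.m / 4)]
    have t2 : 4 * θ ≤ D.m := by linarith [min_le_right (ω / 8) (D.m / 4)]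
    rcases hA0.lt_or_eq with hA0 | rfl
    · exact Stab.stab_pos hA hM hC1 h1 hs h2 hg h0 t1 t2 hε hu hu0 hur hA0 hub hAd hL
    · refine Stab.good_lim fun η hη => ?_
      have d0 : 0 < s - s' := by linarith
      have k1 : Tendsto (fun A : ℝ => C1 * A) (𝓝 0) (𝓝 (C1 * 0)) :=
        Continuous.tendsto (by fun_prop) 0
      have k2 : Tendsto (fun A : ℝ => θ + C1 * A / (s - s') ^ 3) (𝓝 0)
          (𝓝 (θ + C1 * 0 / (s - s') ^ 3)) := Continuous.tendsto (by fun_prop) 0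
      have k3 : Tendsto (fun A : ℝ => ε' + C1 * (A ^ 2 + ε * A) / (s - s') ^ 2) (𝓝 0)
          (𝓝 (ε' + C1 * (0 ^ 2 + ε * 0) / (s - s') ^ 2)) := Continuous.tendsto (by fun_prop) 0
      have j1 := k1.eventually (gt_mem_nhds (by simpa using d0 : C1 * 0 < s - s'))
      have j2 := k2.eventually (gt_mem_nhds (lt_add_of_pos_right _ hη))
      have j3 := k3.eventually (gt_mem_nhds (lt_add_of_pos_right _ hη))
      obtain ⟨A, ⟨i1, i2, i3⟩, i4⟩ :=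
        (((j1.and (j2.and j3)).filter_mono nhdsWithin_le_nhds).and
          (self_mem_nhdsWithin (a := (0 : ℝ)) (s := Ioi 0))).exists
      refine ⟨_, _, i2.le, i3.le, Stab.stab_pos hA hM hC1 h1 hs h2 hg h0 t1 t2 hε hu hu0 hur i4
        (fun ξ hξ => (hub ξ hξ).trans ?_) i1.le hL⟩
      have : (0 : ℝ) < A := i4
      gcongr

end

end Pool.Agent.Lib.MP_87c84d_gt
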