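import Pool.Agent.Lib.MP_87c84d_gt.Final0
import Pool.Agent.Lib.MP_87c84d_gt.CapDer
import Pool.Agent.Lib.MP_87c84d_gt.Machine
import Pool.Agent.Lib.MP_87c84d_gt.Stab
import Pool.Agent.Lib.MP_87c84d_gt.BaseXi
import Pool.Agent.Lib.MP_87c84d_gt.BaseClosed
import Pool.Agent.Lib.MP_87c84d_gt.BaseAn0
import Pool.Agent.Lib.MP_87c84d_gt.BaseCon
import Pool.Agent.Lib.MP_87c84d_gt.BaseIdent
import Pool.Agent.Lib.MP_87c84d_gt.BaseGe

namespace Pool.Agent.Lib.MP_87c84d_gt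

theorem exists_pair_of (hC : StmtCore) (h6 : StmtQuad) {δ : ℝ} (hδ : 0 < δ) :
    ∃ κ P₁ P₂, κ ≤ δ ∧ Pair κ P₁ P₂ :=
  have h2 := base_closed base_xi
  have h4 := base_an0 base_xi h2
  Sec.exists_pair (an_machine an_mid an_capder) an_stab hC h4 (base_con base_xi h2)
    (base_ident base_xi h2 h4 h6 an_mid an_bridge) (base_ge base_xi h2 h6) hδ

end Pool.Agent.Lib.MP_87c84d_gt
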