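import Pool.Agent.Lib.MP_87c84d_gt.GeoDefs

namespace Pool.Agent.Lib.MP_87c84d_gt

open MeasureTheory Set
open scoped ENNReal

namespace GeoArc

theorem split (f : ℝ → ℝ≥0∞) {a b c : ℝ} (h1 : a ≤ b) (h2 : b ≤ c) :
    ∫⁻ z in Ioo a c, f z = (∫⁻ z in Ioo a b, f z) + ∫⁻ z in Ioo b c, f z := by
  rw [setLIntegral_congr Ioo_ae_eq_Ioc, setLIntegral_congr (s := Ioo a b) Ioo_ae_eq_Ioc,
    setLIntegral_congr (s := Ioo b c) Ioo_ae_eq_Ioc, ← Ioc_union_Ioc_eq_Ioc h1 h2,
    lintegral_union measurableSet_Ioc (Ioc_disjoint_Ioc_of_le le_rfl)]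

theorem vol_sec {P : Set (ℝ × ℝ)} (hP : Prof P) (q t : ℝ) :
    volume (secSet P q t) = ∫⁻ z, fib P q t z := by
  have h : MeasurableSet (secSet P q t) := by
    have c : Continuous fun p : ℝ × ℝ => ((t - q * p.1) ^ 2 + p.2 ^ 2, p.1) := by fun_prop
    exact (hP.closed.preimage c).measurableSet
  rw [Measure.volume_eq_prod, Measure.prod_apply h]
  rfl

theorem int_nonneg {F : ℝ → ℝ} {a b : ℝ} (hab : a ≤ b) (h : ∀ u ∈ Ioo a b, 0 ≤ F u) :
    0 ≤ ∫ u in a..b, F u := by
  rw [intervalIntegral.integral_of_le hab, integral_Ioc_eq_integral_Ioo]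
  exact setIntegral_nonneg measurableSet_Ioo h

theorem ofReal_int {F : ℝ → ℝ} {a b : ℝ} (hab : a ≤ b) (hi : IntervalIntegrable F volume a b)
    (h : ∀ u ∈ Ioo a b, 0 ≤ F u) :
    ENNReal.ofReal (∫ u in a..b, F u) = ∫⁻ u in Ioo a b, ENNReal.ofReal (F u) := by
  rw [intervalIntegral.integral_of_le hab, integral_Ioc_eq_integral_Ioo]
  exact ofReal_integral_eq_lintegral_ofReal
    ((intervalIntegrable_iff_integrableOn_Ioo_of_le hab).1 hi)
    (ae_restrict_of_forall_mem measurableSet_Ioo h)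

theorem fib_ge {P : Set (ℝ × ℝ)} (hP : Prof P) {q t z T : ℝ} (h : (T, z) ∈ P)
    (hW : 0 ≤ T - (t - q * z) ^ 2) :
    ENNReal.ofReal (2 * √(T - (t - q * z) ^ 2)) ≤ fib P q t z := by
  have e : ENNReal.ofReal (2 * √(T - (t - q * z) ^ 2)) =
      volume (Icc (-√(T - (t - q * z) ^ 2)) (√(T - (t - q * z) ^ 2))) := by
    rw [Real.volume_Icc]
    congr 1
    ring
  rw [e]
  refine measure_mono fun y hy => ?_
  refine hP.down _ h _ ?_
  have h1 : y ^ 2 ≤ T - (t - q * z) ^ 2 := by
    rw [← Real.sq_sqrt hW]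
    exact sq_le_sq' hy.1 hy.2
  change (t - q * z) ^ 2 + y ^ 2 ≤ T
  linarith

theorem fib_le {P : Set (ℝ × ℝ)} {q t z V : ℝ}
    (h : ∀ y : ℝ, ((t - q * z) ^ 2 + y ^ 2, z) ∈ P → y ^ 2 ≤ V) :
    fib P q t z ≤ ENNReal.ofReal (2 * √V) := by
  have e : ENNReal.ofReal (2 * √V) = volume (Icc (-√V) (√V)) := by
    rw [Real.volume_Icc]
    congr 1
    ring
  rw [e]
  refine measure_mono fun y hy => ?_
  exact abs_le.1 (Real.abs_le_sqrt (h y hy))

/-- The pointwise inequality. -/
theorem point {T T' Z' U D q s R V : ℝ} (hZ : 0 < Z') (hR : 0 < R) (hRW : R ^ 2 = T - U ^ 2)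
    (hV : 0 ≤ V) (hV' : V * Z' = T * Z' + T' * s - (U + D - q * s) ^ 2 * Z') :
    Z' * (2 * √V) ≤ 2 * R * Z' + 2 * (s * ((T' / R) / 2 + q * U * (Z' / R))) -
      2 * D * (U * Z' / R) := by
  have h1 := Real.sq_sqrt hV
  set v := √V
  refine le_of_mul_le_mul_right ?_ hR
  have e : (2 * R * Z' + 2 * (s * ((T' / R) / 2 + q * U * (Z' / R))) - 2 * D * (U * Z' / R)) * R =
      2 * R ^ 2 * Z' + s * T' + 2 * s * q * U * Z' - 2 * D * U * Z' := by
    field_simp
    ring
  rw [e]
  have h2 : 0 ≤ (v - R) ^ 2 * Z' := by positivity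
  have h3 : 0 ≤ (D - q * s) ^ 2 * Z' := by positivity
  have h4 : v ^ 2 * Z' = T * Z' + T' * s - (U + D - q * s) ^ 2 * Z' := by rw [h1, hV']
  have h5 : R ^ 2 * Z' = (T - U ^ 2) * Z' := by rw [hRW]
  nlinarith

end GeoArc

open GeoArc

theorem arc_add : StmtArcAdd := by
  intro P q t z0 z1 z2 w0 w1 w2 a b a' b' ⟨h1, h2, h3, h4⟩ ⟨k1, k2, k3, k4⟩
  refine ⟨h1.trans k1, add_nonneg h2 k2, ?_, fun t' lam zs hl hz => ?_⟩
  · rw [split _ h1 k1, ENNReal.ofReal_add h2 k2]
    exact add_le_add h3 k3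
  · obtain ⟨h5, h6⟩ := h4 t' lam zs hl fun z hz' => hz z ⟨hz'.1, hz'.2.trans_le k1⟩
    obtain ⟨k5, k6⟩ := k4 t' lam zs hl fun z hz' => hz z ⟨h1.trans_lt hz'.1, hz'.2⟩
    refine ⟨by linarith, ?_⟩
    rw [split _ h1 k1]
    refine (add_le_add h6 k6).trans ?_
    rw [← ENNReal.ofReal_add h5 k5]
    exact le_of_eq (congrArg _ (by ring))

theorem arc_sup : StmtArcSup := by
  intro P q t z0 z1 a hP hz ⟨_, h2, h3, h4⟩
  refine le_antisymm (iSup_le fun t' => ?_) ?_
  · rw [vol_sec hP]
    let S : Set ℝ := {z | ∃ y : ℝ, ((t' - q * z) ^ 2 + y ^ 2, z) ∈ P}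
    have hS0 : ∀ z, z ∉ S → fib P q t' z = 0 := fun z hz => by
      have : {y : ℝ | ((t' - q * z) ^ 2 + y ^ 2, z) ∈ P} = ∅ :=
        eq_empty_of_forall_notMem fun y hy => hz ⟨y, hy⟩
      rw [fib, this, measure_empty]
    rcases S.eq_empty_or_nonempty with he | hne
    · rw [lintegral_congr (g := fun _ => 0) fun z => hS0 z (by simp [he])]
      simp
    obtain ⟨M, hM⟩ := hP.bdd
    have hb : ∀ z ∈ S, |z| ≤ M := fun z ⟨y, hy⟩ => (hM _ hy (by positivity)).2
    have hb1 : BddBelow S := ⟨-M, fun z hz => (abs_le.1 (hb z hz)).1⟩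
    have hb2 : BddAbove S := ⟨M, fun z hz => (abs_le.1 (hb z hz)).2⟩
    have hle : sInf S ≤ sSup S := csInf_le_csSup hne hb1 hb2
    have hin : ∀ z ∈ Ioo (sInf S) (sSup S), z ∈ S := fun z hz => by
      obtain ⟨za, ⟨ya, ha⟩, h5⟩ := exists_lt_of_csInf_lt hne hz.1
      obtain ⟨zb, ⟨yb, hb⟩, h6⟩ := exists_lt_of_lt_csSup hne hz.2
      have hd : 0 < zb - za := by linarith
      have c1 : 0 ≤ (zb - z) / (zb - za) := div_nonneg (by linarith) hd.le
      have c2 : 0 ≤ (z - za) / (zb - za) := div_nonneg (by linarith) hd.le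
      have c3 : (zb - z) / (zb - za) + (z - za) / (zb - za) = 1 := by
        field_simp
        ring
      have c4 : (zb - z) / (zb - za) * za + (z - za) / (zb - za) * zb = z := by
        field_simp
        ring
      have h7 := hP.convex ha hb c1 c2 c3
      set α := (zb - z) / (zb - za)
      set β := (z - za) / (zb - za)
      have h8 := hP.down _ h7 ((t' - q * z) ^ 2 + 0 ^ 2) (by
        simp only [Prod.smul_mk, Prod.mk_add_mk, smul_eq_mul]
        have e1 : t' - q * z = α * (t' - q * za) + β * (t' - q * zb) := by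
          linear_combination -t' * c3 + q * c4
        have e2 : β = 1 - α := by linarith
        have c5 : 0 ≤ α * β * ((t' - q * za) - (t' - q * zb)) ^ 2 := by positivity
        have c6 : 0 ≤ α * ya ^ 2 := by positivity
        have c7 : 0 ≤ β * yb ^ 2 := by positivity
        rw [e1]
        rw [e2] at c5 c7 ⊢
        nlinarith)
      simp only [Prod.smul_mk, Prod.mk_add_mk, smul_eq_mul, c4] at h8
      exact ⟨0, h8⟩
    have e1 : ∫⁻ z, fib P q t' z = ∫⁻ z in Ioo (sInf S) (sSup S), fib P q t' z := by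
      rw [setLIntegral_congr Ioo_ae_eq_Icc, ← lintegral_indicator measurableSet_Icc]
      refine lintegral_congr fun z => ?_
      by_cases h : z ∈ Icc (sInf S) (sSup S)
      · rw [indicator_of_mem h]
      · rw [indicator_of_notMem h]
        exact hS0 z fun hz => h ⟨csInf_le hb1 hz, le_csSup hb2 hz⟩
    rw [e1]
    rcases hle.eq_or_lt with he | hlt
    · rw [he]
      simp
    have hd : 0 < z1 - z0 := by linarith
    set lam := (sSup S - sInf S) / (z1 - z0) with hlam
    have hl : 0 < lam := div_pos (by linarith) hd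
    set zs := sInf S - lam * z0 with hzs
    have a0 : zs + lam * z0 = sInf S := by rw [hzs]; ring
    have a1 : zs + lam * z1 = sSup S := by
      rw [hzs, hlam]
      field_simp
      ring
    have hmono : StrictMono fun z : ℝ => zs + lam * z := fun x y h => by
      have := mul_lt_mul_of_pos_left h hl
      simpa using this
    have him : (fun z : ℝ => zs + lam * z) '' Ioo z0 z1 = Ioo (sInf S) (sSup S) := by
      rw [Continuous.image_Ioo_of_strictMono (by fun_prop) hmono, a0, a1]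
    obtain ⟨h5, h6⟩ := h4 t' lam zs hl.le fun z hz => hin _ (him ▸ mem_image_of_mem _ hz)
    rw [← him, lintegral_image_eq_lintegral_abs_deriv_mul measurableSet_Ioo (f' := fun _ => lam)
      (fun x _ => by
        simpa using (((hasDerivAt_id x).const_mul lam).const_add zs).hasDerivWithinAt)
      hmono.injective.injOn, lintegral_const_mul' _ _ ENNReal.ofReal_ne_top, abs_of_pos hl]
    refine (mul_le_mul_right h6 _).trans ?_
    rw [← ENNReal.ofReal_mul hl.le]
    refine ENNReal.ofReal_le_ofReal ?_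
    have : 0 ≤ (1 - lam) ^ 2 * a := by positivity
    nlinarith
  · refine le_trans ?_ (le_iSup _ t)
    rw [vol_sec hP]
    exact h3.trans (setLIntegral_le_lintegral _ _)

theorem arc_piece : StmtArcPiece := by
  intro P q t u0 u1 T Z T' Z' hP hu cT cZ dT dZ hZ hW hpar hmem iA iB
  have hmono : StrictMonoOn Z (Icc u0 u1) :=
    strictMonoOn_of_deriv_pos (convex_Icc _ _) cZ fun x hx => by
      rw [interior_Icc] at hx
      rw [(dZ x hx).deriv]
      exact hZ x hx
  have him : Z '' Ioo u0 u1 = Ioo (Z u0) (Z u1) := cZ.image_Ioo_of_strictMonoOn hu hmono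
  have hcv : ∀ g : ℝ → ℝ≥0∞, ∫⁻ z in Ioo (Z u0) (Z u1), g z =
      ∫⁻ u in Ioo u0 u1, ENNReal.ofReal |Z' u| * g (Z u) := fun g => by
    rw [← him, lintegral_image_eq_lintegral_abs_deriv_mul measurableSet_Ioo
      (fun x hx => (dZ x hx).hasDerivWithinAt) (hmono.injOn.mono Ioo_subset_Icc_self)]
  set R : ℝ → ℝ := fun u => √(T u - (t - q * Z u) ^ 2) with hR
  have cU : ContinuousOn (fun u => t - q * Z u) (Icc u0 u1) := by fun_prop
  have cR : ContinuousOn R (Icc u0 u1) := (cT.sub (cU.pow 2)).sqrt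
  have R0 : ∀ u ∈ Ioo u0 u1, 0 < R u := fun u h => Real.sqrt_pos.2 (hW u h)
  have R2 : ∀ u ∈ Ioo u0 u1, R u ^ 2 = T u - (t - q * Z u) ^ 2 := fun u h =>
    Real.sq_sqrt (hW u h).le
  have hI : uIcc u0 u1 = Icc u0 u1 := uIcc_of_le hu
  have hI' : uIoo u0 u1 = Ioo u0 u1 := uIoo_of_le hu
  change IntervalIntegrable (fun u => Z' u / R u) volume u0 u1 at iA
  change IntervalIntegrable (fun u => T' u / R u) volume u0 u1 at iB
  change Arc P q t (Z u0) (Z u1) (R u0) (R u1) (∫ u in u0..u1, 2 * R u * Z' u)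
    (∫ u in u0..u1, (t - q * Z u) * Z' u / R u)
  have i1 : IntervalIntegrable (fun u => 2 * R u * Z' u) volume u0 u1 := by
    refine (iA.continuousOn_mul (g := fun u => 2 * R u ^ 2) (by rw [hI]; fun_prop)).congr_uIoo ?_
    rw [hI']
    intro u h
    have := (R0 u h).ne'
    field_simp
  have i2 : IntervalIntegrable (fun u => (t - q * Z u) * Z' u / R u) volume u0 u1 := by
    simp only [mul_div_assoc]
    exact iA.continuousOn_mul (hI ▸ cU)
  have i3 : IntervalIntegrable
      (fun u => (T' u / R u) / 2 + q * (t - q * Z u) * (Z' u / R u)) volume u0 u1 :=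
    (iB.div_const 2).add (iA.continuousOn_mul (by rw [hI]; fun_prop))
  have dR : ∀ u ∈ Ioo u0 u1,
      HasDerivAt R ((T' u / R u) / 2 + q * (t - q * Z u) * (Z' u / R u)) u := fun u h => by
    have h1 := ((dT u h).sub ((((dZ u h).const_mul q).const_sub t).pow 2)).sqrt (hW u h).ne'
    refine h1.congr_deriv ?_
    have := (R0 u h).ne'
    change _ / (2 * R u) = _
    field_simp
    simp
    ring
  have p1 : ∀ u ∈ Ioo u0 u1, 0 ≤ 2 * R u * Z' u := fun u h => by
    have := R0 u h
    have := hZ u h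
    positivity
  refine ⟨hmono.monotoneOn (left_mem_Icc.2 hu) (right_mem_Icc.2 hu) hu, int_nonneg hu p1, ?_,
    fun t' lam zs _ hex => ?_⟩
  · rw [ofReal_int hu i1 p1, hcv]
    refine setLIntegral_mono' measurableSet_Ioo fun u h => ?_
    rw [abs_of_pos (hZ u h), mul_comm _ (Z' u), ENNReal.ofReal_mul (hZ u h).le]
    exact mul_le_mul_right (fib_ge hP (hmem u h) (hW u h).le) _
  · set s : ℝ → ℝ := fun u => zs + lam * Z u - Z u with hs
    have cs : ContinuousOn s (Icc u0 u1) := by fun_prop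
    have i4 : IntervalIntegrable (fun u => s u *
        ((T' u / R u) / 2 + q * (t - q * Z u) * (Z' u / R u))) volume u0 u1 :=
      i3.continuousOn_mul (hI ▸ cs)
    have ftc := intervalIntegral.integral_eq_sub_of_hasDerivAt_of_le (f := fun u => s u * R u)
      (f' := fun u => (lam - 1) / 2 * (2 * R u * Z' u) + s u *
        ((T' u / R u) / 2 + q * (t - q * Z u) * (Z' u / R u))) hu (cs.mul cR) (fun u h => by
        have h1 := ((((dZ u h).const_mul lam).const_add zs).sub (dZ u h)).mul (dR u h)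
        refine h1.congr_deriv ?_
        simp only [hs, Pi.sub_apply]
        ring) ((i1.const_mul _).add i4)
    rw [intervalIntegral.integral_add (i1.const_mul _) i4, intervalIntegral.integral_const_mul]
      at ftc
    set G : ℝ → ℝ := fun u => 2 * R u * Z' u + 2 * (s u *
        ((T' u / R u) / 2 + q * (t - q * Z u) * (Z' u / R u))) -
        2 * (t' - t) * ((t - q * Z u) * Z' u / R u) with hG
    have iG : IntervalIntegrable G volume u0 u1 := (i1.add (i4.const_mul 2)).sub (i2.const_mul _)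
    have eG : ∫ u in u0..u1, G u = (2 - lam) * (∫ u in u0..u1, 2 * R u * Z' u) +
        2 * ((zs + lam * Z u1 - Z u1) * R u1 - (zs + lam * Z u0 - Z u0) * R u0) -
        2 * (t' - t) * ∫ u in u0..u1, (t - q * Z u) * Z' u / R u := by
      rw [hG, intervalIntegral.integral_sub (i1.add (i4.const_mul 2)) (i2.const_mul _),
        intervalIntegral.integral_add i1 (i4.const_mul 2), intervalIntegral.integral_const_mul,
        intervalIntegral.integral_const_mul]
      simp only [hs] at ftc ⊢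
      linear_combination 2 * ftc
    have key : ∀ u ∈ Ioo u0 u1, 0 ≤ G u ∧
        ENNReal.ofReal |Z' u| * fib P q t' (zs + lam * Z u) ≤ ENNReal.ofReal (G u) := by
      intro u h
      have z0 := hZ u h
      let V := T u + T' u * s u / Z' u - (t' - q * (zs + lam * Z u)) ^ 2
      have hV' : V * Z' u = T u * Z' u + T' u * s u -
          (t - q * Z u + (t' - t) - q * s u) ^ 2 * Z' u := by
        simp only [V, hs]
        field_simp
        ring
      have hy : ∀ y : ℝ, ((t' - q * (zs + lam * Z u)) ^ 2 + y ^ 2, zs + lam * Z u) ∈ P →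
          y ^ 2 ≤ V := fun y hy => by
        have h1 := hpar u h _ hy
        refine le_of_mul_le_mul_right ?_ z0
        rw [hV']
        simp only [hs] at h1 ⊢
        nlinarith
      obtain ⟨y, hy0⟩ := hex (Z u) (him ▸ mem_image_of_mem _ h)
      have hV : 0 ≤ V := (sq_nonneg y).trans (hy y hy0)
      have h2 : Z' u * (2 * √V) ≤ G u := point z0 (R0 u h) (R2 u h) hV hV'
      refine ⟨le_trans (by positivity) h2, ?_⟩
      refine (mul_le_mul_right (fib_le hy) _).trans ?_
      rw [abs_of_pos z0, ← ENNReal.ofReal_mul z0.le]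
      exact ENNReal.ofReal_le_ofReal h2
    rw [← eG]
    refine ⟨int_nonneg hu fun u h => (key u h).1, ?_⟩
    rw [ofReal_int hu iG fun u h => (key u h).1, hcv]
    exact setLIntegral_mono' measurableSet_Ioo fun u h => (key u h).2

end Pool.Agent.Lib.MP_87c84d_gt
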