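import Pool.Agent.Lib.MP_87c84d_gt.Defs

/-!
The middle part: bounds, real values and the derivative along holomorphic families.
-/

namespace Pool.Agent.Lib.MP_87c84d_gt

open MeasureTheory Set Metric Filter Topology

noncomputable section

namespace Mid

/-- The integrable majorant of the inverse square root. -/
def GG (zB zT z : ℝ) : ℝ := 4 / √(zT - zB) * ((√(zT - z))⁻¹ + (√(z - zB))⁻¹)

lemma ii_top {zB zT : ℝ} (h : zB < zT) :
    IntervalIntegrable (fun z : ℝ => (√(zT - z))⁻¹) volume zB zT := by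
  refine intervalIntegral.intervalIntegrable_deriv_of_nonneg
    (g := fun z : ℝ => -2 * √(zT - z)) (by fun_prop) ?_ ?_
  · intro r hr
    rw [min_eq_left h.le, max_eq_right h.le] at hr
    have h0 : 0 < zT - r := by linarith [hr.2]
    have h1 := ((Real.hasDerivAt_sqrt h0.ne').comp r ((hasDerivAt_id r).const_sub zT)).const_mul
      (-2)
    refine hasDerivAt_of_eq h1 (fun _ => rfl) ?_
    have := Real.sqrt_pos.mpr h0
    field_simp
  · intro r _; positivity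

lemma ii_bot {zB zT : ℝ} (h : zB < zT) :
    IntervalIntegrable (fun z : ℝ => (√(z - zB))⁻¹) volume zB zT := by
  refine intervalIntegral.intervalIntegrable_deriv_of_nonneg
    (g := fun z : ℝ => 2 * √(z - zB)) (by fun_prop) ?_ ?_
  · intro r hr
    rw [min_eq_left h.le, max_eq_right h.le] at hr
    have h0 : 0 < r - zB := by linarith [hr.1]
    have h1 := ((Real.hasDerivAt_sqrt h0.ne').comp r ((hasDerivAt_id r).sub_const zB)).const_mul 2
    refine hasDerivAt_of_eq h1 (fun _ => rfl) ?_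
    have := Real.sqrt_pos.mpr h0
    field_simp
  · intro r _; positivity

lemma ii_GG {zB zT : ℝ} (h : zB < zT) : IntervalIntegrable (GG zB zT) volume zB zT :=
  ((ii_top h).add (ii_bot h)).const_mul _

lemma inv_le_GG {zB zT z x : ℝ} (hz : z ∈ Ioo zB zT) (hx : (zT - z) * (z - zB) / 10 ≤ x) :
    (√x)⁻¹ ≤ GG zB zT z := by
  have ha : 0 < zT - z := by linarith [hz.2]
  have hb : 0 < z - zB := by linarith [hz.1]
  have hL : 0 < zT - zB := by linarith
  set A := √(zT - z) with hA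
  set B := √(z - zB) with hB
  set S := √(zT - zB) with hS
  have hA0 : 0 < A := Real.sqrt_pos.mpr ha
  have hB0 : 0 < B := Real.sqrt_pos.mpr hb
  have hS0 : 0 < S := Real.sqrt_pos.mpr hL
  have hA2 : A ^ 2 = zT - z := Real.sq_sqrt ha.le
  have hB2 : B ^ 2 = z - zB := Real.sq_sqrt hb.le
  have hS2 : S ^ 2 = zT - zB := Real.sq_sqrt hL.le
  have h1 : S ≤ A + B := by
    apply abs_le_of_sq_le_sq' _ (by positivity) |>.2
    nlinarith [mul_pos hA0 hB0]
  have h2 : A * B / 4 ≤ √x := by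
    apply Real.le_sqrt_of_sq_le
    have : (A * B / 4) ^ 2 = (zT - z) * (z - zB) / 16 := by rw [← hA2, ← hB2]; ring
    rw [this]
    nlinarith [mul_pos ha hb]
  have h3 : (√x)⁻¹ ≤ (A * B / 4)⁻¹ := inv_anti₀ (by positivity) h2
  refine h3.trans ?_
  unfold GG
  rw [← hA, ← hB, ← hS]
  have h4 : 4 / S * (A⁻¹ + B⁻¹) = (A * B / 4)⁻¹ * ((A + B) / S) := by
    field_simp
    ring
  rw [h4]
  exact le_mul_of_one_le_right (by positivity) ((one_le_div hS0).mpr h1)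

variable {ξ0 : ℝ → ℝ} {zB zT : ℝ}

lemma sub_le (h1 : -2 ≤ zB) (h2 : zT ≤ 2) {c : ℂ} (hc : ‖c‖ ≤ 1 / 8) {z : ℝ}
    (hz : z ∈ Ioo zB zT) : ‖(z : ℂ) - c‖ ≤ 3 := by
  have h3 : ‖(z : ℂ)‖ ≤ 2 := by
    rw [Complex.norm_real, Real.norm_eq_abs, abs_le]
    constructor <;> linarith [hz.1, hz.2]
  linarith [norm_sub_le (z : ℂ) c]

lemma sqrt_le (h1 : -2 ≤ zB) (h2 : zT ≤ 2) (hξ : ∀ z ∈ Icc zB zT, |ξ0 z| ≤ 2) {c Q : ℂ}
    (h : MidOK ξ0 zB zT c Q) {z : ℝ} (hz : z ∈ Ioo zB zT) :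
    ‖2 * Complex.sqrt (WW ξ0 c Q z)‖ ≤ 4 := by
  have h3 := sub_le h1 h2 h.c_le hz
  have h4 : ‖WW ξ0 c Q z‖ ≤ 4 := by
    unfold WW
    have h5 : ‖((ξ0 z : ℝ) : ℂ)‖ ≤ 2 := by
      rw [Complex.norm_real, Real.norm_eq_abs]; exact hξ z (Ioo_subset_Icc_self hz)
    have h6 : ‖Q * ((z : ℂ) - c) ^ 2‖ ≤ 1 / 50 * 3 ^ 2 := by
      rw [norm_mul, norm_pow]
      exact mul_le_mul h.Q_le (pow_le_pow_left₀ (norm_nonneg _) h3 2) (by positivity)
        (by norm_num)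
    linarith [norm_sub_le ((ξ0 z : ℝ) : ℂ) (Q * ((z : ℂ) - c) ^ 2)]
  rw [norm_mul, norm_sqrt]
  have h7 : √‖WW ξ0 c Q z‖ ≤ 2 := by
    apply Real.sqrt_le_iff.mpr
    constructor <;> linarith
  have : ‖(2 : ℂ)‖ = 2 := by simp
  rw [this]; linarith

lemma inv_le {c Q : ℂ} (h : MidOK ξ0 zB zT c Q) {z : ℝ} (hz : z ∈ Ioo zB zT) :
    ‖(Complex.sqrt (WW ξ0 c Q z))⁻¹‖ ≤ GG zB zT z := by
  rw [norm_inv, norm_sqrt]
  exact inv_le_GG hz ((h.low z (Ioo_subset_Icc_self hz)).trans (Complex.re_le_norm _))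

lemma b_le (h1 : -2 ≤ zB) (h2 : zT ≤ 2) {c Q : ℂ} (h : MidOK ξ0 zB zT c Q) {z : ℝ}
    (hz : z ∈ Ioo zB zT) : ‖((z : ℂ) - c) / Complex.sqrt (WW ξ0 c Q z)‖ ≤ 3 * GG zB zT z := by
  rw [div_eq_mul_inv, norm_mul]
  exact mul_le_mul (sub_le h1 h2 h.c_le hz) (inv_le h hz) (norm_nonneg _) (by norm_num)

lemma e_le (h1 : -2 ≤ zB) (h2 : zT ≤ 2) {c Q : ℂ} (h : MidOK ξ0 zB zT c Q) {z : ℝ}
    (hz : z ∈ Ioo zB zT) :
    ‖((z : ℂ) - c) ^ 2 / Complex.sqrt (WW ξ0 c Q z)‖ ≤ 3 ^ 2 * GG zB zT z := by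
  rw [div_eq_mul_inv, norm_mul, norm_pow]
  exact mul_le_mul (pow_le_pow_left₀ (norm_nonneg _) (sub_le h1 h2 h.c_le hz) 2) (inv_le h hz)
    (norm_nonneg _) (by norm_num)

lemma slit {c Q : ℂ} (h : MidOK ξ0 zB zT c Q) {z : ℝ} (hz : z ∈ Ioo zB zT) :
    WW ξ0 c Q z ∈ Complex.slitPlane :=
  slit_of_re_pos (h.pos z (Ioo_subset_Icc_self hz))

lemma ne {c Q : ℂ} (h : MidOK ξ0 zB zT c Q) {z : ℝ} (hz : z ∈ Ioo zB zT) :
    Complex.sqrt (WW ξ0 c Q z) ≠ 0 :=
  sqrt_ne_zero (Complex.slitPlane_ne_zero (slit h hz))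

lemma cont_sqrt (hc : Continuous ξ0) {c Q : ℂ} (h : MidOK ξ0 zB zT c Q) :
    ContinuousOn (fun z : ℝ => Complex.sqrt (WW ξ0 c Q z)) (Ioo zB zT) := by
  refine ContinuousOn.csqrt ?_ fun z hz => slit h hz
  unfold WW
  fun_prop

lemma cont_b (hc : Continuous ξ0) {c Q : ℂ} (h : MidOK ξ0 zB zT c Q) :
    ContinuousOn (fun z : ℝ => ((z : ℂ) - c) / Complex.sqrt (WW ξ0 c Q z)) (Ioo zB zT) :=
  ContinuousOn.div (by fun_prop) (cont_sqrt hc h) fun _ hz => ne h hz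

lemma cont_e (hc : Continuous ξ0) {c Q : ℂ} (h : MidOK ξ0 zB zT c Q) :
    ContinuousOn (fun z : ℝ => ((z : ℂ) - c) ^ 2 / Complex.sqrt (WW ξ0 c Q z)) (Ioo zB zT) :=
  ContinuousOn.div (by fun_prop) (cont_sqrt hc h) fun _ hz => ne h hz

lemma hasDerivAt_WW {c Q : ℂ → ℂ} {w : ℂ} (hc : DifferentiableAt ℂ c w)
    (hQ : DifferentiableAt ℂ Q w) (z : ℝ) :
    HasDerivAt (fun w => WW ξ0 (c w) (Q w) z)
      (2 * Q w * deriv c w * ((z : ℂ) - c w) - deriv Q w * ((z : ℂ) - c w) ^ 2) w := by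
  have h := ((hQ.hasDerivAt.mul ((hc.hasDerivAt.const_sub (z : ℂ)).pow 2)).const_sub
    ((ξ0 z : ℝ) : ℂ))
  refine hasDerivAt_of_eq h (fun _ => rfl) ?_
  simp only [Pi.pow_apply]
  push_cast
  ring

end Mid

open Mid in
theorem an_mid : StmtMid := by
  intro ξ0 zB zT hc h1 hlt h2 hξ
  have hG := ii_GG hlt
  refine ⟨⟨max (∫ _ in zB..zT, (4 : ℝ)) (∫ z in zB..zT, 3 * GG zB zT z), fun c Q h => ⟨?_, ?_⟩⟩,
    fun c Q h => ⟨?_, ?_⟩, fun P c Q hP hcd hQd h => ⟨?_, fun w hw => ?_⟩⟩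
  · exact (norm_int_le hlt.le intervalIntegrable_const
      fun z hz => sqrt_le h1 h2 hξ h hz).trans (le_max_left _ _)
  · exact (norm_int_le hlt.le (hG.const_mul 3)
      fun z hz => b_le h1 h2 h hz).trans (le_max_right _ _)
  · unfold amid
    rw [← intervalIntegral.integral_ofReal]
    refine int_congr_Ioo hlt.le fun z hz => ?_
    have hW : WW ξ0 c Q z = ((ξ0 z - Q * (z - c) ^ 2 : ℝ) : ℂ) := by unfold WW; push_cast; ring
    have hp := h.pos z (Ioo_subset_Icc_self hz)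
    rw [hW, Complex.ofReal_re] at hp
    rw [hW, sqrt_ofReal hp.le]
    push_cast; ring
  · unfold bmid
    rw [← intervalIntegral.integral_ofReal]
    refine int_congr_Ioo hlt.le fun z hz => ?_
    have hW : WW ξ0 c Q z = ((ξ0 z - Q * (z - c) ^ 2 : ℝ) : ℂ) := by unfold WW; push_cast; ring
    have hp := h.pos z (Ioo_subset_Icc_self hz)
    rw [hW, Complex.ofReal_re] at hp
    rw [hW, sqrt_ofReal hp.le]
    push_cast; ring
  · refine hol_int (F := fun w z => ((z : ℂ) - c w) / Complex.sqrt (WW ξ0 (c w) (Q w) z))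
      hlt.le hP (hG.const_mul 3) (fun w hw => cont_b hc (h w hw)) (fun z hz => ?_)
      fun w hw z hz => b_le h1 h2 (h w hw) hz
    refine DifferentiableOn.div (hcd.const_sub _) (DifferentiableOn.csqrt ?_
      fun w hw => slit (h w hw) hz) fun w hw => ne (h w hw) hz
    intro w hw
    exact (hasDerivAt_WW (hcd.differentiableAt (hP.mem_nhds hw))
      (hQd.differentiableAt (hP.mem_nhds hw)) z).differentiableAt.differentiableWithinAt
  · have hd : ∀ w ∈ P, ∀ z ∈ Ioo zB zT,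
        HasDerivAt (fun w => 2 * Complex.sqrt (WW ξ0 (c w) (Q w) z))
          (deriv c w * (2 * Q w) * (((z : ℂ) - c w) / Complex.sqrt (WW ξ0 (c w) (Q w) z)) -
            deriv Q w * (((z : ℂ) - c w) ^ 2 / Complex.sqrt (WW ξ0 (c w) (Q w) z))) w := by
      intro w hw z hz
      have h3 := (HasDerivAt.csqrt (hasDerivAt_WW (ξ0 := ξ0)
        (hcd.differentiableAt (hP.mem_nhds hw))
        (hQd.differentiableAt (hP.mem_nhds hw)) z) (slit (h w hw) hz)).const_mul 2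
      refine hasDerivAt_of_eq h3 (fun _ => rfl) ?_
      have := ne (h w hw) hz
      field_simp
    have key := (hol_int_deriv (F := fun w z => 2 * Complex.sqrt (WW ξ0 (c w) (Q w) z))
      hlt.le hP (g := fun _ => 4) intervalIntegrable_const
      (fun w hw => continuousOn_const.mul (cont_sqrt hc (h w hw)))
      (fun z hz w hw => (hd w hw z hz).differentiableAt.differentiableWithinAt)
      (fun w hw z hz => sqrt_le h1 h2 hξ (h w hw) hz) hw).2
    refine hasDerivAt_of_eq key (fun _ => rfl) ?_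
    have ib := ii_of_bound hlt.le (hG.const_mul 3) (cont_b hc (h w hw))
      fun z hz => b_le h1 h2 (h w hw) hz
    have ie := ii_of_bound hlt.le (hG.const_mul (3 ^ 2)) (cont_e hc (h w hw))
      fun z hz => e_le h1 h2 (h w hw) hz
    rw [int_congr_Ioo hlt.le fun z hz => (hd w hw z hz).deriv,
      intervalIntegral.integral_sub (ib.const_mul _) (ie.const_mul _),
      intervalIntegral.integral_const_mul, intervalIntegral.integral_const_mul]
    unfold bmid emid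
    ring

end

end Pool.Agent.Lib.MP_87c84d_gt
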