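import Pool.Agent.Lib.MP_87c84d_gt.CapF

/-!
Planes through two tips: bounds, tip equations, the middle part, holomorphic families.
-/

namespace Pool.Agent.Lib.MP_87c84d_gt

open MeasureTheory Set Metric Filter Topology

noncomputable section

namespace Plane

/-- A small perturbation on a truncated triangle. -/
structure Sm (v : ℂ → ℂ) (s R : ℝ) : Prop where
  s_ge : 1 / 8 ≤ s
  s_le : s ≤ 1 / 4
  hol : DifferentiableOn ℂ v (U s)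
  b0 : ∀ ξ ∈ U s ∩ ball 0 R, ‖v ξ‖ ≤ ‖ξ‖ / 400
  b1 : ∀ ξ ∈ U s ∩ ball 0 R, ‖deriv v ξ‖ ≤ 1 / 400

/-- An admissible plane: perturbation, bottom tip, and slope ratio. -/
structure Pl (v : ℂ → ℂ) (s R : ℝ) (x θ : ℂ) : Prop extends Sm v s R where
  x_mem : x ∈ U s ∩ ball 0 R
  θ_le : ‖θ - 1‖ ≤ 1 / 100
  φ_mem : ph x θ ∈ U s ∩ ball 0 R

/-- A holomorphic family of admissible planes. -/
structure Fam (P : Set ℂ) (W : ℂ → ℂ → ℂ) (v u lam x θ : ℂ → ℂ) (s R : ℝ) : Prop where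
  isOpen : IsOpen P
  W_eq : ∀ w ξ, W w ξ = v ξ + lam w * u ξ
  v_hol : DifferentiableOn ℂ v (U s)
  u_hol : DifferentiableOn ℂ u (U s)
  lam_hol : DifferentiableOn ℂ lam P
  x_hol : DifferentiableOn ℂ x P
  θ_hol : DifferentiableOn ℂ θ P
  pl : ∀ w ∈ P, Pl (W w) s R (x w) (θ w)

variable {D : Data} {R0 s R : ℝ} {v : ℂ → ℂ} {x θ ξ : ℂ}

lemma U_ball (hD : D.An0 R0) (hs : 0 ≤ s) (hs' : s ≤ 1 / 4) (hξ : ξ ∈ U s) :
    ξ ∈ ball (0 : ℂ) R0 := by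
  rw [mem_ball_zero_iff]
  linarith [U.norm_lt hs hs' hξ, hD.R_ge]

lemma dom (hD : D.An0 R0) (hs : 0 ≤ s) (hs' : s ≤ 1 / 4) (R : ℝ) : Dom D.m (U s ∩ ball 0 R) where
  isOpen := (isOpen_U s).inter isOpen_ball
  convex := (convex_U s).inter (convex_ball _ _)
  star := fun ξ hξ r hr => ⟨U.star hs hξ.1 hr, by
    have h := mem_ball_zero_iff.mp hξ.2
    rw [mem_ball_zero_iff, norm_mul, Complex.norm_real, Real.norm_of_nonneg hr.1.le]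
    nlinarith [norm_nonneg ξ, hr.2]⟩
  small := fun ξ hξ => by
    nlinarith [U.norm_lt hs hs' hξ.1, hD.m_pos, hD.m_le, norm_nonneg ξ]
  m_pos := hD.m_pos
  m_le := by linarith [hD.m_le]

lemma Sm.s0 (h : Sm v s R) : 0 ≤ s := by linarith [h.s_ge]

lemma Sm.b0' (h : Sm v s R) (hξ : ξ ∈ U s ∩ ball 0 R) : ‖v ξ‖ ≤ 1 / 200 := by
  linarith [h.b0 ξ hξ, U.norm_lt h.s0 h.s_le hξ.1]

lemma Sm.der (h : Sm v s R) (hξ : ξ ∈ U s) : HasDerivAt v (deriv v ξ) ξ :=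
  (h.hol.differentiableAt ((isOpen_U s).mem_nhds hξ)).hasDerivAt

lemma τT_der (hD : D.An0 R0) (hξ : ξ ∈ ball (0 : ℂ) R0) : HasDerivAt D.τT (deriv D.τT ξ) ξ :=
  (hD.τT_hol.differentiableAt (isOpen_ball.mem_nhds hξ)).hasDerivAt

lemma τB_der (hD : D.An0 R0) (hξ : ξ ∈ ball (0 : ℂ) R0) : HasDerivAt D.τB (deriv D.τB ξ) ξ :=
  (hD.τB_hol.differentiableAt (isOpen_ball.mem_nhds hξ)).hasDerivAt

lemma Sm.dT (h : Sm v s R) (hD : D.An0 R0) (hξ : ξ ∈ U s) :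
    deriv (D.capT v).τ ξ = deriv D.τT ξ + deriv v ξ :=
  ((τT_der hD (U_ball hD h.s0 h.s_le hξ)).add (h.der hξ)).deriv

lemma Sm.dB (h : Sm v s R) (hD : D.An0 R0) (hξ : ξ ∈ U s) :
    deriv (D.capB v).τ ξ = deriv D.τB ξ - deriv v ξ :=
  ((τB_der hD (U_ball hD h.s0 h.s_le hξ)).sub (h.der hξ)).deriv

lemma Sm.okT (h : Sm v s R) (hD : D.An0 R0) : (D.capT v).OK (U s ∩ ball 0 R) where
  dom := dom hD h.s0 h.s_le R
  hol := (hD.τT_hol.mono fun _ hξ => U_ball hD h.s0 h.s_le hξ.1).add (h.hol.mono inter_subset_left)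
  τ0 := fun ξ hξ => by
    have h1 := hD.τT0 ξ (U_ball hD h.s0 h.s_le hξ.1)
    have h2 := norm_add_le (D.τT ξ - 1) (v ξ)
    have e : (D.capT v).τ ξ - 1 = D.τT ξ - 1 + v ξ := by simp only [Data.capT]; ring
    rw [e]
    linarith [h.b0' hξ]
  τ1 := fun ξ hξ => by
    rw [h.dT hD hξ.1]
    linarith [norm_add_le (deriv D.τT ξ) (deriv v ξ), hD.τT1 ξ (U_ball hD h.s0 h.s_le hξ.1),
      h.b1 ξ hξ]
  h1 := hD.hT1

lemma Sm.okB (h : Sm v s R) (hD : D.An0 R0) : (D.capB v).OK (U s ∩ ball 0 R) where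
  dom := dom hD h.s0 h.s_le R
  hol := (hD.τB_hol.mono fun _ hξ => U_ball hD h.s0 h.s_le hξ.1).sub (h.hol.mono inter_subset_left)
  τ0 := fun ξ hξ => by
    have h1 := hD.τB0 ξ (U_ball hD h.s0 h.s_le hξ.1)
    have h2 := norm_sub_le (D.τB ξ - 1) (v ξ)
    have e : (D.capB v).τ ξ - 1 = D.τB ξ - 1 - v ξ := by simp only [Data.capB]; ring
    rw [e]
    linarith [h.b0' hξ]
  τ1 := fun ξ hξ => by
    rw [h.dB hD hξ.1]
    linarith [norm_sub_le (deriv D.τB ξ) (deriv v ξ), hD.τB1 ξ (U_ball hD h.s0 h.s_le hξ.1),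
      h.b1 ξ hξ]
  h1 := hD.hB1

lemma Sm.lim (h : Sm v s R) (hD : D.An0 R0) (hξ : ξ ∈ U s ∩ ball 0 R) :
    Tendsto (fun r : ℝ => v (r * ξ)) (𝓝[>] 0) (𝓝 0) := by
  rw [tendsto_zero_iff_norm_tendsto_zero]
  refine squeeze_zero' (Eventually.of_forall fun _ => norm_nonneg _)
    (g := fun r : ℝ => ‖(r : ℂ) * ξ‖ / 400) ?_ ?_
  · filter_upwards [Ioo_mem_nhdsGT zero_lt_one] with r hr
    exact h.b0 _ ((dom hD h.s0 h.s_le R).ray_mem hξ hr)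
  · have : Continuous fun r : ℝ => ‖(r : ℂ) * ξ‖ / 400 := by fun_prop
    simpa using (this.tendsto 0).mono_left nhdsWithin_le_nhds

lemma lim_ray {f : ℂ → ℂ} (hf : ContinuousAt f 0) (ξ : ℂ) :
    Tendsto (fun r : ℝ => f (r * ξ)) (𝓝[>] 0) (𝓝 (f 0)) := by
  have h1 : Continuous fun r : ℝ => (r : ℂ) * ξ := by fun_prop
  have h2 : Tendsto (fun r : ℝ => (r : ℂ) * ξ) (𝓝[>] 0) (𝓝 0) := by
    simpa using (h1.tendsto 0).mono_left nhdsWithin_le_nhds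
  exact hf.tendsto.comp h2

lemma zero_mem (hD : D.An0 R0) : (0 : ℂ) ∈ ball (0 : ℂ) R0 :=
  mem_ball_self (by linarith [hD.R_ge])

lemma real_near (hD : D.An0 R0) {z h : ℝ} {τ : ℂ} (hh : |h - 1| ≤ 1 / 100) (hτ : ‖τ - 1‖ ≤ 1 / 200)
    (e : (z : ℂ) = h - D.m * Complex.sqrt τ) : |z - 1| ≤ 1 / 10 := by
  have h1 : ‖Complex.sqrt τ‖ ≤ 1 + 1 / 200 :=
    norm_le_of_norm_sub_one ((norm_sqrt_sub_one _).trans hτ)
  have h2 : ‖(D.m : ℂ) * Complex.sqrt τ‖ ≤ 1 / 200 * (1 + 1 / 200) := by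
    rw [norm_mul, Complex.norm_real, Real.norm_of_nonneg hD.m_pos.le]
    gcongr
    exact hD.m_le
  have h3 : ((z - 1 : ℝ) : ℂ) = ((h - 1 : ℝ) : ℂ) - D.m * Complex.sqrt τ := by
    push_cast; rw [e]; ring
  have h4 := norm_sub_le ((h - 1 : ℝ) : ℂ) (D.m * Complex.sqrt τ)
  rw [← h3, Complex.norm_real, Complex.norm_real, Real.norm_eq_abs, Real.norm_eq_abs] at h4
  linarith

lemma z_facts (hD : D.An0 R0) : -2 ≤ D.zB ∧ D.zB < D.zT ∧ D.zT ≤ 2 := by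
  have h1 := real_near hD hD.hT1 (hD.τT0 0 (zero_mem hD)) hD.zT_eq
  have h2 := real_near hD (z := -D.zB) hD.hB1 (hD.τB0 0 (zero_mem hD))
    (by push_cast; rw [hD.zB_eq]; ring)
  rw [abs_le] at h1 h2
  refine ⟨by linarith [h2.2], by linarith [h1.1, h2.1], by linarith [h1.2]⟩

/-- Positivity of the chord function at a junction. -/
lemma junction_pos {K : Cap} {V : Set ℂ} {c Q φ τ0 : ℂ} (hK : K.OK V) (hP : K.Pl V c Q φ)
    (ht : K.mm φ = Q * K.ze c φ ^ 2) (h0 : ‖τ0 - 1‖ ≤ 1 / 100) (hr : τ0.im = 0)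
    (hl : Tendsto (fun r : ℝ => K.τ (r * φ)) (𝓝[>] 0) (𝓝 τ0)) (hφ : 0 < φ.re)
    (hφ' : ‖φ‖ ≤ 104 / 100 * φ.re) :
    0 < (K.m * τ0 - Q * (K.h - K.m * Complex.sqrt τ0 - c) ^ 2).re := by
  have hj := hK.junction hP ht h0 hl
  have hm := hK.dom.m_pos
  have hτ : 0 < τ0.re := by linarith [re_ge_of_norm_sub_one h0]
  have hs : Complex.sqrt τ0 ≠ 0 := sqrt_ne_zero (by rintro rfl; simp at hτ)
  set J := (K.m : ℂ) - Q * ((K.h - c) / Complex.sqrt τ0 - K.m) ^ 2 with hJ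
  have e : K.m * τ0 - Q * (K.h - K.m * Complex.sqrt τ0 - c) ^ 2 = τ0 * J := by
    have := sq_sqrt τ0
    rw [hJ]
    nth_rewrite 1 [← this]
    nth_rewrite 3 [← this]
    field_simp
    ring
  have h1 := Complex.abs_re_le_norm (J - K.m * φ)
  have h2 := neg_abs_le (J - K.m * φ).re
  have h3 : (J - K.m * φ).re = J.re - K.m * φ.re := by simp
  have h4 : 0 < J.re := by nlinarith [mul_pos hm hφ]
  rw [e, Complex.mul_re, hr, zero_mul, sub_zero]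
  exact mul_pos hτ h4

namespace Pl

lemma θsg (h : Pl v s R x θ) (hD : D.An0 R0) :
    ‖θ * (D.capT v).sg (ph x θ) - 1‖ ≤ 201 / 10000 := by
  have h1 := (h.okT hD).sg_sub h.φ_mem
  have e : θ * (D.capT v).sg (ph x θ) - 1 =
      (θ - 1) * ((D.capT v).sg (ph x θ) - 1) + (θ - 1) + ((D.capT v).sg (ph x θ) - 1) := by ring
  have h2 : ‖(θ - 1) * ((D.capT v).sg (ph x θ) - 1)‖ ≤ 1 / 100 * (1 / 100) := by
    rw [norm_mul]; gcongr; exact h.θ_le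
  rw [e]
  linarith [norm_add₃_le (a := (θ - 1) * ((D.capT v).sg (ph x θ) - 1)) (b := θ - 1)
    (c := (D.capT v).sg (ph x θ) - 1), h.θ_le]

lemma den_ge (h : Pl v s R x θ) (hD : D.An0 R0) :
    19699 / 10000 ≤ ‖θ * (D.capT v).sg (ph x θ) + (D.capB v).sg x‖ := by
  have h1 := re_ge_of_norm_sub_one (h.θsg hD)
  have h2 := re_ge_of_norm_sub_one ((h.okB hD).sg_sub h.x_mem)
  have h3 := Complex.re_le_norm (θ * (D.capT v).sg (ph x θ) + (D.capB v).sg x)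
  rw [Complex.add_re] at h3
  linarith

lemma den_ne (h : Pl v s R x θ) (hD : D.An0 R0) :
    θ * (D.capT v).sg (ph x θ) + (D.capB v).sg x ≠ 0 := by
  intro h0
  have := h.den_ge hD
  rw [h0, norm_zero] at this
  linarith

lemma YY_sub (h : Pl v s R x θ) (hD : D.An0 R0) : ‖D.YY v x θ - 1‖ ≤ 6 / 100 := by
  have h0 := h.den_ne hD
  have e : D.YY v x θ - 1 = (((D.capT v).ZZ (ph x θ) - 1) + ((D.capB v).ZZ x - 1) -
      ((θ * (D.capT v).sg (ph x θ) - 1) + ((D.capB v).sg x - 1))) /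
      (θ * (D.capT v).sg (ph x θ) + (D.capB v).sg x) := by
    simp only [Data.YY]; field_simp; ring
  have h1 : ‖((D.capT v).ZZ (ph x θ) - 1) + ((D.capB v).ZZ x - 1) -
      ((θ * (D.capT v).sg (ph x θ) - 1) + ((D.capB v).sg x - 1))‖ ≤ 1101 / 10000 := by
    refine (norm_sub_le _ _).trans ?_
    linarith [norm_add_le ((D.capT v).ZZ (ph x θ) - 1) ((D.capB v).ZZ x - 1),
      norm_add_le (θ * (D.capT v).sg (ph x θ) - 1) ((D.capB v).sg x - 1),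
      (h.okT hD).ZZ_sub h.φ_mem, (h.okB hD).ZZ_sub h.x_mem, h.θsg hD, (h.okB hD).sg_sub h.x_mem]
  rw [e, norm_div]
  refine le_trans (b := 1101 / 10000 / (19699 / 10000)) ?_ (by norm_num)
  gcongr
  exact h.den_ge hD

lemma YY_ne (h : Pl v s R x θ) (hD : D.An0 R0) : D.YY v x θ ≠ 0 := by
  intro h0
  have := norm_ge_of_norm_sub_one (h.YY_sub hD)
  rw [h0, norm_zero] at this
  linarith

lemma cc_le (h : Pl v s R x θ) (hD : D.An0 R0) : ‖D.cc v x θ‖ ≤ 1 / 8 := by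
  set a := θ * (D.capT v).sg (ph x θ) with ha
  have e : D.cc v x θ = ((D.capT v).ZZ (ph x θ) - 1) -
      ((a - 1) * (D.YY v x θ - 1) + (a - 1) + (D.YY v x θ - 1)) := by
    simp only [Data.cc, ha]; ring
  have h1 : ‖a - 1‖ ≤ 201 / 10000 := h.θsg hD
  have h2 : ‖(a - 1) * (D.YY v x θ - 1)‖ ≤ 201 / 10000 * (6 / 100) := by
    rw [norm_mul]; gcongr; exact h.YY_sub hD
  rw [e]
  refine (norm_sub_le _ _).trans ?_
  linarith [norm_add₃_le (a := (a - 1) * (D.YY v x θ - 1)) (b := a - 1) (c := D.YY v x θ - 1),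
    h.YY_sub hD, (h.okT hD).ZZ_sub h.φ_mem]

lemma QQ_le (h : Pl v s R x θ) (hD : D.An0 R0) : ‖D.QQ v x θ‖ ≤ 2 * D.m * ‖1 - x‖ := by
  have h1 := norm_ge_of_norm_sub_one (h.YY_sub hD)
  have hm := hD.m_pos
  rw [Data.QQ, norm_div, norm_mul, norm_pow, Complex.norm_real, Real.norm_of_nonneg hm.le]
  calc _ ≤ D.m * ‖1 - x‖ / (1 - 6 / 100) ^ 2 := by gcongr
    _ ≤ _ := by
      rw [div_le_iff₀ (by norm_num)]
      nlinarith [mul_nonneg hm.le (norm_nonneg (1 - x))]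

lemma QQ_le' (h : Pl v s R x θ) (hD : D.An0 R0) : ‖D.QQ v x θ‖ ≤ 2 * D.m := by
  have h1 := U.norm_one_sub_le h.s0 h.s_le h.x_mem.1
  have hm := hD.m_pos
  nlinarith [h.QQ_le hD]

lemma QQ_mem (h : Pl v s R x θ) (hD : D.An0 R0) : D.QQ v x θ ∈ ball (0 : ℂ) (3 * D.m) := by
  rw [mem_ball_zero_iff]
  linarith [h.QQ_le' hD, hD.m_pos]

lemma plT (h : Pl v s R x θ) (hD : D.An0 R0) :
    (D.capT v).Pl (U s ∩ ball 0 R) (D.cc v x θ) (D.QQ v x θ) (ph x θ) :=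
  ⟨h.cc_le hD, h.QQ_le' hD, h.φ_mem⟩

lemma plB (h : Pl v s R x θ) (hD : D.An0 R0) :
    (D.capB v).Pl (U s ∩ ball 0 R) (-D.cc v x θ) (D.QQ v x θ) x :=
  ⟨by rw [norm_neg]; exact h.cc_le hD, h.QQ_le' hD, h.x_mem⟩

lemma zeT (h : Pl v s R x θ) (hD : D.An0 R0) :
    (D.capT v).ze (D.cc v x θ) (ph x θ) = θ * D.YY v x θ := by
  refine mul_right_cancel₀ ((h.okT hD).sg_ne h.φ_mem) ?_
  rw [(h.okT hD).ze_mul_sg _ h.φ_mem, Data.cc]
  ring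

lemma zeB (h : Pl v s R x θ) (hD : D.An0 R0) :
    (D.capB v).ze (-D.cc v x θ) x = D.YY v x θ := by
  refine mul_right_cancel₀ ((h.okB hD).sg_ne h.x_mem) ?_
  have e : D.YY v x θ * (θ * (D.capT v).sg (ph x θ) + (D.capB v).sg x) =
      (D.capT v).ZZ (ph x θ) + (D.capB v).ZZ x := div_mul_cancel₀ _ (h.den_ne hD)
  rw [(h.okB hD).ze_mul_sg _ h.x_mem, Data.cc]
  linear_combination -e

lemma tipT (h : Pl v s R x θ) (hD : D.An0 R0) :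
    (D.capT v).mm (ph x θ) = D.QQ v x θ * (D.capT v).ze (D.cc v x θ) (ph x θ) ^ 2 := by
  have := h.YY_ne hD
  rw [h.zeT hD]
  simp only [Cap.mm, Data.QQ, Data.capT, ph]
  field_simp
  ring

lemma tipB (h : Pl v s R x θ) (hD : D.An0 R0) :
    (D.capB v).mm x = D.QQ v x θ * (D.capB v).ze (-D.cc v x θ) x ^ 2 := by
  have := h.YY_ne hD
  rw [h.zeB hD]
  simp only [Cap.mm, Data.QQ, Data.capB]
  field_simp

lemma mid (h : Pl v s R x θ) (hD : D.An0 R0) :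
    MidOK D.ξ0 D.zB D.zT (D.cc v x θ) (D.QQ v x θ) := by
  have h0 := zero_mem hD
  refine hD.mid _ _ (h.cc_le hD) (by linarith [h.QQ_le' hD, hD.m_le]) ?_ ?_
  · have := junction_pos (τ0 := D.τT 0) (h.okT hD) (h.plT hD) (h.tipT hD)
      (by linarith [hD.τT0 0 h0]) (hD.τT_real 0 h0 rfl)
      (by simpa [Data.capT] using
        (lim_ray (τT_der hD h0).continuousAt _).add (h.lim hD h.φ_mem))
      (U.re_pos h.s0 h.φ_mem.1) (U.norm_le_re h.s0 h.s_le h.φ_mem.1)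
    rw [WW, hD.ξT, hD.zT_eq]
    exact this
  · have := junction_pos (τ0 := D.τB 0) (h.okB hD) (h.plB hD) (h.tipB hD)
      (by linarith [hD.τB0 0 h0]) (hD.τB_real 0 h0 rfl)
      (by simpa [Data.capB] using
        (lim_ray (τB_der hD h0).continuousAt _).sub (h.lim hD h.x_mem))
      (U.re_pos h.s0 h.x_mem.1) (U.norm_le_re h.s0 h.s_le h.x_mem.1)
    rw [WW, hD.ξB, hD.zB_eq]
    have e : (D.m : ℂ) * D.τB 0 - D.QQ v x θ * (-(D.hB - D.m * Complex.sqrt (D.τB 0)) -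
        D.cc v x θ) ^ 2 = D.m * D.τB 0 - D.QQ v x θ * (D.hB - D.m * Complex.sqrt (D.τB 0) -
        -D.cc v x θ) ^ 2 := by ring
    rw [e]
    exact this

lemma φ_two (h : Pl v s R x θ) : ‖ph x θ‖ ≤ 2 := by linarith [U.norm_lt h.s0 h.s_le h.φ_mem.1]

lemma x_two (h : Pl v s R x θ) : ‖x‖ ≤ 2 := by linarith [U.norm_lt h.s0 h.s_le h.x_mem.1]

lemma kaT_le (h : Pl v s R x θ) (hD : D.An0 R0) (hξ : ξ ∈ U s ∩ ball 0 R) :
    ‖(D.capT v).ka (D.cc v x θ) (D.QQ v x θ) (ph x θ) ξ - 1‖ ≤ ‖1 - x‖ / 4 := by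
  have h1 := (h.okT hD).ka_sub (h.plT hD) hξ
  have h2 : ‖D.QQ v x θ‖ / D.m ≤ 2 * ‖1 - x‖ := by
    rw [div_le_iff₀ hD.m_pos]; linarith [h.QQ_le hD]
  have e : (D.capT v).m = D.m := rfl
  rw [e] at h1
  linarith

lemma kaB_le (h : Pl v s R x θ) (hD : D.An0 R0) (hξ : ξ ∈ U s ∩ ball 0 R) :
    ‖(D.capB v).ka (-D.cc v x θ) (D.QQ v x θ) x ξ - 1‖ ≤ ‖1 - x‖ / 4 := by
  have h1 := (h.okB hD).ka_sub (h.plB hD) hξ
  have h2 : ‖D.QQ v x θ‖ / D.m ≤ 2 * ‖1 - x‖ := by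
    rw [div_le_iff₀ hD.m_pos]; linarith [h.QQ_le hD]
  have e : (D.capB v).m = D.m := rfl
  rw [e] at h1
  linarith

lemma kaB_ge (h : Pl v s R x θ) (hD : D.An0 R0) (hξ : ξ ∈ U s ∩ ball 0 R) :
    3 / 4 ≤ ‖(D.capB v).ka (-D.cc v x θ) (D.QQ v x θ) x ξ‖ := by
  linarith [norm_ge_of_norm_sub_one (h.kaB_le hD hξ), U.norm_one_sub_le h.s0 h.s_le h.x_mem.1]

lemma kaB_ne (h : Pl v s R x θ) (hD : D.An0 R0) (hξ : ξ ∈ U s ∩ ball 0 R) :
    (D.capB v).ka (-D.cc v x θ) (D.QQ v x θ) x ξ ≠ 0 := by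
  intro h0
  have := h.kaB_ge hD hξ
  rw [h0, norm_zero] at this
  linarith

lemma XiG_le (h : Pl v s R x θ) (hD : D.An0 R0) (hφ : ‖ph x θ - x‖ ≤ ‖x‖ / 10) :
    ‖D.XiG v x θ‖ ≤ 5 := by
  have hx := U.norm_pos h.x_mem.1
  have h1 : ‖ph x θ‖ ≤ 11 / 10 * ‖x‖ := by
    have := norm_add_le (ph x θ - x) x
    rw [sub_add_cancel] at this
    linarith
  have h2 : ‖ph x θ / x‖ ≤ 11 / 10 := by rw [norm_div, div_le_iff₀ hx]; exact h1
  have hs : 0 < √‖x‖ := Real.sqrt_pos.mpr hx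
  have h3 : √‖ph x θ‖ ≤ 105 / 100 * √‖x‖ := by
    rw [Real.sqrt_le_iff]
    refine ⟨by positivity, ?_⟩
    rw [mul_pow, Real.sq_sqrt hx.le]
    linarith
  have h4 : ‖ph x θ * Complex.sqrt (ph x θ) / (x * Complex.sqrt x)‖ ≤ 11 / 10 * (105 / 100) := by
    rw [norm_div, norm_mul, norm_mul, norm_sqrt, norm_sqrt, div_le_iff₀ (by positivity)]
    calc _ ≤ (11 / 10 * ‖x‖) * (105 / 100 * √‖x‖) := by gcongr
      _ = _ := by ring
  have h5 : ‖θ‖ ≤ 1 + 1 / 100 := norm_le_of_norm_sub_one h.θ_le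
  rw [Data.XiG, norm_div, norm_mul, norm_mul, norm_mul, norm_pow, norm_pow]
  refine le_trans (b := (11 / 10) ^ 8 * (11 / 10 * (105 / 100)) * (1 + 1 / 100) ^ 2 * (5 / 4) /
    (3 / 4)) ?_ (by norm_num)
  gcongr
  exacts [(h.okT hD).ka_le (h.plT hD) h.φ_mem, h.kaB_ge hD h.x_mem]

/-! Real values. -/

lemma rT (h : Pl v s R x θ) (hD : D.An0 R0) (hv : IsRe v s) :
    ∀ ξ ∈ U s ∩ ball 0 R, Rl ξ → Rl ((D.capT v).τ ξ) := fun ξ hξ hr =>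
  Rl.add (hD.τT_real ξ (U_ball hD h.s0 h.s_le hξ.1) hr) (hv ξ hξ.1 hr)

lemma rB (h : Pl v s R x θ) (hD : D.An0 R0) (hv : IsRe v s) :
    ∀ ξ ∈ U s ∩ ball 0 R, Rl ξ → Rl ((D.capB v).τ ξ) := fun ξ hξ hr =>
  Rl.sub (hD.τB_real ξ (U_ball hD h.s0 h.s_le hξ.1) hr) (hv ξ hξ.1 hr)

lemma rl_φ (hx : Rl x) (hθ : Rl θ) : Rl (ph x θ) := Rl.one.sub ((Rl.one.sub hx).mul (hθ.pow 2))

lemma rl_YY (h : Pl v s R x θ) (hD : D.An0 R0) (hv : IsRe v s) (hx : Rl x) (hθ : Rl θ) :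
    Rl (D.YY v x θ) :=
  (((h.okT hD).rl_ZZ (h.rT hD hv) h.φ_mem (rl_φ hx hθ)).add
    ((h.okB hD).rl_ZZ (h.rB hD hv) h.x_mem hx)).div
    ((hθ.mul ((h.okT hD).rl_sg (h.rT hD hv) h.φ_mem (rl_φ hx hθ))).add
      ((h.okB hD).rl_sg (h.rB hD hv) h.x_mem hx))

lemma rl_cc (h : Pl v s R x θ) (hD : D.An0 R0) (hv : IsRe v s) (hx : Rl x) (hθ : Rl θ) :
    Rl (D.cc v x θ) :=
  ((h.okT hD).rl_ZZ (h.rT hD hv) h.φ_mem (rl_φ hx hθ)).sub
    ((hθ.mul ((h.okT hD).rl_sg (h.rT hD hv) h.φ_mem (rl_φ hx hθ))).mul (h.rl_YY hD hv hx hθ))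

lemma rl_QQ (h : Pl v s R x θ) (hD : D.An0 R0) (hv : IsRe v s) (hx : Rl x) (hθ : Rl θ) :
    Rl (D.QQ v x θ) :=
  ((Rl.ofReal _).mul (Rl.one.sub hx)).div ((h.rl_YY hD hv hx hθ).pow 2)

lemma QQ_sign (h : Pl v s R x θ) (hD : D.An0 R0) (hv : IsRe v s) (hx : Rl x) (hθ : Rl θ) :
    0 ≤ (D.QQ v x θ).re * (1 - x.re) := by
  have e : D.QQ v x θ = ((D.m * (1 - x.re) / (D.YY v x θ).re ^ 2 : ℝ) : ℂ) := by
    push_cast
    rw [← eq_ofReal_re hx, ← eq_ofReal_re (h.rl_YY hD hv hx hθ)]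
    rfl
  rw [e, Complex.ofReal_re]
  have hm := hD.m_pos
  have : D.m * (1 - x.re) / (D.YY v x θ).re ^ 2 * (1 - x.re) =
      D.m * (1 - x.re) ^ 2 / (D.YY v x θ).re ^ 2 := by ring
  rw [this]
  positivity

lemma rl_mid (h1 : StmtMid) (h : Pl v s R x θ) (hD : D.An0 R0) (hv : IsRe v s) (hx : Rl x)
    (hθ : Rl θ) : Rl (amid D.ξ0 D.zB D.zT (D.cc v x θ) (D.QQ v x θ)) ∧
      Rl (bmid D.ξ0 D.zB D.zT (D.cc v x θ) (D.QQ v x θ)) := by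
  obtain ⟨z1, z2, z3⟩ := z_facts hD
  have hm := h.mid hD
  rw [eq_ofReal_re (h.rl_cc hD hv hx hθ), eq_ofReal_re (h.rl_QQ hD hv hx hθ)] at hm ⊢
  obtain ⟨a, b⟩ := (h1 D.ξ0 D.zB D.zT hD.cont z1 z2 z3 hD.ξ0_le).2.1 _ _ hm
  rw [a, b]
  exact ⟨Rl.ofReal _, Rl.ofReal _⟩

lemma rl_aa (h1 : StmtMid) (h : Pl v s R x θ) (hD : D.An0 R0) (hv : IsRe v s) (hx : Rl x)
    (hθ : Rl θ) : Rl (D.aa v x θ) :=
  (((h.okT hD).rl_acap (h.rT hD hv) (h.plT hD) (h.rl_cc hD hv hx hθ) (h.rl_QQ hD hv hx hθ)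
    (rl_φ hx hθ) (U.re_pos h.s0 h.φ_mem.1).le).add
    ((h.okB hD).rl_acap (h.rB hD hv) (h.plB hD) (h.rl_cc hD hv hx hθ).neg (h.rl_QQ hD hv hx hθ)
      hx (U.re_pos h.s0 h.x_mem.1).le)).add (h.rl_mid h1 hD hv hx hθ).1

lemma rl_bb (h1 : StmtMid) (h : Pl v s R x θ) (hD : D.An0 R0) (hv : IsRe v s) (hx : Rl x)
    (hθ : Rl θ) : Rl (D.bb v x θ) :=
  (((h.okT hD).rl_bcap (h.rT hD hv) (h.plT hD) (h.rl_cc hD hv hx hθ) (h.rl_QQ hD hv hx hθ)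
    (rl_φ hx hθ) (U.re_pos h.s0 h.φ_mem.1).le).sub
    ((h.okB hD).rl_bcap (h.rB hD hv) (h.plB hD) (h.rl_cc hD hv hx hθ).neg (h.rl_QQ hD hv hx hθ)
      hx (U.re_pos h.s0 h.x_mem.1).le)).add (h.rl_mid h1 hD hv hx hθ).2

end Pl

/-- Uniform bounds for the area and its critical equation. -/
lemma bounds (h1 : StmtMid) (hD : D.An0 R0) : ∃ C : ℝ, 0 < C ∧ ∀ v s R x θ, Pl v s R x θ →
    ‖D.aa v x θ‖ ≤ C ∧ ‖D.bb v x θ‖ ≤ C := by
  obtain ⟨z1, z2, z3⟩ := z_facts hD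
  obtain ⟨C, hC⟩ := (h1 D.ξ0 D.zB D.zT hD.cont z1 z2 z3 hD.ξ0_le).1
  have hs : 0 < 1 / √D.m := by have := Real.sqrt_pos.mpr hD.m_pos; positivity
  refine ⟨2 + 2 * (1 / √D.m) + |C|, by positivity, fun v s R x θ h => ?_⟩
  obtain ⟨a, b⟩ := hC _ _ (h.mid hD)
  have hC' := le_abs_self C
  constructor
  · refine norm_add₃_le.trans ?_
    linarith [(h.okT hD).acap_le (h.plT hD) h.φ_two, (h.okB hD).acap_le (h.plB hD) h.x_two]
  · refine (norm_add_le _ _).trans ?_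
    have b1 : ‖(D.capT v).bcap (D.cc v x θ) (D.QQ v x θ) (ph x θ)‖ ≤ 1 / √D.m :=
      (h.okT hD).bcap_le (h.plT hD) h.φ_two
    have b2 : ‖(D.capB v).bcap (-D.cc v x θ) (D.QQ v x θ) x‖ ≤ 1 / √D.m :=
      (h.okB hD).bcap_le (h.plB hD) h.x_two
    linarith [norm_sub_le ((D.capT v).bcap (D.cc v x θ) (D.QQ v x θ) (ph x θ))
      ((D.capB v).bcap (-D.cc v x θ) (D.QQ v x θ) x)]

/-- At the pole the area does not depend on the perturbation. -/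
lemma Pl.pole (h : Pl v s R 1 θ) (hD : D.An0 R0) : D.QQ v 1 θ = 0 ∧
    D.aa v 1 θ = ((√D.m : ℝ) : ℂ) * (1 * Complex.sqrt 1) * (∫ r in (0 : ℝ)..1,
      ((√(1 - r) : ℝ) : ℂ) * (D.m * (D.τT (r * 1) + D.τB (r * 1)) -
        D.m * (1 - r * 1) * (deriv D.τT (r * 1) + deriv D.τB (r * 1)))) +
      amid D.ξ0 D.zB D.zT 0 0 := by
  have hQ : D.QQ v 1 θ = 0 := by simp [Data.QQ]
  have hφ : ph 1 θ = 1 := by simp [ph]
  refine ⟨hQ, ?_⟩
  have iT := (h.okT hD).a_ii (h.plT hD)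
  have iB := (h.okB hD).a_ii (h.plB hD)
  have e1 : (D.capT v).m = D.m := rfl
  have e2 : (D.capB v).m = D.m := rfl
  have e3 : amid D.ξ0 D.zB D.zT (D.cc v 1 θ) 0 = amid D.ξ0 D.zB D.zT 0 0 := by simp [amid, WW]
  rw [hQ, hφ] at iT
  rw [hQ] at iB
  rw [Data.aa, hQ, hφ, e3, Cap.acap, Cap.acap, e1, e2, ← mul_add,
    ← intervalIntegral.integral_add iT iB]
  congr 2
  refine int_congr_Ioo zero_le_one fun r hr => ?_
  have hm := (dom hD h.s0 h.s_le R).ray_mem h.x_mem hr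
  simp only [Cap.ga, zero_div, zero_mul, add_zero, Cap.NN, Cap.mm, h.dT hD hm.1, h.dB hD hm.1, e1,
    e2]
  have : Complex.sqrt 1 = 1 := by simp
  rw [this]
  simp only [Data.capT, Data.capB]
  ring

namespace Fam

variable {P : Set ℂ} {W : ℂ → ℂ → ℂ} {v u lam x θ y : ℂ → ℂ}

lemma famT (h : Fam P W v u lam x θ s R) (hD : D.An0 R0) (hs : 0 ≤ s) (hs' : s ≤ 1 / 4) :
    FamK P (U s ∩ ball 0 R) (fun w => D.capT (W w)) D.m D.hT (fun ξ => D.τT ξ + v ξ) u lam :=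
  ⟨h.isOpen, fun w hw => (h.pl w hw).okT hD, fun _ => rfl, fun _ => rfl,
    fun w ξ => by simp only [Data.capT, h.W_eq]; ring,
    (hD.τT_hol.mono fun _ hξ => U_ball hD hs hs' hξ.1).add (h.v_hol.mono inter_subset_left),
    h.u_hol.mono inter_subset_left, h.lam_hol⟩

lemma famB (h : Fam P W v u lam x θ s R) (hD : D.An0 R0) (hs : 0 ≤ s) (hs' : s ≤ 1 / 4) :
    FamK P (U s ∩ ball 0 R) (fun w => D.capB (W w)) D.m D.hB (fun ξ => D.τB ξ - v ξ)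
      (fun ξ => -u ξ) lam :=
  ⟨h.isOpen, fun w hw => (h.pl w hw).okB hD, fun _ => rfl, fun _ => rfl,
    fun w ξ => by simp only [Data.capB, h.W_eq]; ring,
    (hD.τB_hol.mono fun _ hξ => U_ball hD hs hs' hξ.1).sub (h.v_hol.mono inter_subset_left),
    (h.u_hol.mono inter_subset_left).neg, h.lam_hol⟩

lemma φ_hol (h : Fam P W v u lam x θ s R) : DifferentiableOn ℂ (fun w => ph (x w) (θ w)) P :=
  (differentiableOn_const 1).sub (((differentiableOn_const 1).sub h.x_hol).mul (h.θ_hol.pow 2))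

lemma YY_hol (h : Fam P W v u lam x θ s R) (hD : D.An0 R0) :
    DifferentiableOn ℂ (fun w => D.YY (W w) (x w) (θ w)) P := fun w hw => by
  have fT := h.famT hD (h.pl w hw).s0 (h.pl w hw).s_le
  have fB := h.famB hD (h.pl w hw).s0 (h.pl w hw).s_le
  exact (((fT.ZZ_hol h.φ_hol fun w hw => (h.pl w hw).φ_mem).add
    (fB.ZZ_hol h.x_hol fun w hw => (h.pl w hw).x_mem)).div
    ((h.θ_hol.mul (fT.sg_hol h.φ_hol fun w hw => (h.pl w hw).φ_mem)).add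
      (fB.sg_hol h.x_hol fun w hw => (h.pl w hw).x_mem))
    fun w hw => (h.pl w hw).den_ne hD) w hw

lemma cc_hol (h : Fam P W v u lam x θ s R) (hD : D.An0 R0) :
    DifferentiableOn ℂ (fun w => D.cc (W w) (x w) (θ w)) P := fun w hw => by
  have fT := h.famT hD (h.pl w hw).s0 (h.pl w hw).s_le
  exact ((fT.ZZ_hol h.φ_hol fun w hw => (h.pl w hw).φ_mem).sub
    ((h.θ_hol.mul (fT.sg_hol h.φ_hol fun w hw => (h.pl w hw).φ_mem)).mul (h.YY_hol hD))) w hw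

lemma QQ_hol (h : Fam P W v u lam x θ s R) (hD : D.An0 R0) :
    DifferentiableOn ℂ (fun w => D.QQ (W w) (x w) (θ w)) P :=
  (((differentiableOn_const 1).sub h.x_hol).const_mul _).div ((h.YY_hol hD).pow 2)
    fun w hw => pow_ne_zero 2 ((h.pl w hw).YY_ne hD)

lemma kaT_hol (h : Fam P W v u lam x θ s R) (hD : D.An0 R0) (hy : DifferentiableOn ℂ y P)
    (hm : ∀ w ∈ P, y w ∈ U s ∩ ball 0 R) : DifferentiableOn ℂ (fun w => (D.capT (W w)).ka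
      (D.cc (W w) (x w) (θ w)) (D.QQ (W w) (x w) (θ w)) (ph (x w) (θ w)) (y w)) P := fun w hw =>
  (h.famT hD (h.pl w hw).s0 (h.pl w hw).s_le).ka_hol (h.cc_hol hD) (h.QQ_hol hD) h.φ_hol
    (fun w hw => (h.pl w hw).plT hD) hy hm w hw

lemma kaB_hol (h : Fam P W v u lam x θ s R) (hD : D.An0 R0) (hy : DifferentiableOn ℂ y P)
    (hm : ∀ w ∈ P, y w ∈ U s ∩ ball 0 R) : DifferentiableOn ℂ (fun w => (D.capB (W w)).ka
      (-D.cc (W w) (x w) (θ w)) (D.QQ (W w) (x w) (θ w)) (x w) (y w)) P := fun w hw =>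
  (h.famB hD (h.pl w hw).s0 (h.pl w hw).s_le).ka_hol (h.cc_hol hD).neg (h.QQ_hol hD) h.x_hol
    (fun w hw => (h.pl w hw).plB hD) hy hm w hw

lemma φ_re (h : Fam P W v u lam x θ s R) : ∀ w ∈ P, 0 < (ph (x w) (θ w)).re := fun w hw =>
  U.re_pos (h.pl w hw).s0 (h.pl w hw).φ_mem.1

lemma x_re (h : Fam P W v u lam x θ s R) : ∀ w ∈ P, 0 < (x w).re := fun w hw =>
  U.re_pos (h.pl w hw).s0 (h.pl w hw).x_mem.1

lemma XiG_hol (h : Fam P W v u lam x θ s R) (hD : D.An0 R0) :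
    DifferentiableOn ℂ (fun w => D.XiG (W w) (x w) (θ w)) P := by
  have hx : ∀ w ∈ P, x w ≠ 0 := fun w hw => U.ne_zero (h.pl w hw).x_mem.1
  exact (((((h.φ_hol.div h.x_hol hx).pow 8).mul
    ((h.φ_hol.mul (DifferentiableOn.csqrt h.φ_hol fun w hw => slit_of_re_pos (h.φ_re w hw))).div
      (h.x_hol.mul (DifferentiableOn.csqrt h.x_hol fun w hw => slit_of_re_pos (h.x_re w hw)))
      fun w hw => mul_ne_zero (hx w hw) (sqrt_ne_zero (hx w hw)))).mul (h.θ_hol.pow 2)).mul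
    (h.kaT_hol hD h.φ_hol fun w hw => (h.pl w hw).φ_mem)).div
    (h.kaB_hol hD h.x_hol fun w hw => (h.pl w hw).x_mem)
    fun w hw => (h.pl w hw).kaB_ne hD (h.pl w hw).x_mem

lemma mid_hol (h1 : StmtMid) (h : Fam P W v u lam x θ s R) (hD : D.An0 R0) :
    DifferentiableOn ℂ
      (fun w => bmid D.ξ0 D.zB D.zT (D.cc (W w) (x w) (θ w)) (D.QQ (W w) (x w) (θ w))) P ∧
    ∀ w ∈ P, HasDerivAt
      (fun w => amid D.ξ0 D.zB D.zT (D.cc (W w) (x w) (θ w)) (D.QQ (W w) (x w) (θ w)))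
      (deriv (fun w => D.cc (W w) (x w) (θ w)) w * (2 * D.QQ (W w) (x w) (θ w) *
        bmid D.ξ0 D.zB D.zT (D.cc (W w) (x w) (θ w)) (D.QQ (W w) (x w) (θ w))) +
        deriv (fun w => D.QQ (W w) (x w) (θ w)) w *
          emid D.ξ0 D.zB D.zT (D.cc (W w) (x w) (θ w)) (D.QQ (W w) (x w) (θ w))) w := by
  obtain ⟨z1, z2, z3⟩ := z_facts hD
  exact (h1 D.ξ0 D.zB D.zT hD.cont z1 z2 z3 hD.ξ0_le).2.2 P _ _ h.isOpen (h.cc_hol hD)
    (h.QQ_hol hD) fun w hw => (h.pl w hw).mid hD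

lemma bb_hol (h1 : StmtMid) (h : Fam P W v u lam x θ s R) (hD : D.An0 R0) :
    DifferentiableOn ℂ (fun w => D.bb (W w) (x w) (θ w)) P := fun w hw => by
  have fT := h.famT hD (h.pl w hw).s0 (h.pl w hw).s_le
  have fB := h.famB hD (h.pl w hw).s0 (h.pl w hw).s_le
  exact (((fT.bcap_hol (h.cc_hol hD) (h.QQ_hol hD) h.φ_hol (fun w hw => (h.pl w hw).plT hD)
    h.φ_re).sub (fB.bcap_hol (h.cc_hol hD).neg (h.QQ_hol hD) h.x_hol
      (fun w hw => (h.pl w hw).plB hD) h.x_re)).add (h.mid_hol h1 hD).1) w hw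

lemma aT_hol (h : Fam P W v u lam x θ s R) (hD : D.An0 R0) :
    DifferentiableOn ℂ (fun w => (D.capT (W w)).acap
      (D.cc (W w) (x w) (θ w)) (D.QQ (W w) (x w) (θ w)) (ph (x w) (θ w))) P := fun w hw =>
  (h.famT hD (h.pl w hw).s0 (h.pl w hw).s_le).acap_hol (h.cc_hol hD) (h.QQ_hol hD) h.φ_hol
    (fun w hw => (h.pl w hw).plT hD) h.φ_re w hw

lemma aB_hol (h : Fam P W v u lam x θ s R) (hD : D.An0 R0) :
    DifferentiableOn ℂ (fun w => (D.capB (W w)).acap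
      (-D.cc (W w) (x w) (θ w)) (D.QQ (W w) (x w) (θ w)) (x w)) P := fun w hw =>
  (h.famB hD (h.pl w hw).s0 (h.pl w hw).s_le).acap_hol (h.cc_hol hD).neg (h.QQ_hol hD) h.x_hol
    (fun w hw => (h.pl w hw).plB hD) h.x_re w hw

lemma aa_hol (h1 : StmtMid) (h : Fam P W v u lam x θ s R) (hD : D.An0 R0) :
    DifferentiableOn ℂ (fun w => D.aa (W w) (x w) (θ w)) P :=
  ((h.aT_hol hD).add (h.aB_hol hD)).add fun w hw =>
    ((h.mid_hol h1 hD).2 w hw).differentiableAt.differentiableWithinAt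

lemma lcap_neg (K : Cap) (c Q φ : ℂ) (u : ℂ → ℂ) :
    K.lcap c Q φ (fun ξ => -u ξ) = -K.lcap c Q φ u := by
  simp only [Cap.lcap, neg_mul, mul_neg, intervalIntegral.integral_neg]

/-- The derivative of the area along a family. -/
lemma aa_der (h1 : StmtMid) (h2 : StmtCapDer) (h : Fam P W v u lam x θ s R) (hD : D.An0 R0)
    {A : ℝ} (hA : ∀ ξ ∈ U s, ‖u ξ‖ ≤ A * ‖ξ‖) {w : ℂ} (hw : w ∈ P) :
    HasDerivAt (fun w => D.aa (W w) (x w) (θ w))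
      (deriv lam w * (((D.m * √D.m / 2 : ℝ) : ℂ) *
        ((D.capB (W w)).lcap (-D.cc (W w) (x w) (θ w)) (D.QQ (W w) (x w) (θ w)) (x w) u -
          (D.capT (W w)).lcap (D.cc (W w) (x w) (θ w)) (D.QQ (W w) (x w) (θ w))
            (ph (x w) (θ w)) u)) +
      deriv (fun w => D.cc (W w) (x w) (θ w)) w *
        (2 * D.QQ (W w) (x w) (θ w) * D.bb (W w) (x w) (θ w)) +
      deriv (fun w => D.QQ (W w) (x w) (θ w)) w * D.ee (W w) (x w) (θ w)) w := by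
  have fT := h.famT hD (h.pl w hw).s0 (h.pl w hw).s_le
  have fB := h.famB hD (h.pl w hw).s0 (h.pl w hw).s_le
  have hn := h.isOpen.mem_nhds hw
  have dT := h2 P _ _ _ _ A _ _ _ _ _ _ fT (h.cc_hol hD) (h.QQ_hol hD) h.φ_hol
    (fun w hw => (h.pl w hw).plT hD) h.φ_re (fun w hw => (h.pl w hw).tipT hD)
    (fun ξ hξ => hA ξ hξ.1) w hw
  have dB := h2 P _ _ _ _ A _ _ _ (fun w => -D.cc (W w) (x w) (θ w)) _ _ fB (h.cc_hol hD).neg
    (h.QQ_hol hD) h.x_hol (fun w hw => (h.pl w hw).plB hD) h.x_re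
    (fun w hw => (h.pl w hw).tipB hD) (fun ξ hξ => by rw [norm_neg]; exact hA ξ hξ.1) w hw
  have eN : deriv (fun w => -D.cc (W w) (x w) (θ w)) w =
      -deriv (fun w => D.cc (W w) (x w) (θ w)) w := deriv.neg
  have aT := ((h.aT_hol hD).differentiableAt hn).hasDerivAt
  have aB := ((h.aB_hol hD).differentiableAt hn).hasDerivAt
  rw [dT] at aT
  rw [dB, eN, lcap_neg] at aB
  refine hasDerivAt_of_eq ((aT.add aB).add ((h.mid_hol h1 hD).2 w hw)) (fun _ => rfl) ?_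
  simp only [Data.bb, Data.ee]
  ring

end Fam

end Plane

end

end Pool.Agent.Lib.MP_87c84d_gt
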