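import Pool.Agent.Lib.MP_87c84d_gt.CapF

/-!
The invariant at the base, and the solution of the linearised equation.
-/

namespace Pool.Agent.Lib.MP_87c84d_gt

open MeasureTheory Set Metric Filter Topology

namespace Solve

lemma mem3 {s : ℝ} {x : ℂ} (hs : 0 ≤ s) (hs' : s ≤ 1 / 4) (hx : x ∈ U s) :
    x ∈ U s ∩ ball (0 : ℂ) 3 :=
  ⟨hx, mem_ball_zero_iff.mpr (by linarith [U.norm_lt hs hs' hx])⟩

lemma state_of_bd {v : ℂ → ℂ} {s θ ω : ℝ} {x : ℂ} (hs : 1 / 8 ≤ s) (hs' : s ≤ 1 / 4)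
    (hv : DifferentiableOn ℂ v (U s)) (h0 : ∀ ξ ∈ U s, ‖v ξ‖ ≤ θ * ‖ξ‖ ^ 8)
    (h1 : ∀ ξ ∈ U s, ‖deriv v ξ‖ ≤ θ * ‖ξ‖ ^ 7) (hθ : 0 ≤ θ) (hω : 4 * θ ≤ ω) (hx : x ∈ U s) :
    State v s 3 ω x := by
  have key : ∀ ξ ∈ U s, θ * ‖ξ‖ ^ 5 ≤ ω := fun ξ hξ => by
    have a1 := pow_le_pow_left₀ (norm_nonneg ξ) (U.norm_lt (by linarith) hs' hξ).le 5
    nlinarith
  refine ⟨hs, hs', hx, by linarith [U.norm_lt (by linarith) hs' hx], hv, fun ξ hξ _ => ?_,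
    fun ξ hξ _ => ?_⟩
  · exact (h0 ξ hξ).trans ((by ring : θ * ‖ξ‖ ^ 8 = θ * ‖ξ‖ ^ 5 * ‖ξ‖ ^ 3).trans_le
      (mul_le_mul_of_nonneg_right (key ξ hξ) (by positivity)))
  · exact (h1 ξ hξ).trans ((by ring : θ * ‖ξ‖ ^ 7 = θ * ‖ξ‖ ^ 5 * ‖ξ‖ ^ 2).trans_le
      (mul_le_mul_of_nonneg_right (key ξ hξ) (by positivity)))

lemma dom_ball {m R : ℝ} (hm : 0 < m) (hm' : m ≤ 1 / 200) (hR : m * R ≤ 1 / 100) :
    Dom m (ball (0 : ℂ) R) := by
  refine ⟨isOpen_ball, convex_ball _ _, fun ξ hξ r hr => ?_, fun ξ hξ => ?_, hm, by linarith⟩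
  · rw [mem_ball_zero_iff] at hξ ⊢
    rw [norm_mul, Complex.norm_real, Real.norm_of_nonneg hr.1.le]
    exact (mul_le_of_le_one_left (norm_nonneg _) hr.2).trans_lt hξ
  · rw [mem_ball_zero_iff] at hξ
    exact (mul_le_mul_of_nonneg_left hξ.le hm.le).trans hR

lemma gauge {K : Cap} {R e t B : ℝ} {c Q φ : ℂ} (hK : K.OK (ball 0 R))
    (hP : K.Pl (ball 0 R) c Q φ) (hφ : ‖φ‖ < 13 / 10) (hR : 4 ≤ R)
    (he : ∀ y ∈ ball (0 : ℂ) R, ‖K.ze1 c y‖ ≤ e) (hB : 0 ≤ B) (hQ : ‖Q‖ ≤ 2 * K.m * B)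
    (het : e ≤ t * R / 1000000) {r : ℝ} (hr : r ∈ Ioc (0 : ℝ) 1) :
    ‖(r : ℂ) * deriv (fun z => K.ka c Q φ (z * φ)) r‖ ≤ (t / 500 + 0) * B ∧
      ‖(r : ℂ) ^ 2 * deriv (deriv fun z => K.ka c Q φ (z * φ)) r‖ ≤ (t / 500 + 0) * B := by
  have hr1 : ‖(r : ℂ)‖ ≤ 1 := by rw [Complex.norm_real, Real.norm_of_nonneg hr.1.le]; exact hr.2
  have he0 : 0 ≤ e := (norm_nonneg _).trans (he φ hP.mem)
  have ht : 0 ≤ t := by
    by_contra h
    nlinarith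
  have hm : ∀ z ∈ ball (r : ℂ) (R / 2), z * φ ∈ ball (0 : ℂ) R := fun z hz => by
    rw [mem_ball, dist_eq_norm] at hz
    have a1 := norm_add_le (z - r) r
    rw [sub_add_cancel] at a1
    rw [mem_ball_zero_iff, norm_mul]
    nlinarith [norm_nonneg z, norm_nonneg φ]
  have hd : DifferentiableOn ℂ (fun z => K.ka c Q φ (z * φ) - 1 / (1 + Q * K.ze c φ))
      (ball (r : ℂ) (R / 2)) :=
    ((hK.ka_hol hP).comp (by fun_prop) hm).sub_const _
  have hb : ∀ z ∈ ball (r : ℂ) (R / 2),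
      ‖K.ka c Q φ (z * φ) - 1 / (1 + Q * K.ze c φ)‖ ≤ 10 * B * e := fun z hz => by
    refine (hK.ka_sub' hP he (hm z hz)).trans (mul_le_mul_of_nonneg_right ?_ he0)
    have := (div_le_iff₀ hK.dom.m_pos).mpr (hQ.trans_eq (by ring : _ = 2 * B * K.m))
    linarith
  have e1 : deriv (fun z => K.ka c Q φ (z * φ) - 1 / (1 + Q * K.ze c φ))
      = deriv fun z => K.ka c Q φ (z * φ) := funext fun z => deriv_sub_const _
  have h1 := cauchy1 (by linarith) hd hb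
  have h2 := cauchy2 (by linarith) hd hb
  rw [e1] at h1 h2
  have a1 := mul_le_mul_of_nonneg_left het hB
  have a2 : 0 ≤ B * t * R := by positivity
  constructor
  · rw [norm_mul]
    refine (mul_le_of_le_one_left (norm_nonneg _) hr1).trans (h1.trans ?_)
    rw [div_le_iff₀ (by linarith)]
    linarith
  · rw [norm_mul, norm_pow]
    refine (mul_le_of_le_one_left (norm_nonneg _) (pow_le_one₀ (norm_nonneg _) hr1)).trans
      (h2.trans ?_)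
    rw [div_le_iff₀ (by positivity)]
    nlinarith [mul_le_mul_of_nonneg_left hR a2]

variable {s A : ℝ} {K : Cap} {c Q φ : ℂ} {f g : ℂ → ℂ}

lemma norm_ray_le {r : ℝ} (hr : r ∈ Ioo (0 : ℝ) 1) {a b : ℂ} {M : ℝ} (ha : ‖a‖ ≤ M)
    (hb : ‖b‖ ≤ 5 / 4) : ‖((√(1 - r) : ℝ) : ℂ) * (a * b)‖ ≤ M * (5 / 4) := by
  rw [norm_mul, norm_mul]
  exact (mul_le_of_le_one_left (by positivity) (Cap.OK.norm_sqrt_one_sub hr)).trans
    (mul_le_mul ha hb (norm_nonneg _) ((norm_nonneg _).trans ha))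

lemma EE_le (h : StmtAbel) (hs : 0 < s) (hs' : s ≤ 1 / 4) (hf : DifferentiableOn ℂ f (U s))
    (hb : ∀ y ∈ U s, ‖f y‖ ≤ A * ‖y‖ ^ 8) {s' : ℝ} (h0 : 0 ≤ s') (h1 : s' < s) {y : ℂ}
    (hy : y ∈ U s') : ‖EE f y‖ ≤ |300 * A / (s - s') ^ 2| * (13 / 10) ^ 8 :=
  ((h f s A hs hs' hf hb).2.2.2.1 s' h0 h1 y hy).trans (mul_le_mul (le_abs_self _)
    (pow_le_pow_left₀ (norm_nonneg _) (U.norm_lt h0 (by linarith) hy).le 8) (by positivity)
    (abs_nonneg _))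

lemma lc_cont (hK : K.OK (U s ∩ ball 0 3)) (hP : K.Pl (U s ∩ ball 0 3) c Q φ) {u : ℂ → ℂ}
    (hu : DifferentiableOn ℂ u (U s)) : ContinuousOn
      (fun r : ℝ => ((√(1 - r) : ℝ) : ℂ) * (u (r * φ) * K.ka c Q φ (r * φ))) (Ioo 0 1) :=
  cont_sqrt_one_sub.continuousOn.mul ((hK.dom.ray_cont (hu.mono inter_subset_left) hP.mem).mul
    (hK.dom.ray_cont (hK.ka_hol hP) hP.mem))

lemma lc_ii (h : StmtAbel) (hs : 0 < s) (hs' : s ≤ 1 / 4) (hK : K.OK (U s ∩ ball 0 3))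
    (hP : K.Pl (U s ∩ ball 0 3) c Q φ) (hf : DifferentiableOn ℂ f (U s))
    (hb : ∀ y ∈ U s, ‖f y‖ ≤ A * ‖y‖ ^ 8) : IntervalIntegrable
      (fun r : ℝ => ((√(1 - r) : ℝ) : ℂ) * (EE f (r * φ) * K.ka c Q φ (r * φ))) volume 0 1 := by
  obtain ⟨s', h0, h1, h2⟩ := U.exists_lt le_rfl hs hP.mem.1
  exact ii_of_bound_const (lc_cont hK hP (h f s A hs hs' hf hb).1) fun r hr =>
    norm_ray_le hr (EE_le h hs hs' hf hb h0 h1 (U.star h0 h2 (Ioo_subset_Ioc_self hr)))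
      (hK.ka_le hP (hK.dom.ray_mem hP.mem hr))

lemma lcap_add (h : StmtAbel) (hs : 0 < s) (hs' : s ≤ 1 / 4) (hK : K.OK (U s ∩ ball 0 3))
    (hP : K.Pl (U s ∩ ball 0 3) c Q φ) (hf : DifferentiableOn ℂ f (U s))
    (hb : ∀ y ∈ U s, ‖f y‖ ≤ A * ‖y‖ ^ 8) {B : ℝ} (hg : DifferentiableOn ℂ g (U s))
    (hb' : ∀ y ∈ U s, ‖g y‖ ≤ B * ‖y‖ ^ 8) :
    K.lcap c Q φ (EE (f + g)) = K.lcap c Q φ (EE f) + K.lcap c Q φ (EE g) := by
  rw [Cap.lcap, Cap.lcap, Cap.lcap, ← mul_add, ← intervalIntegral.integral_add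
    (lc_ii h hs hs' hK hP hf hb) (lc_ii h hs hs' hK hP hg hb')]
  refine congrArg _ (int_congr_Ioo zero_le_one fun r hr => ?_)
  rw [(h f s A hs hs' hf hb).2.2.2.2.1 g B hg hb' _ (hK.dom.ray_mem hP.mem hr).1]
  ring

lemma lcap_real (hs : 0 ≤ s) (hK : K.OK (U s ∩ ball 0 3)) (hP : K.Pl (U s ∩ ball 0 3) c Q φ)
    {u : ℂ → ℂ} (hu : IsRe u s) (hφ : Rl φ)
    (hk : ∀ ξ ∈ U s ∩ ball 0 3, ξ.im = 0 → (K.ka c Q φ ξ).im = 0) : Rl (K.lcap c Q φ u) :=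
  (hφ.mul (hφ.sqrt (U.re_pos hs hP.mem.1).le)).mul (Rl.int fun r hr =>
    (Rl.ofReal _).mul (Rl.mul (hu _ (hK.dom.ray_mem hP.mem hr).1 ((Rl.ofReal r).mul hφ))
      (hk _ (hK.dom.ray_mem hP.mem hr) ((Rl.ofReal r).mul hφ))))

lemma lcap_est (h : StmtAbel) (hs : 0 < s) (hs' : s ≤ 1 / 4) (hK : K.OK (U s ∩ ball 0 3))
    (hP : K.Pl (U s ∩ ball 0 3) c Q φ) (hf : DifferentiableOn ℂ f (U s))
    (hb : ∀ y ∈ U s, ‖f y‖ ≤ A * ‖y‖ ^ 8) {Θ : ℝ}
    (h1 : ∀ r ∈ Ioc (0 : ℝ) 1, ‖(r : ℂ) * deriv (fun z => K.ka c Q φ (z * φ)) r‖ ≤ Θ)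
    (h2 : ∀ r ∈ Ioc (0 : ℝ) 1, ‖(r : ℂ) ^ 2 * deriv (deriv fun z => K.ka c Q φ (z * φ)) r‖ ≤ Θ) :
    ∃ E : ℂ, K.lcap c Q φ (EE f) = φ * Complex.sqrt φ * (K.ka c Q φ φ * f φ + E) ∧
      ‖E‖ ≤ 6 * Θ * A * ‖φ‖ ^ 8 := by
  have := (h f s A hs hs' hf hb).2.2.2.2.2 φ hP.mem.1 (fun z => K.ka c Q φ (z * φ)) Θ
    (fun r hr => ((hK.ka_hol hP).analyticAt (hK.dom.isOpen.mem_nhds
      (hK.dom.star φ hP.mem r hr))).fun_comp_of_eq (by fun_prop) rfl) h1 h2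
  refine ⟨_, ?_, this⟩
  rw [Cap.lcap, one_mul, add_sub_cancel]

lemma lcap_hol (h : StmtAbel) (hs : 0 < s) (hs' : s ≤ 1 / 4) {c Q φ : ℂ → ℂ}
    (hK : K.OK (U s ∩ ball 0 3)) (hP : ∀ x ∈ U s, K.Pl (U s ∩ ball 0 3) (c x) (Q x) (φ x))
    (hφ : DifferentiableOn ℂ φ (U s)) {s0 : ℝ} (h0 : 0 ≤ s0) (h1 : s0 < s)
    (hinv : ∀ s', s0 ≤ s' → s' < s → ∀ x ∈ U s', φ x ∈ U s')
    (hk : ∀ y : ℂ → ℂ, DifferentiableOn ℂ y (U s) → (∀ x ∈ U s, y x ∈ U s ∩ ball 0 3) →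
      DifferentiableOn ℂ (fun x => K.ka (c x) (Q x) (φ x) (y x)) (U s))
    (hf : DifferentiableOn ℂ f (U s)) (hb : ∀ y ∈ U s, ‖f y‖ ≤ A * ‖y‖ ^ 8) :
    DifferentiableOn ℂ (fun x => K.lcap (c x) (Q x) (φ x) (EE f)) (U s) := by
  refine (hφ.mul (DifferentiableOn.csqrt hφ fun x hx => U.slit hs.le (hP x hx).mem.1)).mul
    fun x hx => ?_
  obtain ⟨s', a0, a1, a2⟩ := U.exists_lt h0 h1 hx
  have a3 : U s' ⊆ U s := U.mono (h0.trans a0) a1.le
  have hE := (h f s A hs hs' hf hb).1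
  refine ((hol_int zero_le_one (isOpen_U s') intervalIntegrable_const
    (fun w hw => lc_cont hK (hP w (a3 hw)) hE) (fun r hr => ?_) fun w hw r hr =>
      norm_ray_le hr (EE_le h hs hs' hf hb (h0.trans a0) a1
        (U.star (h0.trans a0) (hinv s' a0 a1 w hw) (Ioo_subset_Ioc_self hr)))
        (hK.ka_le (hP w (a3 hw)) (hK.dom.ray_mem (hP w (a3 hw)).mem hr))).differentiableAt
    ((isOpen_U s').mem_nhds a2)).differentiableWithinAt
  have b1 : ∀ w ∈ U s, (r : ℂ) * φ w ∈ U s ∩ ball 0 3 := fun w hw =>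
    hK.dom.ray_mem (hP w hw).mem hr
  exact (((hE.comp (hφ.const_mul _) fun w hw => (b1 w hw).1).mul
    (hk _ (hφ.const_mul _) b1)).const_mul _).mono a3

lemma cls_bd (hs : 0 ≤ s) (hs' : s ≤ 1 / 4) (hf : Cls (U s) (fun x => ‖x‖ ^ 8 * ‖1 - x‖) f A) :
    ∀ y ∈ U s, ‖f y‖ ≤ |A| * ‖y‖ ^ 8 := fun y hy =>
  (hf.bd y hy).trans (mul_le_mul (le_abs_self A)
    (mul_le_of_le_one_right (by positivity) (U.norm_one_sub_le hs hs' hy)) (by positivity)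
    (abs_nonneg A))

end Solve

open Solve

theorem an_good0 : StmtGood0 := by
  intro D R e ω C hA hM
  have St : ∀ x ∈ U (1 / 4), D.StFacts 0 (1 / 4) 3 C x := fun x hx =>
    hM.st _ _ _ _ (state_of_bd (θ := 0) (by norm_num) le_rfl (differentiableOn_const 0)
      (by simp) (by simp) le_rfl (by linarith [hM.ω_pos]) hx)
  have hdom := dom_ball hA.m_pos hA.m_le hA.R_le
  have hR := hA.R_ge
  have eT : (D.capT 0).τ = D.τT := by funext ξ; simp [Data.capT]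
  have eB : (D.capB 0).τ = D.τB := by funext ξ; simp [Data.capB]
  have hT : (D.capT 0).OK (ball 0 R) :=
    ⟨hdom, eT ▸ hA.τT_hol, fun ξ hξ => by rw [eT]; linarith [hA.τT0 ξ hξ],
      fun ξ hξ => by rw [eT]; linarith [hA.τT1 ξ hξ], hA.hT1⟩
  have hB : (D.capB 0).OK (ball 0 R) :=
    ⟨hdom, eB ▸ hA.τB_hol, fun ξ hξ => by rw [eB]; linarith [hA.τB0 ξ hξ],
      fun ξ hξ => by rw [eB]; linarith [hA.τB1 ξ hξ], hA.hB1⟩
  have hc : ∀ x ∈ U (1 / 4), D.c 0 x = D.cc 0 x (D.th0 x) := fun x hx => by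
    rw [Data.c, hM.th_zero x hx]
  have gT : ∀ x ∈ U (1 / 4), ∀ r ∈ Ioc (0 : ℝ) 1, _ := fun x hx r hr =>
    gauge hT ⟨(St x hx).plT.c_le, (St x hx).plT.Q_le,
      ball_subset_ball (by linarith) (St x hx).plT.mem.2⟩
      (U.norm_lt (by norm_num) le_rfl (St x hx).plT.mem.1) hR
      (by rw [hc x hx]; exact hA.zeT x hx) (norm_nonneg _) (St x hx).Q_le hA.e_le hr
  have gB : ∀ x ∈ U (1 / 4), ∀ r ∈ Ioc (0 : ℝ) 1, _ := fun x hx r hr =>
    gauge hB ⟨(St x hx).plB.c_le, (St x hx).plB.Q_le,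
      ball_subset_ball (by linarith) (St x hx).plB.mem.2⟩
      (U.norm_lt (by norm_num) le_rfl hx) hR
      (by rw [hc x hx]; exact hA.zeB x hx) (norm_nonneg _) (St x hx).Q_le hA.e_le hr
  refine ⟨differentiableOn_const 0, rfl, fun _ _ _ => rfl, by simp, by simp,
    fun x hx r hr => (gT x hx r hr).1, fun x hx r hr => (gT x hx r hr).2,
    fun x hx r hr => (gB x hx r hr).1, fun x hx r hr => (gB x hx r hr).2, fun x hx => ?_,
    fun x hx => ?_⟩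
  · have : D.Q 0 =ᶠ[𝓝 x] fun x => D.QQ 0 x (D.th0 x) :=
      mem_of_superset ((isOpen_U _).mem_nhds hx) fun y hy => by
        change D.QQ 0 y (D.th 0 y) = _
        rw [hM.th_zero y hy]
    rw [this.deriv_eq, sub_zero]
    exact hA.Q0 x hx
  · rw [Data.FF, Data.Q, hM.th_zero x hx, hA.aa0 x hx, sub_self, norm_zero, zero_mul]

namespace Solve

variable {D : Data} {R e ω C s θ ε : ℝ} {v : ℂ → ℂ}

lemma xi_le (hA : D.An R e) (hM : D.Machine ω C) (hs : 1 / 8 ≤ s) (hs' : s ≤ 1 / 4)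
    (hG : D.Good v s θ ε) (hθ : 0 ≤ θ) (hθ1 : θ ≤ ω * D.t / 160) {x : ℂ} (hx : x ∈ U s) :
    ‖D.Xi v x‖ ≤ 1 - D.t / 4 := by
  have ht := hA.t_pos
  have ht1 := hA.t_le
  have hst : ∀ w ∈ ball (0 : ℂ) (40 / D.t), State (fun ξ => (0 : ℂ → ℂ) ξ + id w * v ξ) s 3 ω x :=
    fun w hw => by
      rw [mem_ball_zero_iff, lt_div_iff₀ ht] at hw
      simp only [Pi.zero_apply, zero_add, id]
      refine state_of_bd (θ := ‖w‖ * θ) hs hs' (hG.hol.const_mul w) (fun ξ hξ => ?_)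
        (fun ξ hξ => ?_) (by positivity) ?_ hx
      · rw [norm_mul, mul_assoc]
        exact mul_le_mul_of_nonneg_left (hG.b0 ξ hξ) (norm_nonneg _)
      · rw [deriv_const_mul_field, norm_mul, mul_assoc]
        exact mul_le_mul_of_nonneg_left (hG.b1 ξ hξ) (norm_nonneg _)
      · nlinarith [mul_le_mul_of_nonneg_left hθ1 (norm_nonneg w),
          mul_le_mul_of_nonneg_left hw.le hM.ω_pos.le]
  have hF := hM.fam _ 0 v id (fun _ => x) s 3 ⟨isOpen_ball, differentiableOn_const 0, hG.hol,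
    differentiableOn_id, differentiableOn_const x, hst⟩
  have h1 := schwarz1 hF.Xi_hol (fun w hw => (hM.st _ _ _ _ (hst w hw)).Xi_le) (z := 1)
    (by rw [mem_ball_zero_iff, norm_one, lt_div_iff₀ ht]; linarith)
  have hx' := U.mono (by linarith) hs' hx
  have h2 := hA.con x hx'
  rw [← hM.th_zero x hx'] at h2
  simp only [Pi.zero_apply, id, one_mul, zero_mul, zero_add, sub_zero, norm_one, mul_one] at h1
  have h3 := norm_sub_norm_le (D.Xi v x) (D.Xi 0 x)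
  have e : 2 * 5 / (40 / D.t) = D.t / 4 := by field_simp; norm_num
  rw [e] at h1
  change ‖D.Xi v x - D.Xi 0 x‖ ≤ _ at h1
  change ‖D.Xi 0 x‖ ≤ _ at h2
  linarith

lemma contr {x φ th kT kB fφ ET EB : ℂ} {t A Θ N : ℝ} (hx : x ≠ 0) (hφ : ‖φ - x‖ ≤ ‖x‖ / 10)
    (hk : ‖kB - 1‖ ≤ 1 / 4) (hA : 0 ≤ A) (hN : 0 ≤ N) (hΘ0 : 0 ≤ Θ) (hΘ : Θ ≤ t / 250 * N)
    (hXi : ‖(φ / x) ^ 8 * (φ * Complex.sqrt φ / (x * Complex.sqrt x)) * th ^ 2 * kT / kB‖
      ≤ 1 - t / 4) (hf : ‖fφ‖ ≤ A * (‖φ‖ ^ 8 * (N * ‖th‖ ^ 2)))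
    (hT : ‖ET‖ ≤ 6 * Θ * A * ‖φ‖ ^ 8) (hB : ‖EB‖ ≤ 6 * Θ * A * ‖x‖ ^ 8) :
    ‖(φ * Complex.sqrt φ / (x * Complex.sqrt x) * (kT * fφ + ET) - EB) / kB‖
      ≤ (1 - t / 8) * A * (‖x‖ ^ 8 * N) := by
  have h0 := norm_pos_iff.mpr hx
  have h1 : ‖φ‖ ≤ 11 / 10 * ‖x‖ := by linarith [norm_sub_norm_le φ x]
  have h2 := norm_ge_of_norm_sub_one hk
  have h3 : ‖φ‖ ^ 8 ≤ 215 / 100 * ‖x‖ ^ 8 := by
    refine (pow_le_pow_left₀ (norm_nonneg _) h1 8).trans ?_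
    rw [mul_pow]
    exact mul_le_mul_of_nonneg_right (by norm_num) (by positivity)
  set ρ := φ * Complex.sqrt φ / (x * Complex.sqrt x) with hρ
  have h4 : ‖ρ‖ ≤ 6 / 5 := by
    have a1 : √‖φ‖ ≤ 12 / 11 * √‖x‖ := by
      rw [Real.sqrt_le_left (by positivity), mul_pow, Real.sq_sqrt h0.le]
      linarith
    rw [hρ, norm_div, norm_mul, norm_mul, norm_sqrt, norm_sqrt, div_le_iff₀ (by positivity)]
    exact (mul_le_mul h1 a1 (by positivity) (by positivity)).trans_eq (by ring)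
  have h5 : ‖ρ * (kT * fφ) / kB‖ ≤ (1 - t / 4) * (A * (‖x‖ ^ 8 * N)) := by
    refine le_trans ?_ (mul_le_mul_of_nonneg_right hXi (by positivity))
    simp only [norm_div, norm_mul, norm_pow]
    calc _ ≤ ‖ρ‖ * (‖kT‖ * (A * (‖φ‖ ^ 8 * (N * ‖th‖ ^ 2)))) / ‖kB‖ := by gcongr
      _ = _ := by field_simp
  have h6 : ‖(ρ * ET - EB) / kB‖ ≤ t / 8 * (A * (‖x‖ ^ 8 * N)) := by
    have a0 : 0 ≤ 6 * Θ * A := by positivity
    have a1 := hT.trans (mul_le_mul_of_nonneg_left h3 a0)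
    have a2 := mul_le_mul h4 a1 (norm_nonneg _) (by norm_num)
    have a3 := norm_sub_le (ρ * ET) EB
    have a4 := mul_le_mul_of_nonneg_right hΘ (show 0 ≤ A * ‖x‖ ^ 8 by positivity)
    have a5 : 0 ≤ Θ * (A * ‖x‖ ^ 8) := by positivity
    have a6 := mul_le_mul_of_nonneg_left h2 (show 0 ≤ t / 8 * (A * (‖x‖ ^ 8 * N)) by linarith)
    rw [norm_mul] at a3
    rw [norm_div, div_le_iff₀ (by linarith)]
    linarith
  have e : (ρ * (kT * fφ + ET) - EB) / kB = ρ * (kT * fφ) / kB + (ρ * ET - EB) / kB := by ring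
  rw [e]
  exact (norm_add_le _ _).trans (by linarith)

lemma pole_factor {d : ℂ → ℂ} {B : ℝ} (hs : 1 / 8 ≤ s) (hs' : s ≤ 1 / 4) (hB : 0 ≤ B)
    (hd : DifferentiableOn ℂ d (U s)) (h1 : d 1 = 0) (hb : ∀ x ∈ U s, ‖d x‖ ≤ B * ‖x‖ ^ 8)
    {x : ℂ} (hx : x ∈ U s) : ‖d x‖ ≤ 32 * B * (‖x‖ ^ 8 * ‖1 - x‖) := by
  have h0 : 0 < ‖x‖ ^ 8 := pow_pos (U.norm_pos hx) 8
  by_cases h : x ∈ ball (1 : ℂ) (1 / 16)
  · have hsub : ball (1 : ℂ) (1 / 16) ⊆ U s :=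
      (ball_subset_ball (by linarith)).trans (U.ball_one (by linarith) hs')
    have := schwarz1 (f := fun x => d x / x ^ 8) (M := B) ((hd.mono hsub).div (by fun_prop)
      fun y hy => pow_ne_zero 8 (U.ne_zero (hsub hy))) (fun y hy => by
        rw [norm_div, norm_pow, div_le_iff₀ (pow_pos (U.norm_pos (hsub hy)) 8)]
        exact hb y (hsub hy)) h
    rw [h1, zero_div, sub_zero, norm_div, norm_pow, div_le_iff₀ h0, norm_sub_rev] at this
    exact this.trans_eq (by ring)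
  · rw [mem_ball, dist_eq_norm, norm_sub_rev, not_lt] at h
    nlinarith [hb x hx, mul_le_mul_of_nonneg_left h (mul_nonneg hB h0.le)]

end Solve

theorem an_solve (h : StmtAbel) : StmtSolve := by
  intro D R e ω C hA hM
  have ht := hA.t_pos
  have ht1 := hA.t_le
  have hω := hM.ω_pos
  have hm := hA.m_pos
  set μ := D.m * √D.m / 2 with hμ
  have hμ0 : 0 < μ := by positivity
  refine ⟨min (ω * D.t / 160) (D.t / 500), max 1 (102400 / (μ * D.t)), by positivity,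
    le_max_left _ _, fun v s s' θ ε hs1 hs2 hs' hG hθ hθ' hε => ?_⟩
  have hθ1 := hθ'.trans (min_le_left _ _)
  have hθ2 := hθ'.trans (min_le_right _ _)
  have hs : 1 / 8 ≤ s := by linarith
  have hs0 : 0 < s := by linarith
  have hst : ∀ x ∈ U s, State v s 3 ω x := fun x hx =>
    state_of_bd hs hs' hG.hol hG.b0 hG.b1 hθ (by nlinarith) hx
  have St : ∀ x ∈ U s, D.StFacts v s 3 C x := fun x hx => hM.st _ _ _ _ (hst x hx)
  have hF := hM.fam (U s) v 0 0 id s 3 ⟨isOpen_U s, hG.hol, differentiableOn_const 0,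
    differentiableOn_const 0, differentiableOn_id, by simpa using hst⟩
  have hφ : DifferentiableOn ℂ (D.φ v) (U s) := by simpa using hF.φ_hol
  have hFF : DifferentiableOn ℂ (D.FF v) (U s) := by simpa using hF.F_hol
  have hk : ∀ y : ℂ → ℂ, DifferentiableOn ℂ y (U s) → (∀ x ∈ U s, y x ∈ U s ∩ ball 0 3) →
      DifferentiableOn ℂ (fun x => D.kaT v x (y x)) (U s) ∧
      DifferentiableOn ℂ (fun x => D.kaB v x (y x)) (U s) := by simpa using hF.ka_hol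
  have h1 := U.one_mem hs0
  have hinv : ∀ s'', 1 / 8 ≤ s'' → s'' < s → ∀ x ∈ U s'', D.φ v x ∈ U s'' := fun s'' a1 a2 x hx => by
    have := (hA.inv s'' ⟨a1, by linarith⟩ x hx _
      (St x (U.mono (by linarith) a2.le hx)).th_le).1
    rwa [add_sub_cancel] at this
  have hm3 : ∀ x ∈ U s, x ∈ U s ∩ ball (0 : ℂ) 3 := fun x hx => mem3 hs0.le hs' hx
  have hkB : ∀ x ∈ U s, ‖D.kaB v x x - 1‖ ≤ 1 / 4 := fun x hx => by
    linarith [(St x hx).kaB_le x (hm3 x hx), U.norm_one_sub_le hs0.le hs' hx]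
  set den : ℂ → ℂ := fun x => μ * (x * Complex.sqrt x) * D.kaB v x x with hden
  have hxx : ∀ x ∈ U s, x * Complex.sqrt x ≠ 0 := fun x hx =>
    mul_ne_zero (U.ne_zero hx) (sqrt_ne_zero (U.ne_zero hx))
  have hkB0 : ∀ x ∈ U s, D.kaB v x x ≠ 0 := fun x hx =>
    norm_pos_iff.mp (by linarith [norm_ge_of_norm_sub_one (hkB x hx)])
  have hμc : (μ : ℂ) ≠ 0 := by exact_mod_cast hμ0.ne'
  have hd0 : ∀ x ∈ U s, den x ≠ 0 := fun x hx =>
    mul_ne_zero (mul_ne_zero hμc (hxx x hx)) (hkB0 x hx)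
  have hdh : DifferentiableOn ℂ den (U s) :=
    ((differentiableOn_id.mul (DifferentiableOn.csqrt differentiableOn_id
      fun x hx => U.slit hs0.le hx)).const_mul _).mul (hk id differentiableOn_id hm3).2
  have hdr : ∀ x ∈ U s, x.im = 0 → Rl (den x) := fun x hx hi =>
    ((Rl.ofReal μ).mul (Rl.mul hi (Rl.sqrt hi (U.re_pos hs0.le hx).le))).mul
      (((St x hx).real hG.real hi).2.2.2.2.2 x (hm3 x hx) hi).2
  set B := 4 / 3 * ε / μ with hB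
  have hB0 : 0 ≤ B := by positivity
  have hdhol : DifferentiableOn ℂ (fun x => -D.FF v x / den x) (U s) := hFF.neg.div hdh hd0
  obtain ⟨f, hf, hfe⟩ := neumann (isOpen_U s) (ω := fun x => ‖x‖ ^ 8 * ‖1 - x‖) (W := (13 / 10) ^ 8)
    (fun z hz => ⟨by positivity, (mul_le_of_le_one_right (by positivity)
      (U.norm_one_sub_le hs0.le hs' hz)).trans
      (pow_le_pow_left₀ (norm_nonneg _) (U.norm_lt hs0.le hs' hz).le 8)⟩)
    (S := fun f x => f x - D.LL v (EE f) x / den x) (q := 1 - D.t / 8) (by linarith) (by linarith)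
    (fun f A hA0 hf => by
      have hb := cls_bd hs0.le hs' hf
      rw [abs_of_nonneg hA0] at hb
      refine ⟨hf.hol.sub (DifferentiableOn.div (DifferentiableOn.const_mul (DifferentiableOn.sub
        (lcap_hol h hs0 hs' (St 1 h1).okB (fun x hx => (St x hx).plB) differentiableOn_id
          le_rfl hs0 (fun _ _ _ _ hx => hx) (fun y a1 a2 => (hk y a1 a2).2) hf.hol hb)
        (lcap_hol h hs0 hs' (St 1 h1).okT (fun x hx => (St x hx).plT) hφ (by norm_num)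
          (hs1.trans_lt hs2) hinv (fun y a1 a2 => (hk y a1 a2).1) hf.hol hb)) _) hdh hd0),
        fun x hx hi => ?_, fun x hx => ?_⟩
      · obtain ⟨r1, -, -, -, -, r2⟩ := (St x hx).real hG.real hi
        have r3 := (h f s A hs0 hs' hf.hol hb).2.2.1 hf.real
        exact Rl.sub (hf.real x hx hi) (((Rl.ofReal _).mul
          ((lcap_real hs0.le (St x hx).okB (St x hx).plB r3 hi fun ξ a1 a2 => (r2 ξ a1 a2).2).sub
          (lcap_real hs0.le (St x hx).okT (St x hx).plT r3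
            (Rl.one.sub ((Rl.one.sub hi).mul (Rl.pow r1 2)))
            fun ξ a1 a2 => (r2 ξ a1 a2).1))).div (hdr x hx hi))
      · obtain ⟨EB, b1, b2⟩ := lcap_est h hs0 hs' (St x hx).okB (St x hx).plB hf.hol hb
          (hG.gB1 x hx) (hG.gB2 x hx)
        obtain ⟨ET, t1, t2⟩ := lcap_est h hs0 hs' (St x hx).okT (St x hx).plT hf.hol hb
          (hG.gT1 x hx) (hG.gT2 x hx)
        have a1 := hf.bd _ (St x hx).plT.mem.1
        have a2 : ‖1 - D.φ v x‖ = ‖1 - x‖ * ‖D.th v x‖ ^ 2 := by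
          rw [Data.φ, ph, sub_sub_cancel, norm_mul, norm_pow]
        simp only [a2] at a1
        refine le_of_eq_of_le (congrArg _ ?_) (contr (U.ne_zero hx) (St x hx).φ_le (hkB x hx) hA0
          (norm_nonneg _) (by positivity) (mul_le_mul_of_nonneg_right (by linarith) (norm_nonneg _))
          (xi_le hA hM hs hs' hG hθ hθ1 hx) a1 t2 b2)
        have a3 := U.ne_zero hx
        have a4 := sqrt_ne_zero a3
        have a5 := hkB0 x hx
        rw [Data.LL, b1, t1, hden]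
        change f x - μ * (x * Complex.sqrt x * (D.kaB v x x * f x + EB) - D.φ v x
          * Complex.sqrt (D.φ v x) * (D.kaT v x (D.φ v x) * f (D.φ v x) + ET))
          / (μ * (x * Complex.sqrt x) * D.kaB v x x) = (D.φ v x * Complex.sqrt (D.φ v x)
          / (x * Complex.sqrt x) * (D.kaT v x (D.φ v x) * f (D.φ v x) + ET) - EB) / D.kaB v x x
        field_simp
        ring)
    (fun f g A A' hf hg x hx => by
      have a1 := cls_bd hs0.le hs' hf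
      have a2 := cls_bd hs0.le hs' hg
      simp only [Data.LL, lcap_add h hs0 hs' (St x hx).okB (St x hx).plB hf.hol a1 hg.hol a2,
        lcap_add h hs0 hs' (St x hx).okT (St x hx).plT hf.hol a1 hg.hol a2, Pi.add_apply]
      ring)
    (d := fun x => -D.FF v x / den x) (A := 32 * B) (by positivity)
    ⟨hdhol, fun x hx hi => (Rl.neg ((St x hx).real hG.real hi).2.2.2.2.1).div (hdr x hx hi),
      fun x hx => pole_factor hs hs' hB0 hdhol (by simp [(St 1 h1).pole rfl]) (fun y hy => by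
        have a1 := hG.F y hy
        have a2 := norm_ge_of_norm_sub_one (hkB y hy)
        have a3 : B * μ = 4 / 3 * ε := by rw [hB]; field_simp
        have a4 := mul_le_mul_of_nonneg_left a2
          (show 0 ≤ 4 / 3 * ε * (‖y‖ ^ 8 * ‖y * Complex.sqrt y‖) by positivity)
        rw [norm_div, norm_neg, div_le_iff₀ (norm_pos_iff.mpr (hd0 y hy)), hden, norm_mul,
          norm_mul, Complex.norm_real, Real.norm_of_nonneg hμ0.le]
        rw [wF] at a1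
        calc _ ≤ B * μ * (‖y‖ ^ 8 * ‖y * Complex.sqrt y‖) * ‖D.kaB v y y‖ := by
              rw [a3]; linarith
          _ = _ := by ring) hx⟩
  have hb := cls_bd hs0.le hs' hf
  obtain ⟨e1, e2, e3, e4, -, e6⟩ := h f s _ hs0 hs' hf.hol hb
  refine ⟨EE f, e1, e2, e3 hf.real, fun ξ hξ => (e4 s' (by linarith) hs2 ξ hξ).trans ?_, ?_,
    fun x hx => ?_⟩
  · refine mul_le_mul_of_nonneg_right (div_le_div_of_nonneg_right (le_trans (le_of_eq ?_)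
      (mul_le_mul_of_nonneg_right (le_max_right _ _) hε)) (sq_nonneg _)) (by positivity)
    rw [sub_sub_cancel, abs_of_nonneg (by positivity), hB]
    field_simp
    ring
  · have a1 := e6 1 h1 (fun _ => 1) 0 (fun _ _ => analyticAt_const) (by simp) (by simp)
    have a2 := hf.bd 1 h1
    simp only [sub_self, norm_zero, mul_zero, norm_le_zero_iff] at a2
    simpa [a2, nu] using a1
  · have a1 := hfe x hx
    have a2 := hd0 x hx
    simp only [sub_sub_cancel] at a1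
    rw [div_left_inj' a2] at a1
    rw [a1, add_neg_cancel]

end Pool.Agent.Lib.MP_87c84d_gt
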