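import Pool.Agent.Lib.MP_87c84d_gt.SecArc
import Pool.Agent.Lib.MP_87c84d_gt.Bridge
import Pool.Agent.Lib.MP_87c84d_gt.Mid
import Pool.Agent.Lib.MP_87c84d_gt.Solve

/-!
The real body attached to a solution of the section equation and its maximal sections.
-/

namespace Pool.Agent.Lib.MP_87c84d_gt

open MeasureTheory Set Metric Filter Topology

noncomputable section

namespace Sec

/-! Real caps. -/

section Caps

variable {K L : Cap} {V V' : Set ℂ}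

lemma σ_le (H : Bridge.Hyp K V) {r : ℝ} (hr : r ∈ Icc (0 : ℝ) 1) : K.toR.σ r ≤ 101 / 100 := by
  have h1 := norm_le_of_norm_sub_one (H.sg_sub hr)
  have h2 := Complex.re_le_norm (K.sg r)
  change (K.sg r).re ≤ 101 / 100
  linarith

lemma σ_sq (H : Bridge.Hyp K V) {r : ℝ} (hr : r ∈ Icc (0 : ℝ) 1) :
    K.toR.σ r ^ 2 = (K.τ r).re := by
  have h := (an_bridge K V H.ok H.mem H.real H.cont).2.1 r hr
  rw [← h.2.2, Complex.ofReal_re]

lemma mul_mem {r ξ : ℝ} (hr : r ∈ Icc (0 : ℝ) 1) (hξ : ξ ∈ Icc (0 : ℝ) 1) :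
    r * ξ ∈ Icc (0 : ℝ) 1 := ⟨mul_nonneg hr.1 hξ.1, mul_le_one₀ hr.2 hξ.1 hξ.2⟩

lemma Z_real (H : Bridge.Hyp K V) {ξ : ℝ} (hξ : ξ ∈ Icc (0 : ℝ) 1) :
    K.toR.Z ξ = K.h - K.m * ξ / 2 * (∫ r in (0 : ℝ)..1, K.toR.σ (r * ξ)) -
      K.m * (1 - ξ) * K.toR.σ ξ := by
  apply Complex.ofReal_injective
  rw [H.Z_eq hξ, Cap.ZZ, Cap.hh, Cap.mm, ← H.σ_eq hξ]
  have : ∫ r in (0 : ℝ)..1, K.sg (r * ξ) = ((∫ r in (0 : ℝ)..1, K.toR.σ (r * ξ) : ℝ) : ℂ) := by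
    rw [← intervalIntegral.integral_ofReal]
    refine int_congr_Ioo zero_le_one fun r hr => ?_
    rw [H.σ_eq (mul_mem (Ioo_subset_Icc_self hr) hξ), Complex.ofReal_mul]
  rw [this]
  push_cast
  ring

lemma σ_ii (H : Bridge.Hyp K V) {ξ : ℝ} (hξ : ξ ∈ Icc (0 : ℝ) 1) :
    IntervalIntegrable (fun r => K.toR.σ (r * ξ)) volume 0 1 := by
  refine ContinuousOn.intervalIntegrable ?_
  rw [uIcc_of_le zero_le_one]
  exact H.cσ.comp (by fun_prop) fun r hr => mul_mem hr hξ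

lemma Z_le (H : Bridge.Hyp K V) {ξ : ℝ} (hξ : ξ ∈ Icc (0 : ℝ) 1) : K.toR.Z ξ ≤ 11 / 10 := by
  have hm := H.ok.dom.m_pos
  have h1 : 0 ≤ ∫ r in (0 : ℝ)..1, K.toR.σ (r * ξ) :=
    intervalIntegral.integral_nonneg zero_le_one fun r hr => by
      linarith [H.σ_ge (mul_mem hr hξ)]
  have h2 : 0 ≤ K.m * ξ / 2 * ∫ r in (0 : ℝ)..1, K.toR.σ (r * ξ) :=
    mul_nonneg (div_nonneg (mul_nonneg hm.le hξ.1) zero_le_two) h1
  have h3 : 0 ≤ K.m * (1 - ξ) * K.toR.σ ξ :=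
    mul_nonneg (mul_nonneg hm.le (by linarith [hξ.2])) (by linarith [H.σ_ge hξ])
  rw [Z_real H hξ]
  linarith [(abs_le.mp H.ok.h1).2]

lemma Z_zero (H : Bridge.Hyp K V) : K.toR.Z 0 = K.h - K.m * K.toR.σ 0 := by
  rw [Z_real H GeoMem.zero_mem]
  ring

lemma Z_zero_ge (H : Bridge.Hyp K V) : 95 / 100 ≤ K.toR.Z 0 := by
  have h1 := mul_le_mul H.ok.dom.m_le (σ_le H GeoMem.zero_mem)
    (by linarith [H.σ_ge GeoMem.zero_mem]) (by norm_num)
  rw [Z_zero H]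
  linarith [(abs_le.mp H.ok.h1).1]

lemma T_zero_le (H : Bridge.Hyp K V) : K.toR.T 0 ≤ 102 / 100 * K.m := by
  have h1 := norm_le_of_norm_sub_one (H.τ_sub GeoMem.zero_mem)
  have h2 := Complex.re_le_norm (K.τ (0 : ℝ))
  have h3 := H.ok.dom.m_pos
  have h4 : K.toR.T 0 = K.m * (K.τ (0 : ℝ)).re := by
    rw [RCap.T, σ_sq H GeoMem.zero_mem]
    change K.m * (1 - 0) * _ = _
    ring
  rw [h4]
  nlinarith

lemma σ_close (H : Bridge.Hyp K V) (G : Bridge.Hyp L V') {θ : ℝ}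
    (h : ∀ r ∈ Icc (0 : ℝ) 1, ‖K.τ r - L.τ r‖ ≤ θ) {ξ : ℝ} (hξ : ξ ∈ Icc (0 : ℝ) 1) :
    |K.toR.σ ξ - L.toR.σ ξ| ≤ θ := by
  have h1 : |K.toR.σ ξ ^ 2 - L.toR.σ ξ ^ 2| ≤ θ := by
    rw [σ_sq H hξ, σ_sq G hξ, ← Complex.sub_re]
    exact (Complex.abs_re_le_norm _).trans (h ξ hξ)
  have h2 := H.σ_ge hξ
  have h3 := G.σ_ge hξ
  rw [sq_sub_sq, abs_mul, abs_of_pos (by linarith)] at h1
  nlinarith [abs_nonneg (K.toR.σ ξ - L.toR.σ ξ)]

lemma Z_close (H : Bridge.Hyp K V) (G : Bridge.Hyp L V') (hm : K.m = L.m) (hh : K.h = L.h)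
    {θ : ℝ} (h : ∀ r ∈ Icc (0 : ℝ) 1, ‖K.τ r - L.τ r‖ ≤ θ) {ξ : ℝ} (hξ : ξ ∈ Icc (0 : ℝ) 1) :
    |K.toR.Z ξ - L.toR.Z ξ| ≤ θ := by
  have h0 : 0 ≤ θ := (norm_nonneg _).trans (h ξ hξ)
  have h1 : |(∫ r in (0 : ℝ)..1, K.toR.σ (r * ξ)) - ∫ r in (0 : ℝ)..1, L.toR.σ (r * ξ)| ≤ θ := by
    rw [← intervalIntegral.integral_sub (σ_ii H hξ) (σ_ii G hξ)]
    have := intervalIntegral.norm_integral_le_of_norm_le_const (a := 0) (b := 1) (C := θ)
      (f := fun r => K.toR.σ (r * ξ) - L.toR.σ (r * ξ)) fun r hr => by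
        rw [uIoc_of_le zero_le_one] at hr
        exact σ_close H G h (mul_mem (Ioc_subset_Icc_self hr) hξ)
    simpa using this
  have h2 := σ_close H G h hξ
  have m0 := G.ok.dom.m_pos
  have m1 := G.ok.dom.m_le
  rw [Z_real H hξ, Z_real G hξ, hm, hh]
  set A := (∫ r in (0 : ℝ)..1, K.toR.σ (r * ξ)) - ∫ r in (0 : ℝ)..1, L.toR.σ (r * ξ) with hA
  set B := K.toR.σ ξ - L.toR.σ ξ with hB
  have e : L.h - L.m * ξ / 2 * (∫ r in (0 : ℝ)..1, K.toR.σ (r * ξ)) - L.m * (1 - ξ) * K.toR.σ ξ -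
      (L.h - L.m * ξ / 2 * (∫ r in (0 : ℝ)..1, L.toR.σ (r * ξ)) - L.m * (1 - ξ) * L.toR.σ ξ) =
      -(L.m * ξ / 2 * A + L.m * (1 - ξ) * B) := by
    rw [hA, hB]; ring
  have a1 : 0 ≤ L.m * ξ / 2 := div_nonneg (mul_nonneg m0.le hξ.1) zero_le_two
  have a2 : 0 ≤ L.m * (1 - ξ) := mul_nonneg m0.le (by linarith [hξ.2])
  rw [e, abs_neg]
  refine (abs_add_le _ _).trans ?_
  rw [abs_mul, abs_mul, abs_of_nonneg a1, abs_of_nonneg a2]
  have b1 := mul_le_mul_of_nonneg_left h1 a1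
  have b2 := mul_le_mul_of_nonneg_left h2 a2
  have b3 : L.m * ξ / 2 + L.m * (1 - ξ) ≤ 1 := by nlinarith [hξ.1, hξ.2]
  nlinarith

end Caps

/-- The data produced by the analytic part. -/
structure Setup (D : Data) (R e ω C θ : ℝ) (v : ℂ → ℂ) : Prop where
  an : D.An R e
  ge : D.Ge
  mach : D.Machine ω C
  good : D.Good v (1 / 8) θ 0
  θ0 : 0 ≤ θ
  θω : 4 * θ ≤ ω
  θm : θ ≤ D.m / 2

variable {D : Data} {R e ω C θ : ℝ} {v : ℂ → ℂ}

lemma memU {r : ℝ} (hr : r ∈ Ioc (0 : ℝ) 1) : (r : ℂ) ∈ U (1 / 8) :=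
  U.ofReal_mem (by norm_num) hr

lemma mem3 {r : ℝ} (hr : r ∈ Ioc (0 : ℝ) 1) : (r : ℂ) ∈ U (1 / 8) ∩ ball (0 : ℂ) 3 :=
  Solve.mem3 (by norm_num) (by norm_num) (memU hr)

namespace Setup

lemma state (H : Setup D R e ω C θ v) {x : ℂ} (hx : x ∈ U (1 / 8)) : State v (1 / 8) 3 ω x :=
  Solve.state_of_bd le_rfl (by norm_num) H.good.hol H.good.b0 H.good.b1 H.θ0 H.θω hx

lemma st (H : Setup D R e ω C θ v) {x : ℂ} (hx : x ∈ U (1 / 8)) : D.StFacts v (1 / 8) 3 C x :=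
  H.mach.st _ _ _ _ (H.state hx)

lemma memR (H : Setup D R e ω C θ v) {ξ : ℂ} (hξ : ‖ξ‖ < 3) : ξ ∈ ball (0 : ℂ) R :=
  mem_ball_zero_iff.mpr (by linarith [H.an.R_ge])

lemma memR' (H : Setup D R e ω C θ v) {r : ℝ} (hr : r ∈ Icc (0 : ℝ) 1) :
    (r : ℂ) ∈ ball (0 : ℂ) R :=
  H.memR (by rw [Complex.norm_real, Real.norm_of_nonneg hr.1]; linarith [hr.2])

lemma v_le (H : Setup D R e ω C θ v) {r : ℝ} (hr : r ∈ Icc (0 : ℝ) 1) : ‖v r‖ ≤ θ * r := by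
  rcases hr.1.eq_or_lt with rfl | h0
  · simp [H.good.zero]
  · refine (H.good.b0 _ (memU ⟨h0, hr.2⟩)).trans (mul_le_mul_of_nonneg_left ?_ H.θ0)
    rw [Complex.norm_real, Real.norm_of_nonneg hr.1]
    exact pow_le_of_le_one hr.1 hr.2 (by norm_num)

lemma v_le' (H : Setup D R e ω C θ v) {r : ℝ} (hr : r ∈ Icc (0 : ℝ) 1) : ‖v r‖ ≤ θ :=
  (H.v_le hr).trans (mul_le_of_le_one_right H.θ0 hr.2)

lemma v_cont (H : Setup D R e ω C θ v) : ContinuousOn (fun r : ℝ => v r) (Icc 0 1) := by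
  intro r hr
  rcases hr.1.eq_or_lt with rfl | h0
  · rw [ContinuousWithinAt, Complex.ofReal_zero, H.good.zero]
    refine squeeze_zero_norm' (a := fun r => θ * r) ?_ ?_
    · filter_upwards [self_mem_nhdsWithin] with r hr using H.v_le hr
    · have : Tendsto (fun r : ℝ => θ * r) (𝓝 0) (𝓝 (θ * 0)) := (continuous_const_mul θ).tendsto 0
      rw [mul_zero] at this
      exact this.mono_left nhdsWithin_le_nhds
  · have h1 := (H.good.hol.differentiableAt ((isOpen_U _).mem_nhds (memU ⟨h0, hr.2⟩))).continuousAt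
    exact (h1.comp Complex.continuous_ofReal.continuousAt).continuousWithinAt

lemma hypT (H : Setup D R e ω C θ v) : Bridge.Hyp (D.capT v) (U (1 / 8) ∩ ball 0 3) where
  ok := (H.st (U.one_mem (by norm_num))).okT
  mem := fun _ hr => mem3 hr
  real := fun ξ hξ hi => by
    change (D.τT ξ + v ξ).im = 0
    rw [Complex.add_im, H.an.τT_real ξ (H.memR (mem_ball_zero_iff.mp hξ.2)) hi,
      H.good.real ξ hξ.1 hi, add_zero]
  cont := (H.an.τT_hol.continuousOn.comp Complex.continuous_ofReal.continuousOn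
    fun _ hr => H.memR' hr).add H.v_cont

lemma hypB (H : Setup D R e ω C θ v) : Bridge.Hyp (D.capB v) (U (1 / 8) ∩ ball 0 3) where
  ok := (H.st (U.one_mem (by norm_num))).okB
  mem := fun _ hr => mem3 hr
  real := fun ξ hξ hi => by
    change (D.τB ξ - v ξ).im = 0
    rw [Complex.sub_im, H.an.τB_real ξ (H.memR (mem_ball_zero_iff.mp hξ.2)) hi,
      H.good.real ξ hξ.1 hi, sub_zero]
  cont := (H.an.τB_hol.continuousOn.comp Complex.continuous_ofReal.continuousOn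
    fun _ hr => H.memR' hr).sub H.v_cont

lemma dv_le (H : Setup D R e ω C θ v) {r : ℝ} (hr : r ∈ Ioo (0 : ℝ) 1) :
    |(deriv v r).re| ≤ D.m / 2 := by
  have h1 := H.good.b1 _ (memU (Ioo_subset_Ioc_self hr))
  rw [Complex.norm_real, Real.norm_of_nonneg hr.1.le] at h1
  have h2 := mul_le_of_le_one_right H.θ0 (pow_le_one₀ (n := 7) hr.1.le hr.2.le)
  linarith [Complex.abs_re_le_norm (deriv v r), H.θm]

lemma okT (H : Setup D R e ω C θ v) : (D.capT v).toR.OK := H.hypT.rok fun r hr => by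
  have h1 := H.an.τT_hol.differentiableAt
    (isOpen_ball.mem_nhds (H.memR' (Ioo_subset_Icc_self hr)))
  have h2 := H.good.hol.differentiableAt ((isOpen_U _).mem_nhds (memU (Ioo_subset_Ioc_self hr)))
  change 0 ≤ (deriv (fun ξ => D.τT ξ + v ξ) r).re
  rw [deriv_fun_add h1 h2, Complex.add_re]
  linarith [H.ge.τT' r (Ioo_subset_Icc_self hr), (abs_le.mp (H.dv_le hr)).1]

lemma okB (H : Setup D R e ω C θ v) : (D.capB v).toR.OK := H.hypB.rok fun r hr => by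
  have h1 := H.an.τB_hol.differentiableAt
    (isOpen_ball.mem_nhds (H.memR' (Ioo_subset_Icc_self hr)))
  have h2 := H.good.hol.differentiableAt ((isOpen_U _).mem_nhds (memU (Ioo_subset_Ioc_self hr)))
  change 0 ≤ (deriv (fun ξ => D.τB ξ - v ξ) r).re
  rw [deriv_fun_sub h1 h2, Complex.sub_re]
  linarith [H.ge.τB' r (Ioo_subset_Icc_self hr), (abs_le.mp (H.dv_le hr)).2]

lemma ZT0 (H : Setup D R e ω C θ v) : (D.capT v).toR.Z 0 = D.zT := by
  apply Complex.ofReal_injective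
  rw [H.hypT.Z_eq GeoMem.zero_mem, H.an.zT_eq]
  simp [Cap.ZZ, Cap.hh, Cap.mm, Cap.sg, Data.capT, H.good.zero]

lemma ZB0 (H : Setup D R e ω C θ v) : (D.capB v).toR.Z 0 = -D.zB := by
  apply Complex.ofReal_injective
  rw [H.hypB.Z_eq GeoMem.zero_mem, Complex.ofReal_neg, H.an.zB_eq]
  simp [Cap.ZZ, Cap.hh, Cap.mm, Cap.sg, Data.capB, H.good.zero]

lemma zT_ge (H : Setup D R e ω C θ v) : 95 / 100 ≤ D.zT := H.ZT0 ▸ Z_zero_ge H.hypT

lemma zB_le (H : Setup D R e ω C θ v) : D.zB ≤ -(95 / 100) := by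
  have := Z_zero_ge H.hypB
  rw [H.ZB0] at this
  linarith

lemma zT_le (H : Setup D R e ω C θ v) : D.zT ≤ 11 / 10 := H.ZT0 ▸ Z_le H.hypT GeoMem.zero_mem

lemma zB_ge (H : Setup D R e ω C θ v) : -(11 / 10) ≤ D.zB := by
  have := Z_le H.hypB GeoMem.zero_mem
  rw [H.ZB0] at this
  linarith

lemma rb_ok (H : Setup D R e ω C θ v) : (D.rbody v).OK where
  T_ok := H.okT
  B_ok := H.okB
  m_eq := rfl
  zB_neg := by
    change D.zB < 0
    linarith [H.zB_le]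
  zT_pos := by
    change 0 < D.zT
    linarith [H.zT_ge]
  ZT0 := H.ZT0
  ZB0 := H.ZB0
  ξT := by
    change D.ξ0 D.zT = D.m * (1 - 0) * (D.capT v).toR.σ 0 ^ 2
    rw [σ_sq H.hypT GeoMem.zero_mem]
    have := congrArg Complex.re H.an.ξT
    simpa [Data.capT, H.good.zero] using this
  ξB := by
    change D.ξ0 D.zB = D.m * (1 - 0) * (D.capB v).toR.σ 0 ^ 2
    rw [σ_sq H.hypB GeoMem.zero_mem]
    have := congrArg Complex.re H.an.ξB
    simpa [Data.capB, H.good.zero] using this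
  dT := by
    have h := H.ge.tan.dT 0 GeoMem.zero_mem
    have e1 : (D.rbody 0).T.Z 0 = D.zT := by
      rw [← H.ZT0]
      simp [Data.rbody, Cap.toR, Cap.ZZ, Cap.hh, Cap.mm, Cap.sg, Data.capT, H.good.zero]
    have e2 : (D.rbody 0).T.σ 0 = (D.rbody v).T.σ 0 := by
      simp [Data.rbody, Cap.toR, Cap.sg, Data.capT, H.good.zero]
    rw [e1, e2] at h
    exact h
  dB := by
    have h := H.ge.tan.dB 0 GeoMem.zero_mem
    have e1 : (D.rbody 0).B.Z 0 = -D.zB := by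
      rw [← H.ZB0]
      simp [Data.rbody, Cap.toR, Cap.ZZ, Cap.hh, Cap.mm, Cap.sg, Data.capB, H.good.zero]
    have e2 : (D.rbody 0).B.σ 0 = (D.rbody v).B.σ 0 := by
      simp [Data.rbody, Cap.toR, Cap.sg, Data.capB, H.good.zero]
    rw [e1, e2, neg_neg] at h
    exact h
  cont := H.an.cont
  sup := H.ge.sup

lemma reg (H : Setup D R e ω C θ v) : Reg (D.rbody v) D.a where
  der := H.ge.der
  dcont1 := H.ge.dcont1
  dcont2 := H.ge.dcont2
  dbdd := fun z hz => H.ge.dbdd z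
    ⟨le_trans (show -2 ≤ D.zB by linarith [H.zB_ge]) hz.1,
      le_trans hz.2 (show D.zT ≤ 2 by linarith [H.zT_le])⟩

lemma Q_nonneg (H : Setup D R e ω C θ v) {x : ℝ} (hx : x ∈ Ioc (0 : ℝ) 1) :
    0 ≤ (D.Q v x).re := by
  have F := H.st (memU hx)
  rcases hx.2.eq_or_lt with rfl | h1
  · have := F.Q_le
    simp only [Complex.ofReal_one, sub_self, norm_zero, mul_zero, norm_le_zero_iff] at this
    simp [this]
  · have := (F.real H.good.real (Complex.ofReal_im x)).2.2.2.1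
    rw [Complex.ofReal_re] at this
    exact nonneg_of_mul_nonneg_left this (by linarith)

/-- The maximal section in the direction of the critical plane with bottom tip `x`. -/
lemma sec_cap (H : Setup D R e ω C θ v) {x : ℝ} (hx : x ∈ Ioc (0 : ℝ) 1) :
    ⨆ t : ℝ, volume (secSet (D.rbody v).P (√(D.Q v x).re) t) =
      ENNReal.ofReal (D.M2 ((D.Q v x).re : ℝ)).re := by
  have F := H.st (memU hx)
  obtain ⟨r1, r2, r3, -⟩ := F.real H.good.real (Complex.ofReal_im x)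
  have hQ := H.Q_nonneg hx
  obtain ⟨ϑ, hϑ⟩ : ∃ ϑ : ℝ, D.th v x = ϑ := ⟨_, eq_ofReal_re r1⟩
  obtain ⟨c, hc⟩ : ∃ c : ℝ, D.c v x = c := ⟨_, eq_ofReal_re r2⟩
  obtain ⟨Q, hQ'⟩ : ∃ Q : ℝ, D.Q v x = Q := ⟨_, eq_ofReal_re r3⟩
  obtain ⟨φ, hφ1, hφ2⟩ : ∃ φ : ℝ, D.φ v x = φ ∧ φ ≤ 1 := ⟨1 - (1 - x) * ϑ ^ 2, by
    rw [Data.φ, hϑ, ph]; push_cast; ring, by nlinarith [hx.2, sq_nonneg ϑ]⟩
  have plT := F.plT
  have plB := F.plB
  have tipT := F.tipT
  have tipB := F.tipB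
  have mid := F.mid
  have hbb : (D.capT v).bcap (D.c v x) (D.Q v x) (D.φ v x) -
      (D.capB v).bcap (-D.c v x) (D.Q v x) x + bmid D.ξ0 D.zB D.zT (D.c v x) (D.Q v x) = 0 :=
    F.bb_eq
  have haa : (D.capT v).acap (D.c v x) (D.Q v x) (D.φ v x) +
      (D.capB v).acap (-D.c v x) (D.Q v x) x + amid D.ξ0 D.zB D.zT (D.c v x) (D.Q v x) =
      D.M2 (D.Q v x) := by
    have := H.good.F _ (memU hx)
    rw [zero_mul, norm_le_zero_iff, Data.FF, sub_eq_zero] at this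
    exact this
  rw [hc, hQ', hφ1] at plT tipT hbb haa
  rw [hc, hQ'] at plB tipB mid
  rw [← Complex.ofReal_neg] at plB tipB hbb haa
  rw [hQ', Complex.ofReal_re] at hQ ⊢
  have hφ : φ ∈ Ioc (0 : ℝ) 1 := ⟨by simpa using U.re_pos (by norm_num) plT.mem.1, hφ2⟩
  obtain ⟨t1, t2, t3, t4, t5⟩ := (an_bridge _ _ H.hypT.ok H.hypT.mem H.hypT.real
    H.hypT.cont).2.2 c Q φ hφ plT tipT
  obtain ⟨b1, b2, b3, b4, b5⟩ := (an_bridge _ _ H.hypB.ok H.hypB.mem H.hypB.real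
    H.hypB.cont).2.2 (-c) Q x hx plB tipB
  obtain ⟨m1, m2⟩ := (an_mid D.ξ0 D.zB D.zT H.an.cont (by linarith [H.zB_ge])
    (by linarith [H.zB_le, H.zT_ge]) (by linarith [H.zT_le]) H.an.ξ0_le).2.1 c Q mid
  rw [t5, b5, m2] at hbb
  rw [t4, b4, m1] at haa
  have h := sup_cap H.rb_ok H.reg hQ (c := c) (show D.zB ≤ D.a by linarith [H.zB_le, H.ge.a_pos])
    H.ge.a_lt.le hφ hx t1 t2 t3 b1 b2 b3
    (fun z hz => by
      have := mid.pos z hz
      rw [WW] at this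
      norm_cast at this)
    (by exact_mod_cast hbb)
  rw [h, ← haa]
  norm_cast

lemma Q_cont (H : Setup D R e ω C θ v) : ContinuousOn (fun r : ℝ => (D.Q v r).re) (Ioc 0 1) := by
  have hS : FamS (U (1 / 8)) v (fun _ => 0) (fun _ => 0) (fun w => w) (1 / 8) 3 ω :=
    ⟨isOpen_U _, H.good.hol, differentiableOn_const _, differentiableOn_const _,
      differentiableOn_id, fun w hw => by simpa using H.state hw⟩
  have h := (H.mach.fam _ _ _ _ _ _ _ hS).Q_hol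
  simp only [mul_zero, add_zero] at h
  exact Complex.continuous_re.comp_continuousOn
    (h.continuousOn.comp Complex.continuous_ofReal.continuousOn fun r hr => memU hr)

lemma Q_sub (H : Setup D R e ω C θ v) {r : ℝ} (hr : r ∈ Ioo (0 : ℝ) (1 / 2)) :
    ‖D.Q v r - D.QQ 0 r (D.th0 r)‖ ≤ 128 * D.m * r ^ 5 := by
  have hr' : r ∈ Ioc (0 : ℝ) 1 := ⟨hr.1, by linarith [hr.2]⟩
  have hr0 := hr.1
  have hθω : θ ≤ ω := by linarith [H.θω, H.θ0]
  have key : ∀ w ∈ ball (0 : ℂ) (1 / (32 * r ^ 5)), ∀ ξ : ℂ, ‖ξ‖ < 2 * r →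
      ‖w‖ * (θ * ‖ξ‖ ^ 5) ≤ ω := fun w hw ξ hξ => by
    rw [mem_ball_zero_iff, lt_div_iff₀ (by positivity)] at hw
    have a1 := pow_le_pow_left₀ (norm_nonneg ξ) hξ.le 5
    have a2 : ‖w‖ * ‖ξ‖ ^ 5 ≤ 1 := by nlinarith [norm_nonneg w]
    nlinarith [H.θ0]
  have hS : FamS (ball 0 (1 / (32 * r ^ 5))) (fun _ => 0) v (fun w => w) (fun _ => r) (1 / 8)
      (2 * r) ω := by
    refine ⟨isOpen_ball, differentiableOn_const _, H.good.hol, differentiableOn_id,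
      differentiableOn_const _, fun w hw => ⟨le_rfl, by norm_num, memU hr', ?_,
        (differentiableOn_const _).add (H.good.hol.const_mul w), fun ξ hξ hξ' => ?_,
        fun ξ hξ hξ' => ?_⟩⟩
    · rw [Complex.norm_real, Real.norm_of_nonneg hr0.le]
      linarith
    · rw [zero_add, norm_mul]
      refine (mul_le_mul_of_nonneg_left (H.good.b0 ξ hξ) (norm_nonneg w)).trans ?_
      have := mul_le_mul_of_nonneg_right (key w hw ξ hξ') (by positivity : 0 ≤ ‖ξ‖ ^ 3)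
      linarith
    · simp only [zero_add]
      rw [deriv_const_mul_field, norm_mul]
      refine (mul_le_mul_of_nonneg_left (H.good.b1 ξ hξ) (norm_nonneg w)).trans ?_
      have := mul_le_mul_of_nonneg_right (key w hw ξ hξ') (by positivity : 0 ≤ ‖ξ‖ ^ 2)
      linarith
  have h1 : (1 : ℂ) ∈ ball (0 : ℂ) (1 / (32 * r ^ 5)) := by
    rw [mem_ball_zero_iff, norm_one, lt_div_iff₀ (by positivity)]
    have := pow_lt_pow_left₀ hr.2 hr0.le (n := 5) (by norm_num)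
    linarith
  have h := schwarz1 (M := 2 * D.m) (H.mach.fam _ _ _ _ _ _ _ hS).Q_hol
    (fun w hw => (H.mach.st _ _ _ _ (hS.st w hw)).plT.Q_le) h1
  simp only [zero_add, one_mul, zero_mul, sub_zero, norm_one, mul_one] at h
  have e : D.Q (fun _ => 0) r = D.QQ 0 r (D.th0 r) := by
    change D.QQ 0 r (D.th 0 r) = _
    rw [H.mach.th_zero _ (U.mono (by norm_num) (by norm_num) (memU hr'))]
  rw [e] at h
  refine h.trans (le_of_eq ?_)
  field_simp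
  ring

lemma Q_lim (H : Setup D R e ω C θ v) :
    Tendsto (fun r : ℝ => (D.Q v r).re) (𝓝[>] 0) (𝓝 D.Q1) := by
  have h1 : Tendsto (fun r : ℝ => D.Q v r - D.QQ 0 r (D.th0 r)) (𝓝[>] 0) (𝓝 0) := by
    refine squeeze_zero_norm' (a := fun r => 128 * D.m * r ^ 5) ?_ ?_
    · filter_upwards [Ioo_mem_nhdsGT (show (0 : ℝ) < 1 / 2 by norm_num)] with r hr
        using H.Q_sub hr
    · have : Tendsto (fun r : ℝ => 128 * D.m * r ^ 5) (𝓝 0) (𝓝 (128 * D.m * 0 ^ 5)) :=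
        (by fun_prop : Continuous fun r : ℝ => 128 * D.m * r ^ 5).tendsto 0
      simp only [ne_eq, OfNat.ofNat_ne_zero, not_false_eq_true, zero_pow, mul_zero] at this
      exact this.mono_left nhdsWithin_le_nhds
  have h2 := (Complex.continuous_re.tendsto _).comp (h1.add H.ge.Q1_lim)
  simpa [Function.comp_def] using h2

lemma sec_low (H : Setup D R e ω C θ v) {Q : ℝ} (h0 : 0 ≤ Q) (h1 : Q < D.Q1) :
    ⨆ t : ℝ, volume (secSet (D.rbody v).P (√Q) t) = ENNReal.ofReal (D.M2 Q).re := by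
  obtain ⟨r, hr1, hr2⟩ := ((H.Q_lim.eventually (lt_mem_nhds h1)).and
    (Ioc_mem_nhdsGT (show (0 : ℝ) < 1 by norm_num))).exists
  have hQ1 : (D.Q v (1 : ℝ)).re = 0 := by
    have := (H.st (memU ⟨one_pos, le_rfl⟩)).Q_le
    simp only [Complex.ofReal_one, sub_self, norm_zero, mul_zero, norm_le_zero_iff] at this
    simp [this]
  obtain ⟨x, hx, hxQ⟩ := intermediate_value_Icc' hr2.2
    (H.Q_cont.mono fun y hy => ⟨hr2.1.trans_le hy.1, hy.2⟩) (show Q ∈ Icc _ _ from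
      ⟨hQ1.trans_le h0, hr1.le⟩)
  have h := H.sec_cap (x := x) ⟨hr2.1.trans_le hx.1, hx.2⟩
  simp only at hxQ
  rwa [hxQ] at h

end Setup

/-- Two solutions have the same maximal sections in all directions that are not steep. -/
lemma sec_eq {θ' : ℝ} {u : ℂ → ℂ} (H : Setup D R e ω C θ v) (G : Setup D R e ω C θ' u) {Q : ℝ}
    (h0 : 0 ≤ Q) (h1 : Q ≤ D.Qs) : ⨆ t : ℝ, volume (secSet (D.rbody v).P (√Q) t) =
      ⨆ t : ℝ, volume (secSet (D.rbody u).P (√Q) t) := by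
  rcases lt_or_ge Q D.Q1 with h | h
  · rw [H.sec_low h0 h, G.sec_low h0 h]
  · obtain ⟨c, zb, zt, a1, a2, a3, a4, a5, a6, a7, a8, a9⟩ := H.ge.midsec Q ⟨h, h1⟩
    have a0 : zb ≤ D.a := by linarith [H.ge.a_pos]
    rw [sup_mid H.rb_ok H.reg h0 a1 a0 a3 a4 a5 a6 a7 a8 a9,
      sup_mid G.rb_ok G.reg h0 a1 a0 a3 a4 a5 a6 a7 a8 a9]
    rfl

end Sec

end

end Pool.Agent.Lib.MP_87c84d_gt
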