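import Pool.Agent.Lib.MP_87c84d_gt.Tools
import Pool.Agent.Lib.MP_87c84d_gt.GeoMem
import Pool.Agent.Lib.MP_87c84d_gt.GeoArc

/-!
Boundary arcs of the sections of a body with two caps, and the maximal sections they bound.
-/

namespace Pool.Agent.Lib.MP_87c84d_gt

open MeasureTheory Set Metric Filter Topology

noncomputable section

namespace Sec

lemma sq_plane {Q : ℝ} (hQ : 0 ≤ Q) (c z : ℝ) : (√Q * c - √Q * z) ^ 2 = Q * (z - c) ^ 2 := by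
  have := Real.sq_sqrt hQ
  calc (√Q * c - √Q * z) ^ 2 = √Q ^ 2 * (z - c) ^ 2 := by ring
    _ = _ := by rw [this]

lemma arc_cast {P : Set (ℝ × ℝ)} {q t z0 z1 w0 w1 a b z0' z1' w0' w1' a' b' : ℝ}
    (h : Arc P q t z0 z1 w0 w1 a b) (h1 : z0 = z0') (h2 : z1 = z1') (h3 : w0 = w0')
    (h4 : w1 = w1') (h5 : a = a') (h6 : b = b') : Arc P q t z0' z1' w0' w1' a' b' := by
  subst h1 h2 h3 h4 h5 h6
  exact h

lemma piece {P : Set (ℝ × ℝ)} (hP : Prof P) {Q c u0 u1 : ℝ} (hQ : 0 ≤ Q) {T Z T' Z' : ℝ → ℝ}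
    (hu : u0 ≤ u1) (hT : ContinuousOn T (Icc u0 u1)) (hZ : ContinuousOn Z (Icc u0 u1))
    (dT : ∀ u ∈ Ioo u0 u1, HasDerivAt T (T' u) u) (dZ : ∀ u ∈ Ioo u0 u1, HasDerivAt Z (Z' u) u)
    (hZ' : ∀ u ∈ Ioo u0 u1, 0 < Z' u) (hW : ∀ u ∈ Ioo u0 u1, 0 < T u - Q * (Z u - c) ^ 2)
    (hs : ∀ u ∈ Ioo u0 u1, ∀ p ∈ P, p.1 * Z' u ≤ T u * Z' u + T' u * (p.2 - Z u))
    (hm : ∀ u ∈ Ioo u0 u1, (T u, Z u) ∈ P)
    (i1 : IntervalIntegrable (fun u => Z' u / √(T u - Q * (Z u - c) ^ 2)) volume u0 u1)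
    (i2 : IntervalIntegrable (fun u => T' u / √(T u - Q * (Z u - c) ^ 2)) volume u0 u1) :
    Arc P (√Q) (√Q * c) (Z u0) (Z u1) (√(T u0 - Q * (Z u0 - c) ^ 2))
      (√(T u1 - Q * (Z u1 - c) ^ 2)) (∫ u in u0..u1, 2 * √(T u - Q * (Z u - c) ^ 2) * Z' u)
      (-√Q * ∫ u in u0..u1, (Z u - c) * Z' u / √(T u - Q * (Z u - c) ^ 2)) := by
  have h := arc_piece P (√Q) (√Q * c) u0 u1 T Z T' Z' hP hu hT hZ dT dZ hZ'
    (by simpa only [sq_plane hQ] using hW) hs hm (by simpa only [sq_plane hQ] using i1)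
    (by simpa only [sq_plane hQ] using i2)
  simp only [sq_plane hQ] at h
  refine arc_cast h rfl rfl rfl rfl rfl ?_
  rw [← intervalIntegral.integral_const_mul]
  congr 1
  funext u
  ring

variable {R : RBody} {Q c : ℝ}

lemma top_arc (hR : R.OK) (hQ : 0 ≤ Q) {φ : ℝ} (hφ : φ ∈ Ioc (0 : ℝ) 1)
    (hW : ∀ r ∈ Ico 0 φ, 0 < R.T.T r - Q * (R.T.Z r - c) ^ 2)
    (h0 : R.T.T φ - Q * (R.T.Z φ - c) ^ 2 = 0)
    (hi : IntervalIntegrable (fun r => R.T.Z' r / √(R.T.T r - Q * (R.T.Z r - c) ^ 2))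
      volume 0 φ) :
    Arc R.P (√Q) (√Q * c) R.zT (R.T.Z φ) (√(R.ξ0 R.zT - Q * (R.zT - c) ^ 2)) 0
      (∫ r in (0 : ℝ)..φ, 2 * √(R.T.T r - Q * (R.T.Z r - c) ^ 2) * R.T.Z' r)
      (-√Q * ∫ r in (0 : ℝ)..φ,
        (R.T.Z r - c) * R.T.Z' r / √(R.T.T r - Q * (R.T.Z r - c) ^ 2)) := by
  have hK := hR.T_ok
  have s1 : Icc 0 φ ⊆ Icc (0 : ℝ) 1 := Icc_subset_Icc le_rfl hφ.2
  have s2 : Ioo 0 φ ⊆ Ioo (0 : ℝ) 1 := Ioo_subset_Ioo le_rfl hφ.2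
  have h := piece (geo_prof R hR) hQ (c := c) (T := R.T.T) (Z := R.T.Z)
    (T' := fun r => -2 * R.T.σ r * R.T.Z' r) (Z' := R.T.Z') hφ.1.le ((GeoMem.cT hK).mono s1)
    (hK.cZ.mono s1) (fun u hu => GeoMem.dT hK (s2 hu)) (fun u hu => hK.dZ u (s2 hu))
    (fun u hu => hK.Z'_pos u (s2 hu)) (fun u hu => hW u (Ioo_subset_Ico_self hu))
    (fun u hu p hp => by
      have h1 := hp.2.1 u (Ioo_subset_Icc_self (s2 hu))
      have h2 := mul_le_mul_of_nonneg_right h1 (hK.Z'_pos u (s2 hu)).le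
      linarith)
    (fun u hu => GeoMem.top_mem hR (Ioo_subset_Icc_self (s2 hu)) le_rfl) hi (by
      have := hi.continuousOn_mul (g := fun r => -2 * R.T.σ r)
        (continuousOn_const.mul (hK.cσ.mono (by rw [uIcc_of_le hφ.1.le]; exact s1)))
      simpa only [mul_div_assoc] using this)
  refine arc_cast h hR.ZT0 rfl ?_ ?_ rfl rfl
  · rw [hR.ξT, hR.ZT0]
  · rw [h0, Real.sqrt_zero]

lemma bot_arc (hR : R.OK) (hQ : 0 ≤ Q) {x : ℝ} (hx : x ∈ Ioc (0 : ℝ) 1)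
    (hW : ∀ r ∈ Ico 0 x, 0 < R.B.T r - Q * (R.B.Z r - -c) ^ 2)
    (h0 : R.B.T x - Q * (R.B.Z x - -c) ^ 2 = 0)
    (hi : IntervalIntegrable (fun r => R.B.Z' r / √(R.B.T r - Q * (R.B.Z r - -c) ^ 2))
      volume 0 x) :
    Arc R.P (√Q) (√Q * c) (-R.B.Z x) R.zB 0 (√(R.ξ0 R.zB - Q * (R.zB - c) ^ 2))
      (∫ r in (0 : ℝ)..x, 2 * √(R.B.T r - Q * (R.B.Z r - -c) ^ 2) * R.B.Z' r)
      (√Q * ∫ r in (0 : ℝ)..x,
        (R.B.Z r - -c) * R.B.Z' r / √(R.B.T r - Q * (R.B.Z r - -c) ^ 2)) := by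
  have hK := hR.B_ok
  have s1 : MapsTo (fun u : ℝ => -u) (Icc (-x) 0) (Icc (0 : ℝ) 1) := fun u hu =>
    ⟨by linarith [hu.2], by linarith [hu.1, hx.2]⟩
  have s2 : ∀ u ∈ Ioo (-x) 0, -u ∈ Ioo (0 : ℝ) 1 := fun u hu =>
    ⟨by linarith [hu.2], by linarith [hu.1, hx.2]⟩
  have e : ∀ z : ℝ, (-z - c) ^ 2 = (z - -c) ^ 2 := fun z => by ring
  have hi' : IntervalIntegrable
      (fun u => R.B.Z' (-u) / √(R.B.T (-u) - Q * (-R.B.Z (-u) - c) ^ 2)) volume (-x) 0 := by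
    have := (hi.comp_mul_left (c := -1)).symm
    simp only [e]
    simpa [div_neg] using this
  have h := piece (geo_prof R hR) hQ (c := c) (T := fun u => R.B.T (-u))
    (Z := fun u => -R.B.Z (-u)) (T' := fun u => 2 * R.B.σ (-u) * R.B.Z' (-u))
    (Z' := fun u => R.B.Z' (-u)) (u0 := -x) (u1 := 0) (by linarith [hx.1])
    ((GeoMem.cT hK).comp continuous_neg.continuousOn s1)
    (hK.cZ.comp continuous_neg.continuousOn s1).neg
    (fun u hu => hasDerivAt_of_eq ((GeoMem.dT hK (s2 u hu)).comp u (hasDerivAt_neg u))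
      (fun _ => rfl) (by ring))
    (fun u hu => hasDerivAt_of_eq ((hK.dZ _ (s2 u hu)).comp u (hasDerivAt_neg u)).neg
      (fun _ => rfl) (by ring))
    (fun u hu => hK.Z'_pos _ (s2 u hu))
    (fun u hu => by
      rw [e]
      exact hW _ ⟨by linarith [hu.2], by linarith [hu.1]⟩)
    (fun u hu p hp => by
      have h1 := hp.2.2 _ (Ioo_subset_Icc_self (s2 u hu))
      have h2 := mul_le_mul_of_nonneg_right h1 (hK.Z'_pos _ (s2 u hu)).le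
      linarith)
    (fun u hu => GeoMem.bot_mem hR (Ioo_subset_Icc_self (s2 u hu)) le_rfl) hi' (by
      have := hi'.continuousOn_mul (g := fun u => 2 * R.B.σ (-u))
        (continuousOn_const.mul (hK.cσ.comp continuous_neg.continuousOn
          (by rw [uIcc_of_le (by linarith [hx.1])]; exact s1)))
      simpa only [mul_div_assoc] using this)
  simp only [neg_neg, neg_zero, e] at h
  refine arc_cast h rfl (by rw [hR.ZB0, neg_neg]) ?_ ?_ ?_ ?_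
  · rw [h0, Real.sqrt_zero]
  · rw [hR.ξB, hR.ZB0]
    congr 1
    ring
  · have := intervalIntegral.integral_comp_neg (a := -x) (b := 0)
      (fun r => 2 * √(R.B.T r - Q * (R.B.Z r - -c) ^ 2) * R.B.Z' r)
    simpa only [neg_neg, neg_zero] using this
  · have := intervalIntegral.integral_comp_neg (a := -x) (b := 0)
      (fun r => (R.B.Z r - -c) * R.B.Z' r / √(R.B.T r - Q * (R.B.Z r - -c) ^ 2))
    simp only [neg_neg, neg_zero] at this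
    rw [← this, neg_mul, ← mul_neg, ← intervalIntegral.integral_neg]
    congr 2
    funext u
    ring

/-- regularity of the middle profile -/
structure Reg (R : RBody) (a : ℝ) : Prop where
  der : ∀ z : ℝ, z ≠ a → HasDerivAt R.ξ0 (R.dξ0 z) z
  dcont1 : ContinuousOn R.dξ0 (Iio a)
  dcont2 : ContinuousOn R.dξ0 (Ioi a)
  dbdd : ∀ z ∈ Icc R.zB R.zT, |R.dξ0 z| ≤ 5

lemma ii_mul_bdd {f g : ℝ → ℝ} {a b M : ℝ} (hab : a ≤ b) (hf : IntervalIntegrable f volume a b)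
    (hg : ContinuousOn g (Ioo a b)) (hM : ∀ z ∈ Ioo a b, |g z| ≤ M) :
    IntervalIntegrable (fun z => g z * f z) volume a b := by
  rw [intervalIntegrable_iff_integrableOn_Ioo_of_le hab] at hf ⊢
  refine Integrable.bdd_mul (c := M) hf (hg.aestronglyMeasurable measurableSet_Ioo) ?_
  filter_upwards [ae_restrict_mem measurableSet_Ioo] with r hr using hM r hr

lemma mid_piece (hR : R.OK) {a : ℝ} (hg : Reg R a) (hQ : 0 ≤ Q) {z0 z1 : ℝ} (h0 : R.zB ≤ z0)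
    (h01 : z0 ≤ z1) (h1 : z1 ≤ R.zT) (ha : z1 ≤ a ∨ a ≤ z0)
    (hW : ∀ z ∈ Ioo z0 z1, 0 < R.ξ0 z - Q * (z - c) ^ 2)
    (hi : IntervalIntegrable (fun z => 1 / √(R.ξ0 z - Q * (z - c) ^ 2)) volume z0 z1) :
    Arc R.P (√Q) (√Q * c) z0 z1 (√(R.ξ0 z0 - Q * (z0 - c) ^ 2)) (√(R.ξ0 z1 - Q * (z1 - c) ^ 2))
      (∫ z in z0..z1, 2 * √(R.ξ0 z - Q * (z - c) ^ 2))
      (-√Q * ∫ z in z0..z1, (z - c) / √(R.ξ0 z - Q * (z - c) ^ 2)) := by
  have s1 : ∀ z ∈ Ioo z0 z1, z ∈ Icc R.zB R.zT := fun z hz =>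
    ⟨by linarith [hz.1], by linarith [hz.2]⟩
  have hc : ContinuousOn R.dξ0 (Ioo z0 z1) := by
    rcases ha with ha | ha
    · exact hg.dcont1.mono fun z hz => lt_of_lt_of_le hz.2 ha
    · exact hg.dcont2.mono fun z hz => lt_of_le_of_lt ha hz.1
  have h := piece (geo_prof R hR) hQ (c := c) (T := R.ξ0) (Z := fun z => z) (T' := R.dξ0)
    (Z' := fun _ => 1) h01 hR.cont.continuousOn continuousOn_id
    (fun z hz => hg.der z (by
      rcases ha with ha | ha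
      · exact (lt_of_lt_of_le hz.2 ha).ne
      · exact (lt_of_le_of_lt ha hz.1).ne'))
    (fun z _ => hasDerivAt_id z) (fun _ _ => one_pos) hW
    (fun z hz p hp => by
      have := hp.1 z (s1 z hz)
      linarith)
    (fun z hz => GeoMem.mid_mem hR (s1 z hz) le_rfl) hi (by
      have := ii_mul_bdd h01 hi hc fun z hz => hg.dbdd z (s1 z hz)
      simpa only [mul_one_div] using this)
  simpa only [mul_one] using h

lemma mid_arc (hR : R.OK) {a : ℝ} (hg : Reg R a) (hQ : 0 ≤ Q) {z0 z1 : ℝ} (h0 : R.zB ≤ z0)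
    (h0a : z0 ≤ a) (ha1 : a ≤ z1) (h1 : z1 ≤ R.zT)
    (hW : ∀ z ∈ Ioo z0 z1, 0 < R.ξ0 z - Q * (z - c) ^ 2)
    (hi : IntervalIntegrable (fun z => 1 / √(R.ξ0 z - Q * (z - c) ^ 2)) volume z0 z1) :
    Arc R.P (√Q) (√Q * c) z0 z1 (√(R.ξ0 z0 - Q * (z0 - c) ^ 2)) (√(R.ξ0 z1 - Q * (z1 - c) ^ 2))
      (∫ z in z0..z1, 2 * √(R.ξ0 z - Q * (z - c) ^ 2))
      (-√Q * ∫ z in z0..z1, (z - c) / √(R.ξ0 z - Q * (z - c) ^ 2)) := by
  have h01 : z0 ≤ z1 := h0a.trans ha1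
  have i1 : IntervalIntegrable (fun z => 1 / √(R.ξ0 z - Q * (z - c) ^ 2)) volume z0 a :=
    hi.mono_set (by rw [uIcc_of_le h0a, uIcc_of_le h01]; exact Icc_subset_Icc le_rfl ha1)
  have i2 : IntervalIntegrable (fun z => 1 / √(R.ξ0 z - Q * (z - c) ^ 2)) volume a z1 :=
    hi.mono_set (by rw [uIcc_of_le ha1, uIcc_of_le h01]; exact Icc_subset_Icc h0a le_rfl)
  have p1 := mid_piece hR hg hQ h0 h0a (ha1.trans h1) (Or.inl le_rfl)
    (fun z hz => hW z ⟨hz.1, hz.2.trans_le ha1⟩) i1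
  have p2 := mid_piece hR hg hQ (h0.trans h0a) ha1 h1 (Or.inr le_rfl)
    (fun z hz => hW z ⟨h0a.trans_lt hz.1, hz.2⟩) i2
  have hc : Continuous fun z => 2 * √(R.ξ0 z - Q * (z - c) ^ 2) := by
    have := hR.cont
    fun_prop
  have j : ∀ u w : ℝ, IntervalIntegrable (fun z => 1 / √(R.ξ0 z - Q * (z - c) ^ 2)) volume u w →
      IntervalIntegrable (fun z => (z - c) / √(R.ξ0 z - Q * (z - c) ^ 2)) volume u w :=
    fun u w h => by
      have := h.continuousOn_mul (g := fun z => z - c) (by fun_prop)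
      simpa only [mul_one_div] using this
  refine arc_cast (arc_add _ _ _ _ _ _ _ _ _ _ _ _ _ p1 p2) rfl rfl rfl rfl ?_ ?_
  · exact intervalIntegral.integral_add_adjacent_intervals (hc.intervalIntegrable _ _)
      (hc.intervalIntegrable _ _)
  · rw [← mul_add, intervalIntegral.integral_add_adjacent_intervals (j _ _ i1) (j _ _ i2)]

/-- A critical section with tips in the middle part. -/
lemma sup_mid (hR : R.OK) {a : ℝ} (hg : Reg R a) (hQ : 0 ≤ Q) {z0 z1 : ℝ} (h0 : R.zB ≤ z0)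
    (h0a : z0 ≤ a) (ha1 : a < z1) (h1 : z1 ≤ R.zT)
    (e0 : R.ξ0 z0 - Q * (z0 - c) ^ 2 = 0) (e1 : R.ξ0 z1 - Q * (z1 - c) ^ 2 = 0)
    (hW : ∀ z ∈ Ioo z0 z1, 0 < R.ξ0 z - Q * (z - c) ^ 2)
    (hi : IntervalIntegrable (fun z => 1 / √(R.ξ0 z - Q * (z - c) ^ 2)) volume z0 z1)
    (hb : ∫ z in z0..z1, (z - c) / √(R.ξ0 z - Q * (z - c) ^ 2) = 0) :
    ⨆ t : ℝ, volume (secSet R.P (√Q) t) =
      ENNReal.ofReal (∫ z in z0..z1, 2 * √(R.ξ0 z - Q * (z - c) ^ 2)) := by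
  have h := mid_arc hR hg hQ h0 h0a ha1.le h1 hW hi
  rw [e0, e1, hb, Real.sqrt_zero, mul_zero] at h
  exact arc_sup _ _ _ _ _ _ (geo_prof R hR) (h0a.trans_lt ha1) h

/-- A critical section with tips in the caps. -/
lemma sup_cap (hR : R.OK) {a : ℝ} (hg : Reg R a) (hQ : 0 ≤ Q) (h0a : R.zB ≤ a) (ha1 : a ≤ R.zT)
    {φ x : ℝ} (hφ : φ ∈ Ioc (0 : ℝ) 1) (hx : x ∈ Ioc (0 : ℝ) 1)
    (hWT : ∀ r ∈ Ico 0 φ, 0 < R.T.T r - Q * (R.T.Z r - c) ^ 2)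
    (h0T : R.T.T φ - Q * (R.T.Z φ - c) ^ 2 = 0)
    (hiT : IntervalIntegrable (fun r => R.T.Z' r / √(R.T.T r - Q * (R.T.Z r - c) ^ 2))
      volume 0 φ)
    (hWB : ∀ r ∈ Ico 0 x, 0 < R.B.T r - Q * (R.B.Z r - -c) ^ 2)
    (h0B : R.B.T x - Q * (R.B.Z x - -c) ^ 2 = 0)
    (hiB : IntervalIntegrable (fun r => R.B.Z' r / √(R.B.T r - Q * (R.B.Z r - -c) ^ 2))
      volume 0 x)
    (hW : ∀ z ∈ Icc R.zB R.zT, 0 < R.ξ0 z - Q * (z - c) ^ 2)
    (hb : (∫ r in (0 : ℝ)..φ, (R.T.Z r - c) * R.T.Z' r / √(R.T.T r - Q * (R.T.Z r - c) ^ 2)) -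
      (∫ r in (0 : ℝ)..x, (R.B.Z r - -c) * R.B.Z' r / √(R.B.T r - Q * (R.B.Z r - -c) ^ 2)) +
      (∫ z in R.zB..R.zT, (z - c) / √(R.ξ0 z - Q * (z - c) ^ 2)) = 0) :
    ⨆ t : ℝ, volume (secSet R.P (√Q) t) = ENNReal.ofReal
      ((∫ r in (0 : ℝ)..φ, 2 * √(R.T.T r - Q * (R.T.Z r - c) ^ 2) * R.T.Z' r) +
      (∫ r in (0 : ℝ)..x, 2 * √(R.B.T r - Q * (R.B.Z r - -c) ^ 2) * R.B.Z' r) +
      ∫ z in R.zB..R.zT, 2 * √(R.ξ0 z - Q * (z - c) ^ 2)) := by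
  have hi : IntervalIntegrable (fun z => 1 / √(R.ξ0 z - Q * (z - c) ^ 2)) volume R.zB R.zT := by
    refine ContinuousOn.intervalIntegrable ?_
    rw [uIcc_of_le (h0a.trans ha1)]
    have := hR.cont
    exact continuousOn_const.div (by fun_prop) fun z hz => (Real.sqrt_pos.mpr (hW z hz)).ne'
  have p1 := bot_arc hR hQ hx hWB h0B hiB
  have p2 := mid_arc hR hg hQ le_rfl h0a ha1 le_rfl (fun z hz => hW z (Ioo_subset_Icc_self hz)) hi
  have p3 := top_arc hR hQ hφ hWT h0T hiT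
  have p := arc_add _ _ _ _ _ _ _ _ _ _ _ _ _ (arc_add _ _ _ _ _ _ _ _ _ _ _ _ _ p1 p2) p3
  refine arc_sup _ _ _ _ _ _ (geo_prof R hR) ?_ (arc_cast p rfl rfl rfl rfl (by ring) ?_)
  · have a1 := GeoMem.Z_mono hR.T_ok GeoMem.zero_mem (Ioc_subset_Icc_self hφ) hφ.1.le
    have a2 := GeoMem.Z_mono hR.B_ok GeoMem.zero_mem (Ioc_subset_Icc_self hx) hx.1.le
    rw [hR.ZT0] at a1
    rw [hR.ZB0] at a2
    linarith [hR.zB_neg, hR.zT_pos]
  · linear_combination (-√Q) * hb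

end Sec

end

end Pool.Agent.Lib.MP_87c84d_gt
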