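import Mathlib
import Pool.Agent.Shared.HoloIntegral

/-!
General complex-analytic tools: Schwarz and Cauchy estimates, square roots, parametric integrals,
a scalar implicit function lemma, the triangles `U s`.
-/

namespace Pool.Agent.Lib.MP_87c84d_gt

open MeasureTheory Set Metric Filter Topology

noncomputable section

lemma hasDerivAt_of_eq {𝕜 : Type*} [NontriviallyNormedField 𝕜] {E : Type*} [NormedAddCommGroup E]
    [NormedSpace 𝕜 E] {f g : 𝕜 → E} {a b : E} {x : 𝕜} (h : HasDerivAt f a x)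
    (hf : ∀ y, f y = g y) (ha : a = b) : HasDerivAt g b x := by
  rw [← funext hf, ← ha]; exact h

/-! ### Schwarz and Cauchy estimates on open balls -/

lemma maps_aux {f : ℂ → ℂ} {c : ℂ} {R M : ℝ} (hR : 0 < R) (hb : ∀ z ∈ ball c R, ‖f z‖ ≤ M) :
    MapsTo f (ball c R) (closedBall (f c) (2 * M)) := by
  intro z hz
  rw [mem_closedBall, dist_eq_norm]
  have h1 := hb z hz
  have h2 := hb c (mem_ball_self hR)
  linarith [norm_sub_le (f z) (f c)]

lemma schwarz1 {f : ℂ → ℂ} {c z : ℂ} {R M : ℝ} (hd : DifferentiableOn ℂ f (ball c R))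
    (hb : ∀ z ∈ ball c R, ‖f z‖ ≤ M) (hz : z ∈ ball c R) :
    ‖f z - f c‖ ≤ 2 * M / R * ‖z - c‖ := by
  have hR : 0 < R := nonempty_ball.mp ⟨_, hz⟩
  have := Complex.dist_le_div_mul_dist_of_mapsTo_ball hd (maps_aux hR hb) hz
  rwa [dist_eq_norm, dist_eq_norm] at this

lemma cauchy1 {f : ℂ → ℂ} {c : ℂ} {R M : ℝ} (hR : 0 < R) (hd : DifferentiableOn ℂ f (ball c R))
    (hb : ∀ z ∈ ball c R, ‖f z‖ ≤ M) : ‖deriv f c‖ ≤ 2 * M / R :=
  Complex.norm_deriv_le_div_of_mapsTo_ball hd (maps_aux hR hb) hR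

lemma cauchy2 {f : ℂ → ℂ} {c : ℂ} {R M : ℝ} (hR : 0 < R) (hd : DifferentiableOn ℂ f (ball c R))
    (hb : ∀ z ∈ ball c R, ‖f z‖ ≤ M) : ‖deriv (deriv f) c‖ ≤ 16 * M / R ^ 2 := by
  have hsub : ∀ z ∈ ball c (R / 2), ball z (R / 2) ⊆ ball c R := fun z hz y hy => by
    rw [mem_ball] at *
    linarith [dist_triangle y z c]
  have h1 : ∀ z ∈ ball c (R / 2), ‖deriv f z‖ ≤ 2 * M / (R / 2) := fun z hz =>
    cauchy1 (by positivity) (hd.mono (hsub z hz)) fun y hy => hb y (hsub z hz hy)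
  have h2 : DifferentiableOn ℂ (deriv f) (ball c (R / 2)) :=
    (hd.deriv isOpen_ball).mono (ball_subset_ball (by linarith))
  have := cauchy1 (by positivity) h2 h1
  convert this using 1
  field_simp
  ring

lemma schwarz2 {f : ℂ → ℂ} {c z : ℂ} {R M : ℝ} (hd : DifferentiableOn ℂ f (ball c R))
    (hb : ∀ z ∈ ball c R, ‖f z‖ ≤ M) (hz : z ∈ ball c R) :
    ‖f z - f c - (z - c) * deriv f c‖ ≤ 4 * M / R ^ 2 * ‖z - c‖ ^ 2 := by
  have hR : 0 < R := nonempty_ball.mp ⟨_, hz⟩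
  set g : ℂ → ℂ := fun w => f w - (w - c) * deriv f c with hg
  have hgd : DifferentiableOn ℂ g (ball c R) := hd.sub (by fun_prop)
  have hgc : g c = f c := by simp [hg]
  have hder := cauchy1 hR hd hb
  have hmaps : MapsTo g (ball c R) (closedBall (g c) (4 * M)) := by
    intro w hw
    rw [mem_closedBall, dist_eq_norm, hgc]
    have h1 := maps_aux hR hb hw
    rw [mem_closedBall, dist_eq_norm] at h1
    have h2 : ‖(w - c) * deriv f c‖ ≤ 2 * M := by
      rw [norm_mul]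
      have hw' : ‖w - c‖ ≤ R := by rw [mem_ball, dist_eq_norm] at hw; exact hw.le
      calc ‖w - c‖ * ‖deriv f c‖ ≤ R * (2 * M / R) := by gcongr
        _ = 2 * M := by field_simp
    have : g w - f c = (f w - f c) - (w - c) * deriv f c := by simp [hg]; ring
    rw [this]
    linarith [norm_sub_le (f w - f c) ((w - c) * deriv f c)]
  have hlo : (g · - g c) =o[𝓝 c] (fun w => ‖w - c‖ ^ 1) := by
    have h := (hd.differentiableAt (ball_mem_nhds c hR)).hasDerivAt
    rw [hasDerivAt_iff_isLittleO] at h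
    simp only [pow_one, Asymptotics.isLittleO_norm_right]
    refine h.congr_left fun w => ?_
    simp [hg]; ring
  have := Complex.dist_le_mul_div_pow_of_mapsTo_ball_of_isLittleO hgd hmaps hlo hz
  rw [dist_eq_norm, dist_eq_norm, hgc] at this
  have e : g z - f c = f z - f c - (z - c) * deriv f c := by simp [hg]; ring
  rw [e] at this
  refine this.trans_eq ?_
  rw [div_pow, one_add_one_eq_two]
  field_simp

/-- Chain rule along a section for a separately holomorphic bounded function. -/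
lemma osgood {F : ℂ → ℂ → ℂ} {P V : Set ℂ} {M : ℝ} (hP : IsOpen P) (hV : IsOpen V)
    (h1 : ∀ ξ ∈ V, DifferentiableOn ℂ (fun w => F w ξ) P)
    (h2 : ∀ w ∈ P, DifferentiableOn ℂ (F w) V) (hb : ∀ w ∈ P, ∀ ξ ∈ V, ‖F w ξ‖ ≤ M)
    {g : ℂ → ℂ} {g' w0 : ℂ} (hw0 : w0 ∈ P) (hg : HasDerivAt g g' w0) (hgV : g w0 ∈ V) :
    HasDerivAt (fun w => F w (g w))
      (deriv (fun w => F w (g w0)) w0 + deriv (F w0) (g w0) * g') w0 := by
  obtain ⟨r, hr, hrV⟩ := Metric.isOpen_iff.mp hV _ hgV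
  obtain ⟨ρ, hρ, hρP⟩ := Metric.isOpen_iff.mp hP _ hw0
  have hM : 0 ≤ M := (norm_nonneg _).trans (hb w0 hw0 _ hgV)
  have hA : HasDerivAt (fun w => F w (g w0)) (deriv (fun w => F w (g w0)) w0) w0 :=
    ((h1 _ hgV).differentiableAt (hP.mem_nhds hw0)).hasDerivAt
  have hB : HasDerivAt (fun w => deriv (F w0) (g w0) * g w) (deriv (F w0) (g w0) * g') w0 :=
    hg.const_mul _
  have hC : HasDerivAt (fun w => F w (g w) - F w (g w0) - deriv (F w0) (g w0) * (g w - g w0))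
      0 w0 := by
    rw [hasDerivAt_iff_isLittleO]
    simp only [sub_self, mul_zero, sub_zero, smul_zero]
    have hgO : (fun w => g w - g w0) =O[𝓝 w0] (fun w => w - w0) := hg.isBigO_sub
    have ho : (fun w => ‖g w - g w0‖ + ‖w - w0‖) =o[𝓝 w0] (fun _ => (1 : ℝ)) := by
      rw [Asymptotics.isLittleO_one_iff]
      have c1 : ContinuousAt (fun w => ‖g w - g w0‖ + ‖w - w0‖) w0 := by
        have := hg.continuousAt
        fun_prop
      simpa using c1.tendsto
    have hbig : (fun w => F w (g w) - F w (g w0) - deriv (F w0) (g w0) * (g w - g w0)) =O[𝓝 w0]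
        (fun w => (‖g w - g w0‖ + ‖w - w0‖) * ‖g w - g w0‖) := by
      refine Asymptotics.IsBigO.of_bound (4 * M / r ^ 2 + 4 * M / ρ / r) ?_
      have e1 : ∀ᶠ w in 𝓝 w0, g w ∈ ball (g w0) r :=
        hg.continuousAt.eventually (ball_mem_nhds _ hr)
      filter_upwards [e1, ball_mem_nhds w0 hρ] with w hw1 hw2
      have hwP := hρP hw2
      have a1 := schwarz2 ((h2 w hwP).mono hrV) (fun z hz => hb w hwP z (hrV hz)) hw1
      have a2 : ‖deriv (F w) (g w0) - deriv (F w0) (g w0)‖ ≤ 2 * (2 * M / ρ * ‖w - w0‖) / r := by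
        have hd : DifferentiableOn ℂ (fun ξ => F w ξ - F w0 ξ) (ball (g w0) r) :=
          ((h2 w hwP).sub (h2 w0 hw0)).mono hrV
        have := cauchy1 hr hd (M := 2 * M / ρ * ‖w - w0‖) fun ξ hξ =>
          schwarz1 (f := fun w => F w ξ) ((h1 ξ (hrV hξ)).mono hρP)
            (fun z hz => hb z (hρP hz) ξ (hrV hξ)) hw2
        rwa [deriv_fun_sub ((h2 w hwP).differentiableAt (hV.mem_nhds hgV))
          ((h2 w0 hw0).differentiableAt (hV.mem_nhds hgV))] at this
      have e : F w (g w) - F w (g w0) - deriv (F w0) (g w0) * (g w - g w0) =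
          (F w (g w) - F w (g w0) - (g w - g w0) * deriv (F w) (g w0)) +
            (deriv (F w) (g w0) - deriv (F w0) (g w0)) * (g w - g w0) := by ring
      rw [e]
      refine (norm_add_le _ _).trans ?_
      rw [norm_mul, Real.norm_of_nonneg (by positivity)]
      have n1 := norm_nonneg (g w - g w0)
      have n2 := norm_nonneg (w - w0)
      have a3 : ‖deriv (F w) (g w0) - deriv (F w0) (g w0)‖ * ‖g w - g w0‖ ≤
          4 * M / ρ / r * (‖w - w0‖ * ‖g w - g w0‖) := by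
        calc _ ≤ 2 * (2 * M / ρ * ‖w - w0‖) / r * ‖g w - g w0‖ := by gcongr
          _ = _ := by field_simp; ring
      have p1 : 0 ≤ 4 * M / r ^ 2 := by positivity
      have p2 : 0 ≤ 4 * M / ρ / r := by positivity
      nlinarith [mul_nonneg p1 (mul_nonneg n1 n2), mul_nonneg p2 (mul_nonneg n1 n1)]
    have := hbig.trans_isLittleO (ho.mul_isBigO hgO.norm_norm)
    simpa using this
  refine hasDerivAt_of_eq ((hC.add hA).add (hB.sub_const (deriv (F w0) (g w0) * g w0)))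
    (fun w => ?_) (by simp)
  simp; ring

/-! ### Square roots -/

lemma sq_sqrt (z : ℂ) : Complex.sqrt z ^ 2 = z := by
  unfold Complex.sqrt
  exact_mod_cast Complex.cpow_nat_inv_pow z two_ne_zero

lemma mul_self_sqrt (z : ℂ) : Complex.sqrt z * Complex.sqrt z = z := by
  rw [← sq, sq_sqrt]

lemma re_sqrt_nonneg (z : ℂ) : 0 ≤ (Complex.sqrt z).re := by
  unfold Complex.sqrt
  rw [Complex.cpow_inv_two_re]
  positivity

lemma norm_sqrt (z : ℂ) : ‖Complex.sqrt z‖ = √‖z‖ := by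
  have h := congrArg norm (sq_sqrt z)
  rw [norm_pow] at h
  rw [← h, Real.sqrt_sq (norm_nonneg _)]

lemma sqrt_ne_zero {z : ℂ} (hz : z ≠ 0) : Complex.sqrt z ≠ 0 := by
  intro h
  have := sq_sqrt z
  rw [h] at this
  exact hz (by simpa using this.symm)

lemma norm_sqrt_sub_one (z : ℂ) : ‖Complex.sqrt z - 1‖ ≤ ‖z - 1‖ := by
  have h1 : z - 1 = (Complex.sqrt z - 1) * (Complex.sqrt z + 1) := by
    linear_combination (-1 : ℂ) * sq_sqrt z
  have h2 : 1 ≤ ‖Complex.sqrt z + 1‖ := by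
    have := Complex.re_le_norm (Complex.sqrt z + 1)
    have := re_sqrt_nonneg z
    simp only [Complex.add_re, Complex.one_re] at *
    linarith
  rw [h1, norm_mul]
  exact le_mul_of_one_le_right (norm_nonneg _) h2

lemma sqrt_ofReal {x : ℝ} (hx : 0 ≤ x) : Complex.sqrt (x : ℂ) = ((√x : ℝ) : ℂ) := by
  have := Complex.sqrt_of_nonneg (a := (x : ℂ)) (by exact_mod_cast hx)
  simpa using this

lemma sqrt_real {z : ℂ} (h : z.im = 0) (h0 : 0 ≤ z.re) :
    Complex.sqrt z = ((√z.re : ℝ) : ℂ) := by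
  have : z = (z.re : ℂ) := by apply Complex.ext <;> simp [h]
  rw [this, sqrt_ofReal h0]; simp

lemma im_sqrt {z : ℂ} (h : z.im = 0) (h0 : 0 ≤ z.re) : (Complex.sqrt z).im = 0 := by
  rw [sqrt_real h h0]; simp

/-- Two numbers in the closed and open right half plane with equal squares are equal. -/
lemma eq_of_sq_eq {a b : ℂ} (ha : 0 ≤ a.re) (hb : 0 < b.re) (h : a ^ 2 = b ^ 2) : a = b := by
  have h1 : (a - b) * (a + b) = 0 := by linear_combination h
  rcases mul_eq_zero.mp h1 with h2 | h2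
  · exact sub_eq_zero.mp h2
  · have := congrArg Complex.re h2
    simp at this
    linarith

lemma slit_of_re_pos {z : ℂ} (h : 0 < z.re) : z ∈ Complex.slitPlane := Or.inl h

lemma re_ge_of_norm_sub_one {z : ℂ} {r : ℝ} (h : ‖z - 1‖ ≤ r) : 1 - r ≤ z.re := by
  have := Complex.abs_re_le_norm (z - 1)
  simp only [Complex.sub_re, Complex.one_re] at this
  have := neg_abs_le (z.re - 1)
  linarith

lemma slit_of_norm_sub_one {z : ℂ} {r : ℝ} (h : ‖z - 1‖ ≤ r) (hr : r < 1) :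
    z ∈ Complex.slitPlane := slit_of_re_pos (by linarith [re_ge_of_norm_sub_one h])

lemma norm_ge_of_norm_sub_one {z : ℂ} {r : ℝ} (h : ‖z - 1‖ ≤ r) : 1 - r ≤ ‖z‖ :=
  (re_ge_of_norm_sub_one h).trans (Complex.re_le_norm z)

lemma norm_le_of_norm_sub_one {z : ℂ} {r : ℝ} (h : ‖z - 1‖ ≤ r) : ‖z‖ ≤ 1 + r := by
  have := norm_add_le (z - 1) 1
  simp only [sub_add_cancel, norm_one] at this
  linarith

lemma HasDerivAt.csqrt {f : ℂ → ℂ} {f' z : ℂ} (hf : HasDerivAt f f' z)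
    (hz : f z ∈ Complex.slitPlane) :
    HasDerivAt (fun w => Complex.sqrt (f w)) (f' / (2 * Complex.sqrt (f z))) z := by
  have h0 : f z ≠ 0 := Complex.slitPlane_ne_zero hz
  refine hasDerivAt_of_eq ((Complex.hasDerivAt_sqrt hz).comp z hf) (fun _ => rfl) ?_
  have h1 : f z ^ (-1 / 2 : ℂ) = (Complex.sqrt (f z))⁻¹ := by
    unfold Complex.sqrt
    rw [← Complex.cpow_neg]
    congr 1
    ring
  rw [h1]
  field_simp

lemma DifferentiableAt.csqrt {f : ℂ → ℂ} {z : ℂ} (hf : DifferentiableAt ℂ f z)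
    (hz : f z ∈ Complex.slitPlane) : DifferentiableAt ℂ (fun w => Complex.sqrt (f w)) z :=
  (Complex.differentiableAt_sqrt hz).comp z hf

lemma DifferentiableOn.csqrt {f : ℂ → ℂ} {s : Set ℂ} (hf : DifferentiableOn ℂ f s)
    (hz : ∀ z ∈ s, f z ∈ Complex.slitPlane) :
    DifferentiableOn ℂ (fun w => Complex.sqrt (f w)) s :=
  Complex.differentiableOn_sqrt.comp hf hz

lemma ContinuousOn.csqrt {X : Type*} [TopologicalSpace X] {f : X → ℂ} {s : Set X}
    (hf : ContinuousOn f s) (hz : ∀ z ∈ s, f z ∈ Complex.slitPlane) :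
    ContinuousOn (fun w => Complex.sqrt (f w)) s :=
  Complex.continuousOn_sqrt.comp hf hz

/-! ### Integrals -/

lemma ii_of_bound {F : ℝ → ℂ} {a b : ℝ} (hab : a ≤ b) {g : ℝ → ℝ}
    (hg : IntervalIntegrable g volume a b) (hc : ContinuousOn F (Ioo a b))
    (hb : ∀ r ∈ Ioo a b, ‖F r‖ ≤ g r) : IntervalIntegrable F volume a b := by
  rw [intervalIntegrable_iff_integrableOn_Ioo_of_le hab] at hg ⊢
  refine Integrable.mono' hg (hc.aestronglyMeasurable measurableSet_Ioo) ?_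
  filter_upwards [ae_restrict_mem measurableSet_Ioo] with r hr using hb r hr

lemma norm_int_le {F : ℝ → ℂ} {a b : ℝ} (hab : a ≤ b) {g : ℝ → ℝ}
    (hg : IntervalIntegrable g volume a b) (hb : ∀ r ∈ Ioo a b, ‖F r‖ ≤ g r) :
    ‖∫ r in a..b, F r‖ ≤ ∫ r in a..b, g r := by
  rw [intervalIntegral.integral_of_le hab, intervalIntegral.integral_of_le hab,
    integral_Ioc_eq_integral_Ioo, integral_Ioc_eq_integral_Ioo]
  rw [intervalIntegrable_iff_integrableOn_Ioo_of_le hab] at hg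
  refine norm_integral_le_of_norm_le hg ?_
  filter_upwards [ae_restrict_mem measurableSet_Ioo] with r hr using hb r hr

lemma int_congr_Ioo {E : Type*} [NormedAddCommGroup E] [NormedSpace ℝ E] {F G : ℝ → E} {a b : ℝ}
    (hab : a ≤ b) (h : ∀ r ∈ Ioo a b, F r = G r) : ∫ r in a..b, F r = ∫ r in a..b, G r := by
  rw [intervalIntegral.integral_of_le hab, intervalIntegral.integral_of_le hab,
    integral_Ioc_eq_integral_Ioo, integral_Ioc_eq_integral_Ioo]
  exact setIntegral_congr_fun measurableSet_Ioo h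

lemma ii_congr_Ioo {E : Type*} [NormedAddCommGroup E] {F G : ℝ → E} {a b : ℝ}
    (hab : a ≤ b) (h : ∀ r ∈ Ioo a b, F r = G r) (hF : IntervalIntegrable F volume a b) :
    IntervalIntegrable G volume a b := by
  rw [intervalIntegrable_iff_integrableOn_Ioo_of_le hab] at hF ⊢
  exact hF.congr_fun h measurableSet_Ioo

lemma norm_int_le_const {F : ℝ → ℂ} {C : ℝ} (hb : ∀ r ∈ Ioo (0 : ℝ) 1, ‖F r‖ ≤ C) :
    ‖∫ r in (0 : ℝ)..1, F r‖ ≤ C := by
  have := norm_int_le zero_le_one (g := fun _ => C) intervalIntegrable_const hb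
  simpa using this

lemma ii_of_bound_const {F : ℝ → ℂ} {C : ℝ} (hc : ContinuousOn F (Ioo 0 1))
    (hb : ∀ r ∈ Ioo (0 : ℝ) 1, ‖F r‖ ≤ C) : IntervalIntegrable F volume 0 1 :=
  ii_of_bound zero_le_one (g := fun _ => C) intervalIntegrable_const hc hb

lemma hasDerivAt_neg_two_sqrt {r : ℝ} (hr : r < 1) :
    HasDerivAt (fun r : ℝ => -2 * √(1 - r)) ((√(1 - r))⁻¹) r := by
  have h0 : 0 < 1 - r := by linarith
  have h := ((Real.hasDerivAt_sqrt h0.ne').comp r ((hasDerivAt_id r).const_sub 1)).const_mul (-2)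
  refine hasDerivAt_of_eq h (fun _ => rfl) ?_
  have := Real.sqrt_pos.mpr h0
  field_simp

lemma ii_inv_sqrt : IntervalIntegrable (fun r : ℝ => (√(1 - r))⁻¹) volume 0 1 := by
  refine intervalIntegral.intervalIntegrable_deriv_of_nonneg
    (g := fun r : ℝ => -2 * √(1 - r)) (by fun_prop) ?_ ?_
  · intro r hr
    rw [min_eq_left zero_le_one, max_eq_right zero_le_one] at hr
    exact hasDerivAt_neg_two_sqrt hr.2
  · intro r _; positivity

lemma int_inv_sqrt : ∫ r in (0 : ℝ)..1, (√(1 - r))⁻¹ = 2 := by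
  have := intervalIntegral.integral_eq_sub_of_hasDerivAt_of_le zero_le_one
    (f := fun r : ℝ => -2 * √(1 - r)) (by fun_prop)
    (fun r hr => hasDerivAt_neg_two_sqrt hr.2) ii_inv_sqrt
  simpa using this

lemma norm_int_le_sing {F : ℝ → ℂ} {C : ℝ}
    (hb : ∀ r ∈ Ioo (0 : ℝ) 1, ‖F r‖ ≤ C * (√(1 - r))⁻¹) :
    ‖∫ r in (0 : ℝ)..1, F r‖ ≤ 2 * C := by
  have := norm_int_le zero_le_one (ii_inv_sqrt.const_mul C) hb
  rw [intervalIntegral.integral_const_mul, int_inv_sqrt] at this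
  linarith

lemma ii_of_bound_sing {F : ℝ → ℂ} {C : ℝ} (hc : ContinuousOn F (Ioo 0 1))
    (hb : ∀ r ∈ Ioo (0 : ℝ) 1, ‖F r‖ ≤ C * (√(1 - r))⁻¹) : IntervalIntegrable F volume 0 1 :=
  ii_of_bound zero_le_one (ii_inv_sqrt.const_mul C) hc hb

/-- Differentiation of a holomorphic parametric integral. -/
lemma hol_int_deriv {F : ℂ → ℝ → ℂ} {P : Set ℂ} {a b : ℝ} (hab : a ≤ b) (hP : IsOpen P)
    {g : ℝ → ℝ} (hg : IntervalIntegrable g volume a b)
    (hc : ∀ w ∈ P, ContinuousOn (F w) (Ioo a b))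
    (hd : ∀ r ∈ Ioo a b, DifferentiableOn ℂ (fun w => F w r) P)
    (hb : ∀ w ∈ P, ∀ r ∈ Ioo a b, ‖F w r‖ ≤ g r) {w0 : ℂ} (hw0 : w0 ∈ P) :
    IntervalIntegrable (fun r => deriv (fun w => F w r) w0) volume a b ∧
    HasDerivAt (fun w => ∫ r in a..b, F w r) (∫ r in a..b, deriv (fun w => F w r) w0) w0 := by
  obtain ⟨ε, hε, hball⟩ := Metric.isOpen_iff.mp hP w0 hw0
  have hsub : ∀ w ∈ ball w0 (ε / 2), ball w (ε / 2) ⊆ P := by
    intro w hw z hz
    apply hball
    rw [mem_ball] at *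
    linarith [dist_triangle z w w0]
  have hg' := (intervalIntegrable_iff_integrableOn_Ioo_of_le hab).mp hg
  have hm : ∀ w ∈ P, AEStronglyMeasurable (F w) (volume.restrict (Ioo a b)) :=
    fun w hw => (hc w hw).aestronglyMeasurable measurableSet_Ioo
  have hm' : ∀ᶠ w in 𝓝 w0, AEStronglyMeasurable (F w) (volume.restrict (Ioo a b)) :=
    mem_of_superset (hP.mem_nhds hw0) hm
  have hae := ae_restrict_mem (μ := volume) (measurableSet_Ioo (a := a) (b := b))
  have key := hasDerivAt_integral_of_dominated_loc_of_deriv_le (μ := volume.restrict (Ioo a b))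
    (F := F) (x₀ := w0) (F' := fun w r => deriv (fun z => F z r) w)
    (bound := fun r => 2 * g r / (ε / 2)) (ball_mem_nhds w0 (half_pos hε)) hm'
    (Integrable.mono' hg' (hm w0 hw0) (hae.mono fun r hr => hb w0 hw0 r hr))
    (Pool.Agent.Shared.HoloIntegral.aesm_deriv hm' (hae.mono fun r hr =>
      ((hd r hr).differentiableAt (hP.mem_nhds hw0)).hasDerivAt))
    (hae.mono fun r hr w hw =>
      cauchy1 (half_pos hε) ((hd r hr).mono (hsub w hw)) fun z hz => hb z (hsub w hw hz) r hr)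
    ((hg'.const_mul 2).div_const _)
    (hae.mono fun r hr w hw =>
      ((hd r hr).differentiableAt
        (hP.mem_nhds (hsub w hw (mem_ball_self (half_pos hε))))).hasDerivAt)
  refine ⟨(intervalIntegrable_iff_integrableOn_Ioo_of_le hab).mpr key.1, ?_⟩
  simp only [intervalIntegral.integral_of_le hab, integral_Ioc_eq_integral_Ioo]
  exact key.2

lemma hol_int {F : ℂ → ℝ → ℂ} {P : Set ℂ} {a b : ℝ} (hab : a ≤ b) (hP : IsOpen P)
    {g : ℝ → ℝ} (hg : IntervalIntegrable g volume a b)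
    (hc : ∀ w ∈ P, ContinuousOn (F w) (Ioo a b))
    (hd : ∀ r ∈ Ioo a b, DifferentiableOn ℂ (fun w => F w r) P)
    (hb : ∀ w ∈ P, ∀ r ∈ Ioo a b, ‖F w r‖ ≤ g r) :
    DifferentiableOn ℂ (fun w => ∫ r in a..b, F w r) P := fun _ hw =>
  (hol_int_deriv hab hP hg hc hd hb hw).2.differentiableAt.differentiableWithinAt

/-! ### Real values -/

lemma eq_ofReal_re {z : ℂ} (h : z.im = 0) : z = (z.re : ℂ) := by
  apply Complex.ext <;> simp [h]

lemma int_eq_ofReal {F : ℝ → ℂ} {a b : ℝ} (hab : a ≤ b) (h : ∀ r ∈ Ioo a b, (F r).im = 0) :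
    ∫ r in a..b, F r = ((∫ r in a..b, (F r).re : ℝ) : ℂ) := by
  rw [← intervalIntegral.integral_ofReal]
  exact int_congr_Ioo hab fun r hr => eq_ofReal_re (h r hr)

lemma im_int {F : ℝ → ℂ} {a b : ℝ} (hab : a ≤ b) (h : ∀ r ∈ Ioo a b, (F r).im = 0) :
    (∫ r in a..b, F r).im = 0 := by
  rw [int_eq_ofReal hab h]; simp

lemma hasDerivAt_re {f : ℂ → ℂ} {f' : ℂ} {x : ℝ} (hf : HasDerivAt f f' x) :
    HasDerivAt (fun r : ℝ => (f r).re) f'.re x := by
  have := hf.real_of_complex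
  simpa using this

lemma im_deriv {f : ℂ → ℂ} {V : Set ℂ} (hV : IsOpen V) (hf : DifferentiableOn ℂ f V)
    (hr : ∀ z ∈ V, z.im = 0 → (f z).im = 0) {z : ℂ} (hz : z ∈ V) (hzi : z.im = 0) :
    (deriv f z).im = 0 := by
  have hz' := eq_ofReal_re hzi
  have h1 : HasDerivAt f (deriv f z) ((z.re : ℝ) : ℂ) := by
    rw [← hz']; exact (hf.differentiableAt (hV.mem_nhds hz)).hasDerivAt
  have h2 : HasDerivAt (fun w => -Complex.I * f w) (-Complex.I * deriv f z) ((z.re : ℝ) : ℂ) :=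
    h1.const_mul _
  have h3 := hasDerivAt_re h2
  have h4 : (fun r : ℝ => (-Complex.I * f r).re) =ᶠ[𝓝 z.re] fun _ => 0 := by
    have : ∀ᶠ r : ℝ in 𝓝 z.re, (r : ℂ) ∈ V :=
      Complex.continuous_ofReal.continuousAt.eventually (hV.mem_nhds (by rwa [← hz']))
    filter_upwards [this] with r hr'
    simpa using hr r hr' (by simp)
  have h5 := (hasDerivAt_const z.re (0 : ℝ)).congr_of_eventuallyEq h4
  have := h3.unique h5
  simpa using this

lemma eq_zero_of_real {f : ℂ → ℂ} {V : Set ℂ} (hV : IsOpen V) (hc : Convex ℝ V)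
    (hf : DifferentiableOn ℂ f V) {a b : ℝ} (hab : a < b)
    (h : ∀ r ∈ Ioo a b, (r : ℂ) ∈ V ∧ f r = 0) {z : ℂ} (hz : z ∈ V) : f z = 0 := by
  set x0 : ℝ := (a + b) / 2
  have hx0 : x0 ∈ Ioo a b := ⟨by simp only [x0]; linarith, by simp only [x0]; linarith⟩
  have hfr : ∃ᶠ w in 𝓝[≠] (x0 : ℂ), f w = (fun _ => (0 : ℂ)) w := by
    have ht : Tendsto (fun t : ℝ => (t : ℂ)) (𝓝[≠] x0) (𝓝[≠] (x0 : ℂ)) := by
      refine tendsto_nhdsWithin_iff.mpr ⟨?_, ?_⟩
      · exact (Complex.continuous_ofReal.tendsto x0).mono_left nhdsWithin_le_nhds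
      · filter_upwards [self_mem_nhdsWithin] with t ht
        simpa using ht
    refine ht.frequently (Eventually.frequently ?_)
    filter_upwards [mem_nhdsWithin_of_mem_nhds (Ioo_mem_nhds hx0.1 hx0.2)] with t ht
    exact (h t ht).2
  exact (hf.analyticOnNhd hV).eqOn_of_preconnected_of_frequently_eq
    (analyticOnNhd_const (v := (0 : ℂ))) hc.isPreconnected (h x0 hx0).1 hfr hz

end

end Pool.Agent.Lib.MP_87c84d_gt
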