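import Pool.Agent.Lib.MP_87c84d_gt.Tools

/-!
A scalar implicit function lemma, the triangles `U s`, and a Neumann series lemma.
-/

namespace Pool.Agent.Lib.MP_87c84d_gt

open MeasureTheory Set Metric Filter Topology

noncomputable section

/-! ### Fixed points of small holomorphic maps of the disc -/

open Classical in
/-- The fixed point of `B` in the disc of radius `1/2`. -/
def root (B : ℂ → ℂ) : ℂ := if h : ∃ e, ‖e‖ ≤ 1 / 2 ∧ B e = e then h.choose else 0

lemma root_lip {B : ℂ → ℂ} (hB : DifferentiableOn ℂ B (ball 0 1))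
    (hb : ∀ e ∈ ball (0 : ℂ) 1, ‖B e‖ ≤ 1 / 8) {x y : ℂ} (hx : ‖x‖ ≤ 1 / 2) (hy : ‖y‖ ≤ 1 / 2) :
    ‖B x - B y‖ ≤ 1 / 2 * ‖x - y‖ := by
  have hsub : ∀ z ∈ closedBall (0 : ℂ) (1 / 2), ball z (1 / 2) ⊆ ball 0 1 := by
    intro z hz w hw
    rw [mem_closedBall] at hz
    rw [mem_ball] at *
    linarith [dist_triangle w z 0]
  refine (convex_closedBall (0 : ℂ) (1 / 2)).norm_image_sub_le_of_norm_deriv_le
    (fun z hz => hB.differentiableAt (isOpen_ball.mem_nhds
      (hsub z hz (mem_ball_self (by norm_num))))) (fun z hz => ?_) (by simpa using hy)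
    (by simpa using hx)
  have := cauchy1 (by norm_num) (hB.mono (hsub z hz)) fun w hw => hb w (hsub z hz hw)
  linarith

lemma mem_ball_of_half {x : ℂ} (hx : ‖x‖ ≤ 1 / 2) : x ∈ ball (0 : ℂ) 1 := by
  rw [mem_ball_zero_iff]; linarith

lemma iter_bound {B : ℂ → ℂ} (hb : ∀ e ∈ ball (0 : ℂ) 1, ‖B e‖ ≤ 1 / 8) (n : ℕ) :
    ‖B^[n] 0‖ ≤ 1 / 2 := by
  induction n with
  | zero => simp
  | succ n ih =>
    rw [Function.iterate_succ_apply']
    linarith [hb _ (mem_ball_of_half ih)]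

lemma root_exists {B : ℂ → ℂ} (hB : DifferentiableOn ℂ B (ball 0 1))
    (hb : ∀ e ∈ ball (0 : ℂ) 1, ‖B e‖ ≤ 1 / 8) : ∃ e, ‖e‖ ≤ 1 / 2 ∧ B e = e := by
  have hstep : ∀ n, dist (B^[n] 0) (B^[n + 1] 0) ≤ 1 * (1 / 2) ^ n := by
    intro n
    induction n with
    | zero =>
      have := hb 0 (by simp)
      simp only [Function.iterate_zero, id_eq, zero_add, Function.iterate_one, dist_zero_left]
      linarith
    | succ n ih =>
      have := root_lip hB hb (iter_bound hb n) (iter_bound hb (n + 1))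
      rw [← Function.iterate_succ_apply' B, ← Function.iterate_succ_apply' B, ← dist_eq_norm,
        ← dist_eq_norm] at this
      refine this.trans ?_
      rw [pow_succ]
      linarith
  obtain ⟨e, he⟩ := cauchySeq_tendsto_of_complete
    (cauchySeq_of_le_geometric (1 / 2) 1 (by norm_num) hstep)
  have hle : ‖e‖ ≤ 1 / 2 := le_of_tendsto' he.norm (iter_bound hb)
  refine ⟨e, hle, ?_⟩
  have hc : ContinuousAt B e :=
    (hB.differentiableAt (isOpen_ball.mem_nhds (mem_ball_of_half hle))).continuousAt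
  have h1 : Tendsto (fun n => B^[n + 1] 0) atTop (𝓝 (B e)) := by
    simp only [Function.iterate_succ_apply']
    exact hc.tendsto.comp he
  exact tendsto_nhds_unique h1 (he.comp (tendsto_add_atTop_nat 1))

lemma root_spec {B : ℂ → ℂ} (hB : DifferentiableOn ℂ B (ball 0 1))
    (hb : ∀ e ∈ ball (0 : ℂ) 1, ‖B e‖ ≤ 1 / 8) : ‖root B‖ ≤ 1 / 8 ∧ B (root B) = root B := by
  have h := root_exists hB hb
  have h1 : ‖root B‖ ≤ 1 / 2 ∧ B (root B) = root B := by
    rw [root, dif_pos h]; exact h.choose_spec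
  exact ⟨h1.2 ▸ hb _ (mem_ball_of_half h1.1), h1.2⟩

lemma root_unique {B : ℂ → ℂ} (hB : DifferentiableOn ℂ B (ball 0 1))
    (hb : ∀ e ∈ ball (0 : ℂ) 1, ‖B e‖ ≤ 1 / 8) {e : ℂ} (he : ‖e‖ ≤ 1 / 2) (h : B e = e) :
    root B = e := by
  obtain ⟨h1, h2⟩ := root_spec hB hb
  have := root_lip hB hb (x := root B) (by linarith) he
  rw [h, h2] at this
  have h0 : ‖root B - e‖ = 0 := by linarith [norm_nonneg (root B - e)]
  exact sub_eq_zero.mp (norm_eq_zero.mp h0)

lemma root_iter {B : ℂ → ℂ} (hB : DifferentiableOn ℂ B (ball 0 1))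
    (hb : ∀ e ∈ ball (0 : ℂ) 1, ‖B e‖ ≤ 1 / 8) (n : ℕ) : ‖B^[n] 0 - root B‖ ≤ (1 / 2) ^ n := by
  obtain ⟨h1, h2⟩ := root_spec hB hb
  induction n with
  | zero => simp only [Function.iterate_zero, id_eq, zero_sub, norm_neg, pow_zero]; linarith
  | succ n ih =>
    have := root_lip hB hb (iter_bound hb n) (y := root B) (by linarith)
    rw [h2, ← Function.iterate_succ_apply' B] at this
    refine this.trans ?_
    rw [pow_succ]
    linarith

lemma root_real {B : ℂ → ℂ} (hB : DifferentiableOn ℂ B (ball 0 1))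
    (hb : ∀ e ∈ ball (0 : ℂ) 1, ‖B e‖ ≤ 1 / 8)
    (hr : ∀ e ∈ ball (0 : ℂ) 1, e.im = 0 → (B e).im = 0) : (root B).im = 0 := by
  have h1 : ∀ n, (B^[n] 0).im = 0 := by
    intro n
    induction n with
    | zero => simp
    | succ n ih =>
      rw [Function.iterate_succ_apply']
      exact hr _ (mem_ball_of_half (iter_bound hb n)) ih
  have h2 : Tendsto (fun n => B^[n] 0) atTop (𝓝 (root B)) := by
    rw [tendsto_iff_norm_sub_tendsto_zero]
    exact squeeze_zero (fun _ => norm_nonneg _) (root_iter hB hb)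
      (tendsto_pow_atTop_nhds_zero_of_lt_one (by norm_num) (by norm_num))
  have h3 := (Complex.continuous_im.tendsto _).comp h2
  simp only [Function.comp_def, h1] at h3
  exact (tendsto_nhds_unique tendsto_const_nhds h3).symm

lemma root_hol {B : ℂ → ℂ → ℂ} {P : Set ℂ} (hP : IsOpen P)
    (hB : ∀ w ∈ P, DifferentiableOn ℂ (B w) (ball 0 1))
    (hb : ∀ w ∈ P, ∀ e ∈ ball (0 : ℂ) 1, ‖B w e‖ ≤ 1 / 8)
    (hw : ∀ e ∈ ball (0 : ℂ) 1, DifferentiableOn ℂ (fun w => B w e) P) :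
    DifferentiableOn ℂ (fun w => root (B w)) P := by
  have h1 : ∀ n, DifferentiableOn ℂ (fun w => (B w)^[n] 0) P := by
    intro n
    induction n with
    | zero => simp
    | succ n ih =>
      intro w hw0
      simp only [Function.iterate_succ_apply']
      exact (osgood hP isOpen_ball hw hB hb hw0
        (ih.differentiableAt (hP.mem_nhds hw0)).hasDerivAt
        (mem_ball_of_half (iter_bound (hb w hw0) n))).differentiableAt.differentiableWithinAt
  have h2 : TendstoUniformlyOn (fun n w => (B w)^[n] 0) (fun w => root (B w)) atTop P := by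
    rw [Metric.tendstoUniformlyOn_iff]
    intro ε hε
    filter_upwards [(tendsto_pow_atTop_nhds_zero_of_lt_one (r := (1 / 2 : ℝ)) (by norm_num)
      (by norm_num)).eventually (gt_mem_nhds hε)] with n hn w hw0
    rw [dist_comm, dist_eq_norm]
    exact (root_iter (hB w hw0) (hb w hw0) n).trans_lt hn
  exact h2.tendstoLocallyUniformlyOn.differentiableOn (Eventually.of_forall h1) hP

/-! ### The triangles -/

/-- The open triangle with vertex `0`, aperture `s`, containing the segment `(0, 1]`. -/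
def U (s : ℝ) : Set ℂ := {x | |x.im| < s * x.re ∧ x.re < 1 + s}

lemma isOpen_U (s : ℝ) : IsOpen (U s) :=
  (isOpen_lt (f := fun x : ℂ => |x.im|) (g := fun x : ℂ => s * x.re) (by fun_prop)
    (by fun_prop)).inter
    (isOpen_lt (f := fun x : ℂ => x.re) (g := fun _ : ℂ => 1 + s) (by fun_prop) (by fun_prop))

lemma U.re_pos {s : ℝ} {x : ℂ} (hs : 0 ≤ s) (hx : x ∈ U s) : 0 < x.re := by
  have h1 := hx.1
  have h2 := abs_nonneg x.im
  by_contra h
  push Not at h
  nlinarith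

lemma U.ne_zero {s : ℝ} {x : ℂ} (hx : x ∈ U s) : x ≠ 0 := by
  rintro rfl
  simpa using hx.1

lemma U.norm_pos {s : ℝ} {x : ℂ} (hx : x ∈ U s) : 0 < ‖x‖ := norm_pos_iff.mpr (U.ne_zero hx)

lemma U.slit {s : ℝ} {x : ℂ} (hs : 0 ≤ s) (hx : x ∈ U s) : x ∈ Complex.slitPlane :=
  Or.inl (U.re_pos hs hx)

lemma convex_U (s : ℝ) : Convex ℝ (U s) := by
  intro x hx y hy a b ha hb hab
  obtain ⟨hx1, hx2⟩ := hx
  obtain ⟨hy1, hy2⟩ := hy
  rw [abs_lt] at hx1 hy1
  have hab' : 0 < a ∨ 0 < b := by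
    by_contra h
    push Not at h
    linarith [h.1, h.2]
  have key : ∀ p q : ℝ, 0 < p → 0 < q → 0 < a * p + b * q := by
    intro p q hp hq
    rcases hab' with h | h
    · nlinarith [mul_pos h hp, mul_nonneg hb hq.le]
    · nlinarith [mul_pos h hq, mul_nonneg ha hp.le]
  constructor
  · simp only [Complex.add_im, Complex.add_re, Complex.real_smul, Complex.mul_re, Complex.mul_im,
      Complex.ofReal_re, Complex.ofReal_im, zero_mul, sub_zero, add_zero]
    rw [abs_lt]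
    constructor
    · nlinarith [key (s * x.re + x.im) (s * y.re + y.im) (by linarith) (by linarith)]
    · nlinarith [key (s * x.re - x.im) (s * y.re - y.im) (by linarith) (by linarith)]
  · simp only [Complex.add_re, Complex.real_smul, Complex.mul_re,
      Complex.ofReal_re, Complex.ofReal_im, zero_mul, sub_zero]
    have := key (1 + s - x.re) (1 + s - y.re) (by linarith) (by linarith)
    have h2 : (a + b) * (1 + s) = 1 + s := by rw [hab, one_mul]
    nlinarith

lemma U.star {s : ℝ} {x : ℂ} (hs : 0 ≤ s) (hx : x ∈ U s) {r : ℝ} (hr : r ∈ Ioc (0 : ℝ) 1) :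
    (r : ℂ) * x ∈ U s := by
  have h0 := U.re_pos hs hx
  constructor
  · simp only [Complex.mul_im, Complex.mul_re, Complex.ofReal_re, Complex.ofReal_im, zero_mul,
      sub_zero, add_zero]
    rw [abs_mul, abs_of_pos hr.1]
    nlinarith [mul_lt_mul_of_pos_left hx.1 hr.1]
  · simp only [Complex.mul_re, Complex.ofReal_re, Complex.ofReal_im, zero_mul, sub_zero]
    nlinarith [hx.2, hr.1, hr.2]

lemma U.mono {s s' : ℝ} (hs : 0 ≤ s') (h : s' ≤ s) : U s' ⊆ U s := by
  intro x hx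
  have h0 := U.re_pos hs hx
  exact ⟨hx.1.trans_le (by nlinarith), by linarith [hx.2]⟩

lemma U.norm_le_re {s : ℝ} {x : ℂ} (hs : 0 ≤ s) (hs' : s ≤ 1 / 4) (hx : x ∈ U s) :
    ‖x‖ ≤ 104 / 100 * x.re := by
  have h0 := U.re_pos hs hx
  have h1 : |x.im| ≤ x.re / 4 := by nlinarith [hx.1]
  have h2 : x.im ^ 2 ≤ (x.re / 4) ^ 2 := by
    rw [← sq_abs]; exact pow_le_pow_left₀ (abs_nonneg _) h1 2
  refine abs_le_of_sq_le_sq' ?_ (by positivity) |>.2
  rw [Complex.sq_norm, Complex.normSq_apply]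
  nlinarith

lemma U.norm_lt {s : ℝ} {x : ℂ} (hs : 0 ≤ s) (hs' : s ≤ 1 / 4) (hx : x ∈ U s) :
    ‖x‖ < 13 / 10 := by
  linarith [U.norm_le_re hs hs' hx, hx.2]

lemma U.norm_one_sub_le {s : ℝ} {x : ℂ} (hs : 0 ≤ s) (hs' : s ≤ 1 / 4) (hx : x ∈ U s) :
    ‖1 - x‖ ≤ 1 := by
  have h0 := U.re_pos hs hx
  have h1 : |x.im| ≤ x.re / 4 := by nlinarith [hx.1]
  have h2 : x.im ^ 2 ≤ (x.re / 4) ^ 2 := by
    rw [← sq_abs]; exact pow_le_pow_left₀ (abs_nonneg _) h1 2
  refine abs_le_of_sq_le_sq' ?_ (by positivity) |>.2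
  rw [Complex.sq_norm, Complex.normSq_apply]
  simp only [Complex.sub_re, Complex.one_re, Complex.sub_im, Complex.one_im]
  nlinarith [hx.2]

/-- Margin between two triangles. -/
lemma U.margin {s s' : ℝ} {x y : ℂ} (hs : 0 ≤ s') (h : s' < s) (hs' : s ≤ 1 / 4) (hx : x ∈ U s')
    (hy : ‖y - x‖ ≤ (s - s') * ‖x‖ / 2) : y ∈ U s := by
  have h0 := U.re_pos hs hx
  have h1 := U.norm_le_re hs (by linarith) hx
  have h2 := U.norm_lt hs (by linarith) hx
  have hd : 0 < s - s' := by linarith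
  have h3 : ‖y - x‖ ≤ (s - s') * (52 / 100 * x.re) := by nlinarith
  have h4 := Complex.abs_re_le_norm (y - x)
  have h5 := Complex.abs_im_le_norm (y - x)
  simp only [Complex.sub_re, Complex.sub_im] at h4 h5
  have h6 : |y.im| ≤ |x.im| + |y.im - x.im| := by
    have := abs_add_le x.im (y.im - x.im)
    simpa using this
  have h7 := neg_abs_le (y.re - x.re)
  have h8 := le_abs_self (y.re - x.re)
  constructor
  · have a1 : s * x.re - s * ‖y - x‖ ≤ s * y.re := by nlinarith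
    have a2 : s * ‖y - x‖ ≤ 1 / 4 * ‖y - x‖ := by gcongr
    have a3 := hx.1
    nlinarith [mul_pos hd h0]
  · nlinarith [hx.2]

lemma U.ball_subset {s s' : ℝ} {x : ℂ} (hs : 0 ≤ s') (h : s' < s) (hs' : s ≤ 1 / 4)
    (hx : x ∈ U s') : ball x ((s - s') * ‖x‖ / 2) ⊆ U s := fun _ hy =>
  U.margin hs h hs' hx (by rw [mem_ball, dist_eq_norm] at hy; exact hy.le)

/-- Every point of a triangle lies in a smaller one. -/
lemma U.exists_lt {s s0 : ℝ} {x : ℂ} (hs0 : 0 ≤ s0) (h : s0 < s) (hx : x ∈ U s) :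
    ∃ s', s0 ≤ s' ∧ s' < s ∧ x ∈ U s' := by
  have h0 := U.re_pos (by linarith) hx
  have h1 : |x.im| / x.re < s := by rw [div_lt_iff₀ h0]; exact hx.1
  have h2 : x.re - 1 < s := by linarith [hx.2]
  obtain ⟨s', hs1, hs2⟩ := exists_between (max_lt (max_lt h1 h2) h)
  rw [max_lt_iff, max_lt_iff] at hs1
  refine ⟨s', hs1.2.le, hs2, ?_, by linarith [hs1.1.2]⟩
  have := hs1.1.1
  rwa [div_lt_iff₀ h0] at this

lemma U.ofReal_mem {s r : ℝ} (hs : 0 < s) (hr : r ∈ Ioc (0 : ℝ) 1) : (r : ℂ) ∈ U s := by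
  constructor
  · simpa using mul_pos hs hr.1
  · simp only [Complex.ofReal_re]; linarith [hr.2]

lemma U.one_mem {s : ℝ} (hs : 0 < s) : (1 : ℂ) ∈ U s := by
  simpa using U.ofReal_mem hs (r := 1) ⟨one_pos, le_rfl⟩

lemma U.ball_one {s : ℝ} (hs : 0 < s) (hs' : s ≤ 1 / 4) : ball (1 : ℂ) (s / 2) ⊆ U s := by
  intro y hy
  rw [mem_ball, dist_eq_norm] at hy
  have h4 := Complex.abs_re_le_norm (y - 1)
  have h5 := Complex.abs_im_le_norm (y - 1)
  simp only [Complex.sub_re, Complex.sub_im, Complex.one_re, Complex.one_im, sub_zero] at h4 h5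
  have h7 := neg_abs_le (y.re - 1)
  have h8 := le_abs_self (y.re - 1)
  constructor
  · nlinarith
  · linarith

/-- Weighted Cauchy estimate. -/
lemma U.deriv_le {s s' A : ℝ} {n : ℕ} {f : ℂ → ℂ} (hs : 0 ≤ s') (h : s' < s) (hs' : s ≤ 1 / 4)
    (hf : DifferentiableOn ℂ f (U s)) (hb : ∀ y ∈ U s, ‖f y‖ ≤ A * ‖y‖ ^ (n + 1)) {x : ℂ}
    (hx : x ∈ U s') : ‖deriv f x‖ ≤ 4 * (9 / 8) ^ (n + 1) * A / (s - s') * ‖x‖ ^ n := by
  have hx0 := U.norm_pos hx
  have hd : 0 < s - s' := by linarith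
  have hA : 0 ≤ A := by
    have := (norm_nonneg _).trans (hb x (U.mono hs h.le hx))
    exact nonneg_of_mul_nonneg_left this (by positivity)
  have hsub := U.ball_subset hs h hs' hx
  have := cauchy1 (by positivity) (hf.mono hsub) (M := A * (9 / 8 * ‖x‖) ^ (n + 1)) fun y hy => by
    refine (hb y (hsub hy)).trans ?_
    rw [mem_ball, dist_eq_norm] at hy
    have h1 : ‖y‖ ≤ ‖x‖ + ‖y - x‖ := by simpa using norm_add_le x (y - x)
    have h2 : ‖y‖ ≤ 9 / 8 * ‖x‖ := by nlinarith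
    gcongr
  refine this.trans_eq ?_
  rw [mul_pow]
  field_simp
  ring

/-! ### Neumann series in a weighted space of holomorphic functions -/

/-- Holomorphic on `V`, real at real points, bounded by `A` times the weight. -/
structure Cls (V : Set ℂ) (ω : ℂ → ℝ) (f : ℂ → ℂ) (A : ℝ) : Prop where
  hol : DifferentiableOn ℂ f V
  real : ∀ z ∈ V, z.im = 0 → (f z).im = 0
  bd : ∀ z ∈ V, ‖f z‖ ≤ A * ω z

lemma Cls.add {V : Set ℂ} {ω : ℂ → ℝ} {f g : ℂ → ℂ} {A B : ℝ} (hf : Cls V ω f A)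
    (hg : Cls V ω g B) : Cls V ω (f + g) (A + B) :=
  ⟨hf.hol.add hg.hol, fun z hz h => by simp [hf.real z hz h, hg.real z hz h], fun z hz =>
    (norm_add_le _ _).trans (by linarith [hf.bd z hz, hg.bd z hz])⟩

lemma Cls.sub {V : Set ℂ} {ω : ℂ → ℝ} {f g : ℂ → ℂ} {A B : ℝ} (hf : Cls V ω f A)
    (hg : Cls V ω g B) : Cls V ω (f - g) (A + B) :=
  ⟨hf.hol.sub hg.hol, fun z hz h => by simp [hf.real z hz h, hg.real z hz h], fun z hz =>
    (norm_sub_le _ _).trans (by linarith [hf.bd z hz, hg.bd z hz])⟩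

lemma Cls.congr {V : Set ℂ} {ω : ℂ → ℝ} {f g : ℂ → ℂ} {A : ℝ} (hf : Cls V ω f A)
    (h : ∀ z ∈ V, g z = f z) : Cls V ω g A :=
  ⟨hf.hol.congr h, fun z hz hi => h z hz ▸ hf.real z hz hi, fun z hz => h z hz ▸ hf.bd z hz⟩

lemma Cls.mono {V : Set ℂ} {ω : ℂ → ℝ} {f : ℂ → ℂ} {A B : ℝ} (hf : Cls V ω f A)
    (hω : ∀ z ∈ V, 0 ≤ ω z) (h : A ≤ B) : Cls V ω f B :=
  ⟨hf.hol, hf.real, fun z hz => (hf.bd z hz).trans (mul_le_mul_of_nonneg_right h (hω z hz))⟩

lemma Cls.tsum {V : Set ℂ} (hV : IsOpen V) {ω : ℂ → ℝ} {W : ℝ} (hω : ∀ z ∈ V, 0 ≤ ω z ∧ ω z ≤ W)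
    {d : ℕ → ℂ → ℂ} {A : ℕ → ℝ} (hA0 : ∀ n, 0 ≤ A n) (hA : Summable A)
    (hd : ∀ n, Cls V ω (d n) (A n)) :
    (∀ z ∈ V, Summable fun n => d n z) ∧ Cls V ω (fun z => ∑' n, d n z) (∑' n, A n) := by
  have hsn : ∀ z ∈ V, Summable fun n => ‖d n z‖ := fun z hz =>
    Summable.of_nonneg_of_le (fun _ => norm_nonneg _) (fun n => (hd n).bd z hz) (hA.mul_right _)
  have hs : ∀ z ∈ V, Summable fun n => d n z := fun z hz => (hsn z hz).of_norm
  refine ⟨hs, ?_, fun z hz hi => ?_, fun z hz => ?_⟩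
  · exact Complex.differentiableOn_tsum_of_summable_norm (hA.mul_right W) (fun n => (hd n).hol) hV
      fun n z hz => ((hd n).bd z hz).trans (mul_le_mul_of_nonneg_left (hω z hz).2 (hA0 n))
  · rw [Complex.im_tsum (hs z hz)]
    simp [fun n => (hd n).real z hz hi]
  · refine (norm_tsum_le_tsum_norm (hsn z hz)).trans ?_
    rw [← tsum_mul_right]
    exact (hsn z hz).tsum_le_tsum (fun n => (hd n).bd z hz) (hA.mul_right _)

lemma neumann {V : Set ℂ} (hV : IsOpen V) {ω : ℂ → ℝ} {W : ℝ} (hω : ∀ z ∈ V, 0 ≤ ω z ∧ ω z ≤ W)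
    {S : (ℂ → ℂ) → ℂ → ℂ} {q : ℝ} (hq0 : 0 ≤ q) (hq : q < 1)
    (hS : ∀ f A, 0 ≤ A → Cls V ω f A → Cls V ω (S f) (q * A))
    (hadd : ∀ f g A B, Cls V ω f A → Cls V ω g B → ∀ z ∈ V, S (f + g) z = S f z + S g z)
    {d : ℂ → ℂ} {A : ℝ} (hA : 0 ≤ A) (hd : Cls V ω d A) :
    ∃ f, Cls V ω f (A / (1 - q)) ∧ ∀ z ∈ V, f z - S f z = d z := by
  have hn : ∀ n, Cls V ω (S^[n] d) (q ^ n * A) := by
    intro n
    induction n with
    | zero => simpa using hd
    | succ n ih =>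
      rw [Function.iterate_succ_apply', pow_succ', mul_assoc]
      exact hS _ _ (by positivity) ih
  have hsum : Summable fun n => q ^ n * A := (summable_geometric_of_lt_one hq0 hq).mul_right _
  have htail : ∀ k, (∀ z ∈ V, Summable fun n => S^[n + k] d z) ∧
      Cls V ω (fun z => ∑' n, S^[n + k] d z) (q ^ k * (A / (1 - q))) := by
    intro k
    have := Cls.tsum hV hω (d := fun n => S^[n + k] d) (A := fun n => q ^ (n + k) * A)
      (fun n => by positivity) ((summable_nat_add_iff k).mpr hsum) (fun n => hn (n + k))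
    have e : ∑' n, q ^ (n + k) * A = q ^ k * (A / (1 - q)) := by
      simp only [pow_add, mul_assoc]
      rw [tsum_mul_right, tsum_geometric_of_lt_one hq0 hq]
      field_simp
    rwa [e] at this
  set T : ℕ → ℂ → ℂ := fun k z => ∑' n, S^[n + k] d z with hT
  have hrec : ∀ k, ∀ z ∈ V, T k z = S^[k] d z + T (k + 1) z := by
    intro k z hz
    simp only [hT]
    rw [((htail k).1 z hz).tsum_eq_zero_add]
    simp only [zero_add, add_assoc, add_comm 1 k]
  have hcongr : ∀ f g B, Cls V ω f B → (∀ z ∈ V, g z = f z) → ∀ z ∈ V, S g z = S f z := by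
    intro f g B hf h z hz
    have h0 : Cls V ω (g - f) 0 := ⟨(differentiableOn_const (0 : ℂ)).congr fun z hz => by
      simp [h z hz], fun z hz _ => by simp [h z hz], fun z hz => by simp [h z hz]⟩
    have h1 := hadd _ _ _ _ hf h0 z hz
    have h2 := (hS _ _ le_rfl h0).bd z hz
    simp only [mul_zero, zero_mul, norm_le_zero_iff] at h2
    rw [h2, add_zero, add_sub_cancel] at h1
    exact h1
  have hkey : ∀ k, ∀ z ∈ V, S (T 0) z - T 1 z = S (T k) z - T (k + 1) z := by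
    intro k
    induction k with
    | zero => intro z _; rfl
    | succ k ih =>
      intro z hz
      rw [ih z hz, hcongr _ (T k) _ ((hn k).add (htail (k + 1)).2) (hrec k) z hz,
        hadd _ _ _ _ (hn k) (htail (k + 1)).2 z hz, hrec (k + 1) z hz,
        Function.iterate_succ_apply']
      ring
  refine ⟨T 0, by simpa only [pow_zero, one_mul] using (htail 0).2, fun z hz => ?_⟩
  have h1q : 0 < 1 - q := by linarith
  have hz0 : S (T 0) z - T 1 z = 0 := by
    refine norm_le_zero_iff.mp (ge_of_tendsto' (f := fun k : ℕ => q ^ k * (2 * (A / (1 - q)) * ω z))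
      (x := atTop) ?_ fun k => ?_)
    · simpa using (tendsto_pow_atTop_nhds_zero_of_lt_one hq0 hq).mul_const
        (2 * (A / (1 - q)) * ω z)
    · rw [hkey k z hz]
      have a1 := (hS _ _ (by positivity) (htail k).2).bd z hz
      have a2 := (htail (k + 1)).2.bd z hz
      have a3 : 0 ≤ q ^ k * (A / (1 - q)) * ω z := by have := (hω z hz).1; positivity
      refine (norm_sub_le _ _).trans ?_
      rw [pow_succ] at a2
      nlinarith
  have := hrec 0 z hz
  simp only [Function.iterate_zero, id_eq, zero_add] at this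
  linear_combination this - hz0

end

end Pool.Agent.Lib.MP_87c84d_gt
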